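import Pool.Agent.TH294.RG.Pl10

/-!
Project RG (helper294): the first moment of the local mass; averages over discs.
-/

set_option autoImplicit false
open MeasureTheory Filter Topology Complex ProbabilityTheory
open scoped ContDiff

namespace Pool.Agent.TH294.RG

open Pool.Agent.W745.RW Pool.Agent.TH294.RS

noncomputable section

/-- the mean over a disc in terms of the uniform measure on the unit disc -/
lemma mean_dm (f : ℂ → ℝ) (z : ℂ) {r : ℝ} (hr : 0 < r) :
    1 / (Real.pi * r ^ 2) * ∫ w in Metric.ball z r, f w = ∫ w, f (z + r • w) ∂dm := by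
  have h1 := dm_scale (fun w => f (z + w)) hr
  rw [h1, smul_eq_mul]
  congr 1
  have h2 := (measurePreserving_add_left (volume : Measure ℂ) z).setIntegral_preimage_emb
    (Homeomorph.addLeft z).measurableEmbedding f (Metric.ball z r)
  have h3 : (fun w => z + w) ⁻¹' Metric.ball z r = Metric.ball 0 r := by
    ext w
    simp [dist_eq_norm]
  rw [h3] at h2
  exact h2.symm

lemma swap_avg {φ g : ℂ → ℝ} (hφ : Continuous φ) (hφc : HasCompactSupport φ) (hg : Continuous g)
    {C : ℝ} (hC : ∀ z, |g z| ≤ C) (r : ℝ) :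
    ∫ z, φ z * ∫ w, g (z + r • w) ∂dm = ∫ w, (∫ z, φ (z - r • w) * g z) ∂dm := by
  have i1 : Integrable φ := hφ.integrable_of_hasCompactSupport hφc
  have i2 : Integrable (fun p : ℂ × ℂ => φ p.1 * g (p.1 + r • p.2)) (volume.prod dm) := by
    refine (i1.comp_fst dm).mul_bdd (c := C) ?_ (ae_of_all _ fun p => hC _)
    exact (hg.comp (continuous_fst.add (continuous_snd.const_smul r))).aestronglyMeasurable
  have e1 : ∫ z, φ z * ∫ w, g (z + r • w) ∂dm = ∫ z, ∫ w, φ z * g (z + r • w) ∂dm := by
    congr 1; funext z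
    rw [integral_const_mul]
  rw [e1, integral_integral_swap i2]
  congr 1; funext w
  have := integral_add_right_eq_self (μ := (volume : Measure ℂ))
    (fun z => φ (z - r • w) * g z) (r • w)
  rw [← this]
  congr 1; funext z
  simp

/-- **First moment of the local mass** -/
theorem first_moment {Ω : Set ℂ} (hΩ : IsOpen Ω) {h : ℕ → ℝ} {u : ℕ → ℂ → ℝ} {m : ℂ → ℝ}
    (hp : ∀ n, 0 < h n) (hh : Tendsto h atTop (𝓝 0)) (sm : ∀ n, ContDiffOn ℝ ∞ (u n) Ω)
    (hq : ∀ φ, TF Ω φ → Tendsto (fun n => ∫ z, φ z * u n z ^ 2) atTop (𝓝 (∫ z, φ z * m z)))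
    {φ : ℂ → ℝ} (hφ : TF Ω φ) {R : ℝ} (hR : 0 < R) :
    Tendsto (fun n => ∫ z, φ z * ∫ w, u n (z + (R * h n) • w) ^ 2 ∂dm) atTop
      (𝓝 (∫ z, φ z * m z)) := by
  set S := tsupport φ with hS
  have cS : IsCompact S := hφ.2.1
  obtain ⟨δ, hδ, hδB⟩ := cS.exists_cthickening_subset_open hΩ hφ.2.2
  have cK1 : IsCompact (Metric.cthickening δ S) := cS.cthickening
  obtain ⟨χ, hχ, hχ1, c0, c1⟩ := exists_cut hΩ cK1 hδB
  obtain ⟨L, hL⟩ : ∃ L : NNReal, LipschitzWith L φ :=
    (hφ.1.of_le (by exact_mod_cast le_top : (1 : WithTop ℕ∞) ≤ ∞)).lipschitzWith_of_hasCompactSupport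
      hφ.2.1 one_ne_zero
  have ev0 : ∀ᶠ n in atTop, R * h n < δ := by
    have : Tendsto (fun n => R * h n) atTop (𝓝 0) := by simpa using hh.const_mul R
    exact this.eventually (gt_mem_nhds hδ)
  have key : ∀ᶠ n in atTop, |(∫ z, φ z * ∫ w, u n (z + (R * h n) • w) ^ 2 ∂dm) -
      ∫ z, φ z * u n z ^ 2| ≤ L * (R * h n) * ∫ z, χ z * u n z ^ 2 := by
    filter_upwards [ev0] with n g0
    have hr : 0 < R * h n := mul_pos hR (hp n)
    have hG := TF.mulc hΩ hχ ((sm n).pow 2)
    have hGc : Continuous (fun z => χ z * u n z ^ 2) := hG.1.continuous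
    obtain ⟨C, hC⟩ := hG.2.1.exists_bound_of_continuous hGc
    have hSU : S ⊆ Metric.thickening δ S := Metric.self_subset_thickening hδ S
    have hUK : Metric.thickening δ S ⊆ Metric.cthickening δ S :=
      Metric.thickening_subset_cthickening δ S
    have e1 : ∫ z, φ z * ∫ w, u n (z + (R * h n) • w) ^ 2 ∂dm =
        ∫ z, φ z * ∫ w, (fun z => χ z * u n z ^ 2) (z + (R * h n) • w) ∂dm := by
      congr 1; funext z
      by_cases hz : z ∈ S
      · congr 1
        refine integral_congr_ae (dm_ae.mono fun w hw => ?_)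
        have hzw : z + (R * h n) • w ∈ Metric.thickening δ S := by
          rw [Metric.mem_thickening_iff]
          refine ⟨z, hz, ?_⟩
          rw [dist_eq_norm, add_sub_cancel_left, norm_smul, Real.norm_eq_abs, abs_of_pos hr]
          calc R * h n * ‖w‖ ≤ R * h n * 1 := mul_le_mul_of_nonneg_left hw.le hr.le
            _ < δ := by rw [mul_one]; exact g0
        show u n (z + (R * h n) • w) ^ 2 = χ (z + (R * h n) • w) * u n (z + (R * h n) • w) ^ 2
        rw [hχ1 _ (hUK hzw), one_mul]
      · rw [image_eq_zero_of_notMem_tsupport hz]; simp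
    have e2 : ∫ z, φ z * u n z ^ 2 = ∫ _w : ℂ, (∫ z, φ z * (χ z * u n z ^ 2)) ∂dm := by
      rw [integral_const]
      simp only [probReal_univ, one_smul]
      congr 1; funext z
      by_cases hz : z ∈ S
      · rw [hχ1 z (hUK (hSU hz)), one_mul]
      · rw [image_eq_zero_of_notMem_tsupport hz]; simp
    have iG : Integrable (fun z => χ z * u n z ^ 2) :=
      hGc.integrable_of_hasCompactSupport hG.2.1
    have i0 : ∀ w : ℂ, Integrable (fun z => φ (z - (R * h n) • w) * (χ z * u n z ^ 2)) := by
      intro w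
      obtain ⟨D, hD⟩ := hφ.2.1.exists_bound_of_continuous hφ.1.continuous
      refine iG.bdd_mul (c := D) ?_ (ae_of_all _ fun z => hD _)
      exact (hφ.1.continuous.comp (continuous_id.sub continuous_const)).aestronglyMeasurable
    have i00 : Integrable (fun z => φ z * (χ z * u n z ^ 2)) := by
      have := i0 0
      simpa using this
    rw [e1, swap_avg hφ.1.continuous hφ.2.1 hGc hC, e2]
    have nn : 0 ≤ ∫ z, χ z * u n z ^ 2 := integral_nonneg fun z => by
      have := c0 z
      positivity
    have bd : ∀ w : ℂ, ‖w‖ ≤ 1 → |(∫ z, φ (z - (R * h n) • w) * (χ z * u n z ^ 2)) -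
        ∫ z, φ z * (χ z * u n z ^ 2)| ≤ L * (R * h n) * ∫ z, χ z * u n z ^ 2 := by
      intro w hw
      rw [← integral_sub (i0 w) i00, ← integral_const_mul]
      have := norm_integral_le_of_norm_le (μ := (volume : Measure ℂ))
        (f := fun z => φ (z - (R * h n) • w) * (χ z * u n z ^ 2) - φ z * (χ z * u n z ^ 2))
        (iG.const_mul (L * (R * h n))) (ae_of_all _ fun z => by
          have h3 : 0 ≤ χ z * u n z ^ 2 := by
            have := c0 z
            positivity
          rw [← sub_mul, norm_mul, Real.norm_eq_abs (χ z * u n z ^ 2), abs_of_nonneg h3]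
          refine mul_le_mul_of_nonneg_right ?_ h3
          have h4 := hL.dist_le_mul (z - (R * h n) • w) z
          rw [dist_eq_norm, dist_eq_norm] at h4
          refine h4.trans ?_
          refine mul_le_mul_of_nonneg_left ?_ L.coe_nonneg
          rw [sub_sub_cancel_left, norm_neg, norm_smul, Real.norm_eq_abs, abs_of_pos hr]
          exact mul_le_of_le_one_right hr.le hw)
      rw [Real.norm_eq_abs] at this
      exact this
    -- integrate over w
    have i3 : Integrable (fun w : ℂ => ∫ z, φ (z - (R * h n) • w) * (χ z * u n z ^ 2)) dm := by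
      have i2 : Integrable (fun p : ℂ × ℂ => φ p.1 * (fun z => χ z * u n z ^ 2)
          (p.1 + (R * h n) • p.2)) (volume.prod dm) := by
        have i1 : Integrable φ := hφ.1.continuous.integrable_of_hasCompactSupport hφ.2.1
        refine (i1.comp_fst dm).mul_bdd (c := C) ?_ (ae_of_all _ fun p => hC _)
        exact (hGc.comp (continuous_fst.add
          (continuous_snd.const_smul (R * h n)))).aestronglyMeasurable
      have i4 := i2.integral_prod_right
      refine i4.congr (ae_of_all _ fun w => ?_)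
      have := integral_add_right_eq_self (μ := (volume : Measure ℂ))
        (fun z => φ (z - (R * h n) • w) * (χ z * u n z ^ 2)) ((R * h n) • w)
      refine Eq.trans ?_ this
      show ∫ z, φ z * (χ (z + (R * h n) • w) * u n (z + (R * h n) • w) ^ 2) = _
      congr 1; funext z
      simp
    rw [← integral_sub i3 (integrable_const _)]
    have := norm_integral_le_of_norm_le_const (μ := dm)
      (f := fun w : ℂ => (∫ z, φ (z - (R * h n) • w) * (χ z * u n z ^ 2)) -
        ∫ z, φ z * (χ z * u n z ^ 2)) (C := L * (R * h n) * ∫ z, χ z * u n z ^ 2)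
      (dm_ae.mono fun w hw => by
        rw [Real.norm_eq_abs]
        exact bd w hw.le)
    simpa using this
  -- conclusion
  have l1 := hq φ hφ
  have l2 := hq χ hχ
  have l3 : Tendsto (fun n => L * (R * h n) * ∫ z, χ z * u n z ^ 2) atTop (𝓝 0) := by
    have := ((hh.const_mul R).const_mul (L : ℝ)).mul l2
    simpa using this
  have l4 : Tendsto (fun n => (∫ z, φ z * ∫ w, u n (z + (R * h n) • w) ^ 2 ∂dm) -
      ∫ z, φ z * u n z ^ 2) atTop (𝓝 0) := squeeze_zero_norm' key l3
  have l5 := l4.add l1
  simpa using l5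

end

end Pool.Agent.TH294.RG
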