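import Pool.Agent.TH294.RG.Jc7

/-!
Project RG (helper294): joint cubic moments, all frequency ratios.
-/

set_option autoImplicit false
open MeasureTheory Filter Topology Complex ProbabilityTheory
open scoped ContDiff

namespace Pool.Agent.TH294.RG

open Pool.Agent.W745.RW Pool.Agent.TH294.RS

noncomputable section

variable {m : ℂ → ℝ} {ν : Kernel ℂ ℝ}

/-- solutions converge weakly to zero -/
lemma GS.wn {B : Set ℂ} (hB : IsOpen B) {a : ℂ → ℝ} (ha : ContDiffOn ℝ ∞ a B)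
    (hpa : ∀ z ∈ B, 0 < a z) {k : ℕ → ℝ} (kp : ∀ n, 0 < k n) (kl : Tendsto k atTop (𝓝 0))
    {G : ℕ → ℂ → ℂ} (HG : GS B a k (fun _ => 1) 1 G) : WN B G := by
  have G1 := HG.lb1 hB kp kl ha hpa
  have l1 : LB B 1 (fun n z => DP a (k n) (G n) z) := LB.low (p := 1) G1
  have l2 : LB B 1 (fun n z => ab a z * DP a (k n) (G n) z) := l1.smulc (ab_sm hB ha)
  refine ((l2.wn kl).sub (l1.wnM hB kl ha)).congr fun n z hz => ?_
  have sG : ContDiffOn ℝ ∞ (G n) B := HG.lb.sm n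
  have c3 : DM a (k n) (fun z => DP a (k n) (G n) z) z = _ := MP hB ha (k n) sG hz
  rw [HG.eq n z hz] at c3
  push_cast at c3 ⊢
  linear_combination c3

/-- change of the semiclassical parameter -/
lemma GS.chg {B : Set ℂ} {a : ℂ → ℝ} {h k : ℕ → ℝ} (kp : ∀ n, 0 < k n)
    {G : ℕ → ℂ → ℂ} (HG : GS B a k (fun _ => 1) 1 G) {R : ℝ}
    (hq : Tendsto (fun n => (h n / k n) ^ 2) atTop (𝓝 R)) :
    GS B a h (fun n => (h n / k n) ^ 2) R G := by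
  refine ⟨HG.lb, hq, fun n z hz => ?_⟩
  have h1 := HG.eq n z hz
  have hk : (k n : ℂ) ≠ 0 := by exact_mod_cast (kp n).ne'
  push_cast at h1 ⊢
  have e : (h n : ℂ) ^ 2 * ((a z : ℂ) ^ 2 * lap (G n) z) = ((h n : ℂ) / (k n : ℂ)) ^ 2 *
      ((k n : ℂ) ^ 2 * ((a z : ℂ) ^ 2 * lap (G n) z)) := by
    field_simp
  rw [e, h1]; ring

lemma LB.wbd {B : Set ℂ} (hB : IsOpen B) {G : ℕ → ℂ → ℂ} (hG : LB B 2 G) {φ : ℂ → ℝ}
    (hφ : TF B φ) : ∃ D : ℝ, 0 ≤ D ∧ ∀ᶠ n in atTop, ∫ z, φ z * ‖G n z‖ ^ 2 ≤ D := by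
  obtain ⟨Mφ, hMφ⟩ := hφ.2.1.exists_bound_of_continuousOn hφ.1.continuous.continuousOn
  have hφM : ∀ z, φ z ≤ |Mφ| := by
    intro z
    by_cases hz : z ∈ tsupport φ
    · exact (le_abs_self _).trans ((hMφ z hz).trans (le_abs_self _))
    · rw [image_eq_zero_of_notMem_tsupport hz]; exact abs_nonneg _
  obtain ⟨C, hC⟩ := hG.bd _ hφ.2.1 hφ.2.2
  have cG : ∀ n, ContinuousOn (G n) B := fun n => hG.co n
  refine ⟨|Mφ| * |C|, by positivity, hC.mono fun n g2 => ?_⟩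
  have i2 : Integrable (fun z => φ z * ‖G n z‖ ^ 2) :=
    Pool.Agent.W311.RW.int_mul hB hφ ((cG n).norm.pow 2)
  have e1 : ∫ z, φ z * ‖G n z‖ ^ 2 ≤ |Mφ| * ∫ z in tsupport φ, ‖G n z‖ ^ 2 := by
    rw [← integral_const_mul, ← integral_indicator hφ.2.1.measurableSet]
    have i3 : IntegrableOn (fun z => |Mφ| * ‖G n z‖ ^ 2) (tsupport φ) :=
      ((continuousOn_const.mul ((cG n).norm.pow 2)).mono hφ.2.2).integrableOn_compact hφ.2.1
    refine integral_mono i2 ((integrable_indicator_iff hφ.2.1.measurableSet).2 i3) fun z => ?_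
    by_cases hz : z ∈ tsupport φ
    · rw [Set.indicator_of_mem hz]
      exact mul_le_mul_of_nonneg_right (hφM z) (by positivity)
    · rw [Set.indicator_of_notMem hz]
      show φ z * _ ≤ 0
      rw [image_eq_zero_of_notMem_tsupport hz, zero_mul]
  refine e1.trans ?_
  exact mul_le_mul_of_nonneg_left (g2.trans (le_abs_self C)) (abs_nonneg Mφ)

/-- the excess is asymptotically nonnegative -/
lemma ex_nn [IsMarkovKernel ν] {Ω : Set ℂ}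
    (hm : ∀ K : Set ℂ, IsCompact K → K ⊆ Ω → MemLp m 2 (volume.restrict K))
    (hp : ∀ᵐ z ∂(volume.restrict Ω), par ea (ν z) = 0) {a : ℂ → ℝ} {h : ℕ → ℝ} {u : ℕ → ℂ → ℝ}
    (H : RawG Ω a h u (MM m ea ν)) {K : Set ℂ} (hK : IsCompact K) (hKΩ : K ⊆ Ω)
    {φ : ℂ → ℝ} (hφ : TF (interior K) φ) (hφ0 : ∀ z, 0 ≤ φ z) {ε : ℝ} (hε : 0 < ε) :
    ∀ᶠ n in atTop, 0 ≤ ((∫ z, φ z * u n z ^ 4) - 3 * ∫ z, φ z * m z ^ 2) +
      ε * (1 + ∫ z in K, u n z ^ 4) := by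
  have key := fam_rel hm hp H hK hKΩ hφ hφ0 (∅ : Finset ℕ) (fun _ => 0)
    (fun _ => ((0, 0, 0, 0) : ℤ × ℤ × ℤ × ℤ)) (C := 1) (fun ζ _ => by simp) hε
  refine key.mono fun n hn => ?_
  simp only [Finset.sum_empty, sub_zero, norm_zero, one_mul] at hn
  exact hn

/-- the ratio of the frequencies has a limit along a subsequence -/
lemma sub_ratio (h k : ℕ → ℝ) (hp : ∀ n, 0 < h n) (kp : ∀ n, 0 < k n) (ns : ℕ → ℕ) :
    ∃ σ : ℕ → ℕ, StrictMono σ ∧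
    (Tendsto (fun n => k (ns (σ n)) / h (ns (σ n))) atTop (𝓝 0) ∨
      ∃ R : ℝ, 0 ≤ R ∧ Tendsto (fun n => (h (ns (σ n)) / k (ns (σ n))) ^ 2) atTop (𝓝 R)) := by
  by_cases hbd : ∃ C : ℝ, ∃ᶠ n in atTop, (h (ns n) / k (ns n)) ^ 2 ≤ C
  · obtain ⟨C, hC⟩ := hbd
    obtain ⟨τ, hτ, hτC⟩ := extraction_of_frequently_atTop hC
    obtain ⟨R, hR, σ, hσ, hσR⟩ := isCompact_Icc.tendsto_subseq (s := Set.Icc (0 : ℝ) C)
      (x := fun n => (h (ns (τ n)) / k (ns (τ n))) ^ 2) (fun n => ⟨by positivity, hτC n⟩)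
    exact ⟨τ ∘ σ, hτ.comp hσ, Or.inr ⟨R, hR.1, hσR⟩⟩
  · push Not at hbd
    refine ⟨id, strictMono_id, Or.inl ?_⟩
    have h1 : Tendsto (fun n => (h (ns n) / k (ns n)) ^ 2) atTop atTop := by
      rw [tendsto_atTop]
      exact fun C => (hbd C).mono fun n hn => hn.le
    have h2 : Tendsto (fun n => h (ns n) / k (ns n)) atTop atTop := by
      have h3 := Real.tendsto_sqrt_atTop.comp h1
      refine h3.congr fun n => ?_
      show √((h (ns n) / k (ns n)) ^ 2) = _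
      rw [Real.sqrt_sq (div_pos (hp _) (kp _)).le]
    have h4 := h2.inv_tendsto_atTop
    refine h4.congr fun n => ?_
    show (h (ns n) / k (ns n))⁻¹ = _
    rw [inv_div]; rfl

/-- **Away from the exceptional frequencies.** -/
theorem joint_off [IsMarkovKernel ν] {Ω : Set ℂ}
    (hm : ∀ K : Set ℂ, IsCompact K → K ⊆ Ω → MemLp m 2 (volume.restrict K))
    (hp : ∀ᵐ z ∂(volume.restrict Ω), par ea (ν z) = 0) {a : ℂ → ℝ} {h : ℕ → ℝ} {u : ℕ → ℂ → ℝ}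
    (H : RawG Ω a h u (MM m ea ν)) {k : ℕ → ℝ} (kp : ∀ n, 0 < k n)
    (kl : Tendsto k atTop (𝓝 0)) {G : ℕ → ℂ → ℂ} (HG : GS Ω a k (fun _ => 1) 1 G)
    {δ : ℝ} (hδ : 0 < δ) (hδ1 : ∀ᶠ n in atTop, δ ≤ (h n / k n) ^ 2)
    (hδ2 : ∀ᶠ n in atTop, δ ≤ |(h n / k n) ^ 2 - 4|)
    {K : Set ℂ} (hK : IsCompact K) (hKΩ : K ⊆ Ω)
    {φ : ℂ → ℝ} (hφ : TF (interior K) φ) (i j : ℤ) :
    Tendsto (fun n => ((√(1 + ∫ z in K, u n z ^ 4) : ℝ) : ℂ)⁻¹ * ∫ z, (φ z : ℂ) *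
      (ww a h (fun n z => (u n z : ℂ)) i n z * ww a h (fun n z => (u n z : ℂ)) j n z *
        G n z)) atTop (𝓝 0) := by
  refine tendsto_of_subseq_tendsto fun ns hns => ?_
  obtain ⟨σ, hσ, hσ2⟩ := sub_ratio h k H.hpos kp ns
  refine ⟨σ, ?_⟩
  have hs := hns.comp hσ.tendsto_atTop
  have H1 := H.cmp (le_refl Ω) hs
  have HG1 := HG.cmp (le_refl Ω) hs
  have e : ∀ q n z, ww a (fun n => h ((ns ∘ σ) n)) (fun n z => ((u ((ns ∘ σ) n) z : ℝ) : ℂ)) q n z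
      = ww a h (fun n z => (u n z : ℂ)) q (ns (σ n)) z := fun q n z =>
    congrFun (ww_sub a h (fun n z => (u n z : ℂ)) (ns ∘ σ) q n) z
  rcases hσ2 with h0 | ⟨R, hR0, hR⟩
  · have key := joint_inf hm H1 (fun n => kp _) (kl.comp hs) h0 HG1 hK hKΩ hφ i j
    simp only [e] at key
    exact key
  · have R1 : δ ≤ R := ge_of_tendsto hR (hs.eventually hδ1)
    have R2 : δ ≤ |R - 4| := ge_of_tendsto ((hR.sub_const 4).abs) (hs.eventually hδ2)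
    have R4 : R ≠ 4 := by
      intro h4
      rw [h4] at R2
      simp at R2
      linarith
    have HG2 := HG1.chg (h := fun n => h ((ns ∘ σ) n)) (fun n => kp _) hR
    have key := joint_lim hm hp H1 HG2 (by linarith) R4 hK hKΩ hφ i j
    simp only [e] at key
    exact key

/-- **All frequencies.** -/
theorem joint_all [IsMarkovKernel ν] {Ω : Set ℂ} (hΩ : IsOpen Ω)
    (hm : ∀ K : Set ℂ, IsCompact K → K ⊆ Ω → MemLp m 2 (volume.restrict K))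
    (hms : ContDiffOn ℝ ∞ m Ω)
    (hp : ∀ᵐ z ∂(volume.restrict Ω), par ea (ν z) = 0) {a : ℂ → ℝ} {h : ℕ → ℝ} {u : ℕ → ℂ → ℝ}
    (H : RawG Ω a h u (MM m ea ν)) {k : ℕ → ℝ} (kp : ∀ n, 0 < k n)
    (kl : Tendsto k atTop (𝓝 0)) {G : ℕ → ℂ → ℂ} (HG : GS Ω a k (fun _ => 1) 1 G)
    {c : ℝ} (hc : c = 2 / 3 ∨ (c = 1 / 3 ∧ ∃ δ : ℝ, 0 < δ ∧ ∀ᶠ n in atTop, δ ≤ (h n / k n) ^ 2))
    {K : Set ℂ} (hK : IsCompact K) (hKΩ : K ⊆ Ω)
    {φ : ℂ → ℝ} (hφ : TF (interior K) φ) (hφ0 : ∀ z, 0 ≤ φ z) {ε : ℝ} (hε : 0 < ε) :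
    ∀ᶠ n in atTop, ‖∫ z, (φ z : ℂ) * ((u n z : ℂ) ^ 2 * G n z)‖ ^ 2 ≤
      c * ((∫ z, φ z * u n z ^ 4) - 3 * ∫ z, φ z * m z ^ 2) *
        (∫ z, φ z * ‖G n z‖ ^ 2) + ε * (1 + ∫ z in K, u n z ^ 4) := by
  have hB : IsOpen (interior K) := isOpen_interior
  have hBΩ : interior K ⊆ Ω := interior_subset.trans hKΩ
  have T0 : ∀ n, 0 ≤ ∫ z in K, u n z ^ 4 := fun n => integral_nonneg fun z => by positivity
  have c0 : 0 ≤ c ∧ c ≤ 1 := by
    rcases hc with h1 | ⟨h1, -⟩ <;> rw [h1] <;> norm_num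
  by_contra hcon
  rw [not_eventually] at hcon
  obtain ⟨ns, hns', hnsf⟩ := extraction_of_frequently_atTop hcon
  have hns := hns'.tendsto_atTop
  obtain ⟨σ, hσ, hσ2⟩ := sub_ratio h k H.hpos kp ns
  have hs := hns.comp hσ.tendsto_atTop
  have H1 := H.cmp (le_refl Ω) hs
  have HG1 := HG.cmp (le_refl Ω) hs
  obtain ⟨D, hD0, hD⟩ := LB.wbd hB (HG1.lb.mono hBΩ) hφ
  -- the excess
  have ex := ex_nn hm hp H1 hK hKΩ hφ hφ0 (ε := ε / (2 * (D + 1))) (by positivity)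
  have g0 : ∀ n, 0 ≤ ∫ z, φ z * ‖G n z‖ ^ 2 := fun n =>
    integral_nonneg fun z => mul_nonneg (hφ0 z) (sq_nonneg _)
  -- a lower bound for the right side
  have rhs : ∀ᶠ n in atTop, ∀ x : ℝ, 0 ≤ x → x ≤ 1 → - (ε / 2 * (1 + ∫ z in K,
      u ((ns ∘ σ) n) z ^ 4)) ≤ x * ((∫ z, φ z * u ((ns ∘ σ) n) z ^ 4) - 3 * ∫ z, φ z * m z ^ 2) *
        (∫ z, φ z * ‖G ((ns ∘ σ) n) z‖ ^ 2) := by
    filter_upwards [ex, hD] with n h1 h2 x hx0 hx1
    obtain ⟨E, hE⟩ : ∃ E, E = (∫ z, φ z * u ((ns ∘ σ) n) z ^ 4) - 3 * ∫ z, φ z * m z ^ 2 :=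
      ⟨_, rfl⟩
    obtain ⟨g, hg⟩ : ∃ g, g = ∫ z, φ z * ‖G ((ns ∘ σ) n) z‖ ^ 2 := ⟨_, rfl⟩
    obtain ⟨T, hT⟩ : ∃ T, T = 1 + ∫ z in K, u ((ns ∘ σ) n) z ^ 4 := ⟨_, rfl⟩
    have gg : 0 ≤ g := by rw [hg]; exact g0 _
    have TT : 0 ≤ T := by rw [hT]; linarith [T0 ((ns ∘ σ) n)]
    rw [← hE, ← hT] at h1
    rw [← hg] at h2
    rw [← hE, ← hT, ← hg]
    have a1 : - (ε / (2 * (D + 1)) * T) ≤ E := by linarith
    have a2 : x * g ≤ D := (mul_le_of_le_one_left gg hx1).trans h2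
    have a3 := mul_le_mul_of_nonneg_left a1 (mul_nonneg hx0 gg)
    have a4 : (x * g) * (ε / (2 * (D + 1)) * T) ≤ (D + 1) * (ε / (2 * (D + 1)) * T) :=
      mul_le_mul_of_nonneg_right (by linarith) (by positivity)
    have a5 : (D + 1) * (ε / (2 * (D + 1)) * T) = ε / 2 * T := by
      have : D + 1 ≠ 0 := by positivity
      field_simp
    nlinarith
  -- the vanishing case
  have small : Tendsto (fun n => ((√(1 + ∫ z in K, u (ns (σ n)) z ^ 4) : ℝ) : ℂ)⁻¹ *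
      ∫ z, (φ z : ℂ) * (ww a h (fun n z => (u n z : ℂ)) 0 (ns (σ n)) z *
        ww a h (fun n z => (u n z : ℂ)) 0 (ns (σ n)) z * G (ns (σ n)) z)) atTop (𝓝 0) → False := by
    intro key
    have e0 : ∀ n z, ww a h (fun n z => (u n z : ℂ)) 0 n z = (u n z : ℂ) := fun _ _ => rfl
    simp only [e0] at key
    have k2 := (key.norm.pow 2).eventually (gt_mem_nhds (show ‖(0 : ℂ)‖ ^ 2 < ε / 2 by
      rw [norm_zero]; norm_num; exact hε))
    obtain ⟨n, n1, n2⟩ := (k2.and rhs).exists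
    have n3 := n2 c c0.1 c0.2
    apply hnsf (σ n)
    simp only [Function.comp_def] at n3
    have Tp : 0 < 1 + ∫ z in K, u (ns (σ n)) z ^ 4 := by linarith [T0 (ns (σ n))]
    rw [norm_mul, norm_inv, norm_real, Real.norm_eq_abs, abs_of_nonneg (Real.sqrt_nonneg _),
      mul_pow, inv_pow, Real.sq_sqrt Tp.le, inv_mul_lt_iff₀ Tp] at n1
    have e1 : ∀ z, (φ z : ℂ) * ((u (ns (σ n)) z : ℂ) * (u (ns (σ n)) z : ℂ) * G (ns (σ n)) z) =
        (φ z : ℂ) * ((u (ns (σ n)) z : ℂ) ^ 2 * G (ns (σ n)) z) := fun z => by ring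
    simp only [e1] at n1
    linarith
  have e : ∀ q n z, ww a (fun n => h ((ns ∘ σ) n)) (fun n z => ((u ((ns ∘ σ) n) z : ℝ) : ℂ)) q n z
      = ww a h (fun n z => (u n z : ℂ)) q (ns (σ n)) z := fun q n z =>
    congrFun (ww_sub a h (fun n z => (u n z : ℂ)) (ns ∘ σ) q n) z
  -- the exceptional cases
  have exc : ∀ R : ℝ, (R = 0 ∨ R = 4) → (if R = 0 then 2 / 3 else 1 / 3 : ℝ) ≤ c →
      Tendsto (fun n => (h (ns (σ n)) / k (ns (σ n))) ^ 2) atTop (𝓝 R) → False := by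
    intro R hR hRc hRt
    have HG2 := HG1.chg (h := fun n => h ((ns ∘ σ) n)) (fun n => kp _) hRt
    have wn := (HG1.wn hΩ H.sa H.pa (fun n => kp _) (kl.comp hs)).nul
    have hφΩ : TF Ω φ := ⟨hφ.1, hφ.2.1, hφ.2.2.trans hBΩ⟩
    have hG0 : Tendsto (fun n => ∫ z, (φ z : ℂ) * ((m z : ℂ) * G ((ns ∘ σ) n) z)) atTop
        (𝓝 0) := by
      refine (wn _ (TF.mulc hΩ hφΩ hms)).congr fun n => ?_
      congr 1; funext z
      push_cast; ring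
    have key := joint_ineq hm hms hp H1 HG2 hR hK hKΩ hφ hφ0 hG0 (ε := ε / 2) (by positivity)
    obtain ⟨n, n1, n2⟩ := (key.and rhs).exists
    apply hnsf (σ n)
    simp only [Function.comp_def] at n1 n2
    obtain ⟨cR, hcR⟩ : ∃ cR : ℝ, cR = if R = 0 then 2 / 3 else 1 / 3 := ⟨_, rfl⟩
    rw [← hcR] at n1 hRc
    have cR0 : 0 ≤ cR := by rw [hcR]; split_ifs <;> norm_num
    have n3 := n2 (c - cR) (by linarith) (by linarith [c0.2])
    refine n1.trans ?_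
    nlinarith
  rcases hσ2 with h0 | ⟨R, hR0, hR⟩
  · have key := joint_inf hm H1 (fun n => kp _) (kl.comp hs) h0 HG1 hK hKΩ hφ 0 0
    simp only [e] at key
    exact small key
  · by_cases hR00 : R = 0
    · rcases hc with h1 | ⟨h1, δ, hδ, hδ2⟩
      · exact exc R (Or.inl hR00) (by rw [if_pos hR00, h1]) hR
      · have : δ ≤ R := ge_of_tendsto hR (hs.eventually hδ2)
        linarith
    · by_cases hR4 : R = 4
      · refine exc R (Or.inr hR4) ?_ hR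
        rw [if_neg hR00]
        rcases hc with h1 | ⟨h1, -⟩ <;> rw [h1]
        norm_num
      · have HG2 := HG1.chg (h := fun n => h ((ns ∘ σ) n)) (fun n => kp _) hR
        have key := joint_lim hm hp H1 HG2 (lt_of_le_of_ne hR0 (Ne.symm hR00)) hR4 hK hKΩ hφ 0 0
        simp only [e] at key
        exact small key

end

end Pool.Agent.TH294.RG
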