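import Pool.Agent.TH294.RG.Js3

/-!
Project RG (helper294): fourth order moments with slowly varying factors, odd powers.
-/

set_option autoImplicit false
open MeasureTheory Filter Topology Complex ProbabilityTheory
open scoped ContDiff

namespace Pool.Agent.TH294.RG

open Pool.Agent.W745.RW Pool.Agent.TH294.RS

noncomputable section

variable {m : ℂ → ℝ} {ν : Kernel ℂ ℝ}

/-- **One slow factor.** -/
theorem slow_cube [IsMarkovKernel ν] {Ω : Set ℂ}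
    (hm : ∀ K : Set ℂ, IsCompact K → K ⊆ Ω → MemLp m 2 (volume.restrict K))
    (hp : ∀ᵐ z ∂(volume.restrict Ω), par ea (ν z) = 0) {a : ℂ → ℝ} {h : ℕ → ℝ} {u : ℕ → ℂ → ℝ}
    (H : RawG Ω a h u (MM m ea ν)) {K : Set ℂ} (hK : IsCompact K) (hKΩ : K ⊆ Ω)
    {p : ℕ → ℂ → ℂ} (hP : SG (interior K) a h p)
    {φ : ℂ → ℝ} (hφ : TF (interior K) φ) (i j l : ℤ) :
    Tendsto (fun n => ‖∫ z, (φ z : ℂ) * (ww a h (fun n z => (u n z : ℂ)) i n z *
      ww a h (fun n z => (u n z : ℂ)) j n z * (ww a h (fun n z => (u n z : ℂ)) l n z *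
        p n z))‖ ^ 4 / (1 + ∫ z in K, u n z ^ 4) ^ 3) atTop (𝓝 0) := by
  have hB : IsOpen (interior K) := isOpen_interior
  refine tendsto_of_subseq_tendsto fun ns hns => ?_
  obtain ⟨c, cpos, cle, c4⟩ := exists_c (T := fun n => 1 + ∫ z in K, u (ns n) z ^ 4)
    (fun n => T_one u K (ns n))
  obtain ⟨κ, -, σ, hσ, hσc⟩ := isCompact_Icc.tendsto_subseq (s := Set.Icc (0 : ℝ) 1)
    (x := c) (fun n => ⟨(cpos n).le, cle n⟩)
  refine ⟨σ, ?_⟩
  have hs := hns.comp hσ.tendsto_atTop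
  have c4' : ∀ n, (c ∘ σ) n ^ 4 = (1 + ∫ z in K, u ((ns ∘ σ) n) z ^ 4)⁻¹ := fun n => c4 _
  have A' := scaled_AG hm H hK hKΩ hs c4' hσc
  obtain ⟨w, hw⟩ : ∃ w : ℤ → ℕ → ℂ → ℂ, w = ww a (fun n => h ((ns ∘ σ) n))
    (fun n z => ((((c ∘ σ) n * u ((ns ∘ σ) n) z : ℝ)) : ℂ)) := ⟨_, rfl⟩
  rw [← hw] at A'
  have hP' := hP.cmp hs
  have key := core_nr hm hp H hK hKΩ hφ hs (fun n => cpos _) c4' hσc hw
    (G' := fun n z => w l n z * p ((ns ∘ σ) n) z) ((A'.bd l).mul4 hP'.lb) (μ := -1)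
    (by norm_num) (by norm_num) i j (fun k => js3_rec A' hB hP' hφ l (i + k) (j - k))
  have k2 := key.norm.pow 4
  rw [norm_zero] at k2
  norm_num at k2
  refine k2.congr fun n => ?_
  have wv : ∀ q, ∀ z ∈ interior K, w q n z =
      ((c (σ n) : ℝ) : ℂ) * ww a h (fun n z => (u n z : ℂ)) q (ns (σ n)) z := by
    intro q z hz
    rw [hw]
    exact scaled_wv H hKΩ hs (c ∘ σ) q n hz
  have e1 : jm w (fun n z => w l n z * p (ns (σ n)) z) φ i j n = ((c (σ n) : ℝ) : ℂ) ^ 3 *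
      ∫ z, (φ z : ℂ) * (ww a h (fun n z => (u n z : ℂ)) i (ns (σ n)) z *
      ww a h (fun n z => (u n z : ℂ)) j (ns (σ n)) z *
        (ww a h (fun n z => (u n z : ℂ)) l (ns (σ n)) z * p (ns (σ n)) z)) := by
    unfold jm
    rw [← integral_const_mul]
    congr 1; funext z
    by_cases hz : z ∈ interior K
    · beta_reduce
      rw [wv i z hz, wv j z hz, wv l z hz]
      ring
    · rw [TF.zero hφ hz]; simp
  rw [e1, norm_mul, norm_pow, norm_real, Real.norm_eq_abs, abs_of_pos (cpos _), mul_pow,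
    ← pow_mul]
  have e2 : c (σ n) ^ (3 * 4) = ((1 + ∫ z in K, u (ns (σ n)) z ^ 4) ^ 3)⁻¹ := by
    rw [mul_comm 3 4, pow_mul, c4, inv_pow]
  rw [e2, inv_mul_eq_div]

/-- **Three slow factors.** -/
theorem slow_one [IsMarkovKernel ν] {Ω : Set ℂ}
    (hm : ∀ K : Set ℂ, IsCompact K → K ⊆ Ω → MemLp m 2 (volume.restrict K))
    {a : ℂ → ℝ} {h : ℕ → ℝ} {u : ℕ → ℂ → ℝ}
    (H : RawG Ω a h u (MM m ea ν)) {K : Set ℂ} (hK : IsCompact K) (hKΩ : K ⊆ Ω)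
    {p q r : ℕ → ℂ → ℂ} (hP : SG (interior K) a h p) (hQ : SG (interior K) a h q)
    (hR : SG (interior K) a h r) {φ : ℂ → ℝ} (hφ : TF (interior K) φ) :
    Tendsto (fun n => ‖∫ z, (φ z : ℂ) * ((u n z : ℂ) * (p n z * q n z * r n z))‖ ^ 4 /
      (1 + ∫ z in K, u n z ^ 4)) atTop (𝓝 0) := by
  have hB : IsOpen (interior K) := isOpen_interior
  refine tendsto_of_subseq_tendsto fun ns hns => ?_
  obtain ⟨c, cpos, cle, c4⟩ := exists_c (T := fun n => 1 + ∫ z in K, u (ns n) z ^ 4)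
    (fun n => T_one u K (ns n))
  obtain ⟨κ, -, σ, hσ, hσc⟩ := isCompact_Icc.tendsto_subseq (s := Set.Icc (0 : ℝ) 1)
    (x := c) (fun n => ⟨(cpos n).le, cle n⟩)
  refine ⟨σ, ?_⟩
  have hs := hns.comp hσ.tendsto_atTop
  have c4' : ∀ n, (c ∘ σ) n ^ 4 = (1 + ∫ z in K, u ((ns ∘ σ) n) z ^ 4)⁻¹ := fun n => c4 _
  have A' := scaled_AG hm H hK hKΩ hs c4' hσc
  have key := (A'.js1 hB (hP.cmp hs) (hQ.cmp hs) (hR.cmp hs)).nul φ hφ
  have k2 := key.norm.pow 4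
  rw [norm_zero] at k2
  norm_num at k2
  refine k2.congr fun n => ?_
  have e1 : ∫ z, (φ z : ℂ) * (ww a (fun n => h ((ns ∘ σ) n))
      (fun n z => ((((c ∘ σ) n * u ((ns ∘ σ) n) z : ℝ)) : ℂ)) 0 n z *
      (p ((ns ∘ σ) n) z * q ((ns ∘ σ) n) z * r ((ns ∘ σ) n) z)) = ((c (σ n) : ℝ) : ℂ) *
      ∫ z, (φ z : ℂ) * ((u (ns (σ n)) z : ℂ) * (p (ns (σ n)) z * q (ns (σ n)) z *
        r (ns (σ n)) z)) := by
    rw [← integral_const_mul]
    congr 1; funext z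
    have : ww a (fun n => h ((ns ∘ σ) n)) (fun n z => ((((c ∘ σ) n *
      u ((ns ∘ σ) n) z : ℝ)) : ℂ)) 0 n z = ((c (σ n) * u (ns (σ n)) z : ℝ) : ℂ) := rfl
    rw [this]
    simp only [Function.comp_def]
    push_cast; ring
  simp only [Function.comp_def] at e1
  simp only [ofReal_mul, Function.comp_def] at e1 ⊢
  rw [e1, norm_mul, norm_real, Real.norm_eq_abs, abs_of_pos (cpos _), mul_pow, c4,
    inv_mul_eq_div]

end

end Pool.Agent.TH294.RG
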