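import Pool.Agent.TH294.RG.Mt1

/-!
Project RG (helper294): third moments at scales above the wavelength.
-/

set_option autoImplicit false
open MeasureTheory Filter Topology Complex ProbabilityTheory
open scoped ContDiff

namespace Pool.Agent.TH294.RG

open Pool.Agent.W745.RW Pool.Agent.TH294.RS

noncomputable section

variable {m : ℂ → ℝ} {ν : Kernel ℂ ℝ}

/-- **Third moments at scales above the wavelength**, sequences of scales -/
theorem meso_cube [IsMarkovKernel ν] {Ω : Set ℂ}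
    (hm : ∀ K : Set ℂ, IsCompact K → K ⊆ Ω → MemLp m 2 (volume.restrict K))
    (hp : ∀ᵐ z ∂(volume.restrict Ω), par ea (ν z) = 0) {a : ℂ → ℝ} {h : ℕ → ℝ} {u : ℕ → ℂ → ℝ}
    (H : RawG Ω a h u (MM m ea ν)) {K : Set ℂ} (hK : IsCompact K) (hKΩ : K ⊆ Ω)
    {κ : ℂ → ℝ} (ks : ContDiff ℝ ∞ κ) (kc : HasCompactSupport κ) {R : ℝ}
    (kR : ∀ y, κ y ≠ 0 → ‖y‖ ≤ R)
    {φ : ℂ → ℝ} (hφ : TF (interior K) φ) (hφ0 : ∀ z, 0 ≤ φ z) {δ : ℝ}
    (hδB : Metric.cthickening δ (tsupport φ) ⊆ interior K)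
    {r : ℕ → ℝ} (r0 : ∀ n, 0 < r n) (rδ : ∀ n, r n * R ≤ δ)
    (hr : Tendsto (fun n => h n / r n) atTop (𝓝 0)) :
    Tendsto (fun n => (∫ z, φ z * |∫ y, κ y * u n (z + r n • y) ^ 3| ^ (4 / 3 : ℝ)) /
      (1 + ∫ z in K, u n z ^ 4)) atTop (𝓝 0) := by
  have hB : IsOpen (interior K) := isOpen_interior
  have hBΩ : interior K ⊆ Ω := interior_subset.trans hKΩ
  obtain ⟨S, hS⟩ : ∃ S : Set ℂ, S = tsupport φ := ⟨_, rfl⟩
  rw [← hS] at hδB
  have cS : IsCompact S := by rw [hS]; exact hφ.2.1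
  have cK1 : IsCompact (Metric.cthickening δ S) := cS.cthickening
  obtain ⟨χ, hχ, hχ1, χ0, χ1⟩ := exists_cut hB cK1 hδB
  obtain ⟨Mφ, hMφ⟩ := hφ.2.1.exists_bound_of_continuousOn hφ.1.continuous.continuousOn
  have hφM : ∀ z, φ z ≤ |Mφ| := by
    intro z
    by_cases hz : z ∈ tsupport φ
    · exact (le_abs_self _).trans ((hMφ z hz).trans (le_abs_self _))
    · rw [image_eq_zero_of_notMem_tsupport hz]; exact abs_nonneg _
  have M0 : 0 ≤ |Mφ| := abs_nonneg _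
  have cκ : CC κ := ⟨ks.continuous, kc⟩
  obtain ⟨g, gc, g0, g1, g4⟩ := ex_root
  -- the cut off cube
  obtain ⟨F, hF⟩ : ∃ F : ℕ → ℂ → ℝ, F = fun n z => χ z * u n z ^ 3 := ⟨_, rfl⟩
  have cF : ∀ n, CC (F n) := by
    intro n
    rw [hF]
    have := TF.mulc hB hχ (a := fun z => u n z ^ 3) (((H.sm n).mono hBΩ).pow 3)
    exact ⟨this.1.continuous, this.2.1⟩
  obtain ⟨A, hA⟩ : ∃ A : ℕ → ℂ → ℝ, A = fun n => Tk κ (r n) (F n) := ⟨_, rfl⟩
  have cA : ∀ n, CC (A n) := fun n => by rw [hA]; exact Tk_CC cκ (cF n) (r0 n).ne'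
  obtain ⟨W, hW⟩ : ∃ W : ℕ → ℂ → ℝ, W = fun n z => φ z * g (A n z) := ⟨_, rfl⟩
  have cφ : CC φ := ⟨hφ.1.continuous, hφ.2.1⟩
  have cW : ∀ n, CC (W n) := fun n => by
    rw [hW]; exact cφ.mul (gc.comp (cA n).1)
  obtain ⟨T, hT⟩ : ∃ T : ℕ → ℝ, T = fun n => 1 + ∫ z in K, u n z ^ 4 := ⟨_, rfl⟩
  have T1 : ∀ n, 1 ≤ T n := fun n => by rw [hT]; exact T_one u K n
  have Tp : ∀ n, 0 < T n := fun n => by linarith [T1 n]
  obtain ⟨V, hV⟩ : ∃ V : ℕ → ℝ, V = fun n => ∫ z, φ z * |A n z| ^ (4 / 3 : ℝ) := ⟨_, rfl⟩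
  have V0 : ∀ n, 0 ≤ V n := fun n => by
    rw [hV]
    exact integral_nonneg fun z => mul_nonneg (hφ0 z) (Real.rpow_nonneg (abs_nonneg _) _)
  obtain ⟨c, cpos, cle, c4⟩ := exists_c (T := fun n => V n + T n) (fun n => by
    linarith [V0 n, T1 n])
  have ce : ∀ n, Integrable (fun z => φ z * |A n z| ^ (4 / 3 : ℝ)) := by
    intro n
    have := ((cW n).mul (cA n).1).int
    refine this.congr (ae_of_all _ fun z => ?_)
    rw [hW]
    beta_reduce
    rw [← g1 (A n z)]; ring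
  -- the multiplier
  have W4 : ∀ n, ∫ z, W n z ^ 4 ≤ |Mφ| ^ 3 * V n := by
    intro n
    have h1 : ∀ z, W n z ^ 4 ≤ |Mφ| ^ 3 * (φ z * |A n z| ^ (4 / 3 : ℝ)) := by
      intro z
      rw [hW]
      beta_reduce
      rw [mul_pow, g4]
      have h2 : φ z ^ 3 ≤ |Mφ| ^ 3 := pow_le_pow_left₀ (hφ0 z) (hφM z) 3
      have h3 : 0 ≤ φ z * |A n z| ^ (4 / 3 : ℝ) :=
        mul_nonneg (hφ0 z) (Real.rpow_nonneg (abs_nonneg _) _)
      have h4 := mul_le_mul_of_nonneg_right h2 h3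
      refine le_trans (le_of_eq ?_) h4
      ring
    have i1 : Integrable (fun z => W n z ^ 4) := by
      refine (cW n).sq.sq.int.congr (ae_of_all _ fun z => ?_)
      beta_reduce; ring
    refine (integral_mono i1 ((ce n).const_mul _) h1).trans (le_of_eq ?_)
    rw [integral_const_mul, hV]
  have cW4 : ∀ n, c n ^ 4 * ∫ z, W n z ^ 4 ≤ |Mφ| ^ 3 := by
    intro n
    have p1 : 0 < V n + T n := by linarith [V0 n, Tp n]
    rw [c4, inv_mul_le_iff₀ p1]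
    refine (W4 n).trans ?_
    rw [mul_comm (V n + T n)]
    exact mul_le_mul_of_nonneg_left (by linarith [Tp n]) (by positivity)
  have hsg : SG (interior K) a h (fun n z => ((c n * Tk κ (-r n) (W n) z : ℝ) : ℂ)) := by
    refine Tk_SG ks kc cW (r := fun n => -r n) (fun n => neg_ne_zero.2 (r0 n).ne')
      (C := |Mφ| ^ 3) cW4 (H.sa.mono hBΩ) ?_
    have := hr.neg
    rw [neg_zero] at this
    refine this.congr fun n => ?_
    rw [div_neg]
  have key := slow_cube hm hp H hK hKΩ hsg hχ 0 0 0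
  have e1 : ∀ n, ∫ z, (χ z : ℂ) * (ww a h (fun n z => (u n z : ℂ)) 0 n z *
      ww a h (fun n z => (u n z : ℂ)) 0 n z * (ww a h (fun n z => (u n z : ℂ)) 0 n z *
        ((c n * Tk κ (-r n) (W n) z : ℝ) : ℂ))) = ((c n * V n : ℝ) : ℂ) := by
    intro n
    have w0 : ∀ z, ww a h (fun n z => (u n z : ℂ)) 0 n z = (u n z : ℂ) := fun z => rfl
    simp only [w0]
    have e2 : V n = ∫ z, Tk κ (-r n) (W n) z * F n z := by
      have h1 := Tk_adj cκ (cF n) (cW n).1 (r n)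
      rw [← h1, hV]
      beta_reduce
      congr 1; funext z
      have h2 : Tk κ (r n) (F n) z = A n z := by rw [hA]
      rw [h2, hW]
      beta_reduce
      rw [← g1 (A n z)]; ring
    rw [e2, ← integral_const_mul, ← integral_complex_ofReal]
    congr 1; funext z
    rw [hF]
    push_cast
    ring
  simp only [e1] at key
  have lim2 : Tendsto (fun n => (V n / T n) ^ 4 / (V n / T n + 1)) atTop (𝓝 0) := by
    refine key.congr fun n => ?_
    have hTn : (1 + ∫ z in K, u n z ^ 4) = T n := by rw [hT]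
    have p1 : 0 < V n + T n := by linarith [V0 n, Tp n]
    have tn := (Tp n).ne'
    rw [hTn, norm_real, Real.norm_eq_abs, abs_of_nonneg (mul_nonneg (cpos n).le (V0 n)), mul_pow,
      c4]
    have q1 := p1.ne'
    have e3 : V n / T n + 1 = (V n + T n) / T n := by field_simp
    rw [e3]
    field_simp
  -- conclusion
  have VT : ∀ n, 0 ≤ V n / T n := fun n => div_nonneg (V0 n) (Tp n).le
  have lim : Tendsto (fun n => V n / T n) atTop (𝓝 0) := by
    rw [Metric.tendsto_atTop']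
    intro ε hε
    have h1 : 0 < (ε / 2) ^ 4 / (ε / 2 + 1) := by positivity
    have h2 := lim2.eventually (gt_mem_nhds h1)
    rw [eventually_atTop] at h2
    obtain ⟨N, hN⟩ := h2
    refine ⟨N, fun n hn => ?_⟩
    have h3 := fin3 (VT n) (show 0 < ε / 2 by linarith) (hN n hn.le)
    rw [Real.dist_eq, sub_zero, abs_of_nonneg (VT n)]
    linarith
  refine lim.congr fun n => ?_
  rw [hT, hV]
  beta_reduce
  congr 2
  funext z
  by_cases hz : z ∈ S
  · congr 3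
    rw [hA]
    unfold Tk
    beta_reduce
    congr 1; funext y
    by_cases hy : κ y = 0
    · rw [hy]; simp
    · have h1 : χ (z + r n • y) = 1 := by
        refine hχ1 _ (Metric.mem_cthickening_of_dist_le _ z _ _ hz ?_)
        rw [dist_eq_norm, add_sub_cancel_left, norm_smul, Real.norm_eq_abs,
          abs_of_pos (r0 n)]
        exact (mul_le_mul_of_nonneg_left (kR y hy) (r0 n).le).trans (rδ n)
      rw [hF]
      beta_reduce
      rw [h1, one_mul]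
  · rw [hS] at hz
    rw [image_eq_zero_of_notMem_tsupport hz]
    simp

/-- **Third moments at scales above the wavelength**, uniformly -/
theorem meso_cube_unif [IsMarkovKernel ν] {Ω : Set ℂ}
    (hm : ∀ K : Set ℂ, IsCompact K → K ⊆ Ω → MemLp m 2 (volume.restrict K))
    (hp : ∀ᵐ z ∂(volume.restrict Ω), par ea (ν z) = 0) {a : ℂ → ℝ} {h : ℕ → ℝ} {u : ℕ → ℂ → ℝ}
    (H : RawG Ω a h u (MM m ea ν)) {K : Set ℂ} (hK : IsCompact K) (hKΩ : K ⊆ Ω)
    {κ : ℂ → ℝ} (ks : ContDiff ℝ ∞ κ) (kc : HasCompactSupport κ)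
    {φ : ℂ → ℝ} (hφ : TF (interior K) φ) (hφ0 : ∀ z, 0 ≤ φ z) :
    ∃ r₀ : ℝ, 0 < r₀ ∧ ∀ ε : ℝ, 0 < ε → ∃ R₀ : ℝ, 0 < R₀ ∧ ∀ᶠ n in atTop, ∀ r : ℝ,
      R₀ * h n ≤ r → r ≤ r₀ →
      ∫ z, φ z * |∫ y, κ y * u n (z + r • y) ^ 3| ^ (4 / 3 : ℝ) ≤
        ε * (1 + ∫ z in K, u n z ^ 4) := by
  obtain ⟨δ, hδ, hδB⟩ := hφ.2.1.isCompact.exists_cthickening_subset_open isOpen_interior hφ.2.2
  obtain ⟨R, hR, kR⟩ : ∃ R : ℝ, 0 < R ∧ ∀ y, κ y ≠ 0 → ‖y‖ ≤ R := by
    obtain ⟨R, hR⟩ := kc.isCompact.isBounded.exists_norm_le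
    exact ⟨|R| + 1, by positivity, fun y hy =>
      (hR y (subset_tsupport _ hy)).trans ((le_abs_self R).trans (by linarith))⟩
  refine ⟨δ / R, div_pos hδ hR, fun ε hε => ?_⟩
  by_contra hcon
  have h1 : ∀ j : ℕ, ∃ᶠ n in atTop, ∃ r : ℝ, ((j : ℝ) + 1) * h n ≤ r ∧ r ≤ δ / R ∧
      ¬ (∫ z, φ z * |∫ y, κ y * u n (z + r • y) ^ 3| ^ (4 / 3 : ℝ) ≤
        ε * (1 + ∫ z in K, u n z ^ 4)) := by
    intro j
    by_contra hj
    rw [not_frequently] at hj
    apply hcon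
    refine ⟨(j : ℝ) + 1, by positivity, hj.mono fun n hn r hr1 hr2 => ?_⟩
    by_contra hc
    exact hn ⟨r, hr1, hr2, hc⟩
  obtain ⟨ψ, hψ, hP⟩ := extraction_forall_of_frequently h1
  choose r hr1 hr2 hr3 using hP
  have H' := H.cmp (le_refl Ω) hψ.tendsto_atTop
  have hpos : ∀ n, 0 < h (ψ n) := fun n => H.hpos _
  have r0 : ∀ n, 0 < r n := fun n =>
    lt_of_lt_of_le (mul_pos (by positivity) (hpos n)) (hr1 n)
  have inv0 : Tendsto (fun n : ℕ => 1 / ((n : ℝ) + 1)) atTop (𝓝 0) :=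
    tendsto_one_div_add_atTop_nhds_zero_nat
  have hr : Tendsto (fun n => h (ψ n) / r n) atTop (𝓝 0) := by
    refine squeeze_zero (fun n => (div_pos (hpos n) (r0 n)).le) (fun n => ?_) inv0
    have hj : (0 : ℝ) < (n : ℝ) + 1 := by positivity
    rw [div_le_div_iff₀ (r0 n) hj, one_mul, mul_comm]
    exact hr1 n
  have key := meso_cube hm hp H' hK hKΩ ks kc kR hφ hφ0 hδB r0
    (fun n => (le_div_iff₀ hR).1 (hr2 n)) hr
  obtain ⟨n, hn⟩ := (key.eventually (gt_mem_nhds hε)).exists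
  apply hr3 n
  have T1 := T_one u K (ψ n)
  have h5 := (div_lt_iff₀ (by linarith)).1 hn
  exact h5.le

end

end Pool.Agent.TH294.RG
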