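import Pool.Agent.TH294.RG.Th2

/-!
Project RG (helper294): third order moments vanish.
-/

set_option autoImplicit false
open MeasureTheory Filter Topology Complex ProbabilityTheory
open scoped ContDiff

namespace Pool.Agent.TH294.RG

open Pool.Agent.W745.RW Pool.Agent.TH294.RS

noncomputable section

variable {m : ℂ → ℝ} {ν : Kernel ℂ ℝ}

/-- scaling by a convergent sequence -/
lemma RawG.scale2 {B : Set ℂ} (hB : IsOpen B) {a : ℂ → ℝ} {h : ℕ → ℝ} {u : ℕ → ℂ → ℝ}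
    {M : ℕ → ℂ → ℂ} (H : RawG B a h u M) {c : ℕ → ℝ} {κ : ℝ} (hc : Tendsto c atTop (𝓝 κ)) :
    RawG B a h (fun n z => c n * u n z) (fun k z => (κ : ℂ) ^ 2 * M k z) := by
  refine ⟨H.hpos, H.hlim, H.sa, H.pa, fun n => contDiffOn_const.mul (H.sm n),
    fun n z hz => ?_, fun φ hφ k => ?_⟩
  · have H0 := H.scale hB (c := fun k => if k = n then c n else 0)
      (tendsto_const_nhds.congr' (by
        filter_upwards [eventually_gt_atTop n] with k hk
        rw [if_neg (by omega)]))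
    have := H0.eq n z hz
    simpa only [if_true] using this
  · have h1 := (((continuous_ofReal.tendsto _).comp hc).pow 2).mul (H.qe φ hφ k)
    have e0 : ∫ z, (φ z : ℂ) * ((κ : ℂ) ^ 2 * M k z) = (κ : ℂ) ^ 2 * ∫ z, (φ z : ℂ) * M k z := by
      rw [← integral_const_mul]
      congr 1; funext z; ring
    rw [e0]
    refine h1.congr fun n => ?_
    simp only [Function.comp_def]
    rw [← integral_const_mul]
    congr 1; funext z
    by_cases hz : z ∈ B
    · have e1 := DPk_scale hB H.sa (h n) (cxa (H.sm n)) (c n : ℂ) k z hz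
      have e2 : (fun w => ((c n * u n w : ℝ) : ℂ)) = fun w => (c n : ℂ) * (u n w : ℂ) := by
        funext w; push_cast; rfl
      rw [e2, e1]
      push_cast; ring
    · rw [TF.zero hφ hz]; simp

/-- **Third order moments vanish** relative to the square root of the fourth moment -/
theorem third_lim [IsMarkovKernel ν] {Ω : Set ℂ}
    (hm : ∀ K : Set ℂ, IsCompact K → K ⊆ Ω → MemLp m 2 (volume.restrict K))
    (hp : ∀ᵐ z ∂(volume.restrict Ω), par ea (ν z) = 0) {a : ℂ → ℝ} {h : ℕ → ℝ} {u : ℕ → ℂ → ℝ}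
    (H : RawG Ω a h u (MM m ea ν)) {K : Set ℂ} (hK : IsCompact K) (hKΩ : K ⊆ Ω)
    {φ : ℂ → ℝ} (hφ : TF (interior K) φ) (i j k : ℤ) :
    Tendsto (fun n => ((√(1 + ∫ z in K, u n z ^ 4) : ℝ) : ℂ)⁻¹ * ∫ z, (φ z : ℂ) *
      (ww a h (fun n z => (u n z : ℂ)) i n z * ww a h (fun n z => (u n z : ℂ)) j n z *
        ww a h (fun n z => (u n z : ℂ)) k n z)) atTop (𝓝 0) := by
  have hB : IsOpen (interior K) := isOpen_interior
  have hBΩ : interior K ⊆ Ω := interior_subset.trans hKΩ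
  have cu : ∀ n, ContinuousOn (fun z => u n z ^ 4) K := fun n =>
    ((H.sm n).continuousOn.mono hKΩ).pow 4
  have T0 : ∀ n, 0 ≤ ∫ z in K, u n z ^ 4 := fun n => integral_nonneg fun z => by positivity
  -- the cut-off
  obtain ⟨χ0, hχ0, hχ1, hχ2, hχ3⟩ := exists_cut hB hφ.2.1 hφ.2.2
  obtain ⟨Mφ, hMφ⟩ := hφ.2.1.exists_bound_of_continuousOn hφ.1.continuous.continuousOn
  obtain ⟨χ, hχd⟩ : ∃ χ : ℂ → ℝ, χ = fun z => |Mφ| * χ0 z := ⟨_, rfl⟩
  have hχ : TF (interior K) χ := by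
    have := TF.mulc hB hχ0 (a := fun _ => |Mφ|) contDiffOn_const
    have e : χ = fun z => χ0 z * |Mφ| := by funext z; rw [hχd]; ring
    rw [e]; exact this
  have hχnn : ∀ z, 0 ≤ χ z := fun z => by rw [hχd]; exact mul_nonneg (abs_nonneg _) (hχ2 z)
  have hχφ : ∀ z, |φ z| ≤ χ z := by
    intro z
    by_cases hz : z ∈ tsupport φ
    · rw [hχd]
      show |φ z| ≤ |Mφ| * χ0 z
      rw [hχ1 z hz, mul_one]
      exact (hMφ z hz).trans (le_abs_self _)
    · rw [image_eq_zero_of_notMem_tsupport hz, abs_zero]; exact hχnn z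
  refine tendsto_of_subseq_tendsto fun ns hns => ?_
  obtain ⟨T, hT⟩ : ∃ T : ℕ → ℝ, ∀ n, T n = 1 + ∫ z in K, u (ns n) z ^ 4 := ⟨_, fun _ => rfl⟩
  have T1 : ∀ n, 1 ≤ T n := fun n => by rw [hT]; linarith [T0 (ns n)]
  obtain ⟨c, hc⟩ : ∃ c : ℕ → ℝ, ∀ n, c n = (T n) ^ (-(1 / 4 : ℝ)) := ⟨_, fun _ => rfl⟩
  have cpos : ∀ n, 0 < c n := fun n => by
    rw [hc]; exact Real.rpow_pos_of_pos (by linarith [T1 n]) _
  have cle : ∀ n, c n ≤ 1 := fun n => by
    rw [hc]; exact Real.rpow_le_one_of_one_le_of_nonpos (T1 n) (by norm_num)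
  have c4 : ∀ n, c n ^ 4 = (T n)⁻¹ := by
    intro n
    rw [hc, ← Real.rpow_natCast, ← Real.rpow_mul (by linarith [T1 n])]
    norm_num
    rw [Real.rpow_neg_one]
  have c2 : ∀ n, c n ^ 2 = (√(T n))⁻¹ := by
    intro n
    have h1 : (c n ^ 2) ^ 2 = (T n)⁻¹ := by rw [← c4]; ring
    have h2 : c n ^ 2 = √((T n)⁻¹) := by
      rw [← h1, Real.sqrt_sq (by positivity)]
    rw [h2, Real.sqrt_inv]
  obtain ⟨κ, -, σ, hσ, hσc⟩ := isCompact_Icc.tendsto_subseq (s := Set.Icc (0 : ℝ) 1)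
    (x := c) (fun n => ⟨(cpos n).le, cle n⟩)
  refine ⟨σ, ?_⟩
  have H1 := H.cmp hBΩ (hns.comp hσ.tendsto_atTop)
  have H2 := H1.scale2 hB hσc
  have A := H2.as hB (fun k => ((MM_ml ea_meas ea_norm (B := interior K) (ν := ν)
      (fun K' hK' hKB => hm K' hK' (hKB.trans hBΩ))) k).cmul _)
    (fun z => by rw [MM_0, map_mul, map_pow, conj_ofReal, conj_ofReal])
    (fun K' hK' hKB => ⟨1, Eventually.of_forall fun n => by
      have e1 : ∀ z, ((c ∘ σ) n * u ((ns ∘ σ) n) z) ^ 4 = (T (σ n))⁻¹ * u (ns (σ n)) z ^ 4 := by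
        intro z
        show (c (σ n) * u (ns (σ n)) z) ^ 4 = _
        rw [mul_pow, c4]
      simp only [e1]
      rw [integral_const_mul, inv_mul_le_iff₀ (by linarith [T1 (σ n)]), mul_one, hT]
      have : ∫ z in K', u (ns (σ n)) z ^ 4 ≤ ∫ z in K, u (ns (σ n)) z ^ 4 := by
        refine setIntegral_mono_set ((cu _).integrableOn_compact hK)
          (ae_of_all _ fun z => by positivity) ?_
        exact (hKB.trans interior_subset).eventuallyLE
      linarith⟩)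
  obtain ⟨w, hw⟩ : ∃ w : ℤ → ℕ → ℂ → ℂ, w = ww a (fun n => h ((ns ∘ σ) n))
    (fun n z => ((((c ∘ σ) n * u ((ns ∘ σ) n) z : ℝ)) : ℂ)) := ⟨_, rfl⟩
  obtain ⟨wu, hwu⟩ : ∃ wu : ℤ → ℕ → ℂ → ℂ, wu = ww a (fun n => h ((ns ∘ σ) n))
    (fun n z => ((u ((ns ∘ σ) n) z : ℝ) : ℂ)) := ⟨_, rfl⟩
  have wuu : ∀ q n z, wu q n z = ww a h (fun n z => (u n z : ℂ)) q (ns (σ n)) z := by
    intro q n z
    rw [hwu]
    have := ww_sub a h (fun n z => (u n z : ℂ)) (ns ∘ σ) q n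
    exact congrFun this z
  rw [← hw] at A
  have wv : ∀ q n, ∀ z ∈ interior K, w q n z = ((c (σ n) : ℝ) : ℂ) * wu q n z := by
    intro q n z hz
    rw [hw, hwu]
    exact ww_scale hB (H.sa.mono hBΩ) _ H1.sm (c ∘ σ) q n hz
  have hs : ∀ q, LB (interior K) 2 (fun n z => (((c (σ n))⁻¹ : ℝ) : ℂ) * w q n z) := by
    intro q
    have := H1.lb2 hB q
    rw [← hwu] at this
    refine this.congr fun n z hz => ?_
    rw [wv q n z hz, ← mul_assoc, ← ofReal_mul, inv_mul_cancel₀ (cpos _).ne', ofReal_one, one_mul]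
  -- the target
  have tgt : ∀ n, ((√(1 + ∫ z in K, u (ns (σ n)) z ^ 4) : ℝ) : ℂ)⁻¹ * (∫ z, (φ z : ℂ) *
      (ww a h (fun n z => (u n z : ℂ)) i (ns (σ n)) z * ww a h (fun n z => (u n z : ℂ)) j
        (ns (σ n)) z * ww a h (fun n z => (u n z : ℂ)) k (ns (σ n)) z)) =
      y3 w (fun n => (c (σ n))⁻¹) φ i j k n := by
    intro n
    have e1 : ((√(1 + ∫ z in K, u (ns (σ n)) z ^ 4) : ℝ) : ℂ)⁻¹ = ((c (σ n) ^ 2 : ℝ) : ℂ) := by
      rw [c2, hT]; push_cast; rfl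
    rw [e1]
    unfold y3
    rw [← integral_const_mul]
    congr 1; funext z
    by_cases hz : z ∈ interior K
    · rw [wv i n z hz, wv j n z hz, wv k n z hz, wuu, wuu, wuu]
      have : (c (σ n) : ℂ) ≠ 0 := by exact_mod_cast (cpos (σ n)).ne'
      push_cast
      field_simp
    · rw [TF.zero hφ hz]; simp
  refine Tendsto.congr (fun n => (tgt n).symm) ?_
  rw [Metric.tendsto_atTop]
  intro ε hε
  -- bounds for the third factor
  obtain ⟨C, hC⟩ := (hs k).bd _ hχ.2.1 hχ.2.2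
  obtain ⟨Mχ, hMχ⟩ := hχ.2.1.exists_bound_of_continuousOn hχ.1.continuous.continuousOn
  obtain ⟨D, hD⟩ : ∃ D : ℝ, D = |Mχ| * |C| + 1 := ⟨_, rfl⟩
  have hD0 : 0 < D := by rw [hD]; positivity
  obtain ⟨t, ht⟩ : ∃ t : ℝ, t = ε / (2 * D) := ⟨_, rfl⟩
  have ht0 : 0 < t := by rw [ht]; positivity
  obtain ⟨L, hL, hL'⟩ := FL_small hm hp H hK hKΩ hχ hχnn i j (show 0 < t * (ε / 2) by positivity)
  have q1 := y3_FL A hB hs hφ i j k hL
  rw [Metric.tendsto_atTop] at q1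
  obtain ⟨N1, hN1⟩ := q1 (ε / 4) (by positivity)
  obtain ⟨N2, hN2⟩ := eventually_atTop.1 hC
  obtain ⟨N3, hN3⟩ := eventually_atTop.1 ((hns.comp hσ.tendsto_atTop).eventually hL')
  refine ⟨max N1 (max N2 N3), fun n hn => ?_⟩
  have g1 := hN1 n ((le_max_left _ _).trans hn)
  have g2 := hN2 n (((le_max_left _ _).trans (le_max_right _ _)).trans hn)
  have g3 := hN3 n (((le_max_right _ _).trans (le_max_right _ _)).trans hn)
  simp only [Function.comp_def] at g3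
  rw [dist_eq_norm, sub_zero] at g1 ⊢
  -- the main estimate
  have cw : ∀ q, ContinuousOn (w q n) (interior K) := fun q => (A.bd q).co n
  have cF : ContinuousOn (FL w L i j n) (interior K) := by
    unfold FL
    refine continuousOn_const.mul (continuousOn_finsetSum _ fun q _ => continuousOn_const.mul
      ((cw _).mul (cw _)))
  have cP : ContinuousOn (fun z => (((c (σ n))⁻¹ : ℝ) : ℂ) * w k n z) (interior K) :=
    continuousOn_const.mul (cw k)
  have i1 : Integrable (fun z => χ z * ‖FL w L i j n z‖ ^ 2) :=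
    Pool.Agent.W311.RW.int_mul hB hχ (cF.norm.pow 2)
  have i2 : Integrable (fun z => χ z * ‖(((c (σ n))⁻¹ : ℝ) : ℂ) * w k n z‖ ^ 2) :=
    Pool.Agent.W311.RW.int_mul hB hχ (cP.norm.pow 2)
  have m1 : ‖∫ z, (φ z : ℂ) * (FL w L i j n z * ((((c (σ n))⁻¹ : ℝ) : ℂ) * w k n z))‖ ≤
      (2 * t)⁻¹ * (∫ z, χ z * ‖FL w L i j n z‖ ^ 2) +
        t / 2 * ∫ z, χ z * ‖(((c (σ n))⁻¹ : ℝ) : ℂ) * w k n z‖ ^ 2 := by
    rw [← integral_const_mul, ← integral_const_mul, ← integral_add (i1.const_mul _)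
      (i2.const_mul _)]
    refine norm_integral_le_of_norm_le ((i1.const_mul _).add (i2.const_mul _))
      (ae_of_all _ fun z => ?_)
    rw [norm_mul, norm_mul, norm_real, Real.norm_eq_abs]
    obtain ⟨x, hx⟩ : ∃ x, x = ‖FL w L i j n z‖ := ⟨_, rfl⟩
    obtain ⟨y, hy⟩ : ∃ y, y = ‖(((c (σ n))⁻¹ : ℝ) : ℂ) * w k n z‖ := ⟨_, rfl⟩
    rw [← hx, ← hy]
    have x0 : 0 ≤ x := by rw [hx]; positivity
    have y0 : 0 ≤ y := by rw [hy]; positivity
    have h1 : |φ z| * (x * y) ≤ χ z * (x * y) :=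
      mul_le_mul_of_nonneg_right (hχφ z) (mul_nonneg x0 y0)
    refine h1.trans ?_
    have h2 : x * y ≤ (2 * t)⁻¹ * x ^ 2 + t / 2 * y ^ 2 := by
      have h3 : 0 ≤ (2 * t)⁻¹ * (x - t * y) ^ 2 := by positivity
      have h4 : (2 * t)⁻¹ * (x - t * y) ^ 2 = (2 * t)⁻¹ * x ^ 2 - x * y + t / 2 * y ^ 2 := by
        field_simp
        ring
      linarith
    have h5 := mul_le_mul_of_nonneg_left h2 (hχnn z)
    linarith
  have m2 : ∫ z, χ z * ‖FL w L i j n z‖ ^ 2 ≤ t * (ε / 2) := by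
    have e1 : ∀ z, χ z * ‖FL w L i j n z‖ ^ 2 = (T (σ n))⁻¹ * (χ z *
        ‖FL (ww a h (fun n z => (u n z : ℂ))) L i j (ns (σ n)) z‖ ^ 2) := by
      intro z
      by_cases hz : z ∈ interior K
      · have e2 : FL w L i j n z = ((c (σ n) : ℝ) : ℂ) ^ 2 *
            FL (ww a h (fun n z => (u n z : ℂ))) L i j (ns (σ n)) z := by
          unfold FL
          simp only [Finset.mul_sum]
          refine Finset.sum_congr rfl fun q _ => ?_
          rw [wv _ n z hz, wv _ n z hz, wuu, wuu]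
          ring
        rw [e2, norm_mul, mul_pow, norm_pow, norm_real, Real.norm_eq_abs,
          abs_of_pos (cpos _), ← pow_mul, c4]
        ring
      · rw [TF.zero hχ hz]; simp
    simp only [e1]
    rw [integral_const_mul, inv_mul_le_iff₀ (by linarith [T1 (σ n)]), hT, mul_comm (1 + _)]
    exact g3
  have m3 : ∫ z, χ z * ‖(((c (σ n))⁻¹ : ℝ) : ℂ) * w k n z‖ ^ 2 ≤ D := by
    have e1 : ∫ z, χ z * ‖(((c (σ n))⁻¹ : ℝ) : ℂ) * w k n z‖ ^ 2 ≤
        |Mχ| * ∫ z in tsupport χ, ‖(((c (σ n))⁻¹ : ℝ) : ℂ) * w k n z‖ ^ 2 := by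
      rw [← integral_const_mul, ← integral_indicator hχ.2.1.measurableSet]
      have i3 : IntegrableOn (fun z => |Mχ| * ‖(((c (σ n))⁻¹ : ℝ) : ℂ) * w k n z‖ ^ 2)
          (tsupport χ) :=
        ((continuousOn_const.mul (cP.norm.pow 2)).mono hχ.2.2).integrableOn_compact hχ.2.1
      refine integral_mono i2 ((integrable_indicator_iff hχ.2.1.measurableSet).2 i3) fun z => ?_
      by_cases hz : z ∈ tsupport χ
      · rw [Set.indicator_of_mem hz]
        refine mul_le_mul_of_nonneg_right ?_ (by positivity)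
        exact (le_abs_self _).trans ((hMχ z hz).trans (le_abs_self _))
      · rw [Set.indicator_of_notMem hz]
        show χ z * _ ≤ 0
        rw [image_eq_zero_of_notMem_tsupport hz, zero_mul]
    refine e1.trans ?_
    rw [hD]
    have e2 := mul_le_mul_of_nonneg_left (g2.trans (le_abs_self C)) (abs_nonneg Mχ)
    linarith
  have m4 : (2 * t)⁻¹ * (t * (ε / 2)) = ε / 4 := by field_simp; ring
  have m5 : t / 2 * D = ε / 4 := by rw [ht]; field_simp; ring
  have m6 := mul_le_mul_of_nonneg_left m2 (show 0 ≤ (2 * t)⁻¹ by positivity)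
  have m7 := mul_le_mul_of_nonneg_left m3 (show 0 ≤ t / 2 by positivity)
  rw [m4] at m6
  rw [m5] at m7
  have m8 := norm_sub_norm_le (y3 w (fun n => (c (σ n))⁻¹) φ i j k n)
    (∫ z, (φ z : ℂ) * (FL w L i j n z * ((((c (σ n))⁻¹ : ℝ) : ℂ) * w k n z)))
  rw [norm_sub_rev] at g1
  linarith

end

end Pool.Agent.TH294.RG
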