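import Pool.Agent.TH294.RG.WG
import Pool.Agent.W806.RW.Mo

/-!
Project RG (helper294): approximate ladder systems with arbitrary two point limits; all fourth
order moments.
-/

set_option autoImplicit false
open MeasureTheory Filter Topology Complex
open scoped ContDiff

namespace Pool.Agent.TH294.RG

open Pool.Agent.W745.RW Pool.Agent.TH294.RS

noncomputable section

/-- approximate ladder systems with general two point limits -/
structure AG (B : Set ℂ) (a : ℂ → ℝ) (h : ℕ → ℝ) (w : ℤ → ℕ → ℂ → ℂ) (M : ℕ → ℂ → ℂ) : Prop where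
  hpos : ∀ n, 0 < h n
  hlim : Tendsto h atTop (𝓝 0)
  sa : ContDiffOn ℝ ∞ a B
  pa : ∀ z ∈ B, 0 < a z
  bd : ∀ k, LB B 4 (w k)
  up : ∀ k, ∃ e, LB B 4 e ∧ ∀ n, ∀ z ∈ B,
    DP a (h n) (w k n) z = w (k + 1) n z + (h n : ℂ) * e n z
  dn : ∀ k, ∃ e, LB B 4 e ∧ ∀ n, ∀ z ∈ B,
    DM a (h n) (w k n) z = - w (k - 1) n z + (h n : ℂ) * e n z
  cj : ∀ k n, ∀ z ∈ B, (starRingEnd ℂ) (w k n z) = (-1) ^ k.natAbs * w (-k) n z
  ml : ∀ k, ML B (M k)
  m0 : ∀ z, (starRingEnd ℂ) (M 0 z) = M 0 z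
  qe : ∀ k : ℕ, WG B (fun n z => w 0 n z * w k n z) (M k)

/-- the two point limits -/
def MZ (M : ℕ → ℂ → ℂ) (k : ℤ) (z : ℂ) : ℂ :=
  if 0 ≤ k then M k.natAbs z else (-1) ^ k.natAbs * (starRingEnd ℂ) (M k.natAbs z)

def cc (M : ℕ → ℂ → ℂ) (a b : ℤ) (z : ℂ) : ℂ :=
  if Even (a + b) then (-1) ^ a.natAbs * MZ M (a + b) z else 0

variable {B : Set ℂ} {a : ℂ → ℝ} {h : ℕ → ℝ} {w : ℤ → ℕ → ℂ → ℂ} {M : ℕ → ℂ → ℂ}

lemma sgn_par {a b : ℤ} (hab : Even (a + b)) : ((-1 : ℂ)) ^ a.natAbs = (-1) ^ b.natAbs := by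
  rcases Int.even_or_odd a with h | h
  · have h1 : Even b := (Int.even_add.1 hab).1 h
    rw [(Int.natAbs_even.2 h).neg_one_pow, (Int.natAbs_even.2 h1).neg_one_pow]
  · have h1 : Odd b := by
      rw [← Int.not_even_iff_odd] at h ⊢
      exact fun hb => h ((Int.even_add.1 hab).2 hb)
    rw [(Int.natAbs_odd.2 h).neg_one_pow, (Int.natAbs_odd.2 h1).neg_one_pow]

lemma cc_symm (M : ℕ → ℂ → ℂ) (a b : ℤ) (z : ℂ) : cc M a b z = cc M b a z := by
  unfold cc
  rw [add_comm b a]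
  split_ifs with h
  · rw [sgn_par h]
  · rfl

lemma cc_up (M : ℕ → ℂ → ℂ) (a b : ℤ) (z : ℂ) : cc M (a + 1) b z = - cc M a (b + 1) z := by
  unfold cc
  rw [show a + 1 + b = a + (b + 1) by ring]
  split_ifs with h
  · rw [sgn_succ]; ring
  · simp

lemma cc_dn (M : ℕ → ℂ → ℂ) (a b : ℤ) (z : ℂ) : cc M (a - 1) b z = - cc M a (b - 1) z := by
  have := cc_up M (a - 1) (b - 1) z
  rw [sub_add_cancel, sub_add_cancel] at this
  rw [this, neg_neg]

/-- the Gaussian part of the fourth order moments -/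
def GG' (M : ℕ → ℂ → ℂ) (a b c d : ℤ) (z : ℂ) : ℂ :=
  cc M a b z * cc M c d z + cc M a c z * cc M b d z + cc M a d z * cc M b c z

lemma GG12' (M : ℕ → ℂ → ℂ) (a b c d : ℤ) (z : ℂ) : GG' M a b c d z = GG' M b a c d z := by
  unfold GG'; rw [cc_symm M b a]; ring
lemma GG23' (M : ℕ → ℂ → ℂ) (a b c d : ℤ) (z : ℂ) : GG' M a b c d z = GG' M a c b d z := by
  unfold GG'; rw [cc_symm M c b]; ring
lemma GG34' (M : ℕ → ℂ → ℂ) (a b c d : ℤ) (z : ℂ) : GG' M a b c d z = GG' M a b d c z := by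
  unfold GG'; rw [cc_symm M d c]; ring

lemma GGT (M : ℕ → ℂ → ℂ) (a b c d : ℤ) (z : ℂ) : GG' M (a+1) b c d z + GG' M a (b+1) c d z +
    GG' M a b (c+1) d z + GG' M a b c (d+1) z = 0 := by
  simp only [GG', cc_up]; ring
lemma GGT' (M : ℕ → ℂ → ℂ) (a b c d : ℤ) (z : ℂ) : GG' M (a-1) b c d z + GG' M a (b-1) c d z +
    GG' M a b (c-1) d z + GG' M a b c (d-1) z = 0 := by
  simp only [GG', cc_dn]; ring

lemma GGX (M : ℕ → ℂ → ℂ) (a b c d : ℤ) (z : ℂ) :
    (GG' M a (b+1) c (d-1) z - GG' M a (b+1) (c-1) d z - GG' M (a+1) b c (d-1) z +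
      GG' M (a+1) b (c-1) d z)
    - (GG' M a (b-1) c (d+1) z - GG' M a (b-1) (c+1) d z - GG' M (a-1) b c (d+1) z +
      GG' M (a-1) b (c+1) d z)
    = (cc M a (b+1) z - cc M (a+1) b z) * (cc M c (d-1) z - cc M (c-1) d z)
      - (cc M a (b-1) z - cc M (a-1) b z) * (cc M c (d+1) z - cc M (c+1) d z) := by
  simp only [GG', cc_up, cc_dn, sub_add_cancel, add_sub_cancel_right]; ring

/-- one step of the two point relation -/
lemma AG.step2 (H : AG B a h w M) (hB : IsOpen B) (j k : ℤ) :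
    WN B (fun n z => w (j + 1) n z * w k n z + w j n z * w (k + 1) n z) := by
  obtain ⟨e, he, he'⟩ := H.up j
  obtain ⟨f, hf, hf'⟩ := H.up k
  have l1 : LB B 1 (fun n z => w j n z * w k n z) := ((H.bd j).mul4 (H.bd k)).low (p := 1)
  have l2 : LB B 1 (fun n z => e n z * w k n z + w j n z * f n z) :=
    ((he.mul4 (H.bd k)).add ((H.bd j).mul4 hf)).low (p := 1)
  refine ((l1.wnP hB H.hlim H.sa).sub (l2.wn H.hlim)).congr fun n z hz => ?_
  have e1 := he' n z hz
  have e2 := hf' n z hz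
  simp only [DP] at e1 e2 ⊢
  rw [dd_mul (da hB ((H.bd j).sm n) hz) (da hB ((H.bd k).sm n) hz)]
  linear_combination (-(w k n z)) * e1 - (w j n z) * e2

/-- the first translation relation -/
lemma AG.tr (H : AG B a h w M) (hB : IsOpen B) (i j k l : ℤ) :
    WN B (fun n z => w (i + 1) n z * w j n z * w k n z * w l n z +
      w i n z * w (j + 1) n z * w k n z * w l n z + w i n z * w j n z * w (k + 1) n z * w l n z +
      w i n z * w j n z * w k n z * w (l + 1) n z) := by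
  obtain ⟨e1, he1, g1⟩ := H.up i
  obtain ⟨e2, he2, g2⟩ := H.up j
  obtain ⟨e3, he3, g3⟩ := H.up k
  obtain ⟨e4, he4, g4⟩ := H.up l
  have l1 : LB B 1 (fun n z => (w i n z * w j n z) * (w k n z * w l n z)) :=
    ((H.bd i).mul4 (H.bd j)).mul2 ((H.bd k).mul4 (H.bd l))
  have l2 : LB B 1 (fun n z => (e1 n z * w j n z) * (w k n z * w l n z) +
      (w i n z * e2 n z) * (w k n z * w l n z) + (w i n z * w j n z) * (e3 n z * w l n z) +
      (w i n z * w j n z) * (w k n z * e4 n z)) :=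
    ((((he1.mul4 (H.bd j)).mul2 ((H.bd k).mul4 (H.bd l))).add
      (((H.bd i).mul4 he2).mul2 ((H.bd k).mul4 (H.bd l)))).add
      (((H.bd i).mul4 (H.bd j)).mul2 (he3.mul4 (H.bd l)))).add
      (((H.bd i).mul4 (H.bd j)).mul2 ((H.bd k).mul4 he4))
  refine ((l1.wnP hB H.hlim H.sa).sub (l2.wn H.hlim)).congr fun n z hz => ?_
  have c1 := g1 n z hz
  have c2 := g2 n z hz
  have c3 := g3 n z hz
  have c4 := g4 n z hz
  have d1 := da hB ((H.bd i).sm n) hz
  have d2 := da hB ((H.bd j).sm n) hz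
  have d3 := da hB ((H.bd k).sm n) hz
  have d4 := da hB ((H.bd l).sm n) hz
  simp only [DP] at c1 c2 c3 c4 ⊢
  rw [dd_mul (f := fun z => w i n z * w j n z) (g := fun z => w k n z * w l n z) (d1.mul d2)
    (d3.mul d4), dd_mul d1 d2, dd_mul d3 d4]
  linear_combination (-(w j n z * w k n z * w l n z)) * c1 - (w i n z * w k n z * w l n z) * c2
    - (w i n z * w j n z * w l n z) * c3 - (w i n z * w j n z * w k n z) * c4

/-- the second translation relation -/
lemma AG.tr' (H : AG B a h w M) (hB : IsOpen B) (i j k l : ℤ) :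
    WN B (fun n z => w (i - 1) n z * w j n z * w k n z * w l n z +
      w i n z * w (j - 1) n z * w k n z * w l n z + w i n z * w j n z * w (k - 1) n z * w l n z +
      w i n z * w j n z * w k n z * w (l - 1) n z) := by
  obtain ⟨e1, he1, g1⟩ := H.dn i
  obtain ⟨e2, he2, g2⟩ := H.dn j
  obtain ⟨e3, he3, g3⟩ := H.dn k
  obtain ⟨e4, he4, g4⟩ := H.dn l
  have l1 : LB B 1 (fun n z => (w i n z * w j n z) * (w k n z * w l n z)) :=
    ((H.bd i).mul4 (H.bd j)).mul2 ((H.bd k).mul4 (H.bd l))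
  have l2 : LB B 1 (fun n z => (e1 n z * w j n z) * (w k n z * w l n z) +
      (w i n z * e2 n z) * (w k n z * w l n z) + (w i n z * w j n z) * (e3 n z * w l n z) +
      (w i n z * w j n z) * (w k n z * e4 n z)) :=
    ((((he1.mul4 (H.bd j)).mul2 ((H.bd k).mul4 (H.bd l))).add
      (((H.bd i).mul4 he2).mul2 ((H.bd k).mul4 (H.bd l)))).add
      (((H.bd i).mul4 (H.bd j)).mul2 (he3.mul4 (H.bd l)))).add
      (((H.bd i).mul4 (H.bd j)).mul2 ((H.bd k).mul4 he4))
  refine ((l2.wn H.hlim).sub (l1.wnM hB H.hlim H.sa)).congr fun n z hz => ?_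
  have c1 := g1 n z hz
  have c2 := g2 n z hz
  have c3 := g3 n z hz
  have c4 := g4 n z hz
  have d1 := da hB ((H.bd i).sm n) hz
  have d2 := da hB ((H.bd j).sm n) hz
  have d3 := da hB ((H.bd k).sm n) hz
  have d4 := da hB ((H.bd l).sm n) hz
  simp only [DM] at c1 c2 c3 c4 ⊢
  rw [db_mul (f := fun z => w i n z * w j n z) (g := fun z => w k n z * w l n z) (d1.mul d2)
    (d3.mul d4), db_mul d1 d2, db_mul d3 d4]
  linear_combination ((w j n z * w k n z * w l n z)) * c1 + (w i n z * w k n z * w l n z) * c2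
    + (w i n z * w j n z * w l n z) * c3 + (w i n z * w j n z * w k n z) * c4

lemma AG.bPP (H : AG B a h w M) (i j : ℤ) : LB B 2 (PP w i j) :=
  ((H.bd i).mul4 (H.bd (j + 1))).sub ((H.bd (i + 1)).mul4 (H.bd j))
lemma AG.bQQ (H : AG B a h w M) (i j : ℤ) : LB B 2 (QQ w i j) :=
  ((H.bd i).mul4 (H.bd (j - 1))).sub ((H.bd (i - 1)).mul4 (H.bd j))

lemma AG.bR (H : AG B a h w M) (hB : IsOpen B) (i j : ℤ) :
    LB B 2 (fun n z => db (PP w i j n) z - dd (QQ w i j n) z) := by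
  obtain ⟨e1, he1, g1⟩ := H.dn i
  obtain ⟨e2, he2, g2⟩ := H.dn (j + 1)
  obtain ⟨e3, he3, g3⟩ := H.dn (i + 1)
  obtain ⟨e4, he4, g4⟩ := H.dn j
  obtain ⟨f1, hf1, k1⟩ := H.up i
  obtain ⟨f2, hf2, k2⟩ := H.up (j - 1)
  obtain ⟨f3, hf3, k3⟩ := H.up (i - 1)
  obtain ⟨f4, hf4, k4⟩ := H.up j
  have l1 : LB B 2 (fun n z => (e1 n z * w (j + 1) n z + w i n z * e2 n z -
      (e3 n z * w j n z + w (i + 1) n z * e4 n z)) -
      (f1 n z * w (j - 1) n z + w i n z * f2 n z -
      (f3 n z * w j n z + w (i - 1) n z * f4 n z))) :=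
    (((he1.mul4 (H.bd (j + 1))).add ((H.bd i).mul4 he2)).sub
      ((he3.mul4 (H.bd j)).add ((H.bd (i + 1)).mul4 he4))).sub
    (((hf1.mul4 (H.bd (j - 1))).add ((H.bd i).mul4 hf2)).sub
      ((hf3.mul4 (H.bd j)).add ((H.bd (i - 1)).mul4 hf4)))
  have ha : ContDiffOn ℝ ∞ (fun z => ((a z : ℂ))⁻¹) B := by
    refine ContDiffOn.inv (ofRealCLM.contDiff.comp_contDiffOn H.sa) fun z hz => ?_
    have := (H.pa z hz).ne'
    exact_mod_cast this
  refine (l1.smulc ha).congr fun n z hz => ?_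
  have d1 := da hB ((H.bd i).sm n) hz
  have d2 := da hB ((H.bd (j + 1)).sm n) hz
  have d3 := da hB ((H.bd (i + 1)).sm n) hz
  have d4 := da hB ((H.bd j).sm n) hz
  have d5 := da hB ((H.bd (j - 1)).sm n) hz
  have d6 := da hB ((H.bd (i - 1)).sm n) hz
  have c1 := g1 n z hz
  have c2 := g2 n z hz
  have c3 := g3 n z hz
  have c4 := g4 n z hz
  have b1 := k1 n z hz
  have b2 := k2 n z hz
  have b3 := k3 n z hz
  have b4 := k4 n z hz
  rw [add_sub_cancel_right] at c2 c3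
  rw [sub_add_cancel] at b2 b3
  have hn : (h n : ℂ) ≠ 0 := by exact_mod_cast (H.hpos n).ne'
  have han : (a z : ℂ) ≠ 0 := by exact_mod_cast (H.pa z hz).ne'
  have eP : db (PP w i j n) z = (db (w i n) z * w (j + 1) n z + w i n z * db (w (j + 1) n) z) -
      (db (w (i + 1) n) z * w j n z + w (i + 1) n z * db (w j n) z) := by
    have : PP w i j n = fun z => w i n z * w (j + 1) n z - w (i + 1) n z * w j n z := rfl
    rw [this, db_sub (f := fun z => w i n z * w (j + 1) n z) (g := fun z => w (i + 1) n z * w j n z)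
      (d1.mul d2) (d3.mul d4), db_mul d1 d2, db_mul d3 d4]
  have eQ : dd (QQ w i j n) z = (dd (w i n) z * w (j - 1) n z + w i n z * dd (w (j - 1) n) z) -
      (dd (w (i - 1) n) z * w j n z + w (i - 1) n z * dd (w j n) z) := by
    have : QQ w i j n = fun z => w i n z * w (j - 1) n z - w (i - 1) n z * w j n z := rfl
    rw [this, dd_sub (f := fun z => w i n z * w (j - 1) n z) (g := fun z => w (i - 1) n z * w j n z)
      (d1.mul d5) (d6.mul d4), dd_mul d1 d5, dd_mul d6 d4]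
  rw [eP, eQ]
  simp only [DM, DP] at c1 c2 c3 c4 b1 b2 b3 b4
  have han' : (a z : ℂ) * (a z : ℂ)⁻¹ = 1 := mul_inv_cancel₀ han
  apply mul_left_cancel₀ (mul_ne_zero hn han)
  rw [show ∀ X : ℂ, (h n : ℂ) * (a z : ℂ) * ((a z : ℂ)⁻¹ * X) = (h n : ℂ) * X * ((a z : ℂ) *
    (a z : ℂ)⁻¹) by intro X; ring, han', mul_one]
  linear_combination (w (j + 1) n z) * c1 + (w i n z) * c2 - (w j n z) * c3
    - (w (i + 1) n z) * c4 - (w (j - 1) n z) * b1 - (w i n z) * b2 + (w j n z) * b3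
    + (w (i - 1) n z) * b4


lemma WG.addn {f e : ℕ → ℂ → ℂ} {g : ℂ → ℂ} (hf : WG B f g) (he : WN B e) (hg : ML B g) :
    WG B (fun n z => f n z + e n z) g :=
  (hf.add (WN.wg he) hg (ML.smooth continuousOn_const)).congr (fun _ _ _ => rfl)
    (fun z _ => by ring)

lemma ML.MZ (hM : ∀ k, ML B (M k)) (k : ℤ) : ML B (MZ M k) := by
  by_cases hk : 0 ≤ k
  · have : RG.MZ M k = M k.natAbs := by funext z; simp only [RG.MZ, if_pos hk]
    rw [this]; exact hM _
  · have : RG.MZ M k = fun z => (-1) ^ k.natAbs * (starRingEnd ℂ) (M k.natAbs z) := by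
      funext z; simp only [RG.MZ, if_neg hk]
    rw [this]; exact (hM _).conj.cmul _

lemma ML.zero : ML B (fun _ => 0) := ML.smooth continuousOn_const

lemma ML.cc (hM : ∀ k, ML B (M k)) (j k : ℤ) : ML B (cc M j k) := by
  by_cases hk : Even (j + k)
  · have : RG.cc M j k = fun z => (-1) ^ j.natAbs * RG.MZ M (j + k) z := by
      funext z; simp only [RG.cc, if_pos hk]
    rw [this]; exact (ML.MZ hM _).cmul _
  · have : RG.cc M j k = fun z => 0 := by
      funext z; simp only [RG.cc, if_neg hk]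
    rw [this]; exact ML.zero

lemma sgn_sq (k : ℕ) : ((-1 : ℂ)) ^ k * (-1) ^ k = 1 := by
  rw [← mul_pow]; simp

lemma AG.base2 (H : AG B a h w M) (k : ℤ) : WG B (fun n z => w 0 n z * w k n z) (MZ M k) := by
  by_cases hk : 0 ≤ k
  · obtain ⟨m, rfl⟩ := Int.eq_ofNat_of_zero_le hk
    refine (H.qe m).congr (fun _ _ _ => rfl) fun z _ => ?_
    simp only [MZ, if_pos hk, Int.natAbs_natCast]
  · obtain ⟨m, hm⟩ : ∃ m : ℕ, k = -(m : ℤ) := ⟨k.natAbs, by omega⟩
    subst hm
    refine ((H.qe m).conj.cmul ((-1) ^ m)).congr (fun n z hz => ?_) fun z _ => ?_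
    · have h4 := H.cj m n z hz
      have h5 := H.cj 0 n z hz
      simp only [Int.natAbs_natCast, Int.natAbs_zero, pow_zero, one_mul, neg_zero] at h4 h5
      rw [map_mul, h4, h5]
      have h6 := sgn_sq m
      linear_combination (-(w 0 n z * w (-(m : ℤ)) n z)) * h6
    · simp only [MZ, if_neg hk, Int.natAbs_neg, Int.natAbs_natCast]

lemma AG.two0 (H : AG B a h w M) (hB : IsOpen B) (j : ℤ) :
    ∀ k : ℤ, WG B (fun n z => w j n z * w k n z) (fun z => (-1) ^ j.natAbs * MZ M (j + k) z) := by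
  have ml : ∀ (c : ℂ) (k : ℤ), ML B (fun z => c * MZ M k z) := fun c k => (ML.MZ H.ml k).cmul c
  induction j using Int.induction_on with
  | zero => exact fun k => (H.base2 k).congr (fun _ _ _ => rfl) fun z _ => by simp
  | succ i ih =>
    intro k
    refine (((ih (k + 1)).cmul (-1)).addn (H.step2 hB i k) ((ml _ _).cmul _)).congr
      (fun n z _ => by ring) fun z _ => ?_
    rw [sgn_succ, show (i : ℤ) + 1 + k = i + (k + 1) by ring]; ring
  | pred i ih =>
    intro k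
    have h1 := H.step2 hB (-i - 1) (k - 1)
    have e1 : (-(i : ℤ) - 1 + 1) = -i := by ring
    have e2 : (k - 1 + 1) = k := by ring
    rw [e1, e2] at h1
    refine (((ih (k - 1)).cmul (-1)).addn h1 ((ml _ _).cmul _)).congr
      (fun n z _ => by ring) fun z _ => ?_
    have e3 := sgn_succ (-(i : ℤ) - 1)
    rw [e1] at e3
    rw [e3, show -(i : ℤ) - 1 + k = -i + (k - 1) by ring]; ring

/-- two point limits -/
theorem AG.two (H : AG B a h w M) (hB : IsOpen B) (j k : ℤ) :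
    WG B (fun n z => w j n z * w k n z) (cc M j k) := by
  have h1 := H.two0 hB j k
  have h2 := H.two0 hB k j
  have ml : ∀ (c : ℂ) (k : ℤ), ML B (fun z => c * MZ M k z) := fun c k => (ML.MZ H.ml k).cmul c
  refine ((h1.add h2 (ml _ _) (ml _ _)).cmul (1 / 2)).congr (fun n z _ => by ring) fun z _ => ?_
  rw [add_comm k j]
  by_cases hjk : Even (j + k)
  · simp only [cc, if_pos hjk]
    rw [sgn_par hjk]; ring
  · simp only [cc, if_neg hjk]
    have h3 : Even (j + 1 + k) := by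
      have := Int.not_even_iff_odd.1 hjk
      have h4 := this.add_one
      rwa [show j + k + 1 = j + 1 + k by ring] at h4
    have h4 := sgn_par h3
    rw [sgn_succ] at h4
    rw [← h4]; ring

lemma AG.wPP (H : AG B a h w M) (hB : IsOpen B) (i j : ℤ) :
    WG B (PP w i j) (fun z => cc M i (j + 1) z - cc M (i + 1) j z) :=
  ((H.two hB i (j + 1)).sub (H.two hB (i + 1) j) (ML.cc H.ml _ _) (ML.cc H.ml _ _)).congr
    (fun n z _ => by simp only [PP]) fun z _ => rfl
lemma AG.wQQ (H : AG B a h w M) (hB : IsOpen B) (i j : ℤ) :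
    WG B (QQ w i j) (fun z => cc M i (j - 1) z - cc M (i - 1) j z) :=
  ((H.two hB i (j - 1)).sub (H.two hB (i - 1) j) (ML.cc H.ml _ _) (ML.cc H.ml _ _)).congr
    (fun n z _ => by simp only [QQ]) fun z _ => rfl


/-- the cross relation -/
lemma AG.cross (H : AG B a h w M) (hB : IsOpen B) (i j k l : ℤ) :
    WG B (fun n z => PP w i j n z * QQ w k l n z - QQ w i j n z * PP w k l n z)
      (fun z => (cc M i (j + 1) z - cc M (i + 1) j z) * (cc M k (l - 1) z - cc M (k - 1) l z) -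
       (cc M i (j - 1) z - cc M (i - 1) j z) * (cc M k (l + 1) z - cc M (k + 1) l z)) :=
  dcv hB (H.bPP i j) (H.bQQ i j) (H.bPP k l) (H.bQQ k l) (H.bR hB i j) (H.bR hB k l)
    (H.wPP hB i j) (H.wQQ hB i j) (H.wPP hB k l) (H.wQQ hB k l)
    ((ML.cc H.ml _ _).sub (ML.cc H.ml _ _)) ((ML.cc H.ml _ _).sub (ML.cc H.ml _ _))
    ((ML.cc H.ml _ _).sub (ML.cc H.ml _ _)) ((ML.cc H.ml _ _).sub (ML.cc H.ml _ _))

lemma AG.gi (H : AG B a h w M) {φ : ℂ → ℝ} (hφ : TF B φ) (i j k l : ℤ) :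
    Integrable (fun z => (φ z : ℂ) * GG' M i j k l z) := by
  have m := fun (a b c d : ℤ) => (ML.cc H.ml a b).mulint (ML.cc H.ml c d) hφ.2.1 hφ.2.2
  refine TF.intK hφ ?_
  exact ((m i j k l).add (m i k j l)).add (m i l j k)

/-- All fourth order moments of total order zero. -/
theorem AG.mom4 (H : AG B a h w M) (hB : IsOpen B) {φ : ℂ → ℝ} (hφ : TF B φ) (i j k l : ℤ)
    (hs : i + j + k + l = 0) :
    Tendsto (fun n => ((∫ z, (φ z : ℂ) * F4 w i j k l n z) - ∫ z, (φ z : ℂ) * GG' M i j k l z) -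
      eps i j k l * ((∫ z, (φ z : ℂ) * F4 w 0 0 0 0 n z) - ∫ z, (φ z : ℂ) * GG' M 0 0 0 0 z)) atTop
      (𝓝 0) := by
  have hc : ∀ i j k l n, ContinuousOn (F4 w i j k l n) B := fun i j k l n =>
    ((((H.bd i).co n).mul ((H.bd j).co n)).mul ((H.bd k).co n)).mul ((H.bd l).co n)
  have I4 : ∀ i j k l n, Integrable (fun z => (φ z : ℂ) * F4 w i j k l n z) :=
    fun i j k l n => TF.cint hφ (hc i j k l n)
  have J4 := H.gi hφ
  refine al2 AlB.al2' (fun i j k l n => (∫ z, (φ z : ℂ) * F4 w i j k l n z) -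
    ∫ z, (φ z : ℂ) * GG' M i j k l z)
    (fun i j k l => by
      ext n
      simp only [GG12' M i j k l]
      congr 2; funext z; simp only [F4]; ring)
    (fun i j k l => by
      ext n
      simp only [GG23' M i j k l]
      congr 2; funext z; simp only [F4]; ring)
    (fun i j k l => by
      ext n
      simp only [GG34' M i j k l]
      congr 2; funext z; simp only [F4]; ring)
    (fun i j k l => by
      have h1 := (H.tr hB i j k l).nul φ hφ
      have h2 : (∫ z, (φ z : ℂ) * GG' M (i + 1) j k l z) + (∫ z, (φ z : ℂ) * GG' M i (j + 1) k l z)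
          + (∫ z, (φ z : ℂ) * GG' M i j (k + 1) l z) + ∫ z, (φ z : ℂ) * GG' M i j k (l + 1) z =
          0 := by
        rw [Pool.Agent.W450.RW.T.add4 (J4 _ _ _ _) (J4 _ _ _ _) (J4 _ _ _ _) (J4 _ _ _ _)]
        rw [← integral_zero ℂ ℂ]
        congr 1; funext z
        have := GGT M i j k l z
        linear_combination (φ z : ℂ) * this
      refine h1.congr (fun n => ?_)
      have h3 : ∫ z, (φ z : ℂ) * (w (i + 1) n z * w j n z * w k n z * w l n z +
          w i n z * w (j + 1) n z * w k n z * w l n z +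
          w i n z * w j n z * w (k + 1) n z * w l n z +
          w i n z * w j n z * w k n z * w (l + 1) n z) =
          (∫ z, (φ z : ℂ) * F4 w (i + 1) j k l n z) + (∫ z, (φ z : ℂ) * F4 w i (j + 1) k l n z) +
          (∫ z, (φ z : ℂ) * F4 w i j (k + 1) l n z) + ∫ z, (φ z : ℂ) * F4 w i j k (l + 1) n z := by
        rw [Pool.Agent.W450.RW.T.add4 (I4 _ _ _ _ _) (I4 _ _ _ _ _) (I4 _ _ _ _ _)
          (I4 _ _ _ _ _)]
        congr 1; funext z; simp only [F4]; ring
      rw [h3]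
      linear_combination h2)
    (fun i j k l => by
      have h1 := (H.tr' hB i j k l).nul φ hφ
      have h2 : (∫ z, (φ z : ℂ) * GG' M (i - 1) j k l z) + (∫ z, (φ z : ℂ) * GG' M i (j - 1) k l z)
          + (∫ z, (φ z : ℂ) * GG' M i j (k - 1) l z) + ∫ z, (φ z : ℂ) * GG' M i j k (l - 1) z =
          0 := by
        rw [Pool.Agent.W450.RW.T.add4 (J4 _ _ _ _) (J4 _ _ _ _) (J4 _ _ _ _) (J4 _ _ _ _)]
        rw [← integral_zero ℂ ℂ]
        congr 1; funext z
        have := GGT' M i j k l z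
        linear_combination (φ z : ℂ) * this
      refine h1.congr (fun n => ?_)
      have h3 : ∫ z, (φ z : ℂ) * (w (i - 1) n z * w j n z * w k n z * w l n z +
          w i n z * w (j - 1) n z * w k n z * w l n z +
          w i n z * w j n z * w (k - 1) n z * w l n z +
          w i n z * w j n z * w k n z * w (l - 1) n z) =
          (∫ z, (φ z : ℂ) * F4 w (i - 1) j k l n z) + (∫ z, (φ z : ℂ) * F4 w i (j - 1) k l n z) +
          (∫ z, (φ z : ℂ) * F4 w i j (k - 1) l n z) + ∫ z, (φ z : ℂ) * F4 w i j k (l - 1) n z := by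
        rw [Pool.Agent.W450.RW.T.add4 (I4 _ _ _ _ _) (I4 _ _ _ _ _) (I4 _ _ _ _ _)
          (I4 _ _ _ _ _)]
        congr 1; funext z; simp only [F4]; ring
      rw [h3]
      linear_combination h2)
    (fun i j k l => by
      have h1 := (H.cross hB i j k l).lim φ hφ
      have i9 := Pool.Agent.W686.RW.X.int8 (J4 i (j + 1) k (l - 1)) (J4 i (j + 1) (k - 1) l)
        (J4 (i + 1) j k (l - 1)) (J4 (i + 1) j (k - 1) l)
        (J4 i (j - 1) k (l + 1)) (J4 i (j - 1) (k + 1) l)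
        (J4 (i - 1) j k (l + 1)) (J4 (i - 1) j (k + 1) l)
      have m3 : ∫ z, (φ z : ℂ) * ((cc M i (j + 1) z - cc M (i + 1) j z) *
          (cc M k (l - 1) z - cc M (k - 1) l z) -
          (cc M i (j - 1) z - cc M (i - 1) j z) * (cc M k (l + 1) z - cc M (k + 1) l z)) =
          ∫ z, (((φ z : ℂ) * GG' M i (j + 1) k (l - 1) z - (φ z : ℂ) * GG' M i (j + 1) (k - 1) l z
            - (φ z : ℂ) * GG' M (i + 1) j k (l - 1) z + (φ z : ℂ) * GG' M (i + 1) j (k - 1) l z)
          - ((φ z : ℂ) * GG' M i (j - 1) k (l + 1) z - (φ z : ℂ) * GG' M i (j - 1) (k + 1) l z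
            - (φ z : ℂ) * GG' M (i - 1) j k (l + 1) z
            + (φ z : ℂ) * GG' M (i - 1) j (k + 1) l z)) := by
        congr 1; funext z
        rw [← GGX M i j k l z]; ring
      rw [m3, i9] at h1
      have h4 := h1.sub_const (((∫ z, (φ z : ℂ) * GG' M i (j + 1) k (l - 1) z) -
        (∫ z, (φ z : ℂ) * GG' M i (j + 1) (k - 1) l z)
            - (∫ z, (φ z : ℂ) * GG' M (i + 1) j k (l - 1) z) +
            (∫ z, (φ z : ℂ) * GG' M (i + 1) j (k - 1) l z))
          - ((∫ z, (φ z : ℂ) * GG' M i (j - 1) k (l + 1) z) -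
            (∫ z, (φ z : ℂ) * GG' M i (j - 1) (k + 1) l z)
            - (∫ z, (φ z : ℂ) * GG' M (i - 1) j k (l + 1) z)
            + (∫ z, (φ z : ℂ) * GG' M (i - 1) j (k + 1) l z)))
      rw [sub_self] at h4
      refine h4.congr (fun n => ?_)
      have i9 := Pool.Agent.W686.RW.X.int8 (I4 i (j + 1) k (l - 1) n) (I4 i (j + 1) (k - 1) l n)
        (I4 (i + 1) j k (l - 1) n) (I4 (i + 1) j (k - 1) l n)
        (I4 i (j - 1) k (l + 1) n) (I4 i (j - 1) (k + 1) l n)
        (I4 (i - 1) j k (l + 1) n) (I4 (i - 1) j (k + 1) l n)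
      have m2 : ∫ z, (φ z : ℂ) * (PP w i j n z * QQ w k l n z - QQ w i j n z * PP w k l n z) =
          ∫ z, (((φ z : ℂ) * F4 w i (j + 1) k (l - 1) n z - (φ z : ℂ) * F4 w i (j + 1) (k - 1) l n z
            - (φ z : ℂ) * F4 w (i + 1) j k (l - 1) n z + (φ z : ℂ) * F4 w (i + 1) j (k - 1) l n z)
          - ((φ z : ℂ) * F4 w i (j - 1) k (l + 1) n z - (φ z : ℂ) * F4 w i (j - 1) (k + 1) l n z
            - (φ z : ℂ) * F4 w (i - 1) j k (l + 1) n z
            + (φ z : ℂ) * F4 w (i - 1) j (k + 1) l n z)) := by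
        congr 1; funext z; simp only [F4, PP, QQ]; ring
      rw [m2, i9]
      ring)
    i j k l hs

end

end Pool.Agent.TH294.RG
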