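import Pool.Agent.TH294.RG.Abs

/-!
Project RG (helper294): the algebra of fourth order moments of any total order.
-/

set_option autoImplicit false
open MeasureTheory Filter Topology Complex

namespace Pool.Agent.TH294.RG

open Pool.Agent.W745.RW

lemma eps_shift (a b c d k : ℤ) : eps (a + 2 * k) b c d = eps a b c d := by
  unfold eps
  have : (a + 2 * k) % 2 = a % 2 := by omega
  rw [this]

/-- the sign factor, zero for odd total order -/
noncomputable def ep2 (a b c d : ℤ) : ℂ := if Even (a + b + c + d) then eps a b c d else 0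

theorem algE (D : ℤ → ℤ → ℤ → ℤ → ℂ)
    (s1 : ∀ a b c d, D a b c d = D b a c d) (s2 : ∀ a b c d, D a b c d = D a c b d)
    (s3 : ∀ a b c d, D a b c d = D a b d c)
    (R1 : ∀ a b c d, D (a+1) b c d + D a (b+1) c d + D a b (c+1) d + D a b c (d+1) = 0)
    (h2 : ∀ a b c d, D (a+2) b c d = D a (b+2) c d) (a b c d k : ℤ)
    (hs : a + b + c + d = 2 * k) : D a b c d = eps a b c d * D (2 * k) 0 0 0 := by
  have sh := shift2 D h2
  have key := abs2 (fun a b c d => D (a + 2 * k) b c d)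
    (fun a b c d => by
      show D (a + 2 * k) b c d = D (b + 2 * k) a c d
      rw [sh, s1])
    (fun a b c d => by
      show D (a + 2 * k) b c d = D (a + 2 * k) c b d
      rw [s2])
    (fun a b c d => by
      show D (a + 2 * k) b c d = D (a + 2 * k) b d c
      rw [s3])
    (fun a b c d => by
      show D (a + 1 + 2 * k) b c d + D (a + 2 * k) (b + 1) c d + D (a + 2 * k) b (c + 1) d +
        D (a + 2 * k) b c (d + 1) = 0
      rw [show a + 1 + 2 * k = a + 2 * k + 1 by ring]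
      exact R1 (a + 2 * k) b c d)
    (fun a b c d => by
      show D (a + 2 + 2 * k) b c d = D (a + 2 * k) (b + 2) c d
      rw [show a + 2 + 2 * k = a + 2 * k + 2 by ring]
      exact h2 _ _ _ _) (a - 2 * k) b c d (by linarith)
  simp only [sub_add_cancel, zero_add, smul_eq_mul] at key
  rw [key]
  congr 1
  have := eps_shift (a - 2 * k) b c d k
  rw [sub_add_cancel] at this
  exact this.symm

theorem algO (D : ℤ → ℤ → ℤ → ℤ → ℂ)
    (s1 : ∀ a b c d, D a b c d = D b a c d) (s2 : ∀ a b c d, D a b c d = D a c b d)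
    (s3 : ∀ a b c d, D a b c d = D a b d c)
    (R1 : ∀ a b c d, D (a+1) b c d + D a (b+1) c d + D a b (c+1) d + D a b c (d+1) = 0)
    (h2 : ∀ a b c d, D (a+2) b c d = D a (b+2) c d) (a b c d : ℤ)
    (hs : Odd (a + b + c + d)) : D a b c d = 0 := by
  have sh := shift2 D h2
  have m12 : ∀ j a b c d, D (a + 2*j) b c d = D a (b + 2*j) c d := fun j a b c d => sh j a b c d
  have m13 : ∀ j a b c d, D (a + 2*j) b c d = D a b (c + 2*j) d := by
    intro j a b c d
    rw [s2 (a + 2*j), m12, s2]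
  have m14 : ∀ j a b c d, D (a + 2*j) b c d = D a b c (d + 2*j) := by
    intro j a b c d
    rw [s3 (a + 2*j), m13, s3]
  obtain ⟨k, hk⟩ := hs
  -- one odd entry
  have o1 : ∀ k : ℤ, D (2 * k + 1) 0 0 0 = 0 := by
    intro k
    have t := R1 (2 * k) 0 0 0
    simp only [zero_add] at t
    have e1 : D (2 * k) 1 0 0 = D (2 * k + 1) 0 0 0 := by
      have := m12 k 0 1 0 0
      rw [zero_add] at this
      rw [this, s1, add_comm 1 (2 * k)]
    have e2 : D (2 * k) 0 1 0 = D (2 * k + 1) 0 0 0 := by rw [s2, e1]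
    have e3 : D (2 * k) 0 0 1 = D (2 * k + 1) 0 0 0 := by rw [s3, e2]
    rw [e1, e2, e3] at t
    linear_combination (1 / 4 : ℂ) * t
  -- three odd entries
  have o3 : ∀ k : ℤ, D (2 * k) 1 1 1 = 0 := by
    intro k
    have t := R1 (2 * k - 1) 1 1 1
    simp only [sub_add_cancel, show (1 : ℤ) + 1 = 2 by norm_num] at t
    have e1 : D (2 * k - 1) 2 1 1 = D (2 * k) 1 1 1 := by
      have h5 := m12 (k - 1) 1 2 1 1
      have h6 := s1 1 (2 + 2 * (k - 1)) 1 1
      rw [show 1 + 2 * (k - 1) = 2 * k - 1 by ring] at h5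
      rw [h5, h6, show 2 + 2 * (k - 1) = 2 * k by ring]
    have e2 : D (2 * k - 1) 1 2 1 = D (2 * k) 1 1 1 := by rw [s2, e1]
    have e3 : D (2 * k - 1) 1 1 2 = D (2 * k) 1 1 1 := by rw [s3, e2]
    rw [e1, e2, e3] at t
    linear_combination (1 / 4 : ℂ) * t
  have key : D a b c d = D (2 * k + 1 - (b % 2 + c % 2 + d % 2)) (b % 2) (c % 2) (d % 2) := by
    have ea : 2 * k + 1 - (b % 2 + c % 2 + d % 2) = a + 2 * (b / 2) + 2 * (c / 2) + 2 * (d / 2) := by
      omega
    rw [ea, m14, m13, m12]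
    congr 1 <;> omega
  rw [key]
  rcases Int.emod_two_eq_zero_or_one b with hb | hb <;>
  rcases Int.emod_two_eq_zero_or_one c with hc | hc <;>
  rcases Int.emod_two_eq_zero_or_one d with hd | hd <;>
  rw [hb, hc, hd]
  · have := o1 k
    rw [show 2 * k + 1 - (0 + 0 + 0) = 2 * k + 1 by ring]; exact this
  · rw [s3, s2, s1]
    have h5 := m12 k 1 0 0 0
    have := o1 k
    rw [show 2 * k + 1 - (0 + 0 + 1) = 0 + 2 * k by ring, ← h5, add_comm]; exact this
  · rw [s2, s1]
    have h5 := m12 k 1 0 0 0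
    have := o1 k
    rw [show 2 * k + 1 - (0 + 1 + 0) = 0 + 2 * k by ring, ← h5, add_comm]; exact this
  · rw [s1, s2, s3]
    have h5 := m14 (k - 1) 0 1 1 1
    have := o3 (k - 1)
    rw [show 2 * k + 1 - (0 + 1 + 1) = 1 + 2 * (k - 1) by ring, ← h5, zero_add]; exact this
  · rw [s1]
    have h5 := m12 k 1 0 0 0
    have := o1 k
    rw [show 2 * k + 1 - (1 + 0 + 0) = 0 + 2 * k by ring, ← h5, add_comm]; exact this
  · rw [s2, s1, s2, s3]
    have h5 := m14 (k - 1) 0 1 1 1
    have := o3 (k - 1)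
    rw [show 2 * k + 1 - (1 + 0 + 1) = 1 + 2 * (k - 1) by ring, ← h5, zero_add]; exact this
  · rw [s3, s2, s1, s2, s3]
    have h5 := m14 (k - 1) 0 1 1 1
    have := o3 (k - 1)
    rw [show 2 * k + 1 - (1 + 1 + 0) = 1 + 2 * (k - 1) by ring, ← h5, zero_add]; exact this
  · have := o3 (k - 1)
    rw [show 2 * k + 1 - (1 + 1 + 1) = 2 * (k - 1) by ring]; exact this

/-- all values in terms of those at `(s, 0, 0, 0)` -/
theorem algS (D : ℤ → ℤ → ℤ → ℤ → ℂ)
    (s1 : ∀ a b c d, D a b c d = D b a c d) (s2 : ∀ a b c d, D a b c d = D a c b d)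
    (s3 : ∀ a b c d, D a b c d = D a b d c)
    (R1 : ∀ a b c d, D (a+1) b c d + D a (b+1) c d + D a b (c+1) d + D a b c (d+1) = 0)
    (R2 : ∀ a b c d, D (a-1) b c d + D a (b-1) c d + D a b (c-1) d + D a b c (d-1) = 0)
    (R3 : ∀ a b c d, (D a (b+1) c (d-1) - D a (b+1) (c-1) d
      - D (a+1) b c (d-1) + D (a+1) b (c-1) d)
      - (D a (b-1) c (d+1) - D a (b-1) (c+1) d
      - D (a-1) b c (d+1) + D (a-1) b (c+1) d) = 0) (a b c d : ℤ) :
    D a b c d = ep2 a b c d * D (a + b + c + d) 0 0 0 := by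
  have h2 := AlB.scal2 D s1 s2 s3 R1 R2 R3
  unfold ep2
  split_ifs with h
  · obtain ⟨k, hk⟩ := h
    have e : a + b + c + d = 2 * k := by rw [hk]; ring
    rw [e]
    exact algE D s1 s2 s3 R1 h2 a b c d k e
  · rw [zero_mul]
    exact algO D s1 s2 s3 R1 h2 a b c d (Int.not_even_iff_odd.1 h)

end Pool.Agent.TH294.RG
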