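import Pool.Agent.TH294.RG.Jc4

/-!
Project RG (helper294): joint third order moments, the second sequence of much higher frequency;
the upper half plane.
-/

set_option autoImplicit false
open MeasureTheory Filter Topology Complex ProbabilityTheory
open scoped ContDiff

namespace Pool.Agent.TH294.RG

open Pool.Agent.W745.RW Pool.Agent.TH294.RS

noncomputable section

variable {m : ℂ → ℝ} {ν : Kernel ℂ ℝ}

/-- no correlation with much higher frequencies -/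
lemma AG.inf {B : Set ℂ} {a : ℂ → ℝ} {h : ℕ → ℝ} {w : ℤ → ℕ → ℂ → ℂ} {M : ℕ → ℂ → ℂ}
    (H : AG B a h w M) (hB : IsOpen B) {k : ℕ → ℝ} (kp : ∀ n, 0 < k n)
    (kl : Tendsto k atTop (𝓝 0)) (kr : Tendsto (fun n => k n / h n) atTop (𝓝 0))
    {G : ℕ → ℂ → ℂ} (HG : GS B a k (fun _ => 1) 1 G) (i j : ℤ) :
    WN B (fun n z => w i n z * w j n z * G n z) := by
  obtain ⟨e1, he1, g1⟩ := H.dn i
  obtain ⟨e2, he2, g2⟩ := H.dn j
  have G1 := HG.lb1 hB kp kl H.sa H.pa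
  have l1 : LB B 1 (fun n z => (w i n z * w j n z) * DP a (k n) (G n) z) :=
    ((H.bd i).mul4 (H.bd j)).mul2 G1
  have l2 : LB B 1 (fun n z => (e1 n z * w j n z) * DP a (k n) (G n) z +
      (w i n z * e2 n z) * DP a (k n) (G n) z +
      (w i n z * w j n z) * (ab a z * DP a (k n) (G n) z)) :=
    (((he1.mul4 (H.bd j)).mul2 G1).add (((H.bd i).mul4 he2).mul2 G1)).add
      (((H.bd i).mul4 (H.bd j)).mul2 (G1.smulc (ab_sm hB H.sa)))
  have l3 : LB B 1 (fun n z => (w (i - 1) n z * w j n z) * DP a (k n) (G n) z +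
      (w i n z * w (j - 1) n z) * DP a (k n) (G n) z) :=
    (((H.bd (i - 1)).mul4 (H.bd j)).mul2 G1).add (((H.bd i).mul4 (H.bd (j - 1))).mul2 G1)
  refine (((l2.wn kl).sub (l1.wnM hB kl H.sa)).sub (l3.wn kr)).congr fun n z hz => ?_
  have c1 := g1 n z hz
  have c2 := g2 n z hz
  have sG : ContDiffOn ℝ ∞ (G n) B := HG.lb.sm n
  have c3 : DM a (k n) (DP a (k n) (G n)) z = _ := MP hB H.sa (k n) sG hz
  rw [HG.eq n z hz] at c3
  have d1 := da hB ((H.bd i).sm n) hz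
  have d2 := da hB ((H.bd j).sm n) hz
  have d3 : DifferentiableAt ℝ (DP a (k n) (G n)) z := da hB (G1.sm n) hz
  obtain ⟨P, hP⟩ : ∃ P : ℂ → ℂ, P = DP a (k n) (G n) := ⟨_, rfl⟩
  rw [← hP] at d3
  have e : (fun z => w i n z * w j n z * DP a (k n) (G n) z) =
      fun z => (w i n z * w j n z) * P z := by rw [hP]
  have eP : DP a (k n) (G n) z = P z := by rw [hP]
  rw [e, eP]
  rw [← hP] at c3
  simp only [DM] at c1 c2 c3 ⊢
  rw [db_mul (f := fun z => w i n z * w j n z) (g := P) (d1.mul d2) d3, db_mul d1 d2]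
  have hn : (h n : ℂ) ≠ 0 := by exact_mod_cast (H.hpos n).ne'
  have c1' : (k n : ℂ) * ((a z : ℂ) * db (w i n) z) = (k n : ℂ) / (h n : ℂ) *
      (- w (i - 1) n z + (h n : ℂ) * e1 n z) := by
    rw [← c1]; field_simp
  have c2' : (k n : ℂ) * ((a z : ℂ) * db (w j n) z) = (k n : ℂ) / (h n : ℂ) *
      (- w (j - 1) n z + (h n : ℂ) * e2 n z) := by
    rw [← c2]; field_simp
  have c4 : (k n : ℂ) / (h n : ℂ) * (h n : ℂ) = k n := div_mul_cancel₀ _ hn
  push_cast at c3 ⊢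
  linear_combination (w j n z * P z) * c1' + (w i n z * P z) * c2' + (w i n z * w j n z) * c3 +
    (e1 n z * w j n z * P z + e2 n z * w i n z * P z) * c4

/-- joint moments with much higher frequencies -/
theorem joint_inf [IsMarkovKernel ν] {Ω : Set ℂ}
    (hm : ∀ K : Set ℂ, IsCompact K → K ⊆ Ω → MemLp m 2 (volume.restrict K))
    {a : ℂ → ℝ} {h : ℕ → ℝ} {u : ℕ → ℂ → ℝ}
    (H : RawG Ω a h u (MM m ea ν)) {k : ℕ → ℝ} (kp : ∀ n, 0 < k n)
    (kl : Tendsto k atTop (𝓝 0)) (kr : Tendsto (fun n => k n / h n) atTop (𝓝 0)) {G : ℕ → ℂ → ℂ}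
    (HG : GS Ω a k (fun _ => 1) 1 G) {K : Set ℂ} (hK : IsCompact K) (hKΩ : K ⊆ Ω)
    {φ : ℂ → ℝ} (hφ : TF (interior K) φ) (i j : ℤ) :
    Tendsto (fun n => ((√(1 + ∫ z in K, u n z ^ 4) : ℝ) : ℂ)⁻¹ * ∫ z, (φ z : ℂ) *
      (ww a h (fun n z => (u n z : ℂ)) i n z * ww a h (fun n z => (u n z : ℂ)) j n z *
        G n z)) atTop (𝓝 0) := by
  have hB : IsOpen (interior K) := isOpen_interior
  have hBΩ : interior K ⊆ Ω := interior_subset.trans hKΩ
  have hmB : ∀ K' : Set ℂ, IsCompact K' → K' ⊆ interior K → MemLp m 2 (volume.restrict K') :=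
    fun K' hK' hKB => hm K' hK' (hKB.trans hBΩ)
  have cu : ∀ n, ContinuousOn (fun z => u n z ^ 4) K := fun n =>
    ((H.sm n).continuousOn.mono hKΩ).pow 4
  have T0 : ∀ n, 0 ≤ ∫ z in K, u n z ^ 4 := fun n => integral_nonneg fun z => by positivity
  refine tendsto_of_subseq_tendsto fun ns hns => ?_
  obtain ⟨T, hT⟩ : ∃ T : ℕ → ℝ, ∀ n, T n = 1 + ∫ z in K, u (ns n) z ^ 4 := ⟨_, fun _ => rfl⟩
  have T1 : ∀ n, 1 ≤ T n := fun n => by rw [hT]; linarith [T0 (ns n)]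
  obtain ⟨c, hc⟩ : ∃ c : ℕ → ℝ, ∀ n, c n = (T n) ^ (-(1 / 4 : ℝ)) := ⟨_, fun _ => rfl⟩
  have cpos : ∀ n, 0 < c n := fun n => by
    rw [hc]; exact Real.rpow_pos_of_pos (by linarith [T1 n]) _
  have cle : ∀ n, c n ≤ 1 := fun n => by
    rw [hc]; exact Real.rpow_le_one_of_one_le_of_nonpos (T1 n) (by norm_num)
  have c4 : ∀ n, c n ^ 4 = (T n)⁻¹ := by
    intro n
    rw [hc, ← Real.rpow_natCast, ← Real.rpow_mul (by linarith [T1 n])]
    norm_num
    rw [Real.rpow_neg_one]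
  have c2 : ∀ n, c n ^ 2 = (√(T n))⁻¹ := by
    intro n
    have h1 : (c n ^ 2) ^ 2 = (T n)⁻¹ := by rw [← c4]; ring
    have h2 : c n ^ 2 = √((T n)⁻¹) := by
      rw [← h1, Real.sqrt_sq (by positivity)]
    rw [h2, Real.sqrt_inv]
  obtain ⟨κ, -, σ, hσ, hσc⟩ := isCompact_Icc.tendsto_subseq (s := Set.Icc (0 : ℝ) 1)
    (x := c) (fun n => ⟨(cpos n).le, cle n⟩)
  refine ⟨σ, ?_⟩
  have H1 := H.cmp hBΩ (hns.comp hσ.tendsto_atTop)
  have H2 := H1.scale2 hB hσc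
  have A' := H2.as hB (fun k => ((MM_ml ea_meas ea_norm (B := interior K) (ν := ν) hmB) k).cmul _)
    (fun z => by rw [MM_0, map_mul, map_pow, conj_ofReal, conj_ofReal])
    (fun K' hK' hKB => ⟨1, Eventually.of_forall fun n => by
      have e1 : ∀ z, ((c ∘ σ) n * u ((ns ∘ σ) n) z) ^ 4 = (T (σ n))⁻¹ * u (ns (σ n)) z ^ 4 := by
        intro z
        show (c (σ n) * u (ns (σ n)) z) ^ 4 = _
        rw [mul_pow, c4]
      simp only [e1]
      rw [integral_const_mul, inv_mul_le_iff₀ (by linarith [T1 (σ n)]), mul_one, hT]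
      have : ∫ z in K', u (ns (σ n)) z ^ 4 ≤ ∫ z in K, u (ns (σ n)) z ^ 4 := by
        refine setIntegral_mono_set ((cu _).integrableOn_compact hK)
          (ae_of_all _ fun z => by positivity) ?_
        exact (hKB.trans interior_subset).eventuallyLE
      linarith⟩)
  obtain ⟨w, hw⟩ : ∃ w : ℤ → ℕ → ℂ → ℂ, w = ww a (fun n => h ((ns ∘ σ) n))
    (fun n z => ((((c ∘ σ) n * u ((ns ∘ σ) n) z : ℝ)) : ℂ)) := ⟨_, rfl⟩
  rw [← hw] at A'
  have wv : ∀ q n, ∀ z ∈ interior K, w q n z =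
      ((c (σ n) : ℝ) : ℂ) * ww a h (fun n z => (u n z : ℂ)) q (ns (σ n)) z := by
    intro q n z hz
    rw [hw]
    have h1 := ww_scale hB (H.sa.mono hBΩ) (fun n => h ((ns ∘ σ) n)) H1.sm (c ∘ σ) q n hz
    have h2 := congrFun (ww_sub a h (fun n z => (u n z : ℂ)) (ns ∘ σ) q n) z
    rw [h1]
    exact congrArg (fun x => ((c (σ n) : ℝ) : ℂ) * x) h2
  have HG' := HG.cmp hBΩ (hns.comp hσ.tendsto_atTop)
  obtain ⟨G', hG'⟩ : ∃ G' : ℕ → ℂ → ℂ, G' = fun n => G ((ns ∘ σ) n) := ⟨_, rfl⟩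
  rw [← hG'] at HG'
  -- the target
  have tgt : ∀ n, ((√(1 + ∫ z in K, u (ns (σ n)) z ^ 4) : ℝ) : ℂ)⁻¹ * (∫ z, (φ z : ℂ) *
      (ww a h (fun n z => (u n z : ℂ)) i (ns (σ n)) z * ww a h (fun n z => (u n z : ℂ)) j
        (ns (σ n)) z * G (ns (σ n)) z)) = jm w G' φ i j n := by
    intro n
    have e1 : ((√(1 + ∫ z in K, u (ns (σ n)) z ^ 4) : ℝ) : ℂ)⁻¹ = ((c (σ n) ^ 2 : ℝ) : ℂ) := by
      rw [c2, hT]; push_cast; rfl
    rw [e1]
    unfold jm
    rw [← integral_const_mul]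
    congr 1; funext z
    by_cases hz : z ∈ interior K
    · rw [wv i n z hz, wv j n z hz, hG']
      simp only [Function.comp_def]
      push_cast
      ring
    · rw [TF.zero hφ hz]; simp
  refine Tendsto.congr (fun n => (tgt n).symm) ?_
  exact (A'.inf hB (fun n => kp _) (kl.comp (hns.comp hσ.tendsto_atTop))
    (kr.comp (hns.comp hσ.tendsto_atTop)) HG' i j).nul φ hφ

end

end Pool.Agent.TH294.RG
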