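import Pool.Agent.TH294.RG.Fin
import Pool.Agent.TH294.RG.Jc5

/-!
Project RG (helper294): the fourth moment controls the distance of quantum limits to the uniform
measure.
-/

set_option autoImplicit false
open MeasureTheory Filter Topology Complex ProbabilityTheory
open scoped ContDiff ENNReal

namespace Pool.Agent.TH294.RG

open Pool.Agent.W745.RW Pool.Agent.TH294.RS

noncomputable section

variable {m : ℂ → ℝ} {ν : Kernel ℂ ℝ}

/-- weighted Cauchy-Schwarz -/
lemma csw {U : Set ℂ} (hU : MeasurableSet U) {ρ f g : ℂ → ℝ} (h0 : ∀ z ∈ U, 0 ≤ ρ z)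
    (i1 : IntegrableOn (fun z => ρ z * f z ^ 2) U) (i2 : IntegrableOn (fun z => ρ z * g z ^ 2) U)
    (i3 : IntegrableOn (fun z => ρ z * (f z * g z)) U) :
    (∫ z in U, ρ z * (f z * g z)) ^ 2 ≤
      (∫ z in U, ρ z * f z ^ 2) * ∫ z in U, ρ z * g z ^ 2 := by
  have h1 : ∀ t : ℝ, 0 ≤ (∫ z in U, ρ z * g z ^ 2) * (t * t) +
      (2 * ∫ z in U, ρ z * (f z * g z)) * t + ∫ z in U, ρ z * f z ^ 2 := by
    intro t
    have h2 : 0 ≤ ∫ z in U, ρ z * (f z + t * g z) ^ 2 :=
      setIntegral_nonneg hU fun z hz => mul_nonneg (h0 z hz) (sq_nonneg _)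
    have j1 : IntegrableOn (fun z => ρ z * g z ^ 2 * (t * t)) U := i2.mul_const _
    have j2 : IntegrableOn (fun z => 2 * (ρ z * (f z * g z)) * t) U :=
      (i3.const_mul 2).mul_const t
    have j12 : IntegrableOn (fun z => ρ z * g z ^ 2 * (t * t) + 2 * (ρ z * (f z * g z)) * t) U :=
      j1.add j2
    have e : ∫ z in U, ρ z * (f z + t * g z) ^ 2 = (∫ z in U, ρ z * g z ^ 2) * (t * t) +
      (2 * ∫ z in U, ρ z * (f z * g z)) * t + ∫ z in U, ρ z * f z ^ 2 := by
      rw [← integral_mul_const, ← integral_const_mul, ← integral_mul_const,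
        ← integral_add j1 j2, ← integral_add j12 i1]
      congr 1; funext z
      ring
    rwa [e] at h2
  have h3 := discrim_le_zero h1
  unfold discrim at h3
  nlinarith

/-- the real form of the convergence of the mass -/
lemma RawG.q2 [IsMarkovKernel ν] {Ω : Set ℂ} {a : ℂ → ℝ} {h : ℕ → ℝ} {u : ℕ → ℂ → ℝ}
    (H : RawG Ω a h u (MM m ea ν)) {φ : ℂ → ℝ} (hφ : TF Ω φ) :
    Tendsto (fun n => ∫ z, φ z * u n z ^ 2) atTop (𝓝 (∫ z, φ z * m z)) := by
  have h1 := (continuous_re.tendsto _).comp (H.qe φ hφ 0)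
  have e1 : ∫ z, (φ z : ℂ) * MM m ea ν 0 z = ((∫ z, φ z * m z : ℝ) : ℂ) := by
    rw [← integral_complex_ofReal]
    congr 1; funext z
    rw [MM_0]; push_cast; ring
  rw [e1, ofReal_re] at h1
  refine h1.congr fun n => ?_
  have e2 : ∫ z, (φ z : ℂ) * ((u n z : ℂ) * (DP a (h n))^[0] (fun w => (u n w : ℂ)) z) =
      ((∫ z, φ z * u n z ^ 2 : ℝ) : ℂ) := by
    rw [← integral_complex_ofReal]
    congr 1; funext z
    rw [Function.iterate_zero, id]
    push_cast; ring
  simp only [Function.comp_def]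
  rw [e2, ofReal_re]

/-- **Quantum limits and the fourth moment.** -/
theorem eq_crit [IsMarkovKernel ν] {Ω : Set ℂ} (hΩ : IsOpen Ω)
    (hm : ∀ K : Set ℂ, IsCompact K → K ⊆ Ω → MemLp m 2 (volume.restrict K))
    (hp : ∀ᵐ z ∂(volume.restrict Ω), par ea (ν z) = 0) {a : ℂ → ℝ} {h : ℕ → ℝ} {u : ℕ → ℂ → ℝ}
    (H : RawG Ω a h u (MM m ea ν)) {U : Set ℂ} (hU : IsOpen U) (hUc : IsCompact (closure U))
    (hUΩ : closure U ⊆ Ω) {ρ : ℂ → ℝ} (hρ : ContDiffOn ℝ ∞ ρ Ω) (hρ0 : ∀ z ∈ Ω, 0 < ρ z)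
    (hmass : Tendsto (fun n => ∫ z in U, ρ z * u n z ^ 2) atTop (𝓝 (∫ z in U, ρ z)))
    {L : ℝ} (hL : ∀ δ : ℝ, 0 < δ → ∀ᶠ n in atTop, ∫ z in U, ρ z * u n z ^ 4 ≤
      (L + δ) * ∫ z in U, ρ z) {φ : ℂ → ℝ} (hφ : TF U φ) {ε : ℝ} (hε : 0 < ε) :
    ∀ᶠ n in atTop, (∫ z, φ z * ρ z * (u n z ^ 2 - 1)) ^ 2 ≤
      (L / 3 - 1) * (∫ z in U, ρ z) * (∫ z, φ z ^ 2 * ρ z) + ε := by
  have hUΩ' : U ⊆ Ω := subset_closure.trans hUΩ
  have mU : MeasurableSet U := hU.measurableSet
  have ρ0 : ∀ z ∈ U, 0 ≤ ρ z := fun z hz => (hρ0 z (hUΩ' hz)).le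
  have cρ : ContinuousOn ρ (closure U) := hρ.continuousOn.mono hUΩ
  have cu : ∀ n, ContinuousOn (u n) (closure U) := fun n => (H.sm n).continuousOn.mono hUΩ
  have ib : ∀ f : ℂ → ℝ, ContinuousOn f (closure U) → IntegrableOn f U := fun f hf =>
    (hf.integrableOn_compact hUc).mono_set subset_closure
  have finU : volume U ≠ ⊤ := ((measure_mono subset_closure).trans_lt hUc.measure_lt_top).ne
  have hm2 := hm _ hUc hUΩ
  have im2 : IntegrableOn (fun z => m z ^ 2) (closure U) := hm2.integrable_sq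
  have fc : IsFiniteMeasure (volume.restrict (closure U)) := ⟨by
    rw [Measure.restrict_apply MeasurableSet.univ, Set.univ_inter]
    exact hUc.measure_lt_top⟩
  have im1 : IntegrableOn m (closure U) := hm2.integrable (by norm_num)
  have iρm2 : IntegrableOn (fun z => ρ z * m z ^ 2) U :=
    (im2.continuousOn_mul cρ hUc).mono_set subset_closure
  have iρm : ∀ f : ℂ → ℝ, ContinuousOn f (closure U) →
      IntegrableOn (fun z => ρ z * (f z * m z)) U := fun f hf =>
    ((im1.continuousOn_mul hf hUc).continuousOn_mul cρ hUc).mono_set subset_closure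
  obtain ⟨v, hv⟩ : ∃ v : ℝ, v = ∫ z in U, ρ z := ⟨_, rfl⟩
  have v0 : 0 ≤ v := by rw [hv]; exact setIntegral_nonneg mU ρ0
  obtain ⟨P, hP⟩ : ∃ P : ℝ, P = ∫ z in U, ρ z * m z ^ 2 := ⟨_, rfl⟩
  have P0 : 0 ≤ P := by
    rw [hP]; exact setIntegral_nonneg mU fun z hz => mul_nonneg (ρ0 z hz) (sq_nonneg _)
  rw [← hv] at hmass
  simp only [← hv] at hL ⊢
  -- step 1
  have S1 : 3 * P ≤ L * v := by
    have key := RawG.fin hΩ ea_meas ea_norm hm H hU hUΩ' (hρ.mono hUΩ') ρ0
    have e1 : ∫⁻ z in U, ENNReal.ofReal (ρ z * GD m ea ν z) = ENNReal.ofReal (3 * P) := by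
      rw [hP, ← integral_const_mul, ofReal_integral_eq_lintegral_ofReal (iρm2.const_mul 3)
        ((ae_restrict_mem mU).mono fun z hz =>
          mul_nonneg (by norm_num) (mul_nonneg (ρ0 z hz) (sq_nonneg _)))]
      refine lintegral_congr_ae ?_
      filter_upwards [ae_restrict_of_ae_restrict_of_subset hUΩ' hp] with z hz
      unfold GD
      rw [hz]
      congr 1; ring
    have e2 : ∀ n, ∫⁻ z in U, ENNReal.ofReal (ρ z * u n z ^ 4) =
        ENNReal.ofReal (∫ z in U, ρ z * u n z ^ 4) := fun n =>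
      (ofReal_integral_eq_lintegral_ofReal (f := fun z => ρ z * u n z ^ 4)
        (ib _ (cρ.mul ((cu n).pow 4))) ((ae_restrict_mem mU).mono fun z hz =>
          mul_nonneg (ρ0 z hz) (show (0 : ℝ) ≤ u n z ^ 4 by positivity))).symm
    rw [e1] at key
    simp only [e2] at key
    refine le_of_forall_pos_le_add fun η hη => ?_
    have hδ : 0 < η / (v + 1) := by positivity
    have h1 := hL _ hδ
    have h2 : ENNReal.ofReal (3 * P) ≤ ENNReal.ofReal ((L + η / (v + 1)) * v) := by
      refine key.trans ?_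
      refine (liminf_le_liminf (h1.mono fun n hn => ENNReal.ofReal_le_ofReal hn)).trans ?_
      simp
    obtain ⟨n, hn⟩ := h1.exists
    have h3 : 0 ≤ (L + η / (v + 1)) * v := le_trans (setIntegral_nonneg mU fun z hz =>
      mul_nonneg (ρ0 z hz) (by positivity)) hn
    have h4 := (ENNReal.ofReal_le_ofReal_iff h3).1 h2
    have h5 : η / (v + 1) * v ≤ η := by
      rw [div_mul_eq_mul_div, div_le_iff₀ (by positivity)]
      nlinarith
    nlinarith
  -- step 2
  have S2 : ∫ z in U, ρ z * m z = v := by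
    obtain ⟨Q, hQ⟩ : ∃ Q : ℝ, Q = ∫ z in U, ρ z * m z := ⟨_, rfl⟩
    rw [← hQ]
    obtain ⟨C, hC⟩ := hUc.exists_bound_of_continuousOn cρ
    obtain ⟨C4, hC4⟩ : ∃ C4 : ℝ, C4 = |(L + 1) * v| := ⟨_, rfl⟩
    have C40 : 0 ≤ C4 := by rw [hC4]; exact abs_nonneg _
    have main : ∀ δ : ℝ, 0 < δ → (v - Q) ^ 2 ≤ 2 * (|C| * δ * C4) + 2 * (|C| * δ * P) := by
      intro δ hδ
      obtain ⟨K0, hK0U, hK0, hK0d⟩ := mU.exists_isCompact_sdiff_lt finU
        (ε := ENNReal.ofReal δ) (by simpa using hδ)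
      obtain ⟨χ, hχ, hχ1, χ0, χ1⟩ := exists_cut hU hK0 hK0U
      have cχ : ContinuousOn χ (closure U) := hχ.1.continuous.continuousOn
      have c1χ : ContinuousOn (fun z => 1 - χ z) (closure U) := continuousOn_const.sub cχ
      -- the complement is small
      have sm : ∫ z in U, ρ z * (1 - χ z) ^ 2 ≤ |C| * δ := by
        have h1 : ∫ z in U, ρ z * (1 - χ z) ^ 2 ≤
            ∫ z in U, (U \ K0).indicator (fun _ => |C|) z := by
          have i9 : IntegrableOn ((U \ K0).indicator (fun _ => |C|)) U := by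
            refine IntegrableOn.indicator ?_ (mU.diff hK0.measurableSet)
            exact integrableOn_const finU
          refine setIntegral_mono_on (ib _ (cρ.mul (c1χ.pow 2))) i9 mU fun z hz => ?_
          by_cases hzK : z ∈ K0
          · rw [Set.indicator_of_notMem (fun h => h.2 hzK), hχ1 z hzK]; simp
          · rw [Set.indicator_of_mem (show z ∈ U \ K0 from ⟨hz, hzK⟩)]
            have h2 : (1 - χ z) ^ 2 ≤ 1 :=
              pow_le_one₀ (by linarith [χ1 z]) (by linarith [χ0 z])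
            have h3 : ρ z ≤ |C| := by
              have := hC z (subset_closure hz)
              rw [Real.norm_eq_abs] at this
              exact (le_abs_self _).trans (this.trans (le_abs_self _))
            calc ρ z * (1 - χ z) ^ 2 ≤ ρ z * 1 := mul_le_mul_of_nonneg_left h2 (ρ0 z hz)
              _ ≤ |C| := by rw [mul_one]; exact h3
        refine h1.trans ?_
        rw [setIntegral_indicator (mU.diff hK0.measurableSet), setIntegral_const, smul_eq_mul,
          mul_comm]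
        refine mul_le_mul_of_nonneg_left ?_ (abs_nonneg _)
        have h4 : U ∩ (U \ K0) = U \ K0 := by
          ext z; simp
        rw [h4, measureReal_def]
        exact ENNReal.toReal_le_of_le_ofReal hδ.le hK0d.le
      have smp : 0 ≤ ∫ z in U, ρ z * (1 - χ z) ^ 2 :=
        setIntegral_nonneg mU fun z hz => mul_nonneg (ρ0 z hz) (sq_nonneg _)
      -- for the eigenfunctions
      have toU : ∀ g : ℂ → ℝ, ∫ z, χ z * ρ z * g z = ∫ z in U, ρ z * (χ z * g z) := by
        intro g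
        rw [← setIntegral_eq_integral_of_forall_compl_eq_zero (s := U)]
        · congr 1; funext z; ring
        · intro z hz; rw [TF.zero hχ hz]; simp
      have hχρ : TF Ω (fun z => χ z * ρ z) := by
        have := TF.mulc hU hχ (hρ.mono hUΩ')
        exact ⟨this.1, this.2.1, this.2.2.trans hUΩ'⟩
      have t1 := H.q2 hχρ
      simp only [toU] at t1
      have b1 : ∀ᶠ n in atTop, ((∫ z in U, ρ z * u n z ^ 2) -
          ∫ z in U, ρ z * (χ z * u n z ^ 2)) ^ 2 ≤ |C| * δ * C4 := by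
        filter_upwards [hL 1 one_pos] with n hn
        have e1 : (∫ z in U, ρ z * u n z ^ 2) - ∫ z in U, ρ z * (χ z * u n z ^ 2) =
            ∫ z in U, ρ z * ((1 - χ z) * u n z ^ 2) := by
          have k1 : IntegrableOn (fun z => ρ z * u n z ^ 2) U := ib _ (cρ.mul ((cu n).pow 2))
          have k2 : IntegrableOn (fun z => ρ z * (χ z * u n z ^ 2)) U :=
            ib _ (cρ.mul (cχ.mul ((cu n).pow 2)))
          rw [← integral_sub k1 k2]
          congr 1; funext z; ring
        rw [e1]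
        have i4 : IntegrableOn (fun z => ρ z * (u n z ^ 2) ^ 2) U :=
          ib _ (cρ.mul (((cu n).pow 2).pow 2))
        refine (csw mU ρ0 (ib _ (cρ.mul (c1χ.pow 2))) i4
          (ib _ (cρ.mul (c1χ.mul ((cu n).pow 2))))).trans ?_
        have e2 : ∫ z in U, ρ z * (u n z ^ 2) ^ 2 = ∫ z in U, ρ z * u n z ^ 4 := by
          congr 1; funext z; ring
        rw [e2]
        have u0 : 0 ≤ ∫ z in U, ρ z * u n z ^ 4 :=
          setIntegral_nonneg mU fun z hz => mul_nonneg (ρ0 z hz) (by positivity)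
        refine mul_le_mul sm (hn.trans ?_) u0 (by positivity)
        rw [hC4]; exact le_abs_self _
      have b2 : (v - ∫ z in U, ρ z * (χ z * m z)) ^ 2 ≤ |C| * δ * C4 :=
        le_of_tendsto ((hmass.sub t1).pow 2) b1
      have b3 : (Q - ∫ z in U, ρ z * (χ z * m z)) ^ 2 ≤ |C| * δ * P := by
        have i5 : IntegrableOn (fun z => ρ z * m z) U := by
          have := iρm (fun _ => 1) continuousOn_const
          simpa using this
        have e1 : Q - ∫ z in U, ρ z * (χ z * m z) = ∫ z in U, ρ z * ((1 - χ z) * m z) := by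
          rw [hQ, ← integral_sub i5 (iρm χ cχ)]
          congr 1; funext z; ring
        rw [e1]
        refine (csw mU ρ0 (ib _ (cρ.mul (c1χ.pow 2))) iρm2 (iρm _ c1χ)).trans ?_
        rw [← hP]
        exact mul_le_mul_of_nonneg_right sm P0
      nlinarith [sq_nonneg ((v - ∫ z in U, ρ z * (χ z * m z)) +
        (Q - ∫ z in U, ρ z * (χ z * m z)))]
    have h0 : (v - Q) ^ 2 ≤ 0 := by
      refine le_of_forall_pos_le_add fun η hη => ?_
      have hK : 0 < 2 * (|C| * C4) + 2 * (|C| * P) + 1 := by positivity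
      have h1 := main (η / (2 * (|C| * C4) + 2 * (|C| * P) + 1)) (div_pos hη hK)
      refine h1.trans ?_
      have e : 2 * (|C| * (η / (2 * (|C| * C4) + 2 * (|C| * P) + 1)) * C4) +
          2 * (|C| * (η / (2 * (|C| * C4) + 2 * (|C| * P) + 1)) * P) =
          (2 * (|C| * C4) + 2 * (|C| * P)) * (η / (2 * (|C| * C4) + 2 * (|C| * P) + 1)) := by
        ring
      rw [e, zero_add, mul_div_assoc', div_le_iff₀ hK]
      nlinarith
    have h1 : v - Q = 0 := by
      have : (v - Q) ^ 2 = 0 := le_antisymm h0 (sq_nonneg _)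
      exact pow_eq_zero_iff (two_ne_zero) |>.1 this
    linarith
  -- step 3
  have i5 : IntegrableOn (fun z => ρ z * m z) U := by
    have := iρm (fun _ => 1) continuousOn_const
    simpa using this
  have iρ : IntegrableOn ρ U := ib _ cρ
  have im1' : IntegrableOn (fun z => ρ z * (m z - 1) ^ 2) U := by
    refine ((iρm2.sub (i5.const_mul 2)).add iρ).congr (ae_of_all _ fun z => ?_)
    simp only [Pi.add_apply, Pi.sub_apply]
    ring
  have S3 : ∫ z in U, ρ z * (m z - 1) ^ 2 ≤ (L / 3 - 1) * v := by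
    have e1 : ∫ z in U, ρ z * (m z - 1) ^ 2 = P - 2 * (∫ z in U, ρ z * m z) + v := by
      have j1 : IntegrableOn (fun z => ρ z * m z ^ 2 - 2 * (ρ z * m z)) U :=
        iρm2.sub (i5.const_mul 2)
      rw [hP, hv, ← integral_const_mul, ← integral_sub iρm2 (i5.const_mul 2),
        ← integral_add j1 iρ]
      congr 1; funext z
      ring
    rw [e1, S2]
    linarith
  -- step 4
  have cφ : ContinuousOn φ (closure U) := hφ.1.continuous.continuousOn
  have hφρ : TF Ω (fun z => φ z * ρ z) := by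
    have := TF.mulc hU hφ (hρ.mono hUΩ')
    exact ⟨this.1, this.2.1, this.2.2.trans hUΩ'⟩
  have toU : ∀ g : ℂ → ℝ, ∫ z, φ z * ρ z * g z = ∫ z in U, ρ z * (φ z * g z) := by
    intro g
    rw [← setIntegral_eq_integral_of_forall_compl_eq_zero (s := U)]
    · congr 1; funext z; ring
    · intro z hz; rw [TF.zero hφ hz]; simp
  have t2 := H.q2 hφρ
  simp only [toU] at t2 ⊢
  have e6 : ∫ z, φ z ^ 2 * ρ z = ∫ z in U, ρ z * φ z ^ 2 := by
    rw [← setIntegral_eq_integral_of_forall_compl_eq_zero (s := U)]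
    · congr 1; funext z; ring
    · intro z hz; rw [TF.zero hφ hz]; simp
  rw [e6]
  have k3 : IntegrableOn (fun z => ρ z * φ z) U := ib _ (cρ.mul cφ)
  have t3 : Tendsto (fun n => ∫ z in U, ρ z * (φ z * (u n z ^ 2 - 1))) atTop
      (𝓝 (∫ z in U, ρ z * ((m z - 1) * φ z))) := by
    have e7 : ∫ z in U, ρ z * ((m z - 1) * φ z) =
        (∫ z in U, ρ z * (φ z * m z)) - ∫ z in U, ρ z * φ z := by
      rw [← integral_sub (iρm φ cφ) k3]
      congr 1; funext z; ring
    rw [e7]
    refine (t2.sub_const (∫ z in U, ρ z * φ z)).congr fun n => ?_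
    have k4 : IntegrableOn (fun z => ρ z * (φ z * u n z ^ 2)) U :=
      ib _ (cρ.mul (cφ.mul ((cu n).pow 2)))
    rw [← integral_sub k4 k3]
    congr 1; funext z; ring
  have i7 : IntegrableOn (fun z => ρ z * ((m z - 1) * φ z)) U := by
    have k5 : IntegrableOn (fun z => ρ z * (φ z * m z) - ρ z * φ z) U := (iρm φ cφ).sub k3
    refine k5.congr (ae_of_all _ fun z => ?_)
    beta_reduce
    ring
  have cs := csw mU ρ0 im1' (ib _ (cρ.mul (cφ.pow 2))) i7
  have f0 : 0 ≤ ∫ z in U, ρ z * φ z ^ 2 :=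
    setIntegral_nonneg mU fun z hz => mul_nonneg (ρ0 z hz) (sq_nonneg _)
  have b := cs.trans (mul_le_mul_of_nonneg_right S3 f0)
  exact ((t3.pow 2).eventually (gt_mem_nhds (lt_of_le_of_lt b (lt_add_of_pos_right _ hε)))).mono
    fun n hn => hn.le

end

end Pool.Agent.TH294.RG
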