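import Pool.Agent.TH294.RG.Ms6

/-!
Project RG (helper294): the mass of discs, all radii between the wavelength and `1`.
-/

set_option autoImplicit false
open MeasureTheory Filter Topology Complex ProbabilityTheory
open scoped ContDiff

namespace Pool.Agent.TH294.RG

open Pool.Agent.W745.RW Pool.Agent.TH294.RS

noncomputable section

variable {m : ℂ → ℝ} {ν : Kernel ℂ ℝ}

/-- **The mass of discs**, uniformly in the radius -/
theorem meso_unif [IsMarkovKernel ν] {Ω : Set ℂ}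
    (hm : ∀ K : Set ℂ, IsCompact K → K ⊆ Ω → MemLp m 2 (volume.restrict K))
    (hms : ContDiffOn ℝ ∞ m Ω)
    (hp : ∀ᵐ z ∂(volume.restrict Ω), par ea (ν z) = 0) {a : ℂ → ℝ} {h : ℕ → ℝ} {u : ℕ → ℂ → ℝ}
    (H : RawG Ω a h u (MM m ea ν)) {K : Set ℂ} (hK : IsCompact K) (hKΩ : K ⊆ Ω)
    {φ : ℂ → ℝ} (hφ : TF (interior K) φ) (hφ0 : ∀ z, 0 ≤ φ z) {ε : ℝ} (hε : 0 < ε) :
    ∃ R₀ r₀ : ℝ, 0 < R₀ ∧ 0 < r₀ ∧ ∀ᶠ n in atTop, ∀ r : ℝ, R₀ * h n ≤ r → r ≤ r₀ →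
      ∫ z, φ z * ((∫ w, u n (z + r • w) ^ 2 ∂dm) - m z) ^ 2 ≤
      2 / 3 * ((∫ z, φ z * u n z ^ 4) - 3 * ∫ z, φ z * m z ^ 2) +
        ε * (1 + ∫ z in K, u n z ^ 4) := by
  by_contra hcon
  have h1 : ∀ j : ℕ, ∃ᶠ n in atTop, ∃ r : ℝ, ((j : ℝ) + 1) * h n ≤ r ∧ r ≤ 1 / ((j : ℝ) + 1) ∧
      ¬ (∫ z, φ z * ((∫ w, u n (z + r • w) ^ 2 ∂dm) - m z) ^ 2 ≤
      2 / 3 * ((∫ z, φ z * u n z ^ 4) - 3 * ∫ z, φ z * m z ^ 2) +
        ε * (1 + ∫ z in K, u n z ^ 4)) := by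
    intro j
    by_contra hj
    rw [not_frequently] at hj
    apply hcon
    refine ⟨(j : ℝ) + 1, 1 / ((j : ℝ) + 1), by positivity, by positivity, hj.mono
      fun n hn r hr1 hr2 => ?_⟩
    by_contra hc
    exact hn ⟨r, hr1, hr2, hc⟩
  obtain ⟨ψ, hψ, hP⟩ := extraction_forall_of_frequently h1
  choose r hr1 hr2 hr3 using hP
  have H' := H.cmp (le_refl Ω) hψ.tendsto_atTop
  have hpos : ∀ n, 0 < h (ψ n) := fun n => H.hpos _
  have r0 : ∀ n, 0 < r n := fun n =>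
    lt_of_lt_of_le (mul_pos (by positivity) (hpos n)) (hr1 n)
  have inv0 : Tendsto (fun n : ℕ => 1 / ((n : ℝ) + 1)) atTop (𝓝 0) :=
    tendsto_one_div_add_atTop_nhds_zero_nat
  have rl : Tendsto r atTop (𝓝 0) :=
    squeeze_zero (fun n => (r0 n).le) hr2 inv0
  have hr : Tendsto (fun n => h (ψ n) / r n) atTop (𝓝 0) := by
    refine squeeze_zero (fun n => (div_pos (hpos n) (r0 n)).le) (fun n => ?_) inv0
    have hj : (0 : ℝ) < (n : ℝ) + 1 := by positivity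
    rw [div_le_div_iff₀ (r0 n) hj, one_mul, mul_comm]
    exact hr1 n
  have key := meso_disc hm hms hp H' hK hKΩ r0 rl hr hφ hφ0 hε
  obtain ⟨n, hn⟩ := key.exists
  exact hr3 n hn

end

end Pool.Agent.TH294.RG
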