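import Pool.Agent.TH294.RG.Eq1
import Pool.Agent.TH294.RG.Ms7

/-!
Project RG (helper294): Gaussian fourth moments imply equidistribution at all scales above the
wavelength.
-/

set_option autoImplicit false
open MeasureTheory Filter Topology Complex ProbabilityTheory
open scoped ContDiff ENNReal

namespace Pool.Agent.TH294.RG

open Pool.Agent.W745.RW Pool.Agent.TH294.RS

noncomputable section

variable {m : ℂ → ℝ} {ν : Kernel ℂ ℝ}

/-- the limit density is constant -/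
theorem eq_one [IsMarkovKernel ν] {Ω : Set ℂ} (hΩ : IsOpen Ω)
    (hm : ∀ K : Set ℂ, IsCompact K → K ⊆ Ω → MemLp m 2 (volume.restrict K))
    (hp : ∀ᵐ z ∂(volume.restrict Ω), par ea (ν z) = 0) {a : ℂ → ℝ} {h : ℕ → ℝ} {u : ℕ → ℂ → ℝ}
    (H : RawG Ω a h u (MM m ea ν)) {U : Set ℂ} (hU : IsOpen U) (hUc : IsCompact (closure U))
    (hUΩ : closure U ⊆ Ω) {ρ : ℂ → ℝ} (hρ : ContDiffOn ℝ ∞ ρ Ω) (hρ0 : ∀ z ∈ Ω, 0 < ρ z)
    (hmass : Tendsto (fun n => ∫ z in U, ρ z * u n z ^ 2) atTop (𝓝 (∫ z in U, ρ z)))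
    (hL : ∀ δ : ℝ, 0 < δ → ∀ᶠ n in atTop, ∫ z in U, ρ z * u n z ^ 4 ≤
      (3 + δ) * ∫ z in U, ρ z) {φ : ℂ → ℝ} (hφ : TF U φ) :
    ∫ z, φ z * m z = ∫ z, φ z := by
  have hUΩ' : U ⊆ Ω := subset_closure.trans hUΩ
  have hi : ContDiffOn ℝ ∞ (fun z => (ρ z)⁻¹) U :=
    (hρ.mono hUΩ').inv fun z hz => (hρ0 z (hUΩ' hz)).ne'
  have hφi : TF U (fun z => φ z * (ρ z)⁻¹) := TF.mulc hU hφ hi
  have e0 : ∀ z, φ z * (ρ z)⁻¹ * ρ z = φ z := by
    intro z
    by_cases hz : z ∈ U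
    · rw [mul_assoc, inv_mul_cancel₀ (hρ0 z (hUΩ' hz)).ne', mul_one]
    · rw [TF.zero hφ hz]; simp
  have hφΩ : TF Ω φ := ⟨hφ.1, hφ.2.1, hφ.2.2.trans hUΩ'⟩
  have t1 := H.q2 hφΩ
  have iφ : Integrable φ := hφ.1.continuous.integrable_of_hasCompactSupport hφ.2.1
  have t2 : Tendsto (fun n => ∫ z, φ z * (u n z ^ 2 - 1)) atTop
      (𝓝 ((∫ z, φ z * m z) - ∫ z, φ z)) := by
    refine (t1.sub_const (∫ z, φ z)).congr fun n => ?_
    have i1 : Integrable (fun z => φ z * u n z ^ 2) :=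
      Pool.Agent.W311.RW.int_mul hU hφ (((H.sm n).continuousOn.mono hUΩ').pow 2)
    rw [← integral_sub i1 iφ]
    congr 1; funext z; ring
  have b : ((∫ z, φ z * m z) - ∫ z, φ z) ^ 2 ≤ 0 := by
    refine le_of_forall_pos_le_add fun η hη => ?_
    refine le_of_tendsto (t2.pow 2) ?_
    have key := eq_crit hΩ hm hp H hU hUc hUΩ hρ hρ0 hmass hL hφi hη
    refine key.mono fun n hn => ?_
    simp only [e0] at hn
    refine hn.trans (le_of_eq ?_)
    ring
  have : ((∫ z, φ z * m z) - ∫ z, φ z) ^ 2 = 0 := le_antisymm b (sq_nonneg _)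
  have := pow_eq_zero_iff (two_ne_zero) |>.1 this
  linarith

/-- the excess tends to zero -/
theorem exc_zero [IsMarkovKernel ν] {U : Set ℂ} (hU : IsOpen U) (hUc : IsCompact (closure U))
    (hp : ∀ᵐ z ∂(volume.restrict U), par ea (ν z) = 0) {a : ℂ → ℝ} {h : ℕ → ℝ} {u : ℕ → ℂ → ℝ}
    (H : RawG U a h u (MM (fun _ => 1) ea ν)) {ρ : ℂ → ℝ} (hρ : ContDiffOn ℝ ∞ ρ U)
    (hρ0 : ∀ z ∈ U, 0 < ρ z) (cρ : ContinuousOn ρ (closure U))
    (cu : ∀ n, ContinuousOn (u n) (closure U))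
    (hL : ∀ δ : ℝ, 0 < δ → ∀ᶠ n in atTop, ∫ z in U, ρ z * u n z ^ 4 ≤
      (3 + δ) * ∫ z in U, ρ z) {φ : ℂ → ℝ} (hφ : TF U φ) {ε : ℝ} (hε : 0 < ε) :
    ∀ᶠ n in atTop, (∫ z, φ z * ρ z * u n z ^ 4) - 3 * (∫ z, φ z * ρ z) ≤ ε := by
  have mU : MeasurableSet U := hU.measurableSet
  have ρ0 : ∀ z ∈ U, 0 ≤ ρ z := fun z hz => (hρ0 z hz).le
  have ib : ∀ f : ℂ → ℝ, ContinuousOn f (closure U) → IntegrableOn f U := fun f hf =>
    (hf.integrableOn_compact hUc).mono_set subset_closure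
  have cφ : ContinuousOn φ (closure U) := hφ.1.continuous.continuousOn
  obtain ⟨M0, hM0⟩ := hφ.2.1.exists_bound_of_continuousOn hφ.1.continuous.continuousOn
  obtain ⟨M, hM⟩ : ∃ M : ℝ, M = |M0| := ⟨_, rfl⟩
  have Mn : 0 ≤ M := by rw [hM]; exact abs_nonneg _
  have hφM : ∀ z, φ z ≤ M := by
    intro z
    rw [hM]
    by_cases hz : z ∈ tsupport φ
    · exact (le_abs_self _).trans ((hM0 z hz).trans (le_abs_self _))
    · rw [image_eq_zero_of_notMem_tsupport hz]; exact abs_nonneg _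
  have hm1 : ∀ K : Set ℂ, IsCompact K → K ⊆ U → MemLp (fun _ : ℂ => (1 : ℝ)) 2
      (volume.restrict K) := by
    intro K hK _
    have : IsFiniteMeasure (volume.restrict K) := ⟨by
      rw [Measure.restrict_apply MeasurableSet.univ, Set.univ_inter]
      exact hK.measure_lt_top⟩
    exact memLp_const 1
  have cw : ContinuousOn (fun z => (M - φ z) * ρ z) (closure U) :=
    (continuousOn_const.sub cφ).mul cρ
  have w0 : ∀ z ∈ U, 0 ≤ (M - φ z) * ρ z := fun z hz =>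
    mul_nonneg (by linarith [hφM z]) (ρ0 z hz)
  have key := RawG.fin hU ea_meas ea_norm hm1 H hU (le_refl U)
    (r := fun z => (M - φ z) * ρ z) ((contDiffOn_const.sub hφ.1.contDiffOn).mul hρ) w0
  obtain ⟨Q, hQ⟩ : ∃ Q : ℝ, Q = ∫ z in U, (M - φ z) * ρ z := ⟨_, rfl⟩
  have Q0 : 0 ≤ Q := by rw [hQ]; exact setIntegral_nonneg mU w0
  have e1 : ∫⁻ z in U, ENNReal.ofReal ((M - φ z) * ρ z * GD (fun _ => 1) ea ν z) =
      ENNReal.ofReal (3 * Q) := by
    rw [hQ, ← integral_const_mul, ofReal_integral_eq_lintegral_ofReal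
      ((ib _ cw).const_mul 3) ((ae_restrict_mem mU).mono fun z hz =>
        mul_nonneg (by norm_num) (w0 z hz))]
    refine lintegral_congr_ae ?_
    filter_upwards [hp] with z hz
    unfold GD
    rw [hz]
    congr 1; ring
  have e2 : ∀ n, ∫⁻ z in U, ENNReal.ofReal ((M - φ z) * ρ z * u n z ^ 4) =
      ENNReal.ofReal (∫ z in U, (M - φ z) * ρ z * u n z ^ 4) := fun n =>
    (ofReal_integral_eq_lintegral_ofReal (f := fun z => (M - φ z) * ρ z * u n z ^ 4)
      (ib _ (cw.mul ((cu n).pow 4))) ((ae_restrict_mem mU).mono fun z hz =>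
        mul_nonneg (w0 z hz) (show (0 : ℝ) ≤ u n z ^ 4 by positivity))).symm
  rw [e1] at key
  simp only [e2] at key
  -- lower bound on the complement
  have lb : ∀ᶠ n in atTop, 3 * Q - ε / 2 ≤ ∫ z in U, (M - φ z) * ρ z * u n z ^ 4 := by
    rcases eq_or_lt_of_le Q0 with h0 | h0
    · refine Eventually.of_forall fun n => ?_
      have : 0 ≤ ∫ z in U, (M - φ z) * ρ z * u n z ^ 4 :=
        setIntegral_nonneg mU fun z hz => mul_nonneg (w0 z hz) (by positivity)
      linarith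
    · have h1 : ENNReal.ofReal (3 * Q - ε / 2) < ENNReal.ofReal (3 * Q) :=
        (ENNReal.ofReal_lt_ofReal_iff (by positivity)).2 (by linarith)
      have h2 := eventually_lt_of_lt_liminf (h1.trans_le key)
      refine h2.mono fun n hn => ?_
      have h3 : 0 ≤ ∫ z in U, (M - φ z) * ρ z * u n z ^ 4 :=
        setIntegral_nonneg mU fun z hz => mul_nonneg (w0 z hz) (by positivity)
      exact (ENNReal.ofReal_le_ofReal_iff h3).1 hn.le
  obtain ⟨v, hv⟩ : ∃ v : ℝ, v = ∫ z in U, ρ z := ⟨_, rfl⟩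
  have v0 : 0 ≤ v := by rw [hv]; exact setIntegral_nonneg mU ρ0
  have hδ : 0 < ε / (2 * (M * v + 1)) := by positivity
  have toU : ∀ g : ℂ → ℝ, ∫ z, φ z * ρ z * g z = ∫ z in U, φ z * ρ z * g z := by
    intro g
    rw [← setIntegral_eq_integral_of_forall_compl_eq_zero (s := U)]
    intro z hz; rw [TF.zero hφ hz]; simp
  have toU1 : ∫ z, φ z * ρ z = ∫ z in U, φ z * ρ z := by
    rw [← setIntegral_eq_integral_of_forall_compl_eq_zero (s := U)]
    intro z hz; rw [TF.zero hφ hz]; simp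
  filter_upwards [lb, hL _ hδ] with n g1 g2
  rw [← hv] at g2
  have k1 : IntegrableOn (fun z => ρ z * u n z ^ 4) U := ib _ (cρ.mul ((cu n).pow 4))
  have k2 : IntegrableOn (fun z => φ z * ρ z * u n z ^ 4) U :=
    ib _ ((cφ.mul cρ).mul ((cu n).pow 4))
  have k3 : IntegrableOn ρ U := ib _ cρ
  have k4 : IntegrableOn (fun z => φ z * ρ z) U := ib _ (cφ.mul cρ)
  have s1 : ∫ z in U, (M - φ z) * ρ z * u n z ^ 4 =
      M * (∫ z in U, ρ z * u n z ^ 4) - ∫ z in U, φ z * ρ z * u n z ^ 4 := by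
    rw [← integral_const_mul, ← integral_sub (k1.const_mul M) k2]
    congr 1; funext z; ring
  have s2 : Q = M * v - ∫ z in U, φ z * ρ z := by
    rw [hQ, hv, ← integral_const_mul, ← integral_sub (k3.const_mul M) k4]
    congr 1; funext z; ring
  rw [toU, toU1]
  have g3 := mul_le_mul_of_nonneg_left g2 Mn
  have g4 : M * (ε / (2 * (M * v + 1)) * v) ≤ ε / 2 := by
    have e : M * (ε / (2 * (M * v + 1)) * v) = ε / 2 * ((M * v) / (M * v + 1)) := by
      have : M * v + 1 ≠ 0 := by positivity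
      field_simp
    rw [e]
    have h5 : (M * v) / (M * v + 1) ≤ 1 := by
      rw [div_le_one (by positivity)]; linarith
    have h6 : 0 < ε / 2 := by linarith
    nlinarith
  rw [s1] at g1
  rw [s2] at g1
  nlinarith

/-- **Equidistribution at all scales above the wavelength.** -/
theorem small_scale [IsMarkovKernel ν] {Ω : Set ℂ} (hΩ : IsOpen Ω)
    (hm : ∀ K : Set ℂ, IsCompact K → K ⊆ Ω → MemLp m 2 (volume.restrict K))
    (hp : ∀ᵐ z ∂(volume.restrict Ω), par ea (ν z) = 0) {a : ℂ → ℝ} {h : ℕ → ℝ} {u : ℕ → ℂ → ℝ}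
    (H : RawG Ω a h u (MM m ea ν)) {U : Set ℂ} (hU : IsOpen U) (hUc : IsCompact (closure U))
    (hUΩ : closure U ⊆ Ω) {ρ : ℂ → ℝ} (hρ : ContDiffOn ℝ ∞ ρ Ω) (hρ0 : ∀ z ∈ Ω, 0 < ρ z)
    (hmass : Tendsto (fun n => ∫ z in U, ρ z * u n z ^ 2) atTop (𝓝 (∫ z in U, ρ z)))
    (hL : ∀ δ : ℝ, 0 < δ → ∀ᶠ n in atTop, ∫ z in U, ρ z * u n z ^ 4 ≤
      (3 + δ) * ∫ z in U, ρ z) {φ : ℂ → ℝ} (hφ : TF U φ) (hφ0 : ∀ z, 0 ≤ φ z)
    {ε : ℝ} (hε : 0 < ε) :
    ∃ R₀ r₀ : ℝ, 0 < R₀ ∧ 0 < r₀ ∧ ∀ᶠ n in atTop, ∀ r : ℝ, R₀ * h n ≤ r → r ≤ r₀ →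
      ∫ z, φ z * ρ z * ((∫ w, u n (z + r • w) ^ 2 ∂dm) - 1) ^ 2 ≤ ε := by
  have hUΩ' : U ⊆ Ω := subset_closure.trans hUΩ
  have mU : MeasurableSet U := hU.measurableSet
  have cρ : ContinuousOn ρ (closure U) := hρ.continuousOn.mono hUΩ
  have cu : ∀ n, ContinuousOn (u n) (closure U) := fun n => (H.sm n).continuousOn.mono hUΩ
  have ib : ∀ f : ℂ → ℝ, ContinuousOn f (closure U) → IntegrableOn f U := fun f hf =>
    (hf.integrableOn_compact hUc).mono_set subset_closure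
  have hpU : ∀ᵐ z ∂(volume.restrict U), par ea (ν z) = 0 :=
    ae_restrict_of_ae_restrict_of_subset hUΩ' hp
  have fc : IsFiniteMeasure (volume.restrict (closure U)) := ⟨by
    rw [Measure.restrict_apply MeasurableSet.univ, Set.univ_inter]
    exact hUc.measure_lt_top⟩
  -- the limit density is `1` almost everywhere
  have one : ∀ᵐ z ∂(volume.restrict U), m z = 1 := by
    have li : LocallyIntegrableOn (fun z => m z - 1) U := by
      rw [locallyIntegrableOn_iff hU.isLocallyClosed]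
      intro K hKU hK
      have h2 := hm K hK (hKU.trans hUΩ')
      have : IsFiniteMeasure (volume.restrict K) := ⟨by
        rw [Measure.restrict_apply MeasurableSet.univ, Set.univ_inter]
        exact hK.measure_lt_top⟩
      exact (h2.integrable (by norm_num)).sub (integrable_const 1)
    have key := hU.ae_eq_zero_of_integral_contDiff_smul_eq_zero li (fun g hg hgc hgs => by
      have hT : TF U g := ⟨hg, hgc, hgs⟩
      have e := eq_one hΩ hm hp H hU hUc hUΩ hρ hρ0 hmass hL hT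
      have iφ : Integrable g := hg.continuous.integrable_of_hasCompactSupport hgc
      have i1 : Integrable (fun z => g z * m z) := by
        have h5 : IntegrableOn m (closure U) := (hm _ hUc hUΩ).integrable (by norm_num)
        have h3 : IntegrableOn (fun z => g z * m z) (closure U) :=
          h5.continuousOn_mul hg.continuous.continuousOn hUc
        have h4 := h3.mono_set (s := tsupport g) (hgs.trans subset_closure)
        refine (integrableOn_iff_integrable_of_support_subset ?_).1 h4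
        intro z hz
        by_contra hc
        apply hz
        simp [image_eq_zero_of_notMem_tsupport hc]
      have : ∫ z, g z • (m z - 1) = (∫ z, g z * m z) - ∫ z, g z := by
        rw [← integral_sub i1 iφ]
        congr 1; funext z; rw [smul_eq_mul]; ring
      rw [this, e, sub_self])
    rw [ae_restrict_iff' mU]
    filter_upwards [key] with z hz hzU
    have := hz hzU
    linarith
  have H' : RawG U a h u (MM (fun _ => 1) ea ν) := by
    refine ⟨H.hpos, H.hlim, H.sa.mono hUΩ', fun z hz => H.pa z (hUΩ' hz),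
      fun n => (H.sm n).mono hUΩ', fun n z hz => H.eq n z (hUΩ' hz), fun ψ hψ k => ?_⟩
    have t := H.qe ψ ⟨hψ.1, hψ.2.1, hψ.2.2.trans hUΩ'⟩ k
    have e : ∫ z, (ψ z : ℂ) * MM m ea ν k z = ∫ z, (ψ z : ℂ) * MM (fun _ => 1) ea ν k z := by
      rw [← setIntegral_eq_integral_of_forall_compl_eq_zero (s := U) (f := fun z =>
        (ψ z : ℂ) * MM m ea ν k z) (fun z hz => by rw [TF.zero hψ hz]; simp),
        ← setIntegral_eq_integral_of_forall_compl_eq_zero (s := U) (f := fun z =>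
        (ψ z : ℂ) * MM (fun _ => 1) ea ν k z) (fun z hz => by rw [TF.zero hψ hz]; simp)]
      refine integral_congr_ae (one.mono fun z hz => ?_)
      simp only [MM, hz]
    rwa [e] at t
  -- a compact set
  obtain ⟨K, hK, hφK, hKU⟩ := exists_compact_between hφ.2.1.isCompact hU hφ.2.2
  have hφK' : TF (interior K) φ := ⟨hφ.1, hφ.2.1, hφK⟩
  have hKi : interior K ⊆ U := interior_subset.trans hKU
  have hφρ : TF (interior K) (fun z => φ z * ρ z) :=
    TF.mulc isOpen_interior hφK' (hρ.mono (hKi.trans hUΩ'))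
  have hφρ0 : ∀ z, 0 ≤ φ z * ρ z := by
    intro z
    by_cases hz : z ∈ U
    · exact mul_nonneg (hφ0 z) (hρ0 z (hUΩ' hz)).le
    · rw [TF.zero hφ hz, zero_mul]
  have hm1 : ∀ K : Set ℂ, IsCompact K → K ⊆ U → MemLp (fun _ : ℂ => (1 : ℝ)) 2
      (volume.restrict K) := by
    intro K hK _
    have : IsFiniteMeasure (volume.restrict K) := ⟨by
      rw [Measure.restrict_apply MeasurableSet.univ, Set.univ_inter]
      exact hK.measure_lt_top⟩
    exact memLp_const 1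
  -- the fourth moments are bounded
  obtain ⟨C0, hC0⟩ := hK.exists_bound_of_continuousOn
    (f := fun z => (ρ z)⁻¹) ((hρ.continuousOn.mono (hKU.trans hUΩ')).inv₀
      fun z hz => (hρ0 z (hUΩ' (hKU hz))).ne')
  obtain ⟨v, hv⟩ : ∃ v : ℝ, v = ∫ z in U, ρ z := ⟨_, rfl⟩
  have bd : ∀ᶠ n in atTop, 1 + ∫ z in K, u n z ^ 4 ≤ 1 + |C0| * |(3 + 1) * v| := by
    filter_upwards [hL 1 one_pos] with n hn
    have k1 : IntegrableOn (fun z => ρ z * u n z ^ 4) U := ib _ (cρ.mul ((cu n).pow 4))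
    have k0 : IntegrableOn (fun z => u n z ^ 4) K :=
      (((cu n).pow 4).mono (hKU.trans subset_closure)).integrableOn_compact hK
    have h1 : ∫ z in K, u n z ^ 4 ≤ ∫ z in K, |C0| * (ρ z * u n z ^ 4) := by
      refine setIntegral_mono_on k0 ((k1.mono_set hKU).const_mul _) hK.measurableSet
        fun z hz => ?_
      have r0 := hρ0 z (hUΩ' (hKU hz))
      have h2 := hC0 z hz
      rw [Real.norm_eq_abs, abs_of_pos (inv_pos.2 r0)] at h2
      have h3 : 1 ≤ |C0| * ρ z := by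
        have := mul_le_mul_of_nonneg_right (h2.trans (le_abs_self C0)) r0.le
        rwa [inv_mul_cancel₀ r0.ne'] at this
      have h4 : 0 ≤ u n z ^ 4 := by positivity
      nlinarith
    have h5 : ∫ z in K, ρ z * u n z ^ 4 ≤ ∫ z in U, ρ z * u n z ^ 4 :=
      setIntegral_mono_set k1 ((ae_restrict_mem mU).mono fun z hz =>
        mul_nonneg (hρ0 z (hUΩ' hz)).le (show (0 : ℝ) ≤ u n z ^ 4 by positivity))
        hKU.eventuallyLE
    rw [integral_const_mul] at h1
    have h6 := mul_le_mul_of_nonneg_left (h5.trans (hn.trans (le_abs_self _))) (abs_nonneg C0)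
    rw [← hv] at h6
    linarith
  obtain ⟨T, hT⟩ : ∃ T : ℝ, T = 1 + |C0| * |(3 + 1) * v| := ⟨_, rfl⟩
  have T0 : 0 < T := by rw [hT]; positivity
  obtain ⟨R₀, r₀, hR, hr, key⟩ := meso_unif hm1 contDiffOn_const hpU H' hK hKU hφρ hφρ0
    (show 0 < ε / (2 * T) by positivity)
  have ex := exc_zero hU hUc hpU H' (hρ.mono hUΩ') (fun z hz => hρ0 z (hUΩ' hz)) cρ cu hL hφ
    (show 0 < ε / 2 by linarith)
  refine ⟨R₀, r₀, hR, hr, ?_⟩
  filter_upwards [key, ex, bd] with n h1 h2 h3 r hr1 hr2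
  have h4 := h1 r hr1 hr2
  rw [← hT] at h3
  have h5 : ε / (2 * T) * (1 + ∫ z in K, u n z ^ 4) ≤ ε / 2 := by
    have := mul_le_mul_of_nonneg_left h3 (show 0 ≤ ε / (2 * T) by positivity)
    refine this.trans (le_of_eq ?_)
    have := T0.ne'
    field_simp
  simp only [one_pow, mul_one] at h4
  have h6 : 2 / 3 * ((∫ z, φ z * ρ z * u n z ^ 4) - 3 * ∫ z, φ z * ρ z) ≤ ε / 2 := by
    linarith
  linarith

end

end Pool.Agent.TH294.RG
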