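import Pool.Agent.TH294.RG.RelI

/-!
Project RG (helper294): families of fourth order moments relative to the fourth moment.
-/

set_option autoImplicit false
open MeasureTheory Filter Topology Complex ProbabilityTheory
open scoped ContDiff

namespace Pool.Agent.TH294.RG

open Pool.Agent.W745.RW Pool.Agent.TH294.RS

noncomputable section

variable {m : ℂ → ℝ} {ν : Kernel ℂ ℝ}

/-- the ladder of a single function -/
def W1 (a : ℂ → ℝ) (t : ℝ) (v : ℂ → ℝ) (k : ℤ) (z : ℂ) : ℂ :=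
  ww a (fun _ => t) (fun _ z => (v z : ℂ)) k 0 z

lemma W1_eq (a : ℂ → ℝ) (h : ℕ → ℝ) (u : ℕ → ℂ → ℝ) (k : ℤ) (n : ℕ) (z : ℂ) :
    W1 a (h n) (u n) k z = ww a h (fun n z => (u n z : ℂ)) k n z := by
  cases k <;> rfl

lemma W1_cm {B : Set ℂ} (hB : IsOpen B) {a : ℂ → ℝ} (ha : ContDiffOn ℝ ∞ a B) (t c : ℝ)
    {v : ℂ → ℝ} (hv : ContDiffOn ℝ ∞ v B) (k : ℤ) {z : ℂ} (hz : z ∈ B) :
    W1 a t (fun z => c * v z) k z = (c : ℂ) * W1 a t v k z :=
  ww_scale hB ha (fun _ => t) (u := fun _ => v) (fun _ => hv) (fun _ => c) k 0 hz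

/-- **Families of fourth order moments**, general sequences -/
theorem fam_rel [IsMarkovKernel ν] {Ω : Set ℂ}
    (hm : ∀ K : Set ℂ, IsCompact K → K ⊆ Ω → MemLp m 2 (volume.restrict K))
    (hp : ∀ᵐ z ∂(volume.restrict Ω), par ea (ν z) = 0) {a : ℂ → ℝ} {h : ℕ → ℝ} {u : ℕ → ℂ → ℝ}
    (H : RawG Ω a h u (MM m ea ν)) {K : Set ℂ} (hK : IsCompact K) (hKΩ : K ⊆ Ω)
    {φ : ℂ → ℝ} (hφ : TF (interior K) φ) (hφ0 : ∀ z, 0 ≤ φ z)
    {ι : Type*} (s : Finset ι) (c : ι → ℂ) (g : ι → ℤ × ℤ × ℤ × ℤ) {C : ℝ}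
    (hC : ∀ ζ : ℂ, ‖ζ‖ = 1 → ‖∑ i ∈ s, c i * (ep2 (g i).1 (g i).2.1 (g i).2.2.1 (g i).2.2.2 *
      ζ ^ ((g i).1 + (g i).2.1 + (g i).2.2.1 + (g i).2.2.2))‖ ≤ C) {ε : ℝ} (hε : 0 < ε) :
    ∀ᶠ n in atTop, ‖(∑ i ∈ s, c i * ∫ z, (φ z : ℂ) * (W1 a (h n) (u n) (g i).1 z *
        W1 a (h n) (u n) (g i).2.1 z * W1 a (h n) (u n) (g i).2.2.1 z *
        W1 a (h n) (u n) (g i).2.2.2 z)) - ∑ i ∈ s, c i * ∫ z, (φ z : ℂ) *
        GG' (MM m ea ν) (g i).1 (g i).2.1 (g i).2.2.1 (g i).2.2.2 z‖ ≤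
      C * (∫ z, φ z * u n z ^ 4) - C * (3 * (∫ z, φ z * m z ^ 2)) +
        ε * (1 + ∫ z in K, u n z ^ 4) := by
  have hB : IsOpen (interior K) := isOpen_interior
  have hBΩ : interior K ⊆ Ω := interior_subset.trans hKΩ
  have hmB : ∀ K' : Set ℂ, IsCompact K' → K' ⊆ interior K → MemLp m 2 (volume.restrict K') :=
    fun K' hK' hKB => hm K' hK' (hKB.trans hBΩ)
  have hpB : ∀ᵐ z ∂(volume.restrict (interior K)), par ea (ν z) = 0 :=
    ae_restrict_of_ae_restrict_of_subset hBΩ hp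
  have u4 : ∀ {M : ℕ → ℂ → ℂ} (h' : ℕ → ℝ) (u' : ℕ → ℂ → ℝ) (n : ℕ),
      (∫ z, (φ z : ℂ) * F4 (ww a h' (fun n z => (u' n z : ℂ))) 0 0 0 0 n z).re =
      ∫ z, φ z * u' n z ^ 4 := by
    intro _ h' u' n
    have e1 : ∫ z, (φ z : ℂ) * F4 (ww a h' (fun n z => (u' n z : ℂ))) 0 0 0 0 n z =
        ((∫ z, φ z * u' n z ^ 4 : ℝ) : ℂ) := by
      rw [← integral_complex_ofReal]
      congr 1; funext z
      have : ww a h' (fun n z => (u' n z : ℂ)) 0 n z = (u' n z : ℂ) := rfl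
      simp only [F4, this]
      push_cast; ring
    rw [e1, ofReal_re]
  refine relI H hK hKΩ
    (fun t v => ∑ i ∈ s, c i * ∫ z, (φ z : ℂ) * (W1 a t v (g i).1 z *
        W1 a t v (g i).2.1 z * W1 a t v (g i).2.2.1 z * W1 a t v (g i).2.2.2 z))
    (fun _ v => C * ∫ z, φ z * v z ^ 4) _ (C * (3 * (∫ z, φ z * m z ^ 2))) ?_ ?_ ?_ ?_ hε
  · intro t r v hv
    rw [Finset.mul_sum]
    refine Finset.sum_congr rfl fun i _ => ?_
    rw [mul_left_comm]
    congr 1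
    rw [← integral_const_mul]
    congr 1; funext z
    by_cases hz : z ∈ interior K
    · have e := fun k => W1_cm hB (H.sa.mono hBΩ) t r hv k hz
      simp only [e]; ring
    · rw [TF.zero hφ hz]; simp
  · intro t r v _
    show C * (∫ z, φ z * (r * v z) ^ 4) = r ^ 4 * (C * ∫ z, φ z * v z ^ 4)
    rw [mul_left_comm]
    congr 1
    rw [← integral_const_mul]
    congr 1; funext z; ring
  · intro h' u' H' hb ε' hε'
    have A := H'.as hB (fun k => MM_ml ea_meas ea_norm hmB k)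
      (fun z => by rw [MM_0, conj_ofReal]) hb
    refine (fam_b hB hmB hpB A hφ hφ0 s c g hC hε').mono fun n hn => ?_
    rw [u4 (M := MM m ea ν)] at hn
    simp only [W1_eq]
    simp only [F4] at hn
    linarith
  · intro h' u' H' hb ε' hε'
    have e0 : (fun (_ : ℕ) (_ : ℂ) => (0 : ℂ)) = MM (fun _ => 0) ea ν := by
      funext k z; simp [MM]
    rw [e0] at H'
    have hm0 : ∀ K' : Set ℂ, IsCompact K' → K' ⊆ interior K →
        MemLp (fun _ : ℂ => (0 : ℝ)) 2 (volume.restrict K') := fun K' _ _ => MemLp.zero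
    have A := H'.as hB (fun k => MM_ml ea_meas ea_norm hm0 k)
      (fun z => by rw [MM_0, conj_ofReal]) hb
    refine (fam_b hB hm0 hpB A hφ hφ0 s c g hC hε').mono fun n hn => ?_
    rw [u4 (M := MM m ea ν)] at hn
    have hG : ∀ a b c d z, GG' (MM (fun _ => 0) ea ν) a b c d z = 0 := by
      intro a b c d z
      have hcc : ∀ a b, cc (MM (fun _ => 0) ea ν) a b z = 0 := by
        intro a b
        simp [cc, MZ, MM]
      simp [GG', hcc]
    simp only [W1_eq]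
    simp only [F4, hG, mul_zero, integral_zero, Finset.sum_const_zero, sub_zero, ne_eq,
      OfNat.ofNat_ne_zero, not_false_eq_true, zero_pow] at hn
    exact hn

end

end Pool.Agent.TH294.RG
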