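import Pool.Agent.TH294.RG.Gen
import Pool.Agent.TH294.RS.Met

/-!
Project RG (helper294): final forms: open sets, conformal metrics.
-/

set_option autoImplicit false
open MeasureTheory Filter Topology Complex ProbabilityTheory
open scoped ContDiff ENNReal

namespace Pool.Agent.TH294.RG

open Pool.Agent.W745.RW Pool.Agent.TH294.RS

noncomputable section

/-- from test functions to open sets -/
theorem open_of_testG {V : Set ℂ} (hV : IsOpen V) {G : ℂ → ℝ} {F : ℕ → ℂ → ℝ}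
    (hF : ∀ n, ContinuousOn (F n) V) (hF0 : ∀ n, ∀ z ∈ V, 0 ≤ F n z)
    (hG0 : ∀ z ∈ V, 0 ≤ G z) (hG : ∀ K : Set ℂ, IsCompact K → K ⊆ V → IntegrableOn G K)
    (H : ∀ ψ, TF V ψ → (∀ z, 0 ≤ ψ z) → ∀ ε : ℝ, 0 < ε →
      ∀ᶠ n in atTop, (∫ z, ψ z * G z) - ε ≤ ∫ z, ψ z * F n z) :
    ∫⁻ z in V, ENNReal.ofReal (G z) ≤
      liminf (fun n => ∫⁻ z in V, ENNReal.ofReal (F n z)) atTop := by
  obtain ⟨K, hK, hKV, hKu, hKm⟩ := exh V hV
  have h1 : ∫⁻ z in V, ENNReal.ofReal (G z) = ⨆ m, ∫⁻ z in K m, ENNReal.ofReal (G z) := by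
    conv_lhs => rw [← hKu]
    exact setLIntegral_iUnion_of_directed _ (directed_of_isDirected_le hKm)
  rw [h1]
  refine iSup_le fun m => ?_
  obtain ⟨χ, hχ, hχ1, hχ0, hχ2⟩ := exists_cut hV (hK m) (hKV m)
  have Iχ : Integrable (fun z => χ z * G z) := by
    obtain ⟨C, hC⟩ := hχ.2.1.exists_bound_of_continuousOn hχ.1.continuous.continuousOn
    have h1 : IntegrableOn (fun z => χ z * G z) (tsupport χ) := by
      refine Integrable.bdd_mul (c := C) (hG _ hχ.2.1 hχ.2.2)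
        (hχ.1.continuous.aestronglyMeasurable) ?_
      exact (ae_restrict_mem hχ.2.1.measurableSet).mono fun z hz => hC z hz
    rw [← integrableOn_iff_integrable_of_support_subset (s := tsupport χ)]
    · exact h1
    · intro z hz
      apply subset_tsupport
      intro h0
      apply hz
      simp [h0]
  have nn : ∀ z, 0 ≤ χ z * G z := by
    intro z
    by_cases hz : z ∈ V
    · exact mul_nonneg (hχ0 z) (hG0 z hz)
    · rw [TF.zero hχ hz]; simp
  have h2 : ∫⁻ z in K m, ENNReal.ofReal (G z) ≤ ENNReal.ofReal (∫ z, χ z * G z) := by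
    rw [ofReal_integral_eq_lintegral_ofReal Iχ (Eventually.of_forall nn)]
    calc ∫⁻ z in K m, ENNReal.ofReal (G z) = ∫⁻ z in K m, ENNReal.ofReal (χ z * G z) :=
          setLIntegral_congr_fun (hK m).measurableSet fun z hz => by
            rw [hχ1 z hz]; simp
      _ ≤ ∫⁻ z, ENNReal.ofReal (χ z * G z) := setLIntegral_le_lintegral _ _
  refine h2.trans ?_
  -- the limit
  by_contra hcon
  rw [not_le] at hcon
  obtain ⟨r, hr0, hr1, hr2⟩ := ENNReal.lt_iff_exists_real_btwn.1 hcon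
  have h3 : r < ∫ z, χ z * G z := (ENNReal.ofReal_lt_ofReal_iff_of_nonneg hr0).1 hr2
  have h4 := H χ hχ hχ0 ((∫ z, χ z * G z) - r) (by linarith)
  have h5 : ∀ᶠ n in atTop, ENNReal.ofReal r ≤ ∫⁻ z in V, ENNReal.ofReal (F n z) := by
    filter_upwards [h4] with n hn
    have i1 : Integrable (fun z => χ z * F n z) := Pool.Agent.W311.RW.int_mul hV hχ (hF n)
    have h6 : r ≤ ∫ z, χ z * F n z := by linarith
    refine (ENNReal.ofReal_le_ofReal h6).trans ?_
    have nn' : ∀ z, 0 ≤ χ z * F n z := by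
      intro z
      by_cases hz : z ∈ V
      · exact mul_nonneg (hχ0 z) (hF0 n z hz)
      · rw [TF.zero hχ hz]; simp
    rw [ofReal_integral_eq_lintegral_ofReal i1 (Eventually.of_forall nn')]
    rw [← lintegral_indicator hV.measurableSet]
    refine lintegral_mono fun z => ?_
    by_cases hz : z ∈ V
    · rw [Set.indicator_of_mem hz]
      refine ENNReal.ofReal_le_ofReal ?_
      exact mul_le_of_le_one_left (hF0 n z hz) (hχ2 z)
    · rw [Set.indicator_of_notMem hz, TF.zero hχ hz]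
      simp
  have h7 : ENNReal.ofReal r ≤ liminf (fun n => ∫⁻ z in V, ENNReal.ofReal (F n z)) atTop :=
    le_liminf_of_le (by isBoundedDefault) h5
  exact absurd hr1 (not_lt.2 h7)

variable {Y : Type*} [MeasurableSpace Y] {m : ℂ → ℝ} {e : Y → ℂ} {ν : Kernel ℂ Y}

/-- **Final form** for the equation `h² a² Δu + u = 0` -/
theorem RawG.fin [IsMarkovKernel ν] {Ω : Set ℂ} (hΩ : IsOpen Ω) {a : ℂ → ℝ} {h : ℕ → ℝ}
    {u : ℕ → ℂ → ℝ} (he : Measurable e) (h1 : ∀ y, ‖e y‖ = 1)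
    (hm : ∀ K : Set ℂ, IsCompact K → K ⊆ Ω → MemLp m 2 (volume.restrict K))
    (H : RawG Ω a h u (MM m e ν)) {U : Set ℂ} (hU : IsOpen U) (hUΩ : U ⊆ Ω) {r : ℂ → ℝ}
    (hr : ContDiffOn ℝ ∞ r U) (hr0 : ∀ z ∈ U, 0 ≤ r z) :
    ∫⁻ z in U, ENNReal.ofReal (r z * GD m e ν z) ≤
      liminf (fun n => ∫⁻ z in U, ENNReal.ofReal (r z * u n z ^ 4)) atTop := by
  refine open_of_testG hU (fun n => hr.continuousOn.mul (((H.sm n).continuousOn.mono hUΩ).pow 4))
    (fun n z hz => mul_nonneg (hr0 z hz) (by positivity))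
    (fun z hz => mul_nonneg (hr0 z hz) (GD_nn z)) (fun K hK hKU => ?_) fun ψ hψ hψ0 ε hε => ?_
  · obtain ⟨C, hC⟩ := hK.exists_bound_of_continuousOn (hr.continuousOn.mono hKU)
    refine Integrable.bdd_mul (c := C) (GD_loc (ν := ν) he hm hK (hKU.trans hUΩ))
      ((hr.continuousOn.mono hKU).aestronglyMeasurable hK.measurableSet) ?_
    exact (ae_restrict_mem hK.measurableSet).mono fun z hz => hC z hz
  · have hψr : TF U (fun z => ψ z * r z) := TF.mulc hU hψ hr
    have hψr' : TF Ω (fun z => ψ z * r z) := ⟨hψr.1, hψr.2.1, hψr.2.2.trans hUΩ⟩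
    have nn : ∀ z, 0 ≤ ψ z * r z := by
      intro z
      by_cases hz : z ∈ U
      · exact mul_nonneg (hψ0 z) (hr0 z hz)
      · rw [TF.zero hψ hz]; simp
    have key := RawG.main hΩ he h1 hm H hψr' nn hε
    refine key.mono fun n hn => ?_
    simp only [← mul_assoc]
    exact hn

/-- sequences of eigenfunctions of `ρ |dz|²` with semiclassical measure `m(z) ν_z` -/
theorem rawG_met {Ω : Set ℂ} (hΩ : IsOpen Ω) {ρ : ℂ → ℝ} {lam : ℕ → ℝ} {u : ℕ → ℂ → ℝ}
    {M : ℕ → ℂ → ℂ} (pos : ∀ n, 0 < lam n) (lim : Tendsto lam atTop atTop)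
    (sρ : ContDiffOn ℝ ∞ ρ Ω) (pρ : ∀ z ∈ Ω, 0 < ρ z) (sm : ∀ n, ContDiffOn ℝ ∞ (u n) Ω)
    (eq : ∀ n, ∀ z ∈ Ω, lap (u n) z + lam n * (ρ z * u n z) = 0)
    (qe : ∀ φ, TF Ω φ → ∀ k : ℕ, Tendsto (fun n => ∫ z, ((φ z * ρ z : ℝ) : ℂ) * ((u n z : ℂ) *
      (RD ρ (lam n))^[k] (fun w => (u n w : ℂ)) z)) atTop
      (𝓝 (∫ z, ((φ z * ρ z : ℝ) : ℂ) * M k z))) :
    RawG Ω (fun z => 1 / √(ρ z)) (fun n => 1 / √(lam n)) u M := by
  have hr : ∀ z ∈ Ω, 0 < √(ρ z) := fun z hz => Real.sqrt_pos.2 (pρ z hz)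
  refine ⟨fun n => div_pos one_pos (Real.sqrt_pos.2 (pos n)), ?_, ?_,
    fun z hz => div_pos one_pos (hr z hz), sm, fun n z hz => ?_, fun φ hφ k => ?_⟩
  · have : Tendsto (fun n => √(lam n)) atTop atTop := Real.tendsto_sqrt_atTop.comp lim
    exact (this.inv_tendsto_atTop).congr (fun n => by simp [one_div])
  · exact contDiffOn_const.div (sρ.sqrt fun z hz => (pρ z hz).ne') fun z hz => (hr z hz).ne'
  · have h1 := eq n z hz
    have h2 : (1 / √(lam n)) ^ 2 = 1 / lam n := by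
      rw [div_pow, Real.sq_sqrt (pos n).le, one_pow]
    have h3 : (1 / √(ρ z)) ^ 2 = 1 / ρ z := by
      rw [div_pow, Real.sq_sqrt (pρ z hz).le, one_pow]
    show (1 / √(lam n)) ^ 2 * ((1 / √(ρ z)) ^ 2 * lap (u n) z) + u n z = 0
    rw [h2, h3]
    have h4 := (pos n).ne'
    have h5 := (pρ z hz).ne'
    have h6 : lap (u n) z = - (lam n * (ρ z * u n z)) := by linarith
    rw [h6]
    field_simp
    ring
  · have hi : ContDiffOn ℝ ∞ (fun z => (ρ z)⁻¹) Ω := sρ.inv fun z hz => (pρ z hz).ne'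
    have hφ' := TF.mulc hΩ hφ hi
    have h1 := qe _ hφ' k
    have e : ∀ z, φ z * (ρ z)⁻¹ * ρ z = φ z := by
      intro z
      by_cases hz : z ∈ Ω
      · rw [mul_assoc, inv_mul_cancel₀ (pρ z hz).ne', mul_one]
      · rw [TF.zero hφ hz]; simp
    simp only [e] at h1
    refine h1.congr fun n => ?_
    rw [RD_eq ρ (pos n).le]

/-- the symbol of the frame derivative in terms of the angle of the momentum -/
def ea (α : ℝ) : ℂ := I * Complex.exp (-(α : ℂ) * I)

lemma ea_meas : Measurable ea := by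
  unfold ea
  have : Continuous (fun α : ℝ => I * Complex.exp (-(α : ℂ) * I)) := by fun_prop
  exact this.measurable

lemma ea_norm (α : ℝ) : ‖ea α‖ = 1 := by
  unfold ea
  rw [norm_mul, norm_I, one_mul]
  have : -(α : ℂ) * I = ((-α : ℝ) : ℂ) * I := by push_cast; ring
  rw [this, norm_exp_ofReal_mul_I]

lemma ea_par : PS ea = {p : ℝ × ℝ | Real.sin (p.1 - p.2) = 0} := by
  ext p
  show ea p.1 ^ 2 = ea p.2 ^ 2 ↔ Real.sin (p.1 - p.2) = 0
  have e1 : ∀ α : ℝ, ea α ^ 2 = - Complex.exp (-(2 * (α : ℂ)) * I) := by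
    intro α
    unfold ea
    rw [mul_pow, I_sq, ← Complex.exp_nat_mul]
    push_cast
    rw [show (2 : ℂ) * (-(α : ℂ) * I) = -(2 * (α : ℂ)) * I by ring]
    ring
  have e2 : Complex.exp (-(2 * (p.1 : ℂ)) * I) - Complex.exp (-(2 * (p.2 : ℂ)) * I) =
      Complex.exp (-((p.1 : ℂ) + p.2) * I) * (-(2 * I) * Complex.sin ((p.1 : ℂ) - p.2)) := by
    have h1 : Complex.exp (-(2 * (p.1 : ℂ)) * I) = Complex.exp (-((p.1 : ℂ) + p.2) * I) *
        Complex.exp (-((p.1 : ℂ) - p.2) * I) := by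
      rw [← Complex.exp_add]; congr 1; ring
    have h2 : Complex.exp (-(2 * (p.2 : ℂ)) * I) = Complex.exp (-((p.1 : ℂ) + p.2) * I) *
        Complex.exp (((p.1 : ℂ) - p.2) * I) := by
      rw [← Complex.exp_add]; congr 1; ring
    rw [h1, h2, Complex.sin]
    linear_combination (Complex.exp (-((p.1 : ℂ) + p.2) * I) *
      (Complex.exp (-((p.1 : ℂ) - p.2) * I) - Complex.exp (((p.1 : ℂ) - p.2) * I))) * I_sq
  have e3 : ((Real.sin (p.1 - p.2) : ℝ) : ℂ) = Complex.sin ((p.1 : ℂ) - p.2) := by push_cast; rfl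
  rw [e1, e1]
  constructor
  · intro h
    have h2 : Complex.exp (-(2 * (p.1 : ℂ)) * I) - Complex.exp (-(2 * (p.2 : ℂ)) * I) = 0 := by
      linear_combination -h
    rw [e2] at h2
    rcases mul_eq_zero.1 h2 with h3 | h3
    · exact absurd h3 (Complex.exp_ne_zero _)
    · rcases mul_eq_zero.1 h3 with h4 | h4
      · exfalso
        have : (2 * I : ℂ) ≠ 0 := by simp
        apply this; linear_combination -h4
      · rw [← e3] at h4
        exact_mod_cast h4
  · intro h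
    rw [h] at e3
    rw [← e3] at e2
    simp only [ofReal_zero, mul_zero] at e2
    linear_combination -e2

end

end Pool.Agent.TH294.RG
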