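import Pool.Agent.TH294.RG.Mom

/-!
Project RG (helper294): the final form of the rigidity of fourth order moments.
-/

set_option autoImplicit false
open MeasureTheory Filter Topology Complex ProbabilityTheory
open scoped ContDiff ENNReal

namespace Pool.Agent.TH294.RG

open Pool.Agent.W745.RW Pool.Agent.TH294.RS

noncomputable section

/-- covariances -/
def C2 (m : ℂ → ℝ) (ν : Kernel ℂ ℝ) (a b : ℤ) (z : ℂ) : ℂ :=
  if Even (a + b) then (-1) ^ a.natAbs * ((m z : ℂ) * ∫ α, ea α ^ (a + b) ∂(ν z)) else 0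

lemma MZ_z (m : ℂ → ℝ) (ν : Kernel ℂ ℝ) {K : ℤ} (hK : Even K) (z : ℂ) :
    MZ (MM m ea ν) K z = (m z : ℂ) * ∫ α, ea α ^ K ∂(ν z) := by
  by_cases h0 : 0 ≤ K
  · simp only [MZ, if_pos h0, MM, cm]
    congr 2
    funext α
    rw [← zpow_natCast]
    congr 1
    omega
  · simp only [MZ, if_neg h0, MM, cm]
    rw [(Int.natAbs_even.2 hK).neg_one_pow, one_mul, map_mul, conj_ofReal, ← integral_conj]
    congr 2
    funext α
    have h1 : (starRingEnd ℂ) (ea α) = (ea α)⁻¹ := by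
      rw [Complex.inv_def, Complex.normSq_eq_norm_sq, ea_norm]; simp
    rw [map_pow, h1, inv_pow, ← zpow_natCast, ← zpow_neg]
    congr 1
    omega

lemma cc_C2 (m : ℂ → ℝ) (ν : Kernel ℂ ℝ) (a b : ℤ) (z : ℂ) :
    cc (MM m ea ν) a b z = C2 m ν a b z := by
  unfold cc C2
  split_ifs with h
  · rw [MZ_z m ν h]
  · rfl

theorem fo {Ω : Set ℂ} (hΩ : IsOpen Ω) {ρ : ℂ → ℝ} (hρ : ContDiffOn ℝ ∞ ρ Ω)
    (hρ0 : ∀ z ∈ Ω, 0 < ρ z) {lam : ℕ → ℝ} (hpos : ∀ n, 0 < lam n)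
    (hlam : Tendsto lam atTop atTop) {u : ℕ → ℂ → ℝ} (hu : ∀ n, ContDiffOn ℝ ∞ (u n) Ω)
    (heq : ∀ n, ∀ z ∈ Ω, lap (u n) z + lam n * (ρ z * u n z) = 0)
    {m : ℂ → ℝ} (hm : ∀ K : Set ℂ, IsCompact K → K ⊆ Ω → MemLp m 2 (volume.restrict K))
    {ν : Kernel ℂ ℝ} [IsMarkovKernel ν]
    (hsc : ∀ φ, TF Ω φ → ∀ k : ℕ, Tendsto (fun n => ∫ z, ((φ z * ρ z : ℝ) : ℂ) *
      ((u n z : ℂ) * (RD ρ (lam n))^[k] (fun w => (u n w : ℂ)) z)) atTop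
      (𝓝 (∫ z, ((φ z * ρ z : ℝ) : ℂ) * ((m z : ℂ) * ∫ α, ea α ^ k ∂(ν z)))))
    {K : Set ℂ} (hK : IsCompact K) (hKΩ : K ⊆ Ω) {φ : ℂ → ℝ} (hφ : TF (interior K) φ)
    (a b c d : ℤ) (hs : a + b + c + d = 0) :
    Tendsto (fun n => ((∫ z, ((φ z * ρ z : ℝ) : ℂ) * (WW ρ (lam n) (u n) a z *
        WW ρ (lam n) (u n) b z * WW ρ (lam n) (u n) c z * WW ρ (lam n) (u n) d z))
      - eps a b c d * ((∫ z, φ z * ρ z * u n z ^ 4 : ℝ) : ℂ)
      - ∫ z, ((φ z * ρ z : ℝ) : ℂ) * ((C2 m ν a b z * C2 m ν c d z + C2 m ν a c z * C2 m ν b d z +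
        C2 m ν a d z * C2 m ν b c z) - 3 * eps a b c d * (m z : ℂ) ^ 2)) /
      ((1 + ∫ z in K, u n z ^ 4 : ℝ) : ℂ)) atTop (𝓝 0) := by
  have H := rawG_met (M := MM m ea ν) hΩ hpos hlam hρ hρ0 hu heq hsc
  have hφ' : TF (interior K) (fun z => φ z * ρ z) :=
    TF.mulc isOpen_interior hφ (hρ.mono (interior_subset.trans hKΩ))
  have hφ2 : TF Ω (fun z => φ z * ρ z) := ⟨hφ'.1, hφ'.2.1,
    hφ'.2.2.trans (interior_subset.trans hKΩ)⟩
  have ml := fun k => MM_ml (ν := ν) ea_meas ea_norm hm k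
  have key := H.mom ml (fun z => by rw [MM_0, conj_ofReal]) hK hKΩ hφ' a b c d hs
  have J4 : ∀ i j k l, Integrable (fun z => ((φ z * ρ z : ℝ) : ℂ) *
      GG' (MM m ea ν) i j k l z) := by
    intro i j k l
    have mm := fun (a b c d : ℤ) => (ML.cc ml a b).mulint (ML.cc ml c d) hφ2.2.1 hφ2.2.2
    refine TF.intK hφ2 ?_
    exact ((mm i j k l).add (mm i k j l)).add (mm i l j k)
  refine key.congr fun n => ?_
  rw [div_eq_inv_mul]
  congr 1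
  simp only [df, F4, WW_eq ρ hpos u]
  have e4 : ∫ z, ((φ z * ρ z : ℝ) : ℂ) * (WW ρ (lam n) (u n) 0 z * WW ρ (lam n) (u n) 0 z *
      WW ρ (lam n) (u n) 0 z * WW ρ (lam n) (u n) 0 z) =
      ((∫ z, φ z * ρ z * u n z ^ 4 : ℝ) : ℂ) := by
    rw [← integral_complex_ofReal]
    congr 1; funext z
    have : WW ρ (lam n) (u n) 0 z = (u n z : ℂ) := rfl
    rw [this]; push_cast; ring
  have e5 : ∫ z, ((φ z * ρ z : ℝ) : ℂ) * ((C2 m ν a b z * C2 m ν c d z +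
        C2 m ν a c z * C2 m ν b d z +
        C2 m ν a d z * C2 m ν b c z) - 3 * eps a b c d * (m z : ℂ) ^ 2) =
      (∫ z, ((φ z * ρ z : ℝ) : ℂ) * GG' (MM m ea ν) a b c d z) -
      eps a b c d * ∫ z, ((φ z * ρ z : ℝ) : ℂ) * GG' (MM m ea ν) 0 0 0 0 z := by
    rw [← integral_const_mul, ← integral_sub (J4 _ _ _ _) ((J4 _ _ _ _).const_mul _)]
    congr 1; funext z
    have c00 : C2 m ν 0 0 z = (m z : ℂ) := by
      simp [C2]
    simp only [GG', cc_C2, c00]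
    ring
  rw [e4, e5]
  ring

end

end Pool.Agent.TH294.RG
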