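import Pool.Agent.TH294.RG.Jet5

/-!
Project RG (helper294): four point functions of sequences with bounded fourth moments.
-/

set_option autoImplicit false
open MeasureTheory Filter Topology Complex ProbabilityTheory
open scoped ContDiff

namespace Pool.Agent.TH294.RG

open Pool.Agent.W745.RW Pool.Agent.TH294.RS

noncomputable section

variable {m : ℂ → ℝ} {ν : Kernel ℂ ℝ}

lemma fK_MM [IsMarkovKernel ν] {B : Set ℂ}
    (hm : ∀ K : Set ℂ, IsCompact K → K ⊆ B → MemLp m 2 (volume.restrict K)) {φ : ℂ → ℝ}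
    (hφ : TF B φ) (hφ0 : ∀ z, 0 ≤ φ z) (K : ℤ) :
    fK (MM m ea ν) φ K ≤ ∫ z, φ z * (m z * m z) := by
  have mm := hm _ hφ.2.1 hφ.2.2
  have im : Integrable (fun z => φ z * (m z * m z)) := int2 hφ mm mm
  have h0 : 0 ≤ ∫ z, φ z * (m z * m z) :=
    integral_nonneg fun z => mul_nonneg (hφ0 z) (mul_self_nonneg _)
  unfold fK
  split_ifs
  · refine integral_mono ((MM_ml (ν := ν) ea_meas ea_norm hm _).n2 hφ) im fun z => ?_
    refine mul_le_mul_of_nonneg_left ?_ (hφ0 z)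
    simp only [MM, norm_mul, norm_real, Real.norm_eq_abs, mul_pow, sq_abs]
    have h1 := cm_bd ea_norm (ν z) K.natAbs
    have h2 : ‖cm ea (ν z) K.natAbs‖ ^ 2 ≤ 1 := pow_le_one₀ (norm_nonneg _) h1
    nlinarith [sq_nonneg (m z)]
  · exact h0

lemma SN0 [IsMarkovKernel ν] {B : Set ℂ} (hB : IsOpen B)
    (hm : ∀ K : Set ℂ, IsCompact K → K ⊆ B → MemLp m 2 (volume.restrict K))
    (hp : ∀ᵐ z ∂(volume.restrict B), par ea (ν z) = 0) {φ : ℂ → ℝ} (hφ : TF B φ) :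
    Tendsto (fun N : ℕ => ((N : ℝ) ^ 2)⁻¹ * (∑ j ∈ Finset.Icc 1 N, ∑ k ∈ Finset.Icc 1 N,
      ∫ z, φ z * ss (MM m ea ν) j k z)) atTop (𝓝 0) := by
  have h1 := SN_lim (ν := ν) ea_meas ea_norm hm hφ
  have e : ∫ z, φ z * (m z ^ 2 * par ea (ν z)) = 0 := by
    rw [← integral_zero ℂ ℝ]
    refine integral_congr_ae ?_
    rw [ae_restrict_iff' hB.measurableSet] at hp
    filter_upwards [hp] with z hz
    by_cases hzB : z ∈ B
    · rw [hz hzB]; simp
    · rw [TF.zero hφ hzB]; simp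
  rwa [e] at h1

/-- four point functions, along an ultrafilter -/
theorem four_u [IsMarkovKernel ν] {B : Set ℂ} (hB : IsOpen B)
    (hm : ∀ K : Set ℂ, IsCompact K → K ⊆ B → MemLp m 2 (volume.restrict K))
    (hp : ∀ᵐ z ∂(volume.restrict B), par ea (ν z) = 0) {h : ℕ → ℝ}
    {w : ℤ → ℕ → ℂ → ℂ} (H : AG B (fun _ => 1) h w (MM m ea ν))
    (hL : ∀ n, Lad B (fun k => w k n) (h n)) {φ : ℂ → ℝ} (hφ : TF B φ) (hφ0 : ∀ z, 0 ≤ φ z)
    (v : Fin 4 → ℂ) {U : Ultrafilter ℕ} (hU : (U : Filter ℕ) ≤ atTop) {x : ℤ → ℂ}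
    (hx : ∀ i j k l, Tendsto (fun n => ∫ z, (φ z : ℂ) * F4 w i j k l n z) U
      (𝓝 ((∫ z, (φ z : ℂ) * GG' (MM m ea ν) i j k l z) + ep2 i j k l * x (i + j + k + l))))
    {ε : ℝ} (hε : 0 < ε) :
    ∀ᶠ n in (U : Filter ℕ), ‖IP φ (fun k => w k n) (h n) v 1 0 0 0 0 -
      ((∫ z, φ z * G4 m ν v z : ℝ) : ℂ)‖ ≤ (x 0).re + ε := by
  -- geometry
  obtain ⟨δ, hδ, hδB⟩ := hφ.2.1.exists_cthickening_subset_open hB hφ.2.2
  set K1 : Set ℂ := Metric.cthickening δ (tsupport φ) with hK1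
  have hK1c : IsCompact K1 := hφ.2.1.cthickening
  obtain ⟨χ0, hχ0, hχ1, hχ2, hχ3⟩ := exists_cut hB hK1c hδB
  obtain ⟨Mφ, hMφ⟩ := hφ.2.1.exists_bound_of_continuousOn hφ.1.continuous.continuousOn
  set χ : ℂ → ℝ := fun z => |Mφ| * χ0 z with hχd
  have hχ : TF B χ := by
    have := TF.mulc hB hχ0 (a := fun _ => |Mφ|) contDiffOn_const
    have e : χ = fun z => χ0 z * |Mφ| := by funext z; simp only [hχd]; ring
    rw [e]; exact this
  have hχnn : ∀ z, 0 ≤ χ z := fun z => mul_nonneg (abs_nonneg _) (hχ2 z)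
  obtain ⟨C, hC0, hC⟩ := AG.ubd hm H hB hχ hχnn hU
  -- smallness of the step
  have hsm : ∀ᶠ n in (U : Filter ℕ), ∀ i, 2 * |h n| * ‖v i‖ ≤ δ := by
    refine eventually_all.2 fun i => ?_
    have h1 : Tendsto (fun n => 2 * |h n| * ‖v i‖) U (𝓝 0) := by
      have := ((H.hlim.mono_left hU).abs.const_mul 2).mul_const ‖v i‖
      simpa using this
    exact (h1.eventually (gt_mem_nhds hδ)).mono fun n hn => hn.le
  -- choice of the order
  have f1 : Tendsto (fun L : ℕ => RR v ^ L / (L.factorial : ℝ)) atTop (𝓝 0) :=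
    FloorSemiring.tendsto_pow_div_factorial_atTop (RR v)
  have f2 := gau_lim (ν := ν) hm hφ v
  have g1 : ∀ᶠ L : ℕ in atTop, RR v ^ L * C / (L.factorial : ℝ) < ε / 4 := by
    have := f1.mul_const C
    rw [zero_mul] at this
    refine (this.eventually (gt_mem_nhds (show (0 : ℝ) < ε / 4 by positivity))).mono fun L hL => ?_
    have e : RR v ^ L * C / (L.factorial : ℝ) = RR v ^ L / (L.factorial : ℝ) * C := by ring
    rw [e]; exact hL
  have g2 : ∀ᶠ L : ℕ in atTop, RR v ^ L / (L.factorial : ℝ) * 2 * |(x 0).re| < ε / 4 := by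
    have := (f1.mul_const 2).mul_const |(x 0).re|
    rw [zero_mul, zero_mul] at this
    exact this.eventually (gt_mem_nhds (show (0 : ℝ) < ε / 4 by positivity))
  have g3 : ∀ᶠ L : ℕ in atTop, ‖PhL v L (fun a b c d => ∫ z, (φ z : ℂ) *
      GG' (MM m ea ν) a b c d z) - ((∫ z, φ z * G4 m ν v z : ℝ) : ℂ)‖ < ε / 4 := by
    have := (f2.sub_const ((∫ z, φ z * G4 m ν v z : ℝ) : ℂ)).norm
    rw [sub_self, norm_zero] at this
    exact this.eventually (gt_mem_nhds (show (0 : ℝ) < ε / 4 by positivity))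
  have g4 : ∀ᶠ L : ℕ in atTop, 2 * RR v ≤ (L : ℝ) :=
    tendsto_natCast_atTop_atTop.eventually (eventually_ge_atTop _)
  obtain ⟨L, hL1, hL2, hL3, hL4⟩ := (g1.and (g2.and (g3.and g4))).exists
  have exc := H.exc hB hφ hφ0 (fun K => fK_MM (ν := ν) hm hφ hφ0 K) (SN0 hB hm hp hφ) hU hx v hL4
  -- the limit of the truncated sums
  have t1 : Tendsto (fun n => PhL v L (IP φ (fun k => w k n) (h n) v 0)) U
      (𝓝 (PhL v L (fun a b c d => (∫ z, (φ z : ℂ) * GG' (MM m ea ν) a b c d z) +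
        ep2 a b c d * x (a + b + c + d)))) := by
    unfold PhL
    refine tendsto_finsetSum _ fun N _ => Tendsto.const_mul _ (TT_lim v (fun a b c d => ?_) N _ _ _ _)
    refine (hx a b c d).congr fun n => ?_
    unfold IP
    congr 1; funext z
    simp only [PI4, F4, zero_mul, ofReal_zero, add_zero]
  rw [PhL_add] at t1
  have t2 : ∀ᶠ n in (U : Filter ℕ), ‖PhL v L (IP φ (fun k => w k n) (h n) v 0) -
      (PhL v L (fun a b c d => ∫ z, (φ z : ℂ) * GG' (MM m ea ν) a b c d z) +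
        PhL v L (fun a b c d => ep2 a b c d * x (a + b + c + d)))‖ < ε / 4 := by
    have := (t1.sub_const (PhL v L (fun a b c d => ∫ z, (φ z : ℂ) * GG' (MM m ea ν) a b c d z) +
        PhL v L (fun a b c d => ep2 a b c d * x (a + b + c + d)))).norm
    rw [sub_self, norm_zero] at this
    exact this.eventually (gt_mem_nhds (show (0 : ℝ) < ε / 4 by positivity))
  have t3 : ∀ᶠ n in (U : Filter ℕ), ∀ k ∈ Finset.Icc (-(L : ℤ)) L,
      ∫ z, χ z * ‖w k n z‖ ^ 4 ≤ C := by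
    rw [eventually_all_finset]
    exact fun k _ => hC k
  filter_upwards [hsm, t2, t3] with n h1 h2 h3
  have hin : ∀ τ ∈ Set.Icc (-1 : ℝ) 2, ∀ z ∈ tsupport φ, ∀ i,
      z + ((τ * h n : ℝ) : ℂ) * v i ∈ K1 := by
    intro τ hτ z hz i
    refine Metric.mem_cthickening_of_dist_le _ z δ _ hz ?_
    rw [dist_eq_norm, add_sub_cancel_left, norm_mul, norm_real, Real.norm_eq_abs, abs_mul]
    have : |τ| ≤ 2 := abs_le.2 ⟨by linarith [hτ.1], hτ.2⟩
    refine le_trans ?_ (h1 i)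
    exact mul_le_mul_of_nonneg_right (mul_le_mul_of_nonneg_right this (abs_nonneg _))
      (norm_nonneg _)
  have ty := IP_tayl (hL n) hφ (v := v) (fun τ hτ z hz i => hδB (hin τ hτ z hz i)) L C
    (fun τ hτ a b c d ha hb hc hd => by
      have hle : ∀ z i, |φ z| ≤ χ (z + ((τ * h n : ℝ) : ℂ) * v i) := by
        intro z i
        by_cases hz : z ∈ tsupport φ
        · have h4 := hin τ ⟨by linarith [hτ.1], by linarith [hτ.2]⟩ z hz i
          simp only [hχd]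
          rw [hχ1 _ h4, mul_one]
          exact (hMφ z hz).trans (le_abs_self _)
        · rw [image_eq_zero_of_notMem_tsupport hz, abs_zero]
          exact hχnn _
      have h4 := IP_bd (W := fun k => w k n) (fun k => (H.bd k).co n) hχ hle a b c d
      have m4 : ∀ k : ℤ, |k| ≤ L → ∫ z, χ z * ‖w k n z‖ ^ 4 ≤ C := fun k hk =>
        h3 k (by rw [Finset.mem_Icc]; exact abs_le.1 hk)
      have q1 := m4 a ha
      have q2 := m4 b hb
      have q3 := m4 c hc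
      have q4 := m4 d hd
      refine h4.trans ?_
      linarith)
  have n1 : ‖PhL v L (fun a b c d => ep2 a b c d * x (a + b + c + d))‖ ≤ (x 0).re + ε / 4 := by
    refine exc.trans ?_
    have := le_abs_self (x 0).re
    have hR : 0 ≤ RR v ^ L / (L.factorial : ℝ) * 2 := by
      have := RR_nn v
      positivity
    nlinarith [mul_le_mul_of_nonneg_left this hR]
  set A1 := IP φ (fun k => w k n) (h n) v 1 0 0 0 0
  set A2 := PhL v L (IP φ (fun k => w k n) (h n) v 0)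
  set A3 := PhL v L (fun a b c d => ∫ z, (φ z : ℂ) * GG' (MM m ea ν) a b c d z)
  set A4 := PhL v L (fun a b c d => ep2 a b c d * x (a + b + c + d))
  set A5 := ((∫ z, φ z * G4 m ν v z : ℝ) : ℂ)
  have e : A1 - A5 = (A1 - A2) + (A2 - (A3 + A4)) + (A3 - A5) + A4 := by ring
  rw [e]
  have := norm_add_le_of_le (norm_add_le_of_le (norm_add_le_of_le ty h2.le) hL3.le) n1
  linarith

/-- the sequence of solutions -/
theorem four_b [IsMarkovKernel ν] {B : Set ℂ} (hB : IsOpen B)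
    (hm : ∀ K : Set ℂ, IsCompact K → K ⊆ B → MemLp m 2 (volume.restrict K))
    (hp : ∀ᵐ z ∂(volume.restrict B), par ea (ν z) = 0) {h : ℕ → ℝ} {u : ℕ → ℂ → ℝ}
    (H : RawG B (fun _ => 1) h u (MM m ea ν)) (hb : ∀ K : Set ℂ, IsCompact K → K ⊆ B →
      ∃ C : ℝ, ∀ᶠ n in atTop, ∫ z in K, u n z ^ 4 ≤ C) {φ : ℂ → ℝ} (hφ : TF B φ)
    (hφ0 : ∀ z, 0 ≤ φ z) (v : Fin 4 → ℂ) {ε : ℝ} (hε : 0 < ε) :
    ∀ᶠ n in atTop, |(∫ z, φ z * (u n (z + (h n : ℂ) * v 0) * u n (z + (h n : ℂ) * v 1) *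
      u n (z + (h n : ℂ) * v 2) * u n (z + (h n : ℂ) * v 3))) - ∫ z, φ z * G4 m ν v z| ≤
      (∫ z, φ z * u n z ^ 4) - 3 * (∫ z, φ z * m z ^ 2) + ε := by
  have A := H.as hB (fun k => MM_ml ea_meas ea_norm hm k) (fun z => by rw [MM_0, conj_ofReal]) hb
  have hL : ∀ n, Lad B (fun k => ww (fun _ => 1) h (fun n z => (u n z : ℂ)) k n) (h n) := by
    intro n
    have sm : ∀ n, ContDiffOn ℝ ∞ (fun z => (u n z : ℂ)) B := fun n => cxa (H.sm n)
    have he : ∀ n, ∀ z ∈ B, (h n : ℂ) ^ 2 * lap (fun z => (u n z : ℂ)) z = - (u n z : ℂ) := by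
      intro n z hz
      rw [lap_re hB (H.sm n) hz]
      have h1 := H.eq n z hz
      have h2 : ((h n ^ 2 * ((1 : ℝ) ^ 2 * lap (u n) z) + u n z : ℝ) : ℂ) = 0 := by
        rw [h1]; simp
      push_cast at h2
      linear_combination h2
    exact ⟨fun k => (A.bd k).co n, fun k z v τ hz => lineD hB sm (fun n z => conj_ofReal _) he n k
      z v τ hz⟩
  obtain ⟨S, hS⟩ : ∃ S : Set ℕ, S = {n | ¬ |(∫ z, φ z * (u n (z + (h n : ℂ) * v 0) *
      u n (z + (h n : ℂ) * v 1) *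
      u n (z + (h n : ℂ) * v 2) * u n (z + (h n : ℂ) * v 3))) - ∫ z, φ z * G4 m ν v z| ≤
      (∫ z, φ z * u n z ^ 4) - 3 * (∫ z, φ z * m z ^ 2) + ε} := ⟨_, rfl⟩
  by_contra hcon
  rw [not_eventually] at hcon
  have hne : (atTop ⊓ 𝓟 S).NeBot := by
    rw [hS]; exact frequently_mem_iff_neBot.1 hcon
  obtain ⟨U, hU⟩ : ∃ U : Ultrafilter ℕ, (U : Filter ℕ) ≤ atTop ⊓ 𝓟 S :=
    ⟨Ultrafilter.of _, Ultrafilter.of_le _⟩
  have hU1 : (U : Filter ℕ) ≤ atTop := hU.trans inf_le_left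
  have hU2 : (U : Filter ℕ) ≤ 𝓟 S := hU.trans inf_le_right
  obtain ⟨x, hx⟩ := A.U4 hB hφ U hU1
  have h1 := four_u hB hm hp A hL hφ hφ0 v hU1 hx (show 0 < ε / 2 by positivity)
  have h2 := (Complex.continuous_re.tendsto _).comp (hx 0 0 0 0)
  have e0 : ∀ n, ∫ z, (φ z : ℂ) * F4 (ww (fun _ => 1) h (fun n z => (u n z : ℂ))) 0 0 0 0 n z =
      ((∫ z, φ z * u n z ^ 4 : ℝ) : ℂ) := by
    intro n
    rw [← integral_complex_ofReal]
    congr 1; funext z
    have : ww (fun _ => 1) h (fun n z => (u n z : ℂ)) 0 n z = (u n z : ℂ) := rfl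
    simp only [F4, this]
    push_cast; ring
  have e1 : ∫ z, (φ z : ℂ) * GG' (MM m ea ν) 0 0 0 0 z = ((3 * ∫ z, φ z * m z ^ 2 : ℝ) : ℂ) := by
    rw [← integral_const_mul, ← integral_complex_ofReal]
    congr 1; funext z
    have c0 : cc (MM m ea ν) 0 0 z = (m z : ℂ) := by
      rw [cc_C2]; simp [C2]
    simp only [GG', c0]
    push_cast; ring
  have e2 : ep2 0 0 0 0 = 1 := by simp [ep2, eps]
  simp only [Function.comp_def, e0, e1, e2, one_mul, add_zero, add_re, ofReal_re] at h2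
  have h3 : ∀ᶠ n in (U : Filter ℕ), (3 * ∫ z, φ z * m z ^ 2) + (x 0).re - ε / 2 <
      ∫ z, φ z * u n z ^ 4 :=
    h2.eventually (lt_mem_nhds (by linarith))
  have h4 : ∀ᶠ n in (U : Filter ℕ), n ∈ S := hU2 (mem_principal_self S)
  obtain ⟨n, a1, a2, a3⟩ := (h1.and (h3.and h4)).exists
  rw [hS] at a3
  apply a3
  have e3 : IP φ (fun k => ww (fun _ => 1) h (fun n z => (u n z : ℂ)) k n) (h n) v 1 0 0 0 0 =
      ((∫ z, φ z * (u n (z + (h n : ℂ) * v 0) * u n (z + (h n : ℂ) * v 1) *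
      u n (z + (h n : ℂ) * v 2) * u n (z + (h n : ℂ) * v 3)) : ℝ) : ℂ) := by
    rw [← integral_complex_ofReal]
    unfold IP
    congr 1; funext z
    have : ∀ z, ww (fun _ => 1) h (fun n z => (u n z : ℂ)) 0 n z = (u n z : ℂ) := fun _ => rfl
    simp only [PI4, this, one_mul]
    push_cast; ring
  rw [e3, ← ofReal_sub, norm_real, Real.norm_eq_abs] at a1
  linarith

end

end Pool.Agent.TH294.RG
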