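import Pool.Agent.TH294.RG.Sec

/-!
Project RG (helper294): asymptotics relative to the fourth moment; the power spectrum of `u²`.
-/

set_option autoImplicit false
open MeasureTheory Filter Topology Complex ProbabilityTheory
open scoped ContDiff ENNReal

namespace Pool.Agent.TH294.RG

open Pool.Agent.W745.RW Pool.Agent.TH294.RS

noncomputable section

/-- from sequences with bounded fourth moments to all sequences -/
theorem rel4 {Ω : Set ℂ} {a : ℂ → ℝ} {h : ℕ → ℝ} {u : ℕ → ℂ → ℝ} {M : ℕ → ℂ → ℂ}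
    (H : RawG Ω a h u M) {K : Set ℂ} (hK : IsCompact K) (hKΩ : K ⊆ Ω)
    (Φ : ℝ → (ℂ → ℝ) → ℂ) (G : ℂ)
    (hom : ∀ (t c : ℝ) (v : ℂ → ℝ), ContDiffOn ℝ ∞ v (interior K) →
      Φ t (fun z => c * v z) = (c : ℂ) ^ 4 * Φ t v)
    (b1 : ∀ (h' : ℕ → ℝ) (u' : ℕ → ℂ → ℝ), RawG (interior K) a h' u' M →
      (∀ K' : Set ℂ, IsCompact K' → K' ⊆ interior K → ∃ C : ℝ, ∀ᶠ n in atTop,
        ∫ z in K', u' n z ^ 4 ≤ C) → Tendsto (fun n => Φ (h' n) (u' n)) atTop (𝓝 G))
    (b0 : ∀ (h' : ℕ → ℝ) (u' : ℕ → ℂ → ℝ), RawG (interior K) a h' u' (fun _ _ => 0) →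
      (∀ K' : Set ℂ, IsCompact K' → K' ⊆ interior K → ∃ C : ℝ, ∀ᶠ n in atTop,
        ∫ z in K', u' n z ^ 4 ≤ C) → Tendsto (fun n => Φ (h' n) (u' n)) atTop (𝓝 0)) :
    Tendsto (fun n => ((1 + ∫ z in K, u n z ^ 4 : ℝ) : ℂ)⁻¹ * (Φ (h n) (u n) - G)) atTop
      (𝓝 0) := by
  set B : Set ℂ := interior K with hBdef
  have hB : IsOpen B := isOpen_interior
  have hBK : B ⊆ K := interior_subset
  have hBΩ : B ⊆ Ω := hBK.trans hKΩ
  have cu : ∀ n, ContinuousOn (fun z => u n z ^ 4) K := fun n =>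
    ((H.sm n).continuousOn.mono hKΩ).pow 4
  have T0 : ∀ n, 0 ≤ ∫ z in K, u n z ^ 4 := fun n => integral_nonneg fun z => by positivity
  have sub4 : ∀ n (K' : Set ℂ), K' ⊆ B → ∫ z in K', u n z ^ 4 ≤ ∫ z in K, u n z ^ 4 := by
    intro n K' hK'
    refine setIntegral_mono_set ((cu n).integrableOn_compact hK)
      (ae_of_all _ fun z => by positivity) ?_
    exact (hK'.trans hBK).eventuallyLE
  refine tendsto_of_subseq_tendsto fun ns hns => ?_
  have H1 := H.cmp hBΩ hns
  by_cases hbd : ∃ C : ℝ, ∃ᶠ n in atTop, ∫ z in K, u (ns n) z ^ 4 ≤ C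
  · obtain ⟨C, hC⟩ := hbd
    obtain ⟨τ, hτ, hτC⟩ := extraction_of_frequently_atTop hC
    refine ⟨τ, ?_⟩
    have H2 := H1.cmp (le_refl B) hτ.tendsto_atTop
    have key := b1 _ _ H2 fun K' _ hKB => ⟨C, Eventually.of_forall fun n =>
      (sub4 _ K' hKB).trans (hτC n)⟩
    have key2 := key.sub_const G
    rw [sub_self] at key2
    refine squeeze_zero_norm (fun n => ?_) (by simpa using key2.norm)
    rw [norm_mul, norm_inv, norm_real, Real.norm_eq_abs, abs_of_nonneg (by linarith [T0 (ns (τ n))])]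
    have h1 : (1 + ∫ z in K, u (ns (τ n)) z ^ 4)⁻¹ ≤ 1 :=
      inv_le_one_of_one_le₀ (by linarith [T0 (ns (τ n))])
    exact mul_le_of_le_one_left (norm_nonneg _) h1
  · push Not at hbd
    refine ⟨id, ?_⟩
    simp only [id]
    obtain ⟨T, hT⟩ : ∃ T : ℕ → ℝ, ∀ n, T n = 1 + ∫ z in K, u (ns n) z ^ 4 := ⟨_, fun _ => rfl⟩
    have T1 : ∀ n, 1 ≤ T n := fun n => by rw [hT]; linarith [T0 (ns n)]
    have Tlim : Tendsto T atTop atTop := by
      rw [tendsto_atTop]
      intro C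
      refine (hbd C).mono fun n hn => ?_
      rw [hT]; linarith
    obtain ⟨c, hc⟩ : ∃ c : ℕ → ℝ, ∀ n, c n = (T n) ^ (-(1 / 4 : ℝ)) := ⟨_, fun _ => rfl⟩
    have c4 : ∀ n, c n ^ 4 = (T n)⁻¹ := by
      intro n
      rw [hc, ← Real.rpow_natCast, ← Real.rpow_mul (by linarith [T1 n])]
      norm_num
      rw [Real.rpow_neg_one]
    have clim : Tendsto c atTop (𝓝 0) := by
      have := (tendsto_rpow_neg_atTop (show (0 : ℝ) < 1 / 4 by norm_num)).comp Tlim
      exact this.congr fun n => (hc n).symm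
    have H2 := H1.scale hB clim
    have key := b0 _ _ H2 fun K' hK' hKB => ⟨1,
      Eventually.of_forall fun n => by
        have e1 : ∀ z, (c n * u (ns n) z) ^ 4 = (T n)⁻¹ * u (ns n) z ^ 4 := by
          intro z; rw [mul_pow, c4]
        simp only [e1]
        rw [integral_const_mul, inv_mul_le_iff₀ (by linarith [T1 n]), mul_one, hT]
        have := sub4 (ns n) K' hKB
        linarith⟩
    have t0 : Tendsto (fun n => ((T n : ℝ) : ℂ)⁻¹ * (-G)) atTop (𝓝 0) := by
      have h1 : Tendsto (fun n => (((T n)⁻¹ : ℝ) : ℂ)) atTop (𝓝 0) := by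
        have h3 := (continuous_ofReal.tendsto _).comp (tendsto_inv_atTop_zero.comp Tlim)
        rw [ofReal_zero] at h3
        exact h3
      have h2 := h1.mul_const (-G)
      rw [zero_mul] at h2
      refine h2.congr fun n => ?_
      rw [ofReal_inv]
    have t1 := key.add t0
    rw [add_zero] at t1
    refine t1.congr fun n => ?_
    rw [← hT, hom (h (ns n)) (c n) (u (ns n)) (H1.sm n)]
    have e2 : (c n : ℂ) ^ 4 = ((T n : ℝ) : ℂ)⁻¹ := by
      have := c4 n
      rw [← ofReal_inv, ← this]; push_cast; rfl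
    rw [e2]
    ring

/-! ### the kernel form of the limit -/

variable {Y : Type*} [MeasurableSpace Y] {m : ℂ → ℝ} {e : Y → ℂ} {ν : Kernel ℂ Y}

/-- the angular integral of `F(2 - 2 cos β)² + F(2 + 2 cos β)²` -/
def ang (F : Polynomial ℝ) (e : Y → ℂ) (ν : Measure Y) : ℝ :=
  ∫ p, (F.eval (2 - 2 * qq e 1 p) ^ 2 + F.eval (2 + 2 * qq e 1 p) ^ 2) ∂(ν.prod ν)

lemma re_pow_arg {ζ : ℂ} (h1 : ‖ζ‖ = 1) (j : ℕ) : (ζ ^ j).re = Real.cos (j * Complex.arg ζ) := by
  have h2 : ζ = Complex.exp ((Complex.arg ζ : ℂ) * I) := by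
    have := Complex.norm_mul_exp_arg_mul_I ζ
    rw [h1] at this
    simpa using this.symm
  conv_lhs => rw [h2]
  rw [← Complex.exp_nat_mul]
  have e1 : (j : ℂ) * ((Complex.arg ζ : ℂ) * I) = (((j : ℝ) * Complex.arg ζ : ℝ) : ℂ) * I := by
    push_cast; ring
  rw [e1, Complex.exp_ofReal_mul_I_re]

lemma sym_sum {F : Polynomial ℝ} {c : ℕ →₀ ℝ}
    (hc : ∀ α, (c.sum fun m x => x * Real.cos (m * α)) = F.eval (2 - 2 * Real.cos α))
    {ζ : ℂ} (h1 : ‖ζ‖ = 1) :
    ∑ j ∈ c.support, c j * (ζ ^ j).re = F.eval (2 - 2 * ζ.re) := by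
  have h2 := hc (Complex.arg ζ)
  have h3 := re_pow_arg h1 1
  rw [pow_one, Nat.cast_one, one_mul] at h3
  rw [h3, ← h2]
  simp only [Finsupp.sum]
  refine Finset.sum_congr rfl fun j _ => ?_
  rw [re_pow_arg h1 j]

lemma ang_sum [IsMarkovKernel ν] (he : Measurable e) (h1 : ∀ y, ‖e y‖ = 1) {F : Polynomial ℝ}
    {c : ℕ →₀ ℝ}
    (hc : ∀ α, (c.sum fun m x => x * Real.cos (m * α)) = F.eval (2 - 2 * Real.cos α)) (z : ℂ) :
    ∑ j ∈ c.support, ∑ k ∈ c.support, c j * c k * pq (MM m e ν) j k z =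
      m z ^ 2 * (F.eval 0 ^ 2 + ang F e (ν z)) := by
  have s0 : ∑ j ∈ c.support, c j = F.eval 0 := by
    have := sym_sum hc (ζ := 1) (by simp)
    simpa using this
  have p0 : ∀ j k : ℕ, pq (MM m e ν) j k z = m z ^ 2 * (1 + ∫ p, (qq e j p * qq e k p +
      ((-1) ^ j * qq e j p) * ((-1) ^ k * qq e k p)) ∂((ν z).prod (ν z))) := by
    intro j k
    have e1 : (MM m e ν 0 z).re * (MM m e ν 0 z).re = m z ^ 2 := by
      rw [MM_0, ofReal_re]; ring
    have e2 : ∀ p : Y × Y, qq e j p * qq e k p + ((-1) ^ j * qq e j p) * ((-1) ^ k * qq e k p) =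
        if Even (j + k) then 2 * (qq e j p * qq e k p) else 0 := by
      intro p
      have h2 : ((-1 : ℝ)) ^ j * (-1) ^ k = if Even (j + k) then 1 else -1 := by
        rw [← pow_add]
        split_ifs with h
        · exact h.neg_one_pow
        · exact (Nat.not_even_iff_odd.1 h).neg_one_pow
      have h3 : ((-1) ^ j * qq e j p) * ((-1) ^ k * qq e k p) =
          ((-1 : ℝ) ^ j * (-1) ^ k) * (qq e j p * qq e k p) := by ring
      rw [h3, h2]
      split_ifs <;> ring
    simp only [e2]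
    simp only [pq]
    rw [e1, MM_ss]
    by_cases hjk : Even (j + k)
    · simp only [if_pos hjk]
      rw [cm_pair he h1 (ν z) j k]; ring
    · simp only [if_neg hjk, integral_zero]; ring
  have ii : ∀ j k : ℕ, Integrable (fun p => qq e j p * qq e k p +
      ((-1) ^ j * qq e j p) * ((-1) ^ k * qq e k p)) ((ν z).prod (ν z)) := by
    intro j k
    have m1 := (qq_meas he j).mul (qq_meas he k)
    have m2 := ((qq_meas he j).const_mul ((-1) ^ j)).mul ((qq_meas he k).const_mul ((-1) ^ k))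
    refine Integrable.of_bound (C := 2) (m1.add m2).aestronglyMeasurable (ae_of_all _ fun p => ?_)
    have b1 := qq_bd h1 j p
    have b2 := qq_bd h1 k p
    have b3 : |qq e j p * qq e k p| ≤ 1 := by
      rw [abs_mul]
      exact mul_le_one₀ b1 (abs_nonneg _) b2
    have b4 : |((-1) ^ j * qq e j p) * ((-1) ^ k * qq e k p)| ≤ 1 := by
      rw [abs_mul, abs_mul, abs_mul, abs_pow, abs_pow, abs_neg, abs_one, one_pow, one_pow, one_mul,
        one_mul]
      exact mul_le_one₀ b1 (abs_nonneg _) b2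
    rw [Real.norm_eq_abs]
    refine (abs_add_le _ _).trans ?_
    linarith
  have e3 : ang F e (ν z) = ∑ j ∈ c.support, ∑ k ∈ c.support, (c j * c k) *
      ∫ p, (qq e j p * qq e k p + ((-1) ^ j * qq e j p) * ((-1) ^ k * qq e k p))
        ∂((ν z).prod (ν z)) := by
    have e4 : ∀ p : Y × Y, F.eval (2 - 2 * qq e 1 p) ^ 2 + F.eval (2 + 2 * qq e 1 p) ^ 2 =
        ∑ j ∈ c.support, ∑ k ∈ c.support, (c j * c k) * (qq e j p * qq e k p +
          ((-1) ^ j * qq e j p) * ((-1) ^ k * qq e k p)) := by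
      intro p
      have hz := zn h1 p
      have hz2 : ‖-(e p.1 * (starRingEnd ℂ) (e p.2))‖ = 1 := by rw [norm_neg, hz]
      have a1 := sym_sum hc hz
      have a2 := sym_sum hc hz2
      have q1 : qq e 1 p = (e p.1 * (starRingEnd ℂ) (e p.2)).re := by
        simp [qq]
      rw [neg_re, ← q1] at a2
      rw [← q1] at a1
      have a3 : F.eval (2 + 2 * qq e 1 p) = ∑ j ∈ c.support, c j * ((-1) ^ j * qq e j p) := by
        rw [show 2 + 2 * qq e 1 p = 2 - 2 * -qq e 1 p by ring, ← a2]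
        refine Finset.sum_congr rfl fun j _ => ?_
        congr 1
        rw [neg_pow]
        unfold qq
        rcases Nat.even_or_odd j with hj | hj
        · rw [hj.neg_one_pow, hj.neg_one_pow]; simp
        · rw [hj.neg_one_pow, hj.neg_one_pow]; simp
      have a4 : F.eval (2 - 2 * qq e 1 p) = ∑ j ∈ c.support, c j * qq e j p := a1.symm
      rw [a3, a4, sq, sq, Finset.sum_mul_sum, Finset.sum_mul_sum, ← Finset.sum_add_distrib]
      refine Finset.sum_congr rfl fun j _ => ?_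
      rw [← Finset.sum_add_distrib]
      refine Finset.sum_congr rfl fun k _ => ?_
      ring
    unfold ang
    simp only [e4]
    rw [integral_finsetSum _ fun j _ => integrable_finsetSum _ fun k _ => (ii j k).const_mul _]
    refine Finset.sum_congr rfl fun j _ => ?_
    rw [integral_finsetSum _ fun k _ => (ii j k).const_mul _]
    refine Finset.sum_congr rfl fun k _ => ?_
    rw [integral_const_mul]
  rw [e3, ← s0, sq (∑ j ∈ c.support, c j), Finset.sum_mul_sum, ← Finset.sum_add_distrib,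
    Finset.mul_sum]
  refine Finset.sum_congr rfl fun j _ => ?_
  rw [← Finset.sum_add_distrib, Finset.mul_sum]
  refine Finset.sum_congr rfl fun k _ => ?_
  rw [p0]; ring

end

end Pool.Agent.TH294.RG
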