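import Pool.Agent.TH294.RG.Four
import Pool.Agent.TH294.RG.Rel

/-!
Project RG (helper294): four point functions relative to the fourth moment.
-/

set_option autoImplicit false
open MeasureTheory Filter Topology Complex ProbabilityTheory
open scoped ContDiff

namespace Pool.Agent.TH294.RG

open Pool.Agent.W745.RW Pool.Agent.TH294.RS

noncomputable section

variable {m : ℂ → ℝ} {ν : Kernel ℂ ℝ}

/-- **Four point functions.** -/
theorem four_rel [IsMarkovKernel ν] {Ω : Set ℂ}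
    (hm : ∀ K : Set ℂ, IsCompact K → K ⊆ Ω → MemLp m 2 (volume.restrict K))
    (hp : ∀ᵐ z ∂(volume.restrict Ω), par ea (ν z) = 0) {h : ℕ → ℝ} {u : ℕ → ℂ → ℝ}
    (H : RawG Ω (fun _ => 1) h u (MM m ea ν)) {K : Set ℂ} (hK : IsCompact K) (hKΩ : K ⊆ Ω)
    {φ : ℂ → ℝ} (hφ : TF (interior K) φ)
    (hφ0 : ∀ z, 0 ≤ φ z) (v : Fin 4 → ℂ) {ε : ℝ} (hε : 0 < ε) :
    ∀ᶠ n in atTop, |(∫ z, φ z * (u n (z + (h n : ℂ) * v 0) * u n (z + (h n : ℂ) * v 1) *
      u n (z + (h n : ℂ) * v 2) * u n (z + (h n : ℂ) * v 3))) - ∫ z, φ z * G4 m ν v z| ≤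
      (∫ z, φ z * u n z ^ 4) - 3 * (∫ z, φ z * m z ^ 2) + ε * (1 + ∫ z in K, u n z ^ 4) := by
  set B : Set ℂ := interior K with hBdef
  have hB : IsOpen B := isOpen_interior
  have hBK : B ⊆ K := interior_subset
  have hBΩ : B ⊆ Ω := hBK.trans hKΩ
  have hmB : ∀ K' : Set ℂ, IsCompact K' → K' ⊆ B → MemLp m 2 (volume.restrict K') :=
    fun K' hK' hKB => hm K' hK' (hKB.trans hBΩ)
  have hpB : ∀ᵐ z ∂(volume.restrict B), par ea (ν z) = 0 := ae_restrict_of_ae_restrict_of_subset hBΩ hp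
  have cu : ∀ n, ContinuousOn (fun z => u n z ^ 4) K := fun n =>
    ((H.sm n).continuousOn.mono hKΩ).pow 4
  have T0 : ∀ n, 0 ≤ ∫ z in K, u n z ^ 4 := fun n => integral_nonneg fun z => by positivity
  have sub4 : ∀ n (K' : Set ℂ), K' ⊆ B → ∫ z in K', u n z ^ 4 ≤ ∫ z in K, u n z ^ 4 := by
    intro n K' hK'
    refine setIntegral_mono_set ((cu n).integrableOn_compact hK)
      (ae_of_all _ fun z => by positivity) ?_
    exact (hK'.trans hBK).eventuallyLE
  by_contra hcon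
  rw [not_eventually] at hcon
  obtain ⟨ns, hns, hnsf⟩ := extraction_of_frequently_atTop hcon
  have H1 := H.cmp hBΩ hns.tendsto_atTop
  by_cases hbd : ∃ C : ℝ, ∃ᶠ n in atTop, ∫ z in K, u (ns n) z ^ 4 ≤ C
  · obtain ⟨C, hC⟩ := hbd
    obtain ⟨τ, hτ, hτC⟩ := extraction_of_frequently_atTop hC
    have H2 := H1.cmp (le_refl B) hτ.tendsto_atTop
    have key := four_b hB hmB hpB H2 (fun K' _ hKB => ⟨C, Eventually.of_forall fun n =>
      (sub4 _ K' hKB).trans (hτC n)⟩) hφ hφ0 v hε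
    obtain ⟨n, hn⟩ := key.exists
    apply hnsf (τ n)
    refine hn.trans ?_
    have := mul_nonneg hε.le (T0 (ns (τ n)))
    linarith
  · push Not at hbd
    obtain ⟨T, hT⟩ : ∃ T : ℕ → ℝ, ∀ n, T n = 1 + ∫ z in K, u (ns n) z ^ 4 := ⟨_, fun _ => rfl⟩
    have T1 : ∀ n, 1 ≤ T n := fun n => by rw [hT]; linarith [T0 (ns n)]
    have Tlim : Tendsto T atTop atTop := by
      rw [tendsto_atTop]
      intro C
      refine (hbd C).mono fun n hn => ?_
      rw [hT]; linarith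
    obtain ⟨c, hc⟩ : ∃ c : ℕ → ℝ, ∀ n, c n = (T n) ^ (-(1 / 4 : ℝ)) := ⟨_, fun _ => rfl⟩
    have c4 : ∀ n, c n ^ 4 = (T n)⁻¹ := by
      intro n
      rw [hc, ← Real.rpow_natCast, ← Real.rpow_mul (by linarith [T1 n])]
      norm_num
      rw [Real.rpow_neg_one]
    have clim : Tendsto c atTop (𝓝 0) := by
      have := (tendsto_rpow_neg_atTop (show (0 : ℝ) < 1 / 4 by norm_num)).comp Tlim
      exact this.congr fun n => (hc n).symm
    have H2 := H1.scale hB clim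
    have e0 : (fun (_ : ℕ) (_ : ℂ) => (0 : ℂ)) = MM (fun _ => 0) ea ν := by
      funext k z; simp [MM]
    rw [e0] at H2
    have key := four_b (m := fun _ => 0) hB (fun K' _ _ => MemLp.zero) hpB H2
      (fun K' hK' hKB => ⟨1, Eventually.of_forall fun n => by
        have e1 : ∀ z, (c n * u (ns n) z) ^ 4 = (T n)⁻¹ * u (ns n) z ^ 4 := by
          intro z; rw [mul_pow, c4]
        simp only [e1]
        rw [integral_const_mul, inv_mul_le_iff₀ (by linarith [T1 n]), mul_one, hT]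
        have := sub4 (ns n) K' hKB
        linarith⟩) hφ hφ0 v (show 0 < ε / 2 by positivity)
    have e1 : ∀ n, ∫ z, φ z * (c n * u (ns n) (z + (h (ns n) : ℂ) * v 0) *
        (c n * u (ns n) (z + (h (ns n) : ℂ) * v 1)) *
        (c n * u (ns n) (z + (h (ns n) : ℂ) * v 2)) *
        (c n * u (ns n) (z + (h (ns n) : ℂ) * v 3))) = (T n)⁻¹ *
        ∫ z, φ z * (u (ns n) (z + (h (ns n) : ℂ) * v 0) * u (ns n) (z + (h (ns n) : ℂ) * v 1) *
      u (ns n) (z + (h (ns n) : ℂ) * v 2) * u (ns n) (z + (h (ns n) : ℂ) * v 3)) := by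
      intro n
      rw [← integral_const_mul, ← c4]
      congr 1; funext z; ring
    have e2 : ∀ n, ∫ z, φ z * (c n * u (ns n) z) ^ 4 = (T n)⁻¹ * ∫ z, φ z * u (ns n) z ^ 4 := by
      intro n
      rw [← integral_const_mul, ← c4]
      congr 1; funext z; ring
    have e3 : ∫ z, φ z * G4 (fun _ => 0) ν v z = 0 := by simp [G4]
    have hlarge := Tlim.eventually (eventually_ge_atTop (2 / ε * (|∫ z, φ z * G4 m ν v z| +
      3 * |∫ z, φ z * m z ^ 2|)))
    obtain ⟨n, hn1, hn2⟩ := (key.and hlarge).exists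
    rw [e1, e2, e3] at hn1
    apply hnsf n
    rw [← hT]
    have Tn : 0 < T n := by linarith [T1 n]
    simp only [sub_zero, ne_eq, OfNat.ofNat_ne_zero, not_false_eq_true, zero_pow, mul_zero,
      integral_zero] at hn1
    rw [abs_mul, abs_of_pos (inv_pos.2 Tn)] at hn1
    have h5 := mul_le_mul_of_nonneg_left hn1 Tn.le
    have e5 : T n * ((T n)⁻¹ * |∫ z, φ z * (u (ns n) (z + (h (ns n) : ℂ) * v 0) *
      u (ns n) (z + (h (ns n) : ℂ) * v 1) *
      u (ns n) (z + (h (ns n) : ℂ) * v 2) * u (ns n) (z + (h (ns n) : ℂ) * v 3))|) =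
      |∫ z, φ z * (u (ns n) (z + (h (ns n) : ℂ) * v 0) *
      u (ns n) (z + (h (ns n) : ℂ) * v 1) *
      u (ns n) (z + (h (ns n) : ℂ) * v 2) * u (ns n) (z + (h (ns n) : ℂ) * v 3))| := by
      rw [← mul_assoc, mul_inv_cancel₀ Tn.ne', one_mul]
    have e6 : T n * ((T n)⁻¹ * (∫ z, φ z * u (ns n) z ^ 4) + ε / 2) =
      (∫ z, φ z * u (ns n) z ^ 4) + ε / 2 * T n := by
      field_simp
    rw [e5, e6] at h5
    have h6 := abs_sub (∫ z, φ z * (u (ns n) (z + (h (ns n) : ℂ) * v 0) *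
      u (ns n) (z + (h (ns n) : ℂ) * v 1) *
      u (ns n) (z + (h (ns n) : ℂ) * v 2) * u (ns n) (z + (h (ns n) : ℂ) * v 3)))
      (∫ z, φ z * G4 m ν v z)
    have h7 := le_abs_self (∫ z, φ z * m z ^ 2)
    have h8 : |∫ z, φ z * G4 m ν v z| + 3 * |∫ z, φ z * m z ^ 2| ≤ ε / 2 * T n := by
      have h9 := mul_le_mul_of_nonneg_left hn2 (show 0 ≤ ε / 2 by positivity)
      have e7 : ε / 2 * (2 / ε * (|∫ z, φ z * G4 m ν v z| + 3 * |∫ z, φ z * m z ^ 2|)) =
        |∫ z, φ z * G4 m ν v z| + 3 * |∫ z, φ z * m z ^ 2| := by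
        field_simp
      rw [e7] at h9
      exact h9
    linarith

end

end Pool.Agent.TH294.RG
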