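import Pool.Agent.TH294.RG.Ker
import Pool.Agent.TH294.RG.Sys
import Pool.Agent.TH294.RS.Main

/-!
Project RG (helper294): the lower bound for the fourth moment in terms of the semiclassical
measure.
-/

set_option autoImplicit false
open MeasureTheory Filter Topology Complex ProbabilityTheory
open scoped ContDiff ENNReal

namespace Pool.Agent.TH294.RG

open Pool.Agent.W745.RW Pool.Agent.TH294.RS

noncomputable section

variable {Y : Type*} [MeasurableSpace Y]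

/-- the moments of the semiclassical measure `m(z) ν_z dz` -/
def MM (m : ℂ → ℝ) (e : Y → ℂ) (ν : Kernel ℂ Y) (k : ℕ) (z : ℂ) : ℂ := (m z : ℂ) * cm e (ν z) k

/-- the density in the lower bound -/
def GD (m : ℂ → ℝ) (e : Y → ℂ) (ν : Kernel ℂ Y) (z : ℂ) : ℝ :=
  m z ^ 2 * (3 - 3 / 2 * par e (ν z))

lemma par_nn (e : Y → ℂ) (ν : Measure Y) : 0 ≤ par e ν := measureReal_nonneg
lemma par_le (e : Y → ℂ) (ν : Measure Y) [IsProbabilityMeasure ν] : par e ν ≤ 1 :=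
  measureReal_le_one

variable {m : ℂ → ℝ} {e : Y → ℂ} {ν : Kernel ℂ Y}

lemma GD_nn [IsMarkovKernel ν] (z : ℂ) : 0 ≤ GD m e ν z := by
  unfold GD
  have := par_le e (ν z)
  have h2 : 0 ≤ 3 - 3 / 2 * par e (ν z) := by linarith
  positivity

lemma cm_meas (he : Measurable e) (ν : Kernel ℂ Y) (k : ℕ) :
    StronglyMeasurable (fun z => cm e (ν z) k) :=
  StronglyMeasurable.integral_kernel (he.pow_const k).stronglyMeasurable

lemma par_meas [IsMarkovKernel ν] (he : Measurable e) : Measurable (fun z => par e (ν z)) := by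
  have h1 : Measurable (fun z => ((ν ×ₖ ν) z (PS e)).toReal) :=
    (Kernel.measurable_coe (ν ×ₖ ν) (PS_meas he)).ennreal_toReal
  have h2 : (fun z => par e (ν z)) = fun z => ((ν ×ₖ ν) z (PS e)).toReal := by
    funext z
    rw [Kernel.prod_apply]
    rfl
  rw [h2]
  exact h1

lemma bm {μ : Measure ℂ} {f b : ℂ → ℝ} (hf : MemLp f 2 μ) (hb : Measurable b) {C : ℝ}
    (hC : ∀ z, |b z| ≤ C) : MemLp (fun z => f z * b z) 2 μ := by
  refine hf.of_le_mul (c := C) (hf.aestronglyMeasurable.mul hb.aestronglyMeasurable)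
    (ae_of_all _ fun z => ?_)
  rw [norm_mul, mul_comm]
  exact mul_le_mul_of_nonneg_right (hC z) (norm_nonneg _)

lemma MM_ml [IsMarkovKernel ν] {B : Set ℂ} (he : Measurable e) (h1 : ∀ y, ‖e y‖ = 1)
    (hm : ∀ K : Set ℂ, IsCompact K → K ⊆ B → MemLp m 2 (volume.restrict K)) (k : ℕ) :
    ML B (MM m e ν k) := by
  intro K hK hKB
  have h2 := hm K hK hKB
  refine h2.of_le_mul (c := 1) ?_ (ae_of_all _ fun z => ?_)
  · exact (continuous_ofReal.comp_aestronglyMeasurable h2.aestronglyMeasurable).mul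
      (cm_meas he ν k).aestronglyMeasurable
  · simp only [MM]
    rw [norm_mul, norm_real, mul_comm]
    exact mul_le_mul_of_nonneg_right (cm_bd h1 _ k) (norm_nonneg _)

lemma MM_0 [IsMarkovKernel ν] (z : ℂ) : MM m e ν 0 z = (m z : ℂ) := by
  simp [MM, cm]

lemma MM_ss (j k : ℕ) (z : ℂ) : ss (MM m e ν) j k z = m z ^ 2 *
    (if Even (j + k) then ‖cm e (ν z) (j + k)‖ ^ 2 + ‖cm e (ν z) ((j : ℤ) - k).natAbs‖ ^ 2
      else 0) := by
  unfold ss
  split_ifs
  · simp only [MM, norm_mul, norm_real, mul_pow, Real.norm_eq_abs, sq_abs]; ring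
  · simp

lemma ss_int [IsMarkovKernel ν] {B : Set ℂ} (he : Measurable e) (h1 : ∀ y, ‖e y‖ = 1)
    (hm : ∀ K : Set ℂ, IsCompact K → K ⊆ B → MemLp m 2 (volume.restrict K)) {φ : ℂ → ℝ}
    (hφ : TF B φ) (j k : ℕ) : Integrable (fun z => φ z * ss (MM m e ν) j k z) := by
  have ml := fun k => MM_ml (ν := ν) he h1 hm k
  have i1 : Integrable (fun z => φ z * (‖MM m e ν (j + k) z‖ * ‖MM m e ν (j + k) z‖)) :=
    int2 hφ ((ml _).nn hφ) ((ml _).nn hφ)
  have i2 : Integrable (fun z => φ z * (‖MM m e ν ((j : ℤ) - k).natAbs z‖ *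
      ‖MM m e ν ((j : ℤ) - k).natAbs z‖)) := int2 hφ ((ml _).nn hφ) ((ml _).nn hφ)
  by_cases hjk : Even (j + k)
  · refine (i1.add i2).congr (ae_of_all _ fun z => ?_)
    simp only [Pi.add_apply, ss, if_pos hjk]; ring
  · simp only [ss, if_neg hjk, mul_zero]; exact integrable_zero _ _ _

/-- the sum of the correction terms -/
lemma SN_eq [IsMarkovKernel ν] {B : Set ℂ} (he : Measurable e) (h1 : ∀ y, ‖e y‖ = 1)
    (hm : ∀ K : Set ℂ, IsCompact K → K ⊆ B → MemLp m 2 (volume.restrict K)) {φ : ℂ → ℝ}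
    (hφ : TF B φ) (N : ℕ) :
    ((N : ℝ) ^ 2)⁻¹ * (∑ j ∈ Finset.Icc 1 N, ∑ k ∈ Finset.Icc 1 N,
      ∫ z, φ z * ss (MM m e ν) j k z) =
      ∫ z, φ z * (m z ^ 2 * ∫ p, KN e N p ∂((ν z).prod (ν z))) := by
  have iss := fun j k => ss_int (ν := ν) he h1 hm hφ j k
  have e1 : ∀ j ∈ Finset.Icc 1 N, ∑ k ∈ Finset.Icc 1 N, ∫ z, φ z * ss (MM m e ν) j k z =
      ∫ z, ∑ k ∈ Finset.Icc 1 N, φ z * ss (MM m e ν) j k z := fun j _ =>
    (integral_finsetSum _ fun k _ => iss j k).symm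
  rw [Finset.sum_congr rfl e1, ← integral_finsetSum _ (fun j _ => integrable_finsetSum _
    fun k _ => iss j k), ← integral_const_mul]
  congr 1; funext z
  rw [← cm_sum he h1 (ν z) N]
  simp only [MM_ss, Finset.mul_sum]
  refine Finset.sum_congr rfl fun j _ => Finset.sum_congr rfl fun k _ => ?_
  ring

lemma SN_lim [IsMarkovKernel ν] {B : Set ℂ} (he : Measurable e) (h1 : ∀ y, ‖e y‖ = 1)
    (hm : ∀ K : Set ℂ, IsCompact K → K ⊆ B → MemLp m 2 (volume.restrict K)) {φ : ℂ → ℝ}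
    (hφ : TF B φ) :
    Tendsto (fun N : ℕ => ((N : ℝ) ^ 2)⁻¹ * (∑ j ∈ Finset.Icc 1 N, ∑ k ∈ Finset.Icc 1 N,
      ∫ z, φ z * ss (MM m e ν) j k z)) atTop (𝓝 (∫ z, φ z * (m z ^ 2 * par e (ν z)))) := by
  simp only [SN_eq (ν := ν) he h1 hm hφ]
  have mm := hm _ hφ.2.1 hφ.2.2
  have im : Integrable (fun z => φ z * (m z * m z)) := int2 hφ mm mm
  refine tendsto_integral_of_dominated_convergence (fun z => 2 * ‖φ z * (m z * m z)‖) ?_
    (im.norm.const_mul 2) ?_ ?_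
  · intro N
    have h2 : Measurable (fun z => ∫ p, KN e N p ∂((ν z).prod (ν z))) := by
      simp only [← cm_sum he h1]
      refine Measurable.const_mul ?_ _
      refine Finset.measurable_fun_sum _ fun j _ => Finset.measurable_fun_sum _ fun k _ => ?_
      by_cases hjk : Even (j + k)
      · simp only [if_pos hjk]
        exact ((cm_meas he ν _).measurable.norm.pow_const 2).add
          ((cm_meas he ν _).measurable.norm.pow_const 2)
      · simp only [if_neg hjk]; exact measurable_const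
    refine (im.aestronglyMeasurable.mul h2.aestronglyMeasurable).congr (ae_of_all _ fun z => ?_)
    show φ z * (m z * m z) * (∫ p, KN e N p ∂((ν z).prod (ν z))) = _
    ring
  · intro N
    refine ae_of_all _ fun z => ?_
    have h3 := KN_int_bd h1 (ν z) N
    have e1 : φ z * (m z ^ 2 * ∫ p, KN e N p ∂((ν z).prod (ν z))) =
        (∫ p, KN e N p ∂((ν z).prod (ν z))) * (φ z * (m z * m z)) := by ring
    rw [e1, norm_mul]
    exact mul_le_mul_of_nonneg_right h3 (norm_nonneg _)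
  · refine ae_of_all _ fun z => ?_
    exact ((KN_int_lim he h1 (ν z)).const_mul _).const_mul _

/-- **The lower bound** in terms of the semiclassical measure -/
theorem AG.lowm [IsMarkovKernel ν] {B : Set ℂ} {a : ℂ → ℝ} {h : ℕ → ℝ} {w : ℤ → ℕ → ℂ → ℂ}
    (he : Measurable e) (h1 : ∀ y, ‖e y‖ = 1)
    (hm : ∀ K : Set ℂ, IsCompact K → K ⊆ B → MemLp m 2 (volume.restrict K))
    (H : AG B a h w (MM m e ν)) (hB : IsOpen B) {φ : ℂ → ℝ} (hφ : TF B φ) (hφ0 : ∀ z, 0 ≤ φ z)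
    {ε : ℝ} (hε : 0 < ε) :
    ∀ᶠ n in atTop, (∫ z, φ z * GD m e ν z) - ε ≤ ∫ z, φ z * (w 0 n z).re ^ 4 := by
  have mm := hm _ hφ.2.1 hφ.2.2
  have im : Integrable (fun z => φ z * (m z * m z)) := int2 hφ mm mm
  have ip : Integrable (fun z => φ z * (m z ^ 2 * par e (ν z))) := by
    have := int2 hφ mm (bm mm (par_meas (ν := ν) he) (C := 1) fun z => by
      rw [abs_of_nonneg (par_nn _ _)]; exact par_le e (ν z))
    refine this.congr (ae_of_all _ fun z => ?_)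
    show φ z * (m z * (m z * par e (ν z))) = _
    ring
  have e1 : ∫ z, φ z * GD m e ν z = 3 * (∫ z, φ z * (m z * m z)) -
      3 / 2 * ∫ z, φ z * (m z ^ 2 * par e (ν z)) := by
    rw [← integral_const_mul, ← integral_const_mul, ← integral_sub (im.const_mul _)
      (ip.const_mul _)]
    congr 1; funext z; unfold GD; ring
  have t := SN_lim (ν := ν) he h1 hm hφ
  have t2 := (t.eventually (gt_mem_nhds (show (∫ z, φ z * (m z ^ 2 * par e (ν z))) <
    (∫ z, φ z * (m z ^ 2 * par e (ν z))) + ε / 3 by linarith))).and (eventually_ge_atTop 1)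
  obtain ⟨N, hN, hN1⟩ := t2.exists
  have low := H.low hB hφ hφ0 hN1 (show 0 < ε / 2 by positivity)
  refine low.mono fun n hn => ?_
  refine le_trans ?_ hn
  have e2 : ∫ z, φ z * ((MM m e ν 0 z).re * (MM m e ν 0 z).re) = ∫ z, φ z * (m z * m z) := by
    congr 1; funext z; rw [MM_0, ofReal_re]
  rw [e1, e2, mul_assoc (3 / 2 : ℝ)]
  linarith

/-- sequences of solutions of `h² a² Δu + u = 0` on `Ω` with given semiclassical limits -/
structure RawG (Ω : Set ℂ) (a : ℂ → ℝ) (h : ℕ → ℝ) (u : ℕ → ℂ → ℝ) (M : ℕ → ℂ → ℂ) : Prop where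
  hpos : ∀ n, 0 < h n
  hlim : Tendsto h atTop (𝓝 0)
  sa : ContDiffOn ℝ ∞ a Ω
  pa : ∀ z ∈ Ω, 0 < a z
  sm : ∀ n, ContDiffOn ℝ ∞ (u n) Ω
  eq : ∀ n, ∀ z ∈ Ω, (h n) ^ 2 * (a z ^ 2 * lap (u n) z) + u n z = 0
  qe : ∀ φ, TF Ω φ → ∀ k : ℕ, Tendsto (fun n => ∫ z, (φ z : ℂ) * ((u n z : ℂ) *
    (DP a (h n))^[k] (fun w => (u n w : ℂ)) z)) atTop (𝓝 (∫ z, (φ z : ℂ) * M k z))

lemma RawG.sub {Ω B : Set ℂ} {a : ℂ → ℝ} {h : ℕ → ℝ} {u : ℕ → ℂ → ℝ} {M : ℕ → ℂ → ℂ}
    (H : RawG Ω a h u M) (hB : B ⊆ Ω) {σ : ℕ → ℕ} (hσ : StrictMono σ) :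
    RawG B a (fun n => h (σ n)) (fun n => u (σ n)) M :=
  ⟨fun _ => H.hpos _, H.hlim.comp hσ.tendsto_atTop, H.sa.mono hB, fun z hz => H.pa z (hB hz),
    fun _ => (H.sm _).mono hB, fun _ z hz => H.eq _ z (hB hz), fun φ hφ k =>
    (H.qe φ ⟨hφ.1, hφ.2.1, hφ.2.2.trans hB⟩ k).comp hσ.tendsto_atTop⟩

/-- the approximate ladder system of a sequence with bounded fourth moments -/
theorem RawG.as {B : Set ℂ} (hB : IsOpen B) {a : ℂ → ℝ} {h : ℕ → ℝ} {u : ℕ → ℂ → ℝ}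
    {M : ℕ → ℂ → ℂ} (H : RawG B a h u M) (ml : ∀ k, ML B (M k))
    (m0 : ∀ z, (starRingEnd ℂ) (M 0 z) = M 0 z)
    (hb : ∀ K : Set ℂ, IsCompact K → K ⊆ B →
      ∃ C : ℝ, ∀ᶠ n in atTop, ∫ z in K, u n z ^ 4 ≤ C) :
    AG B a h (ww a h (fun n z => (u n z : ℂ))) M := by
  have sm : ∀ n, ContDiffOn ℝ ∞ (fun z => (u n z : ℂ)) B := fun n => cxa (H.sm n)
  refine mkAG hB H.hpos H.hlim H.sa H.pa (fun n z => conj_ofReal _) ⟨sm, fun K hK hKB => ?_⟩
    (fun n z hz => ?_) ml m0 (fun k => ?_)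
  · obtain ⟨C, hC⟩ := hb K hK hKB
    refine ⟨C, hC.mono fun n hn => ?_⟩
    refine le_trans (le_of_eq ?_) hn
    refine setIntegral_congr_fun hK.measurableSet fun z _ => ?_
    simp only [Complex.norm_real, Real.norm_eq_abs]
    rw [Even.pow_abs (by decide)]
  · rw [lap_re hB (H.sm n) hz]
    have h1 := H.eq n z hz
    have h2 : ((h n ^ 2 * (a z ^ 2 * lap (u n) z) + u n z : ℝ) : ℂ) = 0 := by rw [h1]; simp
    push_cast at h2
    linear_combination h2
  · have hco : ∀ n, ContinuousOn (fun z => (u n z : ℂ) *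
        (DP a (h n))^[k] (fun w => (u n w : ℂ)) z) B := fun n =>
      (sm n).continuousOn.mul (DPk_sm hB H.sa (h n) (sm n) k).continuousOn
    exact ⟨hco, fun φ hφ => H.qe φ hφ k⟩

/-- the lower bound under bounded fourth moments -/
theorem RawG.low [IsMarkovKernel ν] {B : Set ℂ} (hB : IsOpen B) {a : ℂ → ℝ} {h : ℕ → ℝ}
    {u : ℕ → ℂ → ℝ} (he : Measurable e) (h1 : ∀ y, ‖e y‖ = 1)
    (hm : ∀ K : Set ℂ, IsCompact K → K ⊆ B → MemLp m 2 (volume.restrict K))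
    (H : RawG B a h u (MM m e ν)) (hb : ∀ K : Set ℂ, IsCompact K → K ⊆ B →
      ∃ C : ℝ, ∀ᶠ n in atTop, ∫ z in K, u n z ^ 4 ≤ C) {φ : ℂ → ℝ} (hφ : TF B φ)
    (hφ0 : ∀ z, 0 ≤ φ z) {ε : ℝ} (hε : 0 < ε) :
    ∀ᶠ n in atTop, (∫ z, φ z * GD m e ν z) - ε ≤ ∫ z, φ z * u n z ^ 4 := by
  have h2 := AG.lowm he h1 hm (H.as hB (fun k => MM_ml he h1 hm k)
    (fun z => by rw [MM_0, conj_ofReal]) hb) hB hφ hφ0 hε
  refine h2.mono fun n hn => ?_
  have e : ∀ z, (ww a h (fun n z => (u n z : ℂ)) 0 n z).re = u n z := by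
    intro z
    have : ww a h (fun n z => (u n z : ℂ)) 0 n z = (u n z : ℂ) := rfl
    rw [this, ofReal_re]
  simpa only [e] using hn

/-- local integrability of the density -/
lemma GD_loc [IsMarkovKernel ν] {B : Set ℂ} (he : Measurable e)
    (hm : ∀ K : Set ℂ, IsCompact K → K ⊆ B → MemLp m 2 (volume.restrict K)) {K : Set ℂ}
    (hK : IsCompact K) (hKB : K ⊆ B) : IntegrableOn (GD m e ν) K := by
  have mm := hm _ hK hKB
  have hb : MemLp (fun z => m z * (3 - 3 / 2 * par e (ν z))) 2 (volume.restrict K) :=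
    bm mm (measurable_const.sub ((par_meas (ν := ν) he).const_mul _)) (C := 3) fun z => by
      have a1 := par_nn e (ν z)
      have a2 := par_le e (ν z)
      rw [abs_of_nonneg (by linarith)]
      linarith
  refine (mm.integrable_mul hb).congr (ae_of_all _ fun z => ?_)
  show m z * (m z * (3 - 3 / 2 * par e (ν z))) = GD m e ν z
  unfold GD; ring

/-- **The lower bound for all test functions.** -/
theorem RawG.main [IsMarkovKernel ν] {Ω : Set ℂ} (hΩ : IsOpen Ω) {a : ℂ → ℝ} {h : ℕ → ℝ}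
    {u : ℕ → ℂ → ℝ} (he : Measurable e) (h1 : ∀ y, ‖e y‖ = 1)
    (hm : ∀ K : Set ℂ, IsCompact K → K ⊆ Ω → MemLp m 2 (volume.restrict K))
    (H : RawG Ω a h u (MM m e ν)) {ψ : ℂ → ℝ} (hψ : TF Ω ψ) (hψ0 : ∀ z, 0 ≤ ψ z) {ε : ℝ}
    (hε : 0 < ε) :
    ∀ᶠ n in atTop, (∫ z, ψ z * GD m e ν z) - ε ≤ ∫ z, ψ z * u n z ^ 4 := by
  by_contra hcon
  rw [not_eventually] at hcon
  obtain ⟨σ, hσ, hσ'⟩ := extraction_of_frequently_atTop hcon
  set M : ℝ := (∫ z, ψ z * GD m e ν z) - ε with hM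
  have hσM : ∀ n, ∫ z, ψ z * u (σ n) z ^ 4 < M := fun n => not_le.1 (hσ' n)
  set B : Set ℂ := {z | 0 < ψ z} with hBdef
  have hB : IsOpen B := isOpen_lt continuous_const hψ.1.continuous
  have hBΩ : B ⊆ Ω := by
    intro z hz
    apply hψ.2.2
    apply subset_tsupport
    exact (ne_of_gt hz : ψ z ≠ 0)
  have HB := H.sub hBΩ hσ
  have hint : ∀ n, Integrable (fun z => ψ z * u (σ n) z ^ 4) := fun n =>
    Pool.Agent.W311.RW.int_mul hΩ hψ ((H.sm (σ n)).continuousOn.pow 4)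
  have hnn : ∀ n z, 0 ≤ ψ z * u (σ n) z ^ 4 := fun n z => mul_nonneg (hψ0 z) (by positivity)
  have hb : ∀ K : Set ℂ, IsCompact K → K ⊆ B →
      ∃ C : ℝ, ∀ᶠ n in atTop, ∫ z in K, u (σ n) z ^ 4 ≤ C := by
    intro K hK hKB
    obtain ⟨c, hc, hc'⟩ : ∃ c : ℝ, 0 < c ∧ ∀ z ∈ K, c ≤ ψ z := by
      by_cases hne : K.Nonempty
      · obtain ⟨z0, hz0, hmin⟩ := hK.exists_isMinOn hne hψ.1.continuous.continuousOn
        exact ⟨ψ z0, hKB hz0, fun z hz => hmin hz⟩
      · exact ⟨1, one_pos, fun z hz => absurd ⟨z, hz⟩ hne⟩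
    refine ⟨c⁻¹ * M, Eventually.of_forall fun n => ?_⟩
    have c1 : ContinuousOn (fun z => u (σ n) z ^ 4) K :=
      ((H.sm (σ n)).continuousOn.pow 4).mono (hKB.trans hBΩ)
    have c2 : ContinuousOn (fun z => ψ z * u (σ n) z ^ 4) K :=
      hψ.1.continuous.continuousOn.mul c1
    refine (intK_c hK (by positivity : (0:ℝ) ≤ c⁻¹) c1 c2 (fun z hz => ?_)
      ((setIntegral_le_integral (hint n) (ae_of_all _ (hnn n))).trans (hσM n).le))
    have h1 := hc' z hz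
    have h2 : 0 ≤ u (σ n) z ^ 4 := by positivity
    rw [inv_mul_eq_div, le_div_iff₀ hc]
    nlinarith
  -- the truncation
  have gK := GD_loc (ν := ν) he hm hψ.2.1 hψ.2.2
  set V : ℝ := ∫ z in tsupport ψ, GD m e ν z with hV
  have hV0 : 0 ≤ V := integral_nonneg fun z => GD_nn z
  set δ : ℝ := ε / (4 * (V + 1)) with hδdef
  have hδ : 0 < δ := by positivity
  obtain ⟨φ, hφ, hφ0, hφψ, hdiff⟩ := trunc hψ hψ0 hδ
  have hφΩ : TF Ω φ := ⟨hφ.1, hφ.2.1, hφ.2.2.trans hBΩ⟩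
  have gi : ∀ {χ : ℂ → ℝ}, TF Ω χ → Integrable (fun z => χ z * GD m e ν z) := by
    intro χ hχ
    obtain ⟨C, hC⟩ := hχ.2.1.exists_bound_of_continuousOn hχ.1.continuous.continuousOn
    have h1 : IntegrableOn (fun z => χ z * GD m e ν z) (tsupport χ) := by
      refine Integrable.bdd_mul (c := C) (GD_loc (ν := ν) he hm hχ.2.1 hχ.2.2)
        (hχ.1.continuous.aestronglyMeasurable) ?_
      exact (ae_restrict_mem hχ.2.1.measurableSet).mono fun z hz => hC z hz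
    rw [← integrableOn_iff_integrable_of_support_subset (s := tsupport χ)]
    · exact h1
    · intro z hz
      apply subset_tsupport
      intro h0
      apply hz
      simp [h0]
  have h2 : (∫ z, ψ z * GD m e ν z) - ∫ z, φ z * GD m e ν z ≤ 2 * δ * V := by
    rw [← integral_sub (gi hψ) (gi hφΩ), hV, ← integral_const_mul,
      ← integral_indicator hψ.2.1.measurableSet]
    refine integral_mono ((gi hψ).sub (gi hφΩ)) ((integrable_indicator_iff
      hψ.2.1.measurableSet).2 (gK.const_mul _)) fun z => ?_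
    show ψ z * GD m e ν z - φ z * GD m e ν z ≤ (tsupport ψ).indicator
      (fun z => 2 * δ * GD m e ν z) z
    have h3 := mul_le_mul_of_nonneg_right (hdiff z) (GD_nn (m := m) (e := e) (ν := ν) z)
    by_cases hz : z ∈ tsupport ψ
    · rw [Set.indicator_of_mem hz] at h3 ⊢
      linarith
    · rw [Set.indicator_of_notMem hz] at h3 ⊢
      linarith
  have h3 : 2 * δ * V ≤ ε / 2 := by
    have h3 : δ * (4 * (V + 1)) = ε := by
      rw [hδdef]; field_simp
    nlinarith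
  have h4 := RawG.low hB he h1 (fun K hK hKB => hm K hK (hKB.trans hBΩ)) HB hb hφ hφ0
    (show 0 < ε / 4 by positivity)
  obtain ⟨n, hn⟩ := h4.exists
  have h5 : ∫ z, φ z * u (σ n) z ^ 4 ≤ ∫ z, ψ z * u (σ n) z ^ 4 := by
    refine integral_mono_of_nonneg (ae_of_all _ fun z => mul_nonneg (hφ0 z) (by positivity))
      (hint n) (ae_of_all _ fun z => ?_)
    exact mul_le_mul_of_nonneg_right (hφψ z) (by positivity)
  have h6 := hσM n
  rw [hM] at h6
  linarith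

end

end Pool.Agent.TH294.RG
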