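import Pool.Agent.TH294.RG.Th3

/-!
Project RG (helper294): joint third order moments `w_i w_j g`, the relations.
-/

set_option autoImplicit false
open MeasureTheory Filter Topology Complex
open scoped ContDiff

namespace Pool.Agent.TH294.RG

open Pool.Agent.W745.RW Pool.Agent.TH294.RS

noncomputable section

variable {B : Set ℂ} {a : ℂ → ℝ} {h : ℕ → ℝ} {w : ℤ → ℕ → ℂ → ℂ} {M : ℕ → ℂ → ℂ}

/-- multiplication by a convergent sequence -/
lemma LB.cv {p : ℕ} {f : ℕ → ℂ → ℂ} (hf : LB B p f) {q : ℕ → ℝ} {R : ℝ}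
    (hq : Tendsto q atTop (𝓝 R)) : LB B p (fun n z => (q n : ℂ) * f n z) := by
  have h0 : Tendsto (fun n => q n - R) atTop (𝓝 0) := by
    have := hq.sub_const R
    rwa [sub_self] at this
  refine ((hf.hmul h0).add (hf.cmul (R : ℂ))).congr fun n z _ => ?_
  push_cast; ring

/-- the second sequence: solutions of `h² a² Δ g + q_n g = 0`, `q_n → R` -/
structure GS (B : Set ℂ) (a : ℂ → ℝ) (h q : ℕ → ℝ) (R : ℝ) (G : ℕ → ℂ → ℂ) : Prop where
  lb : LB B 2 G
  qR : Tendsto q atTop (𝓝 R)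
  eq : ∀ n, ∀ z ∈ B, (h n : ℂ) ^ 2 * ((a z : ℂ) ^ 2 * lap (G n) z) = - ((q n : ℂ) * G n z)

/-- its derivative is bounded in `L²` -/
lemma GS.lb1 (hB : IsOpen B) (hp : ∀ n, 0 < h n) (hh : Tendsto h atTop (𝓝 0))
    (ha : ContDiffOn ℝ ∞ a B) (hpa : ∀ z ∈ B, 0 < a z) {q : ℕ → ℝ} {R : ℝ} {G : ℕ → ℂ → ℂ}
    (H : GS B a h q R G) : LB B 2 (fun n z => DP a (h n) (G n) z) := by
  have ha2 : ContDiffOn ℝ ∞ (fun z => ((a z : ℂ) ^ 2)⁻¹) B := by
    refine ContDiffOn.inv ((cxa ha).pow 2) fun z hz => ?_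
    have := (hpa z hz).ne'
    exact pow_ne_zero 2 (by exact_mod_cast this)
  have hl : LB B 2 (hL h G) := by
    refine (((LB.cv H.lb H.qR).smulc ha2).cmul (-1)).congr fun n z hz => ?_
    have h1 := H.eq n z hz
    have h2 : (a z : ℂ) ^ 2 ≠ 0 := pow_ne_zero 2 (by exact_mod_cast (hpa z hz).ne')
    have h4 : ((a z : ℂ) ^ 2)⁻¹ * (a z : ℂ) ^ 2 = 1 := inv_mul_cancel₀ h2
    simp only [hL]
    linear_combination (((a z : ℂ) ^ 2)⁻¹) * h1 - ((h n : ℂ) ^ 2 * lap (G n) z) * h4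
  have k : MK2 B h 1 G := ⟨H.lb, LB.grad2 hB hp hh H.lb hl dir1, LB.grad2 hB hp hh H.lb hl dirI⟩
  exact k.sP hB hh ha

/-- first relation -/
lemma AG.jc (H : AG B a h w M) (hB : IsOpen B) {q : ℕ → ℝ} {R : ℝ} {G : ℕ → ℂ → ℂ}
    (HG : GS B a h q R G) (i j : ℤ) :
    WN B (fun n z => w (i + 1) n z * w j n z * G n z + w i n z * w (j + 1) n z * G n z +
      w i n z * w j n z * DP a (h n) (G n) z) := by
  obtain ⟨e1, he1, g1⟩ := H.up i
  obtain ⟨e2, he2, g2⟩ := H.up j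
  have l1 : LB B 1 (fun n z => (w i n z * w j n z) * G n z) :=
    ((H.bd i).mul4 (H.bd j)).mul2 HG.lb
  have l2 : LB B 1 (fun n z => (e1 n z * w j n z) * G n z + (w i n z * e2 n z) * G n z) :=
    ((he1.mul4 (H.bd j)).mul2 HG.lb).add (((H.bd i).mul4 he2).mul2 HG.lb)
  refine ((l1.wnP hB H.hlim H.sa).sub (l2.wn H.hlim)).congr fun n z hz => ?_
  have c1 := g1 n z hz
  have c2 := g2 n z hz
  have d1 := da hB ((H.bd i).sm n) hz
  have d2 := da hB ((H.bd j).sm n) hz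
  have d3 := da hB (HG.lb.sm n) hz
  simp only [DP] at c1 c2 ⊢
  rw [dd_mul (f := fun z => w i n z * w j n z) (g := fun z => G n z) (d1.mul d2) d3,
    dd_mul d1 d2]
  linear_combination (-(w j n z * G n z)) * c1 - (w i n z * G n z) * c2

/-- second relation -/
lemma AG.jc' (H : AG B a h w M) (hB : IsOpen B) {q : ℕ → ℝ} {R : ℝ} {G : ℕ → ℂ → ℂ}
    (HG : GS B a h q R G) (i j : ℤ) :
    WN B (fun n z => w (i - 1) n z * w j n z * DP a (h n) (G n) z +
      w i n z * w (j - 1) n z * DP a (h n) (G n) z +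
      (R : ℂ) * (w i n z * w j n z * G n z)) := by
  obtain ⟨e1, he1, g1⟩ := H.dn i
  obtain ⟨e2, he2, g2⟩ := H.dn j
  have G1 := HG.lb1 hB H.hpos H.hlim H.sa H.pa
  have l1 : LB B 1 (fun n z => (w i n z * w j n z) * DP a (h n) (G n) z) :=
    ((H.bd i).mul4 (H.bd j)).mul2 G1
  have l2 : LB B 1 (fun n z => (e1 n z * w j n z) * DP a (h n) (G n) z +
      (w i n z * e2 n z) * DP a (h n) (G n) z +
      (w i n z * w j n z) * (ab a z * DP a (h n) (G n) z)) :=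
    (((he1.mul4 (H.bd j)).mul2 G1).add (((H.bd i).mul4 he2).mul2 G1)).add
      (((H.bd i).mul4 (H.bd j)).mul2 (G1.smulc (ab_sm hB H.sa)))
  have l3 : LB B 1 (fun n z => (w i n z * w j n z) * G n z) :=
    ((H.bd i).mul4 (H.bd j)).mul2 HG.lb
  have h0 : Tendsto (fun n => q n - R) atTop (𝓝 0) := by
    have := HG.qR.sub_const R
    rwa [sub_self] at this
  refine (((l2.wn H.hlim).sub (l1.wnM hB H.hlim H.sa)).sub (l3.wn h0)).congr fun n z hz => ?_
  have c1 := g1 n z hz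
  have c2 := g2 n z hz
  have sG : ContDiffOn ℝ ∞ (G n) B := HG.lb.sm n
  have c3 : DM a (h n) (DP a (h n) (G n)) z = _ := MP hB H.sa (h n) sG hz
  rw [HG.eq n z hz] at c3
  have d1 := da hB ((H.bd i).sm n) hz
  have d2 := da hB ((H.bd j).sm n) hz
  have d3 : DifferentiableAt ℝ (DP a (h n) (G n)) z := da hB (G1.sm n) hz
  obtain ⟨P, hP⟩ : ∃ P : ℂ → ℂ, P = DP a (h n) (G n) := ⟨_, rfl⟩
  rw [← hP] at d3
  have e : (fun z => w i n z * w j n z * DP a (h n) (G n) z) =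
      fun z => (w i n z * w j n z) * P z := by rw [hP]
  have eP : DP a (h n) (G n) z = P z := by rw [hP]
  rw [e, eP]
  rw [← hP] at c3
  simp only [DM] at c1 c2 c3 ⊢
  rw [db_mul (f := fun z => w i n z * w j n z) (g := P) (d1.mul d2) d3, db_mul d1 d2]
  push_cast
  linear_combination (w j n z * P z) * c1 + (w i n z * P z) * c2 + (w i n z * w j n z) * c3

/-- joint moments -/
def jm (w : ℤ → ℕ → ℂ → ℂ) (G : ℕ → ℂ → ℂ) (φ : ℂ → ℝ) (i j : ℤ) (n : ℕ) : ℂ :=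
  ∫ z, (φ z : ℂ) * (w i n z * w j n z * G n z)

lemma jm_int (H : AG B a h w M) {G : ℕ → ℂ → ℂ} (hG : ∀ n, ContinuousOn (G n) B) {φ : ℂ → ℝ}
    (hφ : TF B φ) (i j : ℤ) (n : ℕ) :
    Integrable (fun z => (φ z : ℂ) * (w i n z * w j n z * G n z)) :=
  TF.cint hφ ((((H.bd i).co n).mul ((H.bd j).co n)).mul (hG n))

/-- the three term relation -/
lemma jm_three (H : AG B a h w M) (hB : IsOpen B) {q : ℕ → ℝ} {R : ℝ} {G : ℕ → ℂ → ℂ}
    (HG : GS B a h q R G) {φ : ℂ → ℝ} (hφ : TF B φ) (i j : ℤ) :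
    Tendsto (fun n => jm w G φ (i + 1) (j - 1) n + jm w G φ (i - 1) (j + 1) n +
      (2 - (R : ℂ)) * jm w G φ i j n) atTop (𝓝 0) := by
  have G1 := HG.lb1 hB H.hpos H.hlim H.sa H.pa
  have c0 : ∀ n, ContinuousOn (G n) B := fun n => HG.lb.co n
  have c1 : ∀ n, ContinuousOn (fun z => DP a (h n) (G n) z) B := fun n => G1.co n
  have J0 := fun i j n => jm_int H c0 hφ i j n
  have J1 := fun i j n => jm_int (G := fun n z => DP a (h n) (G n) z) H c1 hφ i j n
  have r1 : ∀ i j : ℤ, Tendsto (fun n => jm w G φ (i + 1) j n + jm w G φ i (j + 1) n +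
      jm w (fun n z => DP a (h n) (G n) z) φ i j n) atTop (𝓝 0) := by
    intro i j
    refine ((H.jc hB HG i j).nul φ hφ).congr fun n => ?_
    unfold jm
    have i12 : Integrable (fun z => (φ z : ℂ) * (w (i + 1) n z * w j n z * G n z) +
      (φ z : ℂ) * (w i n z * w (j + 1) n z * G n z)) := (J0 _ _ _).add (J0 _ _ _)
    rw [← integral_add (J0 _ _ _) (J0 _ _ _), ← integral_add i12 (J1 _ _ _)]
    congr 1; funext z
    ring
  have r2 : ∀ i j : ℤ, Tendsto (fun n => jm w (fun n z => DP a (h n) (G n) z) φ (i - 1) j n +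
      jm w (fun n z => DP a (h n) (G n) z) φ i (j - 1) n + (R : ℂ) * jm w G φ i j n)
      atTop (𝓝 0) := by
    intro i j
    refine ((H.jc' hB HG i j).nul φ hφ).congr fun n => ?_
    unfold jm
    have i12 : Integrable (fun z => (φ z : ℂ) * (w (i - 1) n z * w j n z * DP a (h n) (G n) z) +
      (φ z : ℂ) * (w i n z * w (j - 1) n z * DP a (h n) (G n) z)) := (J1 _ _ _).add (J1 _ _ _)
    rw [← integral_const_mul, ← integral_add (J1 _ _ _) (J1 _ _ _),
      ← integral_add i12 ((J0 _ _ _).const_mul _)]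
    congr 1; funext z
    ring
  have t1 := r1 i (j - 1)
  have t2 := r1 (i - 1) j
  have t3 := r2 i j
  rw [sub_add_cancel] at t1 t2
  have t := (t1.add t2).sub t3
  simp only [add_zero, sub_zero] at t
  refine t.congr fun n => ?_
  ring

end

end Pool.Agent.TH294.RG
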