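import Pool.Agent.TH294.RG.Jc1

/-!
Project RG (helper294): second moments of combinations of products of weight `i + j`.
-/

set_option autoImplicit false
open MeasureTheory Filter Topology Complex ProbabilityTheory
open scoped ContDiff

namespace Pool.Agent.TH294.RG

open Pool.Agent.W745.RW Pool.Agent.TH294.RS

noncomputable section

variable {m : ℂ → ℝ} {ν : Kernel ℂ ℝ} {M : ℕ → ℂ → ℂ}

/-- combinations of products -/
def FA (w : ℤ → ℕ → ℂ → ℂ) (i j : ℤ) (s : Finset ℤ) (α : ℤ → ℂ) (n : ℕ) (z : ℂ) : ℂ :=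
  ∑ k ∈ s, α k * (w (i + k) n z * w (j - k) n z)

lemma ep2_FA (i j k l : ℤ) : sg (i + j) * ep2 (i + k) (j - k) (-i - l) (-j + l) =
    if Even (i + j) then 1 / 3 + 2 / 3 * (sg k * sg l) else 1 / 3 := by
  have hev : Even (i + k + (j - k) + (-i - l) + (-j + l)) := ⟨0, by ring⟩
  unfold ep2
  rw [if_pos hev]
  unfold eps
  by_cases hij : Even (i + j)
  · rw [if_pos hij, sg_even hij, one_mul]
    by_cases hk : Even k <;> by_cases hl : Even l
    · rw [sg_even hk, sg_even hl, if_pos]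
      · norm_num
      · rw [Int.even_iff] at hij hk hl
        refine ⟨?_, ?_, ?_⟩ <;> omega
    · rw [sg_even hk, sg_odd hl, if_neg]
      · norm_num
      · rw [Int.even_iff] at hij hk hl
        intro hc; omega
    · rw [sg_odd hk, sg_even hl, if_neg]
      · norm_num
      · rw [Int.even_iff] at hij hk hl
        intro hc; omega
    · rw [sg_odd hk, sg_odd hl, if_pos]
      · norm_num
      · rw [Int.even_iff] at hij hk hl
        refine ⟨?_, ?_, ?_⟩ <;> omega
  · rw [if_neg hij, sg_odd hij, if_neg]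
    · norm_num
    · rw [Int.even_iff] at hij
      intro hc; omega

lemma cc_sk (i j k : ℤ) (z : ℂ) : cc M (i + k) (j - k) z = sg k * cc M i j z := by
  unfold cc
  have h1 : ((-1 : ℂ)) ^ (i + k).natAbs = (-1) ^ i.natAbs * sg k := sg_add i k
  rw [show i + k + (j - k) = i + j by ring]
  split_ifs
  · rw [h1]; ring
  · simp

lemma conj_sum_mul (s : Finset ℤ) (x : ℤ → ℂ) :
    (∑ k ∈ s, x k) * (∑ l ∈ s, (starRingEnd ℂ) (x l)) = ((‖∑ k ∈ s, x k‖ ^ 2 : ℝ) : ℂ) := by
  rw [← map_sum, Complex.mul_conj, Complex.normSq_eq_norm_sq]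

/-- the Gaussian part -/
theorem FA_gauss {B : Set ℂ} (hml : ∀ k, ML B (M k)) {φ : ℂ → ℝ} (hφ : TF B φ)
    (hφ0 : ∀ z, 0 ≤ φ z) {A : ℝ} (hA : ∀ K, fK M φ K ≤ A) (i j : ℤ) (s : Finset ℤ) (α : ℤ → ℂ) :
    ‖∑ k ∈ s, ∑ l ∈ s, (sg (i + j) * (α k * (starRingEnd ℂ) (α l))) *
      ∫ z, (φ z : ℂ) * GG' M (i + k) (j - k) (-i - l) (-j + l) z‖ ≤
      A * ‖∑ k ∈ s, sg k * α k‖ ^ 2 + ∑ k ∈ s, ∑ l ∈ s, ‖α k‖ * ‖α l‖ *
        (fK M φ (k - l) + fK M φ (i - j + k + l)) := by
  have mm := fun (a b c d : ℤ) => TF.intK hφ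
    ((ML.cc hml a b).mulint (ML.cc hml c d) hφ.2.1 hφ.2.2)
  have split : ∀ k l : ℤ, ∫ z, (φ z : ℂ) * GG' M (i + k) (j - k) (-i - l) (-j + l) z
      = sg k * sg l * (∫ z, (φ z : ℂ) * (cc M i j z * cc M (-i) (-j) z)) +
      ((∫ z, (φ z : ℂ) * (cc M (i + k) (-i - l) z * cc M (j - k) (-j + l) z)) +
      ∫ z, (φ z : ℂ) * (cc M (i + k) (-j + l) z * cc M (j - k) (-i - l) z)) := by
    intro k l
    have i23 : Integrable (fun z => (φ z : ℂ) * (cc M (i + k) (-i - l) z *
        cc M (j - k) (-j + l) z) + (φ z : ℂ) * (cc M (i + k) (-j + l) z *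
        cc M (j - k) (-i - l) z)) := (mm _ _ _ _).add (mm _ _ _ _)
    rw [← integral_const_mul, ← integral_add (mm _ _ _ _) (mm _ _ _ _),
      ← integral_add ((mm _ _ _ _).const_mul _) i23]
    congr 1; funext z
    have e1 := cc_sk (M := M) i j k z
    have e2 := cc_sk (M := M) (-i) (-j) (-l) z
    rw [show -i + -l = -i - l by ring, show -j - -l = -j + l by ring, sg_neg] at e2
    simp only [GG']
    rw [e1, e2]; ring
  simp only [split, mul_add, Finset.sum_add_distrib]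
  refine (norm_add_le _ _).trans (add_le_add ?_ ?_)
  · have e : ∑ k ∈ s, ∑ l ∈ s, sg (i + j) * (α k * (starRingEnd ℂ) (α l)) *
        (sg k * sg l * ∫ z, (φ z : ℂ) * (cc M i j z * cc M (-i) (-j) z)) =
        (sg (i + j) * (∫ z, (φ z : ℂ) * (cc M i j z * cc M (-i) (-j) z))) *
        ((∑ k ∈ s, sg k * α k) * ∑ l ∈ s, (starRingEnd ℂ) (sg l * α l)) := by
      rw [Finset.sum_mul_sum, Finset.mul_sum]
      refine Finset.sum_congr rfl fun k _ => ?_
      rw [Finset.mul_sum]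
      refine Finset.sum_congr rfl fun l _ => ?_
      rw [map_mul, sg_conj]; ring
    rw [e, conj_sum_mul, norm_mul, norm_mul, sg_norm, one_mul, norm_real, Real.norm_eq_abs,
      abs_of_nonneg (by positivity)]
    refine mul_le_mul_of_nonneg_right ?_ (by positivity)
    refine (cross_bd hml hφ hφ0 _ _ _ _).trans ?_
    have := hA (i + j)
    have := hA (-i + -j)
    linarith
  · simp only [← Finset.sum_add_distrib]
    refine (norm_sum_le _ _).trans (Finset.sum_le_sum fun k _ => (norm_sum_le _ _).trans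
      (Finset.sum_le_sum fun l _ => ?_))
    rw [← mul_add, ← mul_add, norm_mul, norm_mul, norm_mul, sg_norm, one_mul, RCLike.norm_conj]
    refine mul_le_mul_of_nonneg_left ?_ (by positivity)
    refine (norm_add_le _ _).trans (add_le_add
      ((cross_bd hml hφ hφ0 _ _ _ _).trans (le_of_eq ?_))
      ((cross_bd hml hφ hφ0 _ _ _ _).trans (le_of_eq ?_)))
    · rw [show i + k + (-i - l) = k - l by ring, show j - k + (-j + l) = -(k - l) by ring, fK_neg]
      ring
    · rw [show i + k + (-j + l) = i - j + k + l by ring,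
        show j - k + (-i - l) = -(i - j + k + l) by ring, fK_neg]
      ring

/-- **Second moments of combinations of products.** -/
theorem FA_bd [IsMarkovKernel ν] {Ω : Set ℂ}
    (hm : ∀ K : Set ℂ, IsCompact K → K ⊆ Ω → MemLp m 2 (volume.restrict K))
    (hp : ∀ᵐ z ∂(volume.restrict Ω), par ea (ν z) = 0) {a : ℂ → ℝ} {h : ℕ → ℝ} {u : ℕ → ℂ → ℝ}
    (H : RawG Ω a h u (MM m ea ν)) {K : Set ℂ} (hK : IsCompact K) (hKΩ : K ⊆ Ω)
    {φ : ℂ → ℝ} (hφ : TF (interior K) φ) (hφ0 : ∀ z, 0 ≤ φ z) (i j : ℤ) (s : Finset ℤ)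
    (α : ℤ → ℂ) {ε : ℝ} (hε : 0 < ε) :
    ∀ᶠ n in atTop, ∫ z, φ z * ‖FA (ww a h (fun n z => (u n z : ℂ))) i j s α n z‖ ^ 2 ≤
      ((∫ z, φ z * (m z * m z)) * ‖∑ k ∈ s, sg k * α k‖ ^ 2 + ∑ k ∈ s, ∑ l ∈ s, ‖α k‖ * ‖α l‖ *
        (fK (MM m ea ν) φ (k - l) + fK (MM m ea ν) φ (i - j + k + l))) +
      (‖∑ k ∈ s, α k‖ ^ 2 + ‖∑ k ∈ s, sg k * α k‖ ^ 2) * (∫ z, φ z * u n z ^ 4) +
      ε * (1 + ∫ z in K, u n z ^ 4) := by
  have hB : IsOpen (interior K) := isOpen_interior
  have hBΩ : interior K ⊆ Ω := interior_subset.trans hKΩ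
  have hmB : ∀ K' : Set ℂ, IsCompact K' → K' ⊆ interior K → MemLp m 2 (volume.restrict K') :=
    fun K' hK' hKB => hm K' hK' (hKB.trans hBΩ)
  have gs := FA_gauss (fun k => MM_ml (ν := ν) ea_meas ea_norm hmB k) hφ hφ0
    (fun K => fK_MM (ν := ν) hmB hφ hφ0 K) i j s α
  have key := fam_rel hm hp H hK hKΩ hφ hφ0 (s ×ˢ s)
    (fun p : ℤ × ℤ => sg (i + j) * (α p.1 * (starRingEnd ℂ) (α p.2)))
    (fun p : ℤ × ℤ => ((i + p.1, j - p.1, -i - p.2, -j + p.2) : ℤ × ℤ × ℤ × ℤ))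
    (C := ‖∑ k ∈ s, α k‖ ^ 2 + ‖∑ k ∈ s, sg k * α k‖ ^ 2) (fun ζ _ => by
      have e3' : ∀ p : ℤ × ℤ, ζ ^ (i + p.1 + (j - p.1) + (-i - p.2) + (-j + p.2)) = 1 := by
        intro p
        rw [show i + p.1 + (j - p.1) + (-i - p.2) + (-j + p.2) = 0 by ring]
        exact zpow_zero ζ
      simp only [e3', mul_one]
      rw [Finset.sum_product]
      have e4 : ∀ k l : ℤ, sg (i + j) * (α k * (starRingEnd ℂ) (α l)) *
          ep2 (i + k) (j - k) (-i - l) (-j + l) = (α k * (starRingEnd ℂ) (α l)) *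
          (if Even (i + j) then 1 / 3 + 2 / 3 * (sg k * sg l) else 1 / 3) := by
        intro k l
        rw [← ep2_FA]; ring
      simp only [e4]
      have n1 : (0 : ℝ) ≤ ‖∑ k ∈ s, α k‖ ^ 2 := by positivity
      have n2 : (0 : ℝ) ≤ ‖∑ k ∈ s, sg k * α k‖ ^ 2 := by positivity
      by_cases hij : Even (i + j)
      · simp only [if_pos hij]
        have e5 : ∑ k ∈ s, ∑ l ∈ s, (α k * (starRingEnd ℂ) (α l)) *
            (1 / 3 + 2 / 3 * (sg k * sg l)) =
            1 / 3 * ((∑ k ∈ s, α k) * ∑ l ∈ s, (starRingEnd ℂ) (α l)) +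
            2 / 3 * ((∑ k ∈ s, sg k * α k) * ∑ l ∈ s, (starRingEnd ℂ) (sg l * α l)) := by
          rw [Finset.sum_mul_sum, Finset.sum_mul_sum, Finset.mul_sum, Finset.mul_sum,
            ← Finset.sum_add_distrib]
          refine Finset.sum_congr rfl fun k _ => ?_
          rw [Finset.mul_sum, Finset.mul_sum, ← Finset.sum_add_distrib]
          refine Finset.sum_congr rfl fun l _ => ?_
          rw [map_mul, sg_conj]; ring
        rw [e5, conj_sum_mul, conj_sum_mul]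
        refine (norm_add_le _ _).trans ?_
        rw [norm_mul, norm_mul, norm_real, norm_real, Real.norm_eq_abs, Real.norm_eq_abs,
          abs_of_nonneg n1, abs_of_nonneg n2]
        norm_num
        linarith
      · simp only [if_neg hij]
        have e5 : ∑ k ∈ s, ∑ l ∈ s, (α k * (starRingEnd ℂ) (α l)) * (1 / 3 : ℂ) =
            1 / 3 * ((∑ k ∈ s, α k) * ∑ l ∈ s, (starRingEnd ℂ) (α l)) := by
          rw [Finset.sum_mul_sum, Finset.mul_sum]
          refine Finset.sum_congr rfl fun k _ => ?_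
          rw [Finset.mul_sum]
          refine Finset.sum_congr rfl fun l _ => ?_
          ring
        rw [e5, conj_sum_mul, norm_mul, norm_real, Real.norm_eq_abs, abs_of_nonneg n1]
        norm_num
        linarith) hε
  refine key.mono fun n hn => ?_
  simp only [Finset.sum_product] at hn
  have T0 : 0 ≤ ∫ z in K, u n z ^ 4 := integral_nonneg fun z => by positivity
  -- the second moment
  have hu : ∀ n z, (starRingEnd ℂ) ((u n z : ℂ)) = (u n z : ℂ) := fun n z => conj_ofReal _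
  have wc : ∀ k, ContinuousOn (ww a h (fun n z => (u n z : ℂ)) k n) (interior K) := fun k =>
    ((H.cmp hBΩ (σ := id) tendsto_id).lb2 hB k).co n
  have e1 : ∑ k ∈ s, ∑ l ∈ s, (sg (i + j) * (α k * (starRingEnd ℂ) (α l))) * (∫ z, (φ z : ℂ) *
      (W1 a (h n) (u n) (i + k) z * W1 a (h n) (u n) (j - k) z *
      W1 a (h n) (u n) (-i - l) z * W1 a (h n) (u n) (-j + l) z)) =
      ((∫ z, φ z * ‖FA (ww a h (fun n z => (u n z : ℂ))) i j s α n z‖ ^ 2 : ℝ) : ℂ) := by
    simp only [W1_eq]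
    have ii : ∀ k l : ℤ, Integrable (fun z => (sg (i + j) * (α k * (starRingEnd ℂ) (α l))) *
        ((φ z : ℂ) * (ww a h (fun n z => (u n z : ℂ)) (i + k) n z *
        ww a h (fun n z => (u n z : ℂ)) (j - k) n z *
        ww a h (fun n z => (u n z : ℂ)) (-i - l) n z *
        ww a h (fun n z => (u n z : ℂ)) (-j + l) n z))) := fun k l =>
      (TF.cint hφ ((((wc _).mul (wc _)).mul (wc _)).mul (wc _))).const_mul _
    simp only [← integral_const_mul]
    have e0 : ∀ k ∈ s, ∑ l ∈ s, ∫ z, (sg (i + j) * (α k * (starRingEnd ℂ) (α l))) *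
        ((φ z : ℂ) * (ww a h (fun n z => (u n z : ℂ)) (i + k) n z *
        ww a h (fun n z => (u n z : ℂ)) (j - k) n z *
        ww a h (fun n z => (u n z : ℂ)) (-i - l) n z *
        ww a h (fun n z => (u n z : ℂ)) (-j + l) n z)) =
        ∫ z, ∑ l ∈ s, (sg (i + j) * (α k * (starRingEnd ℂ) (α l))) *
        ((φ z : ℂ) * (ww a h (fun n z => (u n z : ℂ)) (i + k) n z *
        ww a h (fun n z => (u n z : ℂ)) (j - k) n z *
        ww a h (fun n z => (u n z : ℂ)) (-i - l) n z *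
        ww a h (fun n z => (u n z : ℂ)) (-j + l) n z)) := fun k _ =>
      (integral_finsetSum _ fun l _ => ii k l).symm
    rw [Finset.sum_congr rfl e0, ← integral_finsetSum _ fun k _ => integrable_finsetSum _
      fun l _ => ii k l, ← integral_complex_ofReal]
    congr 1; funext z
    rw [show ((φ z * ‖FA (ww a h (fun n z => (u n z : ℂ))) i j s α n z‖ ^ 2 : ℝ) : ℂ) =
      (φ z : ℂ) * (FA (ww a h (fun n z => (u n z : ℂ))) i j s α n z *
        (starRingEnd ℂ) (FA (ww a h (fun n z => (u n z : ℂ))) i j s α n z)) by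
        rw [Complex.mul_conj, Complex.normSq_eq_norm_sq]; push_cast; ring]
    have f2 : (starRingEnd ℂ) (FA (ww a h (fun n z => (u n z : ℂ))) i j s α n z) =
        ∑ l ∈ s, sg (i + j) * ((starRingEnd ℂ) (α l) *
          (ww a h (fun n z => (u n z : ℂ)) (-i - l) n z *
          ww a h (fun n z => (u n z : ℂ)) (-j + l) n z)) := by
      unfold FA
      rw [map_sum]
      refine Finset.sum_congr rfl fun l _ => ?_
      rw [map_mul, map_mul, ww_cj a h hu, ww_cj a h hu]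
      have s1 : sg (i + l) * sg (j - l) = sg (i + j) := by
        rw [← sg_add]; congr 1; ring
      rw [show -(i + l) = -i - l by ring, show -(j - l) = -j + l by ring, ← s1]
      ring
    rw [f2]
    unfold FA
    rw [Finset.sum_mul, Finset.mul_sum]
    refine Finset.sum_congr rfl fun k _ => ?_
    rw [Finset.mul_sum, Finset.mul_sum]
    refine Finset.sum_congr rfl fun l _ => ?_
    ring
  rw [e1] at hn
  have h1 := norm_sub_norm_le (((∫ z, φ z * ‖FA (ww a h (fun n z => (u n z : ℂ))) i j s α n z‖ ^ 2 :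
    ℝ) : ℂ)) (∑ k ∈ s, ∑ l ∈ s, (sg (i + j) * (α k * (starRingEnd ℂ) (α l))) *
      ∫ z, (φ z : ℂ) * GG' (MM m ea ν) (i + k) (j - k) (-i - l) (-j + l) z)
  have h2 : (∫ z, φ z * ‖FA (ww a h (fun n z => (u n z : ℂ))) i j s α n z‖ ^ 2) ≤
      ‖((∫ z, φ z * ‖FA (ww a h (fun n z => (u n z : ℂ))) i j s α n z‖ ^ 2 : ℝ) : ℂ)‖ := by
    rw [norm_real]; exact le_abs_self _
  have h3 : 0 ≤ ∫ z, φ z * m z ^ 2 := integral_nonneg fun z => mul_nonneg (hφ0 z) (sq_nonneg _)
  have h4 : 0 ≤ (‖∑ k ∈ s, α k‖ ^ 2 + ‖∑ k ∈ s, sg k * α k‖ ^ 2) *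
    (3 * ∫ z, φ z * m z ^ 2) := by positivity
  linarith

end

end Pool.Agent.TH294.RG
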