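import Pool.Agent.TH294.RG.Jc2

/-!
Project RG (helper294): bounded solutions of three term recurrences which are small in mean.
-/

set_option autoImplicit false
open MeasureTheory Filter Topology Complex
open scoped ContDiff

namespace Pool.Agent.TH294.RG

noncomputable section

lemma rec_sum {P : ℤ → ℂ} {μ : ℝ} (hrec : ∀ k, P (k + 1) + P (k - 1) = (μ : ℂ) * P k) (N : ℕ) :
    (2 - (μ : ℂ)) * ∑ k ∈ Finset.Icc 1 N, P (k : ℤ) = P 1 - P 0 - P ((N : ℤ) + 1) + P N := by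
  induction N with
  | zero => simp
  | succ N ih =>
    rw [Finset.sum_Icc_succ_top (by omega), mul_add, ih]
    have h := hrec ((N : ℤ) + 1)
    rw [add_sub_cancel_right] at h
    push_cast
    linear_combination h

lemma rec_sum_bd {P : ℤ → ℂ} {μ S : ℝ} (hrec : ∀ k, P (k + 1) + P (k - 1) = (μ : ℂ) * P k)
    (hS : ∀ k, ‖P k‖ ≤ S) (hμ : μ < 2) (N : ℕ) :
    ‖∑ k ∈ Finset.Icc 1 N, P (k : ℤ)‖ ≤ 4 * S / (2 - μ) := by
  have h := rec_sum hrec N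
  have h1 : ‖(2 - (μ : ℂ)) * ∑ k ∈ Finset.Icc 1 N, P (k : ℤ)‖ ≤ 4 * S := by
    rw [h]
    have a1 := hS 1
    have a2 := hS 0
    have a3 := hS ((N : ℤ) + 1)
    have a4 := hS N
    have b1 := norm_add_le (P 1 - P 0 - P ((N : ℤ) + 1)) (P N)
    have b2 := norm_sub_le (P 1 - P 0) (P ((N : ℤ) + 1))
    have b3 := norm_sub_le (P 1) (P 0)
    linarith
  rw [norm_mul] at h1
  have h2 : ‖(2 - (μ : ℂ))‖ = 2 - μ := by
    have : (2 - (μ : ℂ)) = ((2 - μ : ℝ) : ℂ) := by push_cast; ring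
    rw [this, norm_real, Real.norm_eq_abs, abs_of_pos (by linarith)]
  rw [h2] at h1
  rw [le_div_iff₀ (by linarith)]
  linarith

/-- the energy -/
def en (μ : ℝ) (P : ℤ → ℂ) (k : ℤ) : ℝ :=
  ‖P (k + 1)‖ ^ 2 + ‖P k‖ ^ 2 - μ * (P (k + 1) * (starRingEnd ℂ) (P k)).re

lemma en_const {P : ℤ → ℂ} {μ : ℝ} (hrec : ∀ k, P (k + 1) + P (k - 1) = (μ : ℂ) * P k) (k : ℤ) :
    en μ P (k + 1) = en μ P k := by
  have h := hrec (k + 1)
  rw [add_sub_cancel_right] at h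
  have e : P (k + 1 + 1) = (μ : ℂ) * P (k + 1) - P k := by linear_combination h
  unfold en
  rw [e]
  simp only [Complex.sq_norm, normSq_apply, mul_re, sub_re, sub_im, mul_im, ofReal_re, ofReal_im,
    conj_re, conj_im]
  ring

lemma en_low {P : ℤ → ℂ} {μ : ℝ} (k : ℤ) (hμ : |μ| < 2) :
    (1 - |μ| / 2) * ‖P k‖ ^ 2 ≤ en μ P k := by
  have h1 : |(P (k + 1) * (starRingEnd ℂ) (P k)).re| ≤ ‖P (k + 1)‖ * ‖P k‖ := by
    refine (abs_re_le_norm _).trans ?_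
    rw [norm_mul, RCLike.norm_conj]
  have h2 : μ * (P (k + 1) * (starRingEnd ℂ) (P k)).re ≤ |μ| * (‖P (k + 1)‖ * ‖P k‖) := by
    refine (le_abs_self _).trans ?_
    rw [abs_mul]
    exact mul_le_mul_of_nonneg_left h1 (abs_nonneg _)
  have h3 := abs_nonneg μ
  have h4 : |μ| * (‖P (k + 1)‖ * ‖P k‖) ≤ |μ| * ((‖P (k + 1)‖ ^ 2 + ‖P k‖ ^ 2) / 2) := by
    refine mul_le_mul_of_nonneg_left ?_ h3
    nlinarith [sq_nonneg (‖P (k + 1)‖ - ‖P k‖)]
  unfold en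
  nlinarith [sq_nonneg ‖P (k + 1)‖, sq_nonneg ‖P k‖]

lemma en_up {P : ℤ → ℂ} {μ : ℝ} (k : ℤ) (hμ : |μ| < 2) :
    en μ P k ≤ 2 * ‖P (k + 1)‖ ^ 2 + 2 * ‖P k‖ ^ 2 := by
  have h1 : |(P (k + 1) * (starRingEnd ℂ) (P k)).re| ≤ ‖P (k + 1)‖ * ‖P k‖ := by
    refine (abs_re_le_norm _).trans ?_
    rw [norm_mul, RCLike.norm_conj]
  have h2 : -(μ * (P (k + 1) * (starRingEnd ℂ) (P k)).re) ≤ |μ| * (‖P (k + 1)‖ * ‖P k‖) := by
    refine (neg_le_abs _).trans ?_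
    rw [abs_mul]
    exact mul_le_mul_of_nonneg_left h1 (abs_nonneg _)
  have h4 : |μ| * (‖P (k + 1)‖ * ‖P k‖) ≤ 2 * ((‖P (k + 1)‖ ^ 2 + ‖P k‖ ^ 2) / 2) := by
    refine mul_le_mul hμ.le ?_ (by positivity) (by norm_num)
    nlinarith [sq_nonneg (‖P (k + 1)‖ - ‖P k‖)]
  unfold en
  linarith

/-- **Recurrences.** -/
theorem rec_zero {P : ℤ → ℂ} {μ S D A : ℝ} {f : ℤ → ℝ} {q : ℤ}
    (hrec : ∀ k, P (k + 1) + P (k - 1) = (μ : ℂ) * P k) (hμ : -2 < μ) (hμ2 : μ ≠ 2)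
    (hS : ∀ k, ‖P k‖ ≤ S) (hD : 0 ≤ D) (f0 : ∀ k, 0 ≤ f k) (fA : ∀ k, f k ≤ A)
    (hW : Tendsto (fun N : ℕ => ((N : ℝ) ^ 2)⁻¹ * ∑ p ∈ Finset.Icc 1 N, ∑ l ∈ Finset.Icc 1 N,
      (f ((p : ℤ) - l) + f ((p : ℤ) + l))) atTop (𝓝 0))
    (hQ : ∀ (N : ℕ) (α : ℕ → ℂ), ‖∑ k ∈ Finset.Icc 1 N, α k * P (k : ℤ)‖ ^ 2 ≤
      D * ((∑ k ∈ Finset.Icc 1 N, ∑ l ∈ Finset.Icc 1 N, ‖α k‖ * ‖α l‖ *
        (f ((k : ℤ) - l) + f (q + k + l))) + ‖∑ k ∈ Finset.Icc 1 N, α k‖ ^ 2 +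
        ‖∑ k ∈ Finset.Icc 1 N, sg k * α k‖ ^ 2)) : P 0 = 0 := by
  have S0 : 0 ≤ S := (norm_nonneg _).trans (hS 0)
  have A0 : 0 ≤ A := (f0 0).trans (fA 0)
  rcases lt_or_gt_of_ne hμ2 with hlt | hgt
  · -- the oscillating case
    have hab : |μ| < 2 := abs_lt.2 ⟨hμ, hlt⟩
    set c0 : ℝ := 1 - |μ| / 2 with hc0
    have c0pos : 0 < c0 := by rw [hc0]; linarith
    set Q : ℕ → ℝ := fun N => ((N : ℝ))⁻¹ * ∑ k ∈ Finset.Icc 1 N, ‖P (k : ℤ)‖ ^ 2 with hQd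
    have Q0 : ∀ N, 0 ≤ Q N := fun N => by rw [hQd]; positivity
    set P' : ℤ → ℂ := fun k => sg k * P k with hP'
    have rec' : ∀ k, P' (k + 1) + P' (k - 1) = ((-μ : ℝ) : ℂ) * P' k := by
      intro k
      simp only [hP']
      have s1 : sg (k + 1) = - sg k := by rw [sg_add]; simp [sg]
      have s2 : sg (k - 1) = - sg k := by rw [sg_sub, s1]
      rw [s1, s2]
      push_cast
      linear_combination (-sg k) * hrec k
    have S' : ∀ k, ‖P' k‖ ≤ S := fun k => by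
      simp only [hP']; rw [norm_mul, sg_norm, one_mul]; exact hS k
    have main : ∀ N : ℕ, 0 < N → Q N ^ 2 ≤ D * (S ^ 2 * (((N : ℝ) ^ 2)⁻¹ *
        ∑ p ∈ Finset.Icc 1 N, ∑ l ∈ Finset.Icc 1 N, (f ((p : ℤ) - l) + f ((p : ℤ) + l))) +
        (S ^ 2 * (|(q : ℝ)| * A) * ((N : ℝ))⁻¹ + ((4 * S / (2 - μ)) ^ 2 +
          (4 * S / (2 - -μ)) ^ 2) * (((N : ℝ))⁻¹ * ((N : ℝ))⁻¹))) := by
      intro N hN
      have hN' : (0 : ℝ) < N := by exact_mod_cast hN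
      have h := hQ N (fun k => (((N : ℝ)⁻¹ : ℝ) : ℂ) * (starRingEnd ℂ) (P (k : ℤ)))
      have e1 : ∑ k ∈ Finset.Icc 1 N, (((N : ℝ)⁻¹ : ℝ) : ℂ) * (starRingEnd ℂ) (P (k : ℤ)) *
          P (k : ℤ) = ((Q N : ℝ) : ℂ) := by
        rw [hQd]
        push_cast
        rw [Finset.mul_sum]
        refine Finset.sum_congr rfl fun k _ => ?_
        have : ((‖P (k : ℤ)‖ : ℝ) : ℂ) ^ 2 = P (k : ℤ) * (starRingEnd ℂ) (P (k : ℤ)) := by
          rw [Complex.mul_conj, Complex.normSq_eq_norm_sq]; push_cast; rfl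
        rw [this]; ring
      rw [e1, norm_real, Real.norm_eq_abs, sq_abs] at h
      refine h.trans (mul_le_mul_of_nonneg_left ?_ hD)
      have nn : ∀ k : ℕ, ‖(((N : ℝ)⁻¹ : ℝ) : ℂ) * (starRingEnd ℂ) (P (k : ℤ))‖ ≤ (N : ℝ)⁻¹ * S := by
        intro k
        rw [norm_mul, norm_real, Real.norm_eq_abs, abs_of_pos (inv_pos.2 hN'), RCLike.norm_conj]
        exact mul_le_mul_of_nonneg_left (hS _) (inv_pos.2 hN').le
      have b1 : ∑ k ∈ Finset.Icc 1 N, ∑ l ∈ Finset.Icc 1 N,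
          ‖(((N : ℝ)⁻¹ : ℝ) : ℂ) * (starRingEnd ℂ) (P (k : ℤ))‖ *
          ‖(((N : ℝ)⁻¹ : ℝ) : ℂ) * (starRingEnd ℂ) (P (l : ℤ))‖ *
          (f ((k : ℤ) - l) + f (q + k + l)) ≤ S ^ 2 * (((N : ℝ) ^ 2)⁻¹ *
        ∑ p ∈ Finset.Icc 1 N, ∑ l ∈ Finset.Icc 1 N, (f ((p : ℤ) - l) + f ((p : ℤ) + l))) +
          S ^ 2 * (|(q : ℝ)| * A) * ((N : ℝ))⁻¹ := by
        have b2 : ∑ k ∈ Finset.Icc 1 N, ∑ l ∈ Finset.Icc 1 N,
            ‖(((N : ℝ)⁻¹ : ℝ) : ℂ) * (starRingEnd ℂ) (P (k : ℤ))‖ *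
            ‖(((N : ℝ)⁻¹ : ℝ) : ℂ) * (starRingEnd ℂ) (P (l : ℤ))‖ *
            (f ((k : ℤ) - l) + f (q + k + l)) ≤
            ∑ k ∈ Finset.Icc 1 N, ∑ l ∈ Finset.Icc 1 N,
            ((N : ℝ)⁻¹ * S) ^ 2 * (f ((k : ℤ) - l) + f (q + k + l)) := by
          refine Finset.sum_le_sum fun k _ => Finset.sum_le_sum fun l _ => ?_
          refine mul_le_mul_of_nonneg_right ?_ (add_nonneg (f0 _) (f0 _))
          rw [sq]
          exact mul_le_mul (nn k) (nn l) (norm_nonneg _) (by positivity)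
        refine b2.trans ?_
        simp only [← Finset.mul_sum]
        have T2 : ∑ k ∈ Finset.Icc 1 N, ∑ l ∈ Finset.Icc 1 N, f (q + (k : ℤ) + l) ≤
            (∑ k ∈ Finset.Icc 1 N, ∑ l ∈ Finset.Icc 1 N, f ((k : ℤ) + l)) +
              N * (|(q : ℝ)| * A) := by
          rw [Finset.sum_comm, Finset.sum_comm (f := fun k l : ℕ => f ((k : ℤ) + l))]
          have sh : ∀ l : ℕ, ∑ k ∈ Finset.Icc 1 N, f (q + (k : ℤ) + l) ≤
              (∑ k ∈ Finset.Icc 1 N, f ((k : ℤ) + l)) + |(q : ℝ)| * A := fun l => by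
            have := shiftq q (fun K => f (K + l)) (fun _ => f0 _) (fun _ => fA _) N
            refine le_trans (le_of_eq ?_) this
            refine Finset.sum_congr rfl fun k _ => ?_
            show f (q + (k : ℤ) + l) = f ((k : ℤ) + q + l)
            congr 1; ring
          refine (Finset.sum_le_sum fun l _ => sh l).trans ?_
          rw [Finset.sum_add_distrib, Finset.sum_const, Nat.card_Icc, Nat.add_sub_cancel,
            nsmul_eq_mul]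
        simp only [Finset.sum_add_distrib]
        have c : 0 ≤ ((N : ℝ)⁻¹ * S) ^ 2 := sq_nonneg _
        have fin := mul_le_mul_of_nonneg_left (add_le_add_right T2
          (∑ k ∈ Finset.Icc 1 N, ∑ l ∈ Finset.Icc 1 N, f ((k : ℤ) - l))) c
        refine fin.trans (le_of_eq ?_)
        field_simp
        try ring
      have b3 : ‖∑ k ∈ Finset.Icc 1 N, (((N : ℝ)⁻¹ : ℝ) : ℂ) * (starRingEnd ℂ) (P (k : ℤ))‖ ^ 2 ≤
          (4 * S / (2 - μ)) ^ 2 * (((N : ℝ))⁻¹ * ((N : ℝ))⁻¹) := by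
        rw [← Finset.mul_sum, ← map_sum, norm_mul, norm_real, Real.norm_eq_abs,
          abs_of_pos (inv_pos.2 hN'), RCLike.norm_conj, mul_pow]
        have := rec_sum_bd hrec hS hlt N
        have h2 := pow_le_pow_left₀ (norm_nonneg _) this 2
        have h3 := mul_le_mul_of_nonneg_left h2 (show 0 ≤ ((N : ℝ)⁻¹) ^ 2 by positivity)
        refine h3.trans (le_of_eq ?_)
        ring
      have b4 : ‖∑ k ∈ Finset.Icc 1 N, sg k * ((((N : ℝ)⁻¹ : ℝ) : ℂ) *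
          (starRingEnd ℂ) (P (k : ℤ)))‖ ^ 2 ≤
          (4 * S / (2 - -μ)) ^ 2 * (((N : ℝ))⁻¹ * ((N : ℝ))⁻¹) := by
        have e : ∑ k ∈ Finset.Icc 1 N, sg k * ((((N : ℝ)⁻¹ : ℝ) : ℂ) *
          (starRingEnd ℂ) (P (k : ℤ))) = (((N : ℝ)⁻¹ : ℝ) : ℂ) *
            (starRingEnd ℂ) (∑ k ∈ Finset.Icc 1 N, P' (k : ℤ)) := by
          rw [map_sum, Finset.mul_sum]
          refine Finset.sum_congr rfl fun k _ => ?_
          simp only [hP']
          rw [map_mul, sg_conj]; ring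
        rw [e, norm_mul, norm_real, Real.norm_eq_abs,
          abs_of_pos (inv_pos.2 hN'), RCLike.norm_conj, mul_pow]
        have := rec_sum_bd rec' S' (by linarith) N
        have h2 := pow_le_pow_left₀ (norm_nonneg _) this 2
        have h3 := mul_le_mul_of_nonneg_left h2 (show 0 ≤ ((N : ℝ)⁻¹) ^ 2 by positivity)
        refine h3.trans (le_of_eq ?_)
        ring
      linarith
    have inv0 := tendsto_inv_atTop_nhds_zero_nat (𝕜 := ℝ)
    have lim : Tendsto (fun N : ℕ => D * (S ^ 2 * (((N : ℝ) ^ 2)⁻¹ *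
        ∑ p ∈ Finset.Icc 1 N, ∑ l ∈ Finset.Icc 1 N, (f ((p : ℤ) - l) + f ((p : ℤ) + l))) +
        (S ^ 2 * (|(q : ℝ)| * A) * ((N : ℝ))⁻¹ + ((4 * S / (2 - μ)) ^ 2 +
          (4 * S / (2 - -μ)) ^ 2) * (((N : ℝ))⁻¹ * ((N : ℝ))⁻¹)))) atTop (𝓝 0) := by
      have := ((hW.const_mul (S ^ 2)).add ((inv0.const_mul (S ^ 2 * (|(q : ℝ)| * A))).add
        ((inv0.mul inv0).const_mul ((4 * S / (2 - μ)) ^ 2 + (4 * S / (2 - -μ)) ^ 2)))).const_mul D
      simpa using this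
    -- the energy
    have ec : ∀ N : ℕ, en μ P N = en μ P 0 := by
      intro N
      induction N with
      | zero => rfl
      | succ N ih =>
        rw [← ih]; push_cast; exact en_const hrec N
    have eb : ∀ N : ℕ, (N : ℝ) * en μ P 0 ≤ 4 * (∑ k ∈ Finset.Icc 1 N, ‖P (k : ℤ)‖ ^ 2) +
        2 * S ^ 2 := by
      intro N
      have h1 : (N : ℝ) * en μ P 0 = ∑ k ∈ Finset.Icc 1 N, en μ P (k : ℤ) := by
        simp only [ec]
        rw [Finset.sum_const, Nat.card_Icc, Nat.add_sub_cancel, nsmul_eq_mul]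
      have h2 : ∑ k ∈ Finset.Icc 1 N, en μ P (k : ℤ) ≤
          ∑ k ∈ Finset.Icc 1 N, (2 * ‖P ((k : ℤ) + 1)‖ ^ 2 + 2 * ‖P (k : ℤ)‖ ^ 2) :=
        Finset.sum_le_sum fun k _ => en_up _ hab
      have h3 := shift1 (fun k => ‖P k‖ ^ 2) N
      rw [h1]
      refine h2.trans ?_
      rw [Finset.sum_add_distrib, ← Finset.mul_sum, ← Finset.mul_sum, h3]
      have h4 : ‖P ((N : ℤ) + 1)‖ ^ 2 ≤ S ^ 2 := pow_le_pow_left₀ (norm_nonneg _) (hS _) 2
      have h5 : 0 ≤ ‖P 1‖ ^ 2 := sq_nonneg _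
      linarith
    have low := en_low (P := P) 0 hab
    rw [← hc0] at low
    by_contra hne
    have pos : 0 < c0 * ‖P 0‖ ^ 2 := mul_pos c0pos (pow_pos (norm_pos_iff.2 hne) 2)
    set δ : ℝ := c0 * ‖P 0‖ ^ 2 / 16 with hδ
    have δ0 : 0 < δ := by rw [hδ]; positivity
    have ev1 := lim.eventually (gt_mem_nhds (show (0 : ℝ) < δ ^ 2 by positivity))
    have ev2 := (inv0.const_mul (2 * S ^ 2)).eventually (gt_mem_nhds (show 2 * S ^ 2 * 0 < δ by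
      rw [mul_zero]; exact δ0))
    obtain ⟨N, hN1, hN2, hN3⟩ := (ev1.and (ev2.and (eventually_gt_atTop 0))).exists
    have hN' : (0 : ℝ) < N := by exact_mod_cast hN3
    have q1 : Q N < δ := by
      have := (main N hN3).trans_lt hN1
      nlinarith [Q0 N]
    have q2 := eb N
    have q3 : en μ P 0 ≤ 4 * Q N + 2 * S ^ 2 * (N : ℝ)⁻¹ := by
      have h6 := mul_le_mul_of_nonneg_left q2 (inv_pos.2 hN').le
      rw [← mul_assoc, inv_mul_cancel₀ hN'.ne', one_mul] at h6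
      refine h6.trans (le_of_eq ?_)
      rw [hQd]
      ring
    have q4 : 16 * δ = c0 * ‖P 0‖ ^ 2 := by rw [hδ]; ring
    linarith
  · -- the hyperbolic case
    have hμ0 : 0 < μ := by linarith
    have key : ∀ (n : ℕ) (k : ℤ), ‖P k‖ ≤ (2 / μ) ^ n * S := by
      intro n
      induction n with
      | zero => intro k; simpa using hS k
      | succ n ih =>
        intro k
        have h1 : μ * ‖P k‖ ≤ 2 * ((2 / μ) ^ n * S) := by
          have e : μ * ‖P k‖ = ‖P (k + 1) + P (k - 1)‖ := by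
            rw [hrec, norm_mul, norm_real, Real.norm_eq_abs, abs_of_pos hμ0]
          rw [e]
          refine (norm_add_le _ _).trans ?_
          have := ih (k + 1)
          have := ih (k - 1)
          linarith
        have h2 : ‖P k‖ ≤ 2 * ((2 / μ) ^ n * S) / μ := by
          rw [le_div_iff₀ hμ0]; linarith
        refine h2.trans (le_of_eq ?_)
        rw [pow_succ]; ring
    have l1 : Tendsto (fun n : ℕ => (2 / μ) ^ n * S) atTop (𝓝 0) := by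
      have := (tendsto_pow_atTop_nhds_zero_of_lt_one (r := 2 / μ) (by positivity)
        (by rw [div_lt_one hμ0]; exact hgt)).mul_const S
      rwa [zero_mul] at this
    have h3 : ‖P 0‖ ≤ 0 := ge_of_tendsto' l1 fun n => key n 0
    exact norm_le_zero_iff.1 h3

end

end Pool.Agent.TH294.RG
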