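import Pool.Agent.TH294.RG.Jc3

/-!
Project RG (helper294): joint third order moments vanish.
-/

set_option autoImplicit false
open MeasureTheory Filter Topology Complex ProbabilityTheory
open scoped ContDiff

namespace Pool.Agent.TH294.RG

open Pool.Agent.W745.RW Pool.Agent.TH294.RS

noncomputable section

variable {m : ℂ → ℝ} {ν : Kernel ℂ ℝ}

lemma LB.cmp {B : Set ℂ} {p : ℕ} {f : ℕ → ℂ → ℂ} (hf : LB B p f) {σ : ℕ → ℕ}
    (hσ : Tendsto σ atTop atTop) : LB B p (fun n => f (σ n)) :=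
  ⟨fun _ => hf.sm _, fun K hK hKB => by
    obtain ⟨C, hC⟩ := hf.bd K hK hKB
    exact ⟨C, hσ.eventually hC⟩⟩

lemma GS.cmp {Ω B : Set ℂ} {a : ℂ → ℝ} {h q : ℕ → ℝ} {R : ℝ} {G : ℕ → ℂ → ℂ}
    (H : GS Ω a h q R G) (hB : B ⊆ Ω) {σ : ℕ → ℕ} (hσ : Tendsto σ atTop atTop) :
    GS B a (fun n => h (σ n)) (fun n => q (σ n)) R (fun n => G (σ n)) :=
  ⟨LB.cmp (H.lb.mono hB) hσ, H.qR.comp hσ, fun _ z hz => H.eq _ z (hB hz)⟩

lemma amgm {x a b : ℝ} (hx : 0 ≤ x) (ha : 0 ≤ a) (hb : 0 ≤ b)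
    (h : ∀ t : ℝ, 0 < t → x ≤ (2 * t)⁻¹ * a + t / 2 * b) : x ^ 2 ≤ a * b := by
  rcases hx.eq_or_lt with h0 | hx0
  · rw [← h0, zero_pow two_ne_zero]; exact mul_nonneg ha hb
  rcases hb.eq_or_lt with hb0 | hb0
  · exfalso
    have h1 := h ((a + 1) / x) (by positivity)
    rw [← hb0, mul_zero, add_zero] at h1
    have h2 : (2 * ((a + 1) / x))⁻¹ * a = x * (a / (2 * (a + 1))) := by
      field_simp
    rw [h2] at h1
    have h3 : a / (2 * (a + 1)) < 1 := by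
      rw [div_lt_one (by positivity)]; linarith
    nlinarith
  · have h1 := h (x / b) (by positivity)
    have h2 : (2 * (x / b))⁻¹ * a + x / b / 2 * b = a * b / (2 * x) + x / 2 := by
      field_simp
    rw [h2] at h1
    have h3 : x / 2 ≤ a * b / (2 * x) := by linarith
    rw [le_div_iff₀ (by positivity)] at h3
    nlinarith

/-- Cauchy-Schwarz with a weight -/
lemma wcs {B : Set ℂ} (hB : IsOpen B) {φ χ : ℂ → ℝ} (hχ : TF B χ) (hχ0 : ∀ z, 0 ≤ χ z)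
    (hφχ : ∀ z, |φ z| ≤ χ z) {F P : ℂ → ℂ} (hF : ContinuousOn F B) (hP : ContinuousOn P B) :
    ‖∫ z, (φ z : ℂ) * (F z * P z)‖ ^ 2 ≤ (∫ z, χ z * ‖F z‖ ^ 2) * ∫ z, χ z * ‖P z‖ ^ 2 := by
  have i1 : Integrable (fun z => χ z * ‖F z‖ ^ 2) :=
    Pool.Agent.W311.RW.int_mul hB hχ (hF.norm.pow 2)
  have i2 : Integrable (fun z => χ z * ‖P z‖ ^ 2) :=
    Pool.Agent.W311.RW.int_mul hB hχ (hP.norm.pow 2)
  refine amgm (norm_nonneg _) (integral_nonneg fun z => mul_nonneg (hχ0 z) (sq_nonneg _))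
    (integral_nonneg fun z => mul_nonneg (hχ0 z) (sq_nonneg _)) fun t ht => ?_
  rw [← integral_const_mul, ← integral_const_mul, ← integral_add (i1.const_mul _)
    (i2.const_mul _)]
  refine norm_integral_le_of_norm_le ((i1.const_mul _).add (i2.const_mul _))
    (ae_of_all _ fun z => ?_)
  rw [norm_mul, norm_mul, norm_real, Real.norm_eq_abs]
  have h1 : |φ z| * (‖F z‖ * ‖P z‖) ≤ χ z * (‖F z‖ * ‖P z‖) :=
    mul_le_mul_of_nonneg_right (hφχ z) (by positivity)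
  refine h1.trans ?_
  have h2 : ‖F z‖ * ‖P z‖ ≤ (2 * t)⁻¹ * ‖F z‖ ^ 2 + t / 2 * ‖P z‖ ^ 2 := by
    have h3 : 0 ≤ (2 * t)⁻¹ * (‖F z‖ - t * ‖P z‖) ^ 2 := by positivity
    have h4 : (2 * t)⁻¹ * (‖F z‖ - t * ‖P z‖) ^ 2 =
        (2 * t)⁻¹ * ‖F z‖ ^ 2 - ‖F z‖ * ‖P z‖ + t / 2 * ‖P z‖ ^ 2 := by
      field_simp
      ring
    linarith
  have h5 := mul_le_mul_of_nonneg_left h2 (hχ0 z)
  show χ z * (‖F z‖ * ‖P z‖) ≤ (2 * t)⁻¹ * (χ z * ‖F z‖ ^ 2) + t / 2 * (χ z * ‖P z‖ ^ 2)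
  linarith

/-- the bound for combinations -/
def Gam (M : ℕ → ℂ → ℂ) (χ : ℂ → ℝ) (A X : ℝ) (q : ℤ) (s : Finset ℤ) (α : ℤ → ℂ) : ℝ :=
  (A * ‖∑ k ∈ s, sg k * α k‖ ^ 2 + ∑ k ∈ s, ∑ l ∈ s, ‖α k‖ * ‖α l‖ *
    (fK M χ (k - l) + fK M χ (q + k + l))) + (‖∑ k ∈ s, α k‖ ^ 2 + ‖∑ k ∈ s, sg k * α k‖ ^ 2) * X

/-- **Joint third order moments vanish** relative to the square root of the fourth moment -/
theorem joint_lim [IsMarkovKernel ν] {Ω : Set ℂ}
    (hm : ∀ K : Set ℂ, IsCompact K → K ⊆ Ω → MemLp m 2 (volume.restrict K))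
    (hp : ∀ᵐ z ∂(volume.restrict Ω), par ea (ν z) = 0) {a : ℂ → ℝ} {h : ℕ → ℝ} {u : ℕ → ℂ → ℝ}
    (H : RawG Ω a h u (MM m ea ν)) {q : ℕ → ℝ} {R : ℝ} {G : ℕ → ℂ → ℂ}
    (HG : GS Ω a h q R G) (hR : 0 < R) (hR4 : R ≠ 4) {K : Set ℂ} (hK : IsCompact K) (hKΩ : K ⊆ Ω)
    {φ : ℂ → ℝ} (hφ : TF (interior K) φ) (i j : ℤ) :
    Tendsto (fun n => ((√(1 + ∫ z in K, u n z ^ 4) : ℝ) : ℂ)⁻¹ * ∫ z, (φ z : ℂ) *
      (ww a h (fun n z => (u n z : ℂ)) i n z * ww a h (fun n z => (u n z : ℂ)) j n z *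
        G n z)) atTop (𝓝 0) := by
  have hB : IsOpen (interior K) := isOpen_interior
  have hBΩ : interior K ⊆ Ω := interior_subset.trans hKΩ
  have hmB : ∀ K' : Set ℂ, IsCompact K' → K' ⊆ interior K → MemLp m 2 (volume.restrict K') :=
    fun K' hK' hKB => hm K' hK' (hKB.trans hBΩ)
  have hpB : ∀ᵐ z ∂(volume.restrict (interior K)), par ea (ν z) = 0 :=
    ae_restrict_of_ae_restrict_of_subset hBΩ hp
  have cu : ∀ n, ContinuousOn (fun z => u n z ^ 4) K := fun n =>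
    ((H.sm n).continuousOn.mono hKΩ).pow 4
  have T0 : ∀ n, 0 ≤ ∫ z in K, u n z ^ 4 := fun n => integral_nonneg fun z => by positivity
  -- the cut-off
  obtain ⟨χ0, hχ0, hχ1, hχ2, hχ3⟩ := exists_cut hB hφ.2.1 hφ.2.2
  obtain ⟨Mφ, hMφ⟩ := hφ.2.1.exists_bound_of_continuousOn hφ.1.continuous.continuousOn
  obtain ⟨χ, hχd⟩ : ∃ χ : ℂ → ℝ, χ = fun z => |Mφ| * χ0 z := ⟨_, rfl⟩
  have hχ : TF (interior K) χ := by
    have := TF.mulc hB hχ0 (a := fun _ => |Mφ|) contDiffOn_const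
    have e : χ = fun z => χ0 z * |Mφ| := by funext z; rw [hχd]; ring
    rw [e]; exact this
  have hχnn : ∀ z, 0 ≤ χ z := fun z => by rw [hχd]; exact mul_nonneg (abs_nonneg _) (hχ2 z)
  have hχφ : ∀ z, |φ z| ≤ χ z := by
    intro z
    by_cases hz : z ∈ tsupport φ
    · rw [hχd]
      show |φ z| ≤ |Mφ| * χ0 z
      rw [hχ1 z hz, mul_one]
      exact (hMφ z hz).trans (le_abs_self _)
    · rw [image_eq_zero_of_notMem_tsupport hz, abs_zero]; exact hχnn z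
  have hχM : ∀ z, χ z ≤ |Mφ| := fun z => by
    rw [hχd]; exact mul_le_of_le_one_right (abs_nonneg _) (hχ3 z)
  obtain ⟨A, hAd⟩ : ∃ A : ℝ, A = ∫ z, χ z * (m z * m z) := ⟨_, rfl⟩
  have fA : ∀ k, fK (MM m ea ν) χ k ≤ A := fun k => by
    rw [hAd]; exact fK_MM (ν := ν) hmB hχ hχnn k
  have f0 : ∀ k, 0 ≤ fK (MM m ea ν) χ k := fun k => fK_nn hχnn k
  have A0 : 0 ≤ A := (f0 0).trans (fA 0)
  refine tendsto_of_subseq_tendsto fun ns hns => ?_
  obtain ⟨T, hT⟩ : ∃ T : ℕ → ℝ, ∀ n, T n = 1 + ∫ z in K, u (ns n) z ^ 4 := ⟨_, fun _ => rfl⟩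
  have T1 : ∀ n, 1 ≤ T n := fun n => by rw [hT]; linarith [T0 (ns n)]
  obtain ⟨c, hc⟩ : ∃ c : ℕ → ℝ, ∀ n, c n = (T n) ^ (-(1 / 4 : ℝ)) := ⟨_, fun _ => rfl⟩
  have cpos : ∀ n, 0 < c n := fun n => by
    rw [hc]; exact Real.rpow_pos_of_pos (by linarith [T1 n]) _
  have cle : ∀ n, c n ≤ 1 := fun n => by
    rw [hc]; exact Real.rpow_le_one_of_one_le_of_nonpos (T1 n) (by norm_num)
  have c4 : ∀ n, c n ^ 4 = (T n)⁻¹ := by
    intro n
    rw [hc, ← Real.rpow_natCast, ← Real.rpow_mul (by linarith [T1 n])]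
    norm_num
    rw [Real.rpow_neg_one]
  have c2 : ∀ n, c n ^ 2 = (√(T n))⁻¹ := by
    intro n
    have h1 : (c n ^ 2) ^ 2 = (T n)⁻¹ := by rw [← c4]; ring
    have h2 : c n ^ 2 = √((T n)⁻¹) := by
      rw [← h1, Real.sqrt_sq (by positivity)]
    rw [h2, Real.sqrt_inv]
  obtain ⟨κ, -, σ, hσ, hσc⟩ := isCompact_Icc.tendsto_subseq (s := Set.Icc (0 : ℝ) 1)
    (x := c) (fun n => ⟨(cpos n).le, cle n⟩)
  refine ⟨σ, ?_⟩
  have H1 := H.cmp hBΩ (hns.comp hσ.tendsto_atTop)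
  have H2 := H1.scale2 hB hσc
  have A' := H2.as hB (fun k => ((MM_ml ea_meas ea_norm (B := interior K) (ν := ν) hmB) k).cmul _)
    (fun z => by rw [MM_0, map_mul, map_pow, conj_ofReal, conj_ofReal])
    (fun K' hK' hKB => ⟨1, Eventually.of_forall fun n => by
      have e1 : ∀ z, ((c ∘ σ) n * u ((ns ∘ σ) n) z) ^ 4 = (T (σ n))⁻¹ * u (ns (σ n)) z ^ 4 := by
        intro z
        show (c (σ n) * u (ns (σ n)) z) ^ 4 = _
        rw [mul_pow, c4]
      simp only [e1]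
      rw [integral_const_mul, inv_mul_le_iff₀ (by linarith [T1 (σ n)]), mul_one, hT]
      have : ∫ z in K', u (ns (σ n)) z ^ 4 ≤ ∫ z in K, u (ns (σ n)) z ^ 4 := by
        refine setIntegral_mono_set ((cu _).integrableOn_compact hK)
          (ae_of_all _ fun z => by positivity) ?_
        exact (hKB.trans interior_subset).eventuallyLE
      linarith⟩)
  obtain ⟨w, hw⟩ : ∃ w : ℤ → ℕ → ℂ → ℂ, w = ww a (fun n => h ((ns ∘ σ) n))
    (fun n z => ((((c ∘ σ) n * u ((ns ∘ σ) n) z : ℝ)) : ℂ)) := ⟨_, rfl⟩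
  rw [← hw] at A'
  have wv : ∀ q n, ∀ z ∈ interior K, w q n z =
      ((c (σ n) : ℝ) : ℂ) * ww a h (fun n z => (u n z : ℂ)) q (ns (σ n)) z := by
    intro q n z hz
    rw [hw]
    have h1 := ww_scale hB (H.sa.mono hBΩ) (fun n => h ((ns ∘ σ) n)) H1.sm (c ∘ σ) q n hz
    have h2 := congrFun (ww_sub a h (fun n z => (u n z : ℂ)) (ns ∘ σ) q n) z
    rw [h1]
    exact congrArg (fun x => ((c (σ n) : ℝ) : ℂ) * x) h2
  have HG' := HG.cmp hBΩ (hns.comp hσ.tendsto_atTop)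
  obtain ⟨G', hG'⟩ : ∃ G' : ℕ → ℂ → ℂ, G' = fun n => G ((ns ∘ σ) n) := ⟨_, rfl⟩
  rw [← hG'] at HG'
  -- the target
  have tgt : ∀ n, ((√(1 + ∫ z in K, u (ns (σ n)) z ^ 4) : ℝ) : ℂ)⁻¹ * (∫ z, (φ z : ℂ) *
      (ww a h (fun n z => (u n z : ℂ)) i (ns (σ n)) z * ww a h (fun n z => (u n z : ℂ)) j
        (ns (σ n)) z * G (ns (σ n)) z)) = jm w G' φ i j n := by
    intro n
    have e1 : ((√(1 + ∫ z in K, u (ns (σ n)) z ^ 4) : ℝ) : ℂ)⁻¹ = ((c (σ n) ^ 2 : ℝ) : ℂ) := by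
      rw [c2, hT]; push_cast; rfl
    rw [e1]
    unfold jm
    rw [← integral_const_mul]
    congr 1; funext z
    by_cases hz : z ∈ interior K
    · rw [wv i n z hz, wv j n z hz, hG']
      simp only [Function.comp_def]
      push_cast
      ring
    · rw [TF.zero hφ hz]; simp
  refine Tendsto.congr (fun n => (tgt n).symm) ?_
  -- bounds for the third factor
  obtain ⟨C, hC⟩ := HG'.lb.bd _ hχ.2.1 hχ.2.2
  obtain ⟨D, hD⟩ : ∃ D : ℝ, D = |Mφ| * |C| := ⟨_, rfl⟩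
  have hD0 : 0 ≤ D := by rw [hD]; positivity
  have cG : ∀ n, ContinuousOn (G' n) (interior K) := fun n => HG'.lb.co n
  have m3 : ∀ᶠ n in atTop, ∫ z, χ z * ‖G' n z‖ ^ 2 ≤ D := by
    refine hC.mono fun n g2 => ?_
    have i2 : Integrable (fun z => χ z * ‖G' n z‖ ^ 2) :=
      Pool.Agent.W311.RW.int_mul hB hχ ((cG n).norm.pow 2)
    have e1 : ∫ z, χ z * ‖G' n z‖ ^ 2 ≤ |Mφ| * ∫ z in tsupport χ, ‖G' n z‖ ^ 2 := by
      rw [← integral_const_mul, ← integral_indicator hχ.2.1.measurableSet]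
      have i3 : IntegrableOn (fun z => |Mφ| * ‖G' n z‖ ^ 2) (tsupport χ) :=
        ((continuousOn_const.mul ((cG n).norm.pow 2)).mono hχ.2.2).integrableOn_compact hχ.2.1
      refine integral_mono i2 ((integrable_indicator_iff hχ.2.1.measurableSet).2 i3) fun z => ?_
      by_cases hz : z ∈ tsupport χ
      · rw [Set.indicator_of_mem hz]
        exact mul_le_mul_of_nonneg_right (hχM z) (by positivity)
      · rw [Set.indicator_of_notMem hz]
        show χ z * _ ≤ 0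
        rw [image_eq_zero_of_notMem_tsupport hz, zero_mul]
    refine e1.trans ?_
    rw [hD]
    exact mul_le_mul_of_nonneg_left (g2.trans (le_abs_self C)) (abs_nonneg Mφ)
  -- the general inequality
  have GI : ∀ (s : Finset ℤ) (α : ℤ → ℂ) (ε : ℝ), 0 < ε → ∀ᶠ n in atTop,
      ‖∑ k ∈ s, α k * jm w G' φ (i + k) (j - k) n‖ ^ 2 ≤
        D * (Gam (MM m ea ν) χ A |Mφ| (i - j) s α + ε) := by
    intro s α ε hε
    have b := (hns.comp hσ.tendsto_atTop).eventually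
      (FA_bd hm hp H hK hKΩ hχ hχnn i j s α hε)
    filter_upwards [b, m3] with n hn1 hn2
    have cw : ∀ q, ContinuousOn (w q n) (interior K) := fun q => (A'.bd q).co n
    have cF : ContinuousOn (FA w i j s α n) (interior K) := by
      unfold FA
      exact continuousOn_finsetSum _ fun q _ => continuousOn_const.mul ((cw _).mul (cw _))
    have e1 : ∑ k ∈ s, α k * jm w G' φ (i + k) (j - k) n =
        ∫ z, (φ z : ℂ) * (FA w i j s α n z * G' n z) := by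
      unfold jm FA
      simp only [← integral_const_mul]
      rw [← integral_finsetSum _ fun k _ => ((jm_int A' cG hφ _ _ n).const_mul _)]
      congr 1; funext z
      rw [Finset.sum_mul, Finset.mul_sum]
      refine Finset.sum_congr rfl fun k _ => ?_
      ring
    rw [e1]
    refine (wcs hB hχ hχnn hχφ cF (cG n)).trans ?_
    have m2 : ∫ z, χ z * ‖FA w i j s α n z‖ ^ 2 ≤
        Gam (MM m ea ν) χ A |Mφ| (i - j) s α + ε := by
      have e2 : ∀ z, χ z * ‖FA w i j s α n z‖ ^ 2 = (T (σ n))⁻¹ * (χ z *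
          ‖FA (ww a h (fun n z => (u n z : ℂ))) i j s α (ns (σ n)) z‖ ^ 2) := by
        intro z
        by_cases hz : z ∈ interior K
        · have e2 : FA w i j s α n z = ((c (σ n) : ℝ) : ℂ) ^ 2 *
              FA (ww a h (fun n z => (u n z : ℂ))) i j s α (ns (σ n)) z := by
            unfold FA
            rw [Finset.mul_sum]
            refine Finset.sum_congr rfl fun q _ => ?_
            rw [wv _ n z hz, wv _ n z hz]
            ring
          rw [e2, norm_mul, mul_pow, norm_pow, norm_real, Real.norm_eq_abs,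
            abs_of_pos (cpos _), ← pow_mul, c4]
          ring
        · rw [TF.zero hχ hz]; simp
      simp only [e2]
      rw [integral_const_mul, inv_mul_le_iff₀ (by linarith [T1 (σ n)])]
      simp only [Function.comp_def] at hn1
      rw [← hAd, ← hT] at hn1
      refine hn1.trans ?_
      have Tn := T1 (σ n)
      have n1 : 0 ≤ A * ‖∑ k ∈ s, sg k * α k‖ ^ 2 + ∑ k ∈ s, ∑ l ∈ s, ‖α k‖ * ‖α l‖ *
          (fK (MM m ea ν) χ (k - l) + fK (MM m ea ν) χ (i - j + k + l)) := by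
        refine add_nonneg (by positivity) (Finset.sum_nonneg fun k _ =>
          Finset.sum_nonneg fun l _ => mul_nonneg (by positivity) (add_nonneg (f0 _) (f0 _)))
      have n2 : 0 ≤ ‖∑ k ∈ s, α k‖ ^ 2 + ‖∑ k ∈ s, sg k * α k‖ ^ 2 := by positivity
      have n3 : ∫ z, χ z * u (ns (σ n)) z ^ 4 ≤ |Mφ| * T (σ n) := by
        have i4 : Integrable (fun z => χ z * u (ns (σ n)) z ^ 4) :=
          Pool.Agent.W311.RW.int_mul hB hχ (((H.sm _).continuousOn.mono hBΩ).pow 4)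
        have e3 : ∫ z, χ z * u (ns (σ n)) z ^ 4 ≤ |Mφ| * ∫ z in K, u (ns (σ n)) z ^ 4 := by
          rw [← integral_const_mul, ← integral_indicator hK.measurableSet]
          have i3 : IntegrableOn (fun z => |Mφ| * u (ns (σ n)) z ^ 4) K :=
            (continuousOn_const.mul (cu _)).integrableOn_compact hK
          refine integral_mono i4 ((integrable_indicator_iff hK.measurableSet).2 i3) fun z => ?_
          by_cases hz : z ∈ K
          · rw [Set.indicator_of_mem hz]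
            exact mul_le_mul_of_nonneg_right (hχM z) (by positivity)
          · rw [Set.indicator_of_notMem hz]
            show χ z * _ ≤ 0
            rw [TF.zero hχ (fun h => hz (interior_subset h)), zero_mul]
        refine e3.trans (mul_le_mul_of_nonneg_left ?_ (abs_nonneg _))
        rw [hT]; linarith
      have n4 := mul_le_mul_of_nonneg_left n3 n2
      have n5 := mul_le_mul_of_nonneg_right Tn n1
      unfold Gam
      nlinarith
    have g0 : 0 ≤ ∫ z, χ z * ‖FA w i j s α n z‖ ^ 2 :=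
      integral_nonneg fun z => mul_nonneg (hχnn z) (sq_nonneg _)
    have g1 : 0 ≤ ∫ z, χ z * ‖G' n z‖ ^ 2 :=
      integral_nonneg fun z => mul_nonneg (hχnn z) (sq_nonneg _)
    rw [mul_comm D]
    exact mul_le_mul m2 hn2 g1 (g0.trans m2)
  -- contradiction
  by_contra hcon
  obtain ⟨ε, hε, hfr⟩ : ∃ ε : ℝ, 0 < ε ∧ ∃ᶠ n in atTop, ε ≤ ‖jm w G' φ i j n‖ := by
    rw [Metric.tendsto_nhds] at hcon
    push Not at hcon
    obtain ⟨ε, hε, hfr⟩ := hcon
    refine ⟨ε, hε, hfr.mono fun n hn => ?_⟩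
    rwa [dist_zero_right] at hn
  have hne : (atTop ⊓ 𝓟 {n | ε ≤ ‖jm w G' φ i j n‖}).NeBot := frequently_mem_iff_neBot.1 hfr
  obtain ⟨U, hU⟩ : ∃ U : Ultrafilter ℕ, (U : Filter ℕ) ≤
    atTop ⊓ 𝓟 {n | ε ≤ ‖jm w G' φ i j n‖} := ⟨Ultrafilter.of _, Ultrafilter.of_le _⟩
  have hU1 : (U : Filter ℕ) ≤ atTop := hU.trans inf_le_left
  have hU2 : (U : Filter ℕ) ≤ 𝓟 {n | ε ≤ ‖jm w G' φ i j n‖} := hU.trans inf_le_right
  obtain ⟨S, hS⟩ : ∃ S : ℝ, S = √(D * (3 * A + 2 * |Mφ| + 1)) := ⟨_, rfl⟩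
  have sb : ∀ k : ℤ, ∀ᶠ n in atTop, ‖jm w G' φ (i + k) (j - k) n‖ ≤ S := by
    intro k
    refine (GI {k} (fun _ => 1) 1 one_pos).mono fun n hn => ?_
    simp only [Finset.sum_singleton, one_mul, Gam, mul_one, norm_one, one_pow, sg_norm] at hn
    rw [hS]
    refine Real.le_sqrt_of_sq_le (hn.trans (mul_le_mul_of_nonneg_left ?_ hD0))
    have a1 := fA (k - k)
    have a2 := fA (i - j + k + k)
    linarith
  have ex : ∀ k : ℤ, ∃ L, Tendsto (fun n => jm w G' φ (i + k) (j - k) n) U (𝓝 L) := fun k =>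
    ul_ex U (hU1 (sb k))
  choose P hP using ex
  have hPS : ∀ k, ‖P k‖ ≤ S := fun k => le_of_tendsto (hP k).norm (hU1 (sb k))
  have hrec : ∀ k, P (k + 1) + P (k - 1) = ((R - 2 : ℝ) : ℂ) * P k := by
    intro k
    have t := (jm_three A' hB HG' hφ (i + k) (j - k)).mono_left hU1
    have t1 := hP (k + 1)
    have t2 := hP (k - 1)
    rw [show i + (k + 1) = i + k + 1 by ring, show j - (k + 1) = j - k - 1 by ring] at t1
    rw [show i + (k - 1) = i + k - 1 by ring, show j - (k - 1) = j - k + 1 by ring] at t2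
    have t3 := (t1.add t2).add ((hP k).const_mul (2 - (R : ℂ)))
    have e := tendsto_nhds_unique t t3
    push_cast
    linear_combination -e
  have GI2 : ∀ (s : Finset ℤ) (α : ℤ → ℂ), ‖∑ k ∈ s, α k * P k‖ ^ 2 ≤
      D * Gam (MM m ea ν) χ A |Mφ| (i - j) s α := by
    intro s α
    have t : Tendsto (fun n => ‖∑ k ∈ s, α k * jm w G' φ (i + k) (j - k) n‖ ^ 2) U
        (𝓝 (‖∑ k ∈ s, α k * P k‖ ^ 2)) :=
      ((tendsto_finsetSum s fun k _ => (hP k).const_mul (α k)).norm).pow 2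
    have h1 : ∀ ε : ℝ, 0 < ε → ‖∑ k ∈ s, α k * P k‖ ^ 2 ≤
        D * (Gam (MM m ea ν) χ A |Mφ| (i - j) s α + ε) := fun ε hε =>
      le_of_tendsto t (hU1 (GI s α ε hε))
    have h2 : Tendsto (fun ε : ℝ => D * (Gam (MM m ea ν) χ A |Mφ| (i - j) s α + ε)) (𝓝[>] 0)
        (𝓝 (D * (Gam (MM m ea ν) χ A |Mφ| (i - j) s α + 0))) := by
      refine Tendsto.mono_left ?_ nhdsWithin_le_nhds
      exact (continuous_const.mul (continuous_const.add continuous_id)).tendsto _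
    rw [add_zero] at h2
    exact ge_of_tendsto h2 (by filter_upwards [self_mem_nhdsWithin] with ε hε using h1 ε hε)
  have hml : ∀ k, ML (interior K) (MM m ea ν k) := fun k => MM_ml ea_meas ea_norm hmB k
  have hW : Tendsto (fun N : ℕ => ((N : ℝ) ^ 2)⁻¹ * ∑ p ∈ Finset.Icc 1 N, ∑ l ∈ Finset.Icc 1 N,
      (fK (MM m ea ν) χ ((p : ℤ) - l) + fK (MM m ea ν) χ ((p : ℤ) + l))) atTop (𝓝 0) := by
    have := SN0 (ν := ν) hB hmB hpB hχ
    simpa only [ss_fK hml hχ] using this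
  have P0 : P 0 = 0 := by
    refine rec_zero (D := D * (1 + A + 2 * |Mφ|)) (f := fK (MM m ea ν) χ) (q := i - j) hrec
      (by linarith) (fun h => hR4 (by linarith)) hPS (by positivity) f0 fA hW fun N α => ?_
    have g := GI2 ((Finset.Icc 1 N).map Nat.castEmbedding) (fun k => α k.toNat)
    unfold Gam at g
    simp only [Finset.sum_map, Nat.castEmbedding_apply, Int.toNat_natCast] at g
    refine g.trans ?_
    rw [mul_assoc]
    refine mul_le_mul_of_nonneg_left ?_ hD0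
    obtain ⟨X1, hX1⟩ : ∃ X1, X1 = ∑ k ∈ Finset.Icc 1 N, ∑ l ∈ Finset.Icc 1 N, ‖α k‖ * ‖α l‖ *
      (fK (MM m ea ν) χ ((k : ℤ) - l) + fK (MM m ea ν) χ (i - j + k + l)) := ⟨_, rfl⟩
    obtain ⟨X2, hX2⟩ : ∃ X2, X2 = ‖∑ k ∈ Finset.Icc 1 N, α k‖ ^ 2 := ⟨_, rfl⟩
    obtain ⟨X3, hX3⟩ : ∃ X3, X3 = ‖∑ k ∈ Finset.Icc 1 N, sg (k : ℤ) * α k‖ ^ 2 := ⟨_, rfl⟩
    rw [← hX1, ← hX2, ← hX3]
    have x1 : 0 ≤ X1 := by
      rw [hX1]
      exact Finset.sum_nonneg fun k _ => Finset.sum_nonneg fun l _ =>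
        mul_nonneg (by positivity) (add_nonneg (f0 _) (f0 _))
    have x2 : 0 ≤ X2 := by rw [hX2]; positivity
    have x3 : 0 ≤ X3 := by rw [hX3]; positivity
    have y1 := abs_nonneg Mφ
    have z1 := mul_nonneg A0 x1
    have z2 := mul_nonneg A0 x2
    have z3 := mul_nonneg y1 x1
    have z4 := mul_nonneg y1 x2
    have z5 := mul_nonneg y1 x3
    nlinarith
  have t0 := hP 0
  rw [P0, add_zero, sub_zero] at t0
  have t1 := t0.norm
  rw [norm_zero] at t1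
  have t2 := t1.eventually (gt_mem_nhds hε)
  have t3 : ∀ᶠ n in (U : Filter ℕ), ε ≤ ‖jm w G' φ i j n‖ := hU2 (mem_principal_self _)
  obtain ⟨n, hn1, hn2⟩ := (t2.and t3).exists
  linarith

end

end Pool.Agent.TH294.RG
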