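import Pool.Agent.TH294.RG.Jc5

/-!
Project RG (helper294): joint third order moments, the sharp inequality.
-/

set_option autoImplicit false
open MeasureTheory Filter Topology Complex ProbabilityTheory
open scoped ContDiff

namespace Pool.Agent.TH294.RG

open Pool.Agent.W745.RW Pool.Agent.TH294.RS

noncomputable section

variable {m : ℂ → ℝ} {ν : Kernel ℂ ℝ} {M : ℕ → ℂ → ℂ}

/-- **Second moments of combinations of products**, sharp form. -/
theorem FA_sharp [IsMarkovKernel ν] {Ω : Set ℂ}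
    (hm : ∀ K : Set ℂ, IsCompact K → K ⊆ Ω → MemLp m 2 (volume.restrict K))
    (hp : ∀ᵐ z ∂(volume.restrict Ω), par ea (ν z) = 0) {a : ℂ → ℝ} {h : ℕ → ℝ} {u : ℕ → ℂ → ℝ}
    (H : RawG Ω a h u (MM m ea ν)) {K : Set ℂ} (hK : IsCompact K) (hKΩ : K ⊆ Ω)
    {φ : ℂ → ℝ} (hφ : TF (interior K) φ) (hφ0 : ∀ z, 0 ≤ φ z) (i j : ℤ) (hij : Even (i + j)) (s : Finset ℤ)
    (α : ℤ → ℂ) {ε : ℝ} (hε : 0 < ε) :
    ∀ᶠ n in atTop, ∫ z, φ z * ‖FA (ww a h (fun n z => (u n z : ℂ))) i j s α n z‖ ^ 2 ≤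
      ((∫ z, φ z * (m z * m z)) * ‖∑ k ∈ s, sg k * α k‖ ^ 2 + ∑ k ∈ s, ∑ l ∈ s, ‖α k‖ * ‖α l‖ *
        (fK (MM m ea ν) φ (k - l) + fK (MM m ea ν) φ (i - j + k + l))) +
      (1 / 3 * ‖∑ k ∈ s, α k‖ ^ 2 + 2 / 3 * ‖∑ k ∈ s, sg k * α k‖ ^ 2) *
        ((∫ z, φ z * u n z ^ 4) - 3 * ∫ z, φ z * m z ^ 2) +
      ε * (1 + ∫ z in K, u n z ^ 4) := by
  have hB : IsOpen (interior K) := isOpen_interior
  have hBΩ : interior K ⊆ Ω := interior_subset.trans hKΩ
  have hmB : ∀ K' : Set ℂ, IsCompact K' → K' ⊆ interior K → MemLp m 2 (volume.restrict K') :=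
    fun K' hK' hKB => hm K' hK' (hKB.trans hBΩ)
  have gs := FA_gauss (fun k => MM_ml (ν := ν) ea_meas ea_norm hmB k) hφ hφ0
    (fun K => fK_MM (ν := ν) hmB hφ hφ0 K) i j s α
  have key := fam_rel hm hp H hK hKΩ hφ hφ0 (s ×ˢ s)
    (fun p : ℤ × ℤ => sg (i + j) * (α p.1 * (starRingEnd ℂ) (α p.2)))
    (fun p : ℤ × ℤ => ((i + p.1, j - p.1, -i - p.2, -j + p.2) : ℤ × ℤ × ℤ × ℤ))
    (C := 1 / 3 * ‖∑ k ∈ s, α k‖ ^ 2 + 2 / 3 * ‖∑ k ∈ s, sg k * α k‖ ^ 2) (fun ζ _ => by
      have e3' : ∀ p : ℤ × ℤ, ζ ^ (i + p.1 + (j - p.1) + (-i - p.2) + (-j + p.2)) = 1 := by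
        intro p
        rw [show i + p.1 + (j - p.1) + (-i - p.2) + (-j + p.2) = 0 by ring]
        exact zpow_zero ζ
      simp only [e3', mul_one]
      rw [Finset.sum_product]
      have e4 : ∀ k l : ℤ, sg (i + j) * (α k * (starRingEnd ℂ) (α l)) *
          ep2 (i + k) (j - k) (-i - l) (-j + l) = (α k * (starRingEnd ℂ) (α l)) *
          (if Even (i + j) then 1 / 3 + 2 / 3 * (sg k * sg l) else 1 / 3) := by
        intro k l
        rw [← ep2_FA]; ring
      simp only [e4]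
      have n1 : (0 : ℝ) ≤ ‖∑ k ∈ s, α k‖ ^ 2 := by positivity
      have n2 : (0 : ℝ) ≤ ‖∑ k ∈ s, sg k * α k‖ ^ 2 := by positivity
      simp only [if_pos hij]
      have e5 : ∑ k ∈ s, ∑ l ∈ s, (α k * (starRingEnd ℂ) (α l)) *
          (1 / 3 + 2 / 3 * (sg k * sg l)) =
          1 / 3 * ((∑ k ∈ s, α k) * ∑ l ∈ s, (starRingEnd ℂ) (α l)) +
          2 / 3 * ((∑ k ∈ s, sg k * α k) * ∑ l ∈ s, (starRingEnd ℂ) (sg l * α l)) := by
        rw [Finset.sum_mul_sum, Finset.sum_mul_sum, Finset.mul_sum, Finset.mul_sum,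
          ← Finset.sum_add_distrib]
        refine Finset.sum_congr rfl fun k _ => ?_
        rw [Finset.mul_sum, Finset.mul_sum, ← Finset.sum_add_distrib]
        refine Finset.sum_congr rfl fun l _ => ?_
        rw [map_mul, sg_conj]; ring
      rw [e5, conj_sum_mul, conj_sum_mul]
      refine (norm_add_le _ _).trans ?_
      rw [norm_mul, norm_mul, norm_real, norm_real, Real.norm_eq_abs, Real.norm_eq_abs,
        abs_of_nonneg n1, abs_of_nonneg n2]
      norm_num) hε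
  refine key.mono fun n hn => ?_
  simp only [Finset.sum_product] at hn
  have T0 : 0 ≤ ∫ z in K, u n z ^ 4 := integral_nonneg fun z => by positivity
  -- the second moment
  have hu : ∀ n z, (starRingEnd ℂ) ((u n z : ℂ)) = (u n z : ℂ) := fun n z => conj_ofReal _
  have wc : ∀ k, ContinuousOn (ww a h (fun n z => (u n z : ℂ)) k n) (interior K) := fun k =>
    ((H.cmp hBΩ (σ := id) tendsto_id).lb2 hB k).co n
  have e1 : ∑ k ∈ s, ∑ l ∈ s, (sg (i + j) * (α k * (starRingEnd ℂ) (α l))) * (∫ z, (φ z : ℂ) *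
      (W1 a (h n) (u n) (i + k) z * W1 a (h n) (u n) (j - k) z *
      W1 a (h n) (u n) (-i - l) z * W1 a (h n) (u n) (-j + l) z)) =
      ((∫ z, φ z * ‖FA (ww a h (fun n z => (u n z : ℂ))) i j s α n z‖ ^ 2 : ℝ) : ℂ) := by
    simp only [W1_eq]
    have ii : ∀ k l : ℤ, Integrable (fun z => (sg (i + j) * (α k * (starRingEnd ℂ) (α l))) *
        ((φ z : ℂ) * (ww a h (fun n z => (u n z : ℂ)) (i + k) n z *
        ww a h (fun n z => (u n z : ℂ)) (j - k) n z *
        ww a h (fun n z => (u n z : ℂ)) (-i - l) n z *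
        ww a h (fun n z => (u n z : ℂ)) (-j + l) n z))) := fun k l =>
      (TF.cint hφ ((((wc _).mul (wc _)).mul (wc _)).mul (wc _))).const_mul _
    simp only [← integral_const_mul]
    have e0 : ∀ k ∈ s, ∑ l ∈ s, ∫ z, (sg (i + j) * (α k * (starRingEnd ℂ) (α l))) *
        ((φ z : ℂ) * (ww a h (fun n z => (u n z : ℂ)) (i + k) n z *
        ww a h (fun n z => (u n z : ℂ)) (j - k) n z *
        ww a h (fun n z => (u n z : ℂ)) (-i - l) n z *
        ww a h (fun n z => (u n z : ℂ)) (-j + l) n z)) =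
        ∫ z, ∑ l ∈ s, (sg (i + j) * (α k * (starRingEnd ℂ) (α l))) *
        ((φ z : ℂ) * (ww a h (fun n z => (u n z : ℂ)) (i + k) n z *
        ww a h (fun n z => (u n z : ℂ)) (j - k) n z *
        ww a h (fun n z => (u n z : ℂ)) (-i - l) n z *
        ww a h (fun n z => (u n z : ℂ)) (-j + l) n z)) := fun k _ =>
      (integral_finsetSum _ fun l _ => ii k l).symm
    rw [Finset.sum_congr rfl e0, ← integral_finsetSum _ fun k _ => integrable_finsetSum _
      fun l _ => ii k l, ← integral_complex_ofReal]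
    congr 1; funext z
    rw [show ((φ z * ‖FA (ww a h (fun n z => (u n z : ℂ))) i j s α n z‖ ^ 2 : ℝ) : ℂ) =
      (φ z : ℂ) * (FA (ww a h (fun n z => (u n z : ℂ))) i j s α n z *
        (starRingEnd ℂ) (FA (ww a h (fun n z => (u n z : ℂ))) i j s α n z)) by
        rw [Complex.mul_conj, Complex.normSq_eq_norm_sq]; push_cast; ring]
    have f2 : (starRingEnd ℂ) (FA (ww a h (fun n z => (u n z : ℂ))) i j s α n z) =
        ∑ l ∈ s, sg (i + j) * ((starRingEnd ℂ) (α l) *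
          (ww a h (fun n z => (u n z : ℂ)) (-i - l) n z *
          ww a h (fun n z => (u n z : ℂ)) (-j + l) n z)) := by
      unfold FA
      rw [map_sum]
      refine Finset.sum_congr rfl fun l _ => ?_
      rw [map_mul, map_mul, ww_cj a h hu, ww_cj a h hu]
      have s1 : sg (i + l) * sg (j - l) = sg (i + j) := by
        rw [← sg_add]; congr 1; ring
      rw [show -(i + l) = -i - l by ring, show -(j - l) = -j + l by ring, ← s1]
      ring
    rw [f2]
    unfold FA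
    rw [Finset.sum_mul, Finset.mul_sum]
    refine Finset.sum_congr rfl fun k _ => ?_
    rw [Finset.mul_sum, Finset.mul_sum]
    refine Finset.sum_congr rfl fun l _ => ?_
    ring
  rw [e1] at hn
  have h1 := norm_sub_norm_le (((∫ z, φ z * ‖FA (ww a h (fun n z => (u n z : ℂ))) i j s α n z‖ ^ 2 :
    ℝ) : ℂ)) (∑ k ∈ s, ∑ l ∈ s, (sg (i + j) * (α k * (starRingEnd ℂ) (α l))) *
      ∫ z, (φ z : ℂ) * GG' (MM m ea ν) (i + k) (j - k) (-i - l) (-j + l) z)
  have h2 : (∫ z, φ z * ‖FA (ww a h (fun n z => (u n z : ℂ))) i j s α n z‖ ^ 2) ≤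
      ‖((∫ z, φ z * ‖FA (ww a h (fun n z => (u n z : ℂ))) i j s α n z‖ ^ 2 : ℝ) : ℂ)‖ := by
    rw [norm_real]; exact le_abs_self _
  linarith

lemma lin_bd {P : ℤ → ℂ} {S : ℝ} (hrec : ∀ k, P (k + 1) + P (k - 1) = 2 * P k)
    (hS : ∀ k, ‖P k‖ ≤ S) (n : ℕ) : P n = P 0 := by
  have h1 : ∀ n : ℕ, P ((n : ℤ) + 1) - P n = P 1 - P 0 := by
    intro n
    induction n with
    | zero => simp
    | succ n ih =>
      have h := hrec ((n : ℤ) + 1)
      rw [add_sub_cancel_right] at h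
      push_cast
      linear_combination h + ih
  have h2 : ∀ n : ℕ, P n = P 0 + n * (P 1 - P 0) := by
    intro n
    induction n with
    | zero => simp
    | succ n ih =>
      have h := h1 n
      push_cast
      linear_combination h + ih
  have h3 : ∀ n : ℕ, (n : ℝ) * ‖P 1 - P 0‖ ≤ 2 * S := by
    intro n
    have e : (n : ℝ) * ‖P 1 - P 0‖ = ‖P n - P 0‖ := by
      rw [h2 n, add_sub_cancel_left, norm_mul, Complex.norm_natCast]
    rw [e]
    refine (norm_sub_le _ _).trans ?_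
    have := hS n
    have := hS 0
    linarith
  have h4 : ‖P 1 - P 0‖ = 0 := by
    by_contra hne
    have hpos : 0 < ‖P 1 - P 0‖ := lt_of_le_of_ne (norm_nonneg _) (Ne.symm hne)
    obtain ⟨n, hn⟩ := exists_nat_gt (2 * S / ‖P 1 - P 0‖)
    rw [div_lt_iff₀ hpos] at hn
    linarith [h3 n]
  rw [h2 n, norm_eq_zero.1 h4]; ring

lemma sum_sg (N : ℕ) : ‖∑ k ∈ Finset.Icc 1 N, sg (k : ℤ)‖ ≤ 1 := by
  have h : ∑ k ∈ Finset.Icc 1 N, sg (k : ℤ) = if Even N then 0 else -1 := by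
    induction N with
    | zero => simp
    | succ N ih =>
      rw [Finset.sum_Icc_succ_top (by omega), ih]
      by_cases hN : Even N
      · have h1 : ¬ Even (N + 1) := by
          rw [Nat.even_add_one, not_not]; exact hN
        have h2 : ¬ Even ((N + 1 : ℕ) : ℤ) := by
          rw [Int.even_coe_nat]; exact h1
        rw [if_pos hN, if_neg h1, sg_odd h2, zero_add]
      · have h1 : Even (N + 1) := by
          rw [Nat.even_add_one]; exact hN
        have h2 : Even ((N + 1 : ℕ) : ℤ) := by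
          rw [Int.even_coe_nat]; exact h1
        rw [if_neg hN, if_pos h1, sg_even h2]; ring
  rw [h]
  split_ifs <;> simp

end

end Pool.Agent.TH294.RG
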