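import Pool.Agent.TH294.RG.Jc6

/-!
Project RG (helper294): joint third order moments at the two exceptional frequencies.
-/

set_option autoImplicit false
open MeasureTheory Filter Topology Complex ProbabilityTheory
open scoped ContDiff

namespace Pool.Agent.TH294.RG

open Pool.Agent.W745.RW Pool.Agent.TH294.RS

noncomputable section

variable {m : ℂ → ℝ} {ν : Kernel ℂ ℝ} {M : ℕ → ℂ → ℂ}

lemma ul_exR (U : Ultrafilter ℕ) {x : ℕ → ℝ} {C : ℝ} (h : ∀ᶠ n in (U : Filter ℕ), |x n| ≤ C) :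
    ∃ L, Tendsto x U (𝓝 L) := by
  obtain ⟨L, hL⟩ := ul_ex U (x := fun n => (x n : ℂ)) (C := C) (h.mono fun n hn => by
    rw [norm_real]; exact hn)
  refine ⟨L.re, ?_⟩
  have := (Complex.continuous_re.tendsto _).comp hL
  simpa [Function.comp_def] using this

lemma av_sg : Tendsto (fun N : ℕ => ‖∑ k ∈ Finset.Icc 1 N, (N : ℂ)⁻¹ * sg (k : ℤ)‖ ^ 2) atTop
    (𝓝 0) := by
  have inv0 := tendsto_inv_atTop_nhds_zero_nat (𝕜 := ℝ)
  have l := inv0.mul inv0
  rw [mul_zero] at l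
  refine squeeze_zero (fun N => by positivity) (fun N => ?_) l
  rw [← Finset.mul_sum, norm_mul, norm_inv, Complex.norm_natCast, mul_pow, sq]
  refine mul_le_of_le_one_right (by positivity) ?_
  exact pow_le_one₀ (norm_nonneg _) (sum_sg N)

lemma av_one : Tendsto (fun N : ℕ => ‖∑ _k ∈ Finset.Icc 1 N, (N : ℂ)⁻¹ * (1 : ℂ)‖ ^ 2) atTop
    (𝓝 1) := by
  refine tendsto_const_nhds.congr' ?_
  filter_upwards [eventually_gt_atTop 0] with N hN
  have h0 : (N : ℂ) ≠ 0 := by exact_mod_cast hN.ne'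
  rw [Finset.sum_const, Nat.card_Icc, Nat.add_sub_cancel, nsmul_eq_mul, mul_one,
    mul_inv_cancel₀ h0]
  simp

/-- the weight -/
def Cw (s : Finset ℤ) (α : ℤ → ℂ) : ℝ :=
  1 / 3 * ‖∑ k ∈ s, α k‖ ^ 2 + 2 / 3 * ‖∑ k ∈ s, sg k * α k‖ ^ 2

/-- the cross terms -/
def Sw (M : ℕ → ℂ → ℂ) (φ : ℂ → ℝ) (s : Finset ℤ) (α : ℤ → ℂ) : ℝ :=
  ∑ k ∈ s, ∑ l ∈ s, ‖α k‖ * ‖α l‖ * (fK M φ (k - l) + fK M φ (0 - 0 + k + l))

/-- the cross terms average to zero -/
lemma Sw_lim [IsMarkovKernel ν] {B : Set ℂ} (hB : IsOpen B)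
    (hm : ∀ K : Set ℂ, IsCompact K → K ⊆ B → MemLp m 2 (volume.restrict K))
    (hp : ∀ᵐ z ∂(volume.restrict B), par ea (ν z) = 0) {φ : ℂ → ℝ} (hφ : TF B φ)
    {τ : ℤ → ℂ} (hτ : ∀ k, ‖τ k‖ = 1) :
    Tendsto (fun N : ℕ => Sw (MM m ea ν) φ ((Finset.Icc 1 N).map Nat.castEmbedding)
      (fun k => (N : ℂ)⁻¹ * τ k)) atTop (𝓝 0) := by
  have hml : ∀ k, ML B (MM m ea ν k) := fun k => MM_ml ea_meas ea_norm hm k
  have h := SN0 (ν := ν) hB hm hp hφ
  simp only [ss_fK hml hφ] at h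
  refine h.congr fun N => ?_
  unfold Sw
  simp only [Finset.sum_map, Nat.castEmbedding_apply, norm_mul, hτ, mul_one, norm_inv,
    Complex.norm_natCast]
  rw [Finset.mul_sum]
  refine Finset.sum_congr rfl fun k _ => ?_
  rw [Finset.mul_sum]
  refine Finset.sum_congr rfl fun l _ => ?_
  rw [show (0 : ℤ) - 0 + k + l = (k : ℤ) + l by ring, sq, mul_inv]

/-- **Joint third order moments at the exceptional frequencies.** -/
theorem joint_ineq [IsMarkovKernel ν] {Ω : Set ℂ}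
    (hm : ∀ K : Set ℂ, IsCompact K → K ⊆ Ω → MemLp m 2 (volume.restrict K))
    (hms : ContDiffOn ℝ ∞ m Ω)
    (hp : ∀ᵐ z ∂(volume.restrict Ω), par ea (ν z) = 0) {a : ℂ → ℝ} {h : ℕ → ℝ} {u : ℕ → ℂ → ℝ}
    (H : RawG Ω a h u (MM m ea ν)) {q : ℕ → ℝ} {R : ℝ} {G : ℕ → ℂ → ℂ}
    (HG : GS Ω a h q R G) (hR : R = 0 ∨ R = 4) {K : Set ℂ} (hK : IsCompact K) (hKΩ : K ⊆ Ω)
    {φ : ℂ → ℝ} (hφ : TF (interior K) φ) (hφ0 : ∀ z, 0 ≤ φ z)
    (hG0 : Tendsto (fun n => ∫ z, (φ z : ℂ) * ((m z : ℂ) * G n z)) atTop (𝓝 0))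
    {ε : ℝ} (hε : 0 < ε) :
    ∀ᶠ n in atTop, ‖∫ z, (φ z : ℂ) * ((u n z : ℂ) ^ 2 * G n z)‖ ^ 2 ≤
      (if R = 0 then 2 / 3 else 1 / 3) * ((∫ z, φ z * u n z ^ 4) - 3 * ∫ z, φ z * m z ^ 2) *
        (∫ z, φ z * ‖G n z‖ ^ 2) + ε * (1 + ∫ z in K, u n z ^ 4) := by
  have hB : IsOpen (interior K) := isOpen_interior
  have hBΩ : interior K ⊆ Ω := interior_subset.trans hKΩ
  have hmB : ∀ K' : Set ℂ, IsCompact K' → K' ⊆ interior K → MemLp m 2 (volume.restrict K') :=
    fun K' hK' hKB => hm K' hK' (hKB.trans hBΩ)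
  have hpB : ∀ᵐ z ∂(volume.restrict (interior K)), par ea (ν z) = 0 :=
    ae_restrict_of_ae_restrict_of_subset hBΩ hp
  have cu : ∀ n, ContinuousOn (fun z => u n z ^ 4) K := fun n =>
    ((H.sm n).continuousOn.mono hKΩ).pow 4
  have T0 : ∀ n, 0 ≤ ∫ z in K, u n z ^ 4 := fun n => integral_nonneg fun z => by positivity
  obtain ⟨Mφ, hMφ⟩ := hφ.2.1.exists_bound_of_continuousOn hφ.1.continuous.continuousOn
  have hφM : ∀ z, φ z ≤ |Mφ| := by
    intro z
    by_cases hz : z ∈ tsupport φ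
    · exact (le_abs_self _).trans ((hMφ z hz).trans (le_abs_self _))
    · rw [image_eq_zero_of_notMem_tsupport hz]; exact abs_nonneg _
  obtain ⟨A, hAd⟩ : ∃ A : ℝ, A = ∫ z, φ z * (m z * m z) := ⟨_, rfl⟩
  have hA2 : ∫ z, φ z * m z ^ 2 = A := by
    rw [hAd]; congr 1; funext z; ring
  have fA : ∀ k, fK (MM m ea ν) φ k ≤ A := fun k => by
    rw [hAd]; exact fK_MM (ν := ν) hmB hφ hφ0 k
  have f0 : ∀ k, 0 ≤ fK (MM m ea ν) φ k := fun k => fK_nn hφ0 k
  have A0 : 0 ≤ A := (f0 0).trans (fA 0)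
  obtain ⟨cR, hcR⟩ : ∃ cR : ℝ, cR = if R = 0 then 2 / 3 else 1 / 3 := ⟨_, rfl⟩
  rw [← hcR, hA2]
  by_contra hcon
  rw [not_eventually] at hcon
  obtain ⟨ns, hns', hnsf⟩ := extraction_of_frequently_atTop hcon
  have hns := hns'.tendsto_atTop
  obtain ⟨T, hT⟩ : ∃ T : ℕ → ℝ, ∀ n, T n = 1 + ∫ z in K, u (ns n) z ^ 4 := ⟨_, fun _ => rfl⟩
  have T1 : ∀ n, 1 ≤ T n := fun n => by rw [hT]; linarith [T0 (ns n)]
  obtain ⟨c, hc⟩ : ∃ c : ℕ → ℝ, ∀ n, c n = (T n) ^ (-(1 / 4 : ℝ)) := ⟨_, fun _ => rfl⟩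
  have cpos : ∀ n, 0 < c n := fun n => by
    rw [hc]; exact Real.rpow_pos_of_pos (by linarith [T1 n]) _
  have cle : ∀ n, c n ≤ 1 := fun n => by
    rw [hc]; exact Real.rpow_le_one_of_one_le_of_nonpos (T1 n) (by norm_num)
  have c4 : ∀ n, c n ^ 4 = (T n)⁻¹ := by
    intro n
    rw [hc, ← Real.rpow_natCast, ← Real.rpow_mul (by linarith [T1 n])]
    norm_num
    rw [Real.rpow_neg_one]
  obtain ⟨κ, hκ, σ, hσ, hσc⟩ := isCompact_Icc.tendsto_subseq (s := Set.Icc (0 : ℝ) 1)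
    (x := c) (fun n => ⟨(cpos n).le, cle n⟩)
  have H1 := H.cmp hBΩ (hns.comp hσ.tendsto_atTop)
  have H2 := H1.scale2 hB hσc
  have A' := H2.as hB (fun k => ((MM_ml ea_meas ea_norm (B := interior K) (ν := ν) hmB) k).cmul _)
    (fun z => by rw [MM_0, map_mul, map_pow, conj_ofReal, conj_ofReal])
    (fun K' hK' hKB => ⟨1, Eventually.of_forall fun n => by
      have e1 : ∀ z, ((c ∘ σ) n * u ((ns ∘ σ) n) z) ^ 4 = (T (σ n))⁻¹ * u (ns (σ n)) z ^ 4 := by
        intro z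
        show (c (σ n) * u (ns (σ n)) z) ^ 4 = _
        rw [mul_pow, c4]
      simp only [e1]
      rw [integral_const_mul, inv_mul_le_iff₀ (by linarith [T1 (σ n)]), mul_one, hT]
      have : ∫ z in K', u (ns (σ n)) z ^ 4 ≤ ∫ z in K, u (ns (σ n)) z ^ 4 := by
        refine setIntegral_mono_set ((cu _).integrableOn_compact hK)
          (ae_of_all _ fun z => by positivity) ?_
        exact (hKB.trans interior_subset).eventuallyLE
      linarith⟩)
  obtain ⟨w, hw⟩ : ∃ w : ℤ → ℕ → ℂ → ℂ, w = ww a (fun n => h ((ns ∘ σ) n))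
    (fun n z => ((((c ∘ σ) n * u ((ns ∘ σ) n) z : ℝ)) : ℂ)) := ⟨_, rfl⟩
  rw [← hw] at A'
  have wv : ∀ q n, ∀ z ∈ interior K, w q n z =
      ((c (σ n) : ℝ) : ℂ) * ww a h (fun n z => (u n z : ℂ)) q (ns (σ n)) z := by
    intro q n z hz
    rw [hw]
    have h1 := ww_scale hB (H.sa.mono hBΩ) (fun n => h ((ns ∘ σ) n)) H1.sm (c ∘ σ) q n hz
    have h2 := congrFun (ww_sub a h (fun n z => (u n z : ℂ)) (ns ∘ σ) q n) z
    rw [h1]
    exact congrArg (fun x => ((c (σ n) : ℝ) : ℂ) * x) h2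
  have HG' := HG.cmp hBΩ (hns.comp hσ.tendsto_atTop)
  have hG0' := hG0.comp (hns.comp hσ.tendsto_atTop)
  obtain ⟨G', hG'⟩ : ∃ G' : ℕ → ℂ → ℂ, G' = fun n => G ((ns ∘ σ) n) := ⟨_, rfl⟩
  have hG0'' : Tendsto (fun n => ∫ z, (φ z : ℂ) * ((m z : ℂ) * G' n z)) atTop (𝓝 0) := by
    rw [hG']; exact hG0'
  rw [← hG'] at HG'
  have cG : ∀ n, ContinuousOn (G' n) (interior K) := fun n => HG'.lb.co n
  have cw : ∀ q n, ContinuousOn (w q n) (interior K) := fun q n => (A'.bd q).co n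
  have cm : ContinuousOn (fun z => (m z : ℂ)) (interior K) :=
    continuous_ofReal.comp_continuousOn (hms.continuousOn.mono hBΩ)
  -- the normalised quantities
  obtain ⟨dn, hdn⟩ : ∃ dn : ℕ → ℝ, ∀ n, dn n = (T (σ n))⁻¹ *
    ((∫ z, φ z * u (ns (σ n)) z ^ 4) - 3 * A) := ⟨_, fun _ => rfl⟩
  obtain ⟨gn, hgn⟩ : ∃ gn : ℕ → ℝ, ∀ n, gn n = ∫ z, φ z * ‖G' n z‖ ^ 2 := ⟨_, fun _ => rfl⟩
  have low : ∀ n, cR * dn n * gn n + ε ≤ ‖jm w G' φ 0 0 n‖ ^ 2 := by
    intro n
    have h1 := (not_le.1 (hnsf (σ n))).le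
    have Tp : 0 < T (σ n) := by linarith [T1 (σ n)]
    have e1 : ‖jm w G' φ 0 0 n‖ ^ 2 = (T (σ n))⁻¹ *
        ‖∫ z, (φ z : ℂ) * ((u (ns (σ n)) z : ℂ) ^ 2 * G (ns (σ n)) z)‖ ^ 2 := by
      have e2 : jm w G' φ 0 0 n = ((c (σ n) : ℝ) : ℂ) ^ 2 *
          ∫ z, (φ z : ℂ) * ((u (ns (σ n)) z : ℂ) ^ 2 * G (ns (σ n)) z) := by
        unfold jm
        rw [← integral_const_mul]
        congr 1; funext z
        by_cases hz : z ∈ interior K
        · rw [wv 0 n z hz, hG']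
          have : ww a h (fun n z => (u n z : ℂ)) 0 (ns (σ n)) z = (u (ns (σ n)) z : ℂ) := rfl
          rw [this]
          simp only [Function.comp_def]
          ring
        · rw [TF.zero hφ hz]; simp
      rw [e2, norm_mul, mul_pow, norm_pow, norm_real, Real.norm_eq_abs,
        abs_of_pos (cpos _), ← pow_mul, c4]
    rw [e1, hdn, hgn]
    have e3 : ∫ z, φ z * ‖G' n z‖ ^ 2 = ∫ z, φ z * ‖G (ns (σ n)) z‖ ^ 2 := by
      rw [hG']; rfl
    rw [e3, ← hT] at *
    have h2 := mul_le_mul_of_nonneg_left h1 (inv_pos.2 Tp).le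
    refine le_trans (le_of_eq ?_) h2
    field_simp
  -- bounds
  obtain ⟨C, hC⟩ := HG'.lb.bd _ hφ.2.1 hφ.2.2
  obtain ⟨D, hD⟩ : ∃ D : ℝ, D = |Mφ| * |C| := ⟨_, rfl⟩
  have gn0 : ∀ n, 0 ≤ gn n := fun n => by
    rw [hgn]; exact integral_nonneg fun z => mul_nonneg (hφ0 z) (sq_nonneg _)
  have m3 : ∀ᶠ n in atTop, gn n ≤ D := by
    refine hC.mono fun n g2 => ?_
    rw [hgn]
    have i2 : Integrable (fun z => φ z * ‖G' n z‖ ^ 2) :=
      Pool.Agent.W311.RW.int_mul hB hφ ((cG n).norm.pow 2)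
    have e1 : ∫ z, φ z * ‖G' n z‖ ^ 2 ≤ |Mφ| * ∫ z in tsupport φ, ‖G' n z‖ ^ 2 := by
      rw [← integral_const_mul, ← integral_indicator hφ.2.1.measurableSet]
      have i3 : IntegrableOn (fun z => |Mφ| * ‖G' n z‖ ^ 2) (tsupport φ) :=
        ((continuousOn_const.mul ((cG n).norm.pow 2)).mono hφ.2.2).integrableOn_compact hφ.2.1
      refine integral_mono i2 ((integrable_indicator_iff hφ.2.1.measurableSet).2 i3) fun z => ?_
      by_cases hz : z ∈ tsupport φ
      · rw [Set.indicator_of_mem hz]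
        exact mul_le_mul_of_nonneg_right (hφM z) (by positivity)
      · rw [Set.indicator_of_notMem hz]
        show φ z * _ ≤ 0
        rw [image_eq_zero_of_notMem_tsupport hz, zero_mul]
    refine e1.trans ?_
    rw [hD]
    exact mul_le_mul_of_nonneg_left (g2.trans (le_abs_self C)) (abs_nonneg Mφ)
  have dnb : ∀ n, |dn n| ≤ |Mφ| + 3 * A := by
    intro n
    have Tp : 0 < T (σ n) := by linarith [T1 (σ n)]
    have i4 : Integrable (fun z => φ z * u (ns (σ n)) z ^ 4) :=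
      Pool.Agent.W311.RW.int_mul hB hφ (((H.sm _).continuousOn.mono hBΩ).pow 4)
    have p1 : 0 ≤ ∫ z, φ z * u (ns (σ n)) z ^ 4 :=
      integral_nonneg fun z => mul_nonneg (hφ0 z) (by positivity)
    have p2 : ∫ z, φ z * u (ns (σ n)) z ^ 4 ≤ |Mφ| * T (σ n) := by
      have e3 : ∫ z, φ z * u (ns (σ n)) z ^ 4 ≤ |Mφ| * ∫ z in K, u (ns (σ n)) z ^ 4 := by
        rw [← integral_const_mul, ← integral_indicator hK.measurableSet]
        have i3 : IntegrableOn (fun z => |Mφ| * u (ns (σ n)) z ^ 4) K :=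
          (continuousOn_const.mul (cu _)).integrableOn_compact hK
        refine integral_mono i4 ((integrable_indicator_iff hK.measurableSet).2 i3) fun z => ?_
        by_cases hz : z ∈ K
        · rw [Set.indicator_of_mem hz]
          exact mul_le_mul_of_nonneg_right (hφM z) (by positivity)
        · rw [Set.indicator_of_notMem hz]
          show φ z * _ ≤ 0
          rw [TF.zero hφ (fun h => hz (interior_subset h)), zero_mul]
      refine e3.trans (mul_le_mul_of_nonneg_left ?_ (abs_nonneg _))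
      rw [hT]; linarith
    rw [hdn, abs_mul, abs_of_pos (inv_pos.2 Tp), inv_mul_le_iff₀ Tp, abs_le]
    have t1 := T1 (σ n)
    have t2 := mul_le_mul_of_nonneg_right t1 (show 0 ≤ 3 * A by linarith)
    have t3 : 0 ≤ |Mφ| * T (σ n) := mul_nonneg (abs_nonneg _) Tp.le
    constructor <;> nlinarith
  -- second moments
  have FB : ∀ (s : Finset ℤ) (α : ℤ → ℂ) (ε : ℝ), 0 < ε → ∀ᶠ n in atTop,
      ∫ z, φ z * ‖FA w 0 0 s α n z‖ ^ 2 ≤ c (σ n) ^ 4 * (A * ‖∑ k ∈ s, sg k * α k‖ ^ 2 +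
        Sw (MM m ea ν) φ s α) + Cw s α * dn n + ε := by
    intro s α ε hε
    refine ((hns.comp hσ.tendsto_atTop).eventually
      (FA_sharp hm hp H hK hKΩ hφ hφ0 0 0 ⟨0, rfl⟩ s α hε)).mono fun n hn1 => ?_
    have e2 : ∀ z, φ z * ‖FA w 0 0 s α n z‖ ^ 2 = (T (σ n))⁻¹ * (φ z *
        ‖FA (ww a h (fun n z => (u n z : ℂ))) 0 0 s α (ns (σ n)) z‖ ^ 2) := by
      intro z
      by_cases hz : z ∈ interior K
      · have e2 : FA w 0 0 s α n z = ((c (σ n) : ℝ) : ℂ) ^ 2 *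
            FA (ww a h (fun n z => (u n z : ℂ))) 0 0 s α (ns (σ n)) z := by
          unfold FA
          rw [Finset.mul_sum]
          refine Finset.sum_congr rfl fun q _ => ?_
          rw [wv _ n z hz, wv _ n z hz]
          ring
        rw [e2, norm_mul, mul_pow, norm_pow, norm_real, Real.norm_eq_abs,
          abs_of_pos (cpos _), ← pow_mul, c4]
        ring
      · rw [TF.zero hφ hz]; simp
    simp only [e2]
    have Tp : 0 < T (σ n) := by linarith [T1 (σ n)]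
    simp only [Function.comp_def] at hn1
    rw [← hAd, ← hT, hA2] at hn1
    rw [integral_const_mul, inv_mul_le_iff₀ Tp]
    refine hn1.trans (le_of_eq ?_)
    rw [c4, hdn]
    unfold Sw Cw
    field_simp
  -- limits along an ultrafilter
  obtain ⟨U, hU1⟩ : ∃ U : Ultrafilter ℕ, (U : Filter ℕ) ≤ atTop :=
    ⟨Ultrafilter.of _, Ultrafilter.of_le _⟩
  obtain ⟨d, hd⟩ := ul_exR U (Eventually.of_forall dnb)
  obtain ⟨g, hg⟩ := ul_exR U (x := gn) (C := D) ((m3.filter_mono hU1).mono fun n hn => by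
    rw [abs_of_nonneg (gn0 n)]; exact hn)
  have g0 : 0 ≤ g := ge_of_tendsto' hg gn0
  have hκ4 : Tendsto (fun n => c (σ n) ^ 4) U (𝓝 (κ ^ 4)) := (hσc.pow 4).mono_left hU1
  have κ1 : κ ^ 4 ≤ 1 := pow_le_one₀ hκ.1 hκ.2
  have κ0 : 0 ≤ κ ^ 4 := by positivity
  have Sw0 : ∀ s α, 0 ≤ Sw (MM m ea ν) φ s α := fun s α =>
    Finset.sum_nonneg fun k _ => Finset.sum_nonneg fun l _ =>
      mul_nonneg (by positivity) (add_nonneg (f0 _) (f0 _))
  -- Cauchy-Schwarz after subtraction of the mean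
  have CS : ∀ (s : Finset ℤ) (α : ℤ → ℂ) (ε : ℝ), 0 < ε → ∀ᶠ n in (U : Filter ℕ),
      ‖(∑ k ∈ s, α k * jm w G' φ (0 + k) (0 - k) n) - ((∑ k ∈ s, sg k * α k) * (κ : ℂ) ^ 2) *
        ∫ z, (φ z : ℂ) * ((m z : ℂ) * G' n z)‖ ^ 2 ≤
      (κ ^ 4 * Sw (MM m ea ν) φ s α + Cw s α * d + ε) * gn n := by
    intro s α ε hε
    obtain ⟨y, hy⟩ : ∃ y : ℂ, y = (∑ k ∈ s, sg k * α k) * (κ : ℂ) ^ 2 := ⟨_, rfl⟩
    obtain ⟨μ, hμ⟩ : ∃ μ : ℂ, μ = ∑ k ∈ s, sg k * α k := ⟨_, rfl⟩
    have cF : ∀ n, ContinuousOn (FA w 0 0 s α n) (interior K) := fun n => by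
      unfold FA
      exact continuousOn_finsetSum _ fun q _ => continuousOn_const.mul ((cw _ n).mul (cw _ n))
    have cF2 : ∀ n, ContinuousOn (fun z => FA w 0 0 s α n z - y * (m z : ℂ)) (interior K) :=
      fun n => (cF n).sub (continuousOn_const.mul cm)
    have e1 : ∀ n, (∑ k ∈ s, α k * jm w G' φ (0 + k) (0 - k) n) - y *
        ∫ z, (φ z : ℂ) * ((m z : ℂ) * G' n z) =
        ∫ z, (φ z : ℂ) * ((FA w 0 0 s α n z - y * (m z : ℂ)) * G' n z) := by
      intro n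
      have j1 : Integrable (fun z => (φ z : ℂ) * (FA w 0 0 s α n z * G' n z)) :=
        TF.cint hφ ((cF n).mul (cG n))
      have j2 : Integrable (fun z => (φ z : ℂ) * ((m z : ℂ) * G' n z)) :=
        TF.cint hφ (cm.mul (cG n))
      have e2 : ∑ k ∈ s, α k * jm w G' φ (0 + k) (0 - k) n =
          ∫ z, (φ z : ℂ) * (FA w 0 0 s α n z * G' n z) := by
        unfold jm FA
        simp only [← integral_const_mul]
        rw [← integral_finsetSum _ fun k _ => ((jm_int A' cG hφ _ _ n).const_mul _)]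
        congr 1; funext z
        rw [Finset.sum_mul, Finset.mul_sum]
        refine Finset.sum_congr rfl fun k _ => ?_
        ring
      rw [e2, ← integral_const_mul, ← integral_sub j1 (j2.const_mul _)]
      congr 1; funext z; ring
    have hφ2 : TF (interior K) (fun z => φ z * m z) := TF.mulc hB hφ (hms.mono hBΩ)
    -- the mean
    have mean : Tendsto (fun n => ∫ z, (((φ z * m z : ℝ)) : ℂ) * FA w 0 0 s α n z) U
        (𝓝 (y * (A : ℂ))) := by
      have h1 : ∀ k : ℤ, Tendsto (fun n => ∫ z, (((φ z * m z : ℝ)) : ℂ) *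
          (w (0 + k) n z * w (0 - k) n z)) U (𝓝 (sg k * ((κ : ℂ) ^ 2 * (A : ℂ)))) := by
        intro k
        have h2 := (((A'.two hB (0 + k) (0 - k)).lim _ hφ2).mono_left hU1)
        refine h2.trans_eq ?_
        congr 1
        have e3 : ∀ z, (((φ z * m z : ℝ)) : ℂ) * cc (fun j z => (κ : ℂ) ^ 2 * MM m ea ν j z)
            (0 + k) (0 - k) z = (sg k * (κ : ℂ) ^ 2) * ((φ z * (m z * m z) : ℝ) : ℂ) := by
          intro z
          rw [cc_sk]
          have : cc (fun j z => (κ : ℂ) ^ 2 * MM m ea ν j z) 0 0 z = (κ : ℂ) ^ 2 * (m z : ℂ) := by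
            simp [cc, MZ, MM_0]
          rw [this]; push_cast; ring
        simp only [e3]
        rw [integral_const_mul, integral_complex_ofReal, ← hAd]
        ring
      have h3 := tendsto_finsetSum s fun k _ => (h1 k).const_mul (α k)
      have e4 : ∑ k ∈ s, α k * (sg k * ((κ : ℂ) ^ 2 * (A : ℂ))) = y * (A : ℂ) := by
        rw [hy, Finset.sum_mul, Finset.sum_mul]
        refine Finset.sum_congr rfl fun k _ => ?_
        ring
      rw [e4] at h3
      refine h3.congr fun n => ?_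
      unfold FA
      have jj : ∀ k : ℤ, Integrable (fun z => α k * ((((φ z * m z : ℝ)) : ℂ) *
          (w (0 + k) n z * w (0 - k) n z))) := fun k =>
        (TF.cint hφ2 ((cw (0 + k) n).mul (cw (0 - k) n))).const_mul _
      simp only [← integral_const_mul]
      rw [← integral_finsetSum _ fun k _ => jj k]
      congr 1; funext z
      rw [Finset.mul_sum]
      refine Finset.sum_congr rfl fun k _ => ?_
      ring
    -- the variance
    have var : ∀ n, ∫ z, φ z * ‖FA w 0 0 s α n z - y * (m z : ℂ)‖ ^ 2 =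
        (∫ z, φ z * ‖FA w 0 0 s α n z‖ ^ 2) - 2 * ((starRingEnd ℂ) y *
          ∫ z, (((φ z * m z : ℝ)) : ℂ) * FA w 0 0 s α n z).re + ‖y‖ ^ 2 * A := by
      intro n
      have j1 : Integrable (fun z => φ z * ‖FA w 0 0 s α n z‖ ^ 2) :=
        Pool.Agent.W311.RW.int_mul hB hφ ((cF n).norm.pow 2)
      have j2 : Integrable (fun z => (starRingEnd ℂ) y * ((((φ z * m z : ℝ)) : ℂ) *
        FA w 0 0 s α n z)) := (TF.cint hφ2 (cF n)).const_mul _
      have j3 : Integrable (fun z => φ z * (m z * m z)) :=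
        Pool.Agent.W311.RW.int_mul hB hφ (((hms.continuousOn.mono hBΩ)).mul
          (hms.continuousOn.mono hBΩ))
      have j4 : Integrable (fun z => 2 * ((starRingEnd ℂ) y * ((((φ z * m z : ℝ)) : ℂ) *
        FA w 0 0 s α n z)).re) := j2.re.const_mul 2
      have j5 : Integrable (fun z => φ z * ‖FA w 0 0 s α n z‖ ^ 2 -
        2 * ((starRingEnd ℂ) y * ((((φ z * m z : ℝ)) : ℂ) * FA w 0 0 s α n z)).re) := j1.sub j4
      rw [hAd, ← integral_const_mul, ← integral_const_mul,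
        show ((∫ z, (starRingEnd ℂ) y * ((((φ z * m z : ℝ)) : ℂ) * FA w 0 0 s α n z)).re) =
          ∫ z, ((starRingEnd ℂ) y * ((((φ z * m z : ℝ)) : ℂ) * FA w 0 0 s α n z)).re from
          (integral_re j2).symm, ← integral_const_mul, ← integral_sub j1 j4,
        ← integral_add j5 (j3.const_mul _)]
      congr 1; funext z
      have e5 : ‖FA w 0 0 s α n z - y * (m z : ℂ)‖ ^ 2 = ‖FA w 0 0 s α n z‖ ^ 2 -
          2 * (m z * ((starRingEnd ℂ) y * FA w 0 0 s α n z).re) + ‖y‖ ^ 2 * (m z * m z) := by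
        simp only [Complex.sq_norm, normSq_apply, sub_re, sub_im, mul_re, mul_im, ofReal_re,
          ofReal_im, conj_re, conj_im]
        ring
      have e6 : ((starRingEnd ℂ) y * ((((φ z * m z : ℝ)) : ℂ) * FA w 0 0 s α n z)).re =
          φ z * (m z * ((starRingEnd ℂ) y * FA w 0 0 s α n z).re) := by
        simp only [mul_re, mul_im, ofReal_re, ofReal_im, conj_re, conj_im]
        ring
      rw [e5, e6]; ring
    have yn : ‖y‖ ^ 2 = κ ^ 4 * ‖μ‖ ^ 2 := by
      rw [hy, hμ, norm_mul, mul_pow, norm_pow, norm_real, Real.norm_eq_abs, abs_of_nonneg hκ.1]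
      ring
    have lim2 : Tendsto (fun n => (c (σ n) ^ 4 * (A * ‖μ‖ ^ 2 + Sw (MM m ea ν) φ s α) +
        Cw s α * dn n + ε / 2) - 2 * ((starRingEnd ℂ) y *
          ∫ z, (((φ z * m z : ℝ)) : ℂ) * FA w 0 0 s α n z).re + ‖y‖ ^ 2 * A) U
        (𝓝 (κ ^ 4 * Sw (MM m ea ν) φ s α + Cw s α * d + ε / 2)) := by
      have l1 := (((hκ4.mul_const (A * ‖μ‖ ^ 2 + Sw (MM m ea ν) φ s α)).add
        (hd.const_mul (Cw s α))).add_const (ε / 2))
      have l2 := ((Complex.continuous_re.tendsto _).comp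
        (mean.const_mul ((starRingEnd ℂ) y))).const_mul 2
      refine ((l1.sub l2).add_const (‖y‖ ^ 2 * A)).trans_eq ?_
      congr 1
      have e7 : ((starRingEnd ℂ) y * (y * (A : ℂ))).re = ‖y‖ ^ 2 * A := by
        simp only [Complex.sq_norm, normSq_apply, mul_re, mul_im, ofReal_re,
          ofReal_im, conj_re, conj_im]
        ring
      rw [e7, yn]; ring
    have ev := lim2.eventually (gt_mem_nhds (show κ ^ 4 * Sw (MM m ea ν) φ s α + Cw s α * d +
      ε / 2 < κ ^ 4 * Sw (MM m ea ν) φ s α + Cw s α * d + ε by linarith))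
    filter_upwards [ev, hU1 (FB s α (ε / 2) (by positivity))] with n hn1 hn2
    rw [← hy, e1 n]
    refine (wcs hB hφ hφ0 (fun z => by rw [abs_of_nonneg (hφ0 z)]) (cF2 n) (cG n)).trans ?_
    rw [← hgn]
    refine mul_le_mul_of_nonneg_right ?_ (gn0 n)
    rw [var n]
    rw [← hμ] at hn2
    linarith
  have jb : ∀ k : ℤ, ∃ L, Tendsto (fun n => jm w G' φ (0 + k) (0 - k) n) U (𝓝 L) := by
    intro k
    have z1 : Tendsto (fun n => (sg k * (1 : ℂ)) * (κ : ℂ) ^ 2 *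
        ∫ z, (φ z : ℂ) * ((m z : ℂ) * G' n z)) U (𝓝 0) := by
      have := (hG0''.mono_left hU1).const_mul ((sg k * (1 : ℂ)) * (κ : ℂ) ^ 2)
      rwa [mul_zero] at this
    obtain ⟨L, hL⟩ := ul_ex U (x := fun n => jm w G' φ (0 + k) (0 - k) n - (sg k * (1 : ℂ)) *
        (κ : ℂ) ^ 2 * ∫ z, (φ z : ℂ) * ((m z : ℂ) * G' n z))
      (C := √(|κ ^ 4 * Sw (MM m ea ν) φ {k} (fun _ => 1) + Cw {k} (fun _ => 1) * d + 1| * D)) (by
        filter_upwards [CS {k} (fun _ => 1) 1 one_pos, hU1 m3] with n hn1 hn2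
        simp only [Finset.sum_singleton, one_mul] at hn1
        refine Real.le_sqrt_of_sq_le (hn1.trans ?_)
        refine (mul_le_mul_of_nonneg_right (le_abs_self _) (gn0 n)).trans ?_
        exact mul_le_mul_of_nonneg_left hn2 (abs_nonneg _))
    refine ⟨L + 0, ?_⟩
    refine (hL.add z1).congr fun n => ?_
    ring
  choose P hP using jb
  -- the inequality for the limits
  have key : ∀ (s : Finset ℤ) (α : ℤ → ℂ), ‖∑ k ∈ s, α k * P k‖ ^ 2 ≤
      (Sw (MM m ea ν) φ s α + Cw s α * d) * g := by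
    intro s α
    have t : Tendsto (fun n => ‖(∑ k ∈ s, α k * jm w G' φ (0 + k) (0 - k) n) -
        ((∑ k ∈ s, sg k * α k) * (κ : ℂ) ^ 2) * ∫ z, (φ z : ℂ) * ((m z : ℂ) * G' n z)‖ ^ 2) U
        (𝓝 (‖∑ k ∈ s, α k * P k‖ ^ 2)) := by
      have h1 := ((tendsto_finsetSum s fun k _ => (hP k).const_mul (α k)).sub
        ((hG0''.mono_left hU1).const_mul ((∑ k ∈ s, sg k * α k) * (κ : ℂ) ^ 2))).norm.pow 2
      rw [mul_zero, sub_zero] at h1
      exact h1
    have h1 : ∀ ε : ℝ, 0 < ε → ‖∑ k ∈ s, α k * P k‖ ^ 2 ≤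
        (κ ^ 4 * Sw (MM m ea ν) φ s α + Cw s α * d + ε) * g := fun ε hε =>
      le_of_tendsto_of_tendsto t (hg.const_mul _) (CS s α ε hε)
    have h2 : Tendsto (fun ε : ℝ => (κ ^ 4 * Sw (MM m ea ν) φ s α + Cw s α * d + ε) * g) (𝓝[>] 0)
        (𝓝 ((κ ^ 4 * Sw (MM m ea ν) φ s α + Cw s α * d + 0) * g)) := by
      refine Tendsto.mono_left ?_ nhdsWithin_le_nhds
      exact ((continuous_const.add continuous_id).mul continuous_const).tendsto _
    rw [add_zero] at h2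
    have h3 := ge_of_tendsto h2 (by filter_upwards [self_mem_nhdsWithin] with ε hε using h1 ε hε)
    refine h3.trans (mul_le_mul_of_nonneg_right ?_ g0)
    have := mul_le_of_le_one_left (Sw0 s α) κ1
    linarith
  -- the recurrence
  have hrec : ∀ k, P (k + 1) + P (k - 1) = ((R - 2 : ℝ) : ℂ) * P k := by
    intro k
    have t := (jm_three A' hB HG' hφ (0 + k) (0 - k)).mono_left hU1
    have t1 := hP (k + 1)
    have t2 := hP (k - 1)
    rw [show (0 : ℤ) + (k + 1) = 0 + k + 1 by ring, show (0 : ℤ) - (k + 1) = 0 - k - 1 by ring]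
      at t1
    rw [show (0 : ℤ) + (k - 1) = 0 + k - 1 by ring, show (0 : ℤ) - (k - 1) = 0 - k + 1 by ring]
      at t2
    have t3 := (t1.add t2).add ((hP k).const_mul (2 - (R : ℂ)))
    have e := tendsto_nhds_unique t t3
    push_cast
    linear_combination -e
  obtain ⟨S, hS⟩ : ∃ S : ℝ, S = √((2 * A + |d|) * g) := ⟨_, rfl⟩
  have hPS : ∀ k, ‖P k‖ ≤ S := by
    intro k
    rw [hS]
    refine Real.le_sqrt_of_sq_le ?_
    have h1 := key {k} (fun _ => 1)
    simp only [Finset.sum_singleton, one_mul, Sw, Cw, norm_one, mul_one, sg_norm, one_pow] at h1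
    refine h1.trans (mul_le_mul_of_nonneg_right ?_ g0)
    have a1 := fA (k - k)
    have a2 := fA (0 - 0 + k + k)
    have a3 := le_abs_self d
    have a4 : (1 / 3 + 2 / 3 : ℝ) * d = d := by norm_num
    rw [a4]
    have a5 := add_le_add (add_le_add a1 a2) a3
    refine a5.trans (le_of_eq ?_)
    ring
  obtain ⟨τ, hτ1, hτP, hτC⟩ : ∃ τ : ℤ → ℂ, (∀ k, ‖τ k‖ = 1) ∧ (∀ n : ℕ, τ n * P n = P 0) ∧
      Tendsto (fun N : ℕ => Cw ((Finset.Icc 1 N).map Nat.castEmbedding)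
        (fun k => (N : ℂ)⁻¹ * τ k)) atTop (𝓝 cR) := by
    rcases hR with h0 | h4
    · refine ⟨sg, sg_norm, fun n => ?_, ?_⟩
      · have := lin_bd (P := fun k => sg k * P k) (S := S) (fun k => by
          have s1 : sg (k + 1) = - sg k := by rw [sg_add]; simp [sg]
          have s2 : sg (k - 1) = - sg k := by rw [sg_sub, s1]
          have := hrec k
          rw [h0] at this
          rw [s1, s2]
          push_cast at this
          linear_combination (-sg k) * this) (fun k => by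
            rw [norm_mul, sg_norm, one_mul]; exact hPS k) n
        have s0 : sg 0 = 1 := by simp [sg]
        simpa [s0] using this
      · have h1 := (av_sg.const_mul (1 / 3)).add (av_one.const_mul (2 / 3))
        have e : (1 / 3 : ℝ) * 0 + 2 / 3 * 1 = cR := by rw [hcR, if_pos h0]; norm_num
        rw [e] at h1
        refine h1.congr fun N => ?_
        unfold Cw
        simp only [Finset.sum_map, Nat.castEmbedding_apply]
        have e2 : ∀ k : ℕ, sg (k : ℤ) * ((N : ℂ)⁻¹ * sg (k : ℤ)) = (N : ℂ)⁻¹ * 1 := fun k => by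
          rw [mul_left_comm, sg_sq]
        simp only [e2]
    · refine ⟨fun _ => 1, fun _ => norm_one, fun n => ?_, ?_⟩
      · have := lin_bd (P := P) (S := S) (fun k => by
          have := hrec k
          rw [h4] at this
          push_cast at this
          linear_combination this) hPS n
        simpa using this
      · have h1 := (av_one.const_mul (1 / 3)).add (av_sg.const_mul (2 / 3))
        have e : (1 / 3 : ℝ) * 1 + 2 / 3 * 0 = cR := by
          rw [hcR, if_neg (by rw [h4]; norm_num)]; norm_num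
        rw [e] at h1
        refine h1.congr fun N => ?_
        unfold Cw
        simp only [Finset.sum_map, Nat.castEmbedding_apply]
        have e2 : ∀ k : ℕ, sg (k : ℤ) * ((N : ℂ)⁻¹ * 1) = (N : ℂ)⁻¹ * sg (k : ℤ) := fun k => by
          ring
        simp only [e2]
  have fin1 : ‖P 0‖ ^ 2 ≤ cR * d * g := by
    have lim := (((Sw_lim (ν := ν) hB hmB hpB hφ hτ1).add (hτC.mul_const d)).mul_const g)
    rw [zero_add] at lim
    refine ge_of_tendsto lim ?_
    filter_upwards [eventually_gt_atTop 0] with N hN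
    have h1 := key ((Finset.Icc 1 N).map Nat.castEmbedding) (fun k => (N : ℂ)⁻¹ * τ k)
    refine le_trans (le_of_eq ?_) h1
    congr 2
    simp only [Finset.sum_map, Nat.castEmbedding_apply, mul_assoc, hτP]
    rw [Finset.sum_const, Nat.card_Icc, Nat.add_sub_cancel, nsmul_eq_mul]
    have h0 : (N : ℂ) ≠ 0 := by exact_mod_cast hN.ne'
    rw [← mul_assoc, mul_inv_cancel₀ h0, one_mul]
  have fin2 : cR * d * g + ε ≤ ‖P 0‖ ^ 2 := by
    have t0 := ((hP 0).norm.pow 2)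
    simp only [add_zero, sub_zero] at t0
    exact le_of_tendsto_of_tendsto (((hd.const_mul cR).mul hg).add_const ε) t0
      (Eventually.of_forall low)
  linarith

end

end Pool.Agent.TH294.RG
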