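import Pool.Agent.TH294.RG.Psd2
import Pool.Agent.TH294.RG.Fin

/-!
Project RG (helper294): the exact ladder in the flat case and translations.
-/

set_option autoImplicit false
open MeasureTheory Filter Topology Complex
open scoped ContDiff

namespace Pool.Agent.TH294.RG

open Pool.Agent.W745.RW Pool.Agent.TH294.RS

noncomputable section

variable {B : Set ℂ} {h : ℕ → ℝ}

lemma ab1 (z : ℂ) : ab (fun _ => 1) z = 0 := by
  have e : ∀ v, fderiv ℝ (fun _ : ℂ => (((1 : ℝ)) : ℂ)) z v = 0 := by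
    intro v
    rw [(hasFDerivAt_const (((1 : ℝ)) : ℂ) z).fderiv]; rfl
  simp only [ab, db, dx, dy, e]; simp
lemma ad1 (z : ℂ) : ad (fun _ => 1) z = 0 := by
  have e : ∀ v, fderiv ℝ (fun _ : ℂ => (((1 : ℝ)) : ℂ)) z v = 0 := by
    intro v
    rw [(hasFDerivAt_const (((1 : ℝ)) : ℂ) z).fderiv]; rfl
  simp only [ad, dd, dx, dy, e]; simp

/-- the lowering relation, exact -/
lemma low1 (hB : IsOpen B) {u : ℕ → ℂ → ℂ} (hs : ∀ n, ContDiffOn ℝ ∞ (u n) B)
    (he : ∀ n, ∀ z ∈ B, (h n : ℂ) ^ 2 * lap (u n) z = - u n z) (n : ℕ) (k : ℕ) :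
    ∀ z ∈ B, DM (fun _ => 1) (h n) (RS.wn (fun _ => 1) h u (k + 1) n) z =
      - RS.wn (fun _ => 1) h u k n z := by
  have ha : ContDiffOn ℝ ∞ (fun _ : ℂ => (1 : ℝ)) B := contDiffOn_const
  have ws : ∀ k, ContDiffOn ℝ ∞ (RS.wn (fun _ => 1) h u k n) B := fun k =>
    DPk_sm hB ha (h n) (hs n) k
  induction k with
  | zero =>
    intro z hz
    rw [wn_succ]
    rw [MP hB ha (h n) (ws 0) hz, ab1]
    have := he n z hz
    have e : RS.wn (fun _ => 1) h u 0 n = u n := rfl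
    rw [e]
    push_cast
    linear_combination this
  | succ k ih =>
    intro z hz
    rw [wn_succ (fun _ => 1) h u (k + 1)]
    rw [MP hB ha (h n) (ws (k + 1)) hz, ab1]
    have e1 := PM hB ha (h n) (ws (k + 1)) hz
    rw [ad1] at e1
    have e2 : DP (fun _ => 1) (h n) (DM (fun _ => 1) (h n) (RS.wn (fun _ => 1) h u (k + 1) n)) z =
        DP (fun _ => 1) (h n) (fun w => (-1) * RS.wn (fun _ => 1) h u k n w) z :=
      DP_cg hB (h n) (fun w hw => by rw [ih w hw]; ring) hz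
    rw [e2, DP_cm (h n) (fda hB (ws k) hz)] at e1
    rw [← wn_succ (fun _ => 1) h u k n] at e1
    linear_combination -e1

/-- the exact ladder -/
lemma lad1 (hB : IsOpen B) {u : ℕ → ℂ → ℂ} (hs : ∀ n, ContDiffOn ℝ ∞ (u n) B)
    (hu : ∀ n z, (starRingEnd ℂ) (u n z) = u n z)
    (he : ∀ n, ∀ z ∈ B, (h n : ℂ) ^ 2 * lap (u n) z = - u n z) (n : ℕ) (k : ℤ) :
    ContDiffOn ℝ ∞ (ww (fun _ => 1) h u k n) B ∧
    (∀ z ∈ B, DP (fun _ => 1) (h n) (ww (fun _ => 1) h u k n) z = ww (fun _ => 1) h u (k + 1) n z) ∧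
    (∀ z ∈ B, DM (fun _ => 1) (h n) (ww (fun _ => 1) h u k n) z =
      - ww (fun _ => 1) h u (k - 1) n z) := by
  have ha : ContDiffOn ℝ ∞ (fun _ : ℂ => (1 : ℝ)) B := contDiffOn_const
  have ws : ∀ k, ContDiffOn ℝ ∞ (RS.wn (fun _ => 1) h u k n) B := fun k =>
    DPk_sm hB ha (h n) (hs n) k
  have lw := fun k => low1 hB hs he n k
  have e2 : ∀ m : ℕ, ww (fun _ => 1) h u (-(m : ℤ)) n =
      fun z => (-1) ^ m * (starRingEnd ℂ) (RS.wn (fun _ => 1) h u m n z) := by
    intro m; funext z; exact ww_neg hu m n z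
  have cs : ∀ m : ℕ, ContDiffOn ℝ ∞ (fun z => (starRingEnd ℂ) (RS.wn (fun _ => 1) h u m n z)) B :=
    fun m => (conjCLE.toContinuousLinearMap.contDiff (n := ∞)).comp_contDiffOn (ws m)
  refine ⟨?_, ?_, ?_⟩
  · rcases Int.eq_nat_or_neg k with ⟨m, rfl | rfl⟩
    · exact ws m
    · rw [e2]
      exact contDiffOn_const.mul (cs m)
  · rcases Int.eq_nat_or_neg k with ⟨m, rfl | rfl⟩
    · intro z _
      have e1 : ((m : ℤ) + 1) = ((m + 1 : ℕ) : ℤ) := by push_cast; rfl
      rw [e1, ww_nat, ww_nat, wn_succ]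
    · cases m with
      | zero =>
        intro z _
        have e1 : (-((0 : ℕ) : ℤ) + 1) = ((1 : ℕ) : ℤ) := by simp
        have e2 : (-((0 : ℕ) : ℤ)) = ((0 : ℕ) : ℤ) := by simp
        rw [e1, e2, ww_nat, ww_nat, wn_succ]
      | succ m =>
        intro z hz
        have e1 : (-((m + 1 : ℕ) : ℤ) + 1) = -(m : ℤ) := by push_cast; ring
        rw [e1, ww_neg hu]
        have d := fda hB (ws (m + 1)) hz
        rw [e2, DP_cm (h n) (conj_da d), DP_conj (h n) d, lw m z hz, map_neg]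
        ring
  · rcases Int.eq_nat_or_neg k with ⟨m, rfl | rfl⟩
    · cases m with
      | zero =>
        intro z hz
        have e1 : (((0 : ℕ) : ℤ) - 1) = -((1 : ℕ) : ℤ) := by simp
        rw [e1, ww_neg hu, ww_nat, wn_succ]
        have e2 : RS.wn (fun _ => 1) h u 0 n = u n := rfl
        have d := fda hB (hs n) hz
        have e3 : u n = fun w => (starRingEnd ℂ) (u n w) := by
          funext w; exact (hu n w).symm
        have e4 : DM (fun _ => 1) (h n) (u n) z =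
            (starRingEnd ℂ) (DP (fun _ => 1) (h n) (u n) z) := by
          conv_lhs => rw [e3]
          exact DM_conj (h n) d
        rw [e2, e4]
        ring
      | succ m =>
        intro z hz
        have e1 : (((m + 1 : ℕ) : ℤ) - 1) = ((m : ℕ) : ℤ) := by push_cast; ring
        rw [e1, ww_nat, ww_nat]
        exact lw m z hz
    · intro z hz
      have e1 : (-(m : ℤ) - 1) = -((m + 1 : ℕ) : ℤ) := by push_cast; ring
      rw [e1, ww_neg hu, wn_succ]
      have d := fda hB (ws m) hz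
      rw [e2, DM_cm (h n) (conj_da d), DM_conj (h n) d, pow_succ]
      ring

/-- the scaled directional derivative -/
lemma dirD (t : ℝ) (f : ℂ → ℂ) (z v : ℂ) : (t : ℂ) * fderiv ℝ f z v =
    v / 2 * DP (fun _ => 1) t f z + (starRingEnd ℂ) v / 2 * DM (fun _ => 1) t f z := by
  have e1 : fderiv ℝ f z v = (v.re : ℂ) * fderiv ℝ f z 1 + (v.im : ℂ) * fderiv ℝ f z I := by
    have e2 : v = v.re • (1 : ℂ) + v.im • I := by
      apply Complex.ext <;> simp
    conv_lhs => rw [e2]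
    rw [map_add, map_smul, map_smul]
    simp only [real_smul]
  rw [e1]
  simp only [DP, DM, dd, db, dx, dy, ofReal_one, one_mul]
  have e3 : v = v.re + v.im * I := (re_add_im v).symm
  have e4 : (starRingEnd ℂ) v = v.re - v.im * I := by
    apply Complex.ext <;> simp
  rw [e4]
  conv_rhs => rw [e3]
  simp only [add_re, ofReal_re, mul_re, I_re, mul_zero, ofReal_im, I_im, mul_one, sub_self,
    add_zero, add_im, mul_im, zero_add]
  have := I_sq
  linear_combination ((t : ℂ) * (v.im : ℂ) * fderiv ℝ f z I) * this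

/-- derivative of the ladder along a line -/
lemma lineD (hB : IsOpen B) {u : ℕ → ℂ → ℂ} (hs : ∀ n, ContDiffOn ℝ ∞ (u n) B)
    (hu : ∀ n z, (starRingEnd ℂ) (u n z) = u n z)
    (he : ∀ n, ∀ z ∈ B, (h n : ℂ) ^ 2 * lap (u n) z = - u n z) (n : ℕ) (k : ℤ) (z v : ℂ) (τ : ℝ)
    (hz : z + ((τ * h n : ℝ) : ℂ) * v ∈ B) :
    HasDerivAt (fun τ : ℝ => ww (fun _ => 1) h u k n (z + ((τ * h n : ℝ) : ℂ) * v))
      (v / 2 * ww (fun _ => 1) h u (k + 1) n (z + ((τ * h n : ℝ) : ℂ) * v) -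
        (starRingEnd ℂ) v / 2 * ww (fun _ => 1) h u (k - 1) n (z + ((τ * h n : ℝ) : ℂ) * v)) τ := by
  obtain ⟨s1, s2, s3⟩ := lad1 hB hs hu he n k
  have d1 : HasDerivAt (fun τ : ℝ => z + ((τ * h n : ℝ) : ℂ) * v) ((h n : ℂ) * v) τ := by
    have h1 : HasDerivAt (fun τ : ℝ => ((τ * h n : ℝ) : ℂ)) ((h n : ℂ)) τ := by
      have := ((hasDerivAt_id τ).mul_const (h n)).ofReal_comp
      simpa using this
    have h2 := (h1.mul_const v).const_add z
    exact h2
  have d2 := (fda hB s1 hz).hasFDerivAt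
  have d3 := d2.comp_hasDerivAt τ d1
  have e1 : fderiv ℝ (ww (fun _ => 1) h u k n) (z + ((τ * h n : ℝ) : ℂ) * v) ((h n : ℂ) * v) =
      (h n : ℂ) * fderiv ℝ (ww (fun _ => 1) h u k n) (z + ((τ * h n : ℝ) : ℂ) * v) v := by
    have : (h n : ℂ) * v = h n • v := by rw [real_smul]
    rw [this, map_smul, real_smul]
  rw [e1, dirD, s2 _ hz, s3 _ hz] at d3
  refine d3.congr_deriv ?_
  ring

end

end Pool.Agent.TH294.RG
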