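import Pool.Agent.TH294.RG.Psd

/-!
Project RG (helper294): the formal translation operator on four point moments.
-/

set_option autoImplicit false
open MeasureTheory Filter Topology Complex
open scoped ContDiff

namespace Pool.Agent.TH294.RG

noncomputable section

/-- the generator of translations by `v 0, …, v 3` on moments -/
def TT (v : Fin 4 → ℂ) (F : ℤ → ℤ → ℤ → ℤ → ℂ) (a b c d : ℤ) : ℂ :=
  (v 0 / 2 * F (a + 1) b c d - (starRingEnd ℂ) (v 0) / 2 * F (a - 1) b c d) +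
  (v 1 / 2 * F a (b + 1) c d - (starRingEnd ℂ) (v 1) / 2 * F a (b - 1) c d) +
  (v 2 / 2 * F a b (c + 1) d - (starRingEnd ℂ) (v 2) / 2 * F a b (c - 1) d) +
  (v 3 / 2 * F a b c (d + 1) - (starRingEnd ℂ) (v 3) / 2 * F a b c (d - 1))

lemma TT_app (v : Fin 4 → ℂ) (F : ℤ → ℤ → ℤ → ℤ → ℂ) (a b c d : ℤ) : TT v F a b c d =
  (v 0 / 2 * F (a + 1) b c d - (starRingEnd ℂ) (v 0) / 2 * F (a - 1) b c d) +
  (v 1 / 2 * F a (b + 1) c d - (starRingEnd ℂ) (v 1) / 2 * F a (b - 1) c d) +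
  (v 2 / 2 * F a b (c + 1) d - (starRingEnd ℂ) (v 2) / 2 * F a b (c - 1) d) +
  (v 3 / 2 * F a b c (d + 1) - (starRingEnd ℂ) (v 3) / 2 * F a b c (d - 1)) := rfl

def RR (v : Fin 4 → ℂ) : ℝ := ‖v 0‖ + ‖v 1‖ + ‖v 2‖ + ‖v 3‖

lemma RR_nn (v : Fin 4 → ℂ) : 0 ≤ RR v := by unfold RR; positivity

lemma half_bd (v x y : ℂ) {D : ℝ} (hx : ‖x‖ ≤ D) (hy : ‖y‖ ≤ D) :
    ‖v / 2 * x - (starRingEnd ℂ) v / 2 * y‖ ≤ ‖v‖ * D := by
  have h1 : ‖v / 2 * x‖ ≤ ‖v‖ / 2 * D := by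
    rw [norm_mul, norm_div]
    have : ‖(2 : ℂ)‖ = 2 := by norm_num
    rw [this]
    exact mul_le_mul_of_nonneg_left hx (by positivity)
  have h2 : ‖(starRingEnd ℂ) v / 2 * y‖ ≤ ‖v‖ / 2 * D := by
    rw [norm_mul, norm_div, RCLike.norm_conj]
    have : ‖(2 : ℂ)‖ = 2 := by norm_num
    rw [this]
    exact mul_le_mul_of_nonneg_left hy (by positivity)
  refine (norm_sub_le _ _).trans ?_
  linarith

lemma TT_bd (v : Fin 4 → ℂ) (N : ℕ) : ∀ (F : ℤ → ℤ → ℤ → ℤ → ℂ) (a b c d : ℤ) (C : ℝ),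
    (∀ a' b' c' d' : ℤ, |a' - a| ≤ N → |b' - b| ≤ N → |c' - c| ≤ N → |d' - d| ≤ N →
      ‖F a' b' c' d'‖ ≤ C) → ‖(TT v)^[N] F a b c d‖ ≤ RR v ^ N * C := by
  induction N with
  | zero =>
    intro F a b c d C hF
    rw [Function.iterate_zero, id, pow_zero, one_mul]
    exact hF a b c d (by simp) (by simp) (by simp) (by simp)
  | succ N ih =>
    intro F a b c d C hF
    rw [Function.iterate_succ_apply']
    have key : ∀ a1 b1 c1 d1 : ℤ, |a1 - a| ≤ 1 → |b1 - b| ≤ 1 → |c1 - c| ≤ 1 → |d1 - d| ≤ 1 →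
        ‖(TT v)^[N] F a1 b1 c1 d1‖ ≤ RR v ^ N * C := by
      intro a1 b1 c1 d1 ha hb hc hd
      refine ih F a1 b1 c1 d1 C fun a' b' c' d' ha' hb' hc' hd' => hF a' b' c' d' ?_ ?_ ?_ ?_
      · have := abs_sub_le a' a1 a; push_cast; omega
      · have := abs_sub_le b' b1 b; push_cast; omega
      · have := abs_sub_le c' c1 c; push_cast; omega
      · have := abs_sub_le d' d1 d; push_cast; omega
    have h1 := half_bd (v 0) _ _ (key (a + 1) b c d (by simp) (by simp) (by simp) (by simp))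
      (key (a - 1) b c d (by simp) (by simp) (by simp) (by simp))
    have h2 := half_bd (v 1) _ _ (key a (b + 1) c d (by simp) (by simp) (by simp) (by simp))
      (key a (b - 1) c d (by simp) (by simp) (by simp) (by simp))
    have h3 := half_bd (v 2) _ _ (key a b (c + 1) d (by simp) (by simp) (by simp) (by simp))
      (key a b (c - 1) d (by simp) (by simp) (by simp) (by simp))
    have h4 := half_bd (v 3) _ _ (key a b c (d + 1) (by simp) (by simp) (by simp) (by simp))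
      (key a b c (d - 1) (by simp) (by simp) (by simp) (by simp))
    refine (norm_add_le_of_le (norm_add_le_of_le (norm_add_le_of_le h1 h2) h3) h4).trans
      (le_of_eq ?_)
    unfold RR
    rw [pow_succ]
    ring

lemma TT_lim (v : Fin 4 → ℂ) {ι : Type*} {l : Filter ι} {Fn : ι → ℤ → ℤ → ℤ → ℤ → ℂ}
    {F : ℤ → ℤ → ℤ → ℤ → ℂ} (h : ∀ a b c d, Tendsto (fun n => Fn n a b c d) l (𝓝 (F a b c d)))
    (N : ℕ) : ∀ a b c d, Tendsto (fun n => (TT v)^[N] (Fn n) a b c d) l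
      (𝓝 ((TT v)^[N] F a b c d)) := by
  induction N with
  | zero => exact h
  | succ N ih =>
    intro a b c d
    simp only [Function.iterate_succ_apply', TT]
    refine (((((ih _ _ _ _).const_mul _).sub ((ih _ _ _ _).const_mul _)).add
      (((ih _ _ _ _).const_mul _).sub ((ih _ _ _ _).const_mul _))).add
      (((ih _ _ _ _).const_mul _).sub ((ih _ _ _ _).const_mul _))).add
      (((ih _ _ _ _).const_mul _).sub ((ih _ _ _ _).const_mul _))

lemma TT_deriv (v : Fin 4 → ℂ) {P : ℝ → ℤ → ℤ → ℤ → ℤ → ℂ} {τ : ℝ}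
    (h : ∀ a b c d, HasDerivAt (fun τ => P τ a b c d) (TT v (P τ) a b c d) τ) (N : ℕ) :
    ∀ a b c d, HasDerivAt (fun τ => (TT v)^[N] (P τ) a b c d) ((TT v)^[N + 1] (P τ) a b c d) τ := by
  induction N with
  | zero => exact h
  | succ N ih =>
    intro a b c d
    have e1 : (fun τ => (TT v)^[N + 1] (P τ) a b c d) = fun τ => TT v ((TT v)^[N] (P τ)) a b c d := by
      funext τ; rw [Function.iterate_succ_apply']
    have e2 : (TT v)^[N + 1 + 1] (P τ) a b c d = TT v ((TT v)^[N + 1] (P τ)) a b c d := by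
      rw [Function.iterate_succ_apply']
    rw [e1, e2]
    unfold TT
    exact (((((ih _ _ _ _).const_mul _).sub ((ih _ _ _ _).const_mul _)).add
      (((ih _ _ _ _).const_mul _).sub ((ih _ _ _ _).const_mul _))).add
      (((ih _ _ _ _).const_mul _).sub ((ih _ _ _ _).const_mul _))).add
      (((ih _ _ _ _).const_mul _).sub ((ih _ _ _ _).const_mul _))

/-- characters -/
def ch (s : Fin 4 → ℂ) (a b c d : ℤ) : ℂ := s 0 ^ a * s 1 ^ b * s 2 ^ c * s 3 ^ d

/-- the eigenvalue of a character -/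
def lm (v s : Fin 4 → ℂ) : ℝ := (v 0 * s 0).im + (v 1 * s 1).im + (v 2 * s 2).im + (v 3 * s 3).im

lemma half_im (v s : ℂ) (hs : ‖s‖ = 1) : v / 2 * s - (starRingEnd ℂ) v / 2 * s⁻¹ =
    ((v * s).im : ℂ) * I := by
  have h1 : s⁻¹ = (starRingEnd ℂ) s := by
    rw [Complex.inv_def, Complex.normSq_eq_norm_sq, hs]; simp
  rw [h1]
  have h2 := Complex.sub_conj (v * s)
  rw [map_mul] at h2
  push_cast at h2
  linear_combination (1 / 2 : ℂ) * h2

lemma TT_ch (v s : Fin 4 → ℂ) (hs : ∀ i, ‖s i‖ = 1) (N : ℕ) : ∀ a b c d : ℤ,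
    (TT v)^[N] (ch s) a b c d = ((lm v s : ℂ) * I) ^ N * ch s a b c d := by
  have h0 : ∀ i, s i ≠ 0 := fun i => by rw [← norm_pos_iff, hs]; exact one_pos
  induction N with
  | zero => intro a b c d; simp
  | succ N ih =>
    intro a b c d
    rw [Function.iterate_succ_apply', TT_app]
    simp only [ih]
    have e0 := half_im (v 0) (s 0) (hs 0)
    have e1 := half_im (v 1) (s 1) (hs 1)
    have e2 := half_im (v 2) (s 2) (hs 2)
    have e3 := half_im (v 3) (s 3) (hs 3)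
    unfold ch
    rw [zpow_add_one₀ (h0 0), zpow_sub_one₀ (h0 0), zpow_add_one₀ (h0 1), zpow_sub_one₀ (h0 1),
      zpow_add_one₀ (h0 2), zpow_sub_one₀ (h0 2), zpow_add_one₀ (h0 3), zpow_sub_one₀ (h0 3)]
    rw [pow_succ]
    have e4 : ((lm v s : ℝ) : ℂ) * I = ((v 0 * s 0).im : ℂ) * I + ((v 1 * s 1).im : ℂ) * I +
        ((v 2 * s 2).im : ℂ) * I + ((v 3 * s 3).im : ℂ) * I := by
      unfold lm; push_cast; ring
    linear_combination (((lm v s : ℝ) : ℂ) * I) ^ N * (s 0 ^ a * s 1 ^ b * s 2 ^ c * s 3 ^ d) *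
      (e0 + e1 + e2 + e3 - e4)

/-- the truncated translation -/
def PhL (v : Fin 4 → ℂ) (L : ℕ) (F : ℤ → ℤ → ℤ → ℤ → ℂ) : ℂ :=
  ∑ N ∈ Finset.range L, ((N.factorial : ℂ))⁻¹ * (TT v)^[N] F 0 0 0 0

lemma TT_rep (v : Fin 4 → ℂ) (N : ℕ) : ∀ a b c d : ℤ, ∃ p : (ℤ × ℤ × ℤ × ℤ) →₀ ℂ,
    ∀ F : ℤ → ℤ → ℤ → ℤ → ℂ, (TT v)^[N] F a b c d = p.sum fun g r => r * F g.1 g.2.1 g.2.2.1 g.2.2.2 := by
  have hadd : ∀ (F : ℤ → ℤ → ℤ → ℤ → ℂ) (p q : (ℤ × ℤ × ℤ × ℤ) →₀ ℂ),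
      (p + q).sum (fun g r => r * F g.1 g.2.1 g.2.2.1 g.2.2.2) =
      (p.sum fun g r => r * F g.1 g.2.1 g.2.2.1 g.2.2.2) +
      (q.sum fun g r => r * F g.1 g.2.1 g.2.2.1 g.2.2.2) := by
    intro F p q
    exact Finsupp.sum_add_index' (fun g => by simp) (fun g r1 r2 => by ring)
  have hsm : ∀ (F : ℤ → ℤ → ℤ → ℤ → ℂ) (t : ℂ) (p : (ℤ × ℤ × ℤ × ℤ) →₀ ℂ),
      (t • p).sum (fun g r => r * F g.1 g.2.1 g.2.2.1 g.2.2.2) =
      t * (p.sum fun g r => r * F g.1 g.2.1 g.2.2.1 g.2.2.2) := by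
    intro F t p
    rw [Finsupp.sum_smul_index (fun g => by simp), Finsupp.sum, Finsupp.sum, Finset.mul_sum]
    refine Finset.sum_congr rfl fun g _ => ?_
    ring
  induction N with
  | zero =>
    intro a b c d
    refine ⟨Finsupp.single (a, b, c, d) 1, fun F => ?_⟩
    rw [Finsupp.sum_single_index (by simp)]
    simp
  | succ N ih =>
    intro a b c d
    obtain ⟨p1, h1⟩ := ih (a + 1) b c d
    obtain ⟨p2, h2⟩ := ih (a - 1) b c d
    obtain ⟨p3, h3⟩ := ih a (b + 1) c d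
    obtain ⟨p4, h4⟩ := ih a (b - 1) c d
    obtain ⟨p5, h5⟩ := ih a b (c + 1) d
    obtain ⟨p6, h6⟩ := ih a b (c - 1) d
    obtain ⟨p7, h7⟩ := ih a b c (d + 1)
    obtain ⟨p8, h8⟩ := ih a b c (d - 1)
    refine ⟨(v 0 / 2) • p1 + (-((starRingEnd ℂ) (v 0) / 2)) • p2 + ((v 1 / 2) • p3 +
      (-((starRingEnd ℂ) (v 1) / 2)) • p4) + ((v 2 / 2) • p5 +
      (-((starRingEnd ℂ) (v 2) / 2)) • p6) + ((v 3 / 2) • p7 +
      (-((starRingEnd ℂ) (v 3) / 2)) • p8), fun F => ?_⟩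
    rw [Function.iterate_succ_apply']
    unfold TT
    have h1' := h1 F
    have h2' := h2 F
    have h3' := h3 F
    have h4' := h4 F
    have h5' := h5 F
    have h6' := h6 F
    have h7' := h7 F
    have h8' := h8 F
    unfold TT at h1' h2' h3' h4' h5' h6' h7' h8'
    rw [h1', h2', h3', h4', h5', h6', h7', h8']
    simp only [hadd, hsm]
    ring

lemma PhL_rep (v : Fin 4 → ℂ) (L : ℕ) : ∃ p : (ℤ × ℤ × ℤ × ℤ) →₀ ℂ,
    ∀ F : ℤ → ℤ → ℤ → ℤ → ℂ, PhL v L F = p.sum fun g r => r * F g.1 g.2.1 g.2.2.1 g.2.2.2 := by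
  induction L with
  | zero => exact ⟨0, fun F => by simp [PhL]⟩
  | succ L ih =>
    obtain ⟨p, hp⟩ := ih
    obtain ⟨q, hq⟩ := TT_rep v L 0 0 0 0
    refine ⟨p + ((L.factorial : ℂ))⁻¹ • q, fun F => ?_⟩
    have e1 : PhL v (L + 1) F = PhL v L F + ((L.factorial : ℂ))⁻¹ * (TT v)^[L] F 0 0 0 0 := by
      unfold PhL; rw [Finset.sum_range_succ]
    rw [e1, hp, hq, Finsupp.sum_add_index' (fun g => by simp) (fun g r1 r2 => by ring),
      Finsupp.sum_smul_index (fun g => by simp)]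
    congr 1
    simp only [Finsupp.sum, Finset.mul_sum]
    refine Finset.sum_congr rfl fun g _ => ?_
    ring

/-- truncated exponentials -/
def EL (L : ℕ) (x : ℝ) : ℂ := ∑ N ∈ Finset.range L, ((x : ℂ) * I) ^ N / (N.factorial : ℂ)

lemma PhL_ch (v s : Fin 4 → ℂ) (hs : ∀ i, ‖s i‖ = 1) (L : ℕ) : PhL v L (ch s) = EL L (lm v s) := by
  unfold PhL EL
  refine Finset.sum_congr rfl fun N _ => ?_
  rw [TT_ch v s hs]
  simp only [ch, zpow_zero, mul_one]
  rw [inv_mul_eq_div]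

lemma lm_bd (v s : Fin 4 → ℂ) (hs : ∀ i, ‖s i‖ = 1) : |lm v s| ≤ RR v := by
  unfold lm RR
  have h : ∀ i, |(v i * s i).im| ≤ ‖v i‖ := fun i => by
    refine (abs_im_le_norm _).trans (le_of_eq ?_)
    rw [norm_mul, hs, mul_one]
  have h0 := h 0
  have h1 := h 1
  have h2 := h 2
  have h3 := h 3
  have a1 := abs_add_le ((v 0 * s 0).im + (v 1 * s 1).im + (v 2 * s 2).im) (v 3 * s 3).im
  have a2 := abs_add_le ((v 0 * s 0).im + (v 1 * s 1).im) (v 2 * s 2).im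
  have a3 := abs_add_le (v 0 * s 0).im (v 1 * s 1).im
  linarith

lemma EL_lim (x : ℝ) : Tendsto (fun L => EL L x) atTop (𝓝 (Complex.exp ((x : ℂ) * I))) := by
  have := (NormedSpace.expSeries_div_hasSum_exp ((x : ℂ) * I)).tendsto_sum_nat
  rw [← Complex.exp_eq_exp_ℂ] at this
  exact this

lemma EL_bd (L : ℕ) (x : ℝ) : ‖EL L x‖ ≤ Real.exp |x| := by
  unfold EL
  refine (norm_sum_le _ _).trans ?_
  have h1 : ∀ N, ‖((x : ℂ) * I) ^ N / (N.factorial : ℂ)‖ = |x| ^ N / (N.factorial : ℝ) := by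
    intro N
    rw [norm_div, norm_pow, norm_mul, norm_I, mul_one, norm_real, Complex.norm_natCast,
      Real.norm_eq_abs]
  simp only [h1]
  exact Real.sum_le_exp_of_nonneg (abs_nonneg x) L

lemma EL_bd2 (L : ℕ) {R x : ℝ} (hx : |x| ≤ R) (hL : 2 * R ≤ L) :
    ‖EL L x‖ ≤ 1 + R ^ L / (L.factorial : ℝ) * 2 := by
  have hR : 0 ≤ R := (abs_nonneg x).trans hx
  have hn : ‖(x : ℂ) * I‖ = |x| := by rw [norm_mul, norm_I, mul_one, norm_real, Real.norm_eq_abs]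
  have h1 : ‖(x : ℂ) * I‖ / (L.succ : ℝ) ≤ 1 / 2 := by
    rw [hn, div_le_iff₀ (by positivity)]
    push_cast
    linarith
  have h2 := Complex.exp_bound' h1
  have h3 : ‖Complex.exp ((x : ℂ) * I)‖ = 1 := Complex.norm_exp_ofReal_mul_I x
  have h4 : ‖EL L x‖ ≤ ‖Complex.exp ((x : ℂ) * I)‖ + ‖Complex.exp ((x : ℂ) * I) - EL L x‖ := by
    have := norm_sub_norm_le (EL L x) (Complex.exp ((x : ℂ) * I))
    rw [norm_sub_rev] at this
    linarith
  refine h4.trans ?_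
  rw [h3]
  have h5 : ‖Complex.exp ((x : ℂ) * I) - EL L x‖ ≤ ‖(x : ℂ) * I‖ ^ L / (L.factorial : ℝ) * 2 := h2
  refine add_le_add le_rfl (h5.trans ?_)
  rw [hn]
  gcongr

/-- Taylor's formula for a chain of derivatives -/
lemma tayl (L : ℕ) : ∀ (f : ℕ → ℝ → ℂ) (K : ℝ),
    (∀ N < L, ∀ t ∈ Set.Icc (0 : ℝ) 1, HasDerivAt (f N) (f (N + 1) t) t) →
    (∀ t ∈ Set.Icc (0 : ℝ) 1, ‖f L t‖ ≤ K) → ∀ t ∈ Set.Icc (0 : ℝ) 1,
    ‖f 0 t - ∑ N ∈ Finset.range L, (t : ℂ) ^ N / (N.factorial : ℂ) * f N 0‖ ≤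
      K * t ^ L / (L.factorial : ℝ) := by
  induction L with
  | zero => intro f K _ hb t ht; simpa using hb t ht
  | succ L ih =>
    intro f K hd hb t ht
    have h1 := ih (fun N => f (N + 1)) K (fun N hN s hs => hd (N + 1) (by omega) s hs) hb
    obtain ⟨g, hg⟩ : ∃ g : ℝ → ℂ, ∀ t, g t = f 0 t - ∑ N ∈ Finset.range (L + 1), (t : ℂ) ^ N /
      (N.factorial : ℂ) * f N 0 := ⟨_, fun _ => rfl⟩
    have hgd : ∀ s ∈ Set.Icc (0 : ℝ) 1, HasDerivAt g (f 1 s - ∑ N ∈ Finset.range L, (s : ℂ) ^ N /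
        (N.factorial : ℂ) * f (N + 1) 0) s := by
      intro s hs
      have e1 : g = fun t => f 0 t - ((∑ N ∈ Finset.range L, (t : ℂ) ^ (N + 1) /
        ((N + 1).factorial : ℂ) * f (N + 1) 0) + f 0 0) := by
        funext t
        rw [hg, Finset.sum_range_succ']
        simp
      rw [e1]
      refine (hd 0 (by omega) s hs).sub ?_
      have h2 : HasDerivAt (fun t : ℝ => ∑ N ∈ Finset.range L, (t : ℂ) ^ (N + 1) /
        ((N + 1).factorial : ℂ) * f (N + 1) 0) (∑ N ∈ Finset.range L, (s : ℂ) ^ N /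
        (N.factorial : ℂ) * f (N + 1) 0) s := by
        refine HasDerivAt.fun_sum fun N _ => ?_
        have h3 : HasDerivAt (fun t : ℝ => (t : ℂ) ^ (N + 1)) ((N + 1 : ℂ) * (s : ℂ) ^ N) s := by
          have := (hasDerivAt_pow (N + 1) (s : ℂ)).comp_ofReal
          simpa using this
        have h4 := (h3.div_const ((N + 1).factorial : ℂ)).mul_const (f (N + 1) 0)
        refine h4.congr_deriv ?_
        rw [Nat.factorial_succ]
        push_cast
        have : ((N : ℂ) + 1) ≠ 0 := by exact_mod_cast Nat.succ_ne_zero N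
        have h5 : (N.factorial : ℂ) ≠ 0 := by exact_mod_cast N.factorial_ne_zero
        field_simp
      exact h2.add_const _
    have hg0 : g 0 = 0 := by
      rw [hg, Finset.sum_range_succ']
      simp
    have hB : ∀ s : ℝ, HasDerivAt (fun s : ℝ => K * s ^ (L + 1) / ((L + 1).factorial : ℝ))
        (K * s ^ L / (L.factorial : ℝ)) s := by
      intro s
      have h4 := ((hasDerivAt_pow (L + 1) s).const_mul K).div_const ((L + 1).factorial : ℝ)
      refine h4.congr_deriv ?_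
      rw [Nat.factorial_succ]
      push_cast
      have : ((L : ℝ) + 1) ≠ 0 := by exact_mod_cast Nat.succ_ne_zero L
      have h5 : (L.factorial : ℝ) ≠ 0 := by exact_mod_cast L.factorial_ne_zero
      field_simp
    have key := image_norm_le_of_norm_deriv_right_le_deriv_boundary (f := g) (a := 0) (b := 1)
      (f' := fun s => f 1 s - ∑ N ∈ Finset.range L, (s : ℂ) ^ N / (N.factorial : ℂ) * f (N + 1) 0)
      (B := fun s : ℝ => K * s ^ (L + 1) / ((L + 1).factorial : ℝ))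
      (B' := fun s : ℝ => K * s ^ L / (L.factorial : ℝ))
      (fun s hs => (hgd s hs).continuousAt.continuousWithinAt)
      (fun s hs => (hgd s ⟨hs.1, hs.2.le⟩).hasDerivWithinAt)
      (by rw [hg0]; simp) hB (fun s hs => h1 s ⟨hs.1, hs.2.le⟩)
    have := key ht
    rw [hg] at this
    exact this

end

end Pool.Agent.TH294.RG
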