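import Pool.Agent.TH294.RG.Jet1
import Pool.Agent.TH294.RG.Jet2

/-!
Project RG (helper294): four point functions and their derivatives.
-/

set_option autoImplicit false
open MeasureTheory Filter Topology Complex
open scoped ContDiff

namespace Pool.Agent.TH294.RG

open Pool.Agent.W745.RW Pool.Agent.TH294.RS

noncomputable section

/-- exact ladders, along lines -/
structure Lad (B : Set ℂ) (W : ℤ → ℂ → ℂ) (t : ℝ) : Prop where
  co : ∀ k, ContinuousOn (W k) B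
  ld : ∀ (k : ℤ) (z v : ℂ) (τ : ℝ), z + ((τ * t : ℝ) : ℂ) * v ∈ B →
    HasDerivAt (fun τ : ℝ => W k (z + ((τ * t : ℝ) : ℂ) * v))
      (v / 2 * W (k + 1) (z + ((τ * t : ℝ) : ℂ) * v) -
        (starRingEnd ℂ) v / 2 * W (k - 1) (z + ((τ * t : ℝ) : ℂ) * v)) τ

/-- four point products -/
def PI4 (W : ℤ → ℂ → ℂ) (t : ℝ) (v : Fin 4 → ℂ) (τ : ℝ) (z : ℂ) (a b c d : ℤ) : ℂ :=
  W a (z + ((τ * t : ℝ) : ℂ) * v 0) * W b (z + ((τ * t : ℝ) : ℂ) * v 1) *
    W c (z + ((τ * t : ℝ) : ℂ) * v 2) * W d (z + ((τ * t : ℝ) : ℂ) * v 3)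

variable {B : Set ℂ} {W : ℤ → ℂ → ℂ} {t : ℝ} {v : Fin 4 → ℂ}

lemma PI4_d (L : Lad B W t) {τ : ℝ} {z : ℂ} (hz : ∀ i, z + ((τ * t : ℝ) : ℂ) * v i ∈ B)
    (a b c d : ℤ) : HasDerivAt (fun τ => PI4 W t v τ z a b c d) (TT v (PI4 W t v τ z) a b c d) τ := by
  have h := (((L.ld a z (v 0) τ (hz 0)).mul (L.ld b z (v 1) τ (hz 1))).mul
    (L.ld c z (v 2) τ (hz 2))).mul (L.ld d z (v 3) τ (hz 3))
  refine h.congr_deriv ?_
  simp only [TT, PI4, Pi.mul_apply]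
  ring

lemma PI4_co (L : Lad B W t) (a b c d : ℤ) :
    ContinuousOn (fun p : ℝ × ℂ => PI4 W t v p.1 p.2 a b c d)
      {p | ∀ i, p.2 + ((p.1 * t : ℝ) : ℂ) * v i ∈ B} := by
  have h : ∀ (k : ℤ) (i : Fin 4), ContinuousOn (fun p : ℝ × ℂ => W k (p.2 + ((p.1 * t : ℝ) : ℂ) * v i))
      {p | ∀ i, p.2 + ((p.1 * t : ℝ) : ℂ) * v i ∈ B} := by
    intro k i
    refine (L.co k).comp (f := fun p : ℝ × ℂ => p.2 + ((p.1 * t : ℝ) : ℂ) * v i) ?_ fun p hp => hp i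
    fun_prop
  exact (((h a 0).mul (h b 1)).mul (h c 2)).mul (h d 3)

lemma PI4_cz (L : Lad B W t) (τ : ℝ) (a b c d : ℤ) :
    ContinuousOn (fun z : ℂ => PI4 W t v τ z a b c d)
      {z | ∀ i, z + ((τ * t : ℝ) : ℂ) * v i ∈ B} := by
  refine (PI4_co L a b c d).comp (f := fun z : ℂ => (τ, z)) ?_ fun z hz => hz
  fun_prop

lemma shift_open (hB : IsOpen B) (v : Fin 4 → ℂ) (τ t : ℝ) :
    IsOpen {z | ∀ i, z + ((τ * t : ℝ) : ℂ) * v i ∈ B} := by
  have e : {z | ∀ i, z + ((τ * t : ℝ) : ℂ) * v i ∈ B} =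
      ⋂ i, (fun z => z + ((τ * t : ℝ) : ℂ) * v i) ⁻¹' B := by
    ext z; simp
  rw [e]
  exact isOpen_iInter_of_finite fun i => hB.preimage (by fun_prop)

/-- four point functions -/
def IP (φ : ℂ → ℝ) (W : ℤ → ℂ → ℂ) (t : ℝ) (v : Fin 4 → ℂ) (τ : ℝ) (a b c d : ℤ) : ℂ :=
  ∫ z, (φ z : ℂ) * PI4 W t v τ z a b c d

variable {φ : ℂ → ℝ}

lemma IP_tf (hφ : TF B φ) {τ : ℝ}
    (hS : ∀ z ∈ tsupport φ, ∀ i, z + ((τ * t : ℝ) : ℂ) * v i ∈ B) :
    TF {z | ∀ i, z + ((τ * t : ℝ) : ℂ) * v i ∈ B} φ := ⟨hφ.1, hφ.2.1, hS⟩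

lemma IP_int (L : Lad B W t) (hφ : TF B φ) {τ : ℝ}
    (hS : ∀ z ∈ tsupport φ, ∀ i, z + ((τ * t : ℝ) : ℂ) * v i ∈ B) (a b c d : ℤ) :
    Integrable (fun z => (φ z : ℂ) * PI4 W t v τ z a b c d) :=
  TF.cint (IP_tf hφ hS) (PI4_cz L τ a b c d)

lemma IP_TT (L : Lad B W t) (hφ : TF B φ) {τ : ℝ}
    (hS : ∀ z ∈ tsupport φ, ∀ i, z + ((τ * t : ℝ) : ℂ) * v i ∈ B) (a b c d : ℤ) :
    ∫ z, (φ z : ℂ) * TT v (PI4 W t v τ z) a b c d = TT v (IP φ W t v τ) a b c d := by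
  have I := IP_int L hφ hS
  have key : ∀ (w : ℂ) {f g : ℂ → ℂ}, Integrable f → Integrable g →
      Integrable (fun z => w / 2 * f z - (starRingEnd ℂ) w / 2 * g z) ∧
      ∫ z, (w / 2 * f z - (starRingEnd ℂ) w / 2 * g z) = w / 2 * (∫ z, f z) -
        (starRingEnd ℂ) w / 2 * ∫ z, g z := by
    intro w f g hf hg
    refine ⟨(hf.const_mul _).sub (hg.const_mul _), ?_⟩
    rw [integral_sub (hf.const_mul _) (hg.const_mul _), integral_const_mul, integral_const_mul]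
  obtain ⟨i1, k1⟩ := key (v 0) (I (a + 1) b c d) (I (a - 1) b c d)
  obtain ⟨i2, k2⟩ := key (v 1) (I a (b + 1) c d) (I a (b - 1) c d)
  obtain ⟨i3, k3⟩ := key (v 2) (I a b (c + 1) d) (I a b (c - 1) d)
  obtain ⟨i4, k4⟩ := key (v 3) (I a b c (d + 1)) (I a b c (d - 1))
  simp only [TT, IP]
  rw [← k1, ← k2, ← k3, ← k4, ← integral_add i1 i2]
  have j1 := i1.add i2
  have e1 := integral_add j1 i3
  have e2 := integral_add (j1.add i3) i4
  simp only [Pi.add_apply] at e1 e2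
  rw [← e1, ← e2]
  congr 1; funext z
  ring

/-- **Derivative of the four point functions** -/
theorem IP_d (L : Lad B W t) (hφ : TF B φ)
    (hS : ∀ τ ∈ Set.Icc (-1 : ℝ) 2, ∀ z ∈ tsupport φ, ∀ i, z + ((τ * t : ℝ) : ℂ) * v i ∈ B)
    {τ : ℝ} (hτ : τ ∈ Set.Icc (0 : ℝ) 1) (a b c d : ℤ) :
    HasDerivAt (fun τ => IP φ W t v τ a b c d) (TT v (IP φ W t v τ) a b c d) τ := by
  have hτ' : τ ∈ Set.Icc (-1 : ℝ) 2 := ⟨by linarith [hτ.1], by linarith [hτ.2]⟩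
  have hs : Set.Ioo (-1 : ℝ) 2 ∈ 𝓝 τ := Ioo_mem_nhds (by linarith [hτ.1]) (by linarith [hτ.2])
  -- the bound
  have hc : ContinuousOn (fun p : ℝ × ℂ => TT v (PI4 W t v p.1 p.2) a b c d)
      (Set.Icc (-1 : ℝ) 2 ×ˢ tsupport φ) := by
    have h1 := fun a b c d => (PI4_co (v := v) L a b c d).mono
      (t := Set.Icc (-1 : ℝ) 2 ×ˢ tsupport φ) fun p hp => hS p.1 hp.1 p.2 hp.2
    simp only [TT]
    exact ((((continuousOn_const.mul (h1 _ _ _ _)).sub (continuousOn_const.mul (h1 _ _ _ _))).add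
      ((continuousOn_const.mul (h1 _ _ _ _)).sub (continuousOn_const.mul (h1 _ _ _ _)))).add
      ((continuousOn_const.mul (h1 _ _ _ _)).sub (continuousOn_const.mul (h1 _ _ _ _)))).add
      ((continuousOn_const.mul (h1 _ _ _ _)).sub (continuousOn_const.mul (h1 _ _ _ _)))
  obtain ⟨C, hC⟩ := (isCompact_Icc.prod hφ.2.1).exists_bound_of_continuousOn hc
  have hb : Integrable (fun z => |C| * |φ z|) := by
    have : Integrable φ := hφ.1.continuous.integrable_of_hasCompactSupport hφ.2.1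
    exact this.abs.const_mul _
  have hmeas : ∀ᶠ x in 𝓝 τ, AEStronglyMeasurable
      (fun z => (φ z : ℂ) * PI4 W t v x z a b c d) volume := by
    filter_upwards [hs] with x hx
    exact (IP_int L hφ (hS x ⟨hx.1.le, hx.2.le⟩) a b c d).aestronglyMeasurable
  have hF' : AEStronglyMeasurable (fun z => (φ z : ℂ) * TT v (PI4 W t v τ z) a b c d) volume := by
    have I := IP_int L hφ (hS τ hτ')
    have e : (fun z => (φ z : ℂ) * TT v (PI4 W t v τ z) a b c d) = fun z =>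
        (v 0 / 2 * ((φ z : ℂ) * PI4 W t v τ z (a + 1) b c d) -
          (starRingEnd ℂ) (v 0) / 2 * ((φ z : ℂ) * PI4 W t v τ z (a - 1) b c d)) +
        (v 1 / 2 * ((φ z : ℂ) * PI4 W t v τ z a (b + 1) c d) -
          (starRingEnd ℂ) (v 1) / 2 * ((φ z : ℂ) * PI4 W t v τ z a (b - 1) c d)) +
        (v 2 / 2 * ((φ z : ℂ) * PI4 W t v τ z a b (c + 1) d) -
          (starRingEnd ℂ) (v 2) / 2 * ((φ z : ℂ) * PI4 W t v τ z a b (c - 1) d)) +
        (v 3 / 2 * ((φ z : ℂ) * PI4 W t v τ z a b c (d + 1)) -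
          (starRingEnd ℂ) (v 3) / 2 * ((φ z : ℂ) * PI4 W t v τ z a b c (d - 1))) := by
      funext z; simp only [TT]; ring
    rw [e]
    have h1 := fun a b c d => (I a b c d).aestronglyMeasurable
    exact (((((h1 _ _ _ _).const_mul _).sub ((h1 _ _ _ _).const_mul _)).add
      (((h1 _ _ _ _).const_mul _).sub ((h1 _ _ _ _).const_mul _))).add
      (((h1 _ _ _ _).const_mul _).sub ((h1 _ _ _ _).const_mul _))).add
      (((h1 _ _ _ _).const_mul _).sub ((h1 _ _ _ _).const_mul _))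
  have key := (hasDerivAt_integral_of_dominated_loc_of_deriv_le (μ := volume)
    (F := fun τ z => (φ z : ℂ) * PI4 W t v τ z a b c d) hs hmeas
    (IP_int L hφ (hS τ hτ') a b c d)
    (F' := fun τ z => (φ z : ℂ) * TT v (PI4 W t v τ z) a b c d) hF'
    (bound := fun z => |C| * |φ z|)
    (ae_of_all _ fun z x hx => by
      by_cases hz : z ∈ tsupport φ
      · rw [norm_mul, norm_real, Real.norm_eq_abs, mul_comm]
        refine mul_le_mul_of_nonneg_right ?_ (abs_nonneg _)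
        exact (hC (x, z) ⟨⟨hx.1.le, hx.2.le⟩, hz⟩).trans (le_abs_self C)
      · rw [image_eq_zero_of_notMem_tsupport hz]; simp) hb
    (ae_of_all _ fun z x hx => by
      by_cases hz : z ∈ tsupport φ
      · exact (PI4_d L (hS x ⟨hx.1.le, hx.2.le⟩ z hz) a b c d).const_mul _
      · rw [image_eq_zero_of_notMem_tsupport hz]
        simpa using hasDerivAt_const x (0 : ℂ))).2
  rw [IP_TT L hφ (hS τ hτ')] at key
  exact key

/-- the Taylor estimate for the four point function -/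
theorem IP_tayl (L : Lad B W t) (hφ : TF B φ)
    (hS : ∀ τ ∈ Set.Icc (-1 : ℝ) 2, ∀ z ∈ tsupport φ, ∀ i, z + ((τ * t : ℝ) : ℂ) * v i ∈ B)
    (N : ℕ) (C : ℝ) (hC : ∀ τ ∈ Set.Icc (0 : ℝ) 1, ∀ a b c d : ℤ, |a| ≤ N → |b| ≤ N → |c| ≤ N →
      |d| ≤ N → ‖IP φ W t v τ a b c d‖ ≤ C) :
    ‖IP φ W t v 1 0 0 0 0 - PhL v N (IP φ W t v 0)‖ ≤ RR v ^ N * C / (N.factorial : ℝ) := by
  have h1 := tayl N (fun N τ => (TT v)^[N] (IP φ W t v τ) 0 0 0 0) (RR v ^ N * C)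
    (fun N' _ s hs => TT_deriv v (fun a b c d => IP_d L hφ hS hs a b c d) N' 0 0 0 0)
    (fun s hs => TT_bd v N _ 0 0 0 0 C fun a b c d ha hb hc hd => hC s hs a b c d
      (by simpa using ha) (by simpa using hb) (by simpa using hc) (by simpa using hd)) 1
    ⟨zero_le_one, le_rfl⟩
  simp only [Function.iterate_zero, id, ofReal_one, one_pow, mul_one] at h1
  refine le_trans (le_of_eq ?_) h1
  congr 2
  unfold PhL
  refine Finset.sum_congr rfl fun N' _ => ?_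
  rw [one_div]

end

end Pool.Agent.TH294.RG
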