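import Pool.Agent.TH294.RG.Jet3
import Pool.Agent.TH294.RG.Fo

/-!
Project RG (helper294): evaluation of the truncated translations.
-/

set_option autoImplicit false
open MeasureTheory Filter Topology Complex ProbabilityTheory
open scoped ContDiff

namespace Pool.Agent.TH294.RG

open Pool.Agent.W745.RW Pool.Agent.TH294.RS

noncomputable section

lemma PhL_int (v : Fin 4 → ℂ) (L : ℕ) {X : Type*} [MeasurableSpace X] {μ : Measure X}
    {F : X → ℤ → ℤ → ℤ → ℤ → ℂ} (hF : ∀ a b c d, Integrable (fun x => F x a b c d) μ) :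
    PhL v L (fun a b c d => ∫ x, F x a b c d ∂μ) = ∫ x, PhL v L (F x) ∂μ := by
  obtain ⟨p, hp⟩ := PhL_rep v L
  simp only [hp, Finsupp.sum]
  rw [integral_finsetSum _ fun g _ => (hF _ _ _ _).const_mul _]
  refine Finset.sum_congr rfl fun g _ => ?_
  rw [integral_const_mul]

lemma PhL_cm (v : Fin 4 → ℂ) (L : ℕ) (r : ℂ) (F : ℤ → ℤ → ℤ → ℤ → ℂ) :
    PhL v L (fun a b c d => r * F a b c d) = r * PhL v L F := by
  obtain ⟨p, hp⟩ := PhL_rep v L
  simp only [hp, Finsupp.sum, Finset.mul_sum]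
  refine Finset.sum_congr rfl fun g _ => ?_
  ring

lemma PhL_add (v : Fin 4 → ℂ) (L : ℕ) (F G : ℤ → ℤ → ℤ → ℤ → ℂ) :
    PhL v L (fun a b c d => F a b c d + G a b c d) = PhL v L F + PhL v L G := by
  obtain ⟨p, hp⟩ := PhL_rep v L
  simp only [hp, Finsupp.sum, mul_add, Finset.sum_add_distrib]

/-! ### the excess part -/

lemma sg_zpow (a : ℤ) : ((-1 : ℂ)) ^ a = sg a := by
  by_cases h : Even a
  · rw [sg_even h, h.neg_one_zpow]
  · rw [sg_odd h, (Int.not_even_iff_odd.1 h).neg_one_zpow]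

lemma neg_zpow' (s : ℂ) (a : ℤ) : (-s) ^ a = sg a * s ^ a := by
  rw [neg_eq_neg_one_mul, mul_zpow, sg_zpow]

/-- the excess at a pure frequency as a combination of characters -/
lemma ep2_ch {s : ℂ} (hs : s ≠ 0) (a b c d : ℤ) : ep2 a b c d * s ^ (a + b + c + d) =
    1 / 6 * (ch ![s, s, -s, -s] a b c d + ch ![-s, -s, s, s] a b c d + ch ![s, -s, s, -s] a b c d +
      ch ![-s, s, -s, s] a b c d + ch ![s, -s, -s, s] a b c d + ch ![-s, s, s, -s] a b c d) := by
  have e0 : s ^ (a + b + c + d) = s ^ a * s ^ b * s ^ c * s ^ d := by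
    rw [zpow_add₀ hs, zpow_add₀ hs, zpow_add₀ hs]
  have e1 : ep2 a b c d = 1 / 6 * (sg c * sg d + sg a * sg b + sg b * sg d + sg a * sg c +
      sg b * sg c + sg a * sg d) := by
    unfold ep2 eps
    by_cases ha : Even a <;> by_cases hb : Even b <;> by_cases hc : Even c <;> by_cases hd : Even d
    all_goals
      simp only [sg_even, sg_odd, ha, hb, hc, hd, not_false_eq_true, Int.even_add, iff_true,
        iff_false, not_true_eq_false, if_true, if_false, iff_self]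
      rw [Int.even_iff] at ha hb hc hd
      first
        | (rw [if_pos (by omega)]; norm_num)
        | (rw [if_neg (by omega)]; norm_num)
        | norm_num
  rw [e0, e1]
  simp only [ch, Matrix.cons_val_zero, Matrix.cons_val_one, Matrix.cons_val, neg_zpow']
  ring

lemma n4 {s0 s1 s2 s3 : ℂ} (h0 : ‖s0‖ = 1) (h1 : ‖s1‖ = 1) (h2 : ‖s2‖ = 1) (h3 : ‖s3‖ = 1) :
    ∀ i, ‖(![s0, s1, s2, s3] : Fin 4 → ℂ) i‖ = 1 := by
  intro i
  fin_cases i
  · exact h0
  · exact h1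
  · exact h2
  · exact h3

lemma exc_bd (v : Fin 4 → ℂ) {L : ℕ} (hL : 2 * RR v ≤ L) {s : ℂ} (hs : ‖s‖ = 1) :
    ‖PhL v L (fun a b c d => ep2 a b c d * s ^ (a + b + c + d))‖ ≤
      1 + RR v ^ L / (L.factorial : ℝ) * 2 := by
  have hs0 : s ≠ 0 := by rw [← norm_pos_iff, hs]; exact one_pos
  have hs' : ‖-s‖ = 1 := by rw [norm_neg, hs]
  simp only [ep2_ch hs0]
  rw [PhL_cm, PhL_add, PhL_add, PhL_add, PhL_add, PhL_add]
  have key : ∀ s : Fin 4 → ℂ, (∀ i, ‖s i‖ = 1) → ‖PhL v L (ch s)‖ ≤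
      1 + RR v ^ L / (L.factorial : ℝ) * 2 := by
    intro s hs
    rw [PhL_ch v s hs]
    exact EL_bd2 L (lm_bd v s hs) hL
  have k1 := key _ (n4 hs hs hs' hs')
  have k2 := key _ (n4 hs' hs' hs hs)
  have k3 := key _ (n4 hs hs' hs hs')
  have k4 := key _ (n4 hs' hs hs' hs)
  have k5 := key _ (n4 hs hs' hs' hs)
  have k6 := key _ (n4 hs' hs hs hs')
  have e1 : ∀ s : Fin 4 → ℂ, PhL v L (ch s) = PhL v L (fun a b c d => ch s a b c d) := fun _ => rfl
  rw [norm_mul]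
  have h6 : ‖(1 / 6 : ℂ)‖ = 1 / 6 := by norm_num
  rw [h6]
  have := norm_add_le_of_le (norm_add_le_of_le (norm_add_le_of_le (norm_add_le_of_le
    (norm_add_le_of_le k1 k2) k3) k4) k5) k6
  simp only [e1] at this
  linarith

/-- **The excess part** of the truncated four point function -/
theorem AG.exc {B : Set ℂ} {a : ℂ → ℝ} {h : ℕ → ℝ} {w : ℤ → ℕ → ℂ → ℂ} {M : ℕ → ℂ → ℂ}
    (H : AG B a h w M) (hB : IsOpen B) {φ : ℂ → ℝ} (hφ : TF B φ)
    (hφ0 : ∀ z, 0 ≤ φ z) {A : ℝ}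
    (hA : ∀ K, fK M φ K ≤ A) (hpar : Tendsto (fun N : ℕ => ((N : ℝ) ^ 2)⁻¹ *
      (∑ j ∈ Finset.Icc 1 N, ∑ k ∈ Finset.Icc 1 N, ∫ z, φ z * ss M j k z)) atTop (𝓝 0))
    {U : Ultrafilter ℕ} (hU : (U : Filter ℕ) ≤ atTop) {x : ℤ → ℂ}
    (hx : ∀ i j k l, Tendsto (fun n => ∫ z, (φ z : ℂ) * F4 w i j k l n z) U
      (𝓝 ((∫ z, (φ z : ℂ) * GG' M i j k l z) + ep2 i j k l * x (i + j + k + l))))
    (v : Fin 4 → ℂ) {L : ℕ} (hL : 2 * RR v ≤ L) :
    ‖PhL v L (fun a b c d => ep2 a b c d * x (a + b + c + d))‖ ≤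
      (1 + RR v ^ L / (L.factorial : ℝ) * 2) * (x 0).re := by
  obtain ⟨p, hp⟩ := PhL_rep v L
  have key := H.normin hB hφ hφ0 hA hpar hU hx p.support
    (fun g => p g * ep2 g.1 g.2.1 g.2.2.1 g.2.2.2)
    (fun g => (g.1 + g.2.1 + g.2.2.1 + g.2.2.2) / 2) (1 + RR v ^ L / (L.factorial : ℝ) * 2)
    (fun ζ hζ => by
      obtain ⟨s, hs⟩ : ∃ s : ℂ, s ^ 2 = ζ := IsSquare.exists_sq ζ (IsAlgClosed.exists_pow_nat_eq ζ
        (by norm_num : 0 < 2) |>.elim fun r hr => ⟨r, by rw [← hr, sq]⟩) |>.elim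
          fun r hr => ⟨r, hr.symm⟩
      have hs1 : ‖s‖ = 1 := by
        have h1 : ‖s‖ ^ 2 = 1 := by rw [← norm_pow, hs, hζ]
        nlinarith [norm_nonneg s]
      have hs0 : s ≠ 0 := by rw [← norm_pos_iff, hs1]; exact one_pos
      have h2 := exc_bd v hL hs1
      rw [hp] at h2
      refine le_trans (le_of_eq ?_) h2
      congr 1
      refine Finset.sum_congr rfl fun g _ => ?_
      obtain ⟨a, b, c, d⟩ := g
      show p (a, b, c, d) * ep2 a b c d * ζ ^ ((a + b + c + d) / 2) =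
        p (a, b, c, d) * (ep2 a b c d * s ^ (a + b + c + d))
      by_cases he : Even (a + b + c + d)
      · have e1 : s ^ (a + b + c + d) = ζ ^ ((a + b + c + d) / 2) := by
          rw [← hs, ← zpow_natCast s 2, ← zpow_mul]
          congr 1
          obtain ⟨r, hr⟩ := he
          push_cast; omega
        rw [e1]; ring
      · unfold ep2
        rw [if_neg he]; ring)
  rw [hp]
  refine le_trans (le_of_eq ?_) key
  congr 1
  refine Finset.sum_congr rfl fun g _ => ?_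
  obtain ⟨a, b, c, d⟩ := g
  show p (a, b, c, d) * (ep2 a b c d * x (a + b + c + d)) =
    p (a, b, c, d) * ep2 a b c d * x (2 * ((a + b + c + d) / 2))
  by_cases he : Even (a + b + c + d)
  · have e1 : 2 * ((a + b + c + d) / 2) = a + b + c + d := by
      obtain ⟨r, hr⟩ := he; omega
    rw [e1]; ring
  · unfold ep2
    rw [if_neg he]; ring

/-! ### the Gaussian part -/

/-- characters of a pair of directions -/
def KK (s t : ℂ) (a b c d : ℤ) : ℂ :=
  1 / 4 * (ch ![s, -s, t, -t] a b c d + ch ![s, -s, -t, t] a b c d + ch ![-s, s, t, -t] a b c d +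
    ch ![-s, s, -t, t] a b c d) +
  1 / 4 * (ch ![s, t, -s, -t] a b c d + ch ![s, -t, -s, t] a b c d + ch ![-s, t, s, -t] a b c d +
    ch ![-s, -t, s, t] a b c d) +
  1 / 4 * (ch ![s, t, -t, -s] a b c d + ch ![s, -t, t, -s] a b c d + ch ![-s, t, -t, s] a b c d +
    ch ![-s, -t, t, s] a b c d)

/-- truncated products of cosines -/
def EE (L : ℕ) (x y : ℝ) : ℂ :=
  1 / 4 * (EL L (x + y) + EL L (x - y) + EL L (-x + y) + EL L (-x - y))

lemma EE_lim (x y : ℝ) : Tendsto (fun L => EE L x y) atTop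
    (𝓝 ((Real.cos x * Real.cos y : ℝ) : ℂ)) := by
  have h := ((((EL_lim (x + y)).add (EL_lim (x - y))).add (EL_lim (-x + y))).add
    (EL_lim (-x - y))).const_mul (1 / 4)
  have e : (1 / 4 : ℂ) * (Complex.exp (((x + y : ℝ) : ℂ) * I) + Complex.exp (((x - y : ℝ) : ℂ) * I) +
      Complex.exp (((-x + y : ℝ) : ℂ) * I) + Complex.exp (((-x - y : ℝ) : ℂ) * I)) =
      ((Real.cos x * Real.cos y : ℝ) : ℂ) := by
    push_cast
    rw [Complex.cos, Complex.cos, add_mul, sub_mul, add_mul, sub_mul, Complex.exp_add,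
      Complex.exp_add, sub_eq_add_neg, Complex.exp_add, sub_eq_add_neg, Complex.exp_add, neg_mul,
      neg_mul]
    ring
  rw [e] at h
  exact h

lemma KK_val (v : Fin 4 → ℂ) (L : ℕ) {s t : ℂ} (hs : ‖s‖ = 1) (ht : ‖t‖ = 1) :
    PhL v L (KK s t) = EE L (((v 0 - v 1) * s).im) (((v 2 - v 3) * t).im) +
      EE L (((v 0 - v 2) * s).im) (((v 1 - v 3) * t).im) +
      EE L (((v 0 - v 3) * s).im) (((v 1 - v 2) * t).im) := by
  have hs' : ‖-s‖ = 1 := by rw [norm_neg, hs]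
  have ht' : ‖-t‖ = 1 := by rw [norm_neg, ht]
  have e0 : KK s t = fun a b c d =>
    (1 / 4 * (ch ![s, -s, t, -t] a b c d + ch ![s, -s, -t, t] a b c d + ch ![-s, s, t, -t] a b c d +
    ch ![-s, s, -t, t] a b c d) +
    1 / 4 * (ch ![s, t, -s, -t] a b c d + ch ![s, -t, -s, t] a b c d + ch ![-s, t, s, -t] a b c d +
    ch ![-s, -t, s, t] a b c d)) +
    1 / 4 * (ch ![s, t, -t, -s] a b c d + ch ![s, -t, t, -s] a b c d + ch ![-s, t, -t, s] a b c d +
    ch ![-s, -t, t, s] a b c d) := rfl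
  rw [e0]
  simp only [PhL_add, PhL_cm]
  have c1 : ∀ s : Fin 4 → ℂ, (∀ i, ‖s i‖ = 1) → PhL v L (fun a b c d => ch s a b c d) =
      EL L (lm v s) := fun s hs => PhL_ch v s hs L
  rw [c1 _ (n4 hs hs' ht ht'), c1 _ (n4 hs hs' ht' ht), c1 _ (n4 hs' hs ht ht'),
    c1 _ (n4 hs' hs ht' ht), c1 _ (n4 hs ht hs' ht'), c1 _ (n4 hs ht' hs' ht),
    c1 _ (n4 hs' ht hs ht'), c1 _ (n4 hs' ht' hs ht), c1 _ (n4 hs ht ht' hs'),
    c1 _ (n4 hs ht' ht hs'), c1 _ (n4 hs' ht ht' hs), c1 _ (n4 hs' ht' ht hs)]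
  have im1 : ∀ w s : ℂ, (w * -s).im = -(w * s).im := fun w s => by rw [mul_neg, neg_im]
  have im2 : ∀ w w' s : ℂ, ((w - w') * s).im = (w * s).im - (w' * s).im := fun w w' s => by
    rw [sub_mul, sub_im]
  unfold EE
  simp only [lm, Matrix.cons_val_zero, Matrix.cons_val_one, Matrix.cons_val, im1, im2]
  congr 1
  · congr 1
    · congr 1
      congr 1
      · congr 1
        · congr 1
          · congr 1; ring
          · congr 1; ring
        · congr 1; ring
      · congr 1; ring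
    · congr 1
      congr 1
      · congr 1
        · congr 1
          · congr 1; ring
          · congr 1; ring
        · congr 1; ring
      · congr 1; ring
  · congr 1
    congr 1
    · congr 1
      · congr 1
        · congr 1; ring
        · congr 1; ring
      · congr 1; ring
    · congr 1; ring

end

end Pool.Agent.TH294.RG
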