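import Pool.Agent.TH294.RG.Jet4

/-!
Project RG (helper294): the Gaussian part of the four point functions; bounds.
-/

set_option autoImplicit false
open MeasureTheory Filter Topology Complex ProbabilityTheory
open scoped ContDiff

namespace Pool.Agent.TH294.RG

open Pool.Agent.W745.RW Pool.Agent.TH294.RS

noncomputable section

lemma ea_cont : Continuous ea := by unfold ea; fun_prop

lemma ea_ne (α : ℝ) : ea α ≠ 0 := by rw [← norm_pos_iff, ea_norm]; exact one_pos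

/-- symmetrised pair of powers -/
def kk (a b : ℤ) (α : ℝ) : ℂ := 1 / 2 * (ea α ^ a * (-ea α) ^ b + (-ea α) ^ a * ea α ^ b)

lemma ea_zc (k : ℤ) : Continuous (fun α => ea α ^ k) := ea_cont.zpow₀ k fun α => Or.inl (ea_ne α)
lemma ea_zc' (k : ℤ) : Continuous (fun α => (-ea α) ^ k) :=
  ea_cont.neg.zpow₀ k fun α => Or.inl (neg_ne_zero.2 (ea_ne α))

lemma kk_cont (a b : ℤ) : Continuous (kk a b) := by
  unfold kk
  exact continuous_const.mul (((ea_zc a).mul (ea_zc' b)).add ((ea_zc' a).mul (ea_zc b)))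

lemma kk_bd (a b : ℤ) (α : ℝ) : ‖kk a b α‖ ≤ 1 := by
  unfold kk
  rw [norm_mul]
  have h1 : ‖(1 / 2 : ℂ)‖ = 1 / 2 := by norm_num
  have h2 : ‖ea α ^ a * (-ea α) ^ b + (-ea α) ^ a * ea α ^ b‖ ≤ 1 + 1 := by
    refine norm_add_le_of_le ?_ ?_
    · rw [norm_mul, norm_zpow, norm_zpow, norm_neg, ea_norm]; simp
    · rw [norm_mul, norm_zpow, norm_zpow, norm_neg, ea_norm]; simp
  rw [h1]; linarith

lemma kk_int (a b : ℤ) (μ : Measure ℝ) [IsProbabilityMeasure μ] : Integrable (kk a b) μ :=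
  Integrable.of_bound (kk_cont a b).aestronglyMeasurable 1 (ae_of_all _ fun α => kk_bd a b α)

lemma kk_val (a b : ℤ) (α : ℝ) : kk a b α =
    if Even (a + b) then (-1) ^ a.natAbs * ea α ^ (a + b) else 0 := by
  unfold kk
  rw [neg_zpow', neg_zpow', zpow_add₀ (ea_ne α)]
  split_ifs with h
  · have e1 : sg b = sg a := by
      have := sgn_par h
      exact this.symm
    rw [e1]
    show _ = sg a * _
    ring
  · have e1 : sg a + sg b = 0 := by
      by_cases ha : Even a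
      · have hb : ¬ Even b := fun hb => h (ha.add hb)
        rw [sg_even ha, sg_odd hb]; ring
      · have hb : Even b := by
          by_contra hb
          apply h
          rw [Int.even_add]; tauto
        rw [sg_odd ha, sg_even hb]; ring
    linear_combination (1 / 2 * ea α ^ a * ea α ^ b) * e1

lemma cc_kk (m : ℂ → ℝ) (ν : Kernel ℂ ℝ) (a b : ℤ) (z : ℂ) :
    cc (MM m ea ν) a b z = (m z : ℂ) * ∫ α, kk a b α ∂(ν z) := by
  rw [cc_C2]
  unfold C2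
  simp only [kk_val]
  split_ifs with h
  · rw [integral_const_mul]; ring
  · simp

lemma KK_kk (α β : ℝ) (a b c d : ℤ) : KK (ea α) (ea β) a b c d =
    kk a b α * kk c d β + kk a c α * kk b d β + kk a d α * kk b c β := by
  unfold KK kk ch
  simp only [Matrix.cons_val_zero, Matrix.cons_val_one, Matrix.cons_val]
  ring

lemma KK_int (a b c d : ℤ) (μ : Measure ℝ) [IsProbabilityMeasure μ] :
    Integrable (fun p : ℝ × ℝ => KK (ea p.1) (ea p.2) a b c d) (μ.prod μ) := by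
  simp only [KK_kk]
  exact (((kk_int a b μ).mul_prod (kk_int c d μ)).add ((kk_int a c μ).mul_prod (kk_int b d μ))).add
    ((kk_int a d μ).mul_prod (kk_int b c μ))

lemma GG_KK (m : ℂ → ℝ) (ν : Kernel ℂ ℝ) [IsMarkovKernel ν] (a b c d : ℤ) (z : ℂ) :
    GG' (MM m ea ν) a b c d z = (m z : ℂ) ^ 2 *
      ∫ p : ℝ × ℝ, KK (ea p.1) (ea p.2) a b c d ∂((ν z).prod (ν z)) := by
  have P := fun a b c d : ℤ => integral_prod_mul (μ := ν z) (ν := ν z) (kk a b) (kk c d)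
  have I := fun a b c d : ℤ => (kk_int a b (ν z)).mul_prod (kk_int c d (ν z))
  unfold GG'
  simp only [cc_kk]
  have e1 : ∫ p : ℝ × ℝ, KK (ea p.1) (ea p.2) a b c d ∂((ν z).prod (ν z)) =
      (∫ α, kk a b α ∂(ν z)) * (∫ α, kk c d α ∂(ν z)) +
      (∫ α, kk a c α ∂(ν z)) * (∫ α, kk b d α ∂(ν z)) +
      (∫ α, kk a d α ∂(ν z)) * (∫ α, kk b c α ∂(ν z)) := by
    simp only [KK_kk]
    rw [← P, ← P, ← P, ← integral_add (I _ _ _ _) (I _ _ _ _)]
    have := integral_add ((I a b c d).add (I a c b d)) (I a d b c)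
    simp only [Pi.add_apply] at this
    rw [← this]
  rw [e1]; ring

/-- sum over the three pairings of products of cosines -/
def QC (v : Fin 4 → ℂ) (p : ℝ × ℝ) : ℝ :=
  Real.cos (((v 0 - v 1) * ea p.1).im) * Real.cos (((v 2 - v 3) * ea p.2).im) +
  Real.cos (((v 0 - v 2) * ea p.1).im) * Real.cos (((v 1 - v 3) * ea p.2).im) +
  Real.cos (((v 0 - v 3) * ea p.1).im) * Real.cos (((v 1 - v 2) * ea p.2).im)

/-- the covariance function -/
def cvf (w : ℂ) (μ : Measure ℝ) : ℝ := ∫ α, Real.cos ((w * ea α).im) ∂μ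

lemma cos_cont (w : ℂ) : Continuous (fun α => Real.cos ((w * ea α).im)) := by
  have := ea_cont
  fun_prop

lemma cos_int (w : ℂ) (μ : Measure ℝ) [IsProbabilityMeasure μ] :
    Integrable (fun α => Real.cos ((w * ea α).im)) μ :=
  Integrable.of_bound (cos_cont w).aestronglyMeasurable 1
    (ae_of_all _ fun α => by rw [Real.norm_eq_abs]; exact Real.abs_cos_le_one _)

lemma QC_int (v : Fin 4 → ℂ) (μ : Measure ℝ) [IsProbabilityMeasure μ] :
    ∫ p, QC v p ∂(μ.prod μ) = cvf (v 0 - v 1) μ * cvf (v 2 - v 3) μ +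
      cvf (v 0 - v 2) μ * cvf (v 1 - v 3) μ + cvf (v 0 - v 3) μ * cvf (v 1 - v 2) μ := by
  have P := fun w w' : ℂ => integral_prod_mul (μ := μ) (ν := μ)
    (fun α => Real.cos ((w * ea α).im)) (fun α => Real.cos ((w' * ea α).im))
  have I := fun w w' : ℂ => (cos_int w μ).mul_prod (cos_int w' μ)
  unfold QC cvf
  rw [← P, ← P, ← P, ← integral_add (I _ _) (I _ _)]
  have := integral_add ((I (v 0 - v 1) (v 2 - v 3)).add (I (v 0 - v 2) (v 1 - v 3)))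
    (I (v 0 - v 3) (v 1 - v 2))
  simp only [Pi.add_apply] at this
  rw [← this]

lemma EE_bd (L : ℕ) {x y D : ℝ} (h : |x| + |y| ≤ D) : ‖EE L x y‖ ≤ Real.exp D := by
  unfold EE
  have key : ∀ u : ℝ, |u| ≤ D → ‖EL L u‖ ≤ Real.exp D := fun u hu =>
    (EL_bd L u).trans (Real.exp_le_exp.2 hu)
  have a1 := key (x + y) ((abs_add_le _ _).trans h)
  have a2 := key (x - y) ((abs_sub _ _).trans h)
  have a3 := key (-x + y) ((abs_add_le _ _).trans (by rwa [abs_neg]))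
  have a4 := key (-x - y) ((abs_sub _ _).trans (by rwa [abs_neg]))
  rw [norm_mul]
  have h1 : ‖(1 / 4 : ℂ)‖ = 1 / 4 := by norm_num
  rw [h1]
  have := norm_add_le_of_le (norm_add_le_of_le (norm_add_le_of_le a1 a2) a3) a4
  linarith

lemma im_bd (w s : ℂ) (hs : ‖s‖ = 1) : |(w * s).im| ≤ ‖w‖ := by
  refine (abs_im_le_norm _).trans (le_of_eq ?_)
  rw [norm_mul, hs, mul_one]

lemma KK_bd (v : Fin 4 → ℂ) (L : ℕ) (p : ℝ × ℝ) : ‖PhL v L (KK (ea p.1) (ea p.2))‖ ≤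
    3 * Real.exp (RR v) := by
  rw [KK_val v L (ea_norm _) (ea_norm _)]
  have key : ∀ i j k l : Fin 4, ‖v i - v j‖ + ‖v k - v l‖ ≤ RR v →
      ‖EE L (((v i - v j) * ea p.1).im) (((v k - v l) * ea p.2).im)‖ ≤ Real.exp (RR v) :=
    fun i j k l h => EE_bd L ((add_le_add (im_bd _ _ (ea_norm _)) (im_bd _ _ (ea_norm _))).trans h)
  have n := fun i j : Fin 4 => norm_sub_le (v i) (v j)
  have a1 := key 0 1 2 3 (by unfold RR; linarith [n 0 1, n 2 3])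
  have a2 := key 0 2 1 3 (by unfold RR; linarith [n 0 2, n 1 3])
  have a3 := key 0 3 1 2 (by unfold RR; linarith [n 0 3, n 1 2])
  have := norm_add_le_of_le (norm_add_le_of_le a1 a2) a3
  linarith

lemma KK_lim (v : Fin 4 → ℂ) (p : ℝ × ℝ) : Tendsto (fun L => PhL v L (KK (ea p.1) (ea p.2))) atTop
    (𝓝 ((QC v p : ℝ) : ℂ)) := by
  simp only [KK_val v _ (ea_norm _) (ea_norm _)]
  have := ((EE_lim (((v 0 - v 1) * ea p.1).im) (((v 2 - v 3) * ea p.2).im)).add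
    (EE_lim (((v 0 - v 2) * ea p.1).im) (((v 1 - v 3) * ea p.2).im))).add
    (EE_lim (((v 0 - v 3) * ea p.1).im) (((v 1 - v 2) * ea p.2).im))
  rw [← ofReal_add, ← ofReal_add] at this
  exact this

lemma PhL_KK_int (v : Fin 4 → ℂ) (L : ℕ) (μ : Measure ℝ) [IsProbabilityMeasure μ] :
    Integrable (fun p : ℝ × ℝ => PhL v L (KK (ea p.1) (ea p.2))) (μ.prod μ) := by
  obtain ⟨q, hq⟩ := PhL_rep v L
  simp only [hq, Finsupp.sum]
  exact integrable_finsetSum _ fun g _ => (KK_int _ _ _ _ μ).const_mul _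

lemma KK_int_lim (v : Fin 4 → ℂ) (μ : Measure ℝ) [IsProbabilityMeasure μ] :
    Tendsto (fun L => ∫ p : ℝ × ℝ, PhL v L (KK (ea p.1) (ea p.2)) ∂(μ.prod μ)) atTop
      (𝓝 ((∫ p, QC v p ∂(μ.prod μ) : ℝ) : ℂ)) := by
  rw [← integral_complex_ofReal]
  refine tendsto_integral_of_dominated_convergence (fun _ => 3 * Real.exp (RR v)) ?_
    (integrable_const _) ?_ ?_
  · exact fun L => (PhL_KK_int v L μ).aestronglyMeasurable
  · exact fun L => ae_of_all _ fun p => KK_bd v L p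
  · exact ae_of_all _ fun p => KK_lim v p

variable {m : ℂ → ℝ} {ν : Kernel ℂ ℝ}

/-- the Gaussian four point density -/
def G4 (m : ℂ → ℝ) (ν : Kernel ℂ ℝ) (v : Fin 4 → ℂ) (z : ℂ) : ℝ :=
  m z ^ 2 * (cvf (v 0 - v 1) (ν z) * cvf (v 2 - v 3) (ν z) +
      cvf (v 0 - v 2) (ν z) * cvf (v 1 - v 3) (ν z) + cvf (v 0 - v 3) (ν z) * cvf (v 1 - v 2) (ν z))

/-- **The Gaussian part** of the truncated four point function -/
theorem gau_lim [IsMarkovKernel ν] {B : Set ℂ}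
    (hm : ∀ K : Set ℂ, IsCompact K → K ⊆ B → MemLp m 2 (volume.restrict K)) {φ : ℂ → ℝ}
    (hφ : TF B φ) (v : Fin 4 → ℂ) :
    Tendsto (fun L => PhL v L (fun a b c d => ∫ z, (φ z : ℂ) * GG' (MM m ea ν) a b c d z)) atTop
      (𝓝 ((∫ z, φ z * G4 m ν v z : ℝ) : ℂ)) := by
  have ml := fun k => MM_ml (ν := ν) ea_meas ea_norm hm k
  have mm := hm _ hφ.2.1 hφ.2.2
  have im : Integrable (fun z => φ z * (m z * m z)) := int2 hφ mm mm
  have J4 : ∀ i j k l, Integrable (fun z => (φ z : ℂ) * GG' (MM m ea ν) i j k l z) := by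
    intro i j k l
    have mm := fun (a b c d : ℤ) => (ML.cc ml a b).mulint (ML.cc ml c d) hφ.2.1 hφ.2.2
    refine TF.intK hφ ?_
    exact ((mm i j k l).add (mm i k j l)).add (mm i l j k)
  have e1 : ∀ L, PhL v L (fun a b c d => ∫ z, (φ z : ℂ) * GG' (MM m ea ν) a b c d z) =
      ∫ z, (φ z : ℂ) * ((m z : ℂ) ^ 2 * ∫ p : ℝ × ℝ, PhL v L (KK (ea p.1) (ea p.2))
        ∂((ν z).prod (ν z))) := by
    intro L
    rw [PhL_int v L (F := fun z a b c d => (φ z : ℂ) * GG' (MM m ea ν) a b c d z)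
      (fun a b c d => J4 a b c d)]
    congr 1; funext z
    rw [PhL_cm v L (φ z : ℂ) (fun a b c d => GG' (MM m ea ν) a b c d z)]
    simp only [GG_KK]
    rw [PhL_cm v L ((m z : ℂ) ^ 2) (fun a b c d => ∫ p : ℝ × ℝ, KK (ea p.1) (ea p.2) a b c d
      ∂((ν z).prod (ν z))), PhL_int v L (F := fun p : ℝ × ℝ => KK (ea p.1) (ea p.2))
      (fun a b c d => KK_int a b c d (ν z))]
  simp only [e1]
  have hmeas : ∀ L, AEStronglyMeasurable (fun z => (φ z : ℂ) * ((m z : ℂ) ^ 2 * ∫ p : ℝ × ℝ,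
      PhL v L (KK (ea p.1) (ea p.2)) ∂((ν z).prod (ν z)))) volume := by
    intro L
    obtain ⟨q, hq⟩ := PhL_rep v L
    have e2 : (fun z => (φ z : ℂ) * ((m z : ℂ) ^ 2 * ∫ p : ℝ × ℝ,
        PhL v L (KK (ea p.1) (ea p.2)) ∂((ν z).prod (ν z)))) = fun z => ∑ g ∈ q.support,
        q g * ((φ z : ℂ) * GG' (MM m ea ν) g.1 g.2.1 g.2.2.1 g.2.2.2 z) := by
      funext z
      have e3 := hq (fun a b c d => (φ z : ℂ) * GG' (MM m ea ν) a b c d z)
      rw [Finsupp.sum] at e3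
      rw [← e3, PhL_cm v L (φ z : ℂ) (fun a b c d => GG' (MM m ea ν) a b c d z)]
      simp only [GG_KK]
      rw [PhL_cm v L ((m z : ℂ) ^ 2) (fun a b c d => ∫ p : ℝ × ℝ, KK (ea p.1) (ea p.2) a b c d
        ∂((ν z).prod (ν z))), PhL_int v L (F := fun p : ℝ × ℝ => KK (ea p.1) (ea p.2))
        (fun a b c d => KK_int a b c d (ν z))]
    rw [e2]
    exact (integrable_finsetSum _ fun g _ => (J4 _ _ _ _).const_mul _).aestronglyMeasurable
  have e4 : ((∫ z, φ z * G4 m ν v z : ℝ) : ℂ) = ∫ z, (φ z : ℂ) * ((m z : ℂ) ^ 2 *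
      ((∫ p, QC v p ∂((ν z).prod (ν z)) : ℝ) : ℂ)) := by
    rw [← integral_complex_ofReal]
    congr 1; funext z
    rw [QC_int, G4]
    push_cast; ring
  rw [e4]
  refine tendsto_integral_of_dominated_convergence
    (fun z => ‖φ z * (m z * m z)‖ * (3 * Real.exp (RR v))) hmeas (im.norm.mul_const _) ?_ ?_
  · intro L
    refine ae_of_all _ fun z => ?_
    have h1 : ‖∫ p : ℝ × ℝ, PhL v L (KK (ea p.1) (ea p.2)) ∂((ν z).prod (ν z))‖ ≤
        3 * Real.exp (RR v) := by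
      have := norm_integral_le_of_norm_le_const (μ := (ν z).prod (ν z))
        (f := fun p : ℝ × ℝ => PhL v L (KK (ea p.1) (ea p.2))) (C := 3 * Real.exp (RR v))
        (ae_of_all _ fun p => KK_bd v L p)
      simpa using this
    have e5 : ‖(φ z : ℂ) * ((m z : ℂ) ^ 2 * ∫ p : ℝ × ℝ, PhL v L (KK (ea p.1) (ea p.2))
        ∂((ν z).prod (ν z)))‖ = ‖φ z * (m z * m z)‖ *
        ‖∫ p : ℝ × ℝ, PhL v L (KK (ea p.1) (ea p.2)) ∂((ν z).prod (ν z))‖ := by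
      rw [norm_mul, norm_mul, norm_mul, norm_mul, norm_pow, norm_real, norm_real]
      ring
    rw [e5]
    exact mul_le_mul_of_nonneg_left h1 (norm_nonneg _)
  · exact ae_of_all _ fun z => ((KK_int_lim v (ν z)).const_mul _).const_mul _

/-! ### bounds for the four point functions -/

lemma amgm4 (x y z w : ℝ) : x * y * z * w ≤ (x ^ 4 + y ^ 4 + z ^ 4 + w ^ 4) / 4 := by
  have h1 := sq_nonneg (x ^ 2 - y ^ 2)
  have h2 := sq_nonneg (z ^ 2 - w ^ 2)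
  have h3 := sq_nonneg (x * y - z * w)
  have e1 : (x ^ 2 - y ^ 2) ^ 2 = x ^ 4 + y ^ 4 - 2 * (x ^ 2 * y ^ 2) := by ring
  have e2 : (z ^ 2 - w ^ 2) ^ 2 = z ^ 4 + w ^ 4 - 2 * (z ^ 2 * w ^ 2) := by ring
  have e3 : (x * y - z * w) ^ 2 = x ^ 2 * y ^ 2 + z ^ 2 * w ^ 2 - 2 * (x * y * z * w) := by ring
  linarith

lemma add4 {f1 f2 f3 f4 : ℂ → ℝ} (h1 : Integrable f1) (h2 : Integrable f2) (h3 : Integrable f3)
    (h4 : Integrable f4) : ∫ z, (f1 z + f2 z + f3 z + f4 z) =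
      (∫ z, f1 z) + (∫ z, f2 z) + (∫ z, f3 z) + ∫ z, f4 z := by
  have e1 := integral_add h1 h2
  have e2 := integral_add (h1.add h2) h3
  have e3 := integral_add ((h1.add h2).add h3) h4
  simp only [Pi.add_apply] at e1 e2 e3
  rw [e3, e2, e1]

lemma IP_bd {B : Set ℂ} {W : ℤ → ℂ → ℂ} {t : ℝ} {v : Fin 4 → ℂ} {φ χ : ℂ → ℝ}
    (hW : ∀ k, ContinuousOn (W k) B) (hχ : TF B χ) {τ : ℝ}
    (hle : ∀ z i, |φ z| ≤ χ (z + ((τ * t : ℝ) : ℂ) * v i)) (a b c d : ℤ) :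
    ‖IP φ W t v τ a b c d‖ ≤ ((∫ z, χ z * ‖W a z‖ ^ 4) + (∫ z, χ z * ‖W b z‖ ^ 4) +
      (∫ z, χ z * ‖W c z‖ ^ 4) + ∫ z, χ z * ‖W d z‖ ^ 4) / 4 := by
  have I : ∀ k, Integrable (fun z => χ z * ‖W k z‖ ^ 4) := by
    intro k
    have h1 := (TF.cint hχ (f := fun z => ((‖W k z‖ ^ 4 : ℝ) : ℂ))
      (continuous_ofReal.comp_continuousOn (((hW k).norm).pow 4))).re
    refine h1.congr (ae_of_all _ fun z => ?_)
    show ((χ z : ℂ) * ((‖W k z‖ ^ 4 : ℝ) : ℂ)).re = _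
    rw [← ofReal_mul, ofReal_re]
  have It : ∀ k (s : ℂ), Integrable (fun z => χ (z + s) * ‖W k (z + s)‖ ^ 4) := fun k s =>
    (I k).comp_add_right s
  have Ie : ∀ k (s : ℂ), ∫ z, χ (z + s) * ‖W k (z + s)‖ ^ 4 = ∫ z, χ z * ‖W k z‖ ^ 4 := fun k s =>
    integral_add_right_eq_self (fun z => χ z * ‖W k z‖ ^ 4) s
  unfold IP
  refine (norm_integral_le_of_norm_le (g := fun z =>
    (χ (z + ((τ * t : ℝ) : ℂ) * v 0) * ‖W a (z + ((τ * t : ℝ) : ℂ) * v 0)‖ ^ 4 +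
    χ (z + ((τ * t : ℝ) : ℂ) * v 1) * ‖W b (z + ((τ * t : ℝ) : ℂ) * v 1)‖ ^ 4 +
    χ (z + ((τ * t : ℝ) : ℂ) * v 2) * ‖W c (z + ((τ * t : ℝ) : ℂ) * v 2)‖ ^ 4 +
    χ (z + ((τ * t : ℝ) : ℂ) * v 3) * ‖W d (z + ((τ * t : ℝ) : ℂ) * v 3)‖ ^ 4) / 4)
    (((((It a _).add (It b _)).add (It c _)).add (It d _)).div_const 4) (ae_of_all _ fun z => ?_)).trans
    (le_of_eq ?_)
  · unfold PI4
    rw [norm_mul, norm_mul, norm_mul, norm_mul, norm_real, Real.norm_eq_abs]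
    have h1 := amgm4 ‖W a (z + ((τ * t : ℝ) : ℂ) * v 0)‖ ‖W b (z + ((τ * t : ℝ) : ℂ) * v 1)‖
      ‖W c (z + ((τ * t : ℝ) : ℂ) * v 2)‖ ‖W d (z + ((τ * t : ℝ) : ℂ) * v 3)‖
    have h2 := mul_le_mul_of_nonneg_left h1 (abs_nonneg (φ z))
    have k0 := mul_le_mul_of_nonneg_right (hle z 0)
      (by positivity : 0 ≤ ‖W a (z + ((τ * t : ℝ) : ℂ) * v 0)‖ ^ 4)
    have k1 := mul_le_mul_of_nonneg_right (hle z 1)
      (by positivity : 0 ≤ ‖W b (z + ((τ * t : ℝ) : ℂ) * v 1)‖ ^ 4)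
    have k2 := mul_le_mul_of_nonneg_right (hle z 2)
      (by positivity : 0 ≤ ‖W c (z + ((τ * t : ℝ) : ℂ) * v 2)‖ ^ 4)
    have k3 := mul_le_mul_of_nonneg_right (hle z 3)
      (by positivity : 0 ≤ ‖W d (z + ((τ * t : ℝ) : ℂ) * v 3)‖ ^ 4)
    linarith
  · rw [integral_div, add4 (It a _) (It b _) (It c _) (It d _), Ie, Ie, Ie, Ie]

/-- the fourth moments of the ladder are bounded along an ultrafilter, uniformly in the index -/
theorem AG.ubd [IsMarkovKernel ν] {B : Set ℂ} {a : ℂ → ℝ} {h : ℕ → ℝ} {w : ℤ → ℕ → ℂ → ℂ}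
    (hm : ∀ K : Set ℂ, IsCompact K → K ⊆ B → MemLp m 2 (volume.restrict K))
    (H : AG B a h w (MM m ea ν)) (hB : IsOpen B) {χ : ℂ → ℝ} (hχ : TF B χ)
    (hχ0 : ∀ z, 0 ≤ χ z) {U : Ultrafilter ℕ} (hU : (U : Filter ℕ) ≤ atTop) :
    ∃ C : ℝ, 0 ≤ C ∧ ∀ k : ℤ, ∀ᶠ n in (U : Filter ℕ), ∫ z, χ z * ‖w k n z‖ ^ 4 ≤ C := by
  obtain ⟨x, hx⟩ := H.U4 hB hχ U hU
  have mm := hm _ hχ.2.1 hχ.2.2
  have im : Integrable (fun z => χ z * (m z * m z)) := int2 hχ mm mm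
  obtain ⟨Q, hQ⟩ : ∃ Q : ℝ, Q = ∫ z, χ z * (m z * m z) := ⟨_, rfl⟩
  have hQ0 : 0 ≤ Q := by
    rw [hQ]; exact integral_nonneg fun z => mul_nonneg (hχ0 z) (mul_self_nonneg _)
  have cb : ∀ a b z, ‖cc (MM m ea ν) a b z‖ ≤ |m z| := by
    intro a b z
    rw [cc_kk, norm_mul, norm_real, Real.norm_eq_abs]
    have := norm_integral_le_of_norm_le_const (μ := ν z) (f := kk a b) (C := 1)
      (ae_of_all _ fun α => kk_bd a b α)
    have h2 : ‖∫ α, kk a b α ∂(ν z)‖ ≤ 1 := by simpa using this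
    exact mul_le_of_le_one_right (abs_nonneg _) h2
  have gb : ∀ a b c d, ‖∫ z, (χ z : ℂ) * GG' (MM m ea ν) a b c d z‖ ≤ 3 * Q := by
    intro a b c d
    rw [hQ, ← integral_const_mul]
    refine norm_integral_le_of_norm_le (im.const_mul 3) (ae_of_all _ fun z => ?_)
    rw [norm_mul, norm_real, Real.norm_eq_abs, abs_of_nonneg (hχ0 z)]
    have g1 : ∀ a b c d, ‖cc (MM m ea ν) a b z * cc (MM m ea ν) c d z‖ ≤ m z * m z := by
      intro a b c d
      rw [norm_mul, ← abs_mul_abs_self (m z)]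
      exact mul_le_mul (cb a b z) (cb c d z) (norm_nonneg _) (abs_nonneg _)
    have g2 : ‖GG' (MM m ea ν) a b c d z‖ ≤ m z * m z + m z * m z + m z * m z :=
      norm_add_le_of_le (norm_add_le_of_le (g1 a b c d) (g1 a c b d)) (g1 a d b c)
    have := mul_le_mul_of_nonneg_left g2 (hχ0 z)
    linarith
  refine ⟨3 * Q + ‖x 0‖ + 1, by positivity, fun k => ?_⟩
  have t := hx k k (-k) (-k)
  have e1 : k + k + -k + -k = 0 := by ring
  rw [e1] at t
  have t2 := t.norm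
  have hlt : ‖(∫ z, (χ z : ℂ) * GG' (MM m ea ν) k k (-k) (-k) z) + ep2 k k (-k) (-k) * x 0‖ <
      3 * Q + ‖x 0‖ + 1 := by
    have ep1 : ‖ep2 k k (-k) (-k)‖ ≤ 1 := by
      unfold ep2 eps
      split_ifs <;> norm_num
    have h3 : ‖ep2 k k (-k) (-k) * x 0‖ ≤ ‖x 0‖ := by
      rw [norm_mul]; exact mul_le_of_le_one_left (norm_nonneg _) ep1
    have := norm_add_le_of_le (gb k k (-k) (-k)) h3
    linarith
  filter_upwards [t2.eventually (gt_mem_nhds hlt)] with n hn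
  have e2 : ∫ z, (χ z : ℂ) * F4 w k k (-k) (-k) n z = ((∫ z, χ z * ‖w k n z‖ ^ 4 : ℝ) : ℂ) := by
    rw [← integral_complex_ofReal]
    congr 1; funext z
    by_cases hz : z ∈ B
    · have h4 := H.cj k n z hz
      have h5 : w k n z * (starRingEnd ℂ) (w k n z) = ((‖w k n z‖ ^ 2 : ℝ) : ℂ) := by
        rw [Complex.mul_conj, Complex.normSq_eq_norm_sq]
      rw [h4] at h5
      have h6 := sgn_sq k.natAbs
      simp only [F4]
      have h7 : ((‖w k n z‖ ^ 4 : ℝ) : ℂ) = ((‖w k n z‖ ^ 2 : ℝ) : ℂ) * ((‖w k n z‖ ^ 2 : ℝ) : ℂ) := by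
        push_cast; ring
      rw [ofReal_mul, h7, ← h5]
      linear_combination (-(χ z : ℂ) * (w k n z * w k n z * w (-k) n z * w (-k) n z)) * h6
    · rw [TF.zero hχ hz]; simp
  rw [e2, norm_real, Real.norm_eq_abs] at hn
  exact (le_abs_self _).trans hn.le

end

end Pool.Agent.TH294.RG
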