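import Pool.Agent.TH294.RG.Jc8

/-!
Project RG (helper294): fourth order moments with slowly varying factors, the relations.
-/

set_option autoImplicit false
open MeasureTheory Filter Topology Complex ProbabilityTheory
open scoped ContDiff

namespace Pool.Agent.TH294.RG

open Pool.Agent.W745.RW Pool.Agent.TH294.RS

noncomputable section

variable {B : Set ℂ} {a : ℂ → ℝ} {h : ℕ → ℝ} {w : ℤ → ℕ → ℂ → ℂ} {M : ℕ → ℂ → ℂ}

/-- a slowly varying sequence, bounded in `L⁴` -/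
structure SG (B : Set ℂ) (a : ℂ → ℝ) (h : ℕ → ℝ) (g : ℕ → ℂ → ℂ) : Prop where
  lb : LB B 4 g
  ex : ∃ (η : ℕ → ℝ) (E E' : ℕ → ℂ → ℂ), Tendsto η atTop (𝓝 0) ∧ LB B 4 E ∧ LB B 4 E' ∧
    (∀ n, ∀ z ∈ B, DP a (h n) (g n) z = (η n : ℂ) * E n z) ∧
    (∀ n, ∀ z ∈ B, DM a (h n) (g n) z = (η n : ℂ) * E' n z)

/-- solutions of much lower frequency vary slowly -/
lemma SG.sol (hB : IsOpen B) (ha : ContDiffOn ℝ ∞ a B) (hpa : ∀ z ∈ B, 0 < a z)
    {k : ℕ → ℝ} (kp : ∀ n, 0 < k n) (kl : Tendsto k atTop (𝓝 0))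
    (hk : Tendsto (fun n => h n / k n) atTop (𝓝 0)) {v : ℕ → ℂ → ℝ}
    (hb : LB B 4 (fun n z => (v n z : ℂ)))
    (he : ∀ n, ∀ z ∈ B, (k n : ℂ) ^ 2 * ((a z : ℂ) ^ 2 * lap (fun z => (v n z : ℂ)) z) =
      - (v n z : ℂ)) : SG B a h (fun n z => (v n z : ℂ)) := by
  obtain ⟨mc, up, dn⟩ := lad hB kp kl ha hpa (u := fun n z => (v n z : ℂ))
    (fun n z => conj_ofReal _) hb he
  obtain ⟨e1, he1, g1⟩ := up 0
  obtain ⟨e2, he2, g2⟩ := dn 0
  have w0 : ∀ n, ww a k (fun n z => (v n z : ℂ)) 0 n = fun z => (v n z : ℂ) := fun n => rfl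
  have kz : ∀ n, (k n : ℂ) ≠ 0 := fun n => by exact_mod_cast (kp n).ne'
  refine ⟨hb, fun n => h n / k n, fun n z => ww a k (fun n z => (v n z : ℂ)) (0 + 1) n z +
    (k n : ℂ) * e1 n z, fun n z => - ww a k (fun n z => (v n z : ℂ)) (0 - 1) n z +
    (k n : ℂ) * e2 n z, hk, (mclb (mc _)).add ((mclb he1).hmul kl),
    (mclb (mc _)).neg.add ((mclb he2).hmul kl), fun n z hz => ?_, fun n z hz => ?_⟩
  · beta_reduce
    rw [← g1 n z hz, w0]
    simp only [DP]
    push_cast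
    have := kz n
    field_simp
  · beta_reduce
    rw [← g2 n z hz, w0]
    simp only [DM]
    push_cast
    have := kz n
    field_simp

/-- two slow factors -/
lemma AG.js2 (H : AG B a h w M) (hB : IsOpen B) {p q : ℕ → ℂ → ℂ}
    (hp : SG B a h p) (hq : SG B a h q) (i j : ℤ) :
    WN B (fun n z => w (i + 1) n z * w j n z * (p n z * q n z) +
      w i n z * w (j + 1) n z * (p n z * q n z)) := by
  obtain ⟨e1, he1, g1⟩ := H.up i
  obtain ⟨e2, he2, g2⟩ := H.up j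
  obtain ⟨η1, E1, -, hη1, hE1, -, c3, -⟩ := hp.ex
  obtain ⟨η2, E2, -, hη2, hE2, -, c4, -⟩ := hq.ex
  have l1 : LB B 1 (fun n z => (w i n z * w j n z) * (p n z * q n z)) :=
    ((H.bd i).mul4 (H.bd j)).mul2 (hp.lb.mul4 hq.lb)
  have l2 : LB B 1 (fun n z => (e1 n z * w j n z) * (p n z * q n z) +
      (w i n z * e2 n z) * (p n z * q n z)) :=
    ((he1.mul4 (H.bd j)).mul2 (hp.lb.mul4 hq.lb)).add
      (((H.bd i).mul4 he2).mul2 (hp.lb.mul4 hq.lb))
  have l3 : LB B 1 (fun n z => (w i n z * w j n z) * (E1 n z * q n z)) :=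
    ((H.bd i).mul4 (H.bd j)).mul2 (hE1.mul4 hq.lb)
  have l4 : LB B 1 (fun n z => (w i n z * w j n z) * (p n z * E2 n z)) :=
    ((H.bd i).mul4 (H.bd j)).mul2 (hp.lb.mul4 hE2)
  refine ((((l1.wnP hB H.hlim H.sa).sub (l2.wn H.hlim)).sub (l3.wn hη1)).sub
    (l4.wn hη2)).congr fun n z hz => ?_
  have c1 := g1 n z hz
  have c2 := g2 n z hz
  have c3 := c3 n z hz
  have c4 := c4 n z hz
  have d1 := da hB ((H.bd i).sm n) hz
  have d2 := da hB ((H.bd j).sm n) hz
  have d3 := da hB (hp.lb.sm n) hz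
  have d4 := da hB (hq.lb.sm n) hz
  simp only [DP] at c1 c2 c3 c4 ⊢
  rw [dd_mul (f := fun z => w i n z * w j n z) (g := fun z => p n z * q n z) (d1.mul d2)
    (d3.mul d4), dd_mul d1 d2, dd_mul d3 d4]
  linear_combination (-(w j n z * (p n z * q n z))) * c1 - (w i n z * (p n z * q n z)) * c2 -
    (w i n z * w j n z * q n z) * c3 - (w i n z * w j n z * p n z) * c4

/-- one slow factor, raising -/
lemma AG.js3 (H : AG B a h w M) (hB : IsOpen B) {p : ℕ → ℂ → ℂ} (hp : SG B a h p) (i j l : ℤ) :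
    WN B (fun n z => w (i + 1) n z * w j n z * (w l n z * p n z) +
      w i n z * w (j + 1) n z * (w l n z * p n z) +
      w i n z * w j n z * (w (l + 1) n z * p n z)) := by
  obtain ⟨e1, he1, g1⟩ := H.up i
  obtain ⟨e2, he2, g2⟩ := H.up j
  obtain ⟨e3, he3, g3⟩ := H.up l
  obtain ⟨η1, E1, -, hη1, hE1, -, c4, -⟩ := hp.ex
  have l1 : LB B 1 (fun n z => (w i n z * w j n z) * (w l n z * p n z)) :=
    ((H.bd i).mul4 (H.bd j)).mul2 ((H.bd l).mul4 hp.lb)
  have l2 : LB B 1 (fun n z => (e1 n z * w j n z) * (w l n z * p n z) +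
      (w i n z * e2 n z) * (w l n z * p n z) + (w i n z * w j n z) * (e3 n z * p n z)) :=
    (((he1.mul4 (H.bd j)).mul2 ((H.bd l).mul4 hp.lb)).add
      (((H.bd i).mul4 he2).mul2 ((H.bd l).mul4 hp.lb))).add
      (((H.bd i).mul4 (H.bd j)).mul2 (he3.mul4 hp.lb))
  have l3 : LB B 1 (fun n z => (w i n z * w j n z) * (w l n z * E1 n z)) :=
    ((H.bd i).mul4 (H.bd j)).mul2 ((H.bd l).mul4 hE1)
  refine (((l1.wnP hB H.hlim H.sa).sub (l2.wn H.hlim)).sub (l3.wn hη1)).congr fun n z hz => ?_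
  have c1 := g1 n z hz
  have c2 := g2 n z hz
  have c3 := g3 n z hz
  have c4 := c4 n z hz
  have d1 := da hB ((H.bd i).sm n) hz
  have d2 := da hB ((H.bd j).sm n) hz
  have d3 := da hB ((H.bd l).sm n) hz
  have d4 := da hB (hp.lb.sm n) hz
  simp only [DP] at c1 c2 c3 c4 ⊢
  rw [dd_mul (f := fun z => w i n z * w j n z) (g := fun z => w l n z * p n z) (d1.mul d2)
    (d3.mul d4), dd_mul d1 d2, dd_mul d3 d4]
  linear_combination (-(w j n z * (w l n z * p n z))) * c1 -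
    (w i n z * (w l n z * p n z)) * c2 -
    (w i n z * w j n z * p n z) * c3 - (w i n z * w j n z * w l n z) * c4

/-- one slow factor, lowering -/
lemma AG.js3' (H : AG B a h w M) (hB : IsOpen B) {p : ℕ → ℂ → ℂ} (hp : SG B a h p) (i j l : ℤ) :
    WN B (fun n z => w (i - 1) n z * w j n z * (w l n z * p n z) +
      w i n z * w (j - 1) n z * (w l n z * p n z) +
      w i n z * w j n z * (w (l - 1) n z * p n z)) := by
  obtain ⟨e1, he1, g1⟩ := H.dn i
  obtain ⟨e2, he2, g2⟩ := H.dn j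
  obtain ⟨e3, he3, g3⟩ := H.dn l
  obtain ⟨η1, -, E1, hη1, -, hE1, -, c4⟩ := hp.ex
  have l1 : LB B 1 (fun n z => (w i n z * w j n z) * (w l n z * p n z)) :=
    ((H.bd i).mul4 (H.bd j)).mul2 ((H.bd l).mul4 hp.lb)
  have l2 : LB B 1 (fun n z => (e1 n z * w j n z) * (w l n z * p n z) +
      (w i n z * e2 n z) * (w l n z * p n z) + (w i n z * w j n z) * (e3 n z * p n z)) :=
    (((he1.mul4 (H.bd j)).mul2 ((H.bd l).mul4 hp.lb)).add
      (((H.bd i).mul4 he2).mul2 ((H.bd l).mul4 hp.lb))).add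
      (((H.bd i).mul4 (H.bd j)).mul2 (he3.mul4 hp.lb))
  have l3 : LB B 1 (fun n z => (w i n z * w j n z) * (w l n z * E1 n z)) :=
    ((H.bd i).mul4 (H.bd j)).mul2 ((H.bd l).mul4 hE1)
  refine (((l2.wn H.hlim).add (l3.wn hη1)).sub (l1.wnM hB H.hlim H.sa)).congr fun n z hz => ?_
  have c1 := g1 n z hz
  have c2 := g2 n z hz
  have c3 := g3 n z hz
  have c4 := c4 n z hz
  have d1 := da hB ((H.bd i).sm n) hz
  have d2 := da hB ((H.bd j).sm n) hz
  have d3 := da hB ((H.bd l).sm n) hz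
  have d4 := da hB (hp.lb.sm n) hz
  simp only [DM] at c1 c2 c3 c4 ⊢
  rw [db_mul (f := fun z => w i n z * w j n z) (g := fun z => w l n z * p n z) (d1.mul d2)
    (d3.mul d4), db_mul d1 d2, db_mul d3 d4]
  linear_combination (w j n z * (w l n z * p n z)) * c1 +
    (w i n z * (w l n z * p n z)) * c2 +
    (w i n z * w j n z * p n z) * c3 + (w i n z * w j n z * w l n z) * c4

/-- three slow factors -/
lemma AG.js1 (H : AG B a h w M) (hB : IsOpen B) {p q r : ℕ → ℂ → ℂ}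
    (hp : SG B a h p) (hq : SG B a h q) (hr : SG B a h r) :
    WN B (fun n z => w 0 n z * (p n z * q n z * r n z)) := by
  obtain ⟨e1, he1, g1⟩ := H.dn 1
  obtain ⟨η1, -, E1, hη1, -, hE1, -, c2⟩ := hp.ex
  obtain ⟨η2, -, E2, hη2, -, hE2, -, c3⟩ := hq.ex
  obtain ⟨η3, -, E3, hη3, -, hE3, -, c4⟩ := hr.ex
  have l1 : LB B 1 (fun n z => (w 1 n z * p n z) * (q n z * r n z)) :=
    ((H.bd 1).mul4 hp.lb).mul2 (hq.lb.mul4 hr.lb)
  have l2 : LB B 1 (fun n z => (e1 n z * p n z) * (q n z * r n z)) :=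
    (he1.mul4 hp.lb).mul2 (hq.lb.mul4 hr.lb)
  have l3 : LB B 1 (fun n z => (w 1 n z * E1 n z) * (q n z * r n z)) :=
    ((H.bd 1).mul4 hE1).mul2 (hq.lb.mul4 hr.lb)
  have l4 : LB B 1 (fun n z => (w 1 n z * p n z) * (E2 n z * r n z)) :=
    ((H.bd 1).mul4 hp.lb).mul2 (hE2.mul4 hr.lb)
  have l5 : LB B 1 (fun n z => (w 1 n z * p n z) * (q n z * E3 n z)) :=
    ((H.bd 1).mul4 hp.lb).mul2 (hq.lb.mul4 hE3)
  refine (((((l2.wn H.hlim).add (l3.wn hη1)).add (l4.wn hη2)).add (l5.wn hη3)).sub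
    (l1.wnM hB H.hlim H.sa)).congr fun n z hz => ?_
  have c1 := g1 n z hz
  have c2 := c2 n z hz
  have c3 := c3 n z hz
  have c4 := c4 n z hz
  have d1 := da hB ((H.bd 1).sm n) hz
  have d2 := da hB (hp.lb.sm n) hz
  have d3 := da hB (hq.lb.sm n) hz
  have d4 := da hB (hr.lb.sm n) hz
  rw [show (1 : ℤ) - 1 = 0 by ring] at c1
  simp only [DM] at c1 c2 c3 c4 ⊢
  rw [db_mul (f := fun z => w 1 n z * p n z) (g := fun z => q n z * r n z) (d1.mul d2)
    (d3.mul d4), db_mul d1 d2, db_mul d3 d4]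
  linear_combination (p n z * (q n z * r n z)) * c1 +
    (w 1 n z * (q n z * r n z)) * c2 +
    (w 1 n z * p n z * r n z) * c3 + (w 1 n z * p n z * q n z) * c4

/-- the recurrence for two slow factors -/
lemma js2_rec (H : AG B a h w M) (hB : IsOpen B) {p q : ℕ → ℂ → ℂ}
    (hp : SG B a h p) (hq : SG B a h q) {φ : ℂ → ℝ} (hφ : TF B φ) (i j : ℤ) :
    Tendsto (fun n => jm w (fun n z => p n z * q n z) φ (i + 1) j n +
      jm w (fun n z => p n z * q n z) φ i (j + 1) n) atTop (𝓝 0) := by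
  have c0 : ∀ n, ContinuousOn (fun z => p n z * q n z) B := fun n =>
    (hp.lb.co n).mul (hq.lb.co n)
  have J0 := fun i j n => jm_int (G := fun n z => p n z * q n z) H c0 hφ i j n
  refine ((H.js2 hB hp hq i j).nul φ hφ).congr fun n => ?_
  unfold jm
  rw [← integral_add (J0 _ _ _) (J0 _ _ _)]
  congr 1; funext z
  ring

/-- the recurrence for one slow factor -/
lemma js3_rec (H : AG B a h w M) (hB : IsOpen B) {p : ℕ → ℂ → ℂ}
    (hp : SG B a h p) {φ : ℂ → ℝ} (hφ : TF B φ) (l i j : ℤ) :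
    Tendsto (fun n => jm w (fun n z => w l n z * p n z) φ (i + 1) (j - 1) n +
      jm w (fun n z => w l n z * p n z) φ (i - 1) (j + 1) n -
      ((-1 : ℝ) : ℂ) * jm w (fun n z => w l n z * p n z) φ i j n) atTop (𝓝 0) := by
  have c0 : ∀ l n, ContinuousOn (fun z => w l n z * p n z) B := fun l n =>
    ((H.bd l).co n).mul (hp.lb.co n)
  have J0 := fun l i j n => jm_int (G := fun n z => w l n z * p n z) H (c0 l) hφ i j n
  have r1 : ∀ i j l : ℤ, Tendsto (fun n => jm w (fun n z => w l n z * p n z) φ (i + 1) j n +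
      jm w (fun n z => w l n z * p n z) φ i (j + 1) n +
      jm w (fun n z => w (l + 1) n z * p n z) φ i j n) atTop (𝓝 0) := by
    intro i j l
    refine ((H.js3 hB hp i j l).nul φ hφ).congr fun n => ?_
    unfold jm
    have i12 : Integrable (fun z => (φ z : ℂ) * (w (i + 1) n z * w j n z * (w l n z * p n z)) +
      (φ z : ℂ) * (w i n z * w (j + 1) n z * (w l n z * p n z))) :=
      (J0 _ _ _ _).add (J0 _ _ _ _)
    rw [← integral_add (J0 _ _ _ _) (J0 _ _ _ _), ← integral_add i12 (J0 _ _ _ _)]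
    congr 1; funext z
    ring
  have r2 : ∀ i j l : ℤ, Tendsto (fun n => jm w (fun n z => w l n z * p n z) φ (i - 1) j n +
      jm w (fun n z => w l n z * p n z) φ i (j - 1) n +
      jm w (fun n z => w (l - 1) n z * p n z) φ i j n) atTop (𝓝 0) := by
    intro i j l
    refine ((H.js3' hB hp i j l).nul φ hφ).congr fun n => ?_
    unfold jm
    have i12 : Integrable (fun z => (φ z : ℂ) * (w (i - 1) n z * w j n z * (w l n z * p n z)) +
      (φ z : ℂ) * (w i n z * w (j - 1) n z * (w l n z * p n z))) :=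
      (J0 _ _ _ _).add (J0 _ _ _ _)
    rw [← integral_add (J0 _ _ _ _) (J0 _ _ _ _), ← integral_add i12 (J0 _ _ _ _)]
    congr 1; funext z
    ring
  have t1 := r1 i (j - 1) l
  have t2 := r1 (i - 1) j l
  have t3 := r2 i j (l + 1)
  rw [sub_add_cancel] at t1 t2
  rw [add_sub_cancel_right] at t3
  have t := (t1.add t2).sub t3
  simp only [add_zero, sub_zero] at t
  refine t.congr fun n => ?_
  push_cast
  ring

end

end Pool.Agent.TH294.RG
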