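import Pool.Agent.TH294.RG.Low
import Mathlib.Probability.Kernel.MeasurableIntegral
import Mathlib.Probability.Kernel.Composition.Prod
import Mathlib.MeasureTheory.Integral.Prod

/-!
Project RG (helper294): the correction terms and the probability of being parallel.
-/

set_option autoImplicit false
open MeasureTheory Filter Topology Complex ProbabilityTheory
open scoped ContDiff

namespace Pool.Agent.TH294.RG

open Pool.Agent.W745.RW Pool.Agent.TH294.RS

noncomputable section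

/-- Cesàro means of powers of a unit complex number -/
lemma ces {ζ : ℂ} (h1 : ‖ζ‖ = 1) :
    Tendsto (fun N : ℕ => ((N : ℂ))⁻¹ * ∑ j ∈ Finset.Icc 1 N, ζ ^ j) atTop
      (𝓝 (if ζ = 1 then 1 else 0)) := by
  by_cases hζ : ζ = 1
  · rw [if_pos hζ]
    refine tendsto_const_nhds.congr' ?_
    filter_upwards [eventually_gt_atTop 0] with N hN
    have : (N : ℂ) ≠ 0 := by exact_mod_cast hN.ne'
    rw [hζ]
    simp [this]
  · rw [if_neg hζ]
    have hd : ζ - 1 ≠ 0 := sub_ne_zero.2 hζ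
    have hb : ∀ N : ℕ, ‖((N : ℂ))⁻¹ * ∑ j ∈ Finset.Icc 1 N, ζ ^ j‖ ≤
        ((N : ℝ))⁻¹ * (2 / ‖ζ - 1‖) := by
      intro N
      have e : ∑ j ∈ Finset.Icc 1 N, ζ ^ j = (ζ ^ (N + 1) - ζ ^ 1) / (ζ - 1) := by
        rw [← geom_sum_Ico hζ (by omega : 1 ≤ N + 1)]
        rfl
      rw [norm_mul, norm_inv, e, norm_div]
      have h2 : ‖((N : ℂ))‖ = (N : ℝ) := by simp
      rw [h2]
      refine mul_le_mul_of_nonneg_left ?_ (by positivity)
      refine div_le_div_of_nonneg_right ?_ (norm_nonneg _)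
      refine (norm_sub_le _ _).trans ?_
      rw [norm_pow, norm_pow, h1]; norm_num
    refine squeeze_zero_norm hb ?_
    have := (tendsto_inv_atTop_nhds_zero_nat (𝕜 := ℝ)).mul_const (2 / ‖ζ - 1‖)
    simpa using this

lemma cesre {ζ : ℂ} (h1 : ‖ζ‖ = 1) :
    Tendsto (fun N : ℕ => ((N : ℝ))⁻¹ * ∑ j ∈ Finset.Icc 1 N, (ζ ^ j).re) atTop
      (𝓝 (if ζ = 1 then 1 else 0)) := by
  have h2 := (Complex.continuous_re.tendsto _).comp (ces h1)
  have e : ((if ζ = 1 then 1 else 0 : ℂ)).re = if ζ = 1 then 1 else 0 := by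
    split_ifs <;> simp
  rw [e] at h2
  refine h2.congr fun N => ?_
  simp only [Function.comp_def]
  have : ((N : ℂ))⁻¹ = (((N : ℝ))⁻¹ : ℝ) := by push_cast; rfl
  rw [this, re_ofReal_mul, re_sum]

variable {Y : Type*} {e : Y → ℂ}

def qq (e : Y → ℂ) (k : ℕ) (p : Y × Y) : ℝ := ((e p.1 * (starRingEnd ℂ) (e p.2)) ^ k).re

lemma zn (h1 : ∀ y, ‖e y‖ = 1) (p : Y × Y) : ‖e p.1 * (starRingEnd ℂ) (e p.2)‖ = 1 := by
  rw [norm_mul, RCLike.norm_conj, h1, h1, one_mul]

lemma qq_bd (h1 : ∀ y, ‖e y‖ = 1) (k : ℕ) (p : Y × Y) : |qq e k p| ≤ 1 := by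
  refine (abs_re_le_norm _).trans ?_
  rw [norm_pow, zn h1, one_pow]

lemma qq_meas [MeasurableSpace Y] (he : Measurable e) (k : ℕ) : Measurable (qq e k) := by
  unfold qq
  have a1 : Measurable (fun p : Y × Y => e p.1) := he.comp measurable_fst
  have a2 : Measurable (fun p : Y × Y => (starRingEnd ℂ) (e p.2)) :=
    continuous_conj.measurable.comp (he.comp measurable_snd)
  exact measurable_re.comp ((a1.mul a2).pow_const k)

lemma pow_trig {ζ : ℂ} (h1 : ‖ζ‖ = 1) (j k : ℕ) :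
    (ζ ^ (j + k)).re + (ζ ^ ((j : ℤ) - k).natAbs).re = 2 * ((ζ ^ j).re * (ζ ^ k).re) := by
  have hz : ζ * (starRingEnd ℂ) ζ = 1 := by
    rw [Complex.mul_conj, Complex.normSq_eq_norm_sq, h1]; simp
  have key : ∀ i k : ℕ, (ζ ^ (k + i + k)).re + (ζ ^ i).re = 2 * ((ζ ^ (k + i)).re * (ζ ^ k).re) := by
    intro i k
    have h2 : ζ ^ (k + i) * (starRingEnd ℂ) (ζ ^ k) = ζ ^ i := by
      rw [map_pow, pow_add]
      have : (ζ * (starRingEnd ℂ) ζ) ^ k = 1 := by rw [hz, one_pow]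
      rw [mul_pow] at this
      linear_combination (ζ ^ i) * this
    rw [pow_add ζ (k + i) k]
    have h3 : (ζ ^ i).re = (ζ ^ (k + i) * (starRingEnd ℂ) (ζ ^ k)).re := by rw [h2]
    rw [h3]
    simp only [mul_re, conj_re, conj_im]
    ring
  rcases le_total k j with hjk | hjk
  · obtain ⟨i, rfl⟩ := Nat.exists_eq_add_of_le hjk
    have h2 : (((k + i : ℕ) : ℤ) - (k : ℤ)).natAbs = i := by omega
    rw [h2]; exact key i k
  · obtain ⟨i, rfl⟩ := Nat.exists_eq_add_of_le hjk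
    have h2 : ((j : ℤ) - ((j + i : ℕ) : ℤ)).natAbs = i := by omega
    rw [h2, show j + (j + i) = j + i + j by ring, key i j]; ring

/-- the kernels -/
def KN (e : Y → ℂ) (N : ℕ) (p : Y × Y) : ℝ :=
  ((N : ℝ) ^ 2)⁻¹ * ∑ j ∈ Finset.Icc 1 N, ∑ k ∈ Finset.Icc 1 N,
    (if Even (j + k) then 2 * (qq e j p * qq e k p) else 0)

lemma KN_eq (N : ℕ) (p : Y × Y) : KN e N p = ((N : ℝ)⁻¹ * ∑ j ∈ Finset.Icc 1 N, qq e j p) ^ 2 +
    ((N : ℝ)⁻¹ * ∑ j ∈ Finset.Icc 1 N, (-1) ^ j * qq e j p) ^ 2 := by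
  have h1 : ∀ j k : ℕ, (if Even (j + k) then 2 * (qq e j p * qq e k p) else 0) =
      qq e j p * qq e k p + ((-1) ^ j * qq e j p) * ((-1) ^ k * qq e k p) := by
    intro j k
    have h2 : ((-1 : ℝ)) ^ j * (-1) ^ k = if Even (j + k) then 1 else -1 := by
      rw [← pow_add]
      split_ifs with h
      · exact h.neg_one_pow
      · exact (Nat.not_even_iff_odd.1 h).neg_one_pow
    have h3 : ((-1) ^ j * qq e j p) * ((-1) ^ k * qq e k p) =
        ((-1 : ℝ) ^ j * (-1) ^ k) * (qq e j p * qq e k p) := by ring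
    rw [h3, h2]
    split_ifs <;> ring
  unfold KN
  simp only [h1, Finset.sum_add_distrib]
  rw [mul_pow, mul_pow, sq (∑ j ∈ Finset.Icc 1 N, qq e j p),
    sq (∑ j ∈ Finset.Icc 1 N, (-1) ^ j * qq e j p), Finset.sum_mul_sum, Finset.sum_mul_sum]
  ring

/-- the set of parallel pairs -/
def PS (e : Y → ℂ) : Set (Y × Y) := {p | e p.1 ^ 2 = e p.2 ^ 2}

lemma PS_meas [MeasurableSpace Y] (he : Measurable e) : MeasurableSet (PS e) :=
  measurableSet_eq_fun ((he.comp measurable_fst).pow_const 2) ((he.comp measurable_snd).pow_const 2)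

lemma KN_lim (h1 : ∀ y, ‖e y‖ = 1) (p : Y × Y) :
    Tendsto (fun N => KN e N p) atTop (𝓝 ((PS e).indicator (fun _ => 1) p)) := by
  set ζ : ℂ := e p.1 * (starRingEnd ℂ) (e p.2) with hζ
  have hζ1 : ‖ζ‖ = 1 := zn h1 p
  have hζ2 : ‖-ζ‖ = 1 := by rw [norm_neg, hζ1]
  have t1 := (cesre hζ1).pow 2
  have t2 := (cesre hζ2).pow 2
  have t := t1.add t2
  have e1 : ∀ j : ℕ, ((-ζ) ^ j).re = (-1) ^ j * (ζ ^ j).re := by
    intro j
    rw [neg_pow]
    rcases Nat.even_or_odd j with hj | hj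
    · rw [hj.neg_one_pow, hj.neg_one_pow]; simp
    · rw [hj.neg_one_pow, hj.neg_one_pow]; simp
  have hb : e p.2 * (starRingEnd ℂ) (e p.2) = 1 := by
    rw [Complex.mul_conj, Complex.normSq_eq_norm_sq, h1]; simp
  have e2 : ((if ζ = 1 then 1 else 0 : ℝ)) ^ 2 + ((if -ζ = 1 then 1 else 0 : ℝ)) ^ 2 =
      (PS e).indicator (fun _ => 1) p := by
    by_cases hp : p ∈ PS e
    · rw [Set.indicator_of_mem hp]
      have h2 : ζ ^ 2 = 1 := by
        have h3 : e p.1 ^ 2 = e p.2 ^ 2 := hp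
        rw [hζ, mul_pow, h3, ← mul_pow, hb, one_pow]
      have h5 : (ζ - 1) * (ζ + 1) = 0 := by linear_combination h2
      rcases mul_eq_zero.1 h5 with h4 | h4
      · have h6 : ζ = 1 := by linear_combination h4
        rw [h6]; norm_num
      · have h6 : ζ = -1 := by linear_combination h4
        rw [h6]; norm_num
    · rw [Set.indicator_of_notMem hp]
      have h2 : ζ ^ 2 ≠ 1 := by
        intro h3
        apply hp
        show e p.1 ^ 2 = e p.2 ^ 2
        have h4 : ζ ^ 2 * e p.2 ^ 2 = e p.1 ^ 2 * (e p.2 * (starRingEnd ℂ) (e p.2)) ^ 2 := by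
          rw [hζ]; ring
        rw [h3, hb] at h4
        rw [one_pow, mul_one, one_mul] at h4
        exact h4.symm
      rw [if_neg, if_neg]
      · norm_num
      · intro h3
        apply h2
        have : ζ = -1 := by rw [← h3]; ring
        rw [this]; norm_num
      · intro h3
        apply h2
        rw [h3]; norm_num
  rw [e2] at t
  refine t.congr fun N => ?_
  rw [KN_eq]
  simp only [e1]
  rfl

lemma KN_bd (h1 : ∀ y, ‖e y‖ = 1) (N : ℕ) (p : Y × Y) : |KN e N p| ≤ 2 := by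
  have hN : ∀ f : ℕ → ℝ, (∀ j, |f j| ≤ 1) → ((N : ℝ)⁻¹ * ∑ j ∈ Finset.Icc 1 N, f j) ^ 2 ≤ 1 := by
    intro f hf
    rw [sq_le_one_iff_abs_le_one, abs_mul]
    have h2 : |∑ j ∈ Finset.Icc 1 N, f j| ≤ N := by
      refine (Finset.abs_sum_le_sum_abs _ _).trans ?_
      refine (Finset.sum_le_sum fun j _ => hf j).trans ?_
      simp
    have h3 : |(N : ℝ)⁻¹| = (N : ℝ)⁻¹ := abs_of_nonneg (by positivity)
    rw [h3]
    by_cases hN0 : (N : ℝ) = 0
    · rw [hN0]; simp
    · have : 0 < (N : ℝ) := lt_of_le_of_ne (by positivity) (Ne.symm hN0)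
      rw [inv_mul_le_iff₀ this, mul_one]
      exact h2
  have a1 := hN (fun j => qq e j p) fun j => qq_bd h1 j p
  have a2 := hN (fun j => (-1) ^ j * qq e j p) fun j => by
    rw [abs_mul, abs_pow, abs_neg, abs_one, one_pow, one_mul]
    exact qq_bd h1 j p
  rw [KN_eq, abs_of_nonneg (by positivity)]
  linarith

variable [MeasurableSpace Y]

lemma KN_meas (he : Measurable e) (N : ℕ) : Measurable (KN e N) := by
  unfold KN
  refine Measurable.const_mul ?_ _
  refine Finset.measurable_fun_sum _ fun j _ => Finset.measurable_fun_sum _ fun k _ => ?_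
  by_cases hjk : Even (j + k)
  · simp only [if_pos hjk]
    exact ((qq_meas he j).mul (qq_meas he k)).const_mul 2
  · simp only [if_neg hjk]; exact measurable_const

/-- the probability of being parallel -/
def par (e : Y → ℂ) (ν : Measure Y) : ℝ := (ν.prod ν).real (PS e)

lemma KN_int (he : Measurable e) (h1 : ∀ y, ‖e y‖ = 1) (ν : Measure Y) [IsProbabilityMeasure ν]
    (N : ℕ) : Integrable (KN e N) (ν.prod ν) :=
  Integrable.of_bound (KN_meas he N).aestronglyMeasurable 2 (ae_of_all _ fun p => KN_bd h1 N p)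

lemma KN_int_lim (he : Measurable e) (h1 : ∀ y, ‖e y‖ = 1) (ν : Measure Y)
    [IsProbabilityMeasure ν] :
    Tendsto (fun N => ∫ p, KN e N p ∂(ν.prod ν)) atTop (𝓝 (par e ν)) := by
  have h2 := tendsto_integral_of_dominated_convergence (μ := ν.prod ν) (F := fun N p => KN e N p)
    (f := (PS e).indicator (fun _ => 1)) (fun _ => (2 : ℝ))
    (fun N => (KN_meas he N).aestronglyMeasurable) (integrable_const 2)
    (fun N => ae_of_all _ fun p => KN_bd h1 N p) (ae_of_all _ fun p => KN_lim h1 p)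
  rw [integral_indicator_const (1 : ℝ) (PS_meas he), smul_eq_mul, mul_one] at h2
  exact h2

lemma KN_int_bd (h1 : ∀ y, ‖e y‖ = 1) (ν : Measure Y) [IsProbabilityMeasure ν] (N : ℕ) :
    |∫ p, KN e N p ∂(ν.prod ν)| ≤ 2 := by
  have := norm_integral_le_of_norm_le_const (μ := ν.prod ν) (f := KN e N) (C := 2)
    (ae_of_all _ fun p => KN_bd h1 N p)
  simpa using this

/-- the moments -/
def cm (e : Y → ℂ) (ν : Measure Y) (k : ℕ) : ℂ := ∫ y, e y ^ k ∂ν

lemma cm_bd (h1 : ∀ y, ‖e y‖ = 1) (ν : Measure Y) [IsProbabilityMeasure ν] (k : ℕ) :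
    ‖cm e ν k‖ ≤ 1 := by
  have := norm_integral_le_of_norm_le_const (μ := ν) (f := fun y => e y ^ k) (C := 1)
    (ae_of_all _ fun y => by rw [norm_pow, h1, one_pow])
  simpa [cm] using this

lemma cm_sq (he : Measurable e) (h1 : ∀ y, ‖e y‖ = 1) (ν : Measure Y) [IsProbabilityMeasure ν]
    (k : ℕ) : ‖cm e ν k‖ ^ 2 = ∫ p, qq e k p ∂(ν.prod ν) := by
  have h2 : (((‖cm e ν k‖ ^ 2 : ℝ)) : ℂ) = ∫ p, (e p.1 * (starRingEnd ℂ) (e p.2)) ^ k
      ∂(ν.prod ν) := by
    have h3 : ∫ p : Y × Y, (e p.1 * (starRingEnd ℂ) (e p.2)) ^ k ∂(ν.prod ν) =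
        ∫ p : Y × Y, (fun y => e y ^ k) p.1 * (fun y => (starRingEnd ℂ) (e y ^ k)) p.2
          ∂(ν.prod ν) := by
      congr 1; funext p
      simp only [mul_pow, map_pow]
    have h5 := integral_prod_mul (μ := ν) (ν := ν) (fun y => e y ^ k)
      (fun y => (starRingEnd ℂ) (e y ^ k))
    rw [integral_conj, Complex.mul_conj, Complex.normSq_eq_norm_sq] at h5
    exact (h3.trans h5).symm
  have i1 : Integrable (fun p : Y × Y => (e p.1 * (starRingEnd ℂ) (e p.2)) ^ k) (ν.prod ν) := by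
    have a1 : Measurable (fun p : Y × Y => e p.1) := he.comp measurable_fst
    have a2 : Measurable (fun p : Y × Y => (starRingEnd ℂ) (e p.2)) :=
      continuous_conj.measurable.comp (he.comp measurable_snd)
    refine Integrable.of_bound ((a1.mul a2).pow_const k).aestronglyMeasurable 1
      (ae_of_all _ fun p => ?_)
    rw [norm_pow, zn h1, one_pow]
  have h4 := congrArg Complex.re h2
  rw [ofReal_re] at h4
  rw [h4]
  exact (reCLM.integral_comp_comm i1).symm

lemma cm_pair (he : Measurable e) (h1 : ∀ y, ‖e y‖ = 1) (ν : Measure Y) [IsProbabilityMeasure ν]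
    (j k : ℕ) : ‖cm e ν (j + k)‖ ^ 2 + ‖cm e ν ((j : ℤ) - k).natAbs‖ ^ 2 =
      ∫ p, 2 * (qq e j p * qq e k p) ∂(ν.prod ν) := by
  have i1 : ∀ k, Integrable (qq e k) (ν.prod ν) := fun k =>
    Integrable.of_bound (qq_meas he k).aestronglyMeasurable 1 (ae_of_all _ fun p => qq_bd h1 k p)
  rw [cm_sq he h1, cm_sq he h1, ← integral_add (i1 _) (i1 _)]
  congr 1; funext p
  exact pow_trig (zn h1 p) j k

lemma cm_sum (he : Measurable e) (h1 : ∀ y, ‖e y‖ = 1) (ν : Measure Y) [IsProbabilityMeasure ν]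
    (N : ℕ) : ((N : ℝ) ^ 2)⁻¹ * (∑ j ∈ Finset.Icc 1 N, ∑ k ∈ Finset.Icc 1 N,
      (if Even (j + k) then ‖cm e ν (j + k)‖ ^ 2 + ‖cm e ν ((j : ℤ) - k).natAbs‖ ^ 2 else 0)) =
      ∫ p, KN e N p ∂(ν.prod ν) := by
  have i1 : ∀ j k : ℕ, Integrable (fun p => (if Even (j + k) then 2 * (qq e j p * qq e k p)
      else 0)) (ν.prod ν) := by
    intro j k
    refine Integrable.of_bound (C := 2) ?_ (ae_of_all _ fun p => ?_)
    · by_cases hjk : Even (j + k)
      · simp only [if_pos hjk]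
        exact (((qq_meas he j).mul (qq_meas he k)).const_mul 2).aestronglyMeasurable
      · simp only [if_neg hjk]; exact aestronglyMeasurable_const
    · split_ifs
      · rw [Real.norm_eq_abs, abs_mul, abs_mul]
        have a1 := qq_bd h1 j p
        have a2 := qq_bd h1 k p
        have a3 := mul_le_mul a1 a2 (abs_nonneg _) zero_le_one
        rw [abs_of_pos (show (0 : ℝ) < 2 by norm_num)]
        linarith
      · simp
  unfold KN
  rw [integral_const_mul, integral_finsetSum _ (fun j _ => integrable_finsetSum _ fun k _ => i1 j k)]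
  congr 1
  refine Finset.sum_congr rfl fun j _ => ?_
  rw [integral_finsetSum _ (fun k _ => i1 j k)]
  refine Finset.sum_congr rfl fun k _ => ?_
  by_cases hjk : Even (j + k)
  · simp only [if_pos hjk]
    exact cm_pair he h1 ν j k
  · simp only [if_neg hjk, integral_zero]

end

end Pool.Agent.TH294.RG
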