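import Pool.Agent.TH294.RG.Fam
import Pool.Agent.TH294.RS.En

/-!
Project RG (helper294): sequences all of whose semiclassical derivatives are locally bounded
in `L²`.
-/

set_option autoImplicit false
open MeasureTheory Filter Topology Complex
open scoped ContDiff ENNReal

namespace Pool.Agent.TH294.RG

open Pool.Agent.W745.RW Pool.Agent.W249.RW Pool.Agent.TH294.RS

noncomputable section

/-- semiclassical derivatives of order at most `k` are locally bounded in `L²` -/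
def MK2 (B : Set ℂ) (h : ℕ → ℝ) : ℕ → (ℕ → ℂ → ℂ) → Prop
  | 0, f => LB B 2 f
  | (k + 1), f => LB B 2 f ∧ MK2 B h k (hd h 1 f) ∧ MK2 B h k (hd h I f)

variable {B : Set ℂ} {h : ℕ → ℝ}

lemma MK2.lb {k : ℕ} {f : ℕ → ℂ → ℂ} (H : MK2 B h k f) : LB B 2 f := by
  cases k with
  | zero => exact H
  | succ k => exact H.1

lemma MK2.congr (hB : IsOpen B) {k : ℕ} : ∀ {f g : ℕ → ℂ → ℂ}, MK2 B h k f →
    (∀ n, ∀ z ∈ B, g n z = f n z) → MK2 B h k g := by
  induction k with
  | zero => intro f g H e; exact LB.congr H e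
  | succ k ih =>
    intro f g H e
    exact ⟨H.1.congr e, ih H.2.1 (hd_congr hB e 1), ih H.2.2 (hd_congr hB e I)⟩

lemma MK2.down {k : ℕ} : ∀ {f : ℕ → ℂ → ℂ}, MK2 B h (k + 1) f → MK2 B h k f := by
  induction k with
  | zero => intro f H; exact H.1
  | succ k ih => intro f H; exact ⟨H.1, ih H.2.1, ih H.2.2⟩

lemma MK2.add (hB : IsOpen B) {k : ℕ} : ∀ {f g : ℕ → ℂ → ℂ}, MK2 B h k f → MK2 B h k g →
    MK2 B h k (fun n z => f n z + g n z) := by
  induction k with
  | zero => intro f g H G; exact LB.add H G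
  | succ k ih =>
    intro f g H G
    have e : ∀ v, ∀ n, ∀ z ∈ B, hd h v (fun n z => f n z + g n z) n z =
        hd h v f n z + hd h v g n z := by
      intro v n z hz
      simp only [hd]
      rw [fderiv_fun_add (fda hB (H.1.sm n) hz) (fda hB (G.1.sm n) hz)]
      simp only [add_apply]; ring
    exact ⟨H.1.add G.1, (ih H.2.1 G.2.1).congr hB (e 1), (ih H.2.2 G.2.2).congr hB (e I)⟩

/-- multiplication by `h` -/
lemma MK2.hmul (hB : IsOpen B) (hh : Tendsto h atTop (𝓝 0)) {k : ℕ} : ∀ {f : ℕ → ℂ → ℂ},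
    MK2 B h k f → MK2 B h k (fun n z => (h n : ℂ) * f n z) := by
  induction k with
  | zero => intro f H; exact LB.hmul H hh
  | succ k ih =>
    intro f H
    have e : ∀ v, ∀ n, ∀ z ∈ B, hd h v (fun n z => (h n : ℂ) * f n z) n z =
        (h n : ℂ) * hd h v f n z := by
      intro v n z hz
      simp only [hd]
      rw [fderiv_const_mul (fda hB (H.1.sm n) hz)]
      simp only [smul_apply, smul_eq_mul]
    exact ⟨H.1.hmul hh, (ih H.2.1).congr hB (e 1), (ih H.2.2).congr hB (e I)⟩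

/-- multiplication by a fixed smooth function -/
lemma MK2.smulc (hB : IsOpen B) (hh : Tendsto h atTop (𝓝 0)) {k : ℕ} : ∀ {f : ℕ → ℂ → ℂ}
    {c : ℂ → ℂ}, MK2 B h k f → ContDiffOn ℝ ∞ c B → MK2 B h k (fun n z => c z * f n z) := by
  induction k with
  | zero => intro f c H hc; exact LB.smulc H hc
  | succ k ih =>
    intro f c H hc
    have e : ∀ v, ∀ n, ∀ z ∈ B, hd h v (fun n z => c z * f n z) n z =
        c z * hd h v f n z + fderiv ℝ c z v * ((h n : ℂ) * f n z) := by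
      intro v n z hz
      simp only [hd]
      rw [fderiv_fun_mul (fda hB hc hz) (fda hB (H.1.sm n) hz)]
      simp only [add_apply, smul_apply, smul_eq_mul]; ring
    have hc' : ∀ v, ContDiffOn ℝ ∞ (fun z => fderiv ℝ c z v) B := fun v =>
      Pool.Agent.W98.RW.cd_fderiv hB hc v
    have hf : MK2 B h k (fun n z => (h n : ℂ) * f n z) := (MK2.down H).hmul hB hh
    exact ⟨H.1.smulc hc, ((ih H.2.1 hc).add hB (ih hf (hc' 1))).congr hB (e 1),
      ((ih H.2.2 hc).add hB (ih hf (hc' I))).congr hB (e I)⟩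

lemma MK2.cmul (hB : IsOpen B) (hh : Tendsto h atTop (𝓝 0)) {k : ℕ} {f : ℕ → ℂ → ℂ}
    (H : MK2 B h k f) (c : ℂ) : MK2 B h k (fun n z => c * f n z) :=
  H.smulc hB hh (c := fun _ => c) contDiffOn_const

lemma MK2.neg (hB : IsOpen B) (hh : Tendsto h atTop (𝓝 0)) {k : ℕ} {f : ℕ → ℂ → ℂ}
    (H : MK2 B h k f) : MK2 B h k (fun n z => - f n z) :=
  (H.cmul hB hh (-1)).congr hB fun n z _ => by ring

lemma MK2.sub (hB : IsOpen B) (hh : Tendsto h atTop (𝓝 0)) {k : ℕ} {f g : ℕ → ℂ → ℂ}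
    (H : MK2 B h k f) (G : MK2 B h k g) : MK2 B h k (fun n z => f n z - g n z) :=
  (H.add hB (G.neg hB hh)).congr hB fun n z _ => by ring


/-- the energy estimate for complex sequences -/
lemma LB.grad2 (hB : IsOpen B) (hp : ∀ n, 0 < h n) (hh : Tendsto h atTop (𝓝 0)) {f : ℕ → ℂ → ℂ}
    (hf : LB B 2 f) (hg : LB B 2 (hL h f)) {v : ℂ}
    (hv : ∀ (g : ℂ → ℝ) (z : ℂ), fderiv ℝ g z v ^ 2 ≤ dx g z ^ 2 + dy g z ^ 2) :
    LB B 2 (hd h v f) := by
  have hsm : ∀ n, ContDiffOn ℝ ∞ (hd h v f n) B := fun n =>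
    contDiffOn_const.mul (cfd hB (hf.sm n) v)
  refine ⟨hsm, fun K hK hKB => ?_⟩
  obtain ⟨δ, hδ, hδB⟩ := hK.exists_cthickening_subset_open hB hKB
  set K' := Metric.cthickening δ K with hK'
  have hK'c : IsCompact K' := hK.cthickening
  obtain ⟨χ, hχ, hχ1, hχ0, hχ2⟩ := exists_cut hB hK'c hδB
  set S := tsupport χ with hS
  have hSc : IsCompact S := hχ.2.1
  have hSB : S ⊆ B := hχ.2.2
  obtain ⟨C1, hC1⟩ := hf.bd S hSc hSB
  obtain ⟨C2, hC2⟩ := hg.bd S hSc hSB
  -- the size of the cut-off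
  obtain ⟨M0, hM0⟩ : ∃ M0 : ℝ, ∀ z, dx χ z ^ 2 + dy χ z ^ 2 ≤ M0 := by
    have c1 : Continuous (dx χ) := by
      have := (hχ.1.fderiv_right (m := ∞) (by simp)).clm_apply (contDiff_const (c := (1 : ℂ)))
      exact this.continuous
    have c2 : Continuous (dy χ) := by
      have := (hχ.1.fderiv_right (m := ∞) (by simp)).clm_apply (contDiff_const (c := I))
      exact this.continuous
    obtain ⟨M0, hM0⟩ := hSc.exists_bound_of_continuousOn ((c1.pow 2).add (c2.pow 2)).continuousOn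
    refine ⟨max M0 0, fun z => ?_⟩
    by_cases hz : z ∈ S
    · exact (le_abs_self _).trans ((hM0 z hz).trans (le_max_left _ _))
    · have h0 : χ =ᶠ[𝓝 z] fun _ => 0 := notMem_tsupport_iff_eventuallyEq.1 hz
      have e : fderiv ℝ χ z = 0 := by rw [h0.fderiv_eq]; simp
      simp [dx, dy, e]
  have hM00 : 0 ≤ M0 := by
    have := hM0 0
    nlinarith [sq_nonneg (dx χ 0), sq_nonneg (dy χ 0)]
  refine ⟨2 * ((M0 + 1) * C1 + C2), ?_⟩
  have hsmall : ∀ᶠ n in atTop, h n ^ 2 ≤ 1 := by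
    have : Tendsto (fun n => h n ^ 2) atTop (𝓝 (0 ^ 2)) := hh.pow 2
    rw [zero_pow two_ne_zero] at this
    exact (this.eventually (eventually_le_nhds one_pos))
  filter_upwards [hC1, hC2, hsmall] with n h1 h2 h3
  have s := hf.sm n
  have intS : ∀ {F : ℂ → ℝ}, ContinuousOn F B → IntegrableOn F S := fun hF =>
    (hF.mono hSB).integrableOn_compact hSc
  have key : ∀ L : ℂ →L[ℝ] ℝ, (∀ w, |L w| ≤ ‖w‖) →
      ∫ z in K, h n ^ 2 * (dx (fun w => L (f n w)) z ^ 2 + dy (fun w => L (f n w)) z ^ 2) ≤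
        (M0 + 1) * C1 + C2 := by
    intro L hL'
    have sL : ContDiffOn ℝ ∞ (fun w => L (f n w)) B := L.contDiff.comp_contDiffOn s
    have cl : ContinuousOn (fun z => h n ^ 2 * lap (fun w => L (f n w)) z) B :=
      continuousOn_const.mul (sm_lap hB sL).continuousOn
    have b1 := en1 hB (h := h n) sL hχ (S := S) (le_refl _) (M := M0 + 1) (fun z => by
        have := hM0 z
        have q1 := hχ0 z
        have q2 := hχ2 z
        have q3 : 0 ≤ dx χ z ^ 2 + dy χ z ^ 2 := by positivity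
        nlinarith) (fun z => by nlinarith [hχ0 z, hχ2 z]) (intS (sL.continuousOn.pow 2))
        (intS (cl.pow 2))
    have b2 := grad_low hB hχ sL (S := Metric.thickening δ K) Metric.isOpen_thickening
      (fun z hz => hχ1 z (Metric.thickening_subset_cthickening _ _ hz))
    have cg : ContinuousOn (fun z => dx (fun w => L (f n w)) z ^ 2 +
        dy (fun w => L (f n w)) z ^ 2) B :=
      ((Pool.Agent.W98.RW.cd_fderiv hB sL 1).continuousOn.pow 2).add
        ((Pool.Agent.W98.RW.cd_fderiv hB sL I).continuousOn.pow 2)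
    have b3 : ∫ z in K, (dx (fun w => L (f n w)) z ^ 2 + dy (fun w => L (f n w)) z ^ 2) ≤
        ∫ z in Metric.thickening δ K, (dx (fun w => L (f n w)) z ^ 2 +
          dy (fun w => L (f n w)) z ^ 2) := by
      refine setIntegral_mono_set (((cg.mono hδB).integrableOn_compact hK'c).mono_set
        (Metric.thickening_subset_cthickening _ _)) (ae_of_all _ fun z => by positivity) ?_
      exact (Metric.self_subset_thickening hδ K).eventuallyLE
    have p : ∀ w : ℂ, (L w) ^ 2 ≤ ‖w‖ ^ 2 := by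
      intro w
      calc (L w) ^ 2 = |L w| ^ 2 := (sq_abs _).symm
        _ ≤ ‖w‖ ^ 2 := pow_le_pow_left₀ (abs_nonneg _) (hL' w) 2
    have b4 : ∫ z in S, (L (f n z)) ^ 2 ≤ C1 :=
      (intK_mono hSc ((sL.continuousOn.pow 2).mono hSB) ((hf.copow n 2).mono hSB)
        fun z _ => p _).trans h1
    have b5 : ∫ z in S, (h n ^ 2 * lap (fun w => L (f n w)) z) ^ 2 ≤ C2 := by
      refine (intK_mono hSc ((cl.pow 2).mono hSB) ((hg.copow n 2).mono hSB)
        fun z hz => ?_).trans h2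
      have e1 : lap (fun w => L (f n w)) z = L (lap (f n) z) :=
        Pool.Agent.W98.RW.L_lap L hB s (hSB hz)
      have e2 : h n ^ 2 * L (lap (f n) z) = L (hL h f n z) := by
        have : hL h f n z = (h n ^ 2) • lap (f n) z := by
          rw [Complex.real_smul]; simp only [hL]; push_cast; rfl
        rw [this, map_smul, smul_eq_mul]
      show (h n ^ 2 * lap (fun w => L (f n w)) z) ^ 2 ≤ ‖hL h f n z‖ ^ 2
      rw [e1, e2]
      exact p _
    rw [integral_const_mul]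
    have q0 : 0 ≤ h n ^ 2 := sq_nonneg _
    have q1 := mul_le_mul_of_nonneg_left (b3.trans b2) q0
    have q2 := mul_le_mul_of_nonneg_left b4 (show 0 ≤ M0 + 1 by linarith)
    linarith
  have k1 := key reCLM (fun w => by simpa using abs_re_le_norm w)
  have k2 := key imCLM (fun w => by simpa using abs_im_le_norm w)
  have cF : ∀ L : ℂ →L[ℝ] ℝ, ContinuousOn (fun z => h n ^ 2 * (dx (fun w => L (f n w)) z ^ 2 +
      dy (fun w => L (f n w)) z ^ 2)) K := by
    intro L
    have sL : ContDiffOn ℝ ∞ (fun w => L (f n w)) B := L.contDiff.comp_contDiffOn s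
    have c1 : ContinuousOn (dx (fun w => L (f n w))) K :=
      (Pool.Agent.W98.RW.cd_fderiv hB sL 1).continuousOn.mono hKB
    have c2 : ContinuousOn (dy (fun w => L (f n w))) K :=
      (Pool.Agent.W98.RW.cd_fderiv hB sL I).continuousOn.mono hKB
    exact continuousOn_const.mul ((c1.pow 2).add (c2.pow 2))
  have c3 : ContinuousOn (fun z => ‖hd h v f n z‖ ^ 2) K :=
    ((hsm n).continuousOn.norm.pow 2).mono hKB
  have fin := intK_lin hK (by norm_num : (0 : ℝ) ≤ 1) c3 (cF reCLM) (cF imCLM)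
    (fun z hz => by
      have hzB := hKB hz
      have d := fda hB s hzB
      have e1 : fderiv ℝ (fun w => reCLM (f n w)) z v = (fderiv ℝ (f n) z v).re :=
        Pool.Agent.W98.RW.L_fderiv reCLM d v
      have e2 : fderiv ℝ (fun w => imCLM (f n w)) z v = (fderiv ℝ (f n) z v).im :=
        Pool.Agent.W98.RW.L_fderiv imCLM d v
      have b1 := hv (fun w => reCLM (f n w)) z
      have b2 := hv (fun w => imCLM (f n w)) z
      rw [e1] at b1
      rw [e2] at b2
      have e3 : ‖hd h v f n z‖ ^ 2 = h n ^ 2 * ((fderiv ℝ (f n) z v).re ^ 2 +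
          (fderiv ℝ (f n) z v).im ^ 2) := by
        simp only [hd]
        rw [norm_mul, mul_pow, Complex.sq_norm (fderiv ℝ (f n) z v), normSq_apply,
          Complex.norm_real, Real.norm_eq_abs, sq_abs]
        ring
      rw [e3, one_mul, ← mul_add]
      exact mul_le_mul_of_nonneg_left (add_le_add b1 b2) (sq_nonneg _)) k1 k2
  linarith

/-- elliptic regularity in the class -/
lemma MK2.ell (hB : IsOpen B) (hp : ∀ n, 0 < h n) (hh : Tendsto h atTop (𝓝 0)) {k : ℕ} :
    ∀ {f : ℕ → ℂ → ℂ}, MK2 B h k f → MK2 B h k (hL h f) → MK2 B h (k + 1) f := by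
  induction k with
  | zero =>
    intro f H G
    exact ⟨H, LB.grad2 hB hp hh H G dir1, LB.grad2 hB hp hh H G dirI⟩
  | succ k ih =>
    intro f H G
    refine ⟨H.1, ih H.2.1 (G.2.1.congr hB (hL_hd hB H.1.sm 1)),
      ih H.2.2 (G.2.2.congr hB (hL_hd hB H.1.sm I))⟩

/-- all derivatives of solutions are bounded -/
theorem MK2.sol (hB : IsOpen B) (hp : ∀ n, 0 < h n) (hh : Tendsto h atTop (𝓝 0))
    {f : ℕ → ℂ → ℂ} (hf : LB B 2 f) {ρ : ℂ → ℂ} (hρ : ContDiffOn ℝ ∞ ρ B)
    (he : ∀ n, ∀ z ∈ B, hL h f n z = - (ρ z * f n z)) (k : ℕ) : MK2 B h k f := by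
  induction k with
  | zero => exact hf
  | succ k ih =>
    exact ih.ell hB hp hh (((ih.smulc hB hh hρ).neg hB hh).congr hB he)


lemma MK2.sP {a : ℂ → ℝ} (hB : IsOpen B) (hh : Tendsto h atTop (𝓝 0)) (ha : ContDiffOn ℝ ∞ a B)
    {k : ℕ} {f : ℕ → ℂ → ℂ} (H : MK2 B h (k + 1) f) : MK2 B h k (RS.sP a h f) := by
  have h1 := H.2.1.smulc hB hh (cxa ha)
  have h2 := (H.2.2.smulc hB hh (cxa ha)).cmul hB hh I
  refine (h1.sub hB hh h2).congr hB fun n z _ => ?_
  simp only [RS.sP, DP, RS.dd, dx, dy, hd]; ring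

/-- the ladder is bounded in `L²` -/
theorem wn_lb2 {a : ℂ → ℝ} (hB : IsOpen B) (hh : Tendsto h atTop (𝓝 0)) (ha : ContDiffOn ℝ ∞ a B)
    {u : ℕ → ℂ → ℂ} (H : ∀ k, MK2 B h k u) (k : ℕ) : ∀ j, MK2 B h j (RS.wn a h u k) := by
  induction k with
  | zero => exact H
  | succ k ih =>
    intro j
    have : RS.wn a h u (k + 1) = RS.sP a h (RS.wn a h u k) := by
      funext n
      exact wn_succ a h u k n
    rw [this]; exact (ih (j + 1)).sP hB hh ha

/-- the whole ladder of a sequence of solutions is bounded in `L²` -/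
theorem RawG.lb2 {B : Set ℂ} (hB : IsOpen B) {a : ℂ → ℝ} {h : ℕ → ℝ} {u : ℕ → ℂ → ℝ}
    {M : ℕ → ℂ → ℂ} (H : RawG B a h u M) (k : ℤ) :
    LB B 2 (ww a h (fun n z => (u n z : ℂ)) k) := by
  have sm : ∀ n, ContDiffOn ℝ ∞ (fun z => (u n z : ℂ)) B := fun n => cxa (H.sm n)
  have hu : ∀ n z, (starRingEnd ℂ) ((u n z : ℂ)) = (u n z : ℂ) := fun n z => conj_ofReal _
  have hb : LB B 2 (fun n z => (u n z : ℂ)) := by
    refine ⟨sm, fun K hK hKB => ?_⟩
    obtain ⟨χ, hχ, hχ1, hχ0, hχ2⟩ := exists_cut hB hK hKB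
    have t := (H.qe χ hχ 0).norm
    simp only [Function.iterate_zero, id] at t
    refine ⟨‖∫ z, (χ z : ℂ) * M 0 z‖ + 1, ?_⟩
    have t2 := t.eventually (gt_mem_nhds (lt_add_one _))
    refine t2.mono fun n hn => ?_
    refine le_trans ?_ hn.le
    have e1 : ∫ z, (χ z : ℂ) * ((u n z : ℂ) * (u n z : ℂ)) =
        ((∫ z, χ z * u n z ^ 2 : ℝ) : ℂ) := by
      rw [← integral_complex_ofReal]
      congr 1; funext z; push_cast; ring
    rw [e1, norm_real, Real.norm_eq_abs]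
    refine le_trans ?_ (le_abs_self _)
    have i1 : Integrable (fun z => χ z * u n z ^ 2) :=
      Pool.Agent.W311.RW.int_mul hB hχ ((H.sm n).continuousOn.pow 2)
    refine le_trans (le_of_eq ?_) (setIntegral_le_integral (s := K) i1
      (ae_of_all _ fun z => mul_nonneg (hχ0 z) (sq_nonneg _)))
    refine setIntegral_congr_fun hK.measurableSet fun z hz => ?_
    simp only [norm_real, Real.norm_eq_abs, sq_abs, hχ1 z hz, one_mul]
  have ha2 : ContDiffOn ℝ ∞ (fun z => ((a z : ℂ) ^ 2)⁻¹) B := by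
    refine ContDiffOn.inv ((cxa H.sa).pow 2) fun z hz => ?_
    have := (H.pa z hz).ne'
    exact pow_ne_zero 2 (by exact_mod_cast this)
  have he : ∀ n, ∀ z ∈ B, (h n : ℂ) ^ 2 * ((a z : ℂ) ^ 2 * lap (fun z => (u n z : ℂ)) z) =
      - (u n z : ℂ) := by
    intro n z hz
    rw [lap_re hB (H.sm n) hz]
    have h1 := H.eq n z hz
    have h2 : ((h n ^ 2 * (a z ^ 2 * lap (u n) z) + u n z : ℝ) : ℂ) = 0 := by rw [h1]; simp
    push_cast at h2
    linear_combination h2
  have HM : ∀ k, MK2 B h k (fun n z => (u n z : ℂ)) := fun k => MK2.sol hB H.hpos H.hlim hb ha2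
    (fun n z hz => by
      have h1 := he n z hz
      have h2 : (a z : ℂ) ^ 2 ≠ 0 := pow_ne_zero 2 (by exact_mod_cast (H.pa z hz).ne')
      have h3 : hL h (fun n z => (u n z : ℂ)) n z = ((a z : ℂ) ^ 2)⁻¹ * ((h n : ℂ) ^ 2 *
          ((a z : ℂ) ^ 2 * lap (fun z => (u n z : ℂ)) z)) := by
        have h4 : ((a z : ℂ) ^ 2)⁻¹ * (a z : ℂ) ^ 2 = 1 := inv_mul_cancel₀ h2
        simp only [hL]
        linear_combination (-((h n : ℂ) ^ 2 * lap (fun z => (u n z : ℂ)) z)) * h4
      rw [h3, h1]; ring) k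
  rcases Int.eq_nat_or_neg k with ⟨m, rfl | rfl⟩
  · exact wn_lb2 hB H.hlim H.sa HM m 0
  · have h1 : LB B 2 (RS.wn a h (fun n z => (u n z : ℂ)) m) := wn_lb2 hB H.hlim H.sa HM m 0
    have h2 := (LB.conj h1).cmul ((-1) ^ m)
    exact h2.congr fun n z _ => ww_neg hu m n z

end

end Pool.Agent.TH294.RG
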