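import Pool.Agent.TH294.RG.Abs
import Pool.Agent.W311.RW.F

/-!
Project RG (helper294): the lower bound for the fourth moment, finite form.
-/

set_option autoImplicit false
open MeasureTheory Filter Topology Complex
open scoped ContDiff

namespace Pool.Agent.TH294.RG

open Pool.Agent.W745.RW Pool.Agent.TH294.RS

noncomputable section

variable {B : Set ℂ} {a : ℂ → ℝ} {h : ℕ → ℝ} {w : ℤ → ℕ → ℂ → ℂ} {M : ℕ → ℂ → ℂ}

lemma int2 {φ : ℂ → ℝ} (hφ : TF B φ) {f g : ℂ → ℝ}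
    (hf : MemLp f 2 (volume.restrict (tsupport φ))) (hg : MemLp g 2 (volume.restrict (tsupport φ))) :
    Integrable (fun z => φ z * (f z * g z)) := by
  obtain ⟨C, hC⟩ := hφ.2.1.exists_bound_of_continuousOn hφ.1.continuous.continuousOn
  have h1 : IntegrableOn (fun z => φ z * (f z * g z)) (tsupport φ) := by
    refine Integrable.bdd_mul (c := C) (hf.integrable_mul hg)
      (hφ.1.continuous.aestronglyMeasurable) ?_
    exact (ae_restrict_mem hφ.2.1.measurableSet).mono fun z hz => hC z hz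
  rw [← integrableOn_iff_integrable_of_support_subset (s := tsupport φ)]
  · exact h1
  · intro z hz
    apply subset_tsupport
    intro h0
    apply hz
    simp [h0]

lemma ML.rr {g : ℂ → ℂ} (hg : ML B g) {φ : ℂ → ℝ} (hφ : TF B φ) :
    MemLp (fun z => (g z).re) 2 (volume.restrict (tsupport φ)) := (hg _ hφ.2.1 hφ.2.2).re
lemma ML.nn {g : ℂ → ℂ} (hg : ML B g) {φ : ℂ → ℝ} (hφ : TF B φ) :
    MemLp (fun z => ‖g z‖) 2 (volume.restrict (tsupport φ)) := (hg _ hφ.2.1 hφ.2.2).norm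
lemma cml {f : ℂ → ℝ} (hf : ContinuousOn f B) {φ : ℂ → ℝ} (hφ : TF B φ) :
    MemLp f 2 (volume.restrict (tsupport φ)) := by
  have h1 : ML B (fun z => (f z : ℂ)) := ML.smooth (continuous_ofReal.comp_continuousOn hf)
  have h2 := h1.rr hφ
  simpa using h2

/-- the correction terms -/
def ss (M : ℕ → ℂ → ℂ) (j k : ℕ) (z : ℂ) : ℝ :=
  if Even (j + k) then ‖M (j + k) z‖ ^ 2 + ‖M ((j : ℤ) - k).natAbs z‖ ^ 2 else 0

lemma MZmul (h0 : ∀ z, (starRingEnd ℂ) (M 0 z) = M 0 z) {K : ℤ} (hK : Even K) (z : ℂ) :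
    MZ M K z * MZ M (-K) z = ((‖M K.natAbs z‖ ^ 2 : ℝ) : ℂ) := by
  have e : ∀ c : ℂ, ((‖c‖ ^ 2 : ℝ) : ℂ) = c * (starRingEnd ℂ) c := by
    intro c
    rw [Complex.mul_conj, Complex.normSq_eq_norm_sq]
  have e1 : ((-1 : ℂ)) ^ K.natAbs = 1 := (Int.natAbs_even.2 hK).neg_one_pow
  rw [e]
  rcases lt_trichotomy K 0 with hneg | rfl | hpos
  · simp only [MZ, if_neg (not_le.2 hneg), if_pos (show 0 ≤ -K by omega), Int.natAbs_neg, e1]
    ring
  · simp only [MZ, neg_zero, le_refl, if_true, Int.natAbs_zero, h0]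
  · simp only [MZ, if_pos hpos.le, if_neg (show ¬ (0 ≤ -K) by omega), Int.natAbs_neg, e1]
    ring

lemma cc0 (M : ℕ → ℂ → ℂ) (j : ℕ) (z : ℂ) : cc M j (-j) z = (-1) ^ j * M 0 z := by
  have : Even (0 : ℤ) := by simp
  simp only [cc, add_neg_cancel, if_pos this, Int.natAbs_natCast, MZ, le_refl, if_true,
    Int.natAbs_zero]

lemma GGss (h0 : ∀ z, (starRingEnd ℂ) (M 0 z) = M 0 z) (j k : ℕ) (z : ℂ) :
    (-1) ^ j * (-1) ^ k * GG' M j (-j) k (-k) z = (((M 0 z).re * (M 0 z).re + ss M j k z : ℝ) : ℂ) := by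
  have hr : (((M 0 z).re : ℝ) : ℂ) = M 0 z := conj_eq_iff_re.1 (h0 z)
  have hj := sgn_sq j
  have hk := sgn_sq k
  have e1 : (-1 : ℂ) ^ j * (-1) ^ k * (cc M j k z * cc M (-j) (-k) z +
      cc M j (-k) z * cc M (-j) k z) = ((ss M j k z : ℝ) : ℂ) := by
    by_cases hjk : Even (j + k)
    · have p1 : Even ((j : ℤ) + k) := by exact_mod_cast hjk
      have p2 : Even (-(j : ℤ) + -(k : ℤ)) := by
        rw [← neg_add]; exact p1.neg
      have p3 : Even ((j : ℤ) + -k) := by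
        rw [Int.even_add] at p1 ⊢
        rw [p1, even_neg]
      have p4 : Even (-(j : ℤ) + k) := by
        rw [Int.even_add] at p1 ⊢
        rw [even_neg, p1]
      have m1 := MZmul h0 p1 z
      have m2 := MZmul h0 p3 z
      rw [neg_add] at m1
      rw [neg_add, neg_neg] at m2
      have n1 : ((j : ℤ) + k).natAbs = j + k := by omega
      have n2 : ((j : ℤ) + -k) = (j : ℤ) - k := by ring
      rw [n1] at m1
      have s1 : (-1 : ℂ) ^ j * (-1) ^ k = 1 := by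
        rw [← pow_add]; exact hjk.neg_one_pow
      simp only [cc, if_pos p1, if_pos p2, if_pos p3, if_pos p4, Int.natAbs_natCast,
        Int.natAbs_neg, ss, if_pos hjk]
      rw [s1]
      push_cast
      push_cast at m1 m2
      rw [← n2, ← m1, ← m2]
      linear_combination (MZ M (↑j + ↑k) z * MZ M (-↑j + -↑k) z + MZ M (↑j + -↑k) z *
        MZ M (-↑j + ↑k) z) * hj
    · have p1 : ¬ Even ((j : ℤ) + k) := by
        intro h; apply hjk; exact_mod_cast h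
      have p3 : ¬ Even ((j : ℤ) + -k) := by
        intro h; apply p1
        rw [Int.even_add] at h ⊢
        rw [h, even_neg]
      simp only [cc, if_neg p1, if_neg p3, ss, if_neg hjk]
      simp
  unfold GG'
  rw [cc0, cc0]
  push_cast
  rw [hr, ← e1]
  linear_combination (M 0 z * M 0 z * (-1) ^ k * (-1) ^ k) * hj + (M 0 z * M 0 z) * hk

lemma AG.w0 (H : AG B a h w M) (n : ℕ) (z : ℂ) (hz : z ∈ B) : ((w 0 n z).re : ℂ) = w 0 n z := by
  have h5 := H.cj 0 n z hz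
  simp only [Int.natAbs_zero, pow_zero, one_mul, neg_zero] at h5
  exact conj_eq_iff_re.1 h5

lemma AG.wj (H : AG B a h w M) (j : ℕ) (n : ℕ) (z : ℂ) (hz : z ∈ B) :
    (-1) ^ j * (w (j : ℤ) n z * w (-(j : ℤ)) n z) = ((‖w (j : ℤ) n z‖ ^ 2 : ℝ) : ℂ) := by
  have h4 := H.cj (j : ℤ) n z hz
  rw [Int.natAbs_natCast] at h4
  rw [← Complex.normSq_eq_norm_sq, ← Complex.mul_conj, h4]
  ring

/-- **The lower bound** for the fourth moment, finite form -/
theorem AG.low (H : AG B a h w M) (hB : IsOpen B) {φ : ℂ → ℝ} (hφ : TF B φ) (hφ0 : ∀ z, 0 ≤ φ z)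
    {N : ℕ} (hN : 1 ≤ N) {ε : ℝ} (hε : 0 < ε) :
    ∀ᶠ n in atTop, 3 * (∫ z, φ z * ((M 0 z).re * (M 0 z).re)) -
      3 / 2 * ((N : ℝ) ^ 2)⁻¹ * (∑ j ∈ Finset.Icc 1 N, ∑ k ∈ Finset.Icc 1 N, ∫ z, φ z * ss M j k z)
      - ε ≤ ∫ z, φ z * (w 0 n z).re ^ 4 := by
  obtain ⟨v, hv⟩ : ∃ v : ℕ → ℕ → ℂ → ℝ, ∀ n j z, v n j z = ‖w (j : ℤ) n z‖ ^ 2 :=
    ⟨_, fun _ _ _ => rfl⟩
  set m : ℂ → ℝ := fun z => (M 0 z).re with hm
  obtain ⟨Q, hQ⟩ : ∃ Q : ℝ, Q = ∫ z, φ z * (m z * m z) := ⟨_, rfl⟩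
  have hwc : ∀ n j, ContinuousOn (v n j) B := by
    intro n j
    have h0 := (H.bd (j : ℤ)).co n
    have h1 : v n j = fun z => ‖w (j : ℤ) n z‖ ^ 2 := funext fun z => hv n j z
    rw [h1]
    exact (h0.norm).pow 2
  have mm := (H.ml 0).rr hφ
  have hmr : ∀ z, (m z : ℂ) = M 0 z := fun z => conj_eq_iff_re.1 (H.m0 z)
  have iQ : Integrable (fun z => φ z * (m z * m z)) := int2 hφ mm mm
  have imv : ∀ n j, Integrable (fun z => φ z * (m z * v n j z)) := fun n j =>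
    int2 hφ mm (cml (hwc n j) hφ)
  have iss : ∀ j k, Integrable (fun z => φ z * ss M j k z) := by
    intro j k
    have i1 : Integrable (fun z => φ z * (‖M (j + k) z‖ * ‖M (j + k) z‖)) :=
      int2 hφ ((H.ml _).nn hφ) ((H.ml _).nn hφ)
    have i2 : Integrable (fun z => φ z * (‖M ((j : ℤ) - k).natAbs z‖ *
        ‖M ((j : ℤ) - k).natAbs z‖)) := int2 hφ ((H.ml _).nn hφ) ((H.ml _).nn hφ)
    by_cases hjk : Even (j + k)
    · refine (i1.add i2).congr (ae_of_all _ fun z => ?_)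
      simp only [Pi.add_apply, ss, if_pos hjk]; ring
    · simp only [ss, if_neg hjk, mul_zero]; exact integrable_zero _ _ _
  have h1 : ∀ j : ℕ, Tendsto (fun n => ∫ z, φ z * (m z * v n j z)) atTop (𝓝 Q) := by
    intro j
    have e := ((H.two hB (j : ℤ) (-(j : ℤ))).cmul ((-1) ^ j)).congr
      (f' := fun n z => (-1) ^ j * (w (j : ℤ) n z * w (-(j : ℤ)) n z)) (g' := M 0)
      (fun n z _ => rfl) fun z _ => by
        rw [cc0]
        have := sgn_sq j
        linear_combination (-(M 0 z)) * this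
    have lb : LB B 2 (fun n z => (-1) ^ j * (w (j : ℤ) n z * w (-(j : ℤ)) n z)) :=
      ((H.bd (j : ℤ)).mul4 (H.bd (-(j : ℤ)))).cmul _
    have e1 := e.dens hB lb (H.ml 0) (H.ml 0) hφ
    have e2 := (Complex.continuous_re.tendsto _).comp e1
    have e3 : (∫ z, (φ z : ℂ) * (M 0 z * M 0 z)) = ((Q : ℝ) : ℂ) := by
      rw [hQ, ← integral_complex_ofReal]
      congr 1; funext z
      push_cast
      rw [hmr]
    rw [e3, ofReal_re] at e2
    refine e2.congr fun n => ?_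
    show (∫ z, (φ z : ℂ) * (M 0 z * ((-1) ^ j * (w (j : ℤ) n z * w (-(j : ℤ)) n z)))).re = _
    have e4 : ∫ z, (φ z : ℂ) * (M 0 z * ((-1) ^ j * (w (j : ℤ) n z * w (-(j : ℤ)) n z))) =
        ((∫ z, φ z * (m z * v n j z) : ℝ) : ℂ) := by
      rw [← integral_complex_ofReal]
      congr 1; funext z
      by_cases hz : z ∈ B
      · rw [H.wj j n z hz, hv, ← hmr]; push_cast; ring
      · rw [TF.zero hφ hz]; simp
    rw [e4, ofReal_re]
  have hI : ∀ n j k, Integrable (fun z => φ z * (v n j z * v n k z)) := fun n j k =>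
    Pool.Agent.W311.RW.int_mul hB hφ ((hwc n j).mul (hwc n k))
  -- the fourth moments
  obtain ⟨X, hX⟩ : ∃ X : ℕ → ℝ, ∀ n, X n = (∫ z, φ z * (w 0 n z).re ^ 4) - 3 * Q :=
    ⟨_, fun _ => rfl⟩
  obtain ⟨e, he⟩ : ∃ e : ℕ → ℕ → ℝ, ∀ j k, e j k = 2 / 3 + 1 / 3 * ((-1) ^ j * (-1) ^ k) :=
    ⟨_, fun _ _ => rfl⟩
  have hM : ∀ j k : ℕ, Tendsto (fun n => (∫ z, φ z * (v n j z * v n k z)) - e j k * X n) atTop
      (𝓝 (Q + ∫ z, φ z * ss M j k z)) := by
    intro j k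
    have t := (H.mom4 hB hφ j (-j) k (-k) (by ring)).const_mul ((-1) ^ j * (-1) ^ k)
    rw [mul_zero] at t
    have ep : (-1 : ℂ) ^ j * (-1) ^ k * eps (j : ℤ) (-(j : ℤ)) (k : ℤ) (-(k : ℤ)) =
        ((e j k : ℝ) : ℂ) := by
      rw [he]
      by_cases hjk : Even (j + k)
      · have s1 : (-1 : ℂ) ^ j * (-1) ^ k = 1 := by rw [← pow_add]; exact hjk.neg_one_pow
        have s2 : eps (j : ℤ) (-(j : ℤ)) (k : ℤ) (-(k : ℤ)) = 1 := by
          unfold eps
          rw [if_pos]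
          rw [Nat.even_iff] at hjk
          refine ⟨?_, ?_, ?_⟩ <;> omega
        push_cast
        rw [s1, s2]; norm_num
      · have s1 : (-1 : ℂ) ^ j * (-1) ^ k = -1 := by
          rw [← pow_add]; exact (Nat.not_even_iff_odd.1 hjk).neg_one_pow
        have s2 : eps (j : ℤ) (-(j : ℤ)) (k : ℤ) (-(k : ℤ)) = -(1 / 3) := by
          unfold eps
          rw [if_neg]
          rw [Nat.even_iff] at hjk
          intro hcon
          omega
        push_cast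
        rw [s1, s2]; norm_num
    have e0 : ∫ z, (φ z : ℂ) * GG' M 0 0 0 0 z = ((3 * Q : ℝ) : ℂ) := by
      have g := fun z => GGss H.m0 0 0 z
      have e1 : ∀ z, GG' M 0 0 0 0 z = 3 * ((m z : ℂ) * (m z : ℂ)) := by
        intro z
        rw [hmr]
        simp [GG', cc, MZ]; ring
      simp only [e1]
      rw [hQ]
      push_cast
      rw [← integral_complex_ofReal, ← integral_const_mul]
      congr 1; funext z; push_cast; ring
    have e1 : (-1 : ℂ) ^ j * (-1) ^ k * ∫ z, (φ z : ℂ) * GG' M j (-j) k (-k) z =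
        ((Q + ∫ z, φ z * ss M j k z : ℝ) : ℂ) := by
      rw [← integral_const_mul, hQ, ← integral_add iQ (iss j k), ← integral_complex_ofReal]
      congr 1; funext z
      have g := GGss H.m0 j k z
      have g2 : (φ z : ℂ) * ((-1) ^ j * (-1) ^ k * GG' M j (-j) k (-k) z) =
        (φ z : ℂ) * (((M 0 z).re * (M 0 z).re + ss M j k z : ℝ) : ℂ) := by rw [g]
      simp only [hm]
      push_cast at g2 ⊢
      linear_combination g2
    have e2 : ∀ n, (-1 : ℂ) ^ j * (-1) ^ k * ∫ z, (φ z : ℂ) * F4 w j (-j) k (-k) n z =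
        ((∫ z, φ z * (v n j z * v n k z) : ℝ) : ℂ) := by
      intro n
      rw [← integral_const_mul, ← integral_complex_ofReal]
      congr 1; funext z
      by_cases hz : z ∈ B
      · have a1 := H.wj j n z hz
        have a2 := H.wj k n z hz
        simp only [F4]
        push_cast
        rw [hv, hv, ← a1, ← a2]
        ring
      · rw [TF.zero hφ hz]; simp
    have e3 : ∀ n, ∫ z, (φ z : ℂ) * F4 w 0 0 0 0 n z =
        ((∫ z, φ z * (w 0 n z).re ^ 4 : ℝ) : ℂ) := by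
      intro n
      rw [← integral_complex_ofReal]
      congr 1; funext z
      by_cases hz : z ∈ B
      · have a1 := H.w0 n z hz
        simp only [F4]
        conv_lhs => rw [← a1]
        push_cast; ring
      · rw [TF.zero hφ hz]; simp
    have e4 : ∀ n, (-1 : ℂ) ^ j * (-1) ^ k * (((∫ z, (φ z : ℂ) * F4 w j (-j) k (-k) n z) -
        ∫ z, (φ z : ℂ) * GG' M j (-j) k (-k) z) -
        eps (j : ℤ) (-(j : ℤ)) (k : ℤ) (-(k : ℤ)) * ((∫ z, (φ z : ℂ) * F4 w 0 0 0 0 n z) -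
        ∫ z, (φ z : ℂ) * GG' M 0 0 0 0 z)) =
        (((∫ z, φ z * (v n j z * v n k z)) - (Q + ∫ z, φ z * ss M j k z) - e j k * X n : ℝ) :
          ℂ) := by
      intro n
      rw [e0, e3, ofReal_sub, ofReal_sub, ← e1, ← e2, ofReal_mul (e j k), ← ep, hX]
      push_cast; ring
    have e5 := t.congr e4
    have e6 := (Complex.continuous_re.tendsto _).comp e5
    simp only [Function.comp_def, Complex.ofReal_re, zero_re] at e6
    have e7 := e6.add_const (Q + ∫ z, φ z * ss M j k z)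
    rw [zero_add] at e7
    refine e7.congr fun n => ?_
    ring
  set SS : ℝ := ∑ j ∈ Finset.Icc 1 N, ∑ k ∈ Finset.Icc 1 N, ∫ z, φ z * ss M j k z with hSS
  have hSS0 : 0 ≤ SS := by
    refine Finset.sum_nonneg fun j _ => Finset.sum_nonneg fun k _ => integral_nonneg fun z => ?_
    refine mul_nonneg (hφ0 z) ?_
    unfold ss
    split_ifs <;> positivity
  have card : (Finset.Icc 1 N).card = N := by simp
  have h3 : Tendsto (fun n => ∑ j ∈ Finset.Icc 1 N, ∫ z, φ z * (m z * v n j z)) atTop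
      (𝓝 (N * Q)) := by
    have := tendsto_finsetSum (Finset.Icc 1 N) (fun j _ => h1 j)
    simpa using this
  have h4 : Tendsto (fun n => ∑ j ∈ Finset.Icc 1 N, ∑ k ∈ Finset.Icc 1 N,
      ((∫ z, φ z * (v n j z * v n k z)) - e j k * X n)) atTop (𝓝 ((N : ℝ) ^ 2 * Q + SS)) := by
    have h40 : (N : ℝ) ^ 2 * Q + SS = ∑ j ∈ Finset.Icc 1 N, ∑ k ∈ Finset.Icc 1 N,
        (Q + ∫ z, φ z * ss M j k z) := by
      rw [hSS]
      simp only [Finset.sum_add_distrib, Finset.sum_const, card, nsmul_eq_mul]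
      ring
    rw [h40]
    exact tendsto_finsetSum _ fun j _ => tendsto_finsetSum _ fun k _ => hM j k
  have h5 : ∀ n, 2 * N * (∑ j ∈ Finset.Icc 1 N, ∫ z, φ z * (m z * v n j z)) - N ^ 2 * Q ≤
      ∑ j ∈ Finset.Icc 1 N, ∑ k ∈ Finset.Icc 1 N, ∫ z, φ z * (v n j z * v n k z) := by
    intro n
    have h50 : 0 ≤ ∫ z, φ z * ((∑ j ∈ Finset.Icc 1 N, v n j z) - N * m z) ^ 2 :=
      integral_nonneg fun z => mul_nonneg (hφ0 z) (sq_nonneg _)
    have h51 : ∀ z, φ z * ((∑ j ∈ Finset.Icc 1 N, v n j z) - N * m z) ^ 2 =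
        (∑ j ∈ Finset.Icc 1 N, ∑ k ∈ Finset.Icc 1 N, φ z * (v n j z * v n k z)) -
        2 * N * (∑ j ∈ Finset.Icc 1 N, φ z * (m z * v n j z)) + N ^ 2 * (φ z * (m z * m z)) := by
      intro z
      simp only [← Finset.mul_sum]
      rw [← Finset.sum_mul]
      ring
    simp only [h51] at h50
    have hA : Integrable (fun z => ∑ j ∈ Finset.Icc 1 N, ∑ k ∈ Finset.Icc 1 N,
        φ z * (v n j z * v n k z)) :=
      integrable_finsetSum _ fun j _ => integrable_finsetSum _ fun k _ => hI n j k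
    have hB' : Integrable (fun z => 2 * (N : ℝ) * (∑ j ∈ Finset.Icc 1 N, φ z * (m z * v n j z))) :=
      (integrable_finsetSum _ fun j _ => imv n j).const_mul _
    have hC : Integrable (fun z => (N : ℝ) ^ 2 * (φ z * (m z * m z))) := iQ.const_mul _
    have e1 : ∫ z, ((∑ j ∈ Finset.Icc 1 N, ∑ k ∈ Finset.Icc 1 N, φ z * (v n j z * v n k z)) -
        2 * N * (∑ j ∈ Finset.Icc 1 N, φ z * (m z * v n j z)) + N ^ 2 * (φ z * (m z * m z))) =
        (∫ z, ((∑ j ∈ Finset.Icc 1 N, ∑ k ∈ Finset.Icc 1 N, φ z * (v n j z * v n k z)) -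
        2 * N * (∑ j ∈ Finset.Icc 1 N, φ z * (m z * v n j z)))) +
        ∫ z, (N : ℝ) ^ 2 * (φ z * (m z * m z)) :=
      integral_add (hA.sub hB') hC
    rw [e1, integral_sub hA hB', integral_const_mul,
      integral_const_mul, integral_finsetSum _ (fun j _ => imv n j), ← hQ,
      integral_finsetSum _ (fun j _ => integrable_finsetSum _ fun k _ => hI n j k)] at h50
    have h52 : ∀ j ∈ Finset.Icc 1 N, ∫ z, ∑ k ∈ Finset.Icc 1 N, φ z * (v n j z * v n k z) =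
        ∑ k ∈ Finset.Icc 1 N, ∫ z, φ z * (v n j z * v n k z) := fun j _ =>
      integral_finsetSum _ (fun k _ => hI n j k)
    rw [Finset.sum_congr rfl h52] at h50
    linarith
  set E : ℝ := ∑ j ∈ Finset.Icc 1 N, ∑ k ∈ Finset.Icc 1 N, e j k with hE
  have hEge : 2 / 3 * (N : ℝ) ^ 2 ≤ E := by
    have e1 : E = 2 / 3 * (N : ℝ) ^ 2 + 1 / 3 * (∑ j ∈ Finset.Icc 1 N, (-1 : ℝ) ^ j) ^ 2 := by
      rw [hE]
      simp only [he, Finset.sum_add_distrib, Finset.sum_const, card, nsmul_eq_mul]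
      rw [sq (∑ j ∈ Finset.Icc 1 N, (-1 : ℝ) ^ j), Finset.sum_mul_sum]
      simp only [Finset.mul_sum]
      ring
    rw [e1]
    have : 0 ≤ (∑ j ∈ Finset.Icc 1 N, (-1 : ℝ) ^ j) ^ 2 := sq_nonneg _
    linarith
  have hN0 : (0 : ℝ) < N := by exact_mod_cast hN
  have hN2 : (0 : ℝ) < (N : ℝ) ^ 2 := by positivity
  have h6 : Tendsto (fun n => (∑ j ∈ Finset.Icc 1 N, ∑ k ∈ Finset.Icc 1 N,
      ((∫ z, φ z * (v n j z * v n k z)) - e j k * X n)) -
      (2 * N * (∑ j ∈ Finset.Icc 1 N, ∫ z, φ z * (m z * v n j z)) - N ^ 2 * Q)) atTop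
      (𝓝 (((N : ℝ) ^ 2 * Q + SS) - (2 * N * (N * Q) - N ^ 2 * Q))) :=
    h4.sub ((h3.const_mul _).sub_const _)
  have h7 : ((N : ℝ) ^ 2 * Q + SS) - (2 * N * (N * Q) - N ^ 2 * Q) < SS + 2 / 3 * (N : ℝ) ^ 2 * ε := by
    have : 0 < 2 / 3 * (N : ℝ) ^ 2 * ε := by positivity
    linarith
  filter_upwards [h6.eventually (gt_mem_nhds h7)] with n hn
  have h8 := h5 n
  simp only [Finset.sum_sub_distrib] at hn
  have h9 : ∑ j ∈ Finset.Icc 1 N, ∑ k ∈ Finset.Icc 1 N, e j k * X n = E * X n := by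
    rw [hE, Finset.sum_mul]
    refine Finset.sum_congr rfl fun j _ => ?_
    rw [Finset.sum_mul]
  rw [h9] at hn
  have h10 : - (SS + 2 / 3 * (N : ℝ) ^ 2 * ε) ≤ E * X n := by linarith
  have h11 : -(3 / 2 * ((N : ℝ) ^ 2)⁻¹ * SS) - ε ≤ X n := by
    rcases le_or_gt 0 (X n) with hx | hx
    · have : 0 ≤ 3 / 2 * ((N : ℝ) ^ 2)⁻¹ * SS := by positivity
      linarith
    · have h12 : E * X n ≤ 2 / 3 * (N : ℝ) ^ 2 * X n := mul_le_mul_of_nonpos_right hEge hx.le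
      have h13 : - (SS + 2 / 3 * (N : ℝ) ^ 2 * ε) ≤ 2 / 3 * (N : ℝ) ^ 2 * X n := h10.trans h12
      have h14 : (3 / 2 * ((N : ℝ) ^ 2)⁻¹) * (- (SS + 2 / 3 * (N : ℝ) ^ 2 * ε)) ≤
          (3 / 2 * ((N : ℝ) ^ 2)⁻¹) * (2 / 3 * (N : ℝ) ^ 2 * X n) :=
        mul_le_mul_of_nonneg_left h13 (by positivity)
      have h15 : (3 / 2 * ((N : ℝ) ^ 2)⁻¹) * (2 / 3 * (N : ℝ) ^ 2 * X n) = X n := by
        field_simp
      have h16 : (3 / 2 * ((N : ℝ) ^ 2)⁻¹) * (- (SS + 2 / 3 * (N : ℝ) ^ 2 * ε)) =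
          -(3 / 2 * ((N : ℝ) ^ 2)⁻¹ * SS) - ε := by
        field_simp
        ring
      linarith
  have h17 := hX n
  rw [hQ] at h17
  simp only [hm] at h17
  linarith

end

end Pool.Agent.TH294.RG
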