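import Pool.Agent.TH294.RG.Fin

/-!
Project RG (helper294): rigidity of the fourth order moments without any bound.
-/

set_option autoImplicit false
open MeasureTheory Filter Topology Complex ProbabilityTheory
open scoped ContDiff ENNReal

namespace Pool.Agent.TH294.RG

open Pool.Agent.W745.RW Pool.Agent.TH294.RS

noncomputable section

lemma RawG.cmp {Ω B : Set ℂ} {a : ℂ → ℝ} {h : ℕ → ℝ} {u : ℕ → ℂ → ℝ} {M : ℕ → ℂ → ℂ}
    (H : RawG Ω a h u M) (hB : B ⊆ Ω) {σ : ℕ → ℕ} (hσ : Tendsto σ atTop atTop) :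
    RawG B a (fun n => h (σ n)) (fun n => u (σ n)) M :=
  ⟨fun _ => H.hpos _, H.hlim.comp hσ, H.sa.mono hB, fun z hz => H.pa z (hB hz),
    fun _ => (H.sm _).mono hB, fun _ z hz => H.eq _ z (hB hz), fun φ hφ k =>
    (H.qe φ ⟨hφ.1, hφ.2.1, hφ.2.2.trans hB⟩ k).comp hσ⟩

lemma DPk_scale {B : Set ℂ} (hB : IsOpen B) {a : ℂ → ℝ} (ha : ContDiffOn ℝ ∞ a B) (t : ℝ)
    {f : ℂ → ℂ} (hf : ContDiffOn ℝ ∞ f B) (c : ℂ) (k : ℕ) :
    ∀ z ∈ B, (DP a t)^[k] (fun w => c * f w) z = c * (DP a t)^[k] f z := by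
  induction k with
  | zero => intro z _; rfl
  | succ k ih =>
    intro z hz
    rw [Function.iterate_succ_apply', Function.iterate_succ_apply', DP_cg hB t ih hz,
      DP_cm t (fda hB (DPk_sm hB ha t hf k) hz)]

/-- scaling to zero -/
lemma RawG.scale {B : Set ℂ} (hB : IsOpen B) {a : ℂ → ℝ} {h : ℕ → ℝ} {u : ℕ → ℂ → ℝ}
    {M : ℕ → ℂ → ℂ} (H : RawG B a h u M) {c : ℕ → ℝ} (hc : Tendsto c atTop (𝓝 0)) :
    RawG B a h (fun n z => c n * u n z) (fun _ _ => 0) := by
  refine ⟨H.hpos, H.hlim, H.sa, H.pa, fun n => contDiffOn_const.mul (H.sm n),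
    fun n z hz => ?_, fun φ hφ k => ?_⟩
  · have d1 : ∀ v : ℂ, ∀ w ∈ B, fderiv ℝ (fun z => c n * u n z) w v = c n * fderiv ℝ (u n) w v := by
      intro v w hw
      rw [fderiv_const_mul (Pool.Agent.W249.RW.diffAt hB (H.sm n) hw)]
      rfl
    have d2 : ∀ v : ℂ, fderiv ℝ (fun w => fderiv ℝ (fun z => c n * u n z) w v) z v =
        c n * fderiv ℝ (fun w => fderiv ℝ (u n) w v) z v := by
      intro v
      have e : (fun w => fderiv ℝ (fun z => c n * u n z) w v) =ᶠ[𝓝 z]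
          fun w => c n * fderiv ℝ (u n) w v := by
        filter_upwards [hB.mem_nhds hz] with w hw
        exact d1 v w hw
      have dv : DifferentiableAt ℝ (fun w => fderiv ℝ (u n) w v) z :=
        Pool.Agent.W249.RW.diffAt hB (Pool.Agent.W249.RW.cdd hB (H.sm n) v) hz
      rw [e.fderiv_eq, fderiv_const_mul dv]
      rfl
    have e1 : lap (fun z => c n * u n z) z = c n * lap (u n) z := by
      have a1 : lap (fun z => c n * u n z) z =
        fderiv ℝ (fun w => fderiv ℝ (fun z => c n * u n z) w 1) z 1 +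
        fderiv ℝ (fun w => fderiv ℝ (fun z => c n * u n z) w I) z I := rfl
      have a2 : lap (u n) z = fderiv ℝ (fun w => fderiv ℝ (u n) w 1) z 1 +
        fderiv ℝ (fun w => fderiv ℝ (u n) w I) z I := rfl
      rw [a1, a2, d2, d2]; ring
    rw [e1]
    have := H.eq n z hz
    linear_combination (c n) * this
  · have h1 := (((continuous_ofReal.tendsto _).comp hc).pow 2).mul (H.qe φ hφ k)
    have e0 : ∫ z, (φ z : ℂ) * (0 : ℂ) = 0 := by simp
    rw [e0]
    simp only [ofReal_zero, ne_eq, OfNat.ofNat_ne_zero, not_false_eq_true, zero_pow,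
      zero_mul] at h1
    refine h1.congr fun n => ?_
    simp only [Function.comp_def]
    rw [← integral_const_mul]
    congr 1; funext z
    by_cases hz : z ∈ B
    · have e1 := DPk_scale hB H.sa (h n) (cxa (H.sm n)) (c n : ℂ) k z hz
      have e2 : (fun w => ((c n * u n w : ℝ) : ℂ)) = fun w => (c n : ℂ) * (u n w : ℂ) := by
        funext w; push_cast; rfl
      rw [e2, e1]
      push_cast; ring
    · rw [TF.zero hφ hz]; simp

lemma ww_scale {B : Set ℂ} (hB : IsOpen B) {a : ℂ → ℝ} (ha : ContDiffOn ℝ ∞ a B) (h : ℕ → ℝ)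
    {u : ℕ → ℂ → ℝ} (hu : ∀ n, ContDiffOn ℝ ∞ (u n) B) (c : ℕ → ℝ) (k : ℤ) (n : ℕ) {z : ℂ}
    (hz : z ∈ B) : ww a h (fun n z => ((c n * u n z : ℝ) : ℂ)) k n z =
      (c n : ℂ) * ww a h (fun n z => (u n z : ℂ)) k n z := by
  have e2 : (fun w => ((c n * u n w : ℝ) : ℂ)) = fun w => (c n : ℂ) * (u n w : ℂ) := by
    funext w; push_cast; rfl
  cases k with
  | ofNat k =>
    show (DP a (h n))^[k] (fun w => ((c n * u n w : ℝ) : ℂ)) z =
      (c n : ℂ) * (DP a (h n))^[k] (fun w => (u n w : ℂ)) z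
    rw [e2]
    exact DPk_scale hB ha (h n) (cxa (hu n)) (c n : ℂ) k z hz
  | negSucc k =>
    show (-1) ^ (k + 1) * (starRingEnd ℂ) ((DP a (h n))^[k + 1] (fun w => ((c n * u n w : ℝ) : ℂ)) z)
      = (c n : ℂ) * ((-1) ^ (k + 1) * (starRingEnd ℂ) ((DP a (h n))^[k + 1]
        (fun w => (u n w : ℂ)) z))
    rw [e2, DPk_scale hB ha (h n) (cxa (hu n)) (c n : ℂ) (k + 1) z hz, map_mul, conj_ofReal]
    ring

lemma ww_sub (a : ℂ → ℝ) (h : ℕ → ℝ) (u : ℕ → ℂ → ℂ) (σ : ℕ → ℕ) (k : ℤ) (n : ℕ) :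
    ww a (fun n => h (σ n)) (fun n => u (σ n)) k n = ww a h u k (σ n) := by
  cases k <;> rfl

/-- the fourth order defect -/
def df (a : ℂ → ℝ) (h : ℕ → ℝ) (u : ℕ → ℂ → ℝ) (M : ℕ → ℂ → ℂ) (φ : ℂ → ℝ) (i j k l : ℤ)
    (n : ℕ) : ℂ :=
  ((∫ z, (φ z : ℂ) * F4 (ww a h (fun n z => (u n z : ℂ))) i j k l n z) -
      ∫ z, (φ z : ℂ) * GG' M i j k l z) -
      eps i j k l * ((∫ z, (φ z : ℂ) * F4 (ww a h (fun n z => (u n z : ℂ))) 0 0 0 0 n z) -
        ∫ z, (φ z : ℂ) * GG' M 0 0 0 0 z)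

/-- **Rigidity** relative to the fourth moment -/
theorem RawG.mom {Ω : Set ℂ} {a : ℂ → ℝ} {h : ℕ → ℝ} {u : ℕ → ℂ → ℝ} {M : ℕ → ℂ → ℂ}
    (H : RawG Ω a h u M) (ml : ∀ k, ML Ω (M k)) (m0 : ∀ z, (starRingEnd ℂ) (M 0 z) = M 0 z)
    {K : Set ℂ} (hK : IsCompact K) (hKΩ : K ⊆ Ω) {φ : ℂ → ℝ} (hφ : TF (interior K) φ)
    (i j k l : ℤ) (hs : i + j + k + l = 0) :
    Tendsto (fun n => ((1 + ∫ z in K, u n z ^ 4 : ℝ) : ℂ)⁻¹ * df a h u M φ i j k l n) atTop
      (𝓝 0) := by
  set B : Set ℂ := interior K with hBdef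
  have hB : IsOpen B := isOpen_interior
  have hBK : B ⊆ K := interior_subset
  have hBΩ : B ⊆ Ω := hBK.trans hKΩ
  have ml' : ∀ k, ML B (M k) := fun k K' hK' hKB => ml k K' hK' (hKB.trans hBΩ)
  have cu : ∀ n, ContinuousOn (fun z => u n z ^ 4) K := fun n =>
    ((H.sm n).continuousOn.mono hKΩ).pow 4
  have T0 : ∀ n, 0 ≤ ∫ z in K, u n z ^ 4 := fun n => integral_nonneg fun z => by positivity
  have sub4 : ∀ n (K' : Set ℂ), K' ⊆ B → ∫ z in K', u n z ^ 4 ≤ ∫ z in K, u n z ^ 4 := by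
    intro n K' hK'
    refine setIntegral_mono_set ((cu n).integrableOn_compact hK)
      (ae_of_all _ fun z => by positivity) ?_
    exact (hK'.trans hBK).eventuallyLE
  refine tendsto_of_subseq_tendsto fun ns hns => ?_
  have H1 := H.cmp hBΩ hns
  by_cases hbd : ∃ C : ℝ, ∃ᶠ n in atTop, ∫ z in K, u (ns n) z ^ 4 ≤ C
  · -- the fourth moments are bounded along a subsequence
    obtain ⟨C, hC⟩ := hbd
    obtain ⟨τ, hτ, hτC⟩ := extraction_of_frequently_atTop hC
    refine ⟨τ, ?_⟩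
    have H2 := H1.cmp (le_refl B) hτ.tendsto_atTop
    have A := H2.as hB ml' m0 fun K' _ hKB => ⟨C, Eventually.of_forall fun n =>
      (sub4 _ K' hKB).trans (hτC n)⟩
    have key := A.mom4 hB hφ i j k l hs
    have key2 : Tendsto (fun n => df a h u M φ i j k l (ns (τ n))) atTop (𝓝 0) := by
      refine key.congr fun n => ?_
      simp only [F4, df]
      have e1 : ∀ k n, ww a (fun n => h (ns (τ n))) (fun n z => ((u (ns (τ n)) z : ℝ) : ℂ)) k n =
          ww a h (fun n z => (u n z : ℂ)) k (ns (τ n)) := fun k n =>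
        ww_sub a h (fun n z => (u n z : ℂ)) (fun n => ns (τ n)) k n
      simp only [e1]
    refine squeeze_zero_norm (fun n => ?_) (by simpa using key2.norm)
    rw [norm_mul, norm_inv, norm_real, Real.norm_eq_abs, abs_of_nonneg (by linarith [T0 (ns (τ n))])]
    have h1 : (1 + ∫ z in K, u (ns (τ n)) z ^ 4)⁻¹ ≤ 1 :=
      inv_le_one_of_one_le₀ (by linarith [T0 (ns (τ n))])
    exact mul_le_of_le_one_left (norm_nonneg _) h1
  · -- the fourth moments tend to infinity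
    push Not at hbd
    refine ⟨id, ?_⟩
    simp only [id]
    obtain ⟨T, hT⟩ : ∃ T : ℕ → ℝ, ∀ n, T n = 1 + ∫ z in K, u (ns n) z ^ 4 := ⟨_, fun _ => rfl⟩
    have T1 : ∀ n, 1 ≤ T n := fun n => by rw [hT]; linarith [T0 (ns n)]
    have Tlim : Tendsto T atTop atTop := by
      rw [tendsto_atTop]
      intro C
      refine (hbd C).mono fun n hn => ?_
      rw [hT]; linarith
    obtain ⟨c, hc⟩ : ∃ c : ℕ → ℝ, ∀ n, c n = (T n) ^ (-(1 / 4 : ℝ)) := ⟨_, fun _ => rfl⟩
    have cpos : ∀ n, 0 < c n := fun n => by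
      rw [hc]; exact Real.rpow_pos_of_pos (by linarith [T1 n]) _
    have c4 : ∀ n, c n ^ 4 = (T n)⁻¹ := by
      intro n
      rw [hc, ← Real.rpow_natCast, ← Real.rpow_mul (by linarith [T1 n])]
      norm_num
      rw [Real.rpow_neg_one]
    have clim : Tendsto c atTop (𝓝 0) := by
      have := (tendsto_rpow_neg_atTop (show (0 : ℝ) < 1 / 4 by norm_num)).comp Tlim
      exact this.congr fun n => (hc n).symm
    have H2 := H1.scale hB clim
    have zml : ∀ k : ℕ, ML B ((fun (_ : ℕ) (_ : ℂ) => (0 : ℂ)) k) := fun k => ML.zero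
    have A := H2.as hB zml (fun z => map_zero _) fun K' hK' hKB => ⟨1,
      Eventually.of_forall fun n => by
        have e1 : ∀ z, (c n * u (ns n) z) ^ 4 = (T n)⁻¹ * u (ns n) z ^ 4 := by
          intro z; rw [mul_pow, c4]
        simp only [e1]
        rw [integral_const_mul, inv_mul_le_iff₀ (by linarith [T1 n]), mul_one, hT]
        have := sub4 (ns n) K' hKB
        linarith⟩
    have key := A.mom4 hB hφ i j k l hs
    have gz : ∀ i j k l, ∫ z, (φ z : ℂ) * GG' (fun _ _ => 0) i j k l z = 0 := by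
      intro i j k l
      have : ∀ z, GG' (fun _ _ => 0) i j k l z = 0 := by
        intro z
        have hcc : ∀ a b, cc (fun _ _ => 0) a b z = 0 := by
          intro a b
          simp [cc, MZ]
        simp [GG', hcc]
      simp [this]
    have ce : ∀ i j k l n, ∫ z, (φ z : ℂ) * F4 (ww a (fun n => h (ns n))
        (fun n z => ((c n * u (ns n) z : ℝ) : ℂ))) i j k l n z = ((T n : ℝ) : ℂ)⁻¹ *
        ∫ z, (φ z : ℂ) * F4 (ww a h (fun n z => (u n z : ℂ))) i j k l (ns n) z := by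
      intro i j k l n
      rw [← integral_const_mul]
      congr 1; funext z
      by_cases hz : z ∈ B
      · have e1 : ∀ k, ww a (fun n => h (ns n)) (fun n z => ((c n * u (ns n) z : ℝ) : ℂ)) k n z =
            (c n : ℂ) * ww a h (fun n z => (u n z : ℂ)) k (ns n) z := by
          intro k
          rw [ww_scale hB H1.sa (fun n => h (ns n)) H1.sm c k n hz]
          have := ww_sub a h (fun n z => (u n z : ℂ)) ns k n
          rw [← this]
        simp only [F4, e1]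
        have e2 : ((T n : ℝ) : ℂ)⁻¹ = (c n : ℂ) ^ 4 := by
          have := c4 n
          rw [← ofReal_inv, ← this]; push_cast; rfl
        rw [e2]; ring
      · rw [TF.zero hφ hz]; simp
    simp only [ce, gz, sub_zero] at key
    -- compare
    have t0 : Tendsto (fun n => ((T n : ℝ) : ℂ)⁻¹ * (eps i j k l * (∫ z, (φ z : ℂ) *
        GG' M 0 0 0 0 z) - ∫ z, (φ z : ℂ) * GG' M i j k l z)) atTop (𝓝 0) := by
      have h1 : Tendsto (fun n => (((T n)⁻¹ : ℝ) : ℂ)) atTop (𝓝 0) := by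
        have h3 := (continuous_ofReal.tendsto _).comp (tendsto_inv_atTop_zero.comp Tlim)
        rw [ofReal_zero] at h3
        exact h3
      have h2 := h1.mul_const (eps i j k l * (∫ z, (φ z : ℂ) *
        GG' M 0 0 0 0 z) - ∫ z, (φ z : ℂ) * GG' M i j k l z)
      rw [zero_mul] at h2
      refine h2.congr fun n => ?_
      rw [ofReal_inv]
    have t1 := key.add t0
    rw [add_zero] at t1
    refine t1.congr fun n => ?_
    rw [← hT]
    simp only [df]
    ring

end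

end Pool.Agent.TH294.RG
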