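import Pool.Agent.TH294.RG.Ms1

/-!
Project RG (helper294): averages at a given scale.
-/

set_option autoImplicit false
open MeasureTheory Filter Topology Complex
open scoped ContDiff Convolution

namespace Pool.Agent.TH294.RG

open Pool.Agent.W745.RW Pool.Agent.TH294.RS

noncomputable section

/-- the average at scale `r` with the kernel `κ` -/
def Tk (κ : ℂ → ℝ) (r : ℝ) (f : ℂ → ℝ) (x : ℂ) : ℝ := ∫ y, κ y * f (x + r • y)

/-- continuous with compact support -/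
def CC (f : ℂ → ℝ) : Prop := Continuous f ∧ HasCompactSupport f

lemma CC.int {f : ℂ → ℝ} (hf : CC f) : Integrable f := hf.1.integrable_of_hasCompactSupport hf.2

lemma CC.mul {f g : ℂ → ℝ} (hf : CC f) (hg : Continuous g) : CC (fun z => f z * g z) :=
  ⟨hf.1.mul hg, hf.2.mul_right⟩

lemma CC.lmul {f g : ℂ → ℝ} (hf : Continuous f) (hg : CC g) : CC (fun z => f z * g z) :=
  ⟨hf.mul hg.1, hg.2.mul_left⟩

lemma CC.sq {f : ℂ → ℝ} (hf : CC f) : CC (fun z => f z ^ 2) := by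
  have := hf.mul hf.1
  simpa [pow_two] using this

lemma CC.abs {f : ℂ → ℝ} (hf : CC f) : CC (fun z => |f z|) :=
  ⟨hf.1.abs, hf.2.comp_left (g := fun x : ℝ => |x|) abs_zero⟩

lemma Tk_int {κ f : ℂ → ℝ} (hκ : CC κ) (hf : Continuous f) (r : ℝ) (x : ℂ) :
    Integrable (fun y => κ y * f (x + r • y)) :=
  (hκ.mul (g := fun y => f (x + r • y))
    (hf.comp (continuous_const.add (continuous_id.const_smul r)))).int

/-- the kernel of the convolution -/
def Kr (κ : ℂ → ℝ) (r : ℝ) (s : ℂ) : ℝ := |((r ^ 2 : ℝ))⁻¹| * κ ((-r⁻¹) • s)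

lemma Tk_conv {κ f : ℂ → ℝ} {r : ℝ} (hr : r ≠ 0) (x : ℂ) :
    Tk κ r f x = (f ⋆[ContinuousLinearMap.mul ℝ ℝ, volume] Kr κ r) x := by
  unfold Tk convolution
  simp only [ContinuousLinearMap.mul_apply', Kr]
  have h1 := Measure.integral_comp_smul (volume : Measure ℂ)
    (fun s => κ (r⁻¹ • s) * f (x + s)) r
  simp only [finrank_real_complex] at h1
  have e1 : ∫ y, κ y * f (x + r • y) = ∫ y : ℂ, κ (r⁻¹ • r • y) * f (x + r • y) := by
    congr 1; funext y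
    rw [smul_smul, inv_mul_cancel₀ hr, one_smul]
  rw [e1, h1, smul_eq_mul, ← integral_const_mul]
  have h2 := integral_sub_right_eq_self (μ := (volume : Measure ℂ))
    (fun s => |((r ^ 2 : ℝ))⁻¹| * (κ (r⁻¹ • s) * f (x + s))) x
  rw [← h2]
  congr 1; funext t
  have e2 : (-r⁻¹) • (x - t) = r⁻¹ • (t - x) := by
    rw [neg_smul, ← smul_neg, neg_sub]
  rw [e2, add_sub_cancel]
  ring

lemma Kr_CC {κ : ℂ → ℝ} (hκ : CC κ) {r : ℝ} (hr : r ≠ 0) : CC (Kr κ r) := by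
  refine ⟨continuous_const.mul (hκ.1.comp (continuous_const_smul _)), ?_⟩
  have h1 : HasCompactSupport (fun s : ℂ => κ ((-r⁻¹) • s)) :=
    hκ.2.comp_smul (neg_ne_zero.2 (inv_ne_zero hr))
  exact h1.mul_left

lemma Tk_CC {κ f : ℂ → ℝ} (hκ : CC κ) (hf : CC f) {r : ℝ} (hr : r ≠ 0) : CC (Tk κ r f) := by
  have e : Tk κ r f = f ⋆[ContinuousLinearMap.mul ℝ ℝ, volume] Kr κ r :=
    funext fun x => Tk_conv hr x
  rw [e]
  have h1 := Kr_CC hκ hr
  exact ⟨h1.2.continuous_convolution_right _ hf.int.locallyIntegrable h1.1,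
    hf.2.convolution _ h1.2⟩

/-- the derivative of the kernel -/
def dk (κ : ℂ → ℝ) (v : ℂ) (y : ℂ) : ℝ := fderiv ℝ κ y v

lemma dk_sm {κ : ℂ → ℝ} (hκ : ContDiff ℝ ∞ κ) (v : ℂ) : ContDiff ℝ ∞ (dk κ v) :=
  (hκ.fderiv_right (by simp)).clm_apply contDiff_const

lemma dk_cs {κ : ℂ → ℝ} (hκ : HasCompactSupport κ) (v : ℂ) : HasCompactSupport (dk κ v) :=
  (hκ.fderiv (𝕜 := ℝ)).comp_left (g := fun L : ℂ →L[ℝ] ℝ => L v) (by simp)

lemma Kr_sm {κ : ℂ → ℝ} (hκ : ContDiff ℝ ∞ κ) (r : ℝ) : ContDiff ℝ ∞ (Kr κ r) :=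
  contDiff_const.mul (hκ.comp (contDiff_id.const_smul _))

lemma Kr_fd {κ : ℂ → ℝ} (hκ : ContDiff ℝ ∞ κ) (r : ℝ) (s v : ℂ) :
    fderiv ℝ (Kr κ r) s v = -r⁻¹ * Kr (dk κ v) r s := by
  have h1 : HasFDerivAt (fun s : ℂ => (-r⁻¹) • s) ((-r⁻¹) • ContinuousLinearMap.id ℝ ℂ) s :=
    (hasFDerivAt_id s).const_smul (-r⁻¹)
  have h2 : HasFDerivAt κ (fderiv ℝ κ ((-r⁻¹) • s)) ((-r⁻¹) • s) :=
    (hκ.differentiable (by simp) _).hasFDerivAt
  have h3 := (h2.comp s h1).const_mul (|((r ^ 2 : ℝ))⁻¹|)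
  have h4 : HasFDerivAt (Kr κ r) (|((r ^ 2 : ℝ))⁻¹| • ((fderiv ℝ κ ((-r⁻¹) • s)).comp
    ((-r⁻¹) • ContinuousLinearMap.id ℝ ℂ))) s := h3
  rw [h4.fderiv]
  simp only [Kr, dk]
  simp
  ring

lemma Tk_sm {κ f : ℂ → ℝ} (hκ : ContDiff ℝ ∞ κ) (hκc : HasCompactSupport κ) (hf : CC f) {r : ℝ}
    (hr : r ≠ 0) : ContDiff ℝ ∞ (Tk κ r f) := by
  have e : Tk κ r f = f ⋆[ContinuousLinearMap.mul ℝ ℝ, volume] Kr κ r :=
    funext fun x => Tk_conv hr x
  rw [e]
  exact (Kr_CC ⟨hκ.continuous, hκc⟩ hr).2.contDiff_convolution_right (n := ⊤) _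
    hf.int.locallyIntegrable (Kr_sm hκ r)

lemma Tk_fd {κ f : ℂ → ℝ} (hκ : ContDiff ℝ ∞ κ) (hκc : HasCompactSupport κ) (hf : CC f) {r : ℝ}
    (hr : r ≠ 0) (x v : ℂ) : fderiv ℝ (Tk κ r f) x v = -r⁻¹ * Tk (dk κ v) r f x := by
  have e : Tk κ r f = f ⋆[ContinuousLinearMap.mul ℝ ℝ, volume] Kr κ r :=
    funext fun x => Tk_conv hr x
  have hc := Kr_CC ⟨hκ.continuous, hκc⟩ hr
  have h1 := hc.2.hasFDerivAt_convolution_right (ContinuousLinearMap.mul ℝ ℝ)
    hf.int.locallyIntegrable ((Kr_sm hκ r).of_le (by exact_mod_cast le_top)) x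
  rw [e, h1.fderiv, convolution_precompR_apply _ hf.int.locallyIntegrable
    (hc.2.fderiv (𝕜 := ℝ)) ((Kr_sm hκ r).continuous_fderiv (by simp)) x v]
  have e2 : (fun a => fderiv ℝ (Kr κ r) a v) = fun a => -r⁻¹ * Kr (dk κ v) r a :=
    funext fun a => Kr_fd hκ r a v
  rw [e2, Tk_conv hr]
  unfold convolution
  simp only [ContinuousLinearMap.mul_apply']
  rw [← integral_const_mul]
  congr 1; funext t
  ring

/-- the adjoint -/
lemma Tk_adj {κ f g : ℂ → ℝ} (hκ : CC κ) (hf : CC f) (hg : Continuous g) (r : ℝ) :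
    ∫ x, g x * Tk κ r f x = ∫ x, Tk κ (-r) g x * f x := by
  have cF : Continuous (fun p : ℂ × ℂ => g p.1 * (κ p.2 * f (p.1 + r • p.2))) :=
    (hg.comp continuous_fst).mul ((hκ.1.comp continuous_snd).mul
      (hf.1.comp (continuous_fst.add (continuous_snd.const_smul r))))
  have sF : HasCompactSupport (fun p : ℂ × ℂ => g p.1 * (κ p.2 * f (p.1 + r • p.2))) := by
    have hK : IsCompact ((fun q : ℂ × ℂ => (q.1 - r • q.2, q.2)) '' (tsupport f ×ˢ tsupport κ)) :=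
      (hf.2.prod hκ.2).image (by fun_prop)
    refine HasCompactSupport.intro hK fun p hp => ?_
    by_contra hne
    apply hp
    have h1 : κ p.2 ≠ 0 := fun h => hne (by simp [h])
    have h2 : f (p.1 + r • p.2) ≠ 0 := fun h => hne (by rw [h, mul_zero, mul_zero])
    exact ⟨(p.1 + r • p.2, p.2), ⟨subset_tsupport _ h2, subset_tsupport _ h1⟩, by simp⟩
  have iF : Integrable (fun p : ℂ × ℂ => g p.1 * (κ p.2 * f (p.1 + r • p.2)))
      ((volume : Measure ℂ).prod (volume : Measure ℂ)) := by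
    have := cF.integrable_of_hasCompactSupport (μ := (volume : Measure (ℂ × ℂ))) sF
    exact this
  have e1 : ∫ x, g x * Tk κ r f x = ∫ x, ∫ y, g x * (κ y * f (x + r • y)) := by
    congr 1; funext x
    unfold Tk
    rw [integral_const_mul]
  have e2 : ∀ y : ℂ, ∫ x, g x * (κ y * f (x + r • y)) =
      ∫ x, κ y * g (x + (-r) • y) * f x := by
    intro y
    have := integral_add_right_eq_self (μ := (volume : Measure ℂ))
      (fun x => κ y * g (x + (-r) • y) * f x) (r • y)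
    rw [← this]
    congr 1; funext x
    have e3 : x + r • y + (-r) • y = x := by rw [neg_smul]; abel
    rw [e3]; ring
  have iG : Integrable (fun p : ℂ × ℂ => κ p.1 * g (p.2 + (-r) • p.1) * f p.2)
      ((volume : Measure ℂ).prod (volume : Measure ℂ)) := by
    have cG : Continuous (fun p : ℂ × ℂ => κ p.1 * g (p.2 + (-r) • p.1) * f p.2) :=
      ((hκ.1.comp continuous_fst).mul (hg.comp (continuous_snd.add
        (continuous_fst.const_smul (-r))))).mul (hf.1.comp continuous_snd)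
    have sG : HasCompactSupport (fun p : ℂ × ℂ => κ p.1 * g (p.2 + (-r) • p.1) * f p.2) := by
      refine HasCompactSupport.intro (hκ.2.prod hf.2) fun p hp => ?_
      by_contra hne
      apply hp
      have h1 : κ p.1 ≠ 0 := fun h => hne (by simp [h])
      have h2 : f p.2 ≠ 0 := fun h => hne (by simp [h])
      exact ⟨subset_tsupport _ h1, subset_tsupport _ h2⟩
    exact cG.integrable_of_hasCompactSupport (μ := (volume : Measure (ℂ × ℂ))) sG
  rw [e1, integral_integral_swap iF]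
  simp only [e2]
  rw [integral_integral_swap iG]
  congr 1; funext x
  unfold Tk
  rw [integral_mul_const]

lemma Tk_mono {κ f g : ℂ → ℝ} (hκ : CC κ) (hκ0 : ∀ y, 0 ≤ κ y) (hf : Continuous f)
    (hg : Continuous g) (h : ∀ z, f z ≤ g z) (r : ℝ) (x : ℂ) : Tk κ r f x ≤ Tk κ r g x :=
  integral_mono (Tk_int hκ hf r x) (Tk_int hκ hg r x) fun y =>
    mul_le_mul_of_nonneg_left (h _) (hκ0 y)

lemma Tk_nn {κ f : ℂ → ℝ} (hκ0 : ∀ y, 0 ≤ κ y) (h : ∀ z, 0 ≤ f z) (r : ℝ) (x : ℂ) :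
    0 ≤ Tk κ r f x := integral_nonneg fun y => mul_nonneg (hκ0 y) (h _)

lemma Tk_abs {κ f : ℂ → ℝ} (r : ℝ) (x : ℂ) :
    |Tk κ r f x| ≤ Tk (fun y => |κ y|) r (fun z => |f z|) x := by
  refine (abs_integral_le_integral_abs).trans (le_of_eq ?_)
  unfold Tk
  congr 1; funext y
  exact abs_mul _ _

/-- Cauchy-Schwarz -/
lemma Tk_sq {κ f : ℂ → ℝ} (hκ : CC κ) (hκ0 : ∀ y, 0 ≤ κ y) (hf : Continuous f) (r : ℝ) (x : ℂ) :
    Tk κ r f x ^ 2 ≤ (∫ y, κ y) * Tk κ r (fun z => f z ^ 2) x := by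
  have h1 : ∀ t : ℝ, 0 ≤ (∫ y, κ y) * (t * t) + (-2 * Tk κ r f x) * t +
      Tk κ r (fun z => f z ^ 2) x := by
    intro t
    have h2 : 0 ≤ ∫ y, κ y * (f (x + r • y) - t) ^ 2 :=
      integral_nonneg fun y => mul_nonneg (hκ0 y) (sq_nonneg _)
    have h3 : ∫ y, κ y * (f (x + r • y) - t) ^ 2 = (∫ y, κ y) * (t * t) +
        (-2 * Tk κ r f x) * t + Tk κ r (fun z => f z ^ 2) x := by
      unfold Tk
      have i1 := hκ.int.mul_const (t * t)
      have i2 := ((Tk_int hκ hf r x).const_mul (-2)).mul_const t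
      have i3 : Integrable (fun y => κ y * (fun z => f z ^ 2) (x + r • y)) :=
        Tk_int hκ (hf.pow 2) r x
      have i12 : Integrable (fun y => κ y * (t * t) + -2 * (κ y * f (x + r • y)) * t) := i1.add i2
      rw [← integral_mul_const, ← integral_const_mul, ← integral_mul_const,
        ← integral_add i1 i2, ← integral_add i12 i3]
      congr 1; funext y
      ring
    rwa [h3] at h2
  have h4 := discrim_le_zero h1
  unfold discrim at h4
  nlinarith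

/-- the bound of the operator -/
lemma Tk_L2 {κ f : ℂ → ℝ} (hκ : CC κ) (hf : CC f) {r : ℝ} (hr : r ≠ 0) :
    ∫ x, Tk κ r f x ^ 2 ≤ (∫ y, |κ y|) ^ 2 * ∫ x, f x ^ 2 := by
  have hκ' := hκ.abs
  have a0 : 0 ≤ ∫ y, |κ y| := integral_nonneg fun y => abs_nonneg _
  have h1 : ∀ x, Tk κ r f x ^ 2 ≤ (∫ y, |κ y|) * Tk (fun y => |κ y|) r (fun z => f z ^ 2) x := by
    intro x
    have h2 := Tk_sq hκ' (fun y => abs_nonneg _) hf.1.abs r x
    simp only [sq_abs] at h2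
    refine le_trans ?_ h2
    rw [← sq_abs]
    exact pow_le_pow_left₀ (abs_nonneg _) (Tk_abs r x) 2
  have i1 := (Tk_CC hκ hf hr).sq.int
  have i2 := ((Tk_CC hκ' hf.sq hr).int.const_mul (∫ y, |κ y|))
  refine (integral_mono i1 i2 h1).trans (le_of_eq ?_)
  rw [integral_const_mul]
  have h3 := Tk_adj hκ' hf.sq (g := fun _ => 1) continuous_const r
  simp only [one_mul] at h3
  rw [h3]
  have h4 : ∀ x, Tk (fun y => |κ y|) (-r) (fun _ => 1) x = ∫ y, |κ y| := fun x => by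
    unfold Tk; simp
  simp only [h4]
  rw [integral_const_mul]
  ring

end

end Pool.Agent.TH294.RG
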