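import Pool.Agent.TH294.RG.Ms2

/-!
Project RG (helper294): averages at a given scale, the quadratic identity.
-/

set_option autoImplicit false
open MeasureTheory Filter Topology Complex
open scoped ContDiff

namespace Pool.Agent.TH294.RG

open Pool.Agent.W745.RW Pool.Agent.TH294.RS

noncomputable section

/-- averaging kernels -/
structure KP (k : ℂ → ℝ) (R : ℝ) : Prop where
  sm : ContDiff ℝ ∞ k
  cs : HasCompactSupport k
  nn : ∀ y, 0 ≤ k y
  one : ∫ y, k y = 1
  R0 : 0 ≤ R
  sp : ∀ y, k y ≠ 0 → ‖y‖ ≤ R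

lemma KP.cc {k : ℂ → ℝ} {R : ℝ} (H : KP k R) : CC k := ⟨H.sm.continuous, H.cs⟩

lemma KP.abs {k : ℂ → ℝ} {R : ℝ} (H : KP k R) : ∫ y, |k y| = 1 := by
  rw [← H.one]; congr 1; funext y; exact abs_of_nonneg (H.nn y)

/-- the commutator -/
lemma Tk_com {k φ F : ℂ → ℝ} {R : ℝ} (H : KP k R) {L : NNReal} (hL : LipschitzWith L φ)
    (hF : Continuous F) (r : ℝ) (x : ℂ) :
    |Tk k r (fun z => φ z * F z) x - φ x * Tk k r F x| ≤
      (L * |r| * R) * Tk k r (fun z => |F z|) x := by
  have hφ : Continuous φ := hL.continuous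
  have i1 := Tk_int H.cc (hφ.mul hF) r x
  have i2 := (Tk_int H.cc hF r x).const_mul (φ x)
  have e1 : Tk k r (fun z => φ z * F z) x - φ x * Tk k r F x =
      ∫ y, k y * ((φ (x + r • y) - φ x) * F (x + r • y)) := by
    unfold Tk
    have i1' : Integrable (fun y => k y * (fun z => φ z * F z) (x + r • y)) := i1
    rw [← integral_const_mul, ← integral_sub i1' i2]
    congr 1; funext y
    ring
  rw [e1]
  refine (abs_integral_le_integral_abs).trans ?_
  unfold Tk
  rw [← integral_const_mul]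
  have c1 : Continuous (fun y : ℂ => x + r • y) :=
    continuous_const.add (continuous_id.const_smul r)
  have i3 : Integrable (fun y => |k y * ((φ (x + r • y) - φ x) * F (x + r • y))|) :=
    (H.cc.mul (((hφ.comp c1).sub continuous_const).mul (hF.comp c1))).abs.int
  refine integral_mono i3 ((Tk_int H.cc hF.abs r x).const_mul _) fun y => ?_
  beta_reduce
  by_cases hy : k y = 0
  · simp [hy]
  · have h1 : |φ (x + r • y) - φ x| ≤ L * |r| * R := by
      have h2 := hL.dist_le_mul (x + r • y) x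
      rw [Real.dist_eq, dist_eq_norm, add_sub_cancel_left, norm_smul, Real.norm_eq_abs] at h2
      refine h2.trans ?_
      rw [mul_assoc]
      exact mul_le_mul_of_nonneg_left (mul_le_mul_of_nonneg_left (H.sp y hy) (abs_nonneg _))
        L.coe_nonneg
    rw [abs_mul, abs_mul, abs_of_nonneg (H.nn y)]
    have h3 := mul_le_mul_of_nonneg_right h1 (abs_nonneg (F (x + r • y)))
    have h4 := mul_le_mul_of_nonneg_left h3 (H.nn y)
    refine h4.trans (le_of_eq ?_)
    ring

lemma Tk_one {k : ℂ → ℝ} {R : ℝ} (H : KP k R) (r : ℝ) (x : ℂ) : Tk k r (fun _ => 1) x = 1 := by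
  unfold Tk; simp [H.one]

lemma Tk_near {k φ : ℂ → ℝ} {R : ℝ} (H : KP k R) {L : NNReal} (hL : LipschitzWith L φ)
    (r : ℝ) (x : ℂ) : |Tk k r φ x - φ x| ≤ L * |r| * R := by
  have h1 := Tk_com H hL (F := fun _ => 1) continuous_const r x
  simp only [mul_one, abs_one, Tk_one H] at h1
  exact h1

/-- the quadratic identity -/
lemma Tk_quad {k φ F : ℂ → ℝ} {R : ℝ} (H : KP k R) {L : NNReal} (hL : LipschitzWith L φ)
    (hF : CC F) {r : ℝ} (hr : 0 < r) :
    |(∫ x, φ x * (F x * Tk k (-r) (Tk k r F) x)) - ∫ x, φ x * Tk k r F x ^ 2| ≤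
      (L * r * R) * ∫ x, F x ^ 2 := by
  have hφ : Continuous φ := hL.continuous
  have hr0 : r ≠ 0 := hr.ne'
  have cA := Tk_CC H.cc hF hr0
  have cB := Tk_CC H.cc hF.abs hr0
  have cφF : CC (fun z => φ z * F z) := CC.lmul hφ hF
  have cC := Tk_CC H.cc cφF hr0
  have e1 := Tk_adj H.cc cA cφF.1 (-r)
  rw [neg_neg] at e1
  have e2 : ∫ x, φ x * (F x * Tk k (-r) (Tk k r F) x) =
      ∫ x, φ x * F x * Tk k (-r) (Tk k r F) x := by
    congr 1; funext x; ring
  have i1 := (cC.mul cA.1).int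
  have i2 := (CC.lmul hφ cA.sq).int
  rw [e2, e1, ← integral_sub i1 i2]
  refine (abs_integral_le_integral_abs).trans ?_
  have b1 : ∀ x, |Tk k r (fun z => φ z * F z) x * Tk k r F x - φ x * Tk k r F x ^ 2| ≤
      (L * r * R) * Tk k r (fun z => |F z|) x ^ 2 := by
    intro x
    have h1 := Tk_com H hL hF.1 r x
    rw [abs_of_pos hr] at h1
    have h2 : |Tk k r F x| ≤ Tk k r (fun z => |F z|) x := by
      refine (Tk_abs r x).trans (le_of_eq ?_)
      unfold Tk
      congr 1; funext y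
      beta_reduce
      rw [abs_of_nonneg (H.nn y)]
    have h0 : 0 ≤ Tk k r (fun z => |F z|) x := Tk_nn H.nn (fun z => abs_nonneg _) r x
    have e3 : Tk k r (fun z => φ z * F z) x * Tk k r F x - φ x * Tk k r F x ^ 2 =
        (Tk k r (fun z => φ z * F z) x - φ x * Tk k r F x) * Tk k r F x := by ring
    rw [e3, abs_mul]
    refine (mul_le_mul h1 h2 (abs_nonneg _) (mul_nonneg ?_ h0)).trans (le_of_eq (by ring))
    exact mul_nonneg (mul_nonneg L.coe_nonneg hr.le) H.R0
  refine (integral_mono (i1.sub i2).abs (cB.sq.int.const_mul _) b1).trans ?_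
  rw [integral_const_mul]
  refine mul_le_mul_of_nonneg_left ?_ (mul_nonneg (mul_nonneg L.coe_nonneg hr.le) H.R0)
  have h5 := Tk_L2 H.cc hF.abs hr0
  rw [H.abs, one_pow, one_mul] at h5
  simp only [sq_abs] at h5
  exact h5

/-- the second average -/
lemma Tk_second {k φ F : ℂ → ℝ} {R : ℝ} (H : KP k R) {L : NNReal} (hL : LipschitzWith L φ)
    (hφ0 : ∀ z, 0 ≤ φ z) (hF : CC F) {r : ℝ} (hr : 0 < r) :
    ∫ x, φ x * Tk k (-r) (Tk k r F) x ^ 2 ≤
      (∫ x, φ x * Tk k r F x ^ 2) + (L * r * R) * ∫ x, F x ^ 2 := by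
  have hφ : Continuous φ := hL.continuous
  have hr0 : r ≠ 0 := hr.ne'
  have cA := Tk_CC H.cc hF hr0
  have cG := Tk_CC H.cc cA (neg_ne_zero.2 hr0)
  have cA2 := Tk_CC H.cc cA.sq (neg_ne_zero.2 hr0)
  have s0 : 0 ≤ L * r * R := mul_nonneg (mul_nonneg L.coe_nonneg hr.le) H.R0
  have h1 : ∫ x, φ x * Tk k (-r) (Tk k r F) x ^ 2 ≤
      ∫ x, φ x * Tk k (-r) (fun z => Tk k r F z ^ 2) x := by
    refine integral_mono (CC.lmul hφ cG.sq).int (CC.lmul hφ cA2).int fun x => ?_
    have h2 := Tk_sq H.cc H.nn cA.1 (-r) x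
    rw [H.one, one_mul] at h2
    exact mul_le_mul_of_nonneg_left h2 (hφ0 x)
  have e1 := Tk_adj H.cc cA.sq hφ (-r)
  rw [neg_neg] at e1
  have h3 : ∫ x, Tk k r φ x * Tk k r F x ^ 2 ≤
      ∫ x, (φ x * Tk k r F x ^ 2 + (L * r * R) * Tk k r F x ^ 2) := by
    have i1 : Integrable (fun x => Tk k r φ x * Tk k r F x ^ 2) := by
      have c2 : Continuous (Tk k r φ) := by
        have : ∀ x, Tk k r φ x = ∫ y, k y * φ (x + r • y) := fun x => rfl
        refine LipschitzWith.continuous (K := L) ?_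
        refine LipschitzWith.of_dist_le_mul fun x x' => ?_
        rw [Real.dist_eq, this, this, ← integral_sub (Tk_int H.cc hφ r x)
          (Tk_int H.cc hφ r x')]
        refine (abs_integral_le_integral_abs).trans ?_
        have : ∫ y, k y * (L * dist x x') = L * dist x x' := by
          rw [integral_mul_const, H.one, one_mul]
        rw [← this]
        refine integral_mono ((Tk_int H.cc hφ r x).sub (Tk_int H.cc hφ r x')).abs
          (H.cc.int.mul_const _) fun y => ?_
        have h6 := hL.dist_le_mul (x + r • y) (x' + r • y)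
        rw [Real.dist_eq, dist_add_right] at h6
        simp only [Pi.sub_apply]
        rw [← mul_sub, abs_mul, abs_of_nonneg (H.nn y)]
        exact mul_le_mul_of_nonneg_left h6 (H.nn y)
      exact (CC.lmul c2 cA.sq).int
    refine integral_mono i1 ((CC.lmul hφ cA.sq).int.add (cA.sq.int.const_mul _)) fun x => ?_
    have h4 := (abs_le.1 (Tk_near H hL r x)).2
    rw [abs_of_pos hr] at h4
    simp only [Pi.add_apply]
    rw [← add_mul]
    exact mul_le_mul_of_nonneg_right (by linarith) (sq_nonneg _)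
  rw [integral_add (CC.lmul hφ cA.sq).int (cA.sq.int.const_mul _), integral_const_mul] at h3
  have h5 := Tk_L2 H.cc hF hr0
  rw [H.abs, one_pow, one_mul] at h5
  rw [e1] at h1
  have h6 := mul_le_mul_of_nonneg_left h5 s0
  linarith

/-- the final computation -/
lemma fin_alg {v e s ε δ C x : ℝ} (hv : 0 ≤ v) (hvC : v ≤ C) (he : 0 ≤ e) (heC : e ≤ C)
    (hs : |x - v| ≤ s) (hx : x ^ 2 ≤ e * (v + s) + ε) (hδ : 0 < δ)
    (hb : 3 * (C * s) + ε < δ ^ 2) : v ≤ e + δ := by
  by_contra hc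
  have h1 : e + δ < v := not_lt.1 (fun h => hc (by linarith)) |>.lt_of_ne (by
    intro h; exact hc (by linarith))
  have s0 : 0 ≤ s := (abs_nonneg _).trans hs
  have h2 : v ^ 2 - 2 * (v * s) ≤ x ^ 2 := by
    have h3 := (abs_le.1 hs).1
    nlinarith [sq_nonneg (x - v), mul_le_mul_of_nonneg_left h3 hv]
  have h4 : v * s ≤ C * s := mul_le_mul_of_nonneg_right hvC s0
  have h5 : e * s ≤ C * s := mul_le_mul_of_nonneg_right heC s0
  have h6 : v * (e + δ) ≤ v * v := mul_le_mul_of_nonneg_left h1.le hv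
  have h7 : δ * δ ≤ v * δ := mul_le_mul_of_nonneg_right (by linarith) hδ.le
  nlinarith

end

end Pool.Agent.TH294.RG
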