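import Pool.Agent.TH294.RG.Ms3
import Pool.Agent.TH294.RG.Fam

/-!
Project RG (helper294): the mass at scales above the wavelength, preparations.
-/

set_option autoImplicit false
open MeasureTheory Filter Topology Complex ProbabilityTheory
open scoped ContDiff

namespace Pool.Agent.TH294.RG

open Pool.Agent.W745.RW Pool.Agent.TH294.RS

noncomputable section

variable {m : ℂ → ℝ} {ν : Kernel ℂ ℝ}

/-- averages are bounded in `L²` -/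
lemma Tk_LB {κ : ℂ → ℝ} (hκ : ContDiff ℝ ∞ κ) (hκc : HasCompactSupport κ) {f : ℕ → ℂ → ℝ}
    (hf : ∀ n, CC (f n)) {c r : ℕ → ℝ} (r0 : ∀ n, r n ≠ 0) {C : ℝ}
    (hC : ∀ n, c n ^ 4 * ∫ z, f n z ^ 2 ≤ C) (B : Set ℂ) :
    LB B 2 (fun n z => ((c n ^ 2 * Tk κ (r n) (f n) z : ℝ) : ℂ)) := by
  have sm : ∀ n, ContDiff ℝ ∞ (fun z => c n ^ 2 * Tk κ (r n) (f n) z) := fun n =>
    contDiff_const.mul (Tk_sm hκ hκc (hf n) (r0 n))
  refine ⟨fun n => (ofRealCLM.contDiff.comp (sm n)).contDiffOn, fun K' _ _ =>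
    ⟨(∫ y, |κ y|) ^ 2 * C, Eventually.of_forall fun n => ?_⟩⟩
  have cc : CC (fun z => c n ^ 2 * Tk κ (r n) (f n) z) :=
    CC.lmul continuous_const (Tk_CC ⟨hκ.continuous, hκc⟩ (hf n) (r0 n))
  have e1 : ∀ z, ‖((c n ^ 2 * Tk κ (r n) (f n) z : ℝ) : ℂ)‖ ^ 2 =
      (c n ^ 2 * Tk κ (r n) (f n) z) ^ 2 := fun z => by
    rw [norm_real, Real.norm_eq_abs, sq_abs]
  simp only [e1]
  have h1 : ∫ z in K', (c n ^ 2 * Tk κ (r n) (f n) z) ^ 2 ≤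
      ∫ z, (c n ^ 2 * Tk κ (r n) (f n) z) ^ 2 :=
    setIntegral_le_integral cc.sq.int (ae_of_all _ fun z => sq_nonneg _)
  have h2 : ∫ z, (c n ^ 2 * Tk κ (r n) (f n) z) ^ 2 = c n ^ 4 * ∫ z, Tk κ (r n) (f n) z ^ 2 := by
    rw [← integral_const_mul]
    congr 1; funext z; ring
  have h3 := Tk_L2 ⟨hκ.continuous, hκc⟩ (hf n) (r0 n)
  rw [h2] at h1
  have c4 : 0 ≤ c n ^ 4 := by positivity
  have h4 := mul_le_mul_of_nonneg_left h3 c4
  have h5 := mul_le_mul_of_nonneg_left (hC n) (sq_nonneg (∫ y, |κ y|))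
  refine h1.trans (h4.trans (le_trans (le_of_eq ?_) h5))
  ring

/-- averages at scales above the wavelength vary slowly -/
lemma Tk_SL {k : ℂ → ℝ} {R : ℝ} (hk : KP k R) {f : ℕ → ℂ → ℝ}
    (hf : ∀ n, CC (f n)) {c r : ℕ → ℝ} (r0 : ∀ n, r n ≠ 0) {C : ℝ}
    (hC : ∀ n, c n ^ 4 * ∫ z, f n z ^ 2 ≤ C) {B : Set ℂ} {a : ℂ → ℝ}
    (ha : ContDiffOn ℝ ∞ a B) {h : ℕ → ℝ} (hr : Tendsto (fun n => h n / r n) atTop (𝓝 0)) :
    SL B a h (fun n z => ((c n ^ 2 * Tk k (r n) (f n) z : ℝ) : ℂ)) := by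
  have l0 := Tk_LB hk.sm hk.cs hf r0 hC B
  have l1 := Tk_LB (dk_sm hk.sm 1) (dk_cs hk.cs 1) hf r0 hC B
  have l2 := Tk_LB (dk_sm hk.sm I) (dk_cs hk.cs I) hf r0 hC B
  refine ⟨l0, fun n => h n / r n, fun n z => -((a z : ℂ) *
    (((c n ^ 2 * Tk (dk k 1) (r n) (f n) z : ℝ) : ℂ) +
      (-I) * ((c n ^ 2 * Tk (dk k I) (r n) (f n) z : ℝ) : ℂ))), hr,
    ((l1.add (l2.cmul (-I))).smulc (cxa ha)).neg, fun n z _ => ?_⟩
  have sm : ContDiff ℝ ∞ (fun z => c n ^ 2 * Tk k (r n) (f n) z) :=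
    contDiff_const.mul (Tk_sm hk.sm hk.cs (hf n) (r0 n))
  have fd : ∀ v : ℂ, fderiv ℝ (fun z => ((c n ^ 2 * Tk k (r n) (f n) z : ℝ) : ℂ)) z v =
      ((-(r n)⁻¹ * (c n ^ 2 * Tk (dk k v) (r n) (f n) z) : ℝ) : ℂ) := by
    intro v
    have h1 : DifferentiableAt ℝ (Tk k (r n) (f n)) z :=
      (Tk_sm hk.sm hk.cs (hf n) (r0 n)).differentiable (by simp) z
    have h2 := (h1.hasFDerivAt.const_mul (c n ^ 2))
    have h3 := (ofRealCLM.hasFDerivAt).comp z h2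
    have h4 : HasFDerivAt (fun z => ((c n ^ 2 * Tk k (r n) (f n) z : ℝ) : ℂ))
      (ofRealCLM.comp (c n ^ 2 • fderiv ℝ (Tk k (r n) (f n)) z)) z := h3
    rw [h4.fderiv]
    have h5 := Tk_fd hk.sm hk.cs (hf n) (r0 n) z v
    show (((c n ^ 2 • fderiv ℝ (Tk k (r n) (f n)) z) v : ℝ) : ℂ) = _
    have h6 : (c n ^ 2 • fderiv ℝ (Tk k (r n) (f n)) z) v =
      c n ^ 2 * (fderiv ℝ (Tk k (r n) (f n)) z v) := rfl
    rw [h6, h5]
    congr 1; ring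
  have e1 := fd 1
  have e2 := fd I
  simp only [DP, dd, dx, dy]
  rw [e1, e2]
  push_cast
  ring

/-- the size of the cut off density -/
lemma F_size {Ω : Set ℂ} (hms : ContinuousOn m Ω) {u : ℕ → ℂ → ℝ}
    (hu : ∀ n, ContinuousOn (u n) Ω) {K : Set ℂ} (hK : IsCompact K) (hKΩ : K ⊆ Ω) {χ : ℂ → ℝ}
    (hχ : TF (interior K) χ) (h0 : ∀ z, 0 ≤ χ z) (h1 : ∀ z, χ z ≤ 1) :
    ∃ C : ℝ, 0 ≤ C ∧ ∀ n, CC (fun z => χ z * (u n z ^ 2 - m z)) →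
      ∫ z, (χ z * (u n z ^ 2 - m z)) ^ 2 ≤ C * (1 + ∫ z in K, u n z ^ 4) := by
  have cm : ContinuousOn m K := hms.mono hKΩ
  have m0 : 0 ≤ ∫ z in K, m z ^ 2 := integral_nonneg fun z => sq_nonneg _
  refine ⟨2 + 2 * ∫ z in K, m z ^ 2, by linarith, fun n hc => ?_⟩
  have cu : ContinuousOn (fun z => u n z ^ 4) K := ((hu n).mono hKΩ).pow 4
  have T0 : 0 ≤ ∫ z in K, u n z ^ 4 := integral_nonneg fun z => by positivity
  have e1 : ∫ z, (χ z * (u n z ^ 2 - m z)) ^ 2 ≤ ∫ z in K, (2 * u n z ^ 4 + 2 * m z ^ 2) := by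
    rw [← integral_indicator hK.measurableSet]
    have i3 : IntegrableOn (fun z => 2 * u n z ^ 4 + 2 * m z ^ 2) K :=
      ((continuousOn_const.mul cu).add (continuousOn_const.mul (cm.pow 2))).integrableOn_compact hK
    refine integral_mono hc.sq.int ((integrable_indicator_iff hK.measurableSet).2 i3) fun z => ?_
    by_cases hz : z ∈ K
    · rw [Set.indicator_of_mem hz]
      beta_reduce
      rw [mul_pow]
      have h2 : χ z ^ 2 ≤ 1 := pow_le_one₀ (h0 z) (h1 z)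
      have h3 : (u n z ^ 2 - m z) ^ 2 ≤ 2 * u n z ^ 4 + 2 * m z ^ 2 := by
        nlinarith [sq_nonneg (u n z ^ 2 + m z)]
      exact (mul_le_of_le_one_left (sq_nonneg _) h2).trans h3
    · rw [Set.indicator_of_notMem hz]
      beta_reduce
      rw [TF.zero hχ (fun h => hz (interior_subset h))]
      simp
  refine e1.trans ?_
  have i1 : IntegrableOn (fun z => 2 * u n z ^ 4) K :=
    (continuousOn_const.mul cu).integrableOn_compact hK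
  have i2 : IntegrableOn (fun z => 2 * m z ^ 2) K :=
    (continuousOn_const.mul (cm.pow 2)).integrableOn_compact hK
  rw [integral_add i1 i2, integral_const_mul, integral_const_mul]
  nlinarith [mul_nonneg m0 T0]

/-- the excess is almost nonnegative -/
lemma exc_low [IsMarkovKernel ν] {Ω : Set ℂ}
    (hm : ∀ K : Set ℂ, IsCompact K → K ⊆ Ω → MemLp m 2 (volume.restrict K))
    (hp : ∀ᵐ z ∂(volume.restrict Ω), par ea (ν z) = 0) {a : ℂ → ℝ} {h : ℕ → ℝ} {u : ℕ → ℂ → ℝ}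
    (H : RawG Ω a h u (MM m ea ν)) {K : Set ℂ} (hK : IsCompact K) (hKΩ : K ⊆ Ω)
    {φ : ℂ → ℝ} (hφ : TF (interior K) φ) (hφ0 : ∀ z, 0 ≤ φ z) {ε : ℝ} (hε : 0 < ε) :
    ∀ᶠ n in atTop, 0 ≤ (∫ z, φ z * u n z ^ 4) - 3 * (∫ z, φ z * m z ^ 2) +
      ε * (1 + ∫ z in K, u n z ^ 4) := by
  have key := fam_rel hm hp H hK hKΩ hφ hφ0 (∅ : Finset ℕ) (fun _ => 0)
    (fun _ => ((0 : ℤ), (0 : ℤ), (0 : ℤ), (0 : ℤ))) (C := 1) (by simp) hε
  refine key.mono fun n hn => ?_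
  simp only [Finset.sum_empty, sub_zero, norm_zero, one_mul] at hn
  exact hn

end

end Pool.Agent.TH294.RG
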