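import Pool.Agent.TH294.RG.Ms4

/-!
Project RG (helper294): the mass at scales above the wavelength.
-/

set_option autoImplicit false
open MeasureTheory Filter Topology Complex ProbabilityTheory
open scoped ContDiff

namespace Pool.Agent.TH294.RG

open Pool.Agent.W745.RW Pool.Agent.TH294.RS

noncomputable section

variable {m : ℂ → ℝ} {ν : Kernel ℂ ℝ}

/-- **The mass at scales above the wavelength.** -/
theorem meso [IsMarkovKernel ν] {Ω : Set ℂ}
    (hm : ∀ K : Set ℂ, IsCompact K → K ⊆ Ω → MemLp m 2 (volume.restrict K))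
    (hms : ContDiffOn ℝ ∞ m Ω)
    (hp : ∀ᵐ z ∂(volume.restrict Ω), par ea (ν z) = 0) {a : ℂ → ℝ} {h : ℕ → ℝ} {u : ℕ → ℂ → ℝ}
    (H : RawG Ω a h u (MM m ea ν)) {K : Set ℂ} (hK : IsCompact K) (hKΩ : K ⊆ Ω)
    {k : ℂ → ℝ} {R : ℝ} (hk : KP k R) {r : ℕ → ℝ} (r0 : ∀ n, 0 < r n)
    (rl : Tendsto r atTop (𝓝 0)) (hr : Tendsto (fun n => h n / r n) atTop (𝓝 0))
    {φ : ℂ → ℝ} (hφ : TF (interior K) φ) (hφ0 : ∀ z, 0 ≤ φ z) {ε : ℝ} (hε : 0 < ε) :
    ∀ᶠ n in atTop, ∫ z, φ z * (∫ y, k y * (u n (z + r n • y) ^ 2 - m (z + r n • y))) ^ 2 ≤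
      2 / 3 * ((∫ z, φ z * u n z ^ 4) - 3 * ∫ z, φ z * m z ^ 2) +
        ε * (1 + ∫ z in K, u n z ^ 4) := by
  have hB : IsOpen (interior K) := isOpen_interior
  have hBΩ : interior K ⊆ Ω := interior_subset.trans hKΩ
  obtain ⟨S, hS⟩ : ∃ S : Set ℂ, S = tsupport φ := ⟨_, rfl⟩
  have cS : IsCompact S := by rw [hS]; exact hφ.2.1
  obtain ⟨δ, hδ, hδB⟩ := cS.exists_cthickening_subset_open hB (by rw [hS]; exact hφ.2.2)
  have cK1 : IsCompact (Metric.cthickening δ S) := cS.cthickening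
  obtain ⟨χ, hχ, hχ1, χ0, χ1⟩ := exists_cut hB cK1 hδB
  obtain ⟨L, hL⟩ : ∃ L : NNReal, LipschitzWith L φ :=
    (hφ.1.of_le (by exact_mod_cast le_top : (1 : WithTop ℕ∞) ≤ ∞)).lipschitzWith_of_hasCompactSupport
      hφ.2.1 one_ne_zero
  obtain ⟨Mφ, hMφ⟩ := hφ.2.1.exists_bound_of_continuousOn hφ.1.continuous.continuousOn
  have hφM : ∀ z, φ z ≤ |Mφ| := by
    intro z
    by_cases hz : z ∈ tsupport φ
    · exact (le_abs_self _).trans ((hMφ z hz).trans (le_abs_self _))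
    · rw [image_eq_zero_of_notMem_tsupport hz]; exact abs_nonneg _
  have M0 : 0 ≤ |Mφ| := abs_nonneg _
  -- the density
  obtain ⟨F, hF⟩ : ∃ F : ℕ → ℂ → ℝ, F = fun n z => χ z * (u n z ^ 2 - m z) := ⟨_, rfl⟩
  have cF : ∀ n, CC (F n) := by
    intro n
    rw [hF]
    have := TF.mulc hB hχ (a := fun z => u n z ^ 2 - m z)
      ((((H.sm n).mono hBΩ).pow 2).sub (hms.mono hBΩ))
    exact ⟨this.1.continuous, this.2.1⟩
  obtain ⟨C1, C10, hC1⟩ := F_size hms.continuousOn (fun n => (H.sm n).continuousOn) hK hKΩ hχ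
    χ0 χ1
  obtain ⟨T, hT⟩ : ∃ T : ℕ → ℝ, T = fun n => 1 + ∫ z in K, u n z ^ 4 := ⟨_, rfl⟩
  have T1 : ∀ n, 1 ≤ T n := fun n => by rw [hT]; exact T_one u K n
  have Tp : ∀ n, 0 < T n := fun n => by linarith [T1 n]
  obtain ⟨c, cpos, cle, c4⟩ := exists_c T1
  have hF2 : ∀ n, ∫ z, F n z ^ 2 ≤ C1 * T n := by
    intro n
    have := cF n
    rw [hF] at this ⊢
    rw [hT]
    exact hC1 n this
  -- the averages
  obtain ⟨A, hA⟩ : ∃ A : ℕ → ℂ → ℝ, A = fun n => Tk k (r n) (F n) := ⟨_, rfl⟩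
  obtain ⟨G, hG⟩ : ∃ G : ℕ → ℂ → ℝ, G = fun n => Tk k (-r n) (A n) := ⟨_, rfl⟩
  have cA : ∀ n, CC (A n) := fun n => by rw [hA]; exact Tk_CC hk.cc (cF n) (r0 n).ne'
  have cG : ∀ n, CC (G n) := fun n => by
    rw [hG]; exact Tk_CC hk.cc (cA n) (neg_ne_zero.2 (r0 n).ne')
  have hA2 : ∀ n, ∫ z, A n z ^ 2 ≤ C1 * T n := by
    intro n
    have h1 := Tk_L2 hk.cc (cF n) (r0 n).ne'
    rw [hk.abs, one_pow, one_mul] at h1
    rw [hA]
    exact h1.trans (hF2 n)
  have hsl : SL (interior K) a h (fun n z => ((c n ^ 2 * Tk k (-r n) (A n) z : ℝ) : ℂ)) := by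
    refine Tk_SL hk cA (r := fun n => -r n) (fun n => neg_ne_zero.2 (r0 n).ne') (C := C1)
      (fun n => ?_) (H.sa.mono hBΩ) ?_
    · rw [c4, inv_mul_le_iff₀ (Tp n), mul_comm (T n)]
      exact hA2 n
    · have := hr.neg
      rw [neg_zero] at this
      refine this.congr fun n => ?_
      rw [div_neg]
  -- quantities
  obtain ⟨V, hV⟩ : ∃ V : ℕ → ℝ, V = fun n => ∫ z, φ z * A n z ^ 2 := ⟨_, rfl⟩
  obtain ⟨X, hX⟩ : ∃ X : ℕ → ℝ, X = fun n => ∫ z, φ z * (F n z * G n z) := ⟨_, rfl⟩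
  obtain ⟨W, hW⟩ : ∃ W : ℕ → ℝ, W = fun n => ∫ z, φ z * G n z ^ 2 := ⟨_, rfl⟩
  obtain ⟨E, hE⟩ : ∃ E : ℕ → ℝ, E = fun n => (∫ z, φ z * u n z ^ 4) - 3 * ∫ z, φ z * m z ^ 2 :=
    ⟨_, rfl⟩
  have V0 : ∀ n, 0 ≤ V n := fun n => by
    rw [hV]; exact integral_nonneg fun z => mul_nonneg (hφ0 z) (sq_nonneg _)
  have W0 : ∀ n, 0 ≤ W n := fun n => by
    rw [hW]; exact integral_nonneg fun z => mul_nonneg (hφ0 z) (sq_nonneg _)
  have VC : ∀ n, V n ≤ |Mφ| * C1 * T n := by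
    intro n
    rw [hV]
    have h1 : ∫ z, φ z * A n z ^ 2 ≤ ∫ z, |Mφ| * A n z ^ 2 :=
      integral_mono (CC.lmul hφ.1.continuous (cA n).sq).int ((cA n).sq.int.const_mul _) fun z =>
        mul_le_mul_of_nonneg_right (hφM z) (sq_nonneg _)
    rw [integral_const_mul] at h1
    refine h1.trans ?_
    rw [mul_assoc]
    exact mul_le_mul_of_nonneg_left (hA2 n) M0
  have XV : ∀ n, |X n - V n| ≤ (L * r n * R) * (C1 * T n) := by
    intro n
    have h1 := Tk_quad hk hL (cF n) (r0 n)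
    rw [hX, hV, hG, hA]
    refine h1.trans (mul_le_mul_of_nonneg_left (hF2 n) ?_)
    exact mul_nonneg (mul_nonneg L.coe_nonneg (r0 n).le) hk.R0
  have WV : ∀ n, W n ≤ V n + (L * r n * R) * (C1 * T n) := by
    intro n
    have h1 := Tk_second hk hL hφ0 (cF n) (r0 n)
    rw [hW, hV, hG, hA]
    refine h1.trans (add_le_add le_rfl (mul_le_mul_of_nonneg_left (hF2 n) ?_))
    exact mul_nonneg (mul_nonneg L.coe_nonneg (r0 n).le) hk.R0
  have EC : ∀ n, E n ≤ |Mφ| * T n := by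
    intro n
    rw [hE]
    have cu : ContinuousOn (fun z => u n z ^ 4) K := ((H.sm n).continuousOn.mono hKΩ).pow 4
    have i4 : Integrable (fun z => φ z * u n z ^ 4) :=
      Pool.Agent.W311.RW.int_mul hB hφ (((H.sm n).continuousOn.mono hBΩ).pow 4)
    have e3 : ∫ z, φ z * u n z ^ 4 ≤ |Mφ| * ∫ z in K, u n z ^ 4 := by
      rw [← integral_const_mul, ← integral_indicator hK.measurableSet]
      have i3 : IntegrableOn (fun z => |Mφ| * u n z ^ 4) K :=
        (continuousOn_const.mul cu).integrableOn_compact hK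
      refine integral_mono i4 ((integrable_indicator_iff hK.measurableSet).2 i3) fun z => ?_
      by_cases hz : z ∈ K
      · rw [Set.indicator_of_mem hz]
        exact mul_le_mul_of_nonneg_right (hφM z) (by positivity)
      · rw [Set.indicator_of_notMem hz]
        show φ z * _ ≤ 0
        rw [TF.zero hφ (fun h => hz (interior_subset h)), zero_mul]
    have m0 : 0 ≤ ∫ z, φ z * m z ^ 2 :=
      integral_nonneg fun z => mul_nonneg (hφ0 z) (sq_nonneg _)
    have e4 : |Mφ| * ∫ z in K, u n z ^ 4 ≤ |Mφ| * T n := by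
      refine mul_le_mul_of_nonneg_left ?_ M0
      rw [hT]; simp
    have : (fun n => (∫ z, φ z * u n z ^ 4) - 3 * ∫ z, φ z * m z ^ 2) n =
      (∫ z, φ z * u n z ^ 4) - 3 * ∫ z, φ z * m z ^ 2 := rfl
    rw [this]
    linarith
  -- the inequality for the slow multiplier
  have key : ∀ ε' : ℝ, 0 < ε' → ∀ᶠ n in atTop, X n ^ 2 ≤ 2 / 3 * E n * W n + ε' * T n ^ 2 := by
    intro ε' hε'
    refine (slow_mult hm hms hp H hK hKΩ hsl hφ hφ0 hε').mono fun n hn => ?_
    have e1 : ∫ z, (φ z : ℂ) * (((u n z : ℂ) ^ 2 - (m z : ℂ)) *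
        ((c n ^ 2 * Tk k (-r n) (A n) z : ℝ) : ℂ)) = ((c n ^ 2 * X n : ℝ) : ℂ) := by
      rw [hX]
      have : (fun n => ∫ z, φ z * (F n z * G n z)) n = ∫ z, φ z * (F n z * G n z) := rfl
      rw [this, ← integral_const_mul, ← integral_complex_ofReal]
      congr 1; funext z
      by_cases hz : z ∈ S
      · have h1 : χ z = 1 := hχ1 z (Metric.self_subset_cthickening S hz)
        rw [hF, hG]
        simp only [h1]
        push_cast; ring
      · rw [hS] at hz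
        rw [image_eq_zero_of_notMem_tsupport hz]
        simp
    have e2 : ∫ z, φ z * ‖((c n ^ 2 * Tk k (-r n) (A n) z : ℝ) : ℂ)‖ ^ 2 = c n ^ 4 * W n := by
      rw [hW]
      have : (fun n => ∫ z, φ z * G n z ^ 2) n = ∫ z, φ z * G n z ^ 2 := rfl
      rw [this, ← integral_const_mul]
      congr 1; funext z
      rw [norm_real, Real.norm_eq_abs, sq_abs, hG]
      ring
    have hTn : T n = 1 + ∫ z in K, u n z ^ 4 := by rw [hT]
    have hEn : E n = (∫ z, φ z * u n z ^ 4) - 3 * ∫ z, φ z * m z ^ 2 := by rw [hE]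
    rw [e1, e2, norm_real, Real.norm_eq_abs, sq_abs, ← hTn, ← hEn, mul_pow, ← pow_mul, c4] at hn
    have h2 := mul_le_mul_of_nonneg_left hn (Tp n).le
    have h3 : T n * ((T n)⁻¹ * X n ^ 2) = X n ^ 2 := by
      rw [← mul_assoc, mul_inv_cancel₀ (Tp n).ne', one_mul]
    rw [h3] at h2
    refine h2.trans (le_of_eq ?_)
    have := (Tp n).ne'
    field_simp
  -- conclusion
  obtain ⟨Cb, hCb⟩ : ∃ Cb : ℝ, Cb = |Mφ| * C1 + |Mφ| + ε := ⟨_, rfl⟩
  have s0 : ∀ n, 0 ≤ (L * r n * R) * C1 := fun n =>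
    mul_nonneg (mul_nonneg (mul_nonneg L.coe_nonneg (r0 n).le) hk.R0) C10
  have sl : Tendsto (fun n => 3 * (Cb * ((L * r n * R) * C1)) + (ε / 2) ^ 2 / 2) atTop
      (𝓝 ((ε / 2) ^ 2 / 2)) := by
    have h1 : Tendsto (fun n => 3 * (Cb * ((L * r n * R) * C1)) + (ε / 2) ^ 2 / 2) atTop
        (𝓝 (3 * (Cb * ((L * 0 * R) * C1)) + (ε / 2) ^ 2 / 2)) :=
      (((((rl.const_mul (L : ℝ)).mul_const R).mul_const C1).const_mul Cb).const_mul 3).add_const _
    simpa using h1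
  have ev1 := sl.eventually (gt_mem_nhds (show (ε / 2) ^ 2 / 2 < (ε / 2) ^ 2 by
    have : 0 < (ε / 2) ^ 2 := by positivity
    linarith))
  have ev2 := key ((ε / 2) ^ 2 / 2) (by positivity)
  have ev3 := exc_low hm hp H hK hKΩ hφ hφ0 (show 0 < ε / 2 by linarith)
  have ev4 : ∀ᶠ n in atTop, r n * R < δ := by
    have : Tendsto (fun n => r n * R) atTop (𝓝 0) := by simpa using rl.mul_const R
    exact this.eventually (gt_mem_nhds hδ)
  filter_upwards [ev1, ev2, ev3, ev4] with n g1 g2 g3 g4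
  have e5 : ∫ z, φ z * (∫ y, k y * (u n (z + r n • y) ^ 2 - m (z + r n • y))) ^ 2 = V n := by
    rw [hV]
    have : (fun n => ∫ z, φ z * A n z ^ 2) n = ∫ z, φ z * A n z ^ 2 := rfl
    rw [this]
    congr 1; funext z
    by_cases hz : z ∈ S
    · congr 2
      rw [hA]
      unfold Tk
      congr 1; funext y
      by_cases hy : k y = 0
      · rw [hy]; simp
      · have h1 : χ (z + r n • y) = 1 := by
          refine hχ1 _ (Metric.mem_cthickening_of_dist_le _ z _ _ hz ?_)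
          rw [dist_eq_norm, add_sub_cancel_left, norm_smul, Real.norm_eq_abs,
            abs_of_pos (r0 n)]
          exact (mul_le_mul_of_nonneg_left (hk.sp y hy) (r0 n).le).trans g4.le
        rw [hF]
        beta_reduce
        rw [h1, one_mul]
    · rw [hS] at hz
      rw [image_eq_zero_of_notMem_tsupport hz]
      simp
  have hTn : T n = 1 + ∫ z in K, u n z ^ 4 := by rw [hT]
  have hEn : E n = (∫ z, φ z * u n z ^ 4) - 3 * ∫ z, φ z * m z ^ 2 := by rw [hE]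
  rw [← hTn, ← hEn] at g3 ⊢
  rw [e5]
  have tp := Tp n
  have tn := tp.ne'
  have fin := fin_alg (v := V n / T n) (e := 2 / 3 * (E n / T n) + ε / 2)
    (s := (L * r n * R) * C1) (ε := (ε / 2) ^ 2 / 2) (δ := ε / 2) (C := Cb) (x := X n / T n)
    (div_nonneg (V0 n) tp.le)
    (by
      rw [div_le_iff₀ tp, hCb]
      have := VC n
      nlinarith [mul_nonneg M0 tp.le, mul_nonneg hε.le tp.le])
    (by
      have h1 : 0 ≤ E n / T n + ε / 2 := by
        have : 0 ≤ (E n + ε / 2 * T n) / T n := div_nonneg g3 tp.le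
        rw [add_div, mul_div_assoc, div_self tn, mul_one] at this
        exact this
      linarith)
    (by
      have h1 : E n / T n ≤ |Mφ| := by rw [div_le_iff₀ tp]; exact EC n
      rw [hCb]
      have h2 : 0 ≤ |Mφ| * C1 := mul_nonneg M0 C10
      linarith)
    (by
      rw [← sub_div, abs_div, abs_of_pos tp, div_le_iff₀ tp]
      refine (XV n).trans (le_of_eq ?_)
      ring)
    (by
      have h1 : (X n / T n) ^ 2 ≤ 2 / 3 * (E n / T n) * (W n / T n) + (ε / 2) ^ 2 / 2 := by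
        rw [div_pow, div_le_iff₀ (by positivity)]
        refine g2.trans (le_of_eq ?_)
        field_simp
      have h2 : W n / T n ≤ V n / T n + (L * r n * R) * C1 := by
        rw [div_le_iff₀ tp]
        refine (WV n).trans (le_of_eq ?_)
        field_simp
      have h0 : 0 ≤ W n / T n := div_nonneg (W0 n) tp.le
      have h3 : 0 ≤ E n / T n + ε / 2 := by
        have : 0 ≤ (E n + ε / 2 * T n) / T n := div_nonneg g3 tp.le
        rw [add_div, mul_div_assoc, div_self tn, mul_one] at this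
        exact this
      have h4 : 0 ≤ 2 / 3 * (E n / T n) + ε / 2 := by linarith
      have h5 := mul_le_mul_of_nonneg_left h2 h4
      have h6 : 0 ≤ ε / 2 * (W n / T n) := mul_nonneg (by linarith) h0
      nlinarith)
    (by linarith) g1
  rw [div_le_iff₀ tp] at fin
  refine fin.trans (le_of_eq ?_)
  field_simp
  ring

end

end Pool.Agent.TH294.RG
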