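import Pool.Agent.TH294.RG.SpecH

/-!
Project RG (helper294): averages over discs, the multiplier.
-/

set_option autoImplicit false
open MeasureTheory Filter Topology Complex
open scoped ContDiff

namespace Pool.Agent.TH294.RG

open Pool.Agent.W745.RW Pool.Agent.TH294.RS

noncomputable section

/-! ### Taylor polynomials of the cosine -/

/-- remainder of the cosine -/
def cR (N : ℕ) (y : ℝ) : ℝ :=
  Real.cos y - ∑ i ∈ Finset.range N, (-1) ^ i * y ^ (2 * i) / (Nat.factorial (2 * i) : ℝ)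
/-- remainder of the sine -/
def sR' (N : ℕ) (y : ℝ) : ℝ :=
  Real.sin y - ∑ i ∈ Finset.range N, (-1) ^ i * y ^ (2 * i + 1) / (Nat.factorial (2 * i + 1) : ℝ)

lemma pd (k : ℕ) (y : ℝ) : HasDerivAt (fun y : ℝ => y ^ (k + 1) / (Nat.factorial (k + 1) : ℝ))
    (y ^ k / (Nat.factorial k : ℝ)) y := by
  have h1 := (hasDerivAt_pow (k + 1) y).div_const (Nat.factorial (k + 1) : ℝ)
  refine h1.congr_deriv ?_
  rw [Nat.factorial_succ]
  have : ((Nat.factorial k : ℕ) : ℝ) ≠ 0 := by exact_mod_cast Nat.factorial_ne_zero k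
  have h2 : ((k : ℝ) + 1) ≠ 0 := by positivity
  push_cast
  field_simp

/-- integration of a bound -/
lemma step_bd {f f' : ℝ → ℝ} (hf : ∀ y, HasDerivAt f (f' y) y) (h0 : f 0 = 0) {k : ℕ}
    (hb : ∀ y, 0 ≤ y → |f' y| ≤ y ^ k / (Nat.factorial k : ℝ)) :
    ∀ y, 0 ≤ y → |f y| ≤ y ^ (k + 1) / (Nat.factorial (k + 1) : ℝ) := by
  have key : ∀ s : ℝ, |s| = 1 → ∀ y, 0 ≤ y → s * f y ≤ y ^ (k + 1) / (Nat.factorial (k + 1) : ℝ) := by
    intro s hs y hy
    have hd : ∀ y, HasDerivAt (fun y => y ^ (k + 1) / (Nat.factorial (k + 1) : ℝ) - s * f y)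
        (y ^ k / (Nat.factorial k : ℝ) - s * f' y) y := fun y => (pd k y).sub ((hf y).const_mul s)
    have mono : MonotoneOn (fun y => y ^ (k + 1) / (Nat.factorial (k + 1) : ℝ) - s * f y)
        (Set.Ici 0) := by
      refine monotoneOn_of_deriv_nonneg (convex_Ici 0)
        (fun y _ => (hd y).continuousAt.continuousWithinAt)
        (fun y _ => (hd y).differentiableAt.differentiableWithinAt) fun y hy => ?_
      rw [interior_Ici] at hy
      rw [(hd y).deriv]
      have h1 := hb y (le_of_lt hy)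
      have h2 : s * f' y ≤ |f' y| := by
        refine (le_abs_self _).trans ?_
        rw [abs_mul, hs, one_mul]
      linarith
    have h3 := mono (Set.mem_Ici.2 le_rfl) (Set.mem_Ici.2 hy) hy
    simp only [h0, mul_zero, sub_zero, ne_eq, Nat.add_eq_zero_iff, one_ne_zero, and_false,
      not_false_eq_true, zero_pow, zero_div] at h3
    linarith
  intro y hy
  rw [abs_le]
  constructor
  · have := key (-1) (by simp) y hy
    linarith
  · have := key 1 (by simp) y hy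
    linarith

lemma cR_d (N : ℕ) (y : ℝ) : HasDerivAt (cR (N + 1)) (-sR' N y) y := by
  unfold cR sR'
  have h1 : ∀ i : ℕ, HasDerivAt (fun y : ℝ => (-1) ^ (i + 1) * y ^ (2 * (i + 1)) /
      (Nat.factorial (2 * (i + 1)) : ℝ)) ((-1) ^ (i + 1) * y ^ (2 * i + 1) /
      (Nat.factorial (2 * i + 1) : ℝ)) y := by
    intro i
    have h2 := (pd (2 * i + 1) y).const_mul ((-1 : ℝ) ^ (i + 1))
    have e1 : 2 * (i + 1) = 2 * i + 1 + 1 := by ring
    have e2 : (fun y : ℝ => (-1) ^ (i + 1) * y ^ (2 * (i + 1)) /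
        (Nat.factorial (2 * (i + 1)) : ℝ)) = fun y => (-1) ^ (i + 1) * (y ^ (2 * i + 1 + 1) /
        (Nat.factorial (2 * i + 1 + 1) : ℝ)) := by
      funext y; rw [e1]; ring
    rw [e2]
    exact h2.congr_deriv (by ring)
  have h3 := (Real.hasDerivAt_cos y).sub (HasDerivAt.fun_sum (u := Finset.range N)
    fun i _ => h1 i)
  have h4 := h3.sub_const 1
  have e1 : (fun y : ℝ => Real.cos y - ∑ i ∈ Finset.range (N + 1), (-1) ^ i * y ^ (2 * i) /
      (Nat.factorial (2 * i) : ℝ)) = fun y => (Real.cos y - ∑ i ∈ Finset.range N,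
      (-1) ^ (i + 1) * y ^ (2 * (i + 1)) / (Nat.factorial (2 * (i + 1)) : ℝ)) - 1 := by
    funext y
    rw [Finset.sum_range_succ']
    simp
    ring
  rw [e1]
  refine h4.congr_deriv ?_
  have e2 : ∀ i : ℕ, (-1 : ℝ) ^ (i + 1) * y ^ (2 * i + 1) / (Nat.factorial (2 * i + 1) : ℝ) =
      -((-1) ^ i * y ^ (2 * i + 1) / (Nat.factorial (2 * i + 1) : ℝ)) := fun i => by
    rw [pow_succ]; ring
  simp only [e2, Finset.sum_neg_distrib]
  ring

lemma sR'_d (N : ℕ) (y : ℝ) : HasDerivAt (sR' N) (cR N y) y := by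
  unfold cR sR'
  have h1 : ∀ i : ℕ, HasDerivAt (fun y : ℝ => (-1) ^ i * y ^ (2 * i + 1) /
      (Nat.factorial (2 * i + 1) : ℝ)) ((-1) ^ i * y ^ (2 * i) /
      (Nat.factorial (2 * i) : ℝ)) y := by
    intro i
    have h2 := (pd (2 * i) y).const_mul ((-1 : ℝ) ^ i)
    have e2 : (fun y : ℝ => (-1) ^ i * y ^ (2 * i + 1) /
        (Nat.factorial (2 * i + 1) : ℝ)) = fun y => (-1) ^ i * (y ^ (2 * i + 1) /
        (Nat.factorial (2 * i + 1) : ℝ)) := by
      funext y; ring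
    rw [e2]
    exact h2.congr_deriv (by ring)
  exact (Real.hasDerivAt_sin y).sub (HasDerivAt.fun_sum (u := Finset.range N) fun i _ => h1 i)

lemma cR_0 (N : ℕ) : cR (N + 1) 0 = 0 := by
  unfold cR
  rw [Finset.sum_range_succ']
  simp

lemma sR'_0 (N : ℕ) : sR' N 0 = 0 := by
  unfold sR'
  simp

lemma cs_bd (N : ℕ) : (∀ y, 0 ≤ y → |cR N y| ≤ y ^ (2 * N) / (Nat.factorial (2 * N) : ℝ)) ∧
    (∀ y, 0 ≤ y → |sR' N y| ≤ y ^ (2 * N + 1) / (Nat.factorial (2 * N + 1) : ℝ)) := by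
  induction N with
  | zero =>
    have h1 : ∀ y : ℝ, 0 ≤ y → |cR 0 y| ≤ y ^ (2 * 0) / (Nat.factorial (2 * 0) : ℝ) := by
      intro y _
      simp [cR, Real.abs_cos_le_one]
    refine ⟨h1, ?_⟩
    exact step_bd (sR'_d 0) (sR'_0 0) h1
  | succ N ih =>
    have h1 : ∀ y : ℝ, 0 ≤ y → |cR (N + 1) y| ≤
        y ^ (2 * (N + 1)) / (Nat.factorial (2 * (N + 1)) : ℝ) := by
      have e1 : 2 * (N + 1) = 2 * N + 1 + 1 := by ring
      rw [e1]
      refine step_bd (cR_d N) (cR_0 N) fun y hy => ?_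
      rw [abs_neg]
      exact ih.2 y hy
    exact ⟨h1, step_bd (sR'_d (N + 1)) (sR'_0 (N + 1)) h1⟩

lemma cR_bd (N : ℕ) (y : ℝ) : |cR N y| ≤ y ^ (2 * N) / (Nat.factorial (2 * N) : ℝ) := by
  have h1 := (cs_bd N).1 |y| (abs_nonneg y)
  have h2 : cR N |y| = cR N y := by
    unfold cR
    rw [Real.cos_abs]
    congr 1
    refine Finset.sum_congr rfl fun i _ => ?_
    rw [pow_mul, sq_abs, ← pow_mul]
  rw [h2, pow_mul, sq_abs, ← pow_mul] at h1
  exact h1

/-! ### the uniform measure on the disc -/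

/-- uniform probability measure on the unit disc -/
def dm : Measure ℂ := ENNReal.ofReal (1 / Real.pi) • volume.restrict (Metric.ball (0 : ℂ) 1)

lemma int_dm {E : Type*} [NormedAddCommGroup E] [NormedSpace ℝ E] (f : ℂ → E) :
    ∫ w, f w ∂dm = (1 / Real.pi) • ∫ w in Metric.ball (0 : ℂ) 1, f w := by
  unfold dm
  rw [integral_smul_measure, ENNReal.toReal_ofReal (by positivity)]

instance dm_prob : IsProbabilityMeasure dm := by
  refine ⟨?_⟩
  unfold dm
  simp only [Measure.smul_apply, Measure.restrict_apply MeasurableSet.univ, Set.univ_inter,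
    Complex.volume_ball, smul_eq_mul, ENNReal.ofReal_one, one_pow, one_mul]
  have h1 : (NNReal.pi : ENNReal) = ENNReal.ofReal Real.pi := by
    rw [← NNReal.coe_real_pi, ENNReal.ofReal_coe_nnreal]
  rw [h1, ← ENNReal.ofReal_mul (by positivity), one_div_mul_cancel Real.pi_ne_zero,
    ENNReal.ofReal_one]

lemma dm_int {E : Type*} [NormedAddCommGroup E] {f : ℂ → E} (hf : Continuous f) :
    Integrable f dm := by
  unfold dm
  refine Integrable.smul_measure ?_ ENNReal.ofReal_ne_top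
  exact (hf.continuousOn.integrableOn_compact (isCompact_closedBall (0 : ℂ) 1)).mono_set
    Metric.ball_subset_closedBall

lemma dm_ae : ∀ᵐ w ∂dm, ‖w‖ < 1 := by
  unfold dm
  refine Measure.ae_smul_measure ?_ _
  refine (ae_restrict_mem measurableSet_ball).mono fun w hw => ?_
  simpa using hw

/-- the average of `cos (y Re w)` over the unit disc -/
def JJ (y : ℝ) : ℝ := ∫ w, Real.cos (y * w.re) ∂dm

/-- even moments of `Re w` -/
def mu (i : ℕ) : ℝ := ∫ w, w.re ^ (2 * i) ∂dm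

lemma JJ_0 : JJ 0 = 1 := by simp [JJ]

lemma JJ_le (y : ℝ) : |JJ y| ≤ 1 := by
  have := norm_integral_le_of_norm_le_const (μ := dm) (f := fun w : ℂ => Real.cos (y * w.re))
    (C := 1) (ae_of_all _ fun w => by rw [Real.norm_eq_abs]; exact Real.abs_cos_le_one _)
  simpa [JJ] using this

lemma JJ_taylor (N : ℕ) (y : ℝ) : |JJ y - ∑ i ∈ Finset.range N, (-1) ^ i * mu i * y ^ (2 * i) /
    (Nat.factorial (2 * i) : ℝ)| ≤ y ^ (2 * N) / (Nat.factorial (2 * N) : ℝ) := by
  have c1 : Continuous (fun w : ℂ => Real.cos (y * w.re)) := by fun_prop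
  have c2 : ∀ i : ℕ, Continuous (fun w : ℂ => (-1) ^ i * (y * w.re) ^ (2 * i) /
      (Nat.factorial (2 * i) : ℝ)) := fun i => by fun_prop
  have e1 : JJ y - ∑ i ∈ Finset.range N, (-1) ^ i * mu i * y ^ (2 * i) /
      (Nat.factorial (2 * i) : ℝ) = ∫ w, cR N (y * w.re) ∂dm := by
    unfold cR
    rw [integral_sub (dm_int c1) (integrable_finsetSum _ fun i _ => dm_int (c2 i)),
      integral_finsetSum _ fun i _ => dm_int (c2 i)]
    congr 1
    refine Finset.sum_congr rfl fun i _ => ?_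
    unfold mu
    have e2 : ∀ w : ℂ, (-1) ^ i * (y * w.re) ^ (2 * i) / (Nat.factorial (2 * i) : ℝ) =
        ((-1) ^ i * y ^ (2 * i) / (Nat.factorial (2 * i) : ℝ)) * w.re ^ (2 * i) := by
      intro w; rw [mul_pow]; ring
    simp only [e2]
    rw [integral_const_mul]; ring
  rw [e1]
  have := norm_integral_le_of_norm_le_const (μ := dm) (f := fun w : ℂ => cR N (y * w.re))
    (C := y ^ (2 * N) / (Nat.factorial (2 * N) : ℝ)) (dm_ae.mono fun w hw => by
      rw [Real.norm_eq_abs]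
      refine (cR_bd N _).trans ?_
      refine div_le_div_of_nonneg_right ?_ (by positivity)
      rw [mul_pow, pow_mul w.re]
      have h1 : w.re ^ 2 ≤ 1 := by
        have h2 : |w.re| ≤ 1 := (Complex.abs_re_le_norm w).trans hw.le
        nlinarith [abs_nonneg w.re, sq_abs w.re]
      have h3 : (w.re ^ 2) ^ N ≤ 1 := pow_le_one₀ (sq_nonneg _) h1
      have h4 : 0 ≤ y ^ (2 * N) := by rw [pow_mul]; positivity
      nlinarith)
  simpa using this

/-- the polynomial approximation of the multiplier -/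
def FP (R : ℝ) (N : ℕ) : Polynomial ℝ := ∑ i ∈ Finset.range N,
  Polynomial.C ((-1) ^ i * mu i * R ^ (2 * i) / (Nat.factorial (2 * i) : ℝ)) * Polynomial.X ^ i

lemma FP_eval (R : ℝ) (N : ℕ) (x : ℝ) : (FP R N).eval x = ∑ i ∈ Finset.range N,
    (-1) ^ i * mu i * R ^ (2 * i) / (Nat.factorial (2 * i) : ℝ) * x ^ i := by
  unfold FP
  rw [Polynomial.eval_finsetSum]
  refine Finset.sum_congr rfl fun i _ => ?_
  simp

lemma FP_bd (R : ℝ) (N : ℕ) {x : ℝ} (hx : 0 ≤ x) :
    |JJ (R * √x) - (FP R N).eval x| ≤ (R ^ 2 * x) ^ N / (Nat.factorial (2 * N) : ℝ) := by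
  have h1 := JJ_taylor N (R * √x)
  have e1 : ∀ i : ℕ, (R * √x) ^ (2 * i) = R ^ (2 * i) * x ^ i := by
    intro i
    rw [mul_pow, pow_mul (√x), Real.sq_sqrt hx]
  have e2 : (FP R N).eval x = ∑ i ∈ Finset.range N, (-1) ^ i * mu i * (R * √x) ^ (2 * i) /
      (Nat.factorial (2 * i) : ℝ) := by
    rw [FP_eval]
    refine Finset.sum_congr rfl fun i _ => ?_
    rw [e1]; ring
  rw [← e2, e1 N] at h1
  rw [mul_pow, ← pow_mul]
  exact h1

lemma FP_0 (R : ℝ) {N : ℕ} (hN : 0 < N) : (FP R N).eval 0 = 1 := by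
  have h1 := FP_bd R N (le_refl (0 : ℝ))
  rw [mul_zero, zero_pow hN.ne', zero_div, Real.sqrt_zero, mul_zero, JJ_0] at h1
  have := abs_nonpos_iff.1 h1
  linarith

end

end Pool.Agent.TH294.RG
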