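import Pool.Agent.TH294.RG.Ms5
import Pool.Agent.TH294.RG.Pl1

/-!
Project RG (helper294): the mass of discs of radii above the wavelength.
-/

set_option autoImplicit false
open MeasureTheory Filter Topology Complex ProbabilityTheory
open scoped ContDiff

namespace Pool.Agent.TH294.RG

open Pool.Agent.W745.RW Pool.Agent.TH294.RS

noncomputable section

variable {m : ℂ → ℝ} {ν : Kernel ℂ ℝ}

lemma vol_ball' (r : ℝ) (hr : 0 ≤ r) : (volume : Measure ℂ).real (Metric.ball 0 r) =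
    Real.pi * r ^ 2 := by
  rw [Measure.real, Complex.volume_ball, ENNReal.toReal_mul, ENNReal.toReal_pow,
    ENNReal.toReal_ofReal hr, ENNReal.coe_toReal, NNReal.coe_real_pi]
  ring

lemma vol_cball' (r : ℝ) (hr : 0 ≤ r) : (volume : Measure ℂ).real (Metric.closedBall 0 r) =
    Real.pi * r ^ 2 := by
  rw [Measure.real, Complex.volume_closedBall, ENNReal.toReal_mul, ENNReal.toReal_pow,
    ENNReal.toReal_ofReal hr, ENNReal.coe_toReal, NNReal.coe_real_pi]
  ring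

/-- smooth kernels close to the uniform measure on the disc -/
lemma disc_ker {δ : ℝ} (h0 : 0 < δ) (h1 : δ < 1) : ∃ k κ : ℂ → ℝ, KP k 1 ∧ CC κ ∧
    (∀ y, 0 ≤ κ y) ∧ ∫ y, κ y ≤ 6 * δ ∧ ∀ f : ℂ → ℝ, Continuous f → ∀ (r : ℝ) (z : ℂ),
      |(∫ w, f (z + r • w) ∂dm) - Tk k r f z| ≤ Tk κ r (fun z => |f z|) z := by
  obtain ⟨χ0, a1, a2, a3, a4⟩ := exists_cut (B := Metric.ball (0 : ℂ) 1)
    (K := Metric.closedBall 0 (1 - δ)) Metric.isOpen_ball (isCompact_closedBall _ _)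
    (Metric.closedBall_subset_ball (by linarith))
  obtain ⟨χ1, b1, b2, b3, b4⟩ := exists_cut (B := Metric.ball (0 : ℂ) (1 + δ))
    (K := Metric.closedBall 0 1) Metric.isOpen_ball (isCompact_closedBall _ _)
    (Metric.closedBall_subset_ball (by linarith))
  have c0 : CC χ0 := ⟨a1.1.continuous, a1.2.1⟩
  have c1 : CC χ1 := ⟨b1.1.continuous, b1.2.1⟩
  obtain ⟨J0, hJ0⟩ : ∃ J0 : ℝ, J0 = ∫ y, χ0 y := ⟨_, rfl⟩
  obtain ⟨J1, hJ1⟩ : ∃ J1 : ℝ, J1 = ∫ y, χ1 y := ⟨_, rfl⟩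
  have ib : ∀ r : ℝ, IntegrableOn (fun _ : ℂ => (1 : ℝ)) (Metric.ball 0 r) := fun r =>
    integrableOn_const measure_ball_lt_top.ne enorm_ne_top
  have icb : ∀ r : ℝ, IntegrableOn (fun _ : ℂ => (1 : ℝ)) (Metric.closedBall 0 r) := fun r =>
    integrableOn_const measure_closedBall_lt_top.ne enorm_ne_top
  have up : ∀ (χ : ℂ → ℝ) (r : ℝ), 0 ≤ r → TF (Metric.ball (0 : ℂ) r) χ → (∀ z, χ z ≤ 1) →
      ∫ y, χ y ≤ Real.pi * r ^ 2 := by
    intro χ r hr hT hle
    have h2 : ∫ y, χ y ≤ ∫ y, (Metric.ball (0 : ℂ) r).indicator (fun _ => (1 : ℝ)) y := by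
      refine integral_mono (CC.int ⟨hT.1.continuous, hT.2.1⟩)
        ((integrable_indicator_iff measurableSet_ball).2 (ib r)) fun y => ?_
      by_cases hy : y ∈ Metric.ball (0 : ℂ) r
      · rw [Set.indicator_of_mem hy]; exact hle y
      · rw [Set.indicator_of_notMem hy, TF.zero hT hy]
    rw [integral_indicator measurableSet_ball, setIntegral_const, smul_eq_mul, mul_one,
      vol_ball' r hr] at h2
    exact h2
  have lo : Real.pi * (1 - δ) ^ 2 ≤ J0 := by
    have h2 : ∫ y, (Metric.closedBall (0 : ℂ) (1 - δ)).indicator (fun _ => (1 : ℝ)) y ≤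
        ∫ y, χ0 y := by
      refine integral_mono ((integrable_indicator_iff measurableSet_closedBall).2 (icb _))
        c0.int fun y => ?_
      by_cases hy : y ∈ Metric.closedBall (0 : ℂ) (1 - δ)
      · rw [Set.indicator_of_mem hy, a2 y hy]
      · rw [Set.indicator_of_notMem hy]; exact a3 y
    rw [integral_indicator measurableSet_closedBall, setIntegral_const, smul_eq_mul, mul_one,
      vol_cball' _ (by linarith)] at h2
    rw [hJ0]; exact h2
  have hi0 : J0 ≤ Real.pi := by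
    have := up χ0 1 zero_le_one a1 a4
    rw [hJ0]; simpa using this
  have hi1 : J1 ≤ Real.pi * (1 + δ) ^ 2 := by
    rw [hJ1]; exact up χ1 (1 + δ) (by linarith) b1 b4
  have pp := Real.pi_pos
  have J0p : 0 < J0 := lt_of_lt_of_le (by have : 0 < 1 - δ := by linarith
                                          positivity) lo
  have inv_le : 1 / Real.pi ≤ 1 / J0 := one_div_le_one_div_of_le J0p hi0
  refine ⟨fun y => χ0 y / J0, fun y => (χ1 y - χ0 y) / Real.pi + χ0 y * (1 / J0 - 1 / Real.pi),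
    ⟨a1.1.div_const _, ?_, fun y => div_nonneg (a3 y) J0p.le, ?_, zero_le_one, fun y hy => ?_⟩,
    ?_, fun y => ?_, ?_, ?_⟩
  · have h5 : HasCompactSupport (fun y => χ0 y * J0⁻¹) :=
      a1.2.1.mul_right (f' := fun _ => J0⁻¹)
    simpa only [div_eq_mul_inv] using h5
  · rw [integral_div, ← hJ0, div_self J0p.ne']
  · by_contra hc
    apply hy
    have : y ∉ Metric.ball (0 : ℂ) 1 := fun h => hc (by simpa using (mem_ball_zero_iff.1 h).le)
    beta_reduce
    rw [TF.zero a1 this, zero_div]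
  · refine ⟨((c1.1.sub c0.1).div_const _).add (c0.1.mul continuous_const), ?_⟩
    refine HasCompactSupport.intro (isCompact_closedBall (0 : ℂ) (1 + δ)) fun y hy => ?_
    have h5 : y ∉ Metric.ball (0 : ℂ) (1 + δ) := fun h => hy (Metric.ball_subset_closedBall h)
    have h6 : y ∉ Metric.ball (0 : ℂ) 1 := fun h =>
      h5 (Metric.ball_subset_ball (by linarith) h)
    rw [TF.zero a1 h6, TF.zero b1 h5]
    simp
  · have h2 : χ0 y ≤ χ1 y := by
      by_cases hy : y ∈ Metric.closedBall (0 : ℂ) 1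
      · rw [b2 y hy]; exact a4 y
      · rw [TF.zero a1 (fun h => hy (Metric.ball_subset_closedBall h))]; exact b3 y
    exact add_nonneg (div_nonneg (sub_nonneg.2 h2) pp.le) (mul_nonneg (a3 y) (by linarith))
  · have i1 : Integrable (fun y => (χ1 y - χ0 y) / Real.pi) := (c1.int.sub c0.int).div_const _
    have i2 : Integrable (fun y => χ0 y * (1 / J0 - 1 / Real.pi)) := c0.int.mul_const _
    rw [integral_add i1 i2, integral_div, integral_sub c1.int c0.int, integral_mul_const,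
      ← hJ0, ← hJ1]
    have e1 : J0 * (1 / J0 - 1 / Real.pi) = 1 - J0 / Real.pi := by
      field_simp
    rw [e1]
    have e2 : J0 / Real.pi ≥ (1 - δ) ^ 2 := by
      rw [ge_iff_le, le_div_iff₀ pp]; linarith
    have e3 : J1 / Real.pi ≤ (1 + δ) ^ 2 := by
      rw [div_le_iff₀ pp]; linarith
    rw [sub_div]
    nlinarith
  · intro f hf r z
    rw [int_dm, smul_eq_mul, ← integral_indicator measurableSet_ball, ← integral_const_mul]
    unfold Tk
    have cf : Continuous (fun y : ℂ => f (z + r • y)) :=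
      hf.comp (continuous_const.add (continuous_id.const_smul r))
    have i1 : Integrable (fun y => 1 / Real.pi * (Metric.ball (0 : ℂ) 1).indicator
        (fun w => f (z + r • w)) y) := by
      refine Integrable.const_mul ((integrable_indicator_iff measurableSet_ball).2 ?_) _
      exact (cf.continuousOn.integrableOn_compact (isCompact_closedBall (0 : ℂ) 1)).mono_set
        Metric.ball_subset_closedBall
    have i2 : Integrable (fun y => χ0 y / J0 * f (z + r • y)) := by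
      have := ((c0.mul cf).int).const_mul (1 / J0)
      refine this.congr (ae_of_all _ fun y => ?_)
      beta_reduce; ring
    have i3 : Integrable (fun y => ((χ1 y - χ0 y) / Real.pi + χ0 y * (1 / J0 - 1 / Real.pi)) *
        |f (z + r • y)|) := by
      have j1 := ((c1.mul cf.abs).int).const_mul (1 / Real.pi)
      have j2 := ((c0.mul cf.abs).int).const_mul (1 / J0 - 1 / Real.pi - 1 / Real.pi)
      refine (j1.add j2).congr (ae_of_all _ fun y => ?_)
      simp only [Pi.add_apply]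
      ring
    rw [← integral_sub i1 i2]
    refine (abs_integral_le_integral_abs).trans (integral_mono (i1.sub i2).abs i3 fun y => ?_)
    beta_reduce
    have h2 : χ0 y ≤ χ1 y := by
      by_cases hy : y ∈ Metric.closedBall (0 : ℂ) 1
      · rw [b2 y hy]; exact a4 y
      · rw [TF.zero a1 (fun h => hy (Metric.ball_subset_closedBall h))]; exact b3 y
    by_cases hy : y ∈ Metric.ball (0 : ℂ) 1
    · rw [Set.indicator_of_mem hy]
      have e0 : χ1 y = 1 := b2 y (Metric.ball_subset_closedBall hy)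
      have e1 : 1 / Real.pi * f (z + r • y) - χ0 y / J0 * f (z + r • y) =
          ((1 - χ0 y) / Real.pi - χ0 y * (1 / J0 - 1 / Real.pi)) * f (z + r • y) := by ring
      rw [e1, abs_mul]
      refine mul_le_mul_of_nonneg_right ?_ (abs_nonneg _)
      rw [e0]
      have p1 : 0 ≤ (1 - χ0 y) / Real.pi := div_nonneg (by linarith [a4 y]) pp.le
      have p2 : 0 ≤ χ0 y * (1 / J0 - 1 / Real.pi) := mul_nonneg (a3 y) (by linarith)
      rw [abs_le]
      constructor <;> linarith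
    · rw [Set.indicator_of_notMem hy, TF.zero a1 hy]
      simp only [mul_zero, zero_div, zero_mul, sub_zero, abs_zero, add_zero]
      exact mul_nonneg (div_nonneg (b3 y) pp.le) (abs_nonneg _)

lemma sq_split {η x x' y b q : ℝ} (η0 : 0 < η) (h1 : |x - y| ≤ b) (h1' : |x'| ≤ q) :
    (x + x') ^ 2 ≤ (1 + η) * y ^ 2 + (1 + 1 / η) * (2 * b ^ 2 + 2 * q ^ 2) := by
  have h2 : (x + x' - y) ^ 2 ≤ 2 * b ^ 2 + 2 * q ^ 2 := by
    have t1 : (x - y) ^ 2 ≤ b ^ 2 := sq_le_sq' (by linarith [(abs_le.1 h1).1]) (abs_le.1 h1).2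
    have t2 : x' ^ 2 ≤ q ^ 2 := sq_le_sq' (by linarith [(abs_le.1 h1').1]) (abs_le.1 h1').2
    nlinarith [sq_nonneg (x - y - x')]
  have h3 : (x + x') ^ 2 ≤ (1 + η) * y ^ 2 + (1 + 1 / η) * (x + x' - y) ^ 2 := by
    have h4 : 0 ≤ (η * y - (x + x' - y)) ^ 2 / η := div_nonneg (sq_nonneg _) η0.le
    have h5 : (η * y - (x + x' - y)) ^ 2 / η = η * y ^ 2 - 2 * (y * (x + x' - y)) +
        1 / η * (x + x' - y) ^ 2 := by
      field_simp
      ring
    rw [h5] at h4
    linarith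
  have h6 : 0 ≤ 1 + 1 / η := by positivity
  have h7 := mul_le_mul_of_nonneg_left h2 h6
  exact h3.trans (add_le_add le_rfl h7)

set_option maxHeartbeats 4000000 in
/-- **The mass of discs of radii above the wavelength.** -/
theorem meso_disc [IsMarkovKernel ν] {Ω : Set ℂ}
    (hm : ∀ K : Set ℂ, IsCompact K → K ⊆ Ω → MemLp m 2 (volume.restrict K))
    (hms : ContDiffOn ℝ ∞ m Ω)
    (hp : ∀ᵐ z ∂(volume.restrict Ω), par ea (ν z) = 0) {a : ℂ → ℝ} {h : ℕ → ℝ} {u : ℕ → ℂ → ℝ}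
    (H : RawG Ω a h u (MM m ea ν)) {K : Set ℂ} (hK : IsCompact K) (hKΩ : K ⊆ Ω)
    {r : ℕ → ℝ} (r0 : ∀ n, 0 < r n)
    (rl : Tendsto r atTop (𝓝 0)) (hr : Tendsto (fun n => h n / r n) atTop (𝓝 0))
    {φ : ℂ → ℝ} (hφ : TF (interior K) φ) (hφ0 : ∀ z, 0 ≤ φ z) {ε : ℝ} (hε : 0 < ε) :
    ∀ᶠ n in atTop, ∫ z, φ z * ((∫ w, u n (z + r n • w) ^ 2 ∂dm) - m z) ^ 2 ≤
      2 / 3 * ((∫ z, φ z * u n z ^ 4) - 3 * ∫ z, φ z * m z ^ 2) +
        ε * (1 + ∫ z in K, u n z ^ 4) := by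
  have hB : IsOpen (interior K) := isOpen_interior
  have hBΩ : interior K ⊆ Ω := interior_subset.trans hKΩ
  obtain ⟨S, hS⟩ : ∃ S : Set ℂ, S = tsupport φ := ⟨_, rfl⟩
  have cS : IsCompact S := by rw [hS]; exact hφ.2.1
  obtain ⟨δ, hδ, hδB⟩ := cS.exists_cthickening_subset_open hB (by rw [hS]; exact hφ.2.2)
  have cK1 : IsCompact (Metric.cthickening δ S) := cS.cthickening
  obtain ⟨χ, hχ, hχ1, χ0, χ1⟩ := exists_cut hB cK1 hδB
  obtain ⟨Mφ, hMφ⟩ := hφ.2.1.exists_bound_of_continuousOn hφ.1.continuous.continuousOn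
  have hφM : ∀ z, φ z ≤ |Mφ| := by
    intro z
    by_cases hz : z ∈ tsupport φ
    · exact (le_abs_self _).trans ((hMφ z hz).trans (le_abs_self _))
    · rw [image_eq_zero_of_notMem_tsupport hz]; exact abs_nonneg _
  have M0 : 0 ≤ |Mφ| := abs_nonneg _
  obtain ⟨F, hF⟩ : ∃ F : ℕ → ℂ → ℝ, F = fun n z => χ z * (u n z ^ 2 - m z) := ⟨_, rfl⟩
  have cF : ∀ n, CC (F n) := by
    intro n
    rw [hF]
    have := TF.mulc hB hχ (a := fun z => u n z ^ 2 - m z)
      ((((H.sm n).mono hBΩ).pow 2).sub (hms.mono hBΩ))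
    exact ⟨this.1.continuous, this.2.1⟩
  obtain ⟨C1, C10, hC1⟩ := F_size hms.continuousOn (fun n => (H.sm n).continuousOn) hK hKΩ hχ
    χ0 χ1
  obtain ⟨T, hT⟩ : ∃ T : ℕ → ℝ, T = fun n => 1 + ∫ z in K, u n z ^ 4 := ⟨_, rfl⟩
  have T1 : ∀ n, 1 ≤ T n := fun n => by rw [hT]; exact T_one u K n
  have Tp : ∀ n, 0 < T n := fun n => by linarith [T1 n]
  have hF2 : ∀ n, ∫ z, F n z ^ 2 ≤ C1 * T n := by
    intro n
    have := cF n
    rw [hF] at this ⊢
    rw [hT]
    exact hC1 n this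
  obtain ⟨g, hg⟩ : ∃ g : ℂ → ℝ, g = fun z => χ z * m z := ⟨_, rfl⟩
  have tg : TF (interior K) g := by rw [hg]; exact TF.mulc hB hχ (hms.mono hBΩ)
  obtain ⟨L, hL⟩ : ∃ L : NNReal, LipschitzWith L g :=
    (tg.1.of_le (by exact_mod_cast le_top : (1 : WithTop ℕ∞) ≤ ∞)).lipschitzWith_of_hasCompactSupport
      tg.2.1 one_ne_zero
  have Lg : ∀ (r : ℝ) (z : ℂ), 0 ≤ r → |(∫ w, g (z + r • w) ∂dm) - g z| ≤ L * r := by
    intro r z hr
    have e0 : g z = ∫ _w : ℂ, g z ∂dm := by simp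
    have cg : Continuous (fun w : ℂ => g (z + r • w)) :=
      hL.continuous.comp (continuous_const.add (continuous_id.const_smul r))
    rw [e0, ← integral_sub (dm_int cg) (integrable_const _)]
    refine (abs_integral_le_integral_abs).trans ?_
    have e1 : (L : ℝ) * r = ∫ _w : ℂ, (L : ℝ) * r ∂dm := by simp
    rw [e1]
    refine integral_mono_ae ((dm_int cg).sub (integrable_const _)).abs (integrable_const _)
      (dm_ae.mono fun w hw => ?_)
    have h2 := hL.dist_le_mul (z + r • w) z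
    rw [Real.dist_eq, dist_eq_norm, add_sub_cancel_left, norm_smul, Real.norm_eq_abs,
      abs_of_nonneg hr] at h2
    exact h2.trans (mul_le_mul_of_nonneg_left (mul_le_of_le_one_right hr hw.le) L.coe_nonneg)
  have iφ := CC.int ⟨hφ.1.continuous, hφ.2.1⟩
  have Iφ0 : 0 ≤ ∫ z, φ z := integral_nonneg hφ0
  obtain ⟨D, hD⟩ : ∃ D : ℝ, D = |Mφ| * C1 := ⟨_, rfl⟩
  have D0 : 0 ≤ D := by rw [hD]; exact mul_nonneg M0 C10
  -- weighted bounds
  have WB : ∀ (g : ℂ → ℝ) (n : ℕ) (C : ℝ), CC g → ∫ z, g z ^ 2 ≤ C * (C1 * T n) → 0 ≤ C →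
      ∫ z, φ z * g z ^ 2 ≤ C * D * T n := by
    intro g n C cg hg hC
    have h1 : ∫ z, φ z * g z ^ 2 ≤ ∫ z, |Mφ| * g z ^ 2 :=
      integral_mono (CC.lmul hφ.1.continuous cg.sq).int (cg.sq.int.const_mul _) fun z =>
        mul_le_mul_of_nonneg_right (hφM z) (sq_nonneg _)
    rw [integral_const_mul] at h1
    refine h1.trans ((mul_le_mul_of_nonneg_left hg M0).trans (le_of_eq ?_))
    rw [hD]; ring
  -- parameters
  obtain ⟨η, hη⟩ : ∃ η : ℝ, η = ε / (4 * (D + 1)) := ⟨_, rfl⟩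
  have η0 : 0 < η := by rw [hη]; positivity
  have ηD : η * D ≤ ε / 4 := by
    rw [hη, div_mul_eq_mul_div, div_le_iff₀ (by positivity)]
    nlinarith
  have lim : Tendsto (fun t : ℝ => (1 + 1 / η) * (2 * ((6 * t) ^ 2 * D))) (𝓝[>] 0) (𝓝 0) := by
    have h1 : Tendsto (fun t : ℝ => (1 + 1 / η) * (2 * ((6 * t) ^ 2 * D))) (𝓝 0)
        (𝓝 ((1 + 1 / η) * (2 * ((6 * 0) ^ 2 * D)))) := by
      have : Continuous (fun t : ℝ => (1 + 1 / η) * (2 * ((6 * t) ^ 2 * D))) := by fun_prop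
      exact this.tendsto 0
    have h2 := h1.mono_left (nhdsWithin_le_nhds (s := Set.Ioi (0 : ℝ)))
    simpa using h2
  obtain ⟨t, ht1, ht2⟩ := ((lim.eventually (gt_mem_nhds (show (0 : ℝ) < ε / 8 by linarith))).and
    (Ioo_mem_nhdsGT (zero_lt_one (α := ℝ)))).exists
  obtain ⟨k, κ, hk, cκ, κ0, κI, hκ⟩ := disc_ker ht2.1 ht2.2
  have Iκ0 : 0 ≤ ∫ y, κ y := integral_nonneg κ0
  have key := meso hm hms hp H hK hKΩ hk r0 rl hr hφ hφ0 (show 0 < ε / 2 by linarith)
  have ev4 : ∀ᶠ n in atTop, r n < δ := rl.eventually (gt_mem_nhds hδ)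
  have ev5 : ∀ᶠ n in atTop, (1 + 1 / η) * (2 * (L * r n) ^ 2) * (∫ z, φ z) < ε / 8 := by
    have h1 : Tendsto (fun n => (1 + 1 / η) * (2 * (L * r n) ^ 2) * (∫ z, φ z)) atTop
        (𝓝 ((1 + 1 / η) * (2 * (L * 0) ^ 2) * (∫ z, φ z))) :=
      ((((rl.const_mul (L : ℝ)).pow 2).const_mul 2).const_mul (1 + 1 / η)).mul_const _
    have h2 : (1 + 1 / η) * (2 * ((L : ℝ) * 0) ^ 2) * (∫ z, φ z) = 0 := by simp
    rw [h2] at h1
    exact h1.eventually (gt_mem_nhds (show (0 : ℝ) < ε / 8 by linarith))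
  filter_upwards [key, ev4, ev5] with n g1 g4 g5
  -- inside the cut-off
  have in0 : ∀ z ∈ S, ∀ y : ℂ, ‖y‖ ≤ 1 → χ (z + r n • y) = 1 := by
    intro z hz y hy
    refine hχ1 _ (Metric.mem_cthickening_of_dist_le _ z _ _ hz ?_)
    rw [dist_eq_norm, add_sub_cancel_left, norm_smul, Real.norm_eq_abs, abs_of_pos (r0 n)]
    exact (mul_le_of_le_one_right (r0 n).le hy).trans g4.le
  have in1 : ∀ z ∈ S, ∀ y : ℂ, ‖y‖ ≤ 1 → F n (z + r n • y) =
      u n (z + r n • y) ^ 2 - m (z + r n • y) := by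
    intro z hz y hy
    rw [hF]
    beta_reduce
    rw [in0 z hz y hy, one_mul]
  have in2 : ∀ z ∈ S, ∀ y : ℂ, ‖y‖ ≤ 1 → u n (z + r n • y) ^ 2 =
      F n (z + r n • y) + g (z + r n • y) := by
    intro z hz y hy
    rw [in1 z hz y hy, hg]
    beta_reduce
    rw [in0 z hz y hy]
    ring
  have cA := Tk_CC hk.cc (cF n) (r0 n).ne'
  have cE := Tk_CC cκ (cF n).abs (r0 n).ne'
  have e5 : ∫ z, φ z * (∫ y, k y * (u n (z + r n • y) ^ 2 - m (z + r n • y))) ^ 2 =
      ∫ z, φ z * Tk k (r n) (F n) z ^ 2 := by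
    congr 1; funext z
    by_cases hz : z ∈ S
    · congr 2
      unfold Tk
      congr 1; funext y
      by_cases hy : k y = 0
      · rw [hy]; simp
      · rw [in1 z hz y (hk.sp y hy)]
    · rw [hS] at hz
      rw [image_eq_zero_of_notMem_tsupport hz]
      simp
  have e6 : ∫ z, φ z * ((∫ w, u n (z + r n • w) ^ 2 ∂dm) - m z) ^ 2 =
      ∫ z, φ z * ((∫ w, F n (z + r n • w) ∂dm) + ((∫ w, g (z + r n • w) ∂dm) - g z)) ^ 2 := by
    congr 1; funext z
    by_cases hz : z ∈ S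
    · congr 2
      have c1 : Continuous (fun w : ℂ => z + r n • w) :=
        continuous_const.add (continuous_id.const_smul (r n))
      have h1 : ∫ w, u n (z + r n • w) ^ 2 ∂dm =
          ∫ w, (F n (z + r n • w) + g (z + r n • w)) ∂dm :=
        integral_congr_ae (dm_ae.mono fun w hw => in2 z hz w hw.le)
      have h2 : g z = m z := by
        have := in0 z hz 0 (by simp)
        rw [smul_zero, add_zero] at this
        rw [hg]
        beta_reduce
        rw [this, one_mul]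
      have j1 : Integrable (fun w => F n (z + r n • w)) dm := dm_int ((cF n).1.comp c1)
      have j2 : Integrable (fun w => g (z + r n • w)) dm := dm_int (hL.continuous.comp c1)
      rw [h1, integral_add j1 j2, h2]
      ring
    · rw [hS] at hz
      rw [image_eq_zero_of_notMem_tsupport hz]
      simp
  have i1 := (CC.lmul hφ.1.continuous cA.sq).int
  have i2 := (CC.lmul hφ.1.continuous cE.sq).int
  have i12 : Integrable (fun z => (1 + η) * (φ z * Tk k (r n) (F n) z ^ 2) +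
      (1 + 1 / η) * 2 * (φ z * Tk κ (r n) (fun z => |F n z|) z ^ 2)) :=
    (i1.const_mul _).add (i2.const_mul _)
  have i3 : Integrable (fun z => (1 + 1 / η) * (2 * (L * r n) ^ 2) * φ z) := iφ.const_mul _
  have b1 : ∫ z, φ z * ((∫ w, F n (z + r n • w) ∂dm) +
      ((∫ w, g (z + r n • w) ∂dm) - g z)) ^ 2 ≤
      ∫ z, ((1 + η) * (φ z * Tk k (r n) (F n) z ^ 2) +
        (1 + 1 / η) * 2 * (φ z * Tk κ (r n) (fun z => |F n z|) z ^ 2) +
        (1 + 1 / η) * (2 * (L * r n) ^ 2) * φ z) := by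
    refine integral_mono_of_nonneg (ae_of_all _ fun z => mul_nonneg (hφ0 z) (sq_nonneg _))
      (i12.add i3) (ae_of_all _ fun z => ?_)
    have h1 := hκ (F n) (cF n).1 (r n) z
    have h1' := Lg (r n) z (r0 n).le
    obtain ⟨x, hx⟩ : ∃ x : ℝ, x = ∫ w, F n (z + r n • w) ∂dm := ⟨_, rfl⟩
    obtain ⟨x', hx'⟩ : ∃ x' : ℝ, x' = (∫ w, g (z + r n • w) ∂dm) - g z := ⟨_, rfl⟩
    obtain ⟨y, hy⟩ : ∃ y : ℝ, y = Tk k (r n) (F n) z := ⟨_, rfl⟩
    obtain ⟨b, hb⟩ : ∃ b : ℝ, b = Tk κ (r n) (fun z => |F n z|) z := ⟨_, rfl⟩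
    obtain ⟨q, hq⟩ : ∃ q : ℝ, q = L * r n := ⟨_, rfl⟩
    rw [← hx, ← hy, ← hb] at h1
    rw [← hx', ← hq] at h1'
    beta_reduce
    rw [← hx, ← hx', ← hy, ← hb, ← hq]
    have h8 := mul_le_mul_of_nonneg_left (sq_split η0 h1 h1') (hφ0 z)
    refine h8.trans (le_of_eq ?_)
    ring
  rw [integral_add i12 i3, integral_add (i1.const_mul _) (i2.const_mul _), integral_const_mul,
    integral_const_mul, integral_const_mul] at b1
  have b2 : ∫ z, φ z * Tk k (r n) (F n) z ^ 2 ≤ 1 * D * T n := by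
    refine WB _ n 1 cA ?_ zero_le_one
    have h1 := Tk_L2 hk.cc (cF n) (r0 n).ne'
    rw [hk.abs, one_pow, one_mul] at h1
    rw [one_mul]
    exact h1.trans (hF2 n)
  have b3 : ∫ z, φ z * Tk κ (r n) (fun z => |F n z|) z ^ 2 ≤ (6 * t) ^ 2 * D * T n := by
    refine WB _ n ((6 * t) ^ 2) cE ?_ (sq_nonneg _)
    have h1 := Tk_L2 cκ (cF n).abs (r0 n).ne'
    have e1 : ∫ y, |κ y| = ∫ y, κ y := by
      congr 1; funext y; exact abs_of_nonneg (κ0 y)
    rw [e1] at h1
    simp only [sq_abs] at h1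
    refine h1.trans ?_
    have h2 : (∫ y, κ y) ^ 2 ≤ (6 * t) ^ 2 := pow_le_pow_left₀ Iκ0 κI 2
    have h3 : 0 ≤ ∫ z, F n z ^ 2 := integral_nonneg fun z => sq_nonneg _
    exact (mul_le_mul_of_nonneg_right h2 h3).trans
      (mul_le_mul_of_nonneg_left (hF2 n) (sq_nonneg _))
  have hTn : T n = 1 + ∫ z in K, u n z ^ 4 := by rw [hT]
  rw [← hTn] at g1 ⊢
  rw [e5] at g1
  rw [e6]
  have tp := Tp n
  have c1 : η * ∫ z, φ z * Tk k (r n) (F n) z ^ 2 ≤ ε / 4 * T n := by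
    have h1 := mul_le_mul_of_nonneg_left b2 η0.le
    have h2 := mul_le_mul_of_nonneg_right ηD tp.le
    refine h1.trans (le_trans (le_of_eq ?_) h2)
    ring
  have c2 : (1 + 1 / η) * 2 * ∫ z, φ z * Tk κ (r n) (fun z => |F n z|) z ^ 2 ≤
      ε / 8 * T n := by
    have h6 : 0 ≤ (1 + 1 / η) * 2 := by positivity
    have h1 := mul_le_mul_of_nonneg_left b3 h6
    have h2 := mul_le_mul_of_nonneg_right ht1.le tp.le
    refine h1.trans (le_trans (le_of_eq ?_) h2)
    ring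
  have c3 : ε / 8 ≤ ε / 8 * T n := by
    have := T1 n
    nlinarith
  linarith

end

end Pool.Agent.TH294.RG
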