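import Pool.Agent.TH294.RG.Ms3
import Pool.Agent.TH294.RG.Js4

/-!
Project RG (helper294): third moments at scales above the wavelength, preparations.
-/

set_option autoImplicit false
open MeasureTheory Filter Topology Complex ProbabilityTheory
open scoped ContDiff

namespace Pool.Agent.TH294.RG

open Pool.Agent.W745.RW Pool.Agent.TH294.RS

noncomputable section

/-- the bound of the operator in `L⁴` -/
lemma Tk_L4 {κ f : ℂ → ℝ} (hκ : CC κ) (hf : CC f) {r : ℝ} (hr : r ≠ 0) :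
    ∫ x, Tk κ r f x ^ 4 ≤ (∫ y, |κ y|) ^ 4 * ∫ x, f x ^ 4 := by
  have hκ' := hκ.abs
  have a0 : 0 ≤ ∫ y, |κ y| := integral_nonneg fun y => abs_nonneg _
  have f4 : CC (fun z => f z ^ 4) := by
    have := hf.sq.sq
    refine ⟨?_, ?_⟩
    · exact hf.1.pow 4
    · have e : (fun z => f z ^ 4) = fun z => (f z ^ 2) ^ 2 := by funext z; ring
      rw [e]; exact this.2
  have h1 : ∀ x, Tk κ r f x ^ 4 ≤ (∫ y, |κ y|) ^ 3 * Tk (fun y => |κ y|) r
      (fun z => f z ^ 4) x := by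
    intro x
    have h2 := Tk_sq hκ' (fun y => abs_nonneg _) hf.1.abs r x
    simp only [sq_abs] at h2
    have h3 : Tk κ r f x ^ 2 ≤ (∫ y, |κ y|) * Tk (fun y => |κ y|) r (fun z => f z ^ 2) x := by
      refine le_trans ?_ h2
      rw [← sq_abs]
      exact pow_le_pow_left₀ (abs_nonneg _) (Tk_abs r x) 2
    have h4 := Tk_sq hκ' (fun y => abs_nonneg _) (hf.1.pow 2) r x
    have e4 : (fun z => (f ^ 2) z ^ 2) = fun z => f z ^ 4 := by
      funext z; simp only [Pi.pow_apply]; ring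
    have e5 : (f ^ 2 : ℂ → ℝ) = fun z => f z ^ 2 := rfl
    rw [e4, e5] at h4
    have h5 : (Tk κ r f x ^ 2) ^ 2 ≤ ((∫ y, |κ y|) * Tk (fun y => |κ y|) r
        (fun z => f z ^ 2) x) ^ 2 := pow_le_pow_left₀ (sq_nonneg _) h3 2
    have h6 := mul_le_mul_of_nonneg_left h4 (sq_nonneg (∫ y, |κ y|))
    calc Tk κ r f x ^ 4 = (Tk κ r f x ^ 2) ^ 2 := by ring
      _ ≤ ((∫ y, |κ y|) * Tk (fun y => |κ y|) r (fun z => f z ^ 2) x) ^ 2 := h5
      _ = (∫ y, |κ y|) ^ 2 * Tk (fun y => |κ y|) r (fun z => f z ^ 2) x ^ 2 := by ring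
      _ ≤ (∫ y, |κ y|) ^ 2 * ((∫ y, |κ y|) * Tk (fun y => |κ y|) r (fun z => f z ^ 4) x) := h6
      _ = _ := by ring
  have i1 : Integrable (fun x => Tk κ r f x ^ 4) := by
    have := (Tk_CC hκ hf hr).sq.sq.int
    refine this.congr (ae_of_all _ fun x => ?_)
    beta_reduce; ring
  have i2 := ((Tk_CC hκ' f4 hr).int.const_mul ((∫ y, |κ y|) ^ 3))
  refine (integral_mono i1 i2 h1).trans (le_of_eq ?_)
  rw [integral_const_mul]
  have h3 := Tk_adj hκ' f4 (g := fun _ => 1) continuous_const r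
  simp only [one_mul] at h3
  rw [h3]
  have h4 : ∀ x, Tk (fun y => |κ y|) (-r) (fun _ => 1) x = ∫ y, |κ y| := fun x => by
    unfold Tk; simp
  simp only [h4]
  rw [integral_const_mul]
  ring

/-- averages are bounded in `L⁴` -/
lemma Tk_LB4 {κ : ℂ → ℝ} (hκ : ContDiff ℝ ∞ κ) (hκc : HasCompactSupport κ) {f : ℕ → ℂ → ℝ}
    (hf : ∀ n, CC (f n)) {c r : ℕ → ℝ} (r0 : ∀ n, r n ≠ 0) {C : ℝ}
    (hC : ∀ n, c n ^ 4 * ∫ z, f n z ^ 4 ≤ C) (B : Set ℂ) :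
    LB B 4 (fun n z => ((c n * Tk κ (r n) (f n) z : ℝ) : ℂ)) := by
  have sm : ∀ n, ContDiff ℝ ∞ (fun z => c n * Tk κ (r n) (f n) z) := fun n =>
    contDiff_const.mul (Tk_sm hκ hκc (hf n) (r0 n))
  refine ⟨fun n => (ofRealCLM.contDiff.comp (sm n)).contDiffOn, fun K' _ _ =>
    ⟨(∫ y, |κ y|) ^ 4 * C, Eventually.of_forall fun n => ?_⟩⟩
  have cc : CC (fun z => c n * Tk κ (r n) (f n) z) :=
    CC.lmul continuous_const (Tk_CC ⟨hκ.continuous, hκc⟩ (hf n) (r0 n))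
  have e1 : ∀ z, ‖((c n * Tk κ (r n) (f n) z : ℝ) : ℂ)‖ ^ 4 =
      ((c n * Tk κ (r n) (f n) z) ^ 2) ^ 2 := fun z => by
    rw [norm_real, Real.norm_eq_abs, show (4 : ℕ) = 2 * 2 by norm_num, pow_mul, sq_abs]
  simp only [e1]
  have h1 : ∫ z in K', ((c n * Tk κ (r n) (f n) z) ^ 2) ^ 2 ≤
      ∫ z, ((c n * Tk κ (r n) (f n) z) ^ 2) ^ 2 :=
    setIntegral_le_integral cc.sq.sq.int (ae_of_all _ fun z => sq_nonneg _)
  have h2 : ∫ z, ((c n * Tk κ (r n) (f n) z) ^ 2) ^ 2 =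
      c n ^ 4 * ∫ z, Tk κ (r n) (f n) z ^ 4 := by
    rw [← integral_const_mul]
    congr 1; funext z; ring
  have h3 := Tk_L4 ⟨hκ.continuous, hκc⟩ (hf n) (r0 n)
  rw [h2] at h1
  have c4 : 0 ≤ c n ^ 4 := by positivity
  have h4 := mul_le_mul_of_nonneg_left h3 c4
  have p4 : 0 ≤ (∫ y, |κ y|) ^ 4 := by positivity
  have h5 := mul_le_mul_of_nonneg_left (hC n) p4
  refine h1.trans (h4.trans (le_trans (le_of_eq ?_) h5))
  ring

/-- averages at scales above the wavelength vary slowly, `L⁴` -/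
lemma Tk_SG {k : ℂ → ℝ} (ks : ContDiff ℝ ∞ k) (kc : HasCompactSupport k) {f : ℕ → ℂ → ℝ}
    (hf : ∀ n, CC (f n)) {c r : ℕ → ℝ} (r0 : ∀ n, r n ≠ 0) {C : ℝ}
    (hC : ∀ n, c n ^ 4 * ∫ z, f n z ^ 4 ≤ C) {B : Set ℂ} {a : ℂ → ℝ}
    (ha : ContDiffOn ℝ ∞ a B) {h : ℕ → ℝ} (hr : Tendsto (fun n => h n / r n) atTop (𝓝 0)) :
    SG B a h (fun n z => ((c n * Tk k (r n) (f n) z : ℝ) : ℂ)) := by
  have l0 := Tk_LB4 ks kc hf r0 hC B
  have l1 := Tk_LB4 (dk_sm ks 1) (dk_cs kc 1) hf r0 hC B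
  have l2 := Tk_LB4 (dk_sm ks I) (dk_cs kc I) hf r0 hC B
  have fd : ∀ (n : ℕ) (z v : ℂ), fderiv ℝ (fun z => ((c n * Tk k (r n) (f n) z : ℝ) : ℂ)) z v =
      ((-(r n)⁻¹ * (c n * Tk (dk k v) (r n) (f n) z) : ℝ) : ℂ) := by
    intro n z v
    have h1 : DifferentiableAt ℝ (Tk k (r n) (f n)) z :=
      (Tk_sm ks kc (hf n) (r0 n)).differentiable (by simp) z
    have h2 := (h1.hasFDerivAt.const_mul (c n))
    have h3 := (ofRealCLM.hasFDerivAt).comp z h2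
    have h4 : HasFDerivAt (fun z => ((c n * Tk k (r n) (f n) z : ℝ) : ℂ))
      (ofRealCLM.comp (c n • fderiv ℝ (Tk k (r n) (f n)) z)) z := h3
    rw [h4.fderiv]
    have h5 := Tk_fd ks kc (hf n) (r0 n) z v
    show (((c n • fderiv ℝ (Tk k (r n) (f n)) z) v : ℝ) : ℂ) = _
    have h6 : (c n • fderiv ℝ (Tk k (r n) (f n)) z) v =
      c n * (fderiv ℝ (Tk k (r n) (f n)) z v) := rfl
    rw [h6, h5]
    congr 1; ring
  refine ⟨l0, fun n => h n / r n, fun n z => -((a z : ℂ) *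
    (((c n * Tk (dk k 1) (r n) (f n) z : ℝ) : ℂ) +
      (-I) * ((c n * Tk (dk k I) (r n) (f n) z : ℝ) : ℂ))), fun n z => -((a z : ℂ) *
    (((c n * Tk (dk k 1) (r n) (f n) z : ℝ) : ℂ) +
      I * ((c n * Tk (dk k I) (r n) (f n) z : ℝ) : ℂ))), hr,
    ((l1.add (l2.cmul (-I))).smulc (cxa ha)).neg, ((l1.add (l2.cmul I)).smulc (cxa ha)).neg,
    fun n z _ => ?_, fun n z _ => ?_⟩
  · have e1 := fd n z 1
    have e2 := fd n z I
    simp only [DP, dd, dx, dy]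
    rw [e1, e2]
    push_cast
    ring
  · have e1 := fd n z 1
    have e2 := fd n z I
    simp only [DM, db, dx, dy]
    rw [e1, e2]
    push_cast
    ring

/-- the odd cube root -/
lemma ex_root : ∃ g : ℝ → ℝ, Continuous g ∧ g 0 = 0 ∧ (∀ x, x * g x = |x| ^ (4 / 3 : ℝ)) ∧
    ∀ x, g x ^ 4 = |x| ^ (4 / 3 : ℝ) := by
  have q0 : (0 : ℝ) ≤ 1 / 3 := by norm_num
  have z0 : (0 : ℝ) ^ (1 / 3 : ℝ) = 0 := Real.zero_rpow (by norm_num)
  have m1 : ∀ x : ℝ, 0 ≤ x → x * x ^ (1 / 3 : ℝ) = x ^ (4 / 3 : ℝ) := by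
    intro x hx
    have h1 : x * x ^ (1 / 3 : ℝ) = x ^ (1 : ℝ) * x ^ (1 / 3 : ℝ) := by rw [Real.rpow_one]
    rw [h1, ← Real.rpow_add_of_nonneg hx zero_le_one q0]
    norm_num
  have m2 : ∀ x : ℝ, 0 ≤ x → (x ^ (1 / 3 : ℝ)) ^ 4 = x ^ (4 / 3 : ℝ) := by
    intro x hx
    rw [← Real.rpow_natCast, ← Real.rpow_mul hx]
    norm_num
  refine ⟨fun x => (max x 0) ^ (1 / 3 : ℝ) - (max (-x) 0) ^ (1 / 3 : ℝ), ?_, ?_, fun x => ?_,
    fun x => ?_⟩
  · have c1 := Real.continuous_rpow_const q0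
    exact (c1.comp (continuous_id.max continuous_const)).sub
      (c1.comp (continuous_neg.max continuous_const))
  · simp
  · rcases le_total 0 x with hx | hx
    · simp only [max_eq_left hx, max_eq_right (neg_nonpos.2 hx), z0, sub_zero, abs_of_nonneg hx]
      exact m1 x hx
    · simp only [max_eq_right hx, max_eq_left (neg_nonneg.2 hx), z0, zero_sub, abs_of_nonpos hx]
      rw [← m1 (-x) (neg_nonneg.2 hx)]
      ring
  · rcases le_total 0 x with hx | hx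
    · simp only [max_eq_left hx, max_eq_right (neg_nonpos.2 hx), z0, sub_zero, abs_of_nonneg hx]
      exact m2 x hx
    · simp only [max_eq_right hx, max_eq_left (neg_nonneg.2 hx), z0, zero_sub, abs_of_nonpos hx]
      rw [← m2 (-x) (neg_nonneg.2 hx)]
      ring

/-- the final computation -/
lemma fin3 {v ε : ℝ} (hv : 0 ≤ v) (hε : 0 < ε) (h : v ^ 4 / (v + 1) < ε ^ 4 / (ε + 1)) :
    v ≤ ε := by
  by_contra hc
  rw [not_le] at hc
  rw [div_lt_div_iff₀ (by linarith) (by linarith)] at h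
  have h1 : ε ^ 3 ≤ v ^ 3 := pow_le_pow_left₀ hε.le hc.le 3
  have h2 : ε ^ 4 ≤ v ^ 4 := pow_le_pow_left₀ hε.le hc.le 4
  have h3 : 0 ≤ ε * v * (v ^ 3 - ε ^ 3) := mul_nonneg (mul_nonneg hε.le hv) (by linarith)
  nlinarith

end

end Pool.Agent.TH294.RG
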