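import Pool.Agent.TH294.RG.Pl9

/-!
Project RG (helper294): the local mass at the scale of many wavelengths.
-/

set_option autoImplicit false
open MeasureTheory Filter Topology Complex ProbabilityTheory
open scoped ContDiff

namespace Pool.Agent.TH294.RG

open Pool.Agent.W745.RW Pool.Agent.TH294.RS

noncomputable section

variable {Y : Type*} [MeasurableSpace Y] {m : ℂ → ℝ} {e : Y → ℂ} {ν : Kernel ℂ Y}

lemma ang_meas [IsMarkovKernel ν] (he : Measurable e) (F : Polynomial ℝ) :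
    Measurable (fun z => ang F e (ν z)) := by
  have mq : Measurable (qq e 1) := qq_meas he 1
  have cF : Continuous (fun x : ℝ => F.eval x) := F.continuous
  have m1 : Measurable (fun p => F.eval (2 - 2 * qq e 1 p) ^ 2) :=
    (cF.measurable.comp (measurable_const.sub (mq.const_mul 2))).pow_const 2
  have m2 : Measurable (fun p => F.eval (2 + 2 * qq e 1 p) ^ 2) :=
    (cF.measurable.comp (measurable_const.add (mq.const_mul 2))).pow_const 2
  have h := (StronglyMeasurable.integral_kernel (κ := ν ×ₖ ν) (m1.add m2).stronglyMeasurable)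
  have e1 : (fun z => ang F e (ν z)) = fun z => ∫ p, ((fun p => F.eval (2 - 2 * qq e 1 p) ^ 2) +
      fun p => F.eval (2 + 2 * qq e 1 p) ^ 2) p ∂((ν ×ₖ ν) z) := by
    funext z
    rw [Kernel.prod_apply]
    rfl
  rw [e1]
  exact h.measurable

/-- **The second moment of the local mass** -/
theorem planck2 [IsMarkovKernel ν] {Ω : Set ℂ} {h : ℕ → ℝ}
    {u : ℕ → ℂ → ℝ} (he : Measurable e) (h1 : ∀ y, ‖e y‖ = 1)
    (hm : ∀ K : Set ℂ, IsCompact K → K ⊆ Ω → MemLp m 2 (volume.restrict K))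
    (H : RawG Ω (fun _ => 1) h u (MM m e ν)) {K : Set ℂ} (hK : IsCompact K) (hKΩ : K ⊆ Ω)
    {φ : ℂ → ℝ} (hφ : TF (interior K) φ) {ε : ℝ} (hε : 0 < ε) :
    ∃ R0 : ℝ, 0 < R0 ∧ ∀ R : ℝ, R0 ≤ R → ∀ᶠ n in atTop,
      |(∫ z, φ z * (∫ w, u n (z + (R * h n) • w) ^ 2 ∂dm) ^ 2) -
        (2 / 3 * (∫ z, φ z * u n z ^ 4) - ∫ z, φ z * (m z ^ 2 * (1 - par e (ν z))))| ≤
        ε * (1 + ∫ z in K, u n z ^ 4) := by
  have hBΩ : interior K ⊆ Ω := interior_subset.trans hKΩ
  have mB : ∀ K' : Set ℂ, IsCompact K' → K' ⊆ interior K → MemLp m 2 (volume.restrict K') :=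
    fun K' hK' hKB => hm K' hK' (hKB.trans hBΩ)
  obtain ⟨C0, hC0, key⟩ := planck1 he h1 hm H hK hKΩ hφ
  obtain ⟨Cφ, hCφ⟩ := hφ.2.1.exists_bound_of_continuousOn hφ.1.continuous.continuousOn
  have im2 := m2_int mB hφ
  have iang : ∀ F : Polynomial ℝ, (∀ x, 0 ≤ x → x ≤ 4 → F.eval x ^ 2 ≤ 4) →
      Integrable (fun z => φ z * m z ^ 2 * ang F e (ν z)) := by
    intro F hF
    refine im2.mul_bdd (c := 8) (ang_meas he F).aestronglyMeasurable (ae_of_all _ fun z => ?_)
    have := ang_le (ν := ν) h1 hF z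
    rw [Real.norm_eq_abs, abs_of_nonneg this.1]
    linarith [this.2]
  have ipar : Integrable (fun z => φ z * m z ^ 2 * par e (ν z)) := by
    refine im2.mul_bdd (c := 1) (par_meas he).aestronglyMeasurable (ae_of_all _ fun z => ?_)
    rw [Real.norm_eq_abs, abs_of_nonneg (par_nn e _)]
    exact par_le e _
  -- the limit of the angular part
  have limA : Tendsto (fun R => ∫ z, φ z * m z ^ 2 * ang (FR R) e (ν z)) atTop
      (𝓝 (∫ z, φ z * m z ^ 2 * par e (ν z))) := by
    refine tendsto_integral_filter_of_dominated_convergence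
      (fun z => 8 * ‖φ z * m z ^ 2‖) ?_ ?_ (im2.norm.const_mul 8) ?_
    · exact Eventually.of_forall fun R => im2.aestronglyMeasurable.mul
        (ang_meas he (FR R)).aestronglyMeasurable
    · filter_upwards [eventually_ge_atTop (1 : ℝ)] with R hR
      refine ae_of_all _ fun z => ?_
      have := ang_le (ν := ν) h1 (fun x hx hx4 => FR_sq hR hx hx4) z
      rw [norm_mul, mul_comm]
      refine mul_le_mul_of_nonneg_right ?_ (norm_nonneg _)
      rw [Real.norm_eq_abs, abs_of_nonneg this.1]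
      linarith [this.2]
    · exact ae_of_all _ fun z => (ang_lim he h1 (ν z)).const_mul _
  have lim4 : Tendsto (fun R => (FR R).eval 4 ^ 2 / 3 *
      (|Cφ| + |∫ z, φ z * (3 * m z ^ 2)|)) atTop (𝓝 0) := by
    have := (((FR_lim (x := 4) (by norm_num) le_rfl).pow 2).div_const 3).mul_const
      (|Cφ| + |∫ z, φ z * (3 * m z ^ 2)|)
    simpa using this
  have limC : Tendsto (fun R : ℝ => C0 / R) atTop (𝓝 0) :=
    tendsto_const_nhds.div_atTop tendsto_id
  have a1 := limC.eventually (gt_mem_nhds (show 0 < ε / 4 by linarith))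
  have a2 := lim4.eventually (gt_mem_nhds (show 0 < ε / 4 by linarith))
  have a3 := (limA.sub_const (∫ z, φ z * m z ^ 2 * par e (ν z))).abs
  rw [sub_self, abs_zero] at a3
  have a4 := a3.eventually (gt_mem_nhds (show 0 < ε / 4 by linarith))
  obtain ⟨R1, hR1⟩ := eventually_atTop.1 ((a1.and a2).and a4)
  refine ⟨max R1 1, by positivity, fun R hR => ?_⟩
  have hR1' : R1 ≤ R := (le_max_left _ _).trans hR
  have hR1'' : 1 ≤ R := (le_max_right _ _).trans hR
  have hR0 : 0 < R := by linarith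
  obtain ⟨⟨b1, b2⟩, b3⟩ := hR1 R hR1'
  have k2 := spec_real he h1 hm H hK hKΩ hφ (FR R) (T := fun n => sR (fun _ => 1) (h n))
    (fun _ _ _ _ => rfl)
  have ev2 := (k2.abs.eventually (gt_mem_nhds (show |(0 : ℝ)| < ε / 4 by
    rw [abs_zero]; linarith)))
  filter_upwards [key R hR1'', ev2] with n g1 g2
  have T0 : 0 ≤ ∫ z in K, u n z ^ 4 := integral_nonneg fun z => by positivity
  set X := 1 + ∫ z in K, u n z ^ 4 with hX
  have X1 : 1 ≤ X := by linarith
  have X0 : 0 < X := by linarith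
  rw [abs_div, abs_of_pos X0, div_lt_iff₀ X0] at g2
  have hF0 : (FR R).eval 0 = 1 := FR_0 hR0
  rw [hF0] at g2
  -- the pieces
  have s1 : ∫ z, φ z * (m z ^ 2 * ((1 : ℝ) ^ 2 + ang (FR R) e (ν z))) =
      (∫ z, φ z * m z ^ 2) + ∫ z, φ z * m z ^ 2 * ang (FR R) e (ν z) := by
    rw [← integral_add im2 (iang (FR R) fun x hx hx4 => FR_sq hR1'' hx hx4)]
    congr 1; funext z; ring
  have s2 : ∫ z, φ z * (m z ^ 2 * (1 - par e (ν z))) =
      (∫ z, φ z * m z ^ 2) - ∫ z, φ z * m z ^ 2 * par e (ν z) := by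
    rw [← integral_sub im2 ipar]
    congr 1; funext z; ring
  have s3 : ∫ z, φ z * (3 * m z ^ 2) = 3 * ∫ z, φ z * m z ^ 2 := by
    rw [← integral_const_mul]
    congr 1; funext z; ring
  have U1 : |∫ z, φ z * u n z ^ 4| ≤ |Cφ| * X := by
    have e2 : ∫ z, φ z * u n z ^ 4 = ∫ z in K, φ z * u n z ^ 4 := by
      refine (setIntegral_eq_integral_of_forall_compl_eq_zero (fun z hz => ?_)).symm
      rw [TF.zero hφ (fun h => hz (interior_subset h))]; simp
    rw [e2]
    have cu : ContinuousOn (fun z => u n z ^ 4) K := ((H.sm n).continuousOn.mono hKΩ).pow 4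
    have i1 : IntegrableOn (fun z => |Cφ| * u n z ^ 4) K :=
      (continuousOn_const.mul cu).integrableOn_compact hK
    have := norm_integral_le_of_norm_le (f := fun z => φ z * u n z ^ 4) i1
      (ae_of_all _ fun z => by
        have h4 : 0 ≤ u n z ^ 4 := by positivity
        rw [norm_mul, Real.norm_eq_abs, Real.norm_eq_abs, abs_of_nonneg h4]
        refine mul_le_mul_of_nonneg_right ?_ h4
        by_cases hz : z ∈ tsupport φ
        · have := hCφ z hz
          rw [Real.norm_eq_abs] at this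
          exact this.trans (le_abs_self _)
        · rw [image_eq_zero_of_notMem_tsupport hz]; simp)
    rw [Real.norm_eq_abs, integral_const_mul] at this
    refine this.trans (mul_le_mul_of_nonneg_left (by linarith) (abs_nonneg _))
  rw [s1] at g2
  rw [s2]
  set V := ∫ z, φ z * (∫ w, u n (z + (R * h n) • w) ^ 2 ∂dm) ^ 2
  set P := ∫ z, φ z * ((FR R).sum fun i c => c *
    (sR (fun _ => 1) (h n))^[i] (fun w => u n w ^ 2) z) ^ 2
  set U := ∫ z, φ z * u n z ^ 4
  set T3 := ∫ z, φ z * (3 * m z ^ 2)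
  set M1 := ∫ z, φ z * m z ^ 2
  set DA := ∫ z, φ z * m z ^ 2 * ang (FR R) e (ν z)
  set DP := ∫ z, φ z * m z ^ 2 * par e (ν z)
  set f4 := (FR R).eval 4
  have t1 : V - (2 / 3 * U - (M1 - DP)) = (V - P) + (P - (2 * 1 ^ 2 + f4 ^ 2) / 3 * (U - T3) -
      (M1 + DA)) + f4 ^ 2 / 3 * (U - T3) + (DA - DP) := by
    rw [s3]; ring
  rw [t1]
  have r1 : |V - P| ≤ ε / 4 * X := g1.trans (mul_le_mul_of_nonneg_right b1.le X0.le)
  have r3 : |f4 ^ 2 / 3 * (U - T3)| ≤ ε / 4 * X := by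
    rw [abs_mul, abs_of_nonneg (by positivity : 0 ≤ f4 ^ 2 / 3)]
    have h5 : |U - T3| ≤ (|Cφ| + |T3|) * X := by
      refine (abs_sub _ _).trans ?_
      have : |T3| ≤ |T3| * X := le_mul_of_one_le_right (abs_nonneg _) X1
      linarith
    calc f4 ^ 2 / 3 * |U - T3| ≤ f4 ^ 2 / 3 * ((|Cφ| + |T3|) * X) :=
          mul_le_mul_of_nonneg_left h5 (by positivity)
      _ = f4 ^ 2 / 3 * (|Cφ| + |T3|) * X := by ring
      _ ≤ ε / 4 * X := mul_le_mul_of_nonneg_right b2.le X0.le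
  have r4 : |DA - DP| ≤ ε / 4 * X := by
    have : ε / 4 ≤ ε / 4 * X := le_mul_of_one_le_right (by linarith) X1
    linarith
  have q1 := abs_add_le ((V - P) + (P - (2 * 1 ^ 2 + f4 ^ 2) / 3 * (U - T3) - (M1 + DA)) +
    f4 ^ 2 / 3 * (U - T3)) (DA - DP)
  have q2 := abs_add_le ((V - P) + (P - (2 * 1 ^ 2 + f4 ^ 2) / 3 * (U - T3) - (M1 + DA)))
    (f4 ^ 2 / 3 * (U - T3))
  have q3 := abs_add_le (V - P) (P - (2 * 1 ^ 2 + f4 ^ 2) / 3 * (U - T3) - (M1 + DA))
  linarith

end

end Pool.Agent.TH294.RG
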