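import Pool.Agent.TH294.RG.Pl1

/-!
Project RG (helper294): averages over discs and the Fourier transform.
-/

set_option autoImplicit false
open MeasureTheory Filter Topology Complex
open scoped ContDiff SchwartzMap FourierTransform LineDeriv Convolution Pointwise

namespace Pool.Agent.TH294.RG

open Pool.Agent.W745.RW Pool.Agent.TH294.RS

noncomputable section

lemma dm_scale {E : Type*} [NormedAddCommGroup E] [NormedSpace ℝ E] (f : ℂ → E) {r : ℝ}
    (hr : 0 < r) : ∫ w, f (r • w) ∂dm =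
      (1 / (Real.pi * r ^ 2)) • ∫ w in Metric.ball (0 : ℂ) r, f w := by
  rw [int_dm, Measure.setIntegral_comp_smul_of_pos volume f _ hr, smul_unitBall_of_pos hr,
    smul_smul, Complex.finrank_real_complex]
  congr 1
  rw [one_div, one_div, mul_inv]

lemma dm_rot {E : Type*} [NormedAddCommGroup E] [NormedSpace ℝ E] (f : ℂ → E) (c : Circle) :
    ∫ w, f ((c : ℂ) * w) ∂dm = ∫ w, f w ∂dm := by
  rw [int_dm, int_dm]
  congr 1
  have h1 := (rotation c).measurePreserving.setIntegral_preimage_emb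
    (rotation c).toHomeomorph.measurableEmbedding f (Metric.ball (0 : ℂ) 1)
  have h2 : (rotation c) ⁻¹' (Metric.ball (0 : ℂ) 1) = Metric.ball (0 : ℂ) 1 := by
    ext w
    simp only [Set.mem_preimage, mem_ball_zero_iff, LinearIsometryEquiv.norm_map]
  rw [h2] at h1
  exact h1

lemma JJ_sin (y : ℝ) : ∫ w, Real.sin (y * w.re) ∂dm = 0 := by
  have h1 := dm_rot (fun w : ℂ => Real.sin (y * w.re)) (-1)
  have h2 : ∀ w : ℂ, Real.sin (y * (((-1 : Circle) : ℂ) * w).re) = - Real.sin (y * w.re) := by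
    intro w
    rw [← Real.sin_neg]
    congr 1
    simp
  simp only [h2] at h1
  rw [integral_neg] at h1
  linarith

/-- the Fourier transform of the uniform measure on the disc -/
lemma dm_ft (η : ℂ) : ∫ w, Complex.exp (-(I * ((inner ℝ w η : ℝ) : ℂ))) ∂dm =
    ((JJ ‖η‖ : ℝ) : ℂ) := by
  have key : ∫ w : ℂ, Complex.exp (-(I * ((‖η‖ * w.re : ℝ) : ℂ))) ∂dm = ((JJ ‖η‖ : ℝ) : ℂ) := by
    have e1 : ∀ w : ℂ, Complex.exp (-(I * ((‖η‖ * w.re : ℝ) : ℂ))) =
        ((Real.cos (‖η‖ * w.re) : ℝ) : ℂ) - I * ((Real.sin (‖η‖ * w.re) : ℝ) : ℂ) := by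
      intro w
      have h1 : -(I * ((‖η‖ * w.re : ℝ) : ℂ)) = ((-(‖η‖ * w.re) : ℝ) : ℂ) * I := by
        push_cast; ring
      rw [h1, Complex.exp_mul_I, ← ofReal_cos, ← ofReal_sin, Real.cos_neg, Real.sin_neg]
      push_cast; ring
    simp only [e1]
    have c1 : Continuous (fun w : ℂ => ((Real.cos (‖η‖ * w.re) : ℝ) : ℂ)) := by fun_prop
    have c2 : Continuous (fun w : ℂ => I * ((Real.sin (‖η‖ * w.re) : ℝ) : ℂ)) := by fun_prop
    rw [integral_sub (dm_int c1) (dm_int c2), integral_const_mul, integral_complex_ofReal,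
      integral_complex_ofReal, JJ_sin]
    simp [JJ]
  by_cases h0 : η = 0
  · subst h0
    simp [JJ_0]
  · have hn : ‖η‖ ≠ 0 := norm_ne_zero_iff.2 h0
    have hc : η / (‖η‖ : ℂ) ∈ Submonoid.unitSphere ℂ := by
      refine mem_sphere_zero_iff_norm.2 ?_
      rw [norm_div, norm_real, norm_norm, div_self hn]
    have h1 := dm_rot (fun w : ℂ => Complex.exp (-(I * ((inner ℝ w η : ℝ) : ℂ))))
      ⟨η / (‖η‖ : ℂ), hc⟩
    rw [← h1, ← key]
    congr 1; funext w
    congr 3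
    have hn' : (‖η‖ : ℂ) ≠ 0 := by exact_mod_cast hn
    have e1 : (starRingEnd ℂ) (η / (‖η‖ : ℂ) * w) * η = (‖η‖ : ℂ) * (starRingEnd ℂ) w := by
      rw [map_mul, map_div₀, conj_ofReal]
      have e2 : (starRingEnd ℂ) η * η = (‖η‖ : ℂ) ^ 2 := by
        rw [mul_comm, Complex.mul_conj, Complex.normSq_eq_norm_sq]; push_cast; ring
      field_simp
      linear_combination ((starRingEnd ℂ) w) * e2
    have e3 : (inner ℝ (η / (‖η‖ : ℂ) * w) η : ℝ) = ((‖η‖ : ℂ) * (starRingEnd ℂ) w).re := by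
      rw [← e1, mul_comm _ η]
      simp only [Complex.inner]
    show ((inner ℝ (η / (‖η‖ : ℂ) * w) η : ℝ) : ℂ) = ((‖η‖ * w.re : ℝ) : ℂ)
    rw [e3]
    simp

/-- the normalised indicator function of a disc -/
def kern (r : ℝ) : ℂ → ℂ :=
  (Metric.ball (0 : ℂ) r).indicator (fun _ => ((1 / (Real.pi * r ^ 2) : ℝ) : ℂ))

lemma kern_int (r : ℝ) : Integrable (kern r) := by
  unfold kern
  rw [integrable_indicator_iff measurableSet_ball]
  exact integrableOn_const measure_ball_lt_top.ne enorm_ne_top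

lemma kern_cs (r : ℝ) : HasCompactSupport (kern r) := by
  refine HasCompactSupport.intro (isCompact_closedBall (0 : ℂ) r) fun w hw => ?_
  refine Set.indicator_of_notMem (fun h => hw (Metric.ball_subset_closedBall h)) _

lemma kern_mul {r : ℝ} (hr : 0 < r) (f : ℂ → ℂ) : ∫ w, kern r w * f w = ∫ w, f (r • w) ∂dm := by
  rw [dm_scale f hr]
  have e1 : ∀ w, kern r w * f w = (Metric.ball (0 : ℂ) r).indicator
      (fun w => ((1 / (Real.pi * r ^ 2) : ℝ) : ℂ) * f w) w := by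
    intro w
    unfold kern
    by_cases hw : w ∈ Metric.ball (0 : ℂ) r
    · rw [Set.indicator_of_mem hw, Set.indicator_of_mem hw]
    · rw [Set.indicator_of_notMem hw, Set.indicator_of_notMem hw, zero_mul]
  simp only [e1]
  rw [integral_indicator measurableSet_ball, integral_const_mul, Complex.real_smul]

lemma kern_ft {r : ℝ} (hr : 0 < r) (ξ : ℂ) :
    𝓕 (kern r) ξ = ((JJ (r * (2 * Real.pi * ‖ξ‖)) : ℝ) : ℂ) := by
  rw [Real.fourier_eq']
  have e1 : ∀ v : ℂ, Complex.exp (((-2 * Real.pi * inner ℝ v ξ : ℝ) : ℂ) * I) • kern r v =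
      kern r v * Complex.exp (-(I * ((inner ℝ v ((2 * Real.pi : ℝ) • ξ) : ℝ) : ℂ))) := by
    intro v
    rw [smul_eq_mul, mul_comm, inner_smul_right]
    congr 2
    push_cast; ring
  simp only [e1]
  rw [kern_mul hr (fun v => Complex.exp (-(I * ((inner ℝ v ((2 * Real.pi : ℝ) • ξ) : ℝ) : ℂ))))]
  have e2 : ∀ w : ℂ, Complex.exp (-(I * ((inner ℝ (r • w) ((2 * Real.pi : ℝ) • ξ) : ℝ) : ℂ))) =
      Complex.exp (-(I * ((inner ℝ w (r • (2 * Real.pi : ℝ) • ξ) : ℝ) : ℂ))) := by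
    intro w
    rw [real_inner_smul_left, real_inner_smul_right w _ r]
  simp only [e2]
  rw [dm_ft]
  congr 2
  rw [norm_smul, norm_smul, Real.norm_eq_abs, Real.norm_eq_abs, abs_of_pos hr,
    abs_of_pos (by positivity)]

/-- the average of `G` over the disc of radius `r` -/
def cv (r : ℝ) (G : ℂ → ℂ) : ℂ → ℂ := kern r ⋆[ContinuousLinearMap.mul ℝ ℂ, volume] G

lemma cv_eq {r : ℝ} (hr : 0 < r) (G : ℂ → ℂ) (z : ℂ) : cv r G z = ∫ w, G (z + r • w) ∂dm := by
  unfold cv convolution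
  simp only [ContinuousLinearMap.mul_apply']
  rw [kern_mul hr (fun w => G (z - w))]
  have h1 := dm_rot (fun w : ℂ => G (z + r • w)) (-1)
  rw [← h1]
  congr 1; funext w
  congr 1
  simp [sub_eq_add_neg]

lemma cv_CS {r : ℝ} {G : ℂ → ℂ} (hG : CS G) : CS (cv r G) := by
  refine ⟨?_, (kern_cs r).convolution _ hG.2⟩
  exact hG.2.contDiff_convolution_right (n := ⊤) _ (kern_int r).locallyIntegrable hG.1

lemma cv_ft {r : ℝ} (hr : 0 < r) {G : ℂ → ℂ} (hG : CS G) (ξ : ℂ) :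
    𝓕 (cv r G) ξ = ((JJ (r * (2 * Real.pi * ‖ξ‖)) : ℝ) : ℂ) * 𝓕 G ξ := by
  have hi : Integrable G := hG.1.continuous.integrable_of_hasCompactSupport hG.2
  have h1 := Real.fourier_mul_convolution_eq (kern_int r) hi ξ
  rw [kern_ft hr] at h1
  exact h1

end

end Pool.Agent.TH294.RG
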