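import Pool.Agent.TH294.RG.Pl2

/-!
Project RG (helper294): comparison of disc averages with polynomials of the Laplacian.
-/

set_option autoImplicit false
open MeasureTheory Filter Topology Complex
open scoped ContDiff SchwartzMap FourierTransform LineDeriv

namespace Pool.Agent.TH294.RG

open Pool.Agent.W745.RW Pool.Agent.TH294.RS

noncomputable section

/-- `-t² Δ` on Schwartz functions -/
def hs (t : ℝ) (S : 𝓢(ℂ, ℂ)) : 𝓢(ℂ, ℂ) :=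
  (-((t : ℂ) ^ 2)) • (∂_{(1 : ℂ)} (∂_{(1 : ℂ)} S) + ∂_{(I : ℂ)} (∂_{(I : ℂ)} S))

lemma hs_coe (t : ℝ) (S : 𝓢(ℂ, ℂ)) : ⇑(hs t S) = sL1 (fun _ => 1) t ⇑S := by
  funext z
  have e1 : ⇑(∂_{(1 : ℂ)} S : 𝓢(ℂ, ℂ)) = dx ⇑S := by
    funext w; rw [SchwartzMap.lineDerivOp_apply_eq_fderiv]; rfl
  have e2 : ⇑(∂_{(I : ℂ)} S : 𝓢(ℂ, ℂ)) = dy ⇑S := by
    funext w; rw [SchwartzMap.lineDerivOp_apply_eq_fderiv]; rfl
  have e3 : (∂_{(1 : ℂ)} (∂_{(1 : ℂ)} S : 𝓢(ℂ, ℂ)) : 𝓢(ℂ, ℂ)) z = dx (dx ⇑S) z := by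
    rw [SchwartzMap.lineDerivOp_apply_eq_fderiv, e1]; rfl
  have e4 : (∂_{(I : ℂ)} (∂_{(I : ℂ)} S : 𝓢(ℂ, ℂ)) : 𝓢(ℂ, ℂ)) z = dy (dy ⇑S) z := by
    rw [SchwartzMap.lineDerivOp_apply_eq_fderiv, e2]; rfl
  simp only [hs, smul_apply, add_apply, e3, e4, smul_eq_mul, sL1, lap]
  push_cast; ring

lemma hs_it (t : ℝ) (S : 𝓢(ℂ, ℂ)) (i : ℕ) :
    ⇑((hs t)^[i] S) = (sL1 (fun _ => 1) t)^[i] ⇑S := by
  induction i with
  | zero => rfl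
  | succ i ih =>
    rw [Function.iterate_succ_apply', Function.iterate_succ_apply', hs_coe, ih]

lemma hs_ft (t : ℝ) (S : 𝓢(ℂ, ℂ)) (ξ : ℂ) :
    (𝓕 (hs t S)) ξ = (((2 * Real.pi * t * ‖ξ‖) ^ 2 : ℝ) : ℂ) * (𝓕 S) ξ := by
  unfold hs
  rw [FourierTransform.fourier_smul, FourierTransform.fourier_add, smul_apply, add_apply,
    ft_dv, ft_dv, ft_dv, ft_dv, inner_one, inner_I, smul_eq_mul]
  have e1 : (‖ξ‖ : ℂ) ^ 2 = (ξ.re : ℂ) ^ 2 + (ξ.im : ℂ) ^ 2 := by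
    have := Complex.sq_norm_sub_sq_re ξ
    have h2 : ‖ξ‖ ^ 2 = ξ.re ^ 2 + ξ.im ^ 2 := by linarith
    exact_mod_cast h2
  push_cast
  have e2 : ((2 : ℂ) * Real.pi * t * ‖ξ‖) ^ 2 = (2 * Real.pi * t) ^ 2 *
      ((ξ.re : ℂ) ^ 2 + (ξ.im : ℂ) ^ 2) := by rw [mul_pow, e1]
  rw [e2]
  linear_combination (-(t : ℂ) ^ 2 * (2 * Real.pi) ^ 2 * ((ξ.re : ℂ) ^ 2 + (ξ.im : ℂ) ^ 2) *
    (𝓕 S) ξ) * I_sq

lemma hs_itft (t : ℝ) (S : 𝓢(ℂ, ℂ)) (ξ : ℂ) (i : ℕ) :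
    (𝓕 ((hs t)^[i] S)) ξ = ((((2 * Real.pi * t * ‖ξ‖) ^ 2) ^ i : ℝ) : ℂ) * (𝓕 S) ξ := by
  induction i with
  | zero => simp
  | succ i ih =>
    rw [Function.iterate_succ_apply', hs_ft, ih]
    push_cast; ring

/-- the polynomial `F` of `-t² Δ` on Schwartz functions -/
def ops (t : ℝ) (F : Polynomial ℝ) (S : 𝓢(ℂ, ℂ)) : 𝓢(ℂ, ℂ) :=
  ∑ i ∈ F.support, ((F.coeff i : ℝ) : ℂ) • (hs t)^[i] S

lemma ops_coe (t : ℝ) (F : Polynomial ℝ) (S : 𝓢(ℂ, ℂ)) (z : ℂ) :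
    ops t F S z = opP (fun _ => 1) t F ⇑S z := by
  unfold ops opP
  rw [Polynomial.sum_def, sum_apply]
  refine Finset.sum_congr rfl fun i _ => ?_
  rw [smul_apply, smul_eq_mul, hs_it]

lemma ops_ft (t : ℝ) (F : Polynomial ℝ) (S : 𝓢(ℂ, ℂ)) (ξ : ℂ) :
    (𝓕 (ops t F S)) ξ = ((F.eval ((2 * Real.pi * t * ‖ξ‖) ^ 2) : ℝ) : ℂ) * (𝓕 S) ξ := by
  have h1 : 𝓕 (ops t F S) = ∑ i ∈ F.support, ((F.coeff i : ℝ) : ℂ) • 𝓕 ((hs t)^[i] S) := by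
    unfold ops
    rw [FourierTransform.fourier_sum]
    refine Finset.sum_congr rfl fun i _ => ?_
    rw [FourierTransform.fourier_smul]
  rw [h1, sum_apply, Polynomial.eval_eq_sum, Polynomial.sum_def, ofReal_sum,
    Finset.sum_mul]
  refine Finset.sum_congr rfl fun i _ => ?_
  rw [smul_apply, smul_eq_mul, hs_itft]
  push_cast; ring

/-- **Comparison** of the disc average with the polynomial -/
theorem disc_pol {G : ℂ → ℂ} (hG : CS G) {t R : ℝ} (ht : 0 < t) (hR : 0 < R) (N : ℕ) :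
    ∫ z, ‖cv (R * t) G z - opP (fun _ => 1) t (FP R N) G z‖ ^ 2 ≤
      (R ^ (2 * N) / (Nat.factorial (2 * N) : ℝ)) ^ 2 *
        ∫ z, ‖(sL1 (fun _ => 1) t)^[N] G z‖ ^ 2 := by
  set S : 𝓢(ℂ, ℂ) := sch G hG with hS
  have hSG : ⇑S = G := rfl
  set D : 𝓢(ℂ, ℂ) := sch (cv (R * t) G) (cv_CS hG) + (-1 : ℂ) • ops t (FP R N) S with hD
  have eD : ∀ z, D z = cv (R * t) G z - opP (fun _ => 1) t (FP R N) G z := by
    intro z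
    rw [hD, add_apply, smul_apply, ops_coe, sch_apply, hSG, smul_eq_mul]; ring
  have eN : ∀ z, (sL1 (fun _ => 1) t)^[N] G z = ((hs t)^[N] S) z := by
    intro z
    rw [hs_it, hSG]
  simp only [← eD, eN]
  rw [← plan2 D, ← plan2 ((hs t)^[N] S), ← integral_const_mul]
  refine integral_mono (isq _) ((isq _).const_mul _) fun ξ => ?_
  beta_reduce
  have hRt : 0 < R * t := mul_pos hR ht
  have f1 : (𝓕 D) ξ = (((JJ (R * √((2 * Real.pi * t * ‖ξ‖) ^ 2)) -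
      (FP R N).eval ((2 * Real.pi * t * ‖ξ‖) ^ 2) : ℝ)) : ℂ) * (𝓕 S) ξ := by
    have e1 : (𝓕 D) ξ = (𝓕 (sch (cv (R * t) G) (cv_CS hG))) ξ - (𝓕 (ops t (FP R N) S)) ξ := by
      rw [hD, FourierTransform.fourier_add, FourierTransform.fourier_smul, add_apply,
        smul_apply, smul_eq_mul]
      ring
    have e2 : (𝓕 (sch (cv (R * t) G) (cv_CS hG))) ξ = 𝓕 (cv (R * t) G) ξ := rfl
    have e3 : (𝓕 S) ξ = 𝓕 G ξ := rfl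
    rw [e1, e2, cv_ft hRt hG, ops_ft, ← e3, Real.sqrt_sq (by positivity)]
    have e4 : R * t * (2 * Real.pi * ‖ξ‖) = R * (2 * Real.pi * t * ‖ξ‖) := by ring
    rw [e4]
    push_cast; ring
  have h1 := FP_bd R N (sq_nonneg (2 * Real.pi * t * ‖ξ‖))
  have h2 : (R ^ 2 * (2 * Real.pi * t * ‖ξ‖) ^ 2) ^ N / (Nat.factorial (2 * N) : ℝ) =
      R ^ (2 * N) / (Nat.factorial (2 * N) : ℝ) * |((2 * Real.pi * t * ‖ξ‖) ^ 2) ^ N| := by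
    rw [abs_of_nonneg (by positivity), mul_pow (R ^ 2), ← pow_mul R]
    ring
  rw [h2] at h1
  rw [f1, hs_itft, norm_mul, norm_mul, norm_real, norm_real, Real.norm_eq_abs, Real.norm_eq_abs]
  calc _ ≤ (R ^ (2 * N) / (Nat.factorial (2 * N) : ℝ) *
        |((2 * Real.pi * t * ‖ξ‖) ^ 2) ^ N| * ‖(𝓕 S) ξ‖) ^ 2 :=
        pow_le_pow_left₀ (by positivity) (mul_le_mul_of_nonneg_right h1 (norm_nonneg _)) 2
    _ = _ := by ring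

end

end Pool.Agent.TH294.RG
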