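import Pool.Agent.TH294.RG.Pl3

/-!
Project RG (helper294): powers of the Laplacian of `χ u²`.
-/

set_option autoImplicit false
open MeasureTheory Filter Topology Complex ProbabilityTheory
open scoped ContDiff

namespace Pool.Agent.TH294.RG

open Pool.Agent.W745.RW Pool.Agent.TH294.RS

noncomputable section

variable {B : Set ℂ} {a : ℂ → ℝ} {h : ℕ → ℝ}

/-- the commutator of the Laplacian with a smooth function -/
lemma sL_com (hB : IsOpen B) (hh : Tendsto h atTop (𝓝 0)) (ha : ContDiffOn ℝ ∞ a B) {χ : ℂ → ℂ}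
    (hχ : ContDiffOn ℝ ∞ χ B) {E : ℕ → ℂ → ℂ} (hE : QD B h E) :
    ∃ Q, QD B h Q ∧ ∀ n, ∀ z ∈ B, sL a h (fun n z => χ z * E n z) n z =
      χ z * sL a h E n z + (h n : ℂ) * Q n z := by
  have s1 : ContDiffOn ℝ ∞ (fun z => (a z : ℂ) * dd χ z) B := (cxa ha).mul (dd_sm hB hχ)
  have s2 : ContDiffOn ℝ ∞ (fun z => (a z : ℂ) * db χ z) B := (cxa ha).mul (db_sm hB hχ)
  have q1 := hE.sP hB hh ha
  have q2 := hE.smulc hB hh s1
  have q3 := q2.sM hB hh ha
  refine ⟨_, (((q1.smulc hB hh s2).cmul hB hh (-1)).add (q3.cmul hB hh (-1))).add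
    ((q2.smulc hB hh (ab_sm hB ha)).hmul hB hh), fun n z hz => ?_⟩
  have sE := hE.lb.sm
  have P1 : ∀ w ∈ B, DP a (h n) (fun z => χ z * E n z) w =
      χ w * DP a (h n) (E n) w + (h n : ℂ) * ((a w : ℂ) * dd χ w * E n w) := by
    intro w hw
    simp only [DP]
    rw [dd_mul (fda hB hχ hw) (fda hB (sE n) hw)]
    ring
  have d1 := fda hB hχ hz
  have d2 := fda hB (q1.lb.sm n) hz
  have d3 := fda hB (q2.lb.sm n) hz
  have M1 : DM a (h n) (DP a (h n) (fun z => χ z * E n z)) z =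
      χ z * RS.sM a h (RS.sP a h E) n z + (h n : ℂ) * ((a z : ℂ) * db χ z * RS.sP a h E n z) +
      (h n : ℂ) * RS.sM a h (fun n z => (a z : ℂ) * dd χ z * E n z) n z := by
    rw [DM_cg hB (h n) P1 hz]
    simp only [RS.sM, DM]
    have e1 : db (fun w => χ w * DP a (h n) (E n) w +
        (h n : ℂ) * ((a w : ℂ) * dd χ w * E n w)) z = db (fun w => χ w * RS.sP a h E n w) z +
        db (fun w => (h n : ℂ) * ((a w : ℂ) * dd χ w * E n w)) z :=
      db_add (d1.mul d2) (d3.const_mul _)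
    have e7 : db (fun w => χ w * RS.sP a h E n w) z = db χ z * RS.sP a h E n z +
      χ z * db (RS.sP a h E n) z := db_mul d1 d2
    rw [e1, e7]
    have e2 : db (fun w => (h n : ℂ) * ((a w : ℂ) * dd χ w * E n w)) z =
        (h n : ℂ) * db (fun w => (a w : ℂ) * dd χ w * E n w) z := by
      have := db_mul (f := fun _ => (h n : ℂ)) (differentiableAt_const _) d3
      rw [this]
      have e3 : db (fun _ : ℂ => (h n : ℂ)) z = 0 := by
        simp [db, dx, dy]
      rw [e3]; ring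
    rw [e2]; ring
  rw [sL_eq hB ha (fun n => hχ.mul (sE n)) n hz, sL_eq hB ha sE n hz]
  have e4 : RS.sM a h (RS.sP a h fun n z => χ z * E n z) n z =
      DM a (h n) (DP a (h n) (fun z => χ z * E n z)) z := rfl
  have e5 : RS.sP a h (fun n z => χ z * E n z) n z =
      χ z * RS.sP a h E n z + (h n : ℂ) * ((a z : ℂ) * dd χ z * E n z) := P1 z hz
  rw [e4, M1, e5]
  ring

lemma QD.it (hB : IsOpen B) (hh : Tendsto h atTop (𝓝 0)) (ha : ContDiffOn ℝ ∞ a B)
    {E : ℕ → ℂ → ℂ} (hE : QD B h E) (N : ℕ) : QD B h ((RG.sL a h)^[N] E) := by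
  induction N with
  | zero => exact hE
  | succ N ih =>
    rw [Function.iterate_succ_apply']
    exact ih.sL hB hh ha

lemma sL_comN (hB : IsOpen B) (hh : Tendsto h atTop (𝓝 0)) (ha : ContDiffOn ℝ ∞ a B) {χ : ℂ → ℂ}
    (hχ : ContDiffOn ℝ ∞ χ B) {E : ℕ → ℂ → ℂ} (hE : QD B h E) (N : ℕ) :
    ∃ Q, QD B h Q ∧ ∀ n, ∀ z ∈ B, (sL a h)^[N] (fun n z => χ z * E n z) n z =
      χ z * (sL a h)^[N] E n z + (h n : ℂ) * Q n z := by
  induction N with
  | zero => exact ⟨_, hE.cmul hB hh 0, fun n z _ => by simp⟩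
  | succ N ih =>
    obtain ⟨Q, hQ, hQ'⟩ := ih
    obtain ⟨Q2, hQ2, hQ2'⟩ := sL_com hB hh ha hχ (hE.it hB hh ha N)
    refine ⟨_, hQ2.add (hQ.sL hB hh ha), fun n z hz => ?_⟩
    rw [Function.iterate_succ_apply', Function.iterate_succ_apply']
    have e1 : ∀ n, ∀ z ∈ B, (sL a h)^[N] (fun n z => χ z * E n z) n z =
        (fun n z => 1 * (χ z * (sL a h)^[N] E n z) + (h n : ℂ) * Q n z) n z := by
      intro n z hz
      rw [hQ' n z hz]; ring
    rw [sL_cg hB e1 n hz]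
    have s1 : ContDiffOn ℝ ∞ (fun z => χ z * (sL a h)^[N] E n z) B :=
      hχ.mul ((hE.it hB hh ha N).lb.sm n)
    have e2 : sL a h (fun n z => 1 * (χ z * (sL a h)^[N] E n z) + (h n : ℂ) * Q n z) n z =
        sL a h (fun n z => χ z * (sL a h)^[N] E n z) n z + (h n : ℂ) * sL a h Q n z := by
      simp only [sL]
      rw [lap_lin hB s1 (hQ.lb.sm n) _ _ hz]
      ring
    rw [e2, hQ2' n z hz]
    ring

end

end Pool.Agent.TH294.RG
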