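import Pool.Agent.TH294.RG.Pl4

/-!
Project RG (helper294): growth of the powers of the Laplacian of `χ u²`.
-/

set_option autoImplicit false
open MeasureTheory Filter Topology Complex ProbabilityTheory
open scoped ContDiff

namespace Pool.Agent.TH294.RG

open Pool.Agent.W745.RW Pool.Agent.TH294.RS

noncomputable section

/-- comparison functional -/
def Gi (T : Set ℂ) (χ : ℂ → ℝ) (a : ℂ → ℝ) (N : ℕ) (t : ℝ) (v : ℂ → ℝ) : ℂ :=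
  ((∫ z in T, (‖(sL1 a t)^[N] (fun w => (χ w : ℂ) * (v w : ℂ) ^ 2) z‖ ^ 2 -
    χ z ^ 2 * ‖(sL1 a t)^[N] (fun w => (v w : ℂ) ^ 2) z‖ ^ 2) : ℝ) : ℂ)

lemma Gi_hom {B T : Set ℂ} (hB : IsOpen B) (hT : MeasurableSet T) (hTB : T ⊆ B) {χ : ℂ → ℝ}
    (hχ : ContDiffOn ℝ ∞ χ B) {a : ℂ → ℝ} (ha : ContDiffOn ℝ ∞ a B) (N : ℕ) (t c : ℝ)
    (v : ℂ → ℝ) (hv : ContDiffOn ℝ ∞ v B) :
    Gi T χ a N t (fun z => c * v z) = (c : ℂ) ^ 4 * Gi T χ a N t v := by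
  have s : ContDiffOn ℝ ∞ (fun w => (v w : ℂ) ^ 2) B := (cxa hv).pow 2
  have s2 : ContDiffOn ℝ ∞ (fun w => (χ w : ℂ) * (v w : ℂ) ^ 2) B := (cxa hχ).mul s
  have e0 : (fun w => (((fun z => c * v z) w : ℝ) : ℂ) ^ 2) = fun w => (c : ℂ) ^ 2 *
      (v w : ℂ) ^ 2 := by
    funext w; push_cast; ring
  have e1 : (fun w => (χ w : ℂ) * (((fun z => c * v z) w : ℝ) : ℂ) ^ 2) = fun w => (c : ℂ) ^ 2 *
      ((χ w : ℂ) * (v w : ℂ) ^ 2) := by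
    funext w; push_cast; ring
  unfold Gi
  have e4 : (c : ℂ) ^ 4 = ((c ^ 4 : ℝ) : ℂ) := by push_cast; rfl
  rw [e0, e1, e4, ← ofReal_mul, ← integral_const_mul]
  congr 1
  refine setIntegral_congr_fun hT fun z hz => ?_
  rw [sL1_cm hB ha t s _ N z (hTB hz), sL1_cm hB ha t s2 _ N z (hTB hz), norm_mul, norm_mul,
    norm_pow, norm_real, Real.norm_eq_abs, sq_abs]
  ring

/-- an elementary inequality -/
lemma el_bd (x y : ℂ) {t : ℝ} (hp : 0 < t) (h3 : t < 1) :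
    |‖x + (t : ℂ) * y‖ ^ 2 - ‖x‖ ^ 2| ≤ t * (‖x‖ ^ 2 + 2 * ‖y‖ ^ 2) := by
  have a1 : ‖x + (t : ℂ) * y‖ ≤ ‖x‖ + t * ‖y‖ := by
    refine (norm_add_le _ _).trans (le_of_eq ?_)
    rw [norm_mul, norm_real, Real.norm_eq_abs, abs_of_pos hp]
  have a2 : ‖x‖ - t * ‖y‖ ≤ ‖x + (t : ℂ) * y‖ := by
    have := norm_sub_norm_le x (-((t : ℂ) * y))
    rw [norm_neg, norm_mul, norm_real, Real.norm_eq_abs, abs_of_pos hp, sub_neg_eq_add] at this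
    exact this
  have b1 := norm_nonneg x
  have b2 := norm_nonneg y
  have b3 := norm_nonneg (x + (t : ℂ) * y)
  rw [abs_le]
  have k1 : 2 * ‖x‖ * ‖y‖ ≤ ‖x‖ ^ 2 + ‖y‖ ^ 2 := two_mul_le_add_sq _ _
  have k2 : t * (2 * ‖x‖ * ‖y‖) ≤ t * (‖x‖ ^ 2 + ‖y‖ ^ 2) :=
    mul_le_mul_of_nonneg_left k1 hp.le
  have k3 : (t * ‖y‖) ^ 2 ≤ t * ‖y‖ ^ 2 := by
    have : (t * ‖y‖) ^ 2 = t * (t * ‖y‖ ^ 2) := by ring
    rw [this]
    refine mul_le_mul_of_nonneg_left ?_ hp.le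
    exact mul_le_of_le_one_left (by positivity) h3.le
  constructor
  · rcases le_or_gt (t * ‖y‖) ‖x‖ with hc | hc
    · have a3 : (‖x‖ - t * ‖y‖) ^ 2 ≤ ‖x + (t : ℂ) * y‖ ^ 2 :=
        pow_le_pow_left₀ (by linarith) a2 2
      nlinarith
    · have a4 : ‖x‖ ^ 2 ≤ (t * ‖y‖) ^ 2 := pow_le_pow_left₀ b1 hc.le 2
      have a5 : 0 ≤ ‖x + (t : ℂ) * y‖ ^ 2 := by positivity
      have a6 : 0 ≤ t * (‖x‖ ^ 2 + ‖y‖ ^ 2) := by positivity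
      nlinarith
  · have a3 : ‖x + (t : ℂ) * y‖ ^ 2 ≤ (‖x‖ + t * ‖y‖) ^ 2 := pow_le_pow_left₀ b3 a1 2
    nlinarith

lemma Gi_lim {B T : Set ℂ} (hB : IsOpen B) (hT : IsCompact T) (hTB : T ⊆ B) {χ : ℂ → ℝ}
    (hχ : ContDiffOn ℝ ∞ χ B) {a : ℂ → ℝ} {h : ℕ → ℝ} {u : ℕ → ℂ → ℝ}
    {M : ℕ → ℂ → ℂ} (H : RawG B a h u M) (ml : ∀ k, ML B (M k))
    (m0 : ∀ z, (starRingEnd ℂ) (M 0 z) = M 0 z)
    (hb : ∀ K : Set ℂ, IsCompact K → K ⊆ B →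
      ∃ C : ℝ, ∀ᶠ n in atTop, ∫ z in K, u n z ^ 4 ≤ C) (N : ℕ) :
    Tendsto (fun n => Gi T χ a N (h n) (u n)) atTop (𝓝 0) := by
  have A := H.as hB ml m0 hb
  have lbu : LB B 4 (fun n z => (u n z : ℂ)) := A.bd 0
  obtain ⟨mc, up, dn⟩ := lad hB H.hpos H.hlim H.sa H.pa (u := fun n z => (u n z : ℂ))
    (fun n z => conj_ofReal _) lbu (fun n z hz => by
      rw [lap_re hB (H.sm n) hz]
      have h1 := H.eq n z hz
      have h2 : ((h n ^ 2 * (a z ^ 2 * lap (u n) z) + u n z : ℝ) : ℂ) = 0 := by rw [h1]; simp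
      push_cast at h2
      linear_combination h2)
  have mc0 : MC B h (fun n z => (u n z : ℂ)) := mc 0
  have hE : QD B h (fun n z => (u n z : ℂ) ^ 2) := (QD.mul mc0 mc0).cg fun n z _ => by ring
  obtain ⟨Q, hQ, hQ'⟩ := sL_comN hB H.hlim H.sa (cxa hχ) hE N
  have hA : QD B h (fun n z => (χ z : ℂ) * (sL a h)^[N] (fun n z => (u n z : ℂ) ^ 2) n z) :=
    (hE.it hB H.hlim H.sa N).smulc hB H.hlim (cxa hχ)
  obtain ⟨C1, hC1⟩ := hA.lb.bd T hT hTB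
  obtain ⟨C2, hC2⟩ := hQ.lb.bd T hT hTB
  have cA : ∀ n, ContinuousOn (fun z => ‖(χ z : ℂ) *
      (sL a h)^[N] (fun n z => (u n z : ℂ) ^ 2) n z‖ ^ 2) T := fun n =>
    (hA.lb.copow n 2).mono hTB
  have cQ : ∀ n, ContinuousOn (fun z => ‖Q n z‖ ^ 2) T := fun n => (hQ.lb.copow n 2).mono hTB
  have hh1 : ∀ᶠ n in atTop, h n < 1 := H.hlim.eventually (gt_mem_nhds one_pos)
  have lim : Tendsto (fun n => h n * (C1 + 2 * C2)) atTop (𝓝 0) := by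
    simpa using H.hlim.mul_const (C1 + 2 * C2)
  refine squeeze_zero_norm' ?_ lim
  filter_upwards [hC1, hC2, hh1] with n h1 h2 h3
  have hp := H.hpos n
  unfold Gi
  rw [norm_real]
  have i1 : IntegrableOn (fun z => h n * (‖(χ z : ℂ) *
      (sL a h)^[N] (fun n z => (u n z : ℂ) ^ 2) n z‖ ^ 2 + 2 * ‖Q n z‖ ^ 2)) T :=
    (continuousOn_const.mul ((cA n).add (continuousOn_const.mul (cQ n)))).integrableOn_compact hT
  refine (norm_integral_le_of_norm_le i1 ?_).trans ?_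
  · refine (ae_restrict_mem hT.measurableSet).mono fun z hz => ?_
    have hzB := hTB hz
    have e1 := hQ' n z hzB
    have e2 : (sL a h)^[N] (fun n z => (χ z : ℂ) * (u n z : ℂ) ^ 2) n z =
      (sL1 a (h n))^[N] (fun w => (χ w : ℂ) * (u n w : ℂ) ^ 2) z := by rw [sL_it]
    have e3 : (sL a h)^[N] (fun n z => (u n z : ℂ) ^ 2) n z =
      (sL1 a (h n))^[N] (fun w => (u n w : ℂ) ^ 2) z := by rw [sL_it]
    rw [e2] at e1
    have e4 : χ z ^ 2 * ‖(sL1 a (h n))^[N] (fun w => (u n w : ℂ) ^ 2) z‖ ^ 2 =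
        ‖(χ z : ℂ) * (sL a h)^[N] (fun n z => (u n z : ℂ) ^ 2) n z‖ ^ 2 := by
      rw [e3, norm_mul, mul_pow, norm_real, Real.norm_eq_abs, sq_abs]
    rw [e4, e1]
    rw [Real.norm_eq_abs]
    exact el_bd _ _ hp h3
  · rw [integral_const_mul]
    refine mul_le_mul_of_nonneg_left ?_ hp.le
    rw [integral_add ((cA n).integrableOn_compact hT)
      (((cQ n).integrableOn_compact hT).const_mul 2), integral_const_mul]
    linarith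

end

end Pool.Agent.TH294.RG
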