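import Pool.Agent.TH294.RG.Pl5

/-!
Project RG (helper294): growth of the powers of the Laplacian of `χ u²`, relative form.
-/

set_option autoImplicit false
open MeasureTheory Filter Topology Complex ProbabilityTheory
open scoped ContDiff

namespace Pool.Agent.TH294.RG

open Pool.Agent.W745.RW Pool.Agent.TH294.RS

noncomputable section

variable {Y : Type*} [MeasurableSpace Y] {m : ℂ → ℝ} {e : Y → ℂ} {ν : Kernel ℂ Y}

lemma ang_le [IsMarkovKernel ν] (h1 : ∀ y, ‖e y‖ = 1) {F : Polynomial ℝ}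
    {C : ℝ} (hF : ∀ x, 0 ≤ x → x ≤ 4 → F.eval x ^ 2 ≤ C) (z : ℂ) :
    0 ≤ ang F e (ν z) ∧ ang F e (ν z) ≤ 2 * C := by
  unfold ang
  have hb : ∀ p : Y × Y, F.eval (2 - 2 * qq e 1 p) ^ 2 + F.eval (2 + 2 * qq e 1 p) ^ 2 ≤ 2 * C := by
    intro p
    have h2 := abs_le.1 (qq_bd h1 1 p)
    have h3 := hF (2 - 2 * qq e 1 p) (by linarith [h2.2]) (by linarith [h2.1])
    have h4 := hF (2 + 2 * qq e 1 p) (by linarith [h2.1]) (by linarith [h2.2])
    linarith
  have nn : ∀ p : Y × Y, 0 ≤ F.eval (2 - 2 * qq e 1 p) ^ 2 + F.eval (2 + 2 * qq e 1 p) ^ 2 :=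
    fun p => by positivity
  constructor
  · exact integral_nonneg nn
  · have := integral_mono_of_nonneg (μ := (ν z).prod (ν z)) (ae_of_all _ nn)
      (integrable_const (2 * C)) (ae_of_all _ hb)
    simpa using this

lemma m2_int {B : Set ℂ} (hm : ∀ K : Set ℂ, IsCompact K → K ⊆ B → MemLp m 2 (volume.restrict K))
    {φ : ℂ → ℝ} (hφ : TF B φ) : Integrable (fun z => φ z * m z ^ 2) := by
  obtain ⟨C, hC⟩ := hφ.2.1.exists_bound_of_continuousOn hφ.1.continuous.continuousOn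
  have h0 : IntegrableOn (fun z => m z ^ 2) (tsupport φ) := (hm _ hφ.2.1 hφ.2.2).integrable_sq
  have h1 : IntegrableOn (fun z => φ z * m z ^ 2) (tsupport φ) := by
    refine Integrable.bdd_mul (c := C) h0 (hφ.1.continuous.aestronglyMeasurable) ?_
    exact (ae_restrict_mem hφ.2.1.measurableSet).mono fun z hz => hC z hz
  rw [← integrableOn_iff_integrable_of_support_subset (s := tsupport φ)]
  · exact h1
  · intro z hz
    apply subset_tsupport
    intro h0
    apply hz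
    simp [h0]

/-- powers of the Laplacian of `χ u²` -/
theorem grow [IsMarkovKernel ν] {Ω : Set ℂ} {a : ℂ → ℝ} {h : ℕ → ℝ}
    {u : ℕ → ℂ → ℝ} (he : Measurable e) (h1 : ∀ y, ‖e y‖ = 1)
    (hm : ∀ K : Set ℂ, IsCompact K → K ⊆ Ω → MemLp m 2 (volume.restrict K))
    (H : RawG Ω a h u (MM m e ν)) {K : Set ℂ} (hK : IsCompact K) (hKΩ : K ⊆ Ω) {χ : ℂ → ℝ}
    (hχ : TF (interior K) χ) (c0 : ∀ z, 0 ≤ χ z) (c1 : ∀ z, χ z ≤ 1) :
    ∃ C : ℝ, 0 < C ∧ ∀ N : ℕ, 1 ≤ N → ∀ᶠ n in atTop,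
      ∫ z in tsupport χ, ‖(sL1 a (h n))^[N] (fun w => (χ w : ℂ) * (u n w : ℂ) ^ 2) z‖ ^ 2 ≤
        16 ^ N * C * (1 + ∫ z in K, u n z ^ 4) := by
  have hBΩ : interior K ⊆ Ω := interior_subset.trans hKΩ
  have hB : IsOpen (interior K) := isOpen_interior
  have hT : IsCompact (tsupport χ) := hχ.2.1
  have hTB : tsupport χ ⊆ interior K := hχ.2.2
  have hχ2 : TF (interior K) (fun z => χ z * χ z) := TF.mulc hB hχ hχ.1.contDiffOn
  have mB : ∀ K' : Set ℂ, IsCompact K' → K' ⊆ interior K → MemLp m 2 (volume.restrict K') :=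
    fun K' hK' hKB => hm K' hK' (hKB.trans hBΩ)
  have M0 : 0 ≤ ∫ z, χ z * χ z * m z ^ 2 := integral_nonneg fun z => by
    have := c0 z
    positivity
  refine ⟨3 + 2 * ∫ z, χ z * χ z * m z ^ 2, by linarith, fun N hN => ?_⟩
  have k1 := rel4 H hK hKΩ (Gi (tsupport χ) χ a N) 0
    (fun t c v hv => Gi_hom hB hT.measurableSet hTB hχ.1.contDiffOn (H.sa.mono hBΩ) N t c v hv)
    (fun h' u' H' hb => Gi_lim hB hT hTB hχ.1.contDiffOn H'
      (fun k => MM_ml he h1 mB k) (fun z => by rw [MM_0, conj_ofReal]) hb N)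
    (fun h' u' H' hb => Gi_lim hB hT hTB hχ.1.contDiffOn H' (fun k => ML.zero)
      (fun z => map_zero _) hb N)
  have k2 := spec_real he h1 hm H hK hKΩ hχ2 (Polynomial.X ^ N) (T := fun n => sR a (h n))
    (fun _ _ _ _ => rfl)
  have ev1 := (k1.norm.eventually (gt_mem_nhds (show ‖(0 : ℂ)‖ < 1 by simp)))
  have ev2 := (k2.abs.eventually (gt_mem_nhds (show |(0 : ℝ)| < 1 by simp)))
  filter_upwards [ev1, ev2] with n g1 g2
  have T0 : 0 ≤ ∫ z in K, u n z ^ 4 := integral_nonneg fun z => by positivity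
  set X := 1 + ∫ z in K, u n z ^ 4 with hX
  have X1 : 1 ≤ X := by linarith
  have X0 : 0 < X := by linarith
  -- the functional
  have s2 : ContDiffOn ℝ ∞ (fun w => u n w ^ 2) (interior K) := ((H.sm n).mono hBΩ).pow 2
  have sa := H.sa.mono hBΩ
  have g3 : (∫ z in tsupport χ, (‖(sL1 a (h n))^[N] (fun w => (χ w : ℂ) * (u n w : ℂ) ^ 2) z‖ ^ 2 -
      χ z ^ 2 * ‖(sL1 a (h n))^[N] (fun w => (u n w : ℂ) ^ 2) z‖ ^ 2)) ≤ X := by
    rw [sub_zero, norm_mul, norm_inv, norm_real, Real.norm_eq_abs, abs_of_pos X0, Gi, norm_real,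
      inv_mul_lt_iff₀ X0, mul_one, Real.norm_eq_abs] at g1
    exact (le_abs_self _).trans g1.le
  have cs1 : ContinuousOn (fun z => ‖(sL1 a (h n))^[N]
      (fun w => (χ w : ℂ) * (u n w : ℂ) ^ 2) z‖ ^ 2) (tsupport χ) :=
    (((sL1_sm hB sa (h n) ((cxa hχ.1.contDiffOn).mul ((cxa ((H.sm n).mono hBΩ)).pow 2))
      N).continuousOn.norm).pow 2).mono hTB
  have cs2 : ContinuousOn (fun z => χ z ^ 2 * ‖(sL1 a (h n))^[N]
      (fun w => (u n w : ℂ) ^ 2) z‖ ^ 2) (tsupport χ) :=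
    ((hχ.1.continuous.continuousOn.pow 2).mul (((sL1_sm hB sa (h n)
      ((cxa ((H.sm n).mono hBΩ)).pow 2) N).continuousOn.norm).pow 2)).mono hTB
  rw [integral_sub (cs1.integrableOn_compact hT) (cs2.integrableOn_compact hT)] at g3
  -- the spectral formula
  have e1 : ∫ z in tsupport χ, χ z ^ 2 * ‖(sL1 a (h n))^[N] (fun w => (u n w : ℂ) ^ 2) z‖ ^ 2 =
      ∫ z, χ z * χ z * ((sR a (h n))^[N] (fun w => u n w ^ 2) z) ^ 2 := by
    have e2 : ∫ z, χ z * χ z * ((sR a (h n))^[N] (fun w => u n w ^ 2) z) ^ 2 =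
        ∫ z in tsupport χ, χ z * χ z * ((sR a (h n))^[N] (fun w => u n w ^ 2) z) ^ 2 := by
      refine (setIntegral_eq_integral_of_forall_compl_eq_zero (fun z hz => ?_)).symm
      rw [image_eq_zero_of_notMem_tsupport hz]; simp
    rw [e2]
    refine setIntegral_congr_fun hT.measurableSet fun z hz => ?_
    have e3 := sL1_re hB sa (h n) s2 (G := fun w => (u n w : ℂ) ^ 2)
      (fun w _ => by push_cast; rfl) N z (hTB hz)
    simp only [e3, norm_real, Real.norm_eq_abs, sq_abs]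
    ring
  have e4 : ∀ z, (Polynomial.X ^ N : Polynomial ℝ).sum (fun i c => c *
      (sR a (h n))^[i] (fun w => u n w ^ 2) z) = (sR a (h n))^[N] (fun w => u n w ^ 2) z := by
    intro z
    rw [Polynomial.X_pow_eq_monomial, Polynomial.sum_monomial_index]
    · rw [one_mul]
    · rw [zero_mul]
  have hN0 : N ≠ 0 := by omega
  have e5 : (2 * (Polynomial.X ^ N : Polynomial ℝ).eval 0 ^ 2 +
      (Polynomial.X ^ N : Polynomial ℝ).eval 4 ^ 2) / 3 = 16 ^ N / 3 := by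
    rw [Polynomial.eval_pow, Polynomial.eval_X, Polynomial.eval_pow, Polynomial.eval_X,
      zero_pow hN0, ← pow_mul, mul_comm N 2, pow_mul]
    norm_num
  have e6 : (Polynomial.X ^ N : Polynomial ℝ).eval 0 ^ 2 = 0 := by
    rw [Polynomial.eval_pow, Polynomial.eval_X, zero_pow hN0]; simp
  simp only [e4] at g2
  rw [e5, e6] at g2
  simp only [zero_add] at g2
  rw [abs_div, abs_of_pos X0, div_lt_one X0] at g2
  have g4 := (le_abs_self _).trans g2.le
  have U1 : ∫ z, χ z * χ z * u n z ^ 4 ≤ X := by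
    have e2 : ∫ z, χ z * χ z * u n z ^ 4 = ∫ z in K, χ z * χ z * u n z ^ 4 := by
      refine (setIntegral_eq_integral_of_forall_compl_eq_zero (fun z hz => ?_)).symm
      rw [TF.zero hχ (fun h => hz (interior_subset h))]; simp
    rw [e2]
    have cu : ContinuousOn (fun z => u n z ^ 4) K := ((H.sm n).continuousOn.mono hKΩ).pow 4
    have cc : ContinuousOn (fun z => χ z * χ z * u n z ^ 4) K :=
      ((hχ.1.continuous.mul hχ.1.continuous).continuousOn).mul cu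
    have := intK_mono hK cc cu (fun z _ => by
      have h2 : χ z * χ z ≤ 1 := by nlinarith [c0 z, c1 z]
      exact mul_le_of_le_one_left (by positivity) h2)
    linarith
  have M3 : 0 ≤ ∫ z, χ z * χ z * (3 * m z ^ 2) := integral_nonneg fun z => by
    have := c0 z
    positivity
  have hF : ∀ x : ℝ, 0 ≤ x → x ≤ 4 → (Polynomial.X ^ N : Polynomial ℝ).eval x ^ 2 ≤ 16 ^ N := by
    intro x hx0 hx4
    rw [Polynomial.eval_pow, Polynomial.eval_X, ← pow_mul, mul_comm N 2, pow_mul]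
    refine pow_le_pow_left₀ (sq_nonneg _) ?_ N
    nlinarith
  have A1 : ∫ z, χ z * χ z * (m z ^ 2 * ang (Polynomial.X ^ N) e (ν z)) ≤
      2 * 16 ^ N * ∫ z, χ z * χ z * m z ^ 2 := by
    rw [← integral_const_mul]
    refine integral_mono_of_nonneg (ae_of_all _ fun z => ?_)
      ((m2_int mB hχ2).const_mul _) (ae_of_all _ fun z => ?_)
    · have h5 := (ang_le (ν := ν) h1 hF z).1
      have := c0 z
      show 0 ≤ χ z * χ z * (m z ^ 2 * ang (Polynomial.X ^ N) e (ν z))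
      positivity
    · have h5 := (ang_le (ν := ν) h1 hF z).2
      have h6 := c0 z
      show χ z * χ z * (m z ^ 2 * ang (Polynomial.X ^ N) e (ν z)) ≤
        2 * 16 ^ N * (χ z * χ z * m z ^ 2)
      have h7 : 0 ≤ χ z * χ z * m z ^ 2 := by positivity
      calc χ z * χ z * (m z ^ 2 * ang (Polynomial.X ^ N) e (ν z)) =
          (χ z * χ z * m z ^ 2) * ang (Polynomial.X ^ N) e (ν z) := by ring
        _ ≤ (χ z * χ z * m z ^ 2) * (2 * 16 ^ N) := mul_le_mul_of_nonneg_left h5 h7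
        _ = _ := by ring
  have P1 : (1 : ℝ) ≤ 16 ^ N := one_le_pow₀ (by norm_num)
  have P0 : (0 : ℝ) < 16 ^ N := by positivity
  rw [e1] at g3
  set S := ∫ z, χ z * χ z * ((sR a (h n))^[N] (fun w => u n w ^ 2) z) ^ 2
  set V := ∫ z in tsupport χ, ‖(sL1 a (h n))^[N] (fun w => (χ w : ℂ) * (u n w : ℂ) ^ 2) z‖ ^ 2
  set U := ∫ z, χ z * χ z * u n z ^ 4
  set M2 := ∫ z, χ z * χ z * m z ^ 2
  have q1 : (16 : ℝ) ^ N / 3 * (U - ∫ z, χ z * χ z * (3 * m z ^ 2)) ≤ 16 ^ N / 3 * X :=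
    mul_le_mul_of_nonneg_left (by linarith) (by positivity)
  have q2 : X ≤ 16 ^ N * X := le_mul_of_one_le_left X0.le P1
  have q3 : 2 * 16 ^ N * M2 ≤ 2 * 16 ^ N * M2 * X :=
    le_mul_of_one_le_right (by positivity) X1
  have q4 : 16 ^ N * (3 + 2 * M2) * X = 3 * (16 ^ N * X) + 2 * 16 ^ N * M2 * X := by ring
  rw [q4]
  nlinarith

end

end Pool.Agent.TH294.RG
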