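import Pool.Agent.TH294.RG.Pl6

/-!
Project RG (helper294): the limit of large radii.
-/

set_option autoImplicit false
open MeasureTheory Filter Topology Complex ProbabilityTheory
open scoped ContDiff FourierTransform

namespace Pool.Agent.TH294.RG

open Pool.Agent.W745.RW Pool.Agent.TH294.RS

noncomputable section

lemma JJ_lim : Tendsto JJ atTop (𝓝 0) := by
  have h1 : Tendsto (𝓕 (kern 1)) (cocompact ℂ) (𝓝 0) :=
    tendsto_integral_exp_inner_smul_cocompact (kern 1)
  have h2 : Tendsto (fun y : ℝ => ((y / (2 * Real.pi) : ℝ) : ℂ)) atTop (cocompact ℂ) := by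
    rw [← Metric.cobounded_eq_cocompact, ← tendsto_norm_atTop_iff_cobounded]
    have h3 : Tendsto (fun y : ℝ => |y / (2 * Real.pi)|) atTop atTop :=
      tendsto_abs_atTop_atTop.comp (tendsto_id.atTop_div_const (by positivity))
    refine h3.congr fun y => ?_
    rw [norm_real, Real.norm_eq_abs]
  have h3 := (Complex.continuous_re.tendsto _).comp (h1.comp h2)
  rw [Complex.zero_re] at h3
  refine h3.congr' ?_
  filter_upwards [eventually_ge_atTop (0 : ℝ)] with y hy
  simp only [Function.comp_def]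
  rw [kern_ft one_pos, ofReal_re, norm_real, Real.norm_eq_abs, abs_of_nonneg (by positivity)]
  congr 1
  have := Real.pi_ne_zero
  field_simp

lemma ex_N (R : ℝ) (hR : 0 < R) : ∃ N : ℕ, 1 ≤ N ∧
    (4 * R ^ 2) ^ N / (Nat.factorial (2 * N) : ℝ) ≤ 1 / R := by
  have h1 := (FloorSemiring.tendsto_pow_div_factorial_atTop (2 * R)).comp
    (tendsto_id.const_mul_atTop' (show 0 < 2 by norm_num))
  have h2 := (h1.eventually (ge_mem_nhds (show (0 : ℝ) < 1 / R by positivity))).and
    (eventually_ge_atTop 1)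
  obtain ⟨N, hN, hN1⟩ := h2.exists
  refine ⟨N, hN1, ?_⟩
  simp only [Function.comp_def, id] at hN
  refine le_trans (le_of_eq ?_) hN
  rw [pow_mul (2 * R) 2 N, mul_pow 2 R 2]
  norm_num

/-- the degree of the approximation -/
def NR (R : ℝ) : ℕ := if hR : 0 < R then (ex_N R hR).choose else 1

lemma NR_one {R : ℝ} (hR : 0 < R) : 1 ≤ NR R := by
  unfold NR
  rw [dif_pos hR]
  exact (ex_N R hR).choose_spec.1

lemma NR_bd {R : ℝ} (hR : 0 < R) :
    (4 * R ^ 2) ^ (NR R) / (Nat.factorial (2 * NR R) : ℝ) ≤ 1 / R := by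
  unfold NR
  rw [dif_pos hR]
  exact (ex_N R hR).choose_spec.2

/-- the approximating polynomial -/
def FR (R : ℝ) : Polynomial ℝ := FP R (NR R)

lemma FR_bd {R : ℝ} (hR : 0 < R) {x : ℝ} (hx : 0 ≤ x) (hx4 : x ≤ 4) :
    |JJ (R * √x) - (FR R).eval x| ≤ 1 / R := by
  refine (FP_bd R (NR R) hx).trans (le_trans ?_ (NR_bd hR))
  refine div_le_div_of_nonneg_right ?_ (by positivity)
  refine pow_le_pow_left₀ (by positivity) ?_ _
  nlinarith [sq_nonneg R]

lemma FR_0 {R : ℝ} (hR : 0 < R) : (FR R).eval 0 = 1 := FP_0 R (NR_one hR)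

lemma FR_sq {R : ℝ} (hR : 1 ≤ R) {x : ℝ} (hx : 0 ≤ x) (hx4 : x ≤ 4) :
    (FR R).eval x ^ 2 ≤ 4 := by
  have hR0 : 0 < R := by linarith
  have h1 := abs_le.1 (FR_bd hR0 hx hx4)
  have h2 := abs_le.1 (JJ_le (R * √x))
  have h3 : 1 / R ≤ 1 := by
    rw [div_le_one (by linarith)]; exact hR
  have h4 : |(FR R).eval x| ≤ 2 := abs_le.2 ⟨by linarith, by linarith⟩
  nlinarith [abs_nonneg ((FR R).eval x), sq_abs ((FR R).eval x)]

lemma FR_lim {x : ℝ} (hx : 0 < x) (hx4 : x ≤ 4) :
    Tendsto (fun R => (FR R).eval x) atTop (𝓝 0) := by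
  have h1 : Tendsto (fun R : ℝ => JJ (R * √x)) atTop (𝓝 0) :=
    JJ_lim.comp (tendsto_id.atTop_mul_const (Real.sqrt_pos.2 hx))
  have h2 : Tendsto (fun R : ℝ => JJ (R * √x) - (FR R).eval x) atTop (𝓝 0) := by
    refine squeeze_zero_norm' ?_ (tendsto_const_nhds.div_atTop tendsto_id (a := (1 : ℝ)))
    filter_upwards [eventually_gt_atTop (0 : ℝ)] with R hR
    exact FR_bd hR hx.le hx4
  have h3 := h1.sub h2
  simpa using h3

variable {Y : Type*} [MeasurableSpace Y] {m : ℂ → ℝ} {e : Y → ℂ} {ν : Kernel ℂ Y}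

lemma ang_lim (he : Measurable e) (h1 : ∀ y, ‖e y‖ = 1) (ν : Measure Y) [IsProbabilityMeasure ν] :
    Tendsto (fun R => ang (FR R) e ν) atTop (𝓝 (par e ν)) := by
  have e1 : par e ν = ∫ p, (PS e).indicator (fun _ => (1 : ℝ)) p ∂(ν.prod ν) := by
    rw [integral_indicator (PS_meas he), par]
    simp
  rw [e1]
  unfold ang
  have cF : ∀ F : Polynomial ℝ, Continuous (fun x : ℝ => F.eval x) := fun F => F.continuous
  have mq : Measurable (qq e 1) := qq_meas he 1
  refine tendsto_integral_filter_of_dominated_convergence (fun _ => 8) ?_ ?_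
    (integrable_const _) ?_
  · refine Eventually.of_forall fun R => ?_
    have m1 : Measurable (fun p => (FR R).eval (2 - 2 * qq e 1 p) ^ 2) :=
      ((cF _).measurable.comp (measurable_const.sub (mq.const_mul 2))).pow_const 2
    have m2 : Measurable (fun p => (FR R).eval (2 + 2 * qq e 1 p) ^ 2) :=
      ((cF _).measurable.comp (measurable_const.add (mq.const_mul 2))).pow_const 2
    exact (m1.add m2).aestronglyMeasurable
  · filter_upwards [eventually_ge_atTop (1 : ℝ)] with R hR
    refine ae_of_all _ fun p => ?_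
    have h2 := abs_le.1 (qq_bd h1 1 p)
    have h3 := FR_sq hR (x := 2 - 2 * qq e 1 p) (by linarith [h2.2]) (by linarith [h2.1])
    have h4 := FR_sq hR (x := 2 + 2 * qq e 1 p) (by linarith [h2.1]) (by linarith [h2.2])
    rw [Real.norm_eq_abs, abs_of_nonneg (by positivity)]
    linarith
  · refine ae_of_all _ fun p => ?_
    have h2 := abs_le.1 (qq_bd h1 1 p)
    have hz := zn h1 p
    have hq : qq e 1 p = (e p.1 * (starRingEnd ℂ) (e p.2)).re := by simp [qq]
    have hns : (e p.1 * (starRingEnd ℂ) (e p.2)).re ^ 2 +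
        (e p.1 * (starRingEnd ℂ) (e p.2)).im ^ 2 = 1 := by
      have := Complex.sq_norm_sub_sq_re (e p.1 * (starRingEnd ℂ) (e p.2))
      rw [hz] at this
      linarith
    have z4 : Tendsto (fun R => (FR R).eval 4) atTop (𝓝 0) := FR_lim (by norm_num) le_rfl
    have z0 : Tendsto (fun R => (FR R).eval 0) atTop (𝓝 1) := by
      refine tendsto_const_nhds.congr' ?_
      filter_upwards [eventually_gt_atTop (0 : ℝ)] with R hR
      exact (FR_0 hR).symm
    have hps : p ∈ PS e ↔ (e p.1 * (starRingEnd ℂ) (e p.2)).im = 0 := by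
      show e p.1 ^ 2 = e p.2 ^ 2 ↔ _
      have n2 : e p.2 * (starRingEnd ℂ) (e p.2) = 1 := by
        rw [Complex.mul_conj, Complex.normSq_eq_norm_sq, h1]; simp
      have c0 : (starRingEnd ℂ) (e p.2) ≠ 0 := by
        intro h; rw [h, mul_zero] at n2; exact zero_ne_one n2
      have k1 : (e p.1 * (starRingEnd ℂ) (e p.2)) ^ 2 = 1 ↔ e p.1 ^ 2 = e p.2 ^ 2 := by
        constructor
        · intro h
          have h5 : (starRingEnd ℂ) (e p.2) ^ 2 * e p.1 ^ 2 =
              (starRingEnd ℂ) (e p.2) ^ 2 * e p.2 ^ 2 := by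
            have : (e p.2 * (starRingEnd ℂ) (e p.2)) ^ 2 = 1 := by rw [n2]; ring
            linear_combination h - this
          exact mul_left_cancel₀ (pow_ne_zero 2 c0) h5
        · intro h
          have : (e p.2 * (starRingEnd ℂ) (e p.2)) ^ 2 = 1 := by rw [n2]; ring
          linear_combination ((starRingEnd ℂ) (e p.2)) ^ 2 * h + this
      rw [← k1]
      constructor
      · intro h
        have h20 : (e p.1 * (starRingEnd ℂ) (e p.2) - 1) *
            (e p.1 * (starRingEnd ℂ) (e p.2) + 1) = 0 := by linear_combination h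
        rcases mul_eq_zero.1 h20 with h21 | h21
        · rw [sub_eq_zero.1 h21]; simp
        · rw [eq_neg_of_add_eq_zero_left h21]; simp
      · intro h
        have h6 : (e p.1 * (starRingEnd ℂ) (e p.2)) =
            (((e p.1 * (starRingEnd ℂ) (e p.2)).re : ℝ) : ℂ) := by
          apply Complex.ext
          · simp
          · rw [h]; simp
        rw [h] at hns
        rw [h6]
        have h7 : (e p.1 * (starRingEnd ℂ) (e p.2)).re ^ 2 = 1 := by linarith
        exact_mod_cast h7
    by_cases hp : p ∈ PS e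
    · rw [Set.indicator_of_mem hp]
      have him := hps.1 hp
      rw [him, ← hq] at hns
      have h8 : (qq e 1 p - 1) * (qq e 1 p + 1) = 0 := by linarith
      rcases mul_eq_zero.1 h8 with h9 | h9
      · have h10 : qq e 1 p = 1 := by linarith
        rw [h10]
        have := (z0.pow 2).add (z4.pow 2)
        norm_num at this ⊢
        exact this
      · have h10 : qq e 1 p = -1 := by linarith
        rw [h10]
        have := (z4.pow 2).add (z0.pow 2)
        norm_num at this ⊢
        exact this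
    · rw [Set.indicator_of_notMem hp]
      have him : (e p.1 * (starRingEnd ℂ) (e p.2)).im ≠ 0 := fun h => hp (hps.2 h)
      have h11 : qq e 1 p ^ 2 < 1 := by
        rw [hq]
        have : 0 < (e p.1 * (starRingEnd ℂ) (e p.2)).im ^ 2 := by positivity
        linarith
      have h12 : |qq e 1 p| < 1 := by
        rw [← sq_lt_one_iff_abs_lt_one]
        exact h11
      have h13 := abs_lt.1 h12
      have t1 := FR_lim (x := 2 - 2 * qq e 1 p) (by linarith [h13.2]) (by linarith [h13.1])
      have t2 := FR_lim (x := 2 + 2 * qq e 1 p) (by linarith [h13.1]) (by linarith [h13.2])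
      have := (t1.pow 2).add (t2.pow 2)
      norm_num at this ⊢
      exact this

end

end Pool.Agent.TH294.RG
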