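import Pool.Agent.TH294.RG.Pl7

/-!
Project RG (helper294): disc averages of `u²` and polynomials of the Laplacian.
-/

set_option autoImplicit false
open MeasureTheory Filter Topology Complex ProbabilityTheory
open scoped ContDiff

namespace Pool.Agent.TH294.RG

open Pool.Agent.W745.RW Pool.Agent.TH294.RS

noncomputable section

lemma it_cgC {U : Set ℂ} (hU : IsOpen U) {a : ℂ → ℝ} {t : ℝ} {f g : ℂ → ℂ}
    (e : ∀ z ∈ U, f z = g z) (i : ℕ) : ∀ z ∈ U, (sL1 a t)^[i] f z = (sL1 a t)^[i] g z := by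
  induction i with
  | zero => exact e
  | succ i ih =>
    intro z hz
    rw [Function.iterate_succ_apply', Function.iterate_succ_apply']
    simp only [sL1]
    rw [lap_cg hU ih hz]

lemma it_zero {a : ℂ → ℝ} {t : ℝ} (i : ℕ) :
    (sL1 a t)^[i] (fun _ : ℂ => (0 : ℂ)) = fun _ => 0 := by
  induction i with
  | zero => rfl
  | succ i ih =>
    rw [Function.iterate_succ_apply', ih]
    funext z
    have e0 : lap (fun _ : ℂ => (0 : ℂ)) z =
      fderiv ℝ (fun w => fderiv ℝ (fun _ : ℂ => (0 : ℂ)) w 1) z 1 +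
      fderiv ℝ (fun w => fderiv ℝ (fun _ : ℂ => (0 : ℂ)) w I) z I := rfl
    simp only [sL1]
    rw [e0]
    simp

variable {Y : Type*} [MeasurableSpace Y] {m : ℂ → ℝ} {e : Y → ℂ} {ν : Kernel ℂ Y}

/-- a bound for polynomials of the Laplacian of `u²` -/
theorem specb [IsMarkovKernel ν] {Ω : Set ℂ} {a : ℂ → ℝ} {h : ℕ → ℝ}
    {u : ℕ → ℂ → ℝ} (he : Measurable e) (h1 : ∀ y, ‖e y‖ = 1)
    (hm : ∀ K : Set ℂ, IsCompact K → K ⊆ Ω → MemLp m 2 (volume.restrict K))
    (H : RawG Ω a h u (MM m e ν)) {K : Set ℂ} (hK : IsCompact K) (hKΩ : K ⊆ Ω) {χ : ℂ → ℝ}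
    (hχ : TF (interior K) χ) (c0 : ∀ z, 0 ≤ χ z) (c1 : ∀ z, χ z ≤ 1) :
    ∃ C : ℝ, 0 < C ∧ ∀ F : Polynomial ℝ, (∀ x, 0 ≤ x → x ≤ 4 → F.eval x ^ 2 ≤ 4) →
      ∀ᶠ n in atTop, ∫ z, χ z * χ z * (F.sum fun i c => c *
        (sR a (h n))^[i] (fun w => u n w ^ 2) z) ^ 2 ≤ C * (1 + ∫ z in K, u n z ^ 4) := by
  have hBΩ : interior K ⊆ Ω := interior_subset.trans hKΩ
  have hB : IsOpen (interior K) := isOpen_interior
  have hχ2 : TF (interior K) (fun z => χ z * χ z) := TF.mulc hB hχ hχ.1.contDiffOn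
  have mB : ∀ K' : Set ℂ, IsCompact K' → K' ⊆ interior K → MemLp m 2 (volume.restrict K') :=
    fun K' hK' hKB => hm K' hK' (hKB.trans hBΩ)
  have M0 : 0 ≤ ∫ z, χ z * χ z * m z ^ 2 := integral_nonneg fun z => by
    have := c0 z
    positivity
  refine ⟨5 + 12 * ∫ z, χ z * χ z * m z ^ 2, by linarith, fun F hF => ?_⟩
  have k2 := spec_real he h1 hm H hK hKΩ hχ2 F (T := fun n => sR a (h n))
    (fun _ _ _ _ => rfl)
  have ev2 := (k2.abs.eventually (gt_mem_nhds (show |(0 : ℝ)| < 1 by simp)))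
  filter_upwards [ev2] with n g2
  have T0 : 0 ≤ ∫ z in K, u n z ^ 4 := integral_nonneg fun z => by positivity
  set X := 1 + ∫ z in K, u n z ^ 4 with hX
  have X1 : 1 ≤ X := by linarith
  have X0 : 0 < X := by linarith
  rw [abs_div, abs_of_pos X0, div_lt_one X0] at g2
  have g4 := (le_abs_self _).trans g2.le
  have U1 : ∫ z, χ z * χ z * u n z ^ 4 ≤ X := by
    have e2 : ∫ z, χ z * χ z * u n z ^ 4 = ∫ z in K, χ z * χ z * u n z ^ 4 := by
      refine (setIntegral_eq_integral_of_forall_compl_eq_zero (fun z hz => ?_)).symm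
      rw [TF.zero hχ (fun h => hz (interior_subset h))]; simp
    rw [e2]
    have cu : ContinuousOn (fun z => u n z ^ 4) K := ((H.sm n).continuousOn.mono hKΩ).pow 4
    have cc : ContinuousOn (fun z => χ z * χ z * u n z ^ 4) K :=
      ((hχ.1.continuous.mul hχ.1.continuous).continuousOn).mul cu
    have := intK_mono hK cc cu (fun z _ => by
      have h2 : χ z * χ z ≤ 1 := by nlinarith [c0 z, c1 z]
      exact mul_le_of_le_one_left (by positivity) h2)
    linarith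
  have M3 : 0 ≤ ∫ z, χ z * χ z * (3 * m z ^ 2) := integral_nonneg fun z => by
    have := c0 z
    positivity
  have f0 := hF 0 le_rfl (by norm_num)
  have f4 := hF 4 (by norm_num) le_rfl
  have A1 : ∫ z, χ z * χ z * (m z ^ 2 * (F.eval 0 ^ 2 + ang F e (ν z))) ≤
      12 * ∫ z, χ z * χ z * m z ^ 2 := by
    rw [← integral_const_mul]
    refine integral_mono_of_nonneg (ae_of_all _ fun z => ?_)
      ((m2_int mB hχ2).const_mul _) (ae_of_all _ fun z => ?_)
    · have h5 := (ang_le (ν := ν) h1 hF z).1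
      have := c0 z
      show 0 ≤ χ z * χ z * (m z ^ 2 * (F.eval 0 ^ 2 + ang F e (ν z)))
      positivity
    · have h5 := (ang_le (ν := ν) h1 hF z).2
      have h6 := c0 z
      show χ z * χ z * (m z ^ 2 * (F.eval 0 ^ 2 + ang F e (ν z))) ≤
        12 * (χ z * χ z * m z ^ 2)
      have h7 : 0 ≤ χ z * χ z * m z ^ 2 := by positivity
      calc χ z * χ z * (m z ^ 2 * (F.eval 0 ^ 2 + ang F e (ν z))) =
          (χ z * χ z * m z ^ 2) * (F.eval 0 ^ 2 + ang F e (ν z)) := by ring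
        _ ≤ (χ z * χ z * m z ^ 2) * 12 := mul_le_mul_of_nonneg_left (by linarith) h7
        _ = _ := by ring
  set U := ∫ z, χ z * χ z * u n z ^ 4
  set M2 := ∫ z, χ z * χ z * m z ^ 2
  set T3 := ∫ z, χ z * χ z * (3 * m z ^ 2)
  have q1 : (2 * F.eval 0 ^ 2 + F.eval 4 ^ 2) / 3 * (U - T3) ≤ 4 * X := by
    have k0 : 0 ≤ (2 * F.eval 0 ^ 2 + F.eval 4 ^ 2) / 3 := by positivity
    have k4 : (2 * F.eval 0 ^ 2 + F.eval 4 ^ 2) / 3 ≤ 4 := by linarith
    calc (2 * F.eval 0 ^ 2 + F.eval 4 ^ 2) / 3 * (U - T3) ≤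
        (2 * F.eval 0 ^ 2 + F.eval 4 ^ 2) / 3 * X := mul_le_mul_of_nonneg_left (by linarith) k0
      _ ≤ 4 * X := mul_le_mul_of_nonneg_right k4 X0.le
  have q3 : 12 * M2 ≤ 12 * M2 * X := le_mul_of_one_le_right (by positivity) X1
  have q4 : (5 + 12 * M2) * X = 5 * X + 12 * M2 * X := by ring
  rw [q4]
  linarith

end

end Pool.Agent.TH294.RG
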