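import Pool.Agent.TH294.RG.Pl8

/-!
Project RG (helper294): disc averages of `u²`, first comparison.
-/

set_option autoImplicit false
open MeasureTheory Filter Topology Complex ProbabilityTheory
open scoped ContDiff

namespace Pool.Agent.TH294.RG

open Pool.Agent.W745.RW Pool.Agent.TH294.RS

noncomputable section

/-- the function `χ u²` -/
lemma G_CS {B : Set ℂ} (hB : IsOpen B) {χ v : ℂ → ℝ} (hχ : TF B χ) (hv : ContDiffOn ℝ ∞ v B) :
    CS (fun z => (χ z : ℂ) * (v z : ℂ) ^ 2) := by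
  have h1 := TF.mulc hB hχ (hv.pow 2)
  have e : (fun z => (χ z : ℂ) * (v z : ℂ) ^ 2) = fun z => ((χ z * v z ^ 2 : ℝ) : ℂ) := by
    funext z; push_cast; ring
  rw [e]
  exact ⟨ofRealCLM.contDiff.comp h1.1, h1.2.1.comp_left (g := fun x : ℝ => (x : ℂ)) (by simp)⟩

/-- an elementary inequality -/
lemma el2 (x y R : ℝ) (hR : 0 < R) : |x ^ 2 - y ^ 2| ≤ (1 + R) * (x - y) ^ 2 + 1 / R * y ^ 2 := by
  have h1 : x ^ 2 - y ^ 2 = (x - y) ^ 2 + 2 * ((x - y) * y) := by ring
  have h2 : |2 * ((x - y) * y)| ≤ R * (x - y) ^ 2 + 1 / R * y ^ 2 := by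
    have e1 : R * (x - y) ^ 2 + 1 / R * y ^ 2 - 2 * ((x - y) * y) =
        (R * (x - y) - y) ^ 2 / R := by field_simp; ring
    have e2 : R * (x - y) ^ 2 + 1 / R * y ^ 2 + 2 * ((x - y) * y) =
        (R * (x - y) + y) ^ 2 / R := by field_simp; ring
    have p1 : 0 ≤ (R * (x - y) - y) ^ 2 / R := by positivity
    have p2 : 0 ≤ (R * (x - y) + y) ^ 2 / R := by positivity
    rw [abs_le]
    constructor <;> linarith
  rw [h1]
  refine (abs_add_le _ _).trans ?_
  rw [abs_of_nonneg (sq_nonneg (x - y))]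
  linarith

/-- the comparison on a compact set -/
lemma cmp_T {T : Set ℂ} (hT : IsCompact T) {φ : ℂ → ℝ}
    (hφ : Continuous φ) (h0 : ∀ z, z ∉ T → φ z = 0) {C : ℝ} (hC0 : 0 ≤ C) (hC : ∀ z, |φ z| ≤ C)
    {f g : ℂ → ℝ} (hf : ContinuousOn f T) (hg : ContinuousOn g T) {R D E : ℝ} (hR : 0 < R)
    (hD : ∫ z in T, (f z - g z) ^ 2 ≤ D) (hE : ∫ z in T, g z ^ 2 ≤ E) :
    |(∫ z, φ z * f z ^ 2) - ∫ z, φ z * g z ^ 2| ≤ C * ((1 + R) * D + 1 / R * E) := by
  have e1 : ∀ k : ℂ → ℝ, ∫ z, φ z * k z ^ 2 = ∫ z in T, φ z * k z ^ 2 := by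
    intro k
    refine (setIntegral_eq_integral_of_forall_compl_eq_zero (fun z hz => ?_)).symm
    rw [h0 z hz]; simp
  have i1 : IntegrableOn (fun z => φ z * f z ^ 2) T :=
    (hφ.continuousOn.mul (hf.pow 2)).integrableOn_compact hT
  have i2 : IntegrableOn (fun z => φ z * g z ^ 2) T :=
    (hφ.continuousOn.mul (hg.pow 2)).integrableOn_compact hT
  have i3 : IntegrableOn (fun z => (f z - g z) ^ 2) T :=
    ((hf.sub hg).pow 2).integrableOn_compact hT
  have i4 : IntegrableOn (fun z => g z ^ 2) T := (hg.pow 2).integrableOn_compact hT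
  rw [e1, e1, ← integral_sub i1 i2]
  have i5 : IntegrableOn (fun z => C * ((1 + R) * (f z - g z) ^ 2 + 1 / R * g z ^ 2)) T :=
    ((i3.const_mul (1 + R)).add (i4.const_mul (1 / R))).const_mul C
  have key := norm_integral_le_of_norm_le (μ := volume.restrict T)
    (f := fun z => φ z * f z ^ 2 - φ z * g z ^ 2) i5 (ae_of_all _ fun z => by
      have h1 : φ z * f z ^ 2 - φ z * g z ^ 2 = φ z * (f z ^ 2 - g z ^ 2) := by ring
      rw [h1, norm_mul, Real.norm_eq_abs, Real.norm_eq_abs]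
      exact mul_le_mul (hC z) (el2 _ _ R hR) (abs_nonneg _) hC0)
  rw [Real.norm_eq_abs] at key
  refine key.trans ?_
  rw [integral_const_mul, integral_add (i3.const_mul (1 + R)) (i4.const_mul (1 / R)),
    integral_const_mul, integral_const_mul]
  refine mul_le_mul_of_nonneg_left ?_ hC0
  have p1 : (1 + R) * (∫ z in T, (f z - g z) ^ 2) ≤ (1 + R) * D :=
    mul_le_mul_of_nonneg_left hD (by linarith)
  have p2 : 1 / R * (∫ z in T, g z ^ 2) ≤ 1 / R * E :=
    mul_le_mul_of_nonneg_left hE (by positivity)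
  linarith

variable {Y : Type*} [MeasurableSpace Y] {m : ℂ → ℝ} {e : Y → ℂ} {ν : Kernel ℂ Y}

/-- **Disc averages against polynomials** -/
theorem planck1 [IsMarkovKernel ν] {Ω : Set ℂ} {h : ℕ → ℝ}
    {u : ℕ → ℂ → ℝ} (he : Measurable e) (h1 : ∀ y, ‖e y‖ = 1)
    (hm : ∀ K : Set ℂ, IsCompact K → K ⊆ Ω → MemLp m 2 (volume.restrict K))
    (H : RawG Ω (fun _ => 1) h u (MM m e ν)) {K : Set ℂ} (hK : IsCompact K) (hKΩ : K ⊆ Ω)
    {φ : ℂ → ℝ} (hφ : TF (interior K) φ) :
    ∃ C0 : ℝ, 0 < C0 ∧ ∀ R : ℝ, 1 ≤ R → ∀ᶠ n in atTop,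
      |(∫ z, φ z * (∫ w, u n (z + (R * h n) • w) ^ 2 ∂dm) ^ 2) -
        ∫ z, φ z * ((FR R).sum fun i c => c *
          (sR (fun _ => 1) (h n))^[i] (fun w => u n w ^ 2) z) ^ 2| ≤
        C0 / R * (1 + ∫ z in K, u n z ^ 4) := by
  have hBΩ : interior K ⊆ Ω := interior_subset.trans hKΩ
  have hB : IsOpen (interior K) := isOpen_interior
  set S := tsupport φ with hS
  have cS : IsCompact S := hφ.2.1
  obtain ⟨δ, hδ, hδB⟩ := cS.exists_cthickening_subset_open hB hφ.2.2
  have cK1 : IsCompact (Metric.cthickening δ S) := cS.cthickening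
  obtain ⟨χ, hχ, hχ1, c0, c1⟩ := exists_cut hB cK1 hδB
  obtain ⟨Cg, hCg, grw⟩ := grow he h1 hm H hK hKΩ hχ c0 c1
  obtain ⟨Cb, hCb, spb⟩ := specb he h1 hm H hK hKΩ hχ c0 c1
  obtain ⟨Cφ, hCφ⟩ := cS.exists_bound_of_continuousOn hφ.1.continuous.continuousOn
  have hCφ' : ∀ z, |φ z| ≤ |Cφ| + 1 := by
    intro z
    by_cases hz : z ∈ S
    · have := hCφ z hz
      rw [Real.norm_eq_abs] at this
      linarith [le_abs_self Cφ]
    · rw [image_eq_zero_of_notMem_tsupport hz]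
      simp
      positivity
  refine ⟨(|Cφ| + 1) * (2 * Cg + Cb), by positivity, fun R hR => ?_⟩
  have hR0 : 0 < R := by linarith
  have ev0 : ∀ᶠ n in atTop, R * h n < δ := by
    have : Tendsto (fun n => R * h n) atTop (𝓝 0) := by simpa using H.hlim.const_mul R
    exact this.eventually (gt_mem_nhds hδ)
  filter_upwards [ev0, grw (NR R) (NR_one hR0), spb (FR R) (fun x hx hx4 => FR_sq hR hx hx4)]
    with n g0 g1 g2
  have hp := H.hpos n
  have T0 : 0 ≤ ∫ z in K, u n z ^ 4 := integral_nonneg fun z => by positivity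
  set X := 1 + ∫ z in K, u n z ^ 4 with hX
  have X0 : 0 < X := by linarith
  have sm : ContDiffOn ℝ ∞ (u n) (interior K) := (H.sm n).mono hBΩ
  have sa : ContDiffOn ℝ ∞ (fun _ : ℂ => (1 : ℝ)) (interior K) := contDiffOn_const
  have s2 : ContDiffOn ℝ ∞ (fun w => u n w ^ 2) (interior K) := sm.pow 2
  -- the localised function
  obtain ⟨G, hG⟩ : ∃ G : ℂ → ℂ, G = fun z => (χ z : ℂ) * (u n z : ℂ) ^ 2 := ⟨_, rfl⟩
  have hGC : CS G := by rw [hG]; exact G_CS hB hχ sm
  have hr : 0 < R * h n := mul_pos hR0 hp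
  -- the open neighbourhood of the support
  have hU : IsOpen (Metric.thickening δ S) := Metric.isOpen_thickening
  have hSU : S ⊆ Metric.thickening δ S := Metric.self_subset_thickening hδ S
  have hUK : Metric.thickening δ S ⊆ Metric.cthickening δ S := Metric.thickening_subset_cthickening δ S
  have hGU : ∀ z ∈ Metric.thickening δ S, G z = (u n z : ℂ) ^ 2 := by
    intro z hz
    rw [hG]
    show (χ z : ℂ) * (u n z : ℂ) ^ 2 = _
    rw [hχ1 z (hUK hz)]; simp
  have P1 : ∀ z ∈ S, opP (fun _ => 1) (h n) (FR R) G z = (((FR R).sum fun i c => c *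
      (sR (fun _ => 1) (h n))^[i] (fun w => u n w ^ 2) z : ℝ) : ℂ) := by
    intro z hz
    simp only [opP, Polynomial.sum_def]
    push_cast
    refine Finset.sum_congr rfl fun i _ => ?_
    rw [it_cgC hU hGU i z (hSU hz), sL1_re hB sa (h n) s2 (G := fun w => (u n w : ℂ) ^ 2)
      (fun w _ => by push_cast; rfl) i z (hφ.2.2 hz)]
  have V1 : ∀ z ∈ S, cv (R * h n) G z = ((∫ w, u n (z + (R * h n) • w) ^ 2 ∂dm : ℝ) : ℂ) := by
    intro z hz
    rw [cv_eq hr, ← integral_complex_ofReal]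
    refine integral_congr_ae (dm_ae.mono fun w hw => ?_)
    have hzw : z + (R * h n) • w ∈ Metric.thickening δ S := by
      rw [Metric.mem_thickening_iff]
      refine ⟨z, hz, ?_⟩
      rw [dist_eq_norm, add_sub_cancel_left, norm_smul, Real.norm_eq_abs, abs_of_pos hr]
      calc R * h n * ‖w‖ ≤ R * h n * 1 := mul_le_mul_of_nonneg_left hw.le hr.le
        _ < δ := by rw [mul_one]; exact g0
    show G (z + (R * h n) • w) = _
    rw [hGU _ hzw]
    push_cast; rfl
  -- continuity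
  have cvc : Continuous (cv (R * h n) G) := (cv_CS hGC).1.continuous
  have cf : ContinuousOn (fun z => ∫ w, u n (z + (R * h n) • w) ^ 2 ∂dm) S := by
    have : ContinuousOn (fun z => (cv (R * h n) G z).re) S :=
      (Complex.continuous_re.comp cvc).continuousOn
    refine this.congr fun z hz => ?_
    show ∫ w, u n (z + (R * h n) • w) ^ 2 ∂dm = (cv (R * h n) G z).re
    rw [V1 z hz, ofReal_re]
  have cg : ContinuousOn (fun z => (FR R).sum fun i c => c *
      (sR (fun _ => 1) (h n))^[i] (fun w => u n w ^ 2) z) (interior K) := by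
    simp only [Polynomial.sum_def]
    exact continuousOn_finsetSum _ fun i _ =>
      continuousOn_const.mul (sR_sm hB sa (h n) s2 i).continuousOn
  -- the L² bound
  have D1 : ∫ z in S, ((∫ w, u n (z + (R * h n) • w) ^ 2 ∂dm) - (FR R).sum fun i c => c *
      (sR (fun _ => 1) (h n))^[i] (fun w => u n w ^ 2) z) ^ 2 ≤ 1 / R ^ 2 * (Cg * X) := by
    have e1 : ∫ z in S, ((∫ w, u n (z + (R * h n) • w) ^ 2 ∂dm) - (FR R).sum fun i c => c *
        (sR (fun _ => 1) (h n))^[i] (fun w => u n w ^ 2) z) ^ 2 =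
        ∫ z in S, ‖cv (R * h n) G z - opP (fun _ => 1) (h n) (FR R) G z‖ ^ 2 := by
      refine setIntegral_congr_fun cS.measurableSet fun z hz => ?_
      show _ = ‖cv (R * h n) G z - opP (fun _ => 1) (h n) (FR R) G z‖ ^ 2
      rw [V1 z hz, P1 z hz, ← ofReal_sub, norm_real, Real.norm_eq_abs, sq_abs]
    have iD : Integrable (fun z => ‖cv (R * h n) G z -
        opP (fun _ => 1) (h n) (FR R) G z‖ ^ 2) := by
      have := isq (sch (cv (R * h n) G) (cv_CS hGC) + (-1 : ℂ) • ops (h n) (FR R) (sch G hGC))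
      refine this.congr (ae_of_all _ fun z => ?_)
      show ‖(sch (cv (R * h n) G) (cv_CS hGC) + (-1 : ℂ) • ops (h n) (FR R) (sch G hGC)) z‖ ^ 2 =
        ‖cv (R * h n) G z - opP (fun _ => 1) (h n) (FR R) G z‖ ^ 2
      rw [add_apply, smul_apply, ops_coe, sch_apply, smul_eq_mul]
      congr 2
      have : ⇑(sch G hGC) = G := rfl
      rw [this]; ring
    have e2 : ∫ z in S, ‖cv (R * h n) G z - opP (fun _ => 1) (h n) (FR R) G z‖ ^ 2 ≤
        ∫ z, ‖cv (R * h n) G z - opP (fun _ => 1) (h n) (FR R) G z‖ ^ 2 :=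
      setIntegral_le_integral iD (ae_of_all _ fun z => by positivity)
    have e3 := disc_pol hGC hp hR0 (NR R)
    have e4 : ∫ z, ‖(sL1 (fun _ => 1) (h n))^[NR R] G z‖ ^ 2 =
        ∫ z in tsupport χ, ‖(sL1 (fun _ => 1) (h n))^[NR R] G z‖ ^ 2 := by
      refine (setIntegral_eq_integral_of_forall_compl_eq_zero (fun z hz => ?_)).symm
      have hopen : IsOpen (tsupport χ)ᶜ := (isClosed_tsupport χ).isOpen_compl
      have hz0 : ∀ w ∈ (tsupport χ)ᶜ, G w = (fun _ : ℂ => (0 : ℂ)) w := by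
        intro w hw
        rw [hG]
        show (χ w : ℂ) * (u n w : ℂ) ^ 2 = 0
        rw [image_eq_zero_of_notMem_tsupport hw]; simp
      rw [it_cgC hopen hz0 (NR R) z hz, it_zero]
      simp
    have e5 : ∫ z in tsupport χ, ‖(sL1 (fun _ => 1) (h n))^[NR R] G z‖ ^ 2 ≤
        16 ^ (NR R) * Cg * X := by
      rw [hG]; exact g1
    have e6 : (R ^ (2 * NR R) / (Nat.factorial (2 * NR R) : ℝ)) ^ 2 * (16 ^ (NR R) * Cg * X) =
        ((4 * R ^ 2) ^ (NR R) / (Nat.factorial (2 * NR R) : ℝ)) ^ 2 * (Cg * X) := by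
      have : ((4 : ℝ) * R ^ 2) ^ (NR R) = 4 ^ (NR R) * R ^ (2 * NR R) := by
        rw [mul_pow, ← pow_mul]
      rw [this]
      have h16 : (16 : ℝ) ^ (NR R) = (4 ^ (NR R)) ^ 2 := by
        rw [← pow_mul, mul_comm, pow_mul]; norm_num
      rw [h16]
      ring
    have e7 : ((4 * R ^ 2) ^ (NR R) / (Nat.factorial (2 * NR R) : ℝ)) ^ 2 ≤ 1 / R ^ 2 := by
      have := pow_le_pow_left₀ (by positivity) (NR_bd hR0) 2
      refine this.trans (le_of_eq ?_)
      rw [div_pow, one_pow]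
    rw [e1]
    calc _ ≤ ∫ z, ‖cv (R * h n) G z - opP (fun _ => 1) (h n) (FR R) G z‖ ^ 2 := e2
      _ ≤ (R ^ (2 * NR R) / (Nat.factorial (2 * NR R) : ℝ)) ^ 2 *
          ∫ z, ‖(sL1 (fun _ => 1) (h n))^[NR R] G z‖ ^ 2 := e3
      _ ≤ (R ^ (2 * NR R) / (Nat.factorial (2 * NR R) : ℝ)) ^ 2 * (16 ^ (NR R) * Cg * X) := by
          rw [e4]
          exact mul_le_mul_of_nonneg_left e5 (by positivity)
      _ = _ := e6
      _ ≤ _ := mul_le_mul_of_nonneg_right e7 (by positivity)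
  have D2 : ∫ z in S, ((FR R).sum fun i c => c *
      (sR (fun _ => 1) (h n))^[i] (fun w => u n w ^ 2) z) ^ 2 ≤ Cb * X := by
    refine le_trans ?_ g2
    have e1 : ∫ z, χ z * χ z * ((FR R).sum fun i c => c *
        (sR (fun _ => 1) (h n))^[i] (fun w => u n w ^ 2) z) ^ 2 =
        ∫ z in tsupport χ, χ z * χ z * ((FR R).sum fun i c => c *
        (sR (fun _ => 1) (h n))^[i] (fun w => u n w ^ 2) z) ^ 2 := by
      refine (setIntegral_eq_integral_of_forall_compl_eq_zero (fun z hz => ?_)).symm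
      rw [image_eq_zero_of_notMem_tsupport hz]; simp
    rw [e1]
    have hST : S ⊆ tsupport χ := by
      intro z hz
      refine subset_tsupport χ ?_
      have : χ z = 1 := hχ1 z (hUK (hSU hz))
      rw [Function.mem_support, this]
      exact one_ne_zero
    have iT : IntegrableOn (fun z => χ z * χ z * ((FR R).sum fun i c => c *
        (sR (fun _ => 1) (h n))^[i] (fun w => u n w ^ 2) z) ^ 2) (tsupport χ) :=
      ((hχ.1.continuous.mul hχ.1.continuous).continuousOn.mul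
        ((cg.mono hχ.2.2).pow 2)).integrableOn_compact hχ.2.1
    have e2 : ∫ z in S, ((FR R).sum fun i c => c *
        (sR (fun _ => 1) (h n))^[i] (fun w => u n w ^ 2) z) ^ 2 =
        ∫ z in S, χ z * χ z * ((FR R).sum fun i c => c *
        (sR (fun _ => 1) (h n))^[i] (fun w => u n w ^ 2) z) ^ 2 := by
      refine setIntegral_congr_fun cS.measurableSet fun z hz => ?_
      have : χ z = 1 := hχ1 z (hUK (hSU hz))
      simp only [this, one_mul]
    rw [e2]
    refine setIntegral_mono_set iT (ae_of_all _ fun z => ?_) hST.eventuallyLE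
    have := c0 z
    show 0 ≤ χ z * χ z * ((FR R).sum fun i c => c *
        (sR (fun _ => 1) (h n))^[i] (fun w => u n w ^ 2) z) ^ 2
    positivity
  have key := cmp_T cS hφ.1.continuous
    (fun z hz => image_eq_zero_of_notMem_tsupport hz) (C := |Cφ| + 1) (by positivity) hCφ'
    cf (cg.mono hφ.2.2) hR0 D1 D2
  refine key.trans ?_
  have k1 : (1 + R) * (1 / R ^ 2 * (Cg * X)) ≤ 2 / R * (Cg * X) := by
    rw [← mul_assoc]
    refine mul_le_mul_of_nonneg_right ?_ (by positivity)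
    rw [mul_one_div, div_le_div_iff₀ (by positivity) hR0]
    nlinarith
  have k2 : (|Cφ| + 1) * ((1 + R) * (1 / R ^ 2 * (Cg * X)) + 1 / R * (Cb * X)) ≤
      (|Cφ| + 1) * (2 / R * (Cg * X) + 1 / R * (Cb * X)) :=
    mul_le_mul_of_nonneg_left (by linarith) (by positivity)
  refine k2.trans (le_of_eq ?_)
  field_simp

end

end Pool.Agent.TH294.RG
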