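import Pool.Agent.TH294.RG.Quad

/-!
Project RG (helper294): polynomials in `-h² a² Δ` applied to `u²`.
-/

set_option autoImplicit false
open MeasureTheory Filter Topology Complex
open scoped ContDiff

namespace Pool.Agent.TH294.RG

open Pool.Agent.W745.RW Pool.Agent.TH294.RS

noncomputable section

variable {B : Set ℂ} {a : ℂ → ℝ} {h : ℕ → ℝ} {w : ℤ → ℕ → ℂ → ℂ}

/-- `E` is the combination of the `vv m` with symbol `s`, up to `O(h)` -/
def Good (B : Set ℂ) (h : ℕ → ℝ) (w : ℤ → ℕ → ℂ → ℂ) (E : ℕ → ℂ → ℂ) (s : ℝ → ℝ) : Prop :=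
  ∃ c : ℕ →₀ ℝ, (∀ α, (c.sum fun m x => x * Real.cos (m * α)) = s α) ∧
    ∃ Q, QD B h Q ∧ ∀ n, ∀ z ∈ B,
      E n z = (c.sum fun m x => (x : ℂ) * vv w m n z) + (h n : ℂ) * Q n z

lemma QD.zero (hB : IsOpen B) (hh : Tendsto h atTop (𝓝 0)) (mc : ∀ k, MC B h (w k)) :
    QD B h (fun _ _ => 0) :=
  ((QD.mul (mc 0) (mc 0)).cmul hB hh 0).cg fun n z _ => by ring

lemma Good.cg {E E' : ℕ → ℂ → ℂ} {s s' : ℝ → ℝ} (H : Good B h w E s)
    (e : ∀ n, ∀ z ∈ B, E' n z = E n z) (e' : ∀ α, s' α = s α) : Good B h w E' s' := by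
  obtain ⟨c, hc, Q, hQ, hQ'⟩ := H
  exact ⟨c, fun α => by rw [hc, e'], Q, hQ, fun n z hz => by rw [e n z hz, hQ' n z hz]⟩

lemma Good.add {E E' : ℕ → ℂ → ℂ} {s s' : ℝ → ℝ} (H : Good B h w E s) (H' : Good B h w E' s') :
    Good B h w (fun n z => E n z + E' n z) (fun α => s α + s' α) := by
  obtain ⟨c, hc, Q, hQ, hQ'⟩ := H
  obtain ⟨d, hd, R, hR, hR'⟩ := H'
  refine ⟨c + d, fun α => ?_, _, hQ.add hR, fun n z hz => ?_⟩
  · rw [Finsupp.sum_add_index' (fun _ => by ring) (fun _ _ _ => by ring), hc, hd]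
  · rw [Finsupp.sum_add_index' (fun _ => by simp) (fun _ _ _ => by push_cast; ring)]
    beta_reduce
    rw [hQ' n z hz, hR' n z hz]
    ring

lemma Good.cmul (hB : IsOpen B) (hh : Tendsto h atTop (𝓝 0)) {E : ℕ → ℂ → ℂ} {s : ℝ → ℝ}
    (H : Good B h w E s) (r : ℝ) :
    Good B h w (fun n z => (r : ℂ) * E n z) (fun α => r * s α) := by
  obtain ⟨c, hc, Q, hQ, hQ'⟩ := H
  refine ⟨r • c, fun α => ?_, _, hQ.cmul hB hh (r : ℂ), fun n z hz => ?_⟩
  · rw [Finsupp.sum_smul_index' (fun _ => by simp)]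
    beta_reduce
    rw [← hc α, Finsupp.mul_sum]
    refine Finsupp.sum_congr fun m _ => ?_
    simp only [smul_eq_mul]; ring
  · rw [Finsupp.sum_smul_index' (fun _ => by simp)]
    beta_reduce
    rw [hQ' n z hz, mul_add, Finsupp.mul_sum]
    congr 1
    · refine Finsupp.sum_congr fun m _ => ?_
      simp only [smul_eq_mul]; push_cast; ring
    · ring

lemma Good.hq {Q : ℕ → ℂ → ℂ} (hQ : QD B h Q) :
    Good B h w (fun n z => (h n : ℂ) * Q n z) (fun _ => 0) :=
  ⟨0, fun α => by simp, Q, hQ, fun n z _ => by simp⟩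

lemma good_v (hB : IsOpen B) (hh : Tendsto h atTop (𝓝 0)) (mc : ∀ k, MC B h (w k)) (m : ℕ) :
    Good B h w (vv w m) (fun α => Real.cos (m * α)) := by
  refine ⟨Finsupp.single m 1, fun α => ?_, _, QD.zero hB hh mc, fun n z _ => ?_⟩
  · rw [Finsupp.sum_single_index (by ring)]; ring
  · rw [Finsupp.sum_single_index (by simp)]; push_cast; ring

variable (hB : IsOpen B) (hh : Tendsto h atTop (𝓝 0)) (ha : ContDiffOn ℝ ∞ a B)
  (mc : ∀ k, MC B h (w k))
  (up : ∀ k, ∃ e, MC B h e ∧ ∀ n, ∀ z ∈ B,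
    DP a (h n) (w k n) z = w (k + 1) n z + (h n : ℂ) * e n z)
  (dn : ∀ k, ∃ e, MC B h e ∧ ∀ n, ∀ z ∈ B,
    DM a (h n) (w k n) z = - w (k - 1) n z + (h n : ℂ) * e n z)

include hB hh ha mc up dn in
lemma good_sLv (m : ℕ) :
    Good B h w (sL a h (vv w m)) (fun α => (2 - 2 * Real.cos α) * Real.cos (m * α)) := by
  obtain ⟨Q, hQ, hQ'⟩ := sL_vv hB hh ha mc up dn (m : ℤ)
  have g0 := (good_v hB hh mc m).cmul hB hh 2
  have g1 := (good_v hB hh mc (m + 1)).cmul hB hh (-1)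
  have c1 : ∀ α : ℝ, Real.cos (((m + 1 : ℕ) : ℝ) * α) =
      Real.cos (m * α) * Real.cos α - Real.sin (m * α) * Real.sin α := by
    intro α
    rw [← Real.cos_add]; congr 1; push_cast; ring
  cases m with
  | zero =>
    refine (((g0.add g1).add g1).add (Good.hq hQ)).cg (fun n z hz => ?_) fun α => ?_
    · rw [hQ' n z hz]
      have e1 : ((0 : ℕ) : ℤ) + 1 = ((0 + 1 : ℕ) : ℤ) := by simp
      have e2 : ((0 : ℕ) : ℤ) - 1 = -((0 + 1 : ℕ) : ℤ) := by simp
      rw [e1, e2, vv_neg]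
      push_cast; ring
    · have := c1 α
      simp only [this]
      simp; ring
  | succ m =>
    have g2 := (good_v hB hh mc m).cmul hB hh (-1)
    refine (((g0.add g1).add g2).add (Good.hq hQ)).cg (fun n z hz => ?_) fun α => ?_
    · rw [hQ' n z hz]
      have e1 : (((m + 1 : ℕ) : ℤ)) + 1 = ((m + 1 + 1 : ℕ) : ℤ) := by push_cast; ring
      have e2 : (((m + 1 : ℕ) : ℤ)) - 1 = (m : ℤ) := by push_cast; ring
      rw [e1, e2]
      push_cast; ring
    · have e3 : Real.cos ((m : ℝ) * α) = Real.cos (((m + 1 : ℕ) : ℝ) * α) * Real.cos α +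
          Real.sin (((m + 1 : ℕ) : ℝ) * α) * Real.sin α := by
        rw [← Real.cos_sub]; congr 1; push_cast; ring
      have := c1 α
      simp only [this, e3]
      ring

lemma vv_sm (hmc : ∀ k, MC B h (w k)) (m : ℤ) (n : ℕ) : ContDiffOn ℝ ∞ (vv w m n) B :=
  contDiffOn_const.mul (((mclb (hmc m)).sm n).mul ((mclb (hmc (-m))).sm n))

lemma sum_sm (hmc : ∀ k, MC B h (w k)) (c : ℕ →₀ ℝ) (n : ℕ) :
    ContDiffOn ℝ ∞ (fun z => c.sum fun m x => (x : ℂ) * vv w m n z) B := by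
  simp only [Finsupp.sum]
  exact ContDiffOn.sum fun m _ => contDiffOn_const.mul (vv_sm hmc m n)

include hB hh ha mc up dn in
lemma good_sLsum (c : ℕ →₀ ℝ) :
    Good B h w (sL a h (fun n z => c.sum fun m x => (x : ℂ) * vv w m n z))
      (fun α => (2 - 2 * Real.cos α) * c.sum fun m x => x * Real.cos (m * α)) := by
  induction c using Finsupp.induction_linear with
  | zero =>
    refine (Good.hq (QD.zero hB hh mc)).cg (fun n z hz => ?_) fun α => by simp
    have e : (fun (n : ℕ) (z : ℂ) => (0 : ℕ →₀ ℝ).sum fun m x => (x : ℂ) * vv w m n z) =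
        fun _ _ => 0 := by funext n z; simp
    rw [e]
    have e2 : lap (fun _ : ℂ => (0 : ℂ)) z = 0 := by
      have e0 : lap (fun _ : ℂ => (0 : ℂ)) z =
        fderiv ℝ (fun w => fderiv ℝ (fun _ : ℂ => (0 : ℂ)) w 1) z 1 +
        fderiv ℝ (fun w => fderiv ℝ (fun _ : ℂ => (0 : ℂ)) w I) z I := rfl
      rw [e0]; simp
    simp only [sL, e2]; ring
  | add c d ih1 ih2 =>
    refine (ih1.add ih2).cg (fun n z hz => ?_) fun α => ?_
    · have e : (fun z => (c + d).sum fun m x => (x : ℂ) * vv w m n z) =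
          fun z => 1 * (c.sum fun m x => (x : ℂ) * vv w m n z) +
            1 * (d.sum fun m x => (x : ℂ) * vv w m n z) := by
        funext z
        rw [Finsupp.sum_add_index' (fun _ => by simp) (fun _ _ _ => by push_cast; ring)]
        ring
      simp only [sL]
      rw [e, lap_lin hB (sum_sm mc c n) (sum_sm mc d n) 1 1 hz]
      ring
    · rw [Finsupp.sum_add_index' (fun _ => by ring) (fun _ _ _ => by ring)]; ring
  | single m x =>
    refine ((good_sLv hB hh ha mc up dn m).cmul hB hh x).cg (fun n z hz => ?_) fun α => ?_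
    · have e : (fun z => (Finsupp.single m x).sum fun m x => (x : ℂ) * vv w m n z) =
          fun z => (x : ℂ) * vv w m n z + 0 * vv w m n z := by
        funext z
        rw [Finsupp.sum_single_index (by simp)]; ring
      simp only [sL]
      rw [e, lap_lin hB (vv_sm mc m n) (vv_sm mc m n) _ _ hz]
      ring
    · rw [Finsupp.sum_single_index (by ring)]; ring

include hB hh ha mc up dn in
lemma Good.sL {E : ℕ → ℂ → ℂ} {s : ℝ → ℝ} (H : Good B h w E s) :
    Good B h w (RG.sL a h E) (fun α => (2 - 2 * Real.cos α) * s α) := by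
  obtain ⟨c, hc, Q, hQ, hQ'⟩ := H
  refine ((good_sLsum hB hh ha mc up dn c).add (Good.hq (hQ.sL hB hh ha))).cg
    (fun n z hz => ?_) fun α => ?_
  · have e : ∀ z ∈ B, E n z = 1 * (c.sum fun m x => (x : ℂ) * vv w m n z) +
        (h n : ℂ) * Q n z := fun z hz => by rw [hQ' n z hz, one_mul]
    simp only [RG.sL]
    rw [lap_cg hB e hz, lap_lin hB (sum_sm mc c n) (hQ.lb.sm n) _ _ hz]
    ring
  · rw [hc]; ring

include hB hh ha mc up dn in
lemma good_it {E : ℕ → ℂ → ℂ} {s : ℝ → ℝ} (H : Good B h w E s) (i : ℕ) :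
    Good B h w ((RG.sL a h)^[i] E) (fun α => (2 - 2 * Real.cos α) ^ i * s α) := by
  induction i with
  | zero => exact H.cg (fun _ _ _ => rfl) fun α => by ring
  | succ i ih =>
    rw [Function.iterate_succ_apply']
    exact (Good.sL hB hh ha mc up dn ih).cg (fun _ _ _ => rfl) fun α => by ring

lemma good_sum (hB : IsOpen B) (hh : Tendsto h atTop (𝓝 0)) (mc : ∀ k, MC B h (w k))
    {ι : Type*} (t : Finset ι) {E : ι → ℕ → ℂ → ℂ} {s : ι → ℝ → ℝ}
    (H : ∀ i, Good B h w (E i) (s i)) :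
    Good B h w (fun n z => ∑ i ∈ t, E i n z) (fun α => ∑ i ∈ t, s i α) := by
  classical
  induction t using Finset.induction_on with
  | empty => exact (Good.hq (QD.zero hB hh mc)).cg (fun n z _ => by simp) fun α => by simp
  | insert i t hi ih =>
    refine ((H i).add ih).cg (fun n z _ => ?_) fun α => ?_
    · rw [Finset.sum_insert hi]
    · rw [Finset.sum_insert hi]

/-- `F(-h² a² Δ)` for one function -/
def sL1 (a : ℂ → ℝ) (t : ℝ) (g : ℂ → ℂ) (z : ℂ) : ℂ := -((t : ℂ) ^ 2 * ((a z : ℂ) ^ 2 * lap g z))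

lemma sL_it (a : ℂ → ℝ) (h : ℕ → ℝ) (E : ℕ → ℂ → ℂ) (i n : ℕ) :
    (sL a h)^[i] E n = (sL1 a (h n))^[i] (E n) := by
  induction i with
  | zero => rfl
  | succ i ih =>
    rw [Function.iterate_succ_apply', Function.iterate_succ_apply', ← ih]
    rfl

/-- the polynomial `F` in `-h² a² Δ` applied to `g` -/
def opP (a : ℂ → ℝ) (t : ℝ) (F : Polynomial ℝ) (g : ℂ → ℂ) (z : ℂ) : ℂ :=
  F.sum fun i x => (x : ℂ) * (sL1 a t)^[i] g z

include hB hh ha mc up dn in
theorem good_poly (F : Polynomial ℝ) :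
    Good B h w (fun n z => opP a (h n) F (vv w 0 n) z)
      (fun α => F.eval (2 - 2 * Real.cos α)) := by
  have g0 : Good B h w (vv w 0) (fun _ => 1) :=
    (good_v hB hh mc 0).cg (fun _ _ _ => rfl) fun α => by simp
  refine (good_sum hB hh mc F.support fun i =>
    ((good_it hB hh ha mc up dn g0 i).cmul hB hh (F.coeff i))).cg (fun n z hz => ?_) fun α => ?_
  · simp only [opP, Polynomial.sum_def]
    refine Finset.sum_congr rfl fun i _ => ?_
    rw [sL_it]
  · rw [Polynomial.eval_eq_sum, Polynomial.sum_def]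
    refine Finset.sum_congr rfl fun i _ => ?_
    ring

end

end Pool.Agent.TH294.RG
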