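import Mathlib

/-!
Project RG (helper294): the norm of Toeplitz forms.
-/

set_option autoImplicit false
open Filter Topology Complex

namespace Pool.Agent.TH294.RG

noncomputable section

lemma orth {n0 : ℕ} {ζ : ℂ} (hζ : IsPrimitiveRoot ζ n0) (m : ℤ) (hm : |m| < n0) :
    ∑ r ∈ Finset.range n0, (ζ ^ r) ^ m = if m = 0 then (n0 : ℂ) else 0 := by
  split_ifs with h
  · subst h; simp
  · have e1 : ∀ r : ℕ, (ζ ^ r) ^ m = (ζ ^ m) ^ r := by
      intro r
      rw [← zpow_natCast, ← zpow_natCast, ← zpow_mul, ← zpow_mul, mul_comm]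
    simp only [e1]
    have h1 : ζ ^ m ≠ 1 := by
      intro h2
      rw [hζ.zpow_eq_one_iff_dvd] at h2
      have := Int.le_of_dvd (abs_pos.2 h) ((dvd_abs _ _).2 h2)
      omega
    have h2 : (ζ ^ m) ^ n0 = 1 := by
      rw [← zpow_natCast, ← zpow_mul, mul_comm, zpow_mul, zpow_natCast, hζ.pow_eq_one, one_zpow]
    rw [geom_sum_eq h1, h2, sub_self, zero_div]

lemma toep0 {ι : Type*} (s : Finset ι) (c : ι → ℂ) (m : ι → ℤ) (C : ℝ)
    (hC : ∀ ζ : ℂ, ‖ζ‖ = 1 → ‖∑ i ∈ s, c i * ζ ^ (m i)‖ ≤ C) (L : ℕ) (R : ℕ → ℂ) :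
    ‖∑ i ∈ s, c i * ∑ k ∈ Finset.range L, ∑ l ∈ Finset.range L,
      (if (k : ℤ) - l = m i then R k * (starRingEnd ℂ) (R l) else 0)‖ ≤
      C * ∑ k ∈ Finset.range L, ‖R k‖ ^ 2 := by
  obtain ⟨n0, hn0⟩ : ∃ n0 : ℕ, 0 < n0 ∧ 2 * L < n0 ∧ ∀ i ∈ s, ((m i).natAbs + 2 * L) < n0 := by
    refine ⟨(∑ i ∈ s, (m i).natAbs) + 2 * L + 1, by omega, by omega, fun i hi => ?_⟩
    have := Finset.single_le_sum (f := fun i => (m i).natAbs) (fun i _ => Nat.zero_le _) hi
    omega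
  obtain ⟨hn1, hn2, hn3⟩ := hn0
  set ζ : ℂ := Complex.exp (2 * Real.pi * I / n0) with hζd
  have hζ : IsPrimitiveRoot ζ n0 := Complex.isPrimitiveRoot_exp n0 hn1.ne'
  have hζ1 : ‖ζ‖ = 1 := hζ.norm'_eq_one hn1.ne'
  have hzr : ∀ r : ℕ, ‖ζ ^ r‖ = 1 := fun r => by rw [norm_pow, hζ1, one_pow]
  have hz0 : ∀ r : ℕ, ζ ^ r ≠ 0 := fun r => by
    rw [← norm_pos_iff, hzr]; exact one_pos
  obtain ⟨T, hT⟩ : ∃ T : ℕ → ℂ, ∀ r, T r = ∑ k ∈ Finset.range L, R k * (ζ ^ r) ^ (-(k : ℤ)) :=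
    ⟨_, fun _ => rfl⟩
  have cj : ∀ r : ℕ, (starRingEnd ℂ) (ζ ^ r) = (ζ ^ r)⁻¹ := by
    intro r
    rw [Complex.inv_def, Complex.normSq_eq_norm_sq, hzr]; simp
  have hTT : ∀ r, ((‖T r‖ ^ 2 : ℝ) : ℂ) = ∑ k ∈ Finset.range L, ∑ l ∈ Finset.range L,
      (R k * (starRingEnd ℂ) (R l)) * (ζ ^ r) ^ ((l : ℤ) - k) := by
    intro r
    have e1 : ((‖T r‖ ^ 2 : ℝ) : ℂ) = T r * (starRingEnd ℂ) (T r) := by
      rw [Complex.mul_conj, Complex.normSq_eq_norm_sq]
    rw [e1, hT, map_sum, Finset.sum_mul_sum]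
    refine Finset.sum_congr rfl fun k _ => Finset.sum_congr rfl fun l _ => ?_
    rw [map_mul, map_zpow₀, cj, inv_zpow, ← zpow_neg, neg_neg, sub_eq_add_neg (l : ℤ),
      zpow_add₀ (hz0 r)]
    ring
  have key : ∀ j : ℤ, |j| + 2 * L < n0 → (n0 : ℂ)⁻¹ * ∑ r ∈ Finset.range n0,
      (ζ ^ r) ^ j * ((‖T r‖ ^ 2 : ℝ) : ℂ) = ∑ k ∈ Finset.range L, ∑ l ∈ Finset.range L,
      (if (k : ℤ) - l = j then R k * (starRingEnd ℂ) (R l) else 0) := by
    intro j hj
    have hn : (n0 : ℂ) ≠ 0 := by exact_mod_cast hn1.ne'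
    have e1 : ∑ r ∈ Finset.range n0, (ζ ^ r) ^ j * ((‖T r‖ ^ 2 : ℝ) : ℂ) =
        ∑ k ∈ Finset.range L, ∑ l ∈ Finset.range L, (R k * (starRingEnd ℂ) (R l)) *
          ∑ r ∈ Finset.range n0, (ζ ^ r) ^ (j + ((l : ℤ) - k)) := by
      simp only [hTT, Finset.mul_sum]
      rw [Finset.sum_comm]
      refine Finset.sum_congr rfl fun k _ => ?_
      rw [Finset.sum_comm]
      refine Finset.sum_congr rfl fun l _ => Finset.sum_congr rfl fun r _ => ?_
      rw [zpow_add₀ (hz0 r)]; ring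
    rw [e1, Finset.mul_sum]
    refine Finset.sum_congr rfl fun k hk => ?_
    rw [Finset.mul_sum]
    refine Finset.sum_congr rfl fun l hl => ?_
    rw [Finset.mem_range] at hk hl
    have hb : |j + ((l : ℤ) - k)| < n0 := by
      have := abs_add_le j ((l : ℤ) - k)
      have h2 : |(l : ℤ) - k| ≤ 2 * L := by rw [abs_le]; constructor <;> omega
      omega
    rw [orth hζ _ hb]
    by_cases h : (k : ℤ) - l = j
    · rw [if_pos h, if_pos (by omega)]
      field_simp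
    · rw [if_neg h, if_neg (by omega)]
      simp
  have e2 : ∑ i ∈ s, c i * ∑ k ∈ Finset.range L, ∑ l ∈ Finset.range L,
      (if (k : ℤ) - l = m i then R k * (starRingEnd ℂ) (R l) else 0) =
      (n0 : ℂ)⁻¹ * ∑ r ∈ Finset.range n0, (∑ i ∈ s, c i * (ζ ^ r) ^ (m i)) *
        ((‖T r‖ ^ 2 : ℝ) : ℂ) := by
    have e3 : ∀ i ∈ s, c i * ∑ k ∈ Finset.range L, ∑ l ∈ Finset.range L,
      (if (k : ℤ) - l = m i then R k * (starRingEnd ℂ) (R l) else 0) =
      (n0 : ℂ)⁻¹ * ∑ r ∈ Finset.range n0, c i * (ζ ^ r) ^ (m i) * ((‖T r‖ ^ 2 : ℝ) : ℂ) := by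
      intro i hi
      rw [← key (m i) (by have := hn3 i hi; rw [Int.abs_eq_natAbs]; omega)]
      simp only [Finset.mul_sum]
      refine Finset.sum_congr rfl fun r _ => ?_
      ring
    rw [Finset.sum_congr rfl e3, ← Finset.mul_sum, Finset.sum_comm]
    congr 1
    refine Finset.sum_congr rfl fun r _ => ?_
    rw [Finset.sum_mul]
  have e4 : ∑ k ∈ Finset.range L, ‖R k‖ ^ 2 = (n0 : ℝ)⁻¹ * ∑ r ∈ Finset.range n0, ‖T r‖ ^ 2 := by
    have h0 := key 0 (by simp; omega)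
    have h1 : ∑ k ∈ Finset.range L, ∑ l ∈ Finset.range L,
        (if (k : ℤ) - l = 0 then R k * (starRingEnd ℂ) (R l) else 0) =
        ((∑ k ∈ Finset.range L, ‖R k‖ ^ 2 : ℝ) : ℂ) := by
      rw [ofReal_sum]
      refine Finset.sum_congr rfl fun k hk => ?_
      rw [Finset.sum_eq_single k]
      · rw [if_pos (by ring), Complex.mul_conj, Complex.normSq_eq_norm_sq]
      · intro l _ hl
        rw [if_neg]
        intro h; apply hl; omega
      · intro h; exact absurd hk h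
    rw [h1] at h0
    simp only [zpow_zero, one_mul] at h0
    have h2 := congrArg Complex.re h0
    rw [ofReal_re] at h2
    rw [← h2, ← ofReal_sum, ← ofReal_natCast, ← ofReal_inv, ← ofReal_mul, ofReal_re]
  rw [e2, e4, norm_mul, norm_inv, Complex.norm_natCast]
  rw [mul_left_comm]
  refine mul_le_mul_of_nonneg_left ?_ (by positivity)
  refine (norm_sum_le _ _).trans ?_
  rw [Finset.mul_sum]
  refine Finset.sum_le_sum fun r _ => ?_
  rw [norm_mul, norm_real, Real.norm_eq_abs, abs_of_nonneg (by positivity)]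
  exact mul_le_mul_of_nonneg_right (hC _ (hzr r)) (by positivity)

/-- counting pairs with a given difference -/
lemma cnt (m : ℤ) : Tendsto (fun L : ℕ => ((L : ℝ))⁻¹ * ∑ k ∈ Finset.range L, ∑ l ∈ Finset.range L,
    (if (k : ℤ) - l = m then (1 : ℝ) else 0)) atTop (𝓝 1) := by
  have hval : ∀ L : ℕ, m.natAbs ≤ L → ∑ k ∈ Finset.range L, ∑ l ∈ Finset.range L,
      (if (k : ℤ) - l = m then (1 : ℝ) else 0) = L - m.natAbs := by
    intro L hL
    have e1 : ∀ k ∈ Finset.range L, ∑ l ∈ Finset.range L, (if (k : ℤ) - l = m then (1 : ℝ) else 0) =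
        if (0 ≤ (k : ℤ) - m ∧ (k : ℤ) - m < L) then 1 else 0 := by
      intro k hk
      split_ifs with h
      · rw [Finset.sum_eq_single ((k : ℤ) - m).toNat]
        · rw [if_pos (by omega)]
        · intro l _ hl
          rw [if_neg]; omega
        · intro h2; exfalso; apply h2; rw [Finset.mem_range]; omega
      · refine Finset.sum_eq_zero fun l hl => ?_
        rw [Finset.mem_range] at hl
        rw [if_neg]; omega
    rw [Finset.sum_congr rfl e1, Finset.sum_boole]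
    have e2 : (Finset.range L).filter (fun k : ℕ => 0 ≤ (k : ℤ) - m ∧ (k : ℤ) - m < L) =
        Finset.Ico m.toNat (L - (-m).toNat) := by
      ext k
      simp only [Finset.mem_filter, Finset.mem_range, Finset.mem_Ico]
      omega
    rw [e2, Nat.card_Ico]
    have e3 : L - (-m).toNat - m.toNat = L - m.natAbs := by omega
    rw [e3]
    push_cast [Nat.cast_sub hL]
    ring
  have h1 : Tendsto (fun L : ℕ => 1 - ((L : ℝ))⁻¹ * m.natAbs) atTop (𝓝 (1 - 0 * m.natAbs)) :=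
    (tendsto_inv_atTop_nhds_zero_nat.mul_const _).const_sub 1
  rw [zero_mul, sub_zero] at h1
  refine h1.congr' ?_
  filter_upwards [eventually_ge_atTop m.natAbs, eventually_gt_atTop 0] with L hL hL0
  rw [hval L hL]
  have : (L : ℝ) ≠ 0 := by exact_mod_cast hL0.ne'
  field_simp

end

end Pool.Agent.TH294.RG
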