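import Pool.Agent.TH294.RG.Ult
import Pool.Agent.TH294.RG.Toep
import Pool.Agent.TH294.RG.Ker

/-!
Project RG (helper294): positivity of the fourth order deviations.
-/

set_option autoImplicit false
open MeasureTheory Filter Topology Complex
open scoped ContDiff

namespace Pool.Agent.TH294.RG

open Pool.Agent.W745.RW Pool.Agent.TH294.RS

noncomputable section

variable {B : Set ℂ} {a : ℂ → ℝ} {h : ℕ → ℝ} {w : ℤ → ℕ → ℂ → ℂ} {M : ℕ → ℂ → ℂ}

/-- signs -/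
def sg (k : ℤ) : ℂ := (-1) ^ k.natAbs

lemma sg_even {k : ℤ} (hk : Even k) : sg k = 1 := (Int.natAbs_even.2 hk).neg_one_pow
lemma sg_odd {k : ℤ} (hk : ¬ Even k) : sg k = -1 :=
  (Int.natAbs_odd.2 (Int.not_even_iff_odd.1 hk)).neg_one_pow
lemma sg_sq (k : ℤ) : sg k * sg k = 1 := sgn_sq _
lemma sg_norm (k : ℤ) : ‖sg k‖ = 1 := by simp [sg]
lemma sg_conj (k : ℤ) : (starRingEnd ℂ) (sg k) = sg k := by simp [sg]
lemma sg_add (j k : ℤ) : sg (j + k) = sg j * sg k := by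
  by_cases hj : Even j <;> by_cases hk : Even k
  · rw [sg_even hj, sg_even hk, sg_even (hj.add hk)]; ring
  · rw [sg_even hj, sg_odd hk, sg_odd]
    · ring
    · rw [Int.even_add]; tauto
  · rw [sg_odd hj, sg_even hk, sg_odd]
    · ring
    · rw [Int.even_add]; tauto
  · rw [sg_odd hj, sg_odd hk, sg_even]
    · ring
    · rw [Int.even_add]; tauto
lemma sg_neg (k : ℤ) : sg (-k) = sg k := by simp [sg]
lemma sg_sub (j k : ℤ) : sg (j - k) = sg (j + k) := by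
  rw [sub_eq_add_neg, sg_add, sg_neg, sg_add]

lemma sum2_int {s : Finset ℕ} {G : ℕ → ℕ → ℂ → ℂ} (hG : ∀ j i, Integrable (G j i)) :
    ∑ j ∈ s, ∑ i ∈ s, ∫ z, G j i z = ∫ z, ∑ j ∈ s, ∑ i ∈ s, G j i z := by
  rw [integral_finsetSum _ fun j _ => integrable_finsetSum _ fun i _ => hG j i]
  refine Finset.sum_congr rfl fun j _ => ?_
  rw [integral_finsetSum _ fun i _ => hG j i]

lemma int4 {f1 f2 f3 f4 : ℂ → ℂ} (h1 : Integrable f1) (h2 : Integrable f2) (h3 : Integrable f3)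
    (h4 : Integrable f4) : (∫ z, f1 z) - (∫ z, f2 z) - (∫ z, f3 z) + (∫ z, f4 z) =
      ∫ z, (f1 z - f2 z - f3 z + f4 z) := by
  have e1 := integral_sub h1 h2
  have e2 := integral_sub (h1.sub h2) h3
  have e3 := integral_add ((h1.sub h2).sub h3) h4
  simp only [Pi.sub_apply] at e1 e2 e3
  rw [e3, e2, e1]

/-- averages -/
def Sg (w : ℤ → ℕ → ℂ → ℂ) (N : ℕ) (k : ℤ) (n : ℕ) (z : ℂ) : ℂ :=
  (N : ℂ)⁻¹ * ∑ j ∈ Finset.Icc 1 N, sg (k + j) * (w (k + j) n z * w (k - j) n z)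

lemma MZ_conj (h0 : ∀ z, (starRingEnd ℂ) (M 0 z) = M 0 z) (l : ℤ) (z : ℂ) :
    (starRingEnd ℂ) (MZ M (2 * l) z) = MZ M (-(2 * l)) z := by
  have e1 : ((-1 : ℂ)) ^ (2 * l).natAbs = 1 :=
    (Int.natAbs_even.2 (even_two_mul l)).neg_one_pow
  rcases lt_trichotomy l 0 with hneg | rfl | hpos
  · simp only [MZ, if_neg (show ¬ 0 ≤ 2 * l by omega), if_pos (show 0 ≤ -(2 * l) by omega),
      Int.natAbs_neg, e1, one_mul, conj_conj]
  · simp only [MZ, mul_zero, neg_zero, le_refl, if_true, Int.natAbs_zero, h0]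
  · simp only [MZ, if_pos (show 0 ≤ 2 * l by omega), if_neg (show ¬ 0 ≤ -(2 * l) by omega),
      Int.natAbs_neg, e1, one_mul]

lemma AG.conjS (H : AG B a h w M) (N : ℕ) (l : ℤ) (n : ℕ) {z : ℂ} (hz : z ∈ B) :
    (starRingEnd ℂ) (Sg w N l n z) = (N : ℂ)⁻¹ * ∑ i ∈ Finset.Icc 1 N,
      sg (l + i) * (w (-(l + i)) n z * w (-(l - i)) n z) := by
  unfold Sg
  rw [map_mul, map_sum, map_inv₀, Complex.conj_natCast]
  congr 1
  refine Finset.sum_congr rfl fun i _ => ?_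
  rw [map_mul, map_mul, sg_conj, H.cj _ n z hz, H.cj _ n z hz]
  have e1 : sg (l + i) * sg (l - i) = 1 := by rw [sg_sub, sg_sq]
  show sg (l + i) * (sg (l + i) * w (-(l + i)) n z * (sg (l - i) * w (-(l - i)) n z)) = _
  linear_combination (sg (l + i) * w (-(l + i)) n z * w (-(l - i)) n z) * e1

lemma AG.mlS (H : AG B a h w M) (N : ℕ) (k : ℤ) (n : ℕ) : ML B (Sg w N k n) := by
  apply ML.smooth
  unfold Sg
  refine continuousOn_const.mul (continuousOn_finsetSum _ fun j _ => continuousOn_const.mul ?_)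
  exact ((H.bd _).co n).mul ((H.bd _).co n)

lemma AG.limS (H : AG B a h w M) (hB : IsOpen B) {φ : ℂ → ℝ} (hφ : TF B φ) {N : ℕ} (hN : 0 < N)
    (k : ℤ) {p : ℂ → ℂ} (hp : ML B p) :
    Tendsto (fun n => ∫ z, (φ z : ℂ) * (p z * Sg w N k n z)) atTop
      (𝓝 (∫ z, (φ z : ℂ) * (p z * MZ M (2 * k) z))) := by
  have h1 : ∀ j : ℕ, Tendsto (fun n => ∫ z, (φ z : ℂ) * (p z * (sg (k + j) * (w (k + j) n z *
      w (k - j) n z)))) atTop (𝓝 (∫ z, (φ z : ℂ) * (p z * MZ M (2 * k) z))) := by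
    intro j
    have e := ((H.two hB (k + j) (k - j)).cmul (sg (k + j))).congr
      (f' := fun n z => sg (k + j) * (w (k + j) n z * w (k - j) n z)) (g' := MZ M (2 * k))
      (fun n z _ => rfl) fun z _ => by
        have e1 : k + j + (k - j) = 2 * k := by ring
        simp only [cc]
        rw [e1, if_pos (even_two_mul k)]
        have := sg_sq (k + j)
        unfold sg at this ⊢
        linear_combination (-(MZ M (2 * k) z)) * this
    exact e.dens hB (((H.bd _).mul4 (H.bd _)).cmul _) (ML.MZ H.ml _) hp hφ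
  have h2 := (tendsto_finsetSum (Finset.Icc 1 N) (fun j _ => h1 j)).const_mul ((N : ℂ)⁻¹)
  have hN0 : (N : ℂ) ≠ 0 := by exact_mod_cast hN.ne'
  have e1 : (N : ℂ)⁻¹ * ∑ j ∈ Finset.Icc 1 N, (∫ z, (φ z : ℂ) * (p z * MZ M (2 * k) z)) =
      ∫ z, (φ z : ℂ) * (p z * MZ M (2 * k) z) := by
    rw [Finset.sum_const, Nat.card_Icc, Nat.add_sub_cancel, nsmul_eq_mul, ← mul_assoc,
      inv_mul_cancel₀ hN0, one_mul]
  rw [e1] at h2
  refine h2.congr fun n => ?_
  have ii : ∀ j : ℕ, Integrable (fun z => (φ z : ℂ) * (p z * (sg (k + j) * (w (k + j) n z *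
      w (k - j) n z)))) := by
    intro j
    have hc : ContinuousOn (fun z => sg (k + j) * (w (k + j) n z * w (k - j) n z)) B :=
      continuousOn_const.mul (((H.bd _).co n).mul ((H.bd _).co n))
    exact TF.intK hφ (hp.mulint (ML.smooth hc) hφ.2.1 hφ.2.2)
  rw [← integral_finsetSum _ fun j _ => ii j, ← integral_const_mul]
  congr 1; funext z
  simp only [Sg, Finset.mul_sum]
  refine Finset.sum_congr rfl fun j _ => ?_
  ring

/-- the Gram matrix -/
def gr (w : ℤ → ℕ → ℂ → ℂ) (M : ℕ → ℂ → ℂ) (φ : ℂ → ℝ) (N : ℕ) (k l : ℤ) (n : ℕ) : ℂ :=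
  ∫ z, (φ z : ℂ) * ((Sg w N k n z - MZ M (2 * k) z) *
    (starRingEnd ℂ) (Sg w N l n z - MZ M (2 * l) z))

/-- its limit -/
def GR (M : ℕ → ℂ → ℂ) (φ : ℂ → ℝ) (x : ℤ → ℂ) (N : ℕ) (k l : ℤ) : ℂ :=
  (N : ℂ)⁻¹ * ((N : ℂ)⁻¹ * ∑ j ∈ Finset.Icc 1 N, ∑ i ∈ Finset.Icc 1 N, sg (k + j) * sg (l + i) *
    ((∫ z, (φ z : ℂ) * (cc M (k + j) (-(l + i)) z * cc M (k - j) (-(l - i)) z +
      cc M (k + j) (-(l - i)) z * cc M (k - j) (-(l + i)) z)) +
      ep2 (k + j) (k - j) (-(l + i)) (-(l - i)) * x (2 * (k - l))))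

lemma AG.gram (H : AG B a h w M) (hB : IsOpen B) {φ : ℂ → ℝ} (hφ : TF B φ) {U : Ultrafilter ℕ}
    (hU : (U : Filter ℕ) ≤ atTop) {x : ℤ → ℂ}
    (hx : ∀ i j k l, Tendsto (fun n => ∫ z, (φ z : ℂ) * F4 w i j k l n z) U
      (𝓝 ((∫ z, (φ z : ℂ) * GG' M i j k l z) + ep2 i j k l * x (i + j + k + l)))) {N : ℕ}
    (hN : 0 < N) (k l : ℤ) : Tendsto (fun n => gr w M φ N k l n) U (𝓝 (GR M φ x N k l)) := by
  have hN0 : (N : ℂ) ≠ 0 := by exact_mod_cast hN.ne'
  have mk := ML.MZ H.ml (2 * k)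
  have ml := ML.MZ H.ml (2 * l)
  -- the three simpler terms
  have t1 := (H.limS hB hφ hN k ml.conj).mono_left hU
  have t2 := (H.limS hB hφ hN l mk.conj).mono_left hU
  have t2c := (Complex.continuous_conj.tendsto _).comp t2
  have cjI : ∀ F : ℂ → ℂ, (starRingEnd ℂ) (∫ z, (φ z : ℂ) * F z) =
      ∫ z, (φ z : ℂ) * (starRingEnd ℂ) (F z) := by
    intro F
    rw [← integral_conj]
    congr 1; funext z
    rw [map_mul, conj_ofReal]
  have t3 : Tendsto (fun n => ∫ z, (φ z : ℂ) * (MZ M (2 * k) z * (starRingEnd ℂ) (Sg w N l n z)))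
      U (𝓝 (∫ z, (φ z : ℂ) * (MZ M (2 * k) z * (starRingEnd ℂ) (MZ M (2 * l) z)))) := by
    have e1 : (starRingEnd ℂ) (∫ z, (φ z : ℂ) * ((starRingEnd ℂ) (MZ M (2 * k) z) *
        MZ M (2 * l) z)) = ∫ z, (φ z : ℂ) * (MZ M (2 * k) z * (starRingEnd ℂ) (MZ M (2 * l) z)) := by
      rw [cjI]; congr 1; funext z; rw [map_mul, conj_conj]
    rw [e1] at t2c
    refine t2c.congr fun n => ?_
    show (starRingEnd ℂ) (∫ z, (φ z : ℂ) * ((starRingEnd ℂ) (MZ M (2 * k) z) * Sg w N l n z)) = _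
    rw [cjI]; congr 1; funext z; rw [map_mul, conj_conj]
  -- the quadratic term
  have c4 : ∀ i j k l n, Integrable (fun z => (φ z : ℂ) * F4 w i j k l n z) :=
    fun i j k l n => TF.cint hφ (((((H.bd i).co n).mul ((H.bd j).co n)).mul
      ((H.bd k).co n)).mul ((H.bd l).co n))
  have t4 : Tendsto (fun n => ∫ z, (φ z : ℂ) * (Sg w N k n z * (starRingEnd ℂ) (Sg w N l n z))) U
      (𝓝 ((N : ℂ)⁻¹ * ((N : ℂ)⁻¹ * ∑ j ∈ Finset.Icc 1 N, ∑ i ∈ Finset.Icc 1 N,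
        sg (k + j) * sg (l + i) *
        ((∫ z, (φ z : ℂ) * GG' M (k + j) (k - j) (-(l + i)) (-(l - i)) z) +
        ep2 (k + j) (k - j) (-(l + i)) (-(l - i)) *
        x (k + j + (k - j) + (-(l + i)) + (-(l - i))))))) := by
    have := ((tendsto_finsetSum (Finset.Icc 1 N) fun j _ => tendsto_finsetSum (Finset.Icc 1 N)
      fun i _ => (hx (k + j) (k - j) (-(l + i)) (-(l - i))).const_mul
        (sg (k + j) * sg (l + i))).const_mul ((N : ℂ)⁻¹)).const_mul ((N : ℂ)⁻¹)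
    refine this.congr fun n => ?_
    have e1 : ∀ j i : ℕ, sg (k + j) * sg (l + i) * ∫ z, (φ z : ℂ) * F4 w (k + j) (k - j)
        (-(l + i)) (-(l - i)) n z = ∫ z, (sg (k + j) * sg (l + i)) * ((φ z : ℂ) *
        F4 w (k + j) (k - j) (-(l + i)) (-(l - i)) n z) := fun j i =>
      (integral_const_mul _ _).symm
    simp only [e1]
    rw [sum2_int (G := fun j i z => (sg (k + j) * sg (l + i)) * ((φ z : ℂ) *
        F4 w (k + j) (k - j) (-(l + i)) (-(l - i)) n z)) (fun j i => (c4 _ _ _ _ n).const_mul _),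
      ← integral_const_mul, ← integral_const_mul]
    congr 1; funext z
    by_cases hz : z ∈ B
    · rw [H.conjS N l n hz]
      unfold Sg
      have e2 : ∀ X Y : ℂ, (φ z : ℂ) * ((N : ℂ)⁻¹ * X * ((N : ℂ)⁻¹ * Y)) =
        (N : ℂ)⁻¹ * ((N : ℂ)⁻¹ * ((φ z : ℂ) * (X * Y))) := fun X Y => by ring
      rw [e2, Finset.sum_mul_sum]
      simp only [Finset.mul_sum]
      refine Finset.sum_congr rfl fun j _ => Finset.sum_congr rfl fun i _ => ?_
      simp only [F4]; ring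
    · rw [TF.zero hφ hz]; simp
  -- integrability
  have i1 : ∀ n, Integrable (fun z => (φ z : ℂ) * (Sg w N k n z * (starRingEnd ℂ) (Sg w N l n z))) :=
    fun n => TF.intK hφ ((H.mlS N k n).mulint (H.mlS N l n).conj hφ.2.1 hφ.2.2)
  have i2 : ∀ n, Integrable (fun z => (φ z : ℂ) * ((starRingEnd ℂ) (MZ M (2 * l) z) * Sg w N k n z)) :=
    fun n => TF.intK hφ (ml.conj.mulint (H.mlS N k n) hφ.2.1 hφ.2.2)
  have i3 : ∀ n, Integrable (fun z => (φ z : ℂ) * (MZ M (2 * k) z * (starRingEnd ℂ) (Sg w N l n z))) :=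
    fun n => TF.intK hφ (mk.mulint (H.mlS N l n).conj hφ.2.1 hφ.2.2)
  have i4 : Integrable (fun z => (φ z : ℂ) * (MZ M (2 * k) z * (starRingEnd ℂ) (MZ M (2 * l) z))) :=
    TF.intK hφ (mk.mulint ml.conj hφ.2.1 hφ.2.2)
  have t5 := ((t4.sub t1).sub t3).add_const (∫ z, (φ z : ℂ) * (MZ M (2 * k) z *
    (starRingEnd ℂ) (MZ M (2 * l) z)))
  have e9 : (N : ℂ)⁻¹ * ((N : ℂ)⁻¹ * ∑ j ∈ Finset.Icc 1 N, ∑ i ∈ Finset.Icc 1 N,
        sg (k + j) * sg (l + i) *
        ((∫ z, (φ z : ℂ) * GG' M (k + j) (k - j) (-(l + i)) (-(l - i)) z) +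
        ep2 (k + j) (k - j) (-(l + i)) (-(l - i)) *
        x (k + j + (k - j) + (-(l + i)) + (-(l - i))))) -
      (∫ z, (φ z : ℂ) * ((starRingEnd ℂ) (MZ M (2 * l) z) * MZ M (2 * k) z)) -
      (∫ z, (φ z : ℂ) * (MZ M (2 * k) z * (starRingEnd ℂ) (MZ M (2 * l) z))) +
      (∫ z, (φ z : ℂ) * (MZ M (2 * k) z * (starRingEnd ℂ) (MZ M (2 * l) z))) =
      GR M φ x N k l := by
    have e1 : ∀ j i : ℕ, sg (k + j) * sg (l + i) *
        ((∫ z, (φ z : ℂ) * GG' M (k + j) (k - j) (-(l + i)) (-(l - i)) z) +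
        ep2 (k + j) (k - j) (-(l + i)) (-(l - i)) *
        x (k + j + (k - j) + (-(l + i)) + (-(l - i)))) =
        sg (k + j) * sg (l + i) *
        ((∫ z, (φ z : ℂ) * (cc M (k + j) (-(l + i)) z * cc M (k - j) (-(l - i)) z +
        cc M (k + j) (-(l - i)) z * cc M (k - j) (-(l + i)) z)) +
        ep2 (k + j) (k - j) (-(l + i)) (-(l - i)) * x (2 * (k - l))) +
        ∫ z, (φ z : ℂ) * ((starRingEnd ℂ) (MZ M (2 * l) z) * MZ M (2 * k) z) := by
      intro j i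
      rw [show k + j + (k - j) + (-(l + i)) + (-(l - i)) = 2 * (k - l) by ring]
      have mm := fun (a b c d : ℤ) => (ML.cc H.ml a b).mulint (ML.cc H.ml c d) hφ.2.1 hφ.2.2
      have j1 : Integrable (fun z => (φ z : ℂ) * (cc M (k + j) (k - j) z *
        cc M (-(l + i)) (-(l - i)) z)) := TF.intK hφ (mm _ _ _ _)
      have j2 : Integrable (fun z => (φ z : ℂ) * (cc M (k + j) (-(l + i)) z *
        cc M (k - j) (-(l - i)) z + cc M (k + j) (-(l - i)) z * cc M (k - j) (-(l + i)) z)) :=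
        TF.intK hφ ((mm _ _ _ _).add (mm _ _ _ _))
      have e2 : ∫ z, (φ z : ℂ) * GG' M (k + j) (k - j) (-(l + i)) (-(l - i)) z =
          (∫ z, (φ z : ℂ) * (cc M (k + j) (k - j) z * cc M (-(l + i)) (-(l - i)) z)) +
          ∫ z, (φ z : ℂ) * (cc M (k + j) (-(l + i)) z *
        cc M (k - j) (-(l - i)) z + cc M (k + j) (-(l - i)) z * cc M (k - j) (-(l + i)) z) := by
        rw [← integral_add j1 j2]
        congr 1; funext z; simp only [GG']; ring
      have e3 : sg (k + j) * sg (l + i) * (∫ z, (φ z : ℂ) * (cc M (k + j) (k - j) z *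
          cc M (-(l + i)) (-(l - i)) z)) =
          ∫ z, (φ z : ℂ) * ((starRingEnd ℂ) (MZ M (2 * l) z) * MZ M (2 * k) z) := by
        rw [← integral_const_mul]
        congr 1; funext z
        rw [MZ_conj H.m0]
        have c1 : cc M (k + j) (k - j) z = sg (k + j) * MZ M (2 * k) z := by
          simp only [cc]
          rw [show k + j + (k - j) = 2 * k by ring, if_pos (even_two_mul k)]; rfl
        have c2 : cc M (-(l + i)) (-(l - i)) z = sg (l + i) * MZ M (-(2 * l)) z := by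
          simp only [cc]
          rw [show -(l + i) + -(l - (i : ℤ)) = -(2 * l) by ring, if_pos (even_two_mul l).neg]
          rw [Int.natAbs_neg]; rfl
        rw [c1, c2]
        have a1 := sg_sq (k + j)
        have a2 := sg_sq (l + i)
        linear_combination ((φ z : ℂ) * MZ M (2 * k) z * MZ M (-(2 * l)) z *
          (sg (l + i) * sg (l + i))) * a1 +
          ((φ z : ℂ) * MZ M (2 * k) z * MZ M (-(2 * l)) z) * a2
      rw [e2]
      linear_combination e3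
    simp only [e1, Finset.sum_add_distrib, Finset.sum_const, Nat.card_Icc, Nat.add_sub_cancel,
      nsmul_eq_mul]
    unfold GR
    simp only [Finset.sum_add_distrib, Finset.mul_sum, mul_add]
    have hNN : (N : ℂ)⁻¹ * ((N : ℂ)⁻¹ * ((N : ℂ) * ((N : ℂ) *
      ∫ z, (φ z : ℂ) * ((starRingEnd ℂ) (MZ M (2 * l) z) * MZ M (2 * k) z)))) =
      ∫ z, (φ z : ℂ) * ((starRingEnd ℂ) (MZ M (2 * l) z) * MZ M (2 * k) z) := by
      field_simp
    rw [hNN]
    ring
  rw [e9] at t5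
  refine t5.congr fun n => ?_
  unfold gr
  rw [int4 (i1 n) (i2 n) (i3 n) i4]
  congr 1; funext z
  simp only [map_sub]
  ring

end

end Pool.Agent.TH294.RG
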