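import Pool.Agent.TH294.RG.Psd

/-!
Project RG (helper294): the limit of the Gram matrices and the norm inequality.
-/

set_option autoImplicit false
open MeasureTheory Filter Topology Complex
open scoped ContDiff

namespace Pool.Agent.TH294.RG

open Pool.Agent.W745.RW Pool.Agent.TH294.RS

noncomputable section

variable {B : Set ℂ} {a : ℂ → ℝ} {h : ℕ → ℝ} {w : ℤ → ℕ → ℂ → ℂ} {M : ℕ → ℂ → ℂ}

lemma shift1 (g : ℤ → ℝ) (N : ℕ) : ∑ j ∈ Finset.Icc 1 N, g (j + 1) =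
    (∑ j ∈ Finset.Icc 1 N, g j) + g (N + 1) - g 1 := by
  induction N with
  | zero => simp
  | succ N ih =>
    rw [Finset.sum_Icc_succ_top (by omega), Finset.sum_Icc_succ_top (by omega), ih]
    push_cast
    ring

lemma shiftq {A : ℝ} (q : ℤ) : ∀ (g : ℤ → ℝ), (∀ k, 0 ≤ g k) → (∀ k, g k ≤ A) → ∀ (N : ℕ),
    ∑ j ∈ Finset.Icc 1 N, g (j + q) ≤ (∑ j ∈ Finset.Icc 1 N, g j) + |(q : ℝ)| * A := by
  have up : ∀ (g : ℤ → ℝ), (∀ k, 0 ≤ g k) → (∀ k, g k ≤ A) → ∀ (N : ℕ),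
      ∑ j ∈ Finset.Icc 1 N, g (j + 1) ≤ (∑ j ∈ Finset.Icc 1 N, g j) + A := by
    intro g g0 gA N
    rw [shift1]
    have := g0 1
    have := gA (N + 1)
    linarith
  have dn : ∀ (g : ℤ → ℝ), (∀ k, 0 ≤ g k) → (∀ k, g k ≤ A) → ∀ (N : ℕ),
      ∑ j ∈ Finset.Icc 1 N, g (j - 1) ≤ (∑ j ∈ Finset.Icc 1 N, g j) + A := by
    intro g g0 gA N
    have h1 := shift1 (fun k => g (k - 1)) N
    simp only [add_sub_cancel_right] at h1
    rw [h1]
    have := g0 N
    have := gA (1 - 1)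
    linarith
  induction q using Int.induction_on with
  | zero => intro g _ _ N; simp
  | succ i ih =>
    intro g g0 gA N
    have A0 : 0 ≤ A := (g0 0).trans (gA 0)
    have h1 := ih (fun k => g (k + 1)) (fun k => g0 _) (fun k => gA _) N
    have h2 := up g g0 gA N
    have e1 : ∀ j : ℕ, (j : ℤ) + ((i : ℤ) + 1) = (j : ℤ) + i + 1 := fun j => by ring
    simp only [e1]
    refine h1.trans ?_
    have e2 : |((((i : ℤ) + 1 : ℤ)) : ℝ)| = |((i : ℤ) : ℝ)| + 1 := by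
      push_cast
      rw [abs_of_nonneg (by positivity), abs_of_nonneg (by positivity)]
    rw [e2]
    linarith
  | pred i ih =>
    intro g g0 gA N
    have A0 : 0 ≤ A := (g0 0).trans (gA 0)
    have h1 := ih (fun k => g (k - 1)) (fun k => g0 _) (fun k => gA _) N
    have h2 := dn g g0 gA N
    have e1 : ∀ j : ℕ, (j : ℤ) + (-(i : ℤ) - 1) = (j : ℤ) + (-(i : ℤ)) - 1 := fun j => by ring
    simp only [e1]
    refine h1.trans ?_
    have e2 : |(((-(i : ℤ) - 1 : ℤ)) : ℝ)| = |(((-(i : ℤ)) : ℤ) : ℝ)| + 1 := by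
      push_cast
      rw [abs_of_nonpos (by
        have : (0 : ℝ) ≤ i := by positivity
        linarith), abs_of_nonpos (by
        have : (0 : ℝ) ≤ i := by positivity
        linarith)]
      ring
    rw [e2]
    linarith

/-- local mass of the moments of even order -/
def fK (M : ℕ → ℂ → ℂ) (φ : ℂ → ℝ) (K : ℤ) : ℝ :=
  if Even K then ∫ z, φ z * ‖M K.natAbs z‖ ^ 2 else 0

lemma fK_nn {φ : ℂ → ℝ} (hφ0 : ∀ z, 0 ≤ φ z) (K : ℤ) : 0 ≤ fK M φ K := by
  unfold fK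
  split_ifs
  · exact integral_nonneg fun z => mul_nonneg (hφ0 z) (by positivity)
  · exact le_rfl

lemma fK_neg (φ : ℂ → ℝ) (K : ℤ) : fK M φ (-K) = fK M φ K := by
  unfold fK
  rw [Int.natAbs_neg]
  simp only [even_neg]

lemma MZ_norm (K : ℤ) (z : ℂ) : ‖MZ M K z‖ = ‖M K.natAbs z‖ := by
  unfold MZ
  split_ifs
  · rfl
  · rw [norm_mul, norm_pow, norm_neg, norm_one, one_pow, one_mul, RCLike.norm_conj]

lemma ML.n2 {g : ℂ → ℂ} (hg : ML B g) {φ : ℂ → ℝ} (hφ : TF B φ) :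
    Integrable (fun z => φ z * ‖g z‖ ^ 2) := by
  have := int2 hφ (hg.nn hφ) (hg.nn hφ)
  refine this.congr (ae_of_all _ fun z => ?_)
  show φ z * (‖g z‖ * ‖g z‖) = _
  ring

lemma cc_int {φ : ℂ → ℝ} (i j : ℤ) :
    ∫ z, φ z * ‖cc M i j z‖ ^ 2 = fK M φ (i + j) := by
  unfold fK
  split_ifs with h
  · congr 1; funext z
    simp only [cc, if_pos h]
    rw [norm_mul, norm_pow, norm_neg, norm_one, one_pow, one_mul, MZ_norm]
  · simp only [cc, if_neg h]; simp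

lemma cross_bd (hml : ∀ k, ML B (M k)) {φ : ℂ → ℝ} (hφ : TF B φ) (hφ0 : ∀ z, 0 ≤ φ z)
    (i j k l : ℤ) : ‖∫ z, (φ z : ℂ) * (cc M i j z * cc M k l z)‖ ≤
      (fK M φ (i + j) + fK M φ (k + l)) / 2 := by
  have i1 := (ML.cc hml i j).n2 hφ
  have i2 := (ML.cc hml k l).n2 hφ
  refine (norm_integral_le_of_norm_le (g := fun z => (φ z * ‖cc M i j z‖ ^ 2 +
    φ z * ‖cc M k l z‖ ^ 2) / 2) ((i1.add i2).div_const 2) (ae_of_all _ fun z => ?_)).trans ?_
  · rw [norm_mul, norm_mul, norm_real, Real.norm_eq_abs, abs_of_nonneg (hφ0 z)]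
    have := sq_nonneg (‖cc M i j z‖ - ‖cc M k l z‖)
    have := hφ0 z
    nlinarith
  · rw [integral_div, integral_add i1 i2, cc_int, cc_int]

lemma sum_mono2 {N : ℕ} {f g : ℕ → ℕ → ℝ} (h : ∀ j i, f j i ≤ g j i) :
    ∑ j ∈ Finset.Icc 1 N, ∑ i ∈ Finset.Icc 1 N, f j i ≤
      ∑ j ∈ Finset.Icc 1 N, ∑ i ∈ Finset.Icc 1 N, g j i :=
  Finset.sum_le_sum fun j _ => Finset.sum_le_sum fun i _ => h j i

lemma GRcross (hml : ∀ k, ML B (M k)) {φ : ℂ → ℝ} (hφ : TF B φ) (hφ0 : ∀ z, 0 ≤ φ z) {A : ℝ}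
    (hA : ∀ K, fK M φ K ≤ A) (N : ℕ) (k l : ℤ) :
    ‖∑ j ∈ Finset.Icc 1 N, ∑ i ∈ Finset.Icc 1 N, sg (k + j) * sg (l + i) *
    (∫ z, (φ z : ℂ) * (cc M (k + j) (-(l + i)) z * cc M (k - j) (-(l - i)) z +
      cc M (k + j) (-(l - i)) z * cc M (k - j) (-(l + i)) z))‖ ≤
      (∑ j ∈ Finset.Icc 1 N, ∑ i ∈ Finset.Icc 1 N, ∫ z, φ z * ss M j i z) +
        2 * (N * (|((k - l : ℤ) : ℝ)| * A)) := by
  have mm := fun (a b c d : ℤ) => TF.intK hφ
    ((ML.cc hml a b).mulint (ML.cc hml c d) hφ.2.1 hφ.2.2)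
  have f0 := fun K => fK_nn (M := M) hφ0 K
  have b1 : ∀ j i : ℕ, ‖sg (k + j) * sg (l + i) *
      (∫ z, (φ z : ℂ) * (cc M (k + j) (-(l + i)) z * cc M (k - j) (-(l - i)) z +
      cc M (k + j) (-(l - i)) z * cc M (k - j) (-(l + i)) z))‖ ≤
      (fK M φ ((j : ℤ) + (k - l) - i) + fK M φ ((j : ℤ) + (l - k) - i)) / 2 +
      (fK M φ ((j : ℤ) + (k - l) + i) + fK M φ ((j : ℤ) + (l - k) + i)) / 2 := by
    intro j i
    rw [norm_mul, norm_mul, sg_norm, sg_norm, one_mul, one_mul]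
    have e1 : ∫ z, (φ z : ℂ) * (cc M (k + j) (-(l + i)) z * cc M (k - j) (-(l - i)) z +
        cc M (k + j) (-(l - i)) z * cc M (k - j) (-(l + i)) z) =
        (∫ z, (φ z : ℂ) * (cc M (k + j) (-(l + i)) z * cc M (k - j) (-(l - i)) z)) +
        ∫ z, (φ z : ℂ) * (cc M (k + j) (-(l - i)) z * cc M (k - j) (-(l + i)) z) := by
      rw [← integral_add (mm _ _ _ _) (mm _ _ _ _)]
      congr 1; funext z; ring
    rw [e1]
    refine (norm_add_le _ _).trans (add_le_add ((cross_bd hml hφ hφ0 _ _ _ _).trans (le_of_eq ?_))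
      ((cross_bd hml hφ hφ0 _ _ _ _).trans (le_of_eq ?_)))
    · rw [show k + (j : ℤ) + -(l + i) = (j : ℤ) + (k - l) - i by ring,
        show k - (j : ℤ) + -(l - i) = -((j : ℤ) + (l - k) - i) by ring, fK_neg]
    · rw [show k + (j : ℤ) + -(l - i) = (j : ℤ) + (k - l) + i by ring,
        show k - (j : ℤ) + -(l + i) = -((j : ℤ) + (l - k) + i) by ring, fK_neg]
  refine (norm_sum_le _ _).trans ?_
  refine (Finset.sum_le_sum fun j _ => norm_sum_le _ _).trans ?_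
  refine (sum_mono2 b1).trans ?_
  have hs : ∀ j i : ℕ, ∫ z, φ z * ss M j i z = fK M φ ((j : ℤ) - i) + fK M φ ((j : ℤ) + i) := by
    intro j i
    unfold fK ss
    by_cases hji : Even (j + i)
    · have p1 : Even ((j : ℤ) + i) := by exact_mod_cast hji
      have p2 : Even ((j : ℤ) - i) := by rw [Int.even_sub]; exact Int.even_add.1 p1
      simp only [if_pos hji, if_pos p1, if_pos p2]
      rw [← integral_add ((hml _).n2 hφ) ((hml _).n2 hφ)]
      congr 1; funext z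
      rw [show ((j : ℤ) + i).natAbs = j + i by omega]
      ring
    · have p1 : ¬ Even ((j : ℤ) + i) := by intro h; apply hji; exact_mod_cast h
      have p2 : ¬ Even ((j : ℤ) - i) := by
        intro h; apply p1; rw [Int.even_sub] at h; exact Int.even_add.2 h
      simp only [if_neg hji, if_neg p1, if_neg p2]
      simp
  simp only [hs]
  have sh1 : ∀ (q : ℤ) (i : ℕ), ∑ j ∈ Finset.Icc 1 N, fK M φ ((j : ℤ) + q - i) ≤
      (∑ j ∈ Finset.Icc 1 N, fK M φ ((j : ℤ) - i)) + |(q : ℝ)| * A := by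
    intro q i
    exact shiftq q (fun K => fK M φ (K - i)) (fun _ => f0 _) (fun _ => hA _) N
  have sh2 : ∀ (q : ℤ) (i : ℕ), ∑ j ∈ Finset.Icc 1 N, fK M φ ((j : ℤ) + q + i) ≤
      (∑ j ∈ Finset.Icc 1 N, fK M φ ((j : ℤ) + i)) + |(q : ℝ)| * A := by
    intro q i
    exact shiftq q (fun K => fK M φ (K + i)) (fun _ => f0 _) (fun _ => hA _) N
  have T1 : ∀ q : ℤ, ∑ j ∈ Finset.Icc 1 N, ∑ i ∈ Finset.Icc 1 N, fK M φ ((j : ℤ) + q - i) ≤
      (∑ j ∈ Finset.Icc 1 N, ∑ i ∈ Finset.Icc 1 N, fK M φ ((j : ℤ) - i)) + N * (|(q : ℝ)| * A) := by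
    intro q
    rw [Finset.sum_comm, Finset.sum_comm (f := fun j i : ℕ => fK M φ ((j : ℤ) - i))]
    refine (Finset.sum_le_sum fun i _ => sh1 q i).trans ?_
    rw [Finset.sum_add_distrib, Finset.sum_const, Nat.card_Icc, Nat.add_sub_cancel, nsmul_eq_mul]
  have T2 : ∀ q : ℤ, ∑ j ∈ Finset.Icc 1 N, ∑ i ∈ Finset.Icc 1 N, fK M φ ((j : ℤ) + q + i) ≤
      (∑ j ∈ Finset.Icc 1 N, ∑ i ∈ Finset.Icc 1 N, fK M φ ((j : ℤ) + i)) + N * (|(q : ℝ)| * A) := by
    intro q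
    rw [Finset.sum_comm, Finset.sum_comm (f := fun j i : ℕ => fK M φ ((j : ℤ) + i))]
    refine (Finset.sum_le_sum fun i _ => sh2 q i).trans ?_
    rw [Finset.sum_add_distrib, Finset.sum_const, Nat.card_Icc, Nat.add_sub_cancel, nsmul_eq_mul]
  simp only [Finset.sum_add_distrib, ← Finset.sum_div]
  have a1 := T1 (k - l)
  have a2 := T1 (l - k)
  have a3 := T2 (k - l)
  have a4 := T2 (l - k)
  have e1 : |((l - k : ℤ) : ℝ)| = |((k - l : ℤ) : ℝ)| := by
    push_cast; rw [abs_sub_comm]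
  rw [e1] at a2 a4
  linarith

lemma ep2_sg (k l : ℤ) (j i : ℕ) : sg (k + j) * sg (l + i) *
    ep2 (k + j) (k - j) (-(l + i)) (-(l - i)) = 2 / 3 + 1 / 3 * (sg (k + j) * sg (l + i)) := by
  have hev : Even (k + (j : ℤ) + (k - j) + (-(l + i)) + (-(l - i))) := ⟨k - l, by ring⟩
  unfold ep2
  rw [if_pos hev]
  unfold eps
  by_cases h1 : Even (k + (j : ℤ)) <;> by_cases h2 : Even (l + (i : ℤ))
  · rw [sg_even h1, sg_even h2, if_pos]
    · norm_num
    · rw [Int.even_iff] at h1 h2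
      refine ⟨?_, ?_, ?_⟩ <;> omega
  · rw [sg_even h1, sg_odd h2, if_neg]
    · norm_num
    · rw [Int.even_iff] at h1 h2
      intro hc; omega
  · rw [sg_odd h1, sg_even h2, if_neg]
    · norm_num
    · rw [Int.even_iff] at h1 h2
      intro hc; omega
  · rw [sg_odd h1, sg_odd h2, if_pos]
    · norm_num
    · rw [Int.even_iff] at h1 h2
      refine ⟨?_, ?_, ?_⟩ <;> omega

/-- the Gram matrices converge to a Toeplitz matrix -/
theorem GR_lim (hml : ∀ k, ML B (M k)) {φ : ℂ → ℝ} (hφ : TF B φ) (hφ0 : ∀ z, 0 ≤ φ z) {A : ℝ}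
    (hA : ∀ K, fK M φ K ≤ A) (hpar : Tendsto (fun N : ℕ => ((N : ℝ) ^ 2)⁻¹ *
      (∑ j ∈ Finset.Icc 1 N, ∑ k ∈ Finset.Icc 1 N, ∫ z, φ z * ss M j k z)) atTop (𝓝 0))
    (x : ℤ → ℂ) (k l : ℤ) :
    Tendsto (fun N => GR M φ x N k l) atTop (𝓝 (2 / 3 * x (2 * (k - l)))) := by
  have e1 : ∀ N, GR M φ x N k l = (N : ℂ)⁻¹ * ((N : ℂ)⁻¹ * ∑ j ∈ Finset.Icc 1 N,
      ∑ i ∈ Finset.Icc 1 N, sg (k + j) * sg (l + i) *
      (∫ z, (φ z : ℂ) * (cc M (k + j) (-(l + i)) z * cc M (k - j) (-(l - i)) z +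
      cc M (k + j) (-(l - i)) z * cc M (k - j) (-(l + i)) z))) +
      ((N : ℂ)⁻¹ * ((N : ℂ)⁻¹ * ((N : ℂ) * (N : ℂ) * (2 / 3)))  + 1 / 3 *
        (((N : ℂ)⁻¹ * ∑ j ∈ Finset.Icc 1 N, sg (k + j)) *
          ((N : ℂ)⁻¹ * ∑ i ∈ Finset.Icc 1 N, sg (l + i)))) * x (2 * (k - l)) := by
    intro N
    unfold GR
    have e2 : ∀ j i : ℕ, sg (k + j) * sg (l + i) *
      ((∫ z, (φ z : ℂ) * (cc M (k + j) (-(l + i)) z * cc M (k - j) (-(l - i)) z +
      cc M (k + j) (-(l - i)) z * cc M (k - j) (-(l + i)) z)) +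
      ep2 (k + j) (k - j) (-(l + i)) (-(l - i)) * x (2 * (k - l))) =
      sg (k + j) * sg (l + i) *
      (∫ z, (φ z : ℂ) * (cc M (k + j) (-(l + i)) z * cc M (k - j) (-(l - i)) z +
      cc M (k + j) (-(l - i)) z * cc M (k - j) (-(l + i)) z)) +
      (2 / 3 * x (2 * (k - l)) + (1 / 3 * x (2 * (k - l))) * (sg (k + j) * sg (l + i))) := by
      intro j i
      linear_combination (x (2 * (k - l))) * ep2_sg k l j i
    simp only [e2, Finset.sum_add_distrib]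
    have e3 : ∑ j ∈ Finset.Icc 1 N, ∑ i ∈ Finset.Icc 1 N, (1 / 3 * x (2 * (k - l))) *
        (sg (k + j) * sg (l + i)) = (1 / 3 * x (2 * (k - l))) *
        ((∑ j ∈ Finset.Icc 1 N, sg (k + j)) * (∑ i ∈ Finset.Icc 1 N, sg (l + i))) := by
      rw [Finset.sum_mul_sum]
      simp only [Finset.mul_sum]
    rw [e3]
    simp only [Finset.sum_const, Nat.card_Icc, Nat.add_sub_cancel, nsmul_eq_mul]
    ring
  have c0 : ∀ k : ℤ, Tendsto (fun N : ℕ => (N : ℂ)⁻¹ * ∑ j ∈ Finset.Icc 1 N, sg (k + j)) atTop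
      (𝓝 0) := by
    intro k
    have h1 := (ces (ζ := -1) (by simp)).const_mul (sg k)
    rw [if_neg (by norm_num), mul_zero] at h1
    refine h1.congr fun N => ?_
    rw [← mul_assoc, mul_comm (sg k), mul_assoc, Finset.mul_sum]
    congr 1
    refine Finset.sum_congr rfl fun j _ => ?_
    rw [sg_add]
    simp [sg]
  have c1 : Tendsto (fun N : ℕ => (N : ℂ)⁻¹ * ((N : ℂ)⁻¹ * ∑ j ∈ Finset.Icc 1 N,
      ∑ i ∈ Finset.Icc 1 N, sg (k + j) * sg (l + i) *
      (∫ z, (φ z : ℂ) * (cc M (k + j) (-(l + i)) z * cc M (k - j) (-(l - i)) z +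
      cc M (k + j) (-(l - i)) z * cc M (k - j) (-(l + i)) z)))) atTop (𝓝 0) := by
    have hb : Tendsto (fun N : ℕ => ((N : ℝ) ^ 2)⁻¹ *
      (∑ j ∈ Finset.Icc 1 N, ∑ k ∈ Finset.Icc 1 N, ∫ z, φ z * ss M j k z) +
      (N : ℝ)⁻¹ * (2 * (|((k - l : ℤ) : ℝ)| * A))) atTop (𝓝 0) := by
      have := hpar.add ((tendsto_inv_atTop_nhds_zero_nat (𝕜 := ℝ)).mul_const
        (2 * (|((k - l : ℤ) : ℝ)| * A)))
      simpa using this
    refine squeeze_zero_norm' ?_ hb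
    filter_upwards [eventually_gt_atTop 0] with N hN
    have hN0 : (0 : ℝ) < N := by exact_mod_cast hN
    rw [norm_mul, norm_mul, norm_inv, Complex.norm_natCast, ← mul_assoc]
    have := GRcross hml hφ hφ0 hA N k l
    have e : (N : ℝ)⁻¹ * (N : ℝ)⁻¹ = ((N : ℝ) ^ 2)⁻¹ := by rw [sq, mul_inv]
    rw [e]
    refine (mul_le_mul_of_nonneg_left this (by positivity)).trans (le_of_eq ?_)
    field_simp
  have c2 : Tendsto (fun N : ℕ => (N : ℂ)⁻¹ * ((N : ℂ)⁻¹ * ((N : ℂ) * (N : ℂ) * (2 / 3)))) atTop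
      (𝓝 (2 / 3)) := by
    refine tendsto_const_nhds.congr' ?_
    filter_upwards [eventually_gt_atTop 0] with N hN
    have hN0 : (N : ℂ) ≠ 0 := by exact_mod_cast hN.ne'
    field_simp
  have c3 := c1.add ((c2.add (((c0 k).mul (c0 l)).const_mul (1 / 3))).mul_const (x (2 * (k - l))))
  simp only [mul_zero, add_zero, zero_add] at c3
  exact c3.congr fun N => (e1 N).symm

/-- **The norm inequality.** -/
theorem AG.normin (H : AG B a h w M) (hB : IsOpen B) {φ : ℂ → ℝ} (hφ : TF B φ)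
    (hφ0 : ∀ z, 0 ≤ φ z) {A : ℝ}
    (hA : ∀ K, fK M φ K ≤ A) (hpar : Tendsto (fun N : ℕ => ((N : ℝ) ^ 2)⁻¹ *
      (∑ j ∈ Finset.Icc 1 N, ∑ k ∈ Finset.Icc 1 N, ∫ z, φ z * ss M j k z)) atTop (𝓝 0))
    {U : Ultrafilter ℕ} (hU : (U : Filter ℕ) ≤ atTop) {x : ℤ → ℂ}
    (hx : ∀ i j k l, Tendsto (fun n => ∫ z, (φ z : ℂ) * F4 w i j k l n z) U
      (𝓝 ((∫ z, (φ z : ℂ) * GG' M i j k l z) + ep2 i j k l * x (i + j + k + l))))
    {ι : Type*} (s : Finset ι) (c : ι → ℂ) (m : ι → ℤ) (C : ℝ)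
    (hC : ∀ ζ : ℂ, ‖ζ‖ = 1 → ‖∑ i ∈ s, c i * ζ ^ (m i)‖ ≤ C) :
    ‖∑ i ∈ s, c i * x (2 * m i)‖ ≤ C * (x 0).re := by
  -- finite N and L
  have step1 : ∀ N : ℕ, 0 < N → ∀ L : ℕ, ‖∑ i ∈ s, c i * ∑ k ∈ Finset.range L,
      ∑ l ∈ Finset.range L, (if (k : ℤ) - l = m i then GR M φ x N k l else 0)‖ ≤
      C * ∑ k ∈ Finset.range L, (GR M φ x N k k).re := by
    intro N hN L
    have g := fun k l : ℤ => H.gram hB hφ hU hx hN k l
    have t1 : Tendsto (fun n => ‖∑ i ∈ s, c i * ∑ k ∈ Finset.range L,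
      ∑ l ∈ Finset.range L, (if (k : ℤ) - l = m i then gr w M φ N k l n else 0)‖) U
      (𝓝 ‖∑ i ∈ s, c i * ∑ k ∈ Finset.range L,
      ∑ l ∈ Finset.range L, (if (k : ℤ) - l = m i then GR M φ x N k l else 0)‖) := by
      refine Tendsto.norm (tendsto_finsetSum _ fun i _ => Tendsto.const_mul _
        (tendsto_finsetSum _ fun k _ => tendsto_finsetSum _ fun l _ => ?_))
      split_ifs
      · exact g _ _
      · exact tendsto_const_nhds
    have t2 : Tendsto (fun n => C * ∑ k ∈ Finset.range L, (gr w M φ N k k n).re) U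
      (𝓝 (C * ∑ k ∈ Finset.range L, (GR M φ x N k k).re)) := by
      refine Tendsto.const_mul _ (tendsto_finsetSum _ fun k _ => ?_)
      exact (Complex.continuous_re.tendsto _).comp (g _ _)
    refine le_of_tendsto_of_tendsto' t1 t2 fun n => ?_
    -- the pointwise inequality
    obtain ⟨R, hR⟩ : ∃ R : ℕ → ℂ → ℂ, ∀ k z, R k z = Sg w N k n z - MZ M (2 * k) z :=
      ⟨_, fun _ _ => rfl⟩
    have mR : ∀ k, ML B (R k) := fun k => by
      have : R k = fun z => Sg w N k n z - MZ M (2 * k) z := funext fun z => hR k z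
      rw [this]; exact (H.mlS N k n).sub (ML.MZ H.ml _)
    have iR : ∀ k l, Integrable (fun z => (φ z : ℂ) * (R k z * (starRingEnd ℂ) (R l z))) :=
      fun k l => TF.intK hφ ((mR k).mulint (mR l).conj hφ.2.1 hφ.2.2)
    have e1 : ∀ k l : ℕ, gr w M φ N k l n = ∫ z, (φ z : ℂ) * (R k z * (starRingEnd ℂ) (R l z)) := by
      intro k l
      unfold gr
      congr 1; funext z; rw [hR, hR]
    have e2 : ∀ k : ℕ, (gr w M φ N k k n).re = ∫ z, φ z * ‖R k z‖ ^ 2 := by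
      intro k
      have e3 : ∫ z, (φ z : ℂ) * (R k z * (starRingEnd ℂ) (R k z)) =
          ((∫ z, φ z * ‖R k z‖ ^ 2 : ℝ) : ℂ) := by
        rw [← integral_complex_ofReal]
        congr 1; funext z
        rw [Complex.mul_conj, Complex.normSq_eq_norm_sq]; push_cast; ring
      rw [e1, e3, ofReal_re]
    have iq : ∀ (i : ι) (k l : ℕ), Integrable (fun z => (φ z : ℂ) *
        (if (k : ℤ) - l = m i then R k z * (starRingEnd ℂ) (R l z) else 0)) := by
      intro i k l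
      by_cases hkl : (k : ℤ) - l = m i
      · simp only [if_pos hkl]; exact iR k l
      · simp only [if_neg hkl, mul_zero]; exact integrable_zero _ _ _
    have e4 : ∑ i ∈ s, c i * ∑ k ∈ Finset.range L,
      ∑ l ∈ Finset.range L, (if (k : ℤ) - l = m i then gr w M φ N k l n else 0) =
      ∫ z, (φ z : ℂ) * (∑ i ∈ s, c i * ∑ k ∈ Finset.range L, ∑ l ∈ Finset.range L,
      (if (k : ℤ) - l = m i then R k z * (starRingEnd ℂ) (R l z) else 0)) := by
      have e5 : ∀ z, (φ z : ℂ) * (∑ i ∈ s, c i * ∑ k ∈ Finset.range L, ∑ l ∈ Finset.range L,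
        (if (k : ℤ) - l = m i then R k z * (starRingEnd ℂ) (R l z) else 0)) =
        ∑ i ∈ s, ∑ k ∈ Finset.range L, ∑ l ∈ Finset.range L, c i * ((φ z : ℂ) *
        (if (k : ℤ) - l = m i then R k z * (starRingEnd ℂ) (R l z) else 0)) := by
        intro z
        simp only [Finset.mul_sum]
        refine Finset.sum_congr rfl fun i _ => Finset.sum_congr rfl fun k _ =>
          Finset.sum_congr rfl fun l _ => ?_
        ring
      simp only [e5]
      rw [integral_finsetSum _ fun i _ => integrable_finsetSum _ fun k _ =>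
        integrable_finsetSum _ fun l _ => (iq i k l).const_mul _]
      refine Finset.sum_congr rfl fun i _ => ?_
      rw [integral_finsetSum _ fun k _ =>
        integrable_finsetSum _ fun l _ => (iq i k l).const_mul _, Finset.mul_sum]
      refine Finset.sum_congr rfl fun k _ => ?_
      rw [integral_finsetSum _ fun l _ => (iq i k l).const_mul _, Finset.mul_sum]
      refine Finset.sum_congr rfl fun l _ => ?_
      rw [integral_const_mul]
      congr 1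
      split_ifs with hkl
      · exact e1 k l
      · simp
    have iS : ∀ k, Integrable (fun z => φ z * ‖R k z‖ ^ 2) := fun k => (mR k).n2 hφ
    rw [e4]
    simp only [e2]
    rw [← integral_finsetSum _ fun k _ => iS k, ← integral_const_mul]
    refine norm_integral_le_of_norm_le ((integrable_finsetSum _ fun k _ => iS k).const_mul C)
      (ae_of_all _ fun z => ?_)
    rw [norm_mul, norm_real, Real.norm_eq_abs, abs_of_nonneg (hφ0 z)]
    have h5 := toep0 s c m C hC L (fun k => R k z)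
    refine (mul_le_mul_of_nonneg_left h5 (hφ0 z)).trans (le_of_eq ?_)
    simp only [← Finset.mul_sum]
    ring
  -- the limit in N
  have step2 : ∀ L : ℕ, ‖∑ i ∈ s, c i * (((∑ k ∈ Finset.range L,
      ∑ l ∈ Finset.range L, (if (k : ℤ) - l = m i then (1 : ℝ) else 0) : ℝ) : ℂ) *
      (2 / 3 * x (2 * m i)))‖ ≤ C * (L * (2 / 3 * (x 0).re)) := by
    intro L
    have gl := fun k l : ℤ => GR_lim H.ml hφ hφ0 hA hpar x k l
    have t1 : Tendsto (fun N => ‖∑ i ∈ s, c i * ∑ k ∈ Finset.range L,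
      ∑ l ∈ Finset.range L, (if (k : ℤ) - l = m i then GR M φ x N k l else 0)‖) atTop
      (𝓝 ‖∑ i ∈ s, c i * ∑ k ∈ Finset.range L, ∑ l ∈ Finset.range L,
        (if (k : ℤ) - l = m i then 2 / 3 * x (2 * ((k : ℤ) - l)) else 0)‖) := by
      refine Tendsto.norm (tendsto_finsetSum _ fun i _ => Tendsto.const_mul _
        (tendsto_finsetSum _ fun k _ => tendsto_finsetSum _ fun l _ => ?_))
      split_ifs
      · exact gl _ _
      · exact tendsto_const_nhds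
    have t2 : Tendsto (fun N => C * ∑ k ∈ Finset.range L, (GR M φ x N k k).re) atTop
      (𝓝 (C * ∑ k ∈ Finset.range L, (2 / 3 * x (2 * ((k : ℤ) - k))).re)) := by
      refine Tendsto.const_mul _ (tendsto_finsetSum _ fun k _ => ?_)
      exact (Complex.continuous_re.tendsto _).comp (gl _ _)
    have t3 := le_of_tendsto_of_tendsto t1 t2 (by
      filter_upwards [eventually_gt_atTop 0] with N hN
      exact step1 N hN L)
    refine (le_of_eq ?_).trans (t3.trans (le_of_eq ?_))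
    · congr 1
      refine Finset.sum_congr rfl fun i _ => ?_
      congr 1
      push_cast
      simp only [Finset.sum_mul]
      refine Finset.sum_congr rfl fun k _ => Finset.sum_congr rfl fun l _ => ?_
      split_ifs with hkl
      · rw [hkl]; push_cast; ring
      · simp
    · congr 1
      simp only [sub_self, mul_zero, Finset.sum_const, Finset.card_range, nsmul_eq_mul]
      congr 1
      have : (2 / 3 : ℂ) = ((2 / 3 : ℝ) : ℂ) := by push_cast; rfl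
      rw [this, re_ofReal_mul]
  -- the limit in L
  have t1 : Tendsto (fun L : ℕ => ‖∑ i ∈ s, c i * ((((L : ℝ)⁻¹ * ∑ k ∈ Finset.range L,
      ∑ l ∈ Finset.range L, (if (k : ℤ) - l = m i then (1 : ℝ) else 0) : ℝ) : ℂ) *
      (2 / 3 * x (2 * m i)))‖) atTop (𝓝 ‖∑ i ∈ s, c i * (((1 : ℝ) : ℂ) * (2 / 3 * x (2 * m i)))‖) := by
    refine Tendsto.norm (tendsto_finsetSum _ fun i _ => Tendsto.const_mul _ (Tendsto.mul_const _ ?_))
    exact (continuous_ofReal.tendsto _).comp (cnt (m i))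
  have t2 : ∀ᶠ L : ℕ in atTop, ‖∑ i ∈ s, c i * ((((L : ℝ)⁻¹ * ∑ k ∈ Finset.range L,
      ∑ l ∈ Finset.range L, (if (k : ℤ) - l = m i then (1 : ℝ) else 0) : ℝ) : ℂ) *
      (2 / 3 * x (2 * m i)))‖ ≤ C * (2 / 3 * (x 0).re) := by
    filter_upwards [eventually_gt_atTop 0] with L hL
    have hL0 : (0 : ℝ) < L := by exact_mod_cast hL
    have h1 := step2 L
    have e1 : ∑ i ∈ s, c i * ((((L : ℝ)⁻¹ * ∑ k ∈ Finset.range L,
      ∑ l ∈ Finset.range L, (if (k : ℤ) - l = m i then (1 : ℝ) else 0) : ℝ) : ℂ) *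
      (2 / 3 * x (2 * m i))) = ((L : ℝ) : ℂ)⁻¹ * ∑ i ∈ s, c i * (((∑ k ∈ Finset.range L,
      ∑ l ∈ Finset.range L, (if (k : ℤ) - l = m i then (1 : ℝ) else 0) : ℝ) : ℂ) *
      (2 / 3 * x (2 * m i))) := by
      rw [Finset.mul_sum]
      refine Finset.sum_congr rfl fun i _ => ?_
      rw [ofReal_mul, ofReal_inv]; ring
    rw [e1, norm_mul, norm_inv, norm_real, Real.norm_eq_abs, abs_of_pos hL0, inv_mul_le_iff₀ hL0]
    refine h1.trans (le_of_eq ?_)
    ring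
  have t3 := le_of_tendsto t1 t2
  have e1 : ∑ i ∈ s, c i * (((1 : ℝ) : ℂ) * (2 / 3 * x (2 * m i))) =
      ((2 / 3 : ℝ) : ℂ) * ∑ i ∈ s, c i * x (2 * m i) := by
    rw [Finset.mul_sum]
    refine Finset.sum_congr rfl fun i _ => ?_
    push_cast; ring
  rw [e1, norm_mul, norm_real, Real.norm_eq_abs, abs_of_pos (by norm_num)] at t3
  nlinarith

end

end Pool.Agent.TH294.RG
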