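import Pool.Agent.TH294.RG.Mom

/-!
Project RG (helper294): quadratic expressions in the derivatives of the eigenfunctions.
-/

set_option autoImplicit false
open MeasureTheory Filter Topology Complex
open scoped ContDiff

namespace Pool.Agent.TH294.RG

open Pool.Agent.W745.RW Pool.Agent.TH294.RS

noncomputable section

variable {B : Set ℂ} {a : ℂ → ℝ} {h : ℕ → ℝ}

/-- the strong form of the ladder relations -/
theorem lad (hB : IsOpen B) (hp : ∀ n, 0 < h n) (hh : Tendsto h atTop (𝓝 0))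
    (ha : ContDiffOn ℝ ∞ a B) (hpa : ∀ z ∈ B, 0 < a z)
    {u : ℕ → ℂ → ℂ} (hu : ∀ n z, (starRingEnd ℂ) (u n z) = u n z) (hb : LB B 4 u)
    (he : ∀ n, ∀ z ∈ B, (h n : ℂ) ^ 2 * ((a z : ℂ) ^ 2 * lap (u n) z) = - u n z) :
    (∀ k, MC B h (ww a h u k)) ∧
    (∀ k, ∃ e, MC B h e ∧ ∀ n, ∀ z ∈ B,
      DP a (h n) (ww a h u k n) z = ww a h u (k + 1) n z + (h n : ℂ) * e n z) ∧
    (∀ k, ∃ e, MC B h e ∧ ∀ n, ∀ z ∈ B,
      DM a (h n) (ww a h u k n) z = - ww a h u (k - 1) n z + (h n : ℂ) * e n z) := by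
  have ha2 : ContDiffOn ℝ ∞ (fun z => ((a z : ℂ) ^ 2)⁻¹) B := by
    refine ContDiffOn.inv ((cxa ha).pow 2) fun z hz => ?_
    have := (hpa z hz).ne'
    exact pow_ne_zero 2 (by exact_mod_cast this)
  have H : MC B h u := fun k => MK.sol hB hp hh hb ha2 (fun n z hz => by
    have h1 := he n z hz
    have h2 : (a z : ℂ) ^ 2 ≠ 0 := pow_ne_zero 2 (by exact_mod_cast (hpa z hz).ne')
    have h3 : hL h u n z = ((a z : ℂ) ^ 2)⁻¹ * ((h n : ℂ) ^ 2 * ((a z : ℂ) ^ 2 * lap (u n) z)) := by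
      have h4 : ((a z : ℂ) ^ 2)⁻¹ * (a z : ℂ) ^ 2 = 1 := inv_mul_cancel₀ h2
      simp only [hL]
      linear_combination (-((h n : ℂ) ^ 2 * lap (u n) z)) * h4
    rw [h3, h1]; ring) k
  have hzero : MC B h (fun (_ : ℕ) (_ : ℂ) => (0 : ℂ)) := fun k =>
    ((H k).cmul hB hh 0).congr hB fun n z _ => by simp
  have cjw : ∀ (k : ℕ) (c : ℂ), MC B h (fun n z => c * (starRingEnd ℂ) (RS.wn a h u k n z)) :=
    fun k c => ((H.wn hB hh ha k).conj hB).cmul hB hh c
  have bd : ∀ k : ℤ, MC B h (ww a h u k) := by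
    intro k
    rcases Int.eq_nat_or_neg k with ⟨m, rfl | rfl⟩
    · exact H.wn hB hh ha m
    · exact fun k => MK.congr hB ((cjw m ((-1) ^ m)) k) fun n z _ => ww_neg hu m n z
  refine ⟨bd, ?_, ?_⟩
  · -- raising
    intro k
    rcases Int.eq_nat_or_neg k with ⟨m, rfl | rfl⟩
    · refine ⟨_, hzero, fun n z hz => ?_⟩
      have e1 : ((m : ℤ) + 1) = ((m + 1 : ℕ) : ℤ) := by push_cast; rfl
      rw [e1, ww_nat, ww_nat, wn_succ]
      simp
    · cases m with
      | zero =>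
        refine ⟨_, hzero, fun n z hz => ?_⟩
        have e1 : (-((0 : ℕ) : ℤ) + 1) = ((1 : ℕ) : ℤ) := by simp
        have e2 : (-((0 : ℕ) : ℤ)) = ((0 : ℕ) : ℤ) := by simp
        rw [e1, e2, ww_nat, ww_nat, wn_succ]
        simp
      | succ m =>
        obtain ⟨E, hE, hE'⟩ := errs hB hh ha H he m
        refine ⟨fun n z => (-1) ^ (m + 1) * (starRingEnd ℂ) (E n z),
          (hE.conj hB).cmul hB hh _, fun n z hz => ?_⟩
        have e1 : (-((m + 1 : ℕ) : ℤ) + 1) = -(m : ℤ) := by push_cast; ring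
        rw [e1, ww_neg hu]
        have e2 : ww a h u (-((m + 1 : ℕ) : ℤ)) n =
            fun z => (-1) ^ (m + 1) * (starRingEnd ℂ) (RS.wn a h u (m + 1) n z) := by
          funext z; exact ww_neg hu (m + 1) n z
        have d := fda hB ((H.wn hB hh ha (m + 1)).sm n) hz
        rw [e2, DP_cm (h n) (conj_da d), DP_conj (h n) d, hE' n z hz, map_add, map_neg, map_mul,
          conj_ofReal]
        ring
  · -- lowering
    intro k
    rcases Int.eq_nat_or_neg k with ⟨m, rfl | rfl⟩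
    · cases m with
      | zero =>
        refine ⟨_, hzero, fun n z hz => ?_⟩
        have e1 : (((0 : ℕ) : ℤ) - 1) = -((1 : ℕ) : ℤ) := by simp
        rw [e1, ww_neg hu, ww_nat, wn_succ]
        have e2 : RS.wn a h u 0 n = u n := rfl
        have d := fda hB (H.sm n) hz
        have e3 : u n = fun w => (starRingEnd ℂ) (u n w) := by
          funext w; exact (hu n w).symm
        have e4 : DM a (h n) (u n) z = (starRingEnd ℂ) (DP a (h n) (u n) z) := by
          conv_lhs => rw [e3]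
          exact DM_conj (h n) d
        rw [e2, e4]
        ring
      | succ m =>
        obtain ⟨E, hE, hE'⟩ := errs hB hh ha H he m
        refine ⟨E, hE, fun n z hz => ?_⟩
        have e1 : (((m + 1 : ℕ) : ℤ) - 1) = ((m : ℕ) : ℤ) := by push_cast; ring
        rw [e1, ww_nat, ww_nat]
        exact hE' n z hz
    · refine ⟨_, hzero, fun n z hz => ?_⟩
      have e1 : (-(m : ℤ) - 1) = -((m + 1 : ℕ) : ℤ) := by push_cast; ring
      rw [e1, ww_neg hu, wn_succ]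
      have e2 : ww a h u (-(m : ℤ)) n =
          fun z => (-1) ^ m * (starRingEnd ℂ) (RS.wn a h u m n z) := by
        funext z; exact ww_neg hu m n z
      have d := fda hB ((H.wn hB hh ha m).sm n) hz
      rw [e2, DM_cm (h n) (conj_da d), DM_conj (h n) d, pow_succ]
      ring

/-- sums of products of sequences with bounded semiclassical derivatives -/
inductive QD (B : Set ℂ) (h : ℕ → ℝ) : (ℕ → ℂ → ℂ) → Prop
  | mul {f g : ℕ → ℂ → ℂ} (hf : MC B h f) (hg : MC B h g) : QD B h (fun n z => f n z * g n z)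
  | add {f g : ℕ → ℂ → ℂ} (hf : QD B h f) (hg : QD B h g) : QD B h (fun n z => f n z + g n z)
  | cg {f g : ℕ → ℂ → ℂ} (hf : QD B h f) (e : ∀ n, ∀ z ∈ B, g n z = f n z) : QD B h g

lemma mclb {f : ℕ → ℂ → ℂ} (hf : MC B h f) : LB B 4 f := (hf 0).lb

lemma QD.lb {f : ℕ → ℂ → ℂ} (hf : QD B h f) : LB B 2 f := by
  induction hf with
  | mul hf hg => exact (mclb hf).mul4 (mclb hg)
  | add _ _ ih1 ih2 => exact ih1.add ih2
  | cg _ e ih => exact ih.congr e

lemma QD.smulc (hB : IsOpen B) (hh : Tendsto h atTop (𝓝 0)) {f : ℕ → ℂ → ℂ} (hf : QD B h f)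
    {c : ℂ → ℂ} (hc : ContDiffOn ℝ ∞ c B) : QD B h (fun n z => c z * f n z) := by
  induction hf with
  | mul hf hg => exact (QD.mul (hf.smulc hB hh hc) hg).cg fun n z _ => by ring
  | add _ _ ih1 ih2 => exact (ih1.add ih2).cg fun n z _ => by ring
  | cg _ e ih => exact ih.cg fun n z hz => by rw [e n z hz]

lemma QD.cmul (hB : IsOpen B) (hh : Tendsto h atTop (𝓝 0)) {f : ℕ → ℂ → ℂ} (hf : QD B h f)
    (c : ℂ) : QD B h (fun n z => c * f n z) :=
  hf.smulc hB hh (c := fun _ => c) contDiffOn_const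

lemma QD.hmul (hB : IsOpen B) (hh : Tendsto h atTop (𝓝 0)) {f : ℕ → ℂ → ℂ} (hf : QD B h f) :
    QD B h (fun n z => (h n : ℂ) * f n z) := by
  induction hf with
  | mul hf hg => exact (QD.mul (fun k => (hf k).hmul hB hh) hg).cg fun n z _ => by ring
  | add _ _ ih1 ih2 => exact (ih1.add ih2).cg fun n z _ => by ring
  | cg _ e ih => exact ih.cg fun n z hz => by rw [e n z hz]

lemma QD.sub (hB : IsOpen B) (hh : Tendsto h atTop (𝓝 0)) {f g : ℕ → ℂ → ℂ} (hf : QD B h f)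
    (hg : QD B h g) : QD B h (fun n z => f n z - g n z) :=
  (hf.add (hg.cmul hB hh (-1))).cg fun n z _ => by ring

lemma dd_add {f g : ℂ → ℂ} {z : ℂ} (hf : DifferentiableAt ℝ f z) (hg : DifferentiableAt ℝ g z) :
    dd (fun z => f z + g z) z = dd f z + dd g z := by
  simp only [dd, dx, dy, fderiv_fun_add hf hg, add_apply]; ring
lemma db_add {f g : ℂ → ℂ} {z : ℂ} (hf : DifferentiableAt ℝ f z) (hg : DifferentiableAt ℝ g z) :
    db (fun z => f z + g z) z = db f z + db g z := by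
  simp only [db, dx, dy, fderiv_fun_add hf hg, add_apply]; ring

lemma QD.sP (hB : IsOpen B) (hh : Tendsto h atTop (𝓝 0)) (ha : ContDiffOn ℝ ∞ a B)
    {f : ℕ → ℂ → ℂ} (hf : QD B h f) : QD B h (RS.sP a h f) := by
  induction hf with
  | mul hf hg =>
    refine ((QD.mul (hf.sP hB hh ha) hg).add (QD.mul hf (hg.sP hB hh ha))).cg fun n z hz => ?_
    simp only [RS.sP, DP]
    rw [dd_mul (fda hB ((mclb hf).sm n) hz) (fda hB ((mclb hg).sm n) hz)]
    ring
  | add hf hg ih1 ih2 =>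
    refine (ih1.add ih2).cg fun n z hz => ?_
    simp only [RS.sP, DP]
    rw [dd_add (fda hB (hf.lb.sm n) hz) (fda hB (hg.lb.sm n) hz)]
    ring
  | cg _ e ih =>
    refine ih.cg fun n z hz => ?_
    simp only [RS.sP]
    exact DP_cg hB (h n) (e n) hz

lemma DM_cg (hB : IsOpen B) (t : ℝ) {f g : ℂ → ℂ} (e : ∀ z ∈ B, f z = g z) {z : ℂ} (hz : z ∈ B) :
    DM a t f z = DM a t g z := by
  simp only [DM]; rw [db_cg hB e hz]

lemma QD.sM (hB : IsOpen B) (hh : Tendsto h atTop (𝓝 0)) (ha : ContDiffOn ℝ ∞ a B)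
    {f : ℕ → ℂ → ℂ} (hf : QD B h f) : QD B h (RS.sM a h f) := by
  induction hf with
  | mul hf hg =>
    refine ((QD.mul (hf.sM hB hh ha) hg).add (QD.mul hf (hg.sM hB hh ha))).cg fun n z hz => ?_
    simp only [RS.sM, DM]
    rw [db_mul (fda hB ((mclb hf).sm n) hz) (fda hB ((mclb hg).sm n) hz)]
    ring
  | add hf hg ih1 ih2 =>
    refine (ih1.add ih2).cg fun n z hz => ?_
    simp only [RS.sM, DM]
    rw [db_add (fda hB (hf.lb.sm n) hz) (fda hB (hg.lb.sm n) hz)]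
    ring
  | cg _ e ih =>
    refine ih.cg fun n z hz => ?_
    simp only [RS.sM]
    exact DM_cg hB (h n) (e n) hz

/-- `-h² a² Δ` -/
def sL (a : ℂ → ℝ) (h : ℕ → ℝ) (f : ℕ → ℂ → ℂ) (n : ℕ) (z : ℂ) : ℂ :=
  -((h n : ℂ) ^ 2 * ((a z : ℂ) ^ 2 * lap (f n) z))

lemma sL_eq (hB : IsOpen B) (ha : ContDiffOn ℝ ∞ a B) {f : ℕ → ℂ → ℂ}
    (hf : ∀ n, ContDiffOn ℝ ∞ (f n) B) (n : ℕ) {z : ℂ} (hz : z ∈ B) :
    sL a h f n z = - RS.sM a h (RS.sP a h f) n z + (h n : ℂ) * (ab a z * RS.sP a h f n z) := by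
  have := MP hB ha (h n) (hf n) hz
  have e : RS.sM a h (RS.sP a h f) n z = DM a (h n) (DP a (h n) (f n)) z := rfl
  rw [e, this]
  simp only [sL, RS.sP]
  ring

lemma QD.sL (hB : IsOpen B) (hh : Tendsto h atTop (𝓝 0)) (ha : ContDiffOn ℝ ∞ a B)
    {f : ℕ → ℂ → ℂ} (hf : QD B h f) : QD B h (RG.sL a h f) := by
  refine (((((hf.sP hB hh ha).sM hB hh ha).cmul hB hh (-1))).add
    (((hf.sP hB hh ha).smulc hB hh (ab_sm hB ha)).hmul hB hh)).cg fun n z hz => ?_
  rw [sL_eq hB ha hf.lb.sm n hz]; ring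

lemma lap_cg (hB : IsOpen B) {f g : ℂ → ℂ} (e : ∀ z ∈ B, f z = g z) {z : ℂ} (hz : z ∈ B) :
    lap f z = lap g z := by
  have e0 : ∀ f : ℂ → ℂ, lap f z = fderiv ℝ (fun w => fderiv ℝ f w 1) z 1 +
    fderiv ℝ (fun w => fderiv ℝ f w I) z I := fun f => rfl
  have e1 : ∀ v, ∀ w ∈ B, fderiv ℝ f w v = fderiv ℝ g w v := fun v w hw => fd_cg hB e hw v
  rw [e0, e0, fd_cg hB (e1 1) hz, fd_cg hB (e1 I) hz]

lemma lap_lin (hB : IsOpen B) {f g : ℂ → ℂ} (hf : ContDiffOn ℝ ∞ f B) (hg : ContDiffOn ℝ ∞ g B)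
    (c d : ℂ) {z : ℂ} (hz : z ∈ B) :
    lap (fun w => c * f w + d * g w) z = c * lap f z + d * lap g z := by
  have e0 : ∀ f : ℂ → ℂ, lap f z = fderiv ℝ (fun w => fderiv ℝ f w 1) z 1 +
    fderiv ℝ (fun w => fderiv ℝ f w I) z I := fun f => rfl
  have e1 : ∀ {f g : ℂ → ℂ}, ContDiffOn ℝ ∞ f B → ContDiffOn ℝ ∞ g B → ∀ v, ∀ w ∈ B,
      fderiv ℝ (fun w => c * f w + d * g w) w v = c * fderiv ℝ f w v + d * fderiv ℝ g w v := by
    intro f g hf hg v w hw
    rw [fderiv_fun_add ((fda hB hf hw).const_mul c) ((fda hB hg hw).const_mul d)]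
    simp only [add_apply]
    rw [fd_cm (fda hB hf hw), fd_cm (fda hB hg hw)]
  rw [e0, e0, e0, fd_cg hB (e1 hf hg 1) hz, fd_cg hB (e1 hf hg I) hz,
    e1 (cfd hB hf 1) (cfd hB hg 1) 1 z hz, e1 (cfd hB hf I) (cfd hB hg I) I z hz]
  ring

lemma sL_cg (hB : IsOpen B) {f g : ℕ → ℂ → ℂ} (e : ∀ n, ∀ z ∈ B, f n z = g n z) (n : ℕ) {z : ℂ}
    (hz : z ∈ B) : sL a h f n z = sL a h g n z := by
  simp only [sL]; rw [lap_cg hB (e n) hz]

/-- the functions `v m = (-1)^m w_m w_{-m}` -/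
def vv (w : ℤ → ℕ → ℂ → ℂ) (m : ℤ) (n : ℕ) (z : ℂ) : ℂ :=
  (-1) ^ m.natAbs * (w m n z * w (-m) n z)

lemma vv_neg (w : ℤ → ℕ → ℂ → ℂ) (m : ℤ) (n : ℕ) (z : ℂ) : vv w (-m) n z = vv w m n z := by
  simp only [vv, Int.natAbs_neg, neg_neg]; ring

/-- `-h² a² Δ` of a product of two elements of the ladder -/
lemma sL_prod (hB : IsOpen B) (hh : Tendsto h atTop (𝓝 0)) (ha : ContDiffOn ℝ ∞ a B)
    {w : ℤ → ℕ → ℂ → ℂ} (mc : ∀ k, MC B h (w k))
    (up : ∀ k, ∃ e, MC B h e ∧ ∀ n, ∀ z ∈ B,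
      DP a (h n) (w k n) z = w (k + 1) n z + (h n : ℂ) * e n z)
    (dn : ∀ k, ∃ e, MC B h e ∧ ∀ n, ∀ z ∈ B,
      DM a (h n) (w k n) z = - w (k - 1) n z + (h n : ℂ) * e n z) (i j : ℤ) :
    ∃ Q, QD B h Q ∧ ∀ n, ∀ z ∈ B, sL a h (fun n z => w i n z * w j n z) n z =
      2 * (w i n z * w j n z) + w (i + 1) n z * w (j - 1) n z + w (i - 1) n z * w (j + 1) n z +
      (h n : ℂ) * Q n z := by
  obtain ⟨e1, he1, g1⟩ := up i
  obtain ⟨e2, he2, g2⟩ := up j
  obtain ⟨f1, hf1, k1⟩ := dn (i + 1)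
  obtain ⟨f2, hf2, k2⟩ := dn j
  obtain ⟨f3, hf3, k3⟩ := dn i
  obtain ⟨f4, hf4, k4⟩ := dn (j + 1)
  have q0 : QD B h (fun n z => w i n z * w j n z) := QD.mul (mc i) (mc j)
  have q1 : QD B h (fun n z => e1 n z * w j n z + w i n z * e2 n z) :=
    (QD.mul he1 (mc j)).add (QD.mul (mc i) he2)
  have q2 : QD B h (fun n z => (f1 n z * w j n z + w (i + 1) n z * f2 n z) +
      (f3 n z * w (j + 1) n z + w i n z * f4 n z)) :=
    ((QD.mul hf1 (mc j)).add (QD.mul (mc _) hf2)).add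
      ((QD.mul hf3 (mc _)).add (QD.mul (mc _) hf4))
  have q3 : QD B h (fun n z => ab a z * RS.sP a h (fun n z => w i n z * w j n z) n z) :=
    (q0.sP hB hh ha).smulc hB hh (ab_sm hB ha)
  have q4 := q1.sM hB hh ha
  refine ⟨_, (q3.sub hB hh q2).sub hB hh q4, fun n z hz => ?_⟩
  have sw : ∀ k, ContDiffOn ℝ ∞ (w k n) B := fun k => (mclb (mc k)).sm n
  rw [sL_eq hB ha q0.lb.sm n hz]
  -- `DP` of the product
  have eP : ∀ z ∈ B, RS.sP a h (fun n z => w i n z * w j n z) n z =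
      (w (i + 1) n z * w j n z + w i n z * w (j + 1) n z) +
      (h n : ℂ) * (e1 n z * w j n z + w i n z * e2 n z) := by
    intro z hz
    have c1 := g1 n z hz
    have c2 := g2 n z hz
    simp only [RS.sP, DP] at c1 c2 ⊢
    rw [dd_mul (fda hB (sw i) hz) (fda hB (sw j) hz)]
    linear_combination (w j n z) * c1 + (w i n z) * c2
  have eM : RS.sM a h (RS.sP a h (fun n z => w i n z * w j n z)) n z =
      DM a (h n) (fun z => (w (i + 1) n z * w j n z + w i n z * w (j + 1) n z) +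
      (h n : ℂ) * (e1 n z * w j n z + w i n z * e2 n z)) z := DM_cg hB (h n) eP hz
  have s1 := fda hB ((sw (i + 1)).mul (sw j)) hz
  have s2 := fda hB ((sw i).mul (sw (j + 1))) hz
  have s3 := fda hB (q1.lb.sm n) hz
  have eM2 : DM a (h n) (fun z => (w (i + 1) n z * w j n z + w i n z * w (j + 1) n z) +
      (h n : ℂ) * (e1 n z * w j n z + w i n z * e2 n z)) z =
      DM a (h n) (fun z => w (i + 1) n z * w j n z) z +
      DM a (h n) (fun z => w i n z * w (j + 1) n z) z +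
      (h n : ℂ) * RS.sM a h (fun n z => e1 n z * w j n z + w i n z * e2 n z) n z := by
    simp only [DM, RS.sM]
    rw [db_add (f := fun z => w (i + 1) n z * w j n z + w i n z * w (j + 1) n z)
      (g := fun z => (h n : ℂ) * (e1 n z * w j n z + w i n z * e2 n z)) (s1.add s2)
      (s3.const_mul _), db_add s1 s2, db_cm s3]
    ring
  have m1 : DM a (h n) (fun z => w (i + 1) n z * w j n z) z =
      -(w i n z * w j n z) - w (i + 1) n z * w (j - 1) n z +
      (h n : ℂ) * (f1 n z * w j n z + w (i + 1) n z * f2 n z) := by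
    have c1 := k1 n z hz
    have c2 := k2 n z hz
    rw [add_sub_cancel_right] at c1
    simp only [DM] at c1 c2 ⊢
    rw [db_mul (fda hB (sw (i + 1)) hz) (fda hB (sw j) hz)]
    linear_combination (w j n z) * c1 + (w (i + 1) n z) * c2
  have m2 : DM a (h n) (fun z => w i n z * w (j + 1) n z) z =
      -(w (i - 1) n z * w (j + 1) n z) - w i n z * w j n z +
      (h n : ℂ) * (f3 n z * w (j + 1) n z + w i n z * f4 n z) := by
    have c1 := k3 n z hz
    have c2 := k4 n z hz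
    rw [add_sub_cancel_right] at c2
    simp only [DM] at c1 c2 ⊢
    rw [db_mul (fda hB (sw i) hz) (fda hB (sw (j + 1)) hz)]
    linear_combination (w (j + 1) n z) * c1 + (w i n z) * c2
  rw [eM, eM2, m1, m2]
  ring

/-- the recursion for the functions `vv` -/
lemma sL_vv (hB : IsOpen B) (hh : Tendsto h atTop (𝓝 0)) (ha : ContDiffOn ℝ ∞ a B)
    {w : ℤ → ℕ → ℂ → ℂ} (mc : ∀ k, MC B h (w k))
    (up : ∀ k, ∃ e, MC B h e ∧ ∀ n, ∀ z ∈ B,
      DP a (h n) (w k n) z = w (k + 1) n z + (h n : ℂ) * e n z)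
    (dn : ∀ k, ∃ e, MC B h e ∧ ∀ n, ∀ z ∈ B,
      DM a (h n) (w k n) z = - w (k - 1) n z + (h n : ℂ) * e n z) (m : ℤ) :
    ∃ Q, QD B h Q ∧ ∀ n, ∀ z ∈ B, sL a h (vv w m) n z =
      2 * vv w m n z - vv w (m + 1) n z - vv w (m - 1) n z + (h n : ℂ) * Q n z := by
  obtain ⟨Q, hQ, hQ'⟩ := sL_prod hB hh ha mc up dn m (-m)
  refine ⟨fun n z => (-1) ^ m.natAbs * Q n z, hQ.cmul hB hh _, fun n z hz => ?_⟩
  have sm : ContDiffOn ℝ ∞ (fun z => w m n z * w (-m) n z) B :=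
    ((mclb (mc m)).sm n).mul ((mclb (mc (-m))).sm n)
  have e1 : sL a h (vv w m) n z = (-1) ^ m.natAbs * sL a h (fun n z => w m n z * w (-m) n z) n z := by
    have e2 : lap (vv w m n) z = lap (fun z => (-1) ^ m.natAbs * (w m n z * w (-m) n z) +
        0 * (w m n z * w (-m) n z)) z := by
      congr 1; funext z; simp only [vv]; ring
    simp only [sL]
    rw [e2, lap_lin hB sm sm _ _ hz]
    ring
  have e3 := sgn_succ m
  have e4 := sgn_succ (m - 1)
  rw [sub_add_cancel] at e4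
  rw [e1, hQ' n z hz]
  simp only [vv]
  rw [e3, show -(m + 1) = -m - 1 by ring, show -(m - 1) = -m + 1 by ring]
  have e5 : (-1 : ℂ) ^ (m - 1).natAbs = - (-1) ^ m.natAbs := by rw [e4]; ring
  rw [e5]
  ring

end

end Pool.Agent.TH294.RG
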