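import Pool.Agent.TH294.RG.Four2

/-!
Project RG (helper294): inequalities relative to the fourth moment; families of fourth order
moments.
-/

set_option autoImplicit false
open MeasureTheory Filter Topology Complex ProbabilityTheory
open scoped ContDiff

namespace Pool.Agent.TH294.RG

open Pool.Agent.W745.RW Pool.Agent.TH294.RS

noncomputable section

variable {m : ℂ → ℝ} {ν : Kernel ℂ ℝ}

/-- from sequences with bounded fourth moments to all sequences, inequalities -/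
theorem relI {Ω : Set ℂ} {a : ℂ → ℝ} {h : ℕ → ℝ} {u : ℕ → ℂ → ℝ} {M : ℕ → ℂ → ℂ}
    (H : RawG Ω a h u M) {K : Set ℂ} (hK : IsCompact K) (hKΩ : K ⊆ Ω)
    (Φ1 : ℝ → (ℂ → ℝ) → ℂ) (Φ2 : ℝ → (ℂ → ℝ) → ℝ) (G1 : ℂ) (G2 : ℝ)
    (hom1 : ∀ (t c : ℝ) (v : ℂ → ℝ), ContDiffOn ℝ ∞ v (interior K) →
      Φ1 t (fun z => c * v z) = (c : ℂ) ^ 4 * Φ1 t v)
    (hom2 : ∀ (t c : ℝ) (v : ℂ → ℝ), ContDiffOn ℝ ∞ v (interior K) →
      Φ2 t (fun z => c * v z) = c ^ 4 * Φ2 t v)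
    (b1 : ∀ (h' : ℕ → ℝ) (u' : ℕ → ℂ → ℝ), RawG (interior K) a h' u' M →
      (∀ K' : Set ℂ, IsCompact K' → K' ⊆ interior K → ∃ C : ℝ, ∀ᶠ n in atTop,
        ∫ z in K', u' n z ^ 4 ≤ C) → ∀ ε : ℝ, 0 < ε → ∀ᶠ n in atTop,
      ‖Φ1 (h' n) (u' n) - G1‖ ≤ Φ2 (h' n) (u' n) - G2 + ε)
    (b0 : ∀ (h' : ℕ → ℝ) (u' : ℕ → ℂ → ℝ), RawG (interior K) a h' u' (fun _ _ => 0) →
      (∀ K' : Set ℂ, IsCompact K' → K' ⊆ interior K → ∃ C : ℝ, ∀ᶠ n in atTop,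
        ∫ z in K', u' n z ^ 4 ≤ C) → ∀ ε : ℝ, 0 < ε → ∀ᶠ n in atTop,
      ‖Φ1 (h' n) (u' n)‖ ≤ Φ2 (h' n) (u' n) + ε) {ε : ℝ} (hε : 0 < ε) :
    ∀ᶠ n in atTop, ‖Φ1 (h n) (u n) - G1‖ ≤ Φ2 (h n) (u n) - G2 + ε * (1 + ∫ z in K, u n z ^ 4) := by
  set B : Set ℂ := interior K with hBdef
  have hB : IsOpen B := isOpen_interior
  have hBK : B ⊆ K := interior_subset
  have hBΩ : B ⊆ Ω := hBK.trans hKΩ
  have cu : ∀ n, ContinuousOn (fun z => u n z ^ 4) K := fun n =>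
    ((H.sm n).continuousOn.mono hKΩ).pow 4
  have T0 : ∀ n, 0 ≤ ∫ z in K, u n z ^ 4 := fun n => integral_nonneg fun z => by positivity
  have sub4 : ∀ n (K' : Set ℂ), K' ⊆ B → ∫ z in K', u n z ^ 4 ≤ ∫ z in K, u n z ^ 4 := by
    intro n K' hK'
    refine setIntegral_mono_set ((cu n).integrableOn_compact hK)
      (ae_of_all _ fun z => by positivity) ?_
    exact (hK'.trans hBK).eventuallyLE
  by_contra hcon
  rw [not_eventually] at hcon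
  obtain ⟨ns, hns, hnsf⟩ := extraction_of_frequently_atTop hcon
  have H1 := H.cmp hBΩ hns.tendsto_atTop
  by_cases hbd : ∃ C : ℝ, ∃ᶠ n in atTop, ∫ z in K, u (ns n) z ^ 4 ≤ C
  · obtain ⟨C, hC⟩ := hbd
    obtain ⟨τ, hτ, hτC⟩ := extraction_of_frequently_atTop hC
    have H2 := H1.cmp (le_refl B) hτ.tendsto_atTop
    have key := b1 _ _ H2 (fun K' _ hKB => ⟨C, Eventually.of_forall fun n =>
      (sub4 _ K' hKB).trans (hτC n)⟩) ε hε
    obtain ⟨n, hn⟩ := key.exists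
    apply hnsf (τ n)
    refine hn.trans ?_
    have := mul_nonneg hε.le (T0 (ns (τ n)))
    linarith
  · push Not at hbd
    obtain ⟨T, hT⟩ : ∃ T : ℕ → ℝ, ∀ n, T n = 1 + ∫ z in K, u (ns n) z ^ 4 := ⟨_, fun _ => rfl⟩
    have T1 : ∀ n, 1 ≤ T n := fun n => by rw [hT]; linarith [T0 (ns n)]
    have Tlim : Tendsto T atTop atTop := by
      rw [tendsto_atTop]
      intro C
      refine (hbd C).mono fun n hn => ?_
      rw [hT]; linarith
    obtain ⟨c, hc⟩ : ∃ c : ℕ → ℝ, ∀ n, c n = (T n) ^ (-(1 / 4 : ℝ)) := ⟨_, fun _ => rfl⟩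
    have c4 : ∀ n, c n ^ 4 = (T n)⁻¹ := by
      intro n
      rw [hc, ← Real.rpow_natCast, ← Real.rpow_mul (by linarith [T1 n])]
      norm_num
      rw [Real.rpow_neg_one]
    have clim : Tendsto c atTop (𝓝 0) := by
      have := (tendsto_rpow_neg_atTop (show (0 : ℝ) < 1 / 4 by norm_num)).comp Tlim
      exact this.congr fun n => (hc n).symm
    have H2 := H1.scale hB clim
    have key := b0 _ _ H2
      (fun K' hK' hKB => ⟨1, Eventually.of_forall fun n => by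
        have e1 : ∀ z, (c n * u (ns n) z) ^ 4 = (T n)⁻¹ * u (ns n) z ^ 4 := by
          intro z; rw [mul_pow, c4]
        simp only [e1]
        rw [integral_const_mul, inv_mul_le_iff₀ (by linarith [T1 n]), mul_one, hT]
        have := sub4 (ns n) K' hKB
        linarith⟩) (ε / 2) (by positivity)
    have hlarge := Tlim.eventually (eventually_ge_atTop (2 / ε * (‖G1‖ + |G2|)))
    obtain ⟨n, hn1, hn2⟩ := (key.and hlarge).exists
    rw [hom1 _ _ _ (H1.sm n), hom2 _ _ _ (H1.sm n)] at hn1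
    apply hnsf n
    rw [← hT]
    have Tn : 0 < T n := by linarith [T1 n]
    have e2 : (c n : ℂ) ^ 4 = (((T n)⁻¹ : ℝ) : ℂ) := by
      rw [← c4 n]; push_cast; rfl
    rw [e2, c4, norm_mul, norm_real, Real.norm_eq_abs, abs_of_pos (inv_pos.2 Tn)] at hn1
    have h5 := mul_le_mul_of_nonneg_left hn1 Tn.le
    have e5 : T n * ((T n)⁻¹ * ‖Φ1 (h (ns n)) (u (ns n))‖) = ‖Φ1 (h (ns n)) (u (ns n))‖ := by
      rw [← mul_assoc, mul_inv_cancel₀ Tn.ne', one_mul]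
    have e6 : T n * ((T n)⁻¹ * Φ2 (h (ns n)) (u (ns n)) + ε / 2) =
      Φ2 (h (ns n)) (u (ns n)) + ε / 2 * T n := by
      field_simp
    rw [e5, e6] at h5
    have h6 := norm_sub_le (Φ1 (h (ns n)) (u (ns n))) G1
    have h7 := le_abs_self G2
    have h8 : ‖G1‖ + |G2| ≤ ε / 2 * T n := by
      have h9 := mul_le_mul_of_nonneg_left hn2 (show 0 ≤ ε / 2 by positivity)
      have e7 : ε / 2 * (2 / ε * (‖G1‖ + |G2|)) = ‖G1‖ + |G2| := by field_simp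
      rw [e7] at h9
      exact h9
    linarith

/-- families of fourth order moments, bounded sequences -/
theorem fam_b [IsMarkovKernel ν] {B : Set ℂ} (hB : IsOpen B)
    (hm : ∀ K : Set ℂ, IsCompact K → K ⊆ B → MemLp m 2 (volume.restrict K))
    (hp : ∀ᵐ z ∂(volume.restrict B), par ea (ν z) = 0) {a : ℂ → ℝ} {h : ℕ → ℝ}
    {w : ℤ → ℕ → ℂ → ℂ} (H : AG B a h w (MM m ea ν)) {φ : ℂ → ℝ} (hφ : TF B φ)
    (hφ0 : ∀ z, 0 ≤ φ z) {ι : Type*} (s : Finset ι) (c : ι → ℂ) (g : ι → ℤ × ℤ × ℤ × ℤ) {C : ℝ}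
    (hC : ∀ ζ : ℂ, ‖ζ‖ = 1 → ‖∑ i ∈ s, c i * (ep2 (g i).1 (g i).2.1 (g i).2.2.1 (g i).2.2.2 *
      ζ ^ ((g i).1 + (g i).2.1 + (g i).2.2.1 + (g i).2.2.2))‖ ≤ C) {ε : ℝ} (hε : 0 < ε) :
    ∀ᶠ n in atTop, ‖(∑ i ∈ s, c i * ∫ z, (φ z : ℂ) *
        F4 w (g i).1 (g i).2.1 (g i).2.2.1 (g i).2.2.2 n z) - ∑ i ∈ s, c i * ∫ z, (φ z : ℂ) *
        GG' (MM m ea ν) (g i).1 (g i).2.1 (g i).2.2.1 (g i).2.2.2 z‖ ≤
      C * ((∫ z, (φ z : ℂ) * F4 w 0 0 0 0 n z).re - 3 * (∫ z, φ z * m z ^ 2)) + ε := by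
  obtain ⟨S, hS⟩ : ∃ S : Set ℕ, S = {n | ¬ ‖(∑ i ∈ s, c i * ∫ z, (φ z : ℂ) *
        F4 w (g i).1 (g i).2.1 (g i).2.2.1 (g i).2.2.2 n z) - ∑ i ∈ s, c i * ∫ z, (φ z : ℂ) *
        GG' (MM m ea ν) (g i).1 (g i).2.1 (g i).2.2.1 (g i).2.2.2 z‖ ≤
      C * ((∫ z, (φ z : ℂ) * F4 w 0 0 0 0 n z).re - 3 * (∫ z, φ z * m z ^ 2)) + ε} := ⟨_, rfl⟩
  by_contra hcon
  rw [not_eventually] at hcon
  have hne : (atTop ⊓ 𝓟 S).NeBot := by
    rw [hS]; exact frequently_mem_iff_neBot.1 hcon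
  obtain ⟨U, hU⟩ : ∃ U : Ultrafilter ℕ, (U : Filter ℕ) ≤ atTop ⊓ 𝓟 S :=
    ⟨Ultrafilter.of _, Ultrafilter.of_le _⟩
  have hU1 : (U : Filter ℕ) ≤ atTop := hU.trans inf_le_left
  have hU2 : (U : Filter ℕ) ≤ 𝓟 S := hU.trans inf_le_right
  obtain ⟨x, hx⟩ := H.U4 hB hφ U hU1
  have key := H.normin hB hφ hφ0 (fun K => fK_MM (ν := ν) hm hφ hφ0 K) (SN0 hB hm hp hφ) hU1 hx s
    (fun i => c i * ep2 (g i).1 (g i).2.1 (g i).2.2.1 (g i).2.2.2)
    (fun i => ((g i).1 + (g i).2.1 + (g i).2.2.1 + (g i).2.2.2) / 2) C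
    (fun ζ hζ => by
      obtain ⟨t, ht⟩ : ∃ t : ℂ, t ^ 2 = ζ := IsAlgClosed.exists_pow_nat_eq ζ (by norm_num : 0 < 2)
      have ht1 : ‖t‖ = 1 := by
        have h1 : ‖t‖ ^ 2 = 1 := by rw [← norm_pow, ht, hζ]
        nlinarith [norm_nonneg t]
      refine le_trans (le_of_eq ?_) (hC t ht1)
      congr 1
      refine Finset.sum_congr rfl fun i _ => ?_
      obtain ⟨a, b, c', d⟩ := g i
      show c i * ep2 a b c' d * ζ ^ ((a + b + c' + d) / 2) =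
        c i * (ep2 a b c' d * t ^ (a + b + c' + d))
      by_cases he : Even (a + b + c' + d)
      · have e1 : t ^ (a + b + c' + d) = ζ ^ ((a + b + c' + d) / 2) := by
          rw [← ht, ← zpow_natCast t 2, ← zpow_mul]
          congr 1
          obtain ⟨r, hr⟩ := he
          push_cast; omega
        rw [e1]; ring
      · unfold ep2
        rw [if_neg he]; ring)
  have e1 : ∑ i ∈ s, (c i * ep2 (g i).1 (g i).2.1 (g i).2.2.1 (g i).2.2.2) *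
      x (2 * (((g i).1 + (g i).2.1 + (g i).2.2.1 + (g i).2.2.2) / 2)) = ∑ i ∈ s, c i *
      (ep2 (g i).1 (g i).2.1 (g i).2.2.1 (g i).2.2.2 *
        x ((g i).1 + (g i).2.1 + (g i).2.2.1 + (g i).2.2.2)) := by
    refine Finset.sum_congr rfl fun i _ => ?_
    obtain ⟨a, b, c', d⟩ := g i
    show (c i * ep2 a b c' d) * x (2 * ((a + b + c' + d) / 2)) =
      c i * (ep2 a b c' d * x (a + b + c' + d))
    by_cases he : Even (a + b + c' + d)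
    · have e1 : 2 * ((a + b + c' + d) / 2) = a + b + c' + d := by
        obtain ⟨r, hr⟩ := he; omega
      rw [e1]; ring
    · unfold ep2
      rw [if_neg he]; ring
  rw [e1] at key
  have t1 : Tendsto (fun n => ‖(∑ i ∈ s, c i * ∫ z, (φ z : ℂ) *
        F4 w (g i).1 (g i).2.1 (g i).2.2.1 (g i).2.2.2 n z) - ∑ i ∈ s, c i * ∫ z, (φ z : ℂ) *
        GG' (MM m ea ν) (g i).1 (g i).2.1 (g i).2.2.1 (g i).2.2.2 z‖) U
      (𝓝 ‖∑ i ∈ s, c i * (ep2 (g i).1 (g i).2.1 (g i).2.2.1 (g i).2.2.2 *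
        x ((g i).1 + (g i).2.1 + (g i).2.2.1 + (g i).2.2.2))‖) := by
    have h1 := ((tendsto_finsetSum s fun i _ => (hx (g i).1 (g i).2.1 (g i).2.2.1
      (g i).2.2.2).const_mul (c i)).sub_const (∑ i ∈ s, c i * ∫ z, (φ z : ℂ) *
        GG' (MM m ea ν) (g i).1 (g i).2.1 (g i).2.2.1 (g i).2.2.2 z)).norm
    have e2 : (∑ i ∈ s, c i * ((∫ z, (φ z : ℂ) * GG' (MM m ea ν) (g i).1 (g i).2.1 (g i).2.2.1
        (g i).2.2.2 z) + ep2 (g i).1 (g i).2.1 (g i).2.2.1 (g i).2.2.2 *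
        x ((g i).1 + (g i).2.1 + (g i).2.2.1 + (g i).2.2.2))) - (∑ i ∈ s, c i * ∫ z, (φ z : ℂ) *
        GG' (MM m ea ν) (g i).1 (g i).2.1 (g i).2.2.1 (g i).2.2.2 z) =
        ∑ i ∈ s, c i * (ep2 (g i).1 (g i).2.1 (g i).2.2.1 (g i).2.2.2 *
        x ((g i).1 + (g i).2.1 + (g i).2.2.1 + (g i).2.2.2)) := by
      rw [← Finset.sum_sub_distrib]
      refine Finset.sum_congr rfl fun i _ => ?_
      ring
    rw [e2] at h1
    exact h1
  have h2 := (Complex.continuous_re.tendsto _).comp (hx 0 0 0 0)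
  have e1 : ∫ z, (φ z : ℂ) * GG' (MM m ea ν) 0 0 0 0 z = ((3 * ∫ z, φ z * m z ^ 2 : ℝ) : ℂ) := by
    rw [← integral_const_mul, ← integral_complex_ofReal]
    congr 1; funext z
    have c0 : cc (MM m ea ν) 0 0 z = (m z : ℂ) := by
      rw [cc_C2]; simp [C2]
    simp only [GG', c0]
    push_cast; ring
  have e2 : ep2 0 0 0 0 = 1 := by simp [ep2, eps]
  simp only [Function.comp_def, e1, e2, one_mul, add_zero, add_re, ofReal_re] at h2
  have h3 : Tendsto (fun n => C * ((∫ z, (φ z : ℂ) * F4 w 0 0 0 0 n z).re -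
      3 * (∫ z, φ z * m z ^ 2)) + ε) U (𝓝 (C * (x 0).re + ε)) := by
    have := ((h2.sub_const (3 * ∫ z, φ z * m z ^ 2)).const_mul C).add_const ε
    simpa using this
  have h4 : ‖∑ i ∈ s, c i * (ep2 (g i).1 (g i).2.1 (g i).2.2.1 (g i).2.2.2 *
        x ((g i).1 + (g i).2.1 + (g i).2.2.1 + (g i).2.2.2))‖ < C * (x 0).re + ε := by linarith
  have h5 := t1.eventually_lt h3 h4
  have h6 : ∀ᶠ n in (U : Filter ℕ), n ∈ S := hU2 (mem_principal_self S)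
  obtain ⟨n, a1, a2⟩ := (h5.and h6).exists
  rw [hS] at a2
  exact a2 a1.le

end

end Pool.Agent.TH294.RG
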