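import Pool.Agent.TH294.RG.Pow

/-!
Project RG (helper294): second moments of quadratic expressions.
-/

set_option autoImplicit false
open MeasureTheory Filter Topology Complex ProbabilityTheory
open scoped ContDiff

namespace Pool.Agent.TH294.RG

open Pool.Agent.W745.RW Pool.Agent.TH294.RS

noncomputable section

variable {B : Set ℂ} {a : ℂ → ℝ} {h : ℕ → ℝ} {w : ℤ → ℕ → ℂ → ℂ} {M : ℕ → ℂ → ℂ}

def ejk (j k : ℕ) : ℝ := 2 / 3 + 1 / 3 * ((-1) ^ j * (-1) ^ k)

lemma ep_ejk (j k : ℕ) : (-1 : ℂ) ^ j * (-1) ^ k * eps (j : ℤ) (-(j : ℤ)) (k : ℤ) (-(k : ℤ)) =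
    ((ejk j k : ℝ) : ℂ) := by
  unfold ejk
  by_cases hjk : Even (j + k)
  · have s1 : (-1 : ℂ) ^ j * (-1) ^ k = 1 := by rw [← pow_add]; exact hjk.neg_one_pow
    have s2 : eps (j : ℤ) (-(j : ℤ)) (k : ℤ) (-(k : ℤ)) = 1 := by
      unfold eps
      rw [if_pos]
      rw [Nat.even_iff] at hjk
      refine ⟨?_, ?_, ?_⟩ <;> omega
    push_cast
    rw [s1, s2]; norm_num
  · have s1 : (-1 : ℂ) ^ j * (-1) ^ k = -1 := by
      rw [← pow_add]; exact (Nat.not_even_iff_odd.1 hjk).neg_one_pow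
    have s2 : eps (j : ℤ) (-(j : ℤ)) (k : ℤ) (-(k : ℤ)) = -(1 / 3) := by
      unfold eps
      rw [if_neg]
      rw [Nat.even_iff] at hjk
      intro hcon
      omega
    push_cast
    rw [s1, s2]; norm_num

/-- the limit density for a pair -/
def pq (M : ℕ → ℂ → ℂ) (j k : ℕ) (z : ℂ) : ℝ := (M 0 z).re * (M 0 z).re + ss M j k z

lemma pq_int (hml : ∀ k, ML B (M k)) {φ : ℂ → ℝ} (hφ : TF B φ) (j k : ℕ) :
    Integrable (fun z => φ z * pq M j k z) := by
  have i0 : Integrable (fun z => φ z * ((M 0 z).re * (M 0 z).re)) :=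
    int2 hφ ((hml 0).rr hφ) ((hml 0).rr hφ)
  have i1 : Integrable (fun z => φ z * (‖M (j + k) z‖ * ‖M (j + k) z‖)) :=
    int2 hφ ((hml _).nn hφ) ((hml _).nn hφ)
  have i2 : Integrable (fun z => φ z * (‖M ((j : ℤ) - k).natAbs z‖ *
      ‖M ((j : ℤ) - k).natAbs z‖)) := int2 hφ ((hml _).nn hφ) ((hml _).nn hφ)
  by_cases hjk : Even (j + k)
  · refine (i0.add (i1.add i2)).congr (ae_of_all _ fun z => ?_)
    simp only [Pi.add_apply, pq, ss, if_pos hjk]; ring
  · refine i0.congr (ae_of_all _ fun z => ?_)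
    simp only [pq, ss, if_neg hjk]; ring

lemma AG.vv4 (H : AG B a h w M) (hB : IsOpen B) {φ : ℂ → ℝ} (hφ : TF B φ) (j k : ℕ) :
    Tendsto (fun n => (∫ z, (φ z : ℂ) * (vv w j n z * vv w k n z)) -
      ((∫ z, φ z * pq M j k z : ℝ) : ℂ) - ((ejk j k : ℝ) : ℂ) *
      ((∫ z, (φ z : ℂ) * F4 w 0 0 0 0 n z) - ∫ z, (φ z : ℂ) * GG' M 0 0 0 0 z)) atTop (𝓝 0) := by
  have t := (H.mom4 hB hφ j (-j) k (-k) (by ring)).const_mul ((-1) ^ j * (-1) ^ k)
  rw [mul_zero] at t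
  refine t.congr fun n => ?_
  have e1 : (-1 : ℂ) ^ j * (-1) ^ k * ∫ z, (φ z : ℂ) * GG' M j (-j) k (-k) z =
      ((∫ z, φ z * pq M j k z : ℝ) : ℂ) := by
    rw [← integral_const_mul, ← integral_complex_ofReal]
    congr 1; funext z
    have g := GGss H.m0 j k z
    have g2 : (φ z : ℂ) * ((-1) ^ j * (-1) ^ k * GG' M j (-j) k (-k) z) =
      (φ z : ℂ) * (((M 0 z).re * (M 0 z).re + ss M j k z : ℝ) : ℂ) := by rw [g]
    simp only [pq]
    push_cast at g2 ⊢
    linear_combination g2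
  have e2 : (-1 : ℂ) ^ j * (-1) ^ k * ∫ z, (φ z : ℂ) * F4 w j (-j) k (-k) n z =
      ∫ z, (φ z : ℂ) * (vv w j n z * vv w k n z) := by
    rw [← integral_const_mul]
    congr 1; funext z
    simp only [F4, vv, Int.natAbs_natCast]
    ring
  rw [← e1, ← e2, ← ep_ejk]
  ring

lemma vv_lb (H : AG B a h w M) (m : ℕ) : LB B 2 (vv w m) := by
  have := ((H.bd (m : ℤ)).mul4 (H.bd (-(m : ℤ)))).cmul ((-1) ^ (m : ℤ).natAbs)
  exact this

lemma fin_id (t : Finset ℕ) (c : ℕ → ℂ) (A P e : ℕ → ℕ → ℂ) (D T : ℂ) :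
    (∑ j ∈ t, ∑ k ∈ t, (c j * c k) * (A j k - P j k - e j k * D)) + T +
      ∑ j ∈ t, ∑ k ∈ t, (c j * c k) * P j k =
    ((∑ j ∈ t, ∑ k ∈ t, (c j * c k) * A j k) + T) - (∑ j ∈ t, ∑ k ∈ t, (c j * c k) * e j k) * D := by
  have h1 : ∑ j ∈ t, ∑ k ∈ t, (c j * c k) * (A j k - P j k - e j k * D) =
      (∑ j ∈ t, ∑ k ∈ t, (c j * c k) * A j k) - (∑ j ∈ t, ∑ k ∈ t, (c j * c k) * P j k) -
      (∑ j ∈ t, ∑ k ∈ t, (c j * c k) * e j k) * D := by
    rw [Finset.sum_mul, ← Finset.sum_sub_distrib, ← Finset.sum_sub_distrib]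
    refine Finset.sum_congr rfl fun j _ => ?_
    rw [Finset.sum_mul, ← Finset.sum_sub_distrib, ← Finset.sum_sub_distrib]
    refine Finset.sum_congr rfl fun k _ => ?_
    ring
  rw [h1]; ring

/-- **Second moments of quadratic expressions** -/
theorem AG.pow (H : AG B a h w M) (hB : IsOpen B) {φ : ℂ → ℝ} (hφ : TF B φ) {E : ℕ → ℂ → ℂ}
    {s : ℝ → ℝ} (G : Good B h w E s) :
    ∃ c : ℕ →₀ ℝ, (∀ α, (c.sum fun m x => x * Real.cos (m * α)) = s α) ∧
    Tendsto (fun n => (∫ z, (φ z : ℂ) * (E n z * E n z)) -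
      (((2 * s 0 ^ 2 + s Real.pi ^ 2) / 3 : ℝ) : ℂ) *
      ((∫ z, (φ z : ℂ) * F4 w 0 0 0 0 n z) - ∫ z, (φ z : ℂ) * GG' M 0 0 0 0 z)) atTop
      (𝓝 ((∫ z, φ z * (∑ j ∈ c.support, ∑ k ∈ c.support, c j * c k * pq M j k z) : ℝ) : ℂ)) := by
  obtain ⟨c, hc, Q, hQ, hQ'⟩ := G
  refine ⟨c, hc, ?_⟩
  obtain ⟨S, hS⟩ : ∃ S : ℕ → ℂ → ℂ, S = fun n z => ∑ j ∈ c.support, (c j : ℂ) * vv w j n z :=
    ⟨_, rfl⟩
  have SQ : ∀ n, ∀ z ∈ B, E n z = S n z + (h n : ℂ) * Q n z := by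
    intro n z hz
    rw [hQ' n z hz, hS]; rfl
  have Slb : LB B 2 S := by
    rw [hS]
    have : ∀ t : Finset ℕ, LB B 2 (fun n z => ∑ j ∈ t, (c j : ℂ) * vv w j n z) := by
      intro t
      classical
      induction t using Finset.induction_on with
      | empty =>
        have := ((vv_lb H 0).cmul 0)
        exact this.congr fun n z _ => by simp
      | insert i t hi ih =>
        exact (((vv_lb H i).cmul (c i : ℂ)).add ih).congr fun n z _ => by
          rw [Finset.sum_insert hi]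
    exact this _
  -- the error terms
  have err : WN B (fun n z => (h n : ℂ) * (2 * (S n z * Q n z) + (h n : ℂ) * (Q n z * Q n z))) := by
    have l1 : LB B 1 (fun n z => 2 * (S n z * Q n z) + (h n : ℂ) * (Q n z * Q n z)) :=
      ((Slb.mul2 hQ.lb).cmul 2).add ((hQ.lb.mul2 hQ.lb).hmul H.hlim)
    exact l1.wn H.hlim
  -- the main term
  have eS : Tendsto (fun n => ∑ j ∈ c.support, ∑ k ∈ c.support, ((c j : ℂ) * (c k : ℂ)) *
      ((∫ z, (φ z : ℂ) * (vv w j n z * vv w k n z)) -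
      ((∫ z, φ z * pq M j k z : ℝ) : ℂ) - ((ejk j k : ℝ) : ℂ) *
      ((∫ z, (φ z : ℂ) * F4 w 0 0 0 0 n z) - ∫ z, (φ z : ℂ) * GG' M 0 0 0 0 z))) atTop (𝓝 0) := by
    have := tendsto_finsetSum c.support fun j _ => tendsto_finsetSum c.support fun k _ =>
      (H.vv4 hB hφ j k).const_mul ((c j : ℂ) * (c k : ℂ))
    simpa using this
  have t1 := (err.nul φ hφ)
  have t1' : Tendsto (fun n => ∫ z, (φ z : ℂ) * ((h n : ℂ) * (2 * (S n z * Q n z) +
      (h n : ℂ) * (Q n z * Q n z)))) atTop (𝓝 0) := t1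
  have t2 := eS.add t1'
  rw [add_zero] at t2
  have t3 := t2.add_const
    ((∫ z, φ z * (∑ j ∈ c.support, ∑ k ∈ c.support, c j * c k * pq M j k z) : ℝ) : ℂ)
  rw [zero_add] at t3
  refine t3.congr fun n => ?_
  -- rewrite
  have cvv : ∀ j : ℕ, ContinuousOn (vv w j n) B := fun j => (vv_lb H j).co n
  have a1 : ∫ z, (φ z : ℂ) * (S n z * S n z) = ∑ j ∈ c.support, ∑ k ∈ c.support,
      ((c j : ℂ) * (c k : ℂ)) * ∫ z, (φ z : ℂ) * (vv w j n z * vv w k n z) := by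
    have b1 : ∀ z, (φ z : ℂ) * (S n z * S n z) = ∑ j ∈ c.support, ∑ k ∈ c.support,
        ((c j : ℂ) * (c k : ℂ)) * ((φ z : ℂ) * (vv w j n z * vv w k n z)) := by
      intro z
      rw [hS]
      beta_reduce
      rw [Finset.sum_mul_sum, Finset.mul_sum]
      refine Finset.sum_congr rfl fun j _ => ?_
      rw [Finset.mul_sum]
      refine Finset.sum_congr rfl fun k _ => ?_
      ring
    have ii : ∀ j k : ℕ, Integrable (fun z => ((c j : ℂ) * (c k : ℂ)) * ((φ z : ℂ) *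
        (vv w j n z * vv w k n z))) := fun j k =>
      (TF.cint hφ ((cvv j).mul (cvv k))).const_mul _
    simp only [b1]
    rw [integral_finsetSum _ fun j _ => integrable_finsetSum _ fun k _ => ii j k]
    refine Finset.sum_congr rfl fun j _ => ?_
    rw [integral_finsetSum _ fun k _ => ii j k]
    refine Finset.sum_congr rfl fun k _ => ?_
    rw [integral_const_mul]
  have a2 : ∫ z, (φ z : ℂ) * (E n z * E n z) = (∫ z, (φ z : ℂ) * (S n z * S n z)) +
      ∫ z, (φ z : ℂ) * ((h n : ℂ) * (2 * (S n z * Q n z) + (h n : ℂ) * (Q n z * Q n z))) := by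
    have c1 : ContinuousOn (fun z => S n z * S n z) B := (Slb.co n).mul (Slb.co n)
    have c2 : ContinuousOn (fun z => (h n : ℂ) * (2 * (S n z * Q n z) +
        (h n : ℂ) * (Q n z * Q n z))) B := by
      have s1 := Slb.co n
      have s2 := hQ.lb.co n
      exact continuousOn_const.mul ((continuousOn_const.mul (s1.mul s2)).add
        (continuousOn_const.mul (s2.mul s2)))
    rw [← integral_add (TF.cint hφ c1) (TF.cint hφ c2)]
    congr 1; funext z
    by_cases hz : z ∈ B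
    · rw [SQ n z hz]; ring
    · rw [TF.zero hφ hz]; simp
  have a3 : ((∫ z, φ z * (∑ j ∈ c.support, ∑ k ∈ c.support, c j * c k * pq M j k z) : ℝ) : ℂ) =
      ∑ j ∈ c.support, ∑ k ∈ c.support, ((c j : ℂ) * (c k : ℂ)) *
        ((∫ z, φ z * pq M j k z : ℝ) : ℂ) := by
    have b1 : ∀ z, φ z * (∑ j ∈ c.support, ∑ k ∈ c.support, c j * c k * pq M j k z) =
        ∑ j ∈ c.support, ∑ k ∈ c.support, (c j * c k) * (φ z * pq M j k z) := by
      intro z
      simp only [Finset.mul_sum]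
      refine Finset.sum_congr rfl fun j _ => Finset.sum_congr rfl fun k _ => ?_
      ring
    have ii : ∀ j k : ℕ, Integrable (fun z => (c j * c k) * (φ z * pq M j k z)) := fun j k =>
      (pq_int H.ml hφ j k).const_mul _
    simp only [b1]
    rw [integral_finsetSum _ fun j _ => integrable_finsetSum _ fun k _ => ii j k]
    push_cast
    refine Finset.sum_congr rfl fun j _ => ?_
    rw [integral_finsetSum _ fun k _ => ii j k]
    push_cast
    refine Finset.sum_congr rfl fun k _ => ?_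
    rw [integral_const_mul]
    push_cast; ring
  have a4 : (((2 * s 0 ^ 2 + s Real.pi ^ 2) / 3 : ℝ) : ℂ) = ∑ j ∈ c.support, ∑ k ∈ c.support,
      ((c j : ℂ) * (c k : ℂ)) * ((ejk j k : ℝ) : ℂ) := by
    have b0 : s 0 = ∑ j ∈ c.support, c j := by
      rw [← hc 0]; simp [Finsupp.sum]
    have b1 : s Real.pi = ∑ j ∈ c.support, c j * (-1) ^ j := by
      rw [← hc Real.pi]; simp [Finsupp.sum, Real.cos_nat_mul_pi]
    have b2 : (2 * s 0 ^ 2 + s Real.pi ^ 2) / 3 = ∑ j ∈ c.support, ∑ k ∈ c.support,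
        (c j * c k) * ejk j k := by
      rw [b0, b1, sq, sq, Finset.sum_mul_sum, Finset.sum_mul_sum]
      simp only [Finset.mul_sum, ejk]
      rw [← Finset.sum_add_distrib, Finset.sum_div]
      refine Finset.sum_congr rfl fun j _ => ?_
      rw [← Finset.sum_add_distrib, Finset.sum_div]
      refine Finset.sum_congr rfl fun k _ => ?_
      ring
    rw [b2]; push_cast; rfl
  rw [a2, a1, a3, a4]
  exact fin_id _ _ _ _ _ _ _

end

end Pool.Agent.TH294.RG
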