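import Pool.Agent.TH294.RG.Rel

/-!
Project RG (helper294): the power spectrum of `u²`.
-/

set_option autoImplicit false
open MeasureTheory Filter Topology Complex ProbabilityTheory
open scoped ContDiff ENNReal

namespace Pool.Agent.TH294.RG

open Pool.Agent.W745.RW Pool.Agent.TH294.RS

noncomputable section

variable {Y : Type*} [MeasurableSpace Y] {m : ℂ → ℝ} {e : Y → ℂ} {ν : Kernel ℂ Y}

lemma sL1_sm {B : Set ℂ} (hB : IsOpen B) {a : ℂ → ℝ} (ha : ContDiffOn ℝ ∞ a B) (t : ℝ)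
    {g : ℂ → ℂ} (hg : ContDiffOn ℝ ∞ g B) (i : ℕ) : ContDiffOn ℝ ∞ ((sL1 a t)^[i] g) B := by
  induction i with
  | zero => exact hg
  | succ i ih =>
    rw [Function.iterate_succ_apply']
    exact (contDiffOn_const.mul (((cxa ha).pow 2).mul (clap hB ih))).neg

lemma sL1_cm {B : Set ℂ} (hB : IsOpen B) {a : ℂ → ℝ} (ha : ContDiffOn ℝ ∞ a B) (t : ℝ)
    {g : ℂ → ℂ} (hg : ContDiffOn ℝ ∞ g B) (k : ℂ) (i : ℕ) :
    ∀ z ∈ B, (sL1 a t)^[i] (fun w => k * g w) z = k * (sL1 a t)^[i] g z := by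
  induction i with
  | zero => intro z _; rfl
  | succ i ih =>
    intro z hz
    rw [Function.iterate_succ_apply', Function.iterate_succ_apply']
    have s := sL1_sm hB ha t hg i
    have e1 : lap ((sL1 a t)^[i] (fun w => k * g w)) z = k * lap ((sL1 a t)^[i] g) z := by
      have e2 : ∀ w ∈ B, (sL1 a t)^[i] (fun w => k * g w) w =
          k * (sL1 a t)^[i] g w + 0 * (sL1 a t)^[i] g w := fun w hw => by rw [ih w hw]; ring
      rw [lap_cg hB e2 hz, lap_lin hB s s _ _ hz]; ring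
    simp only [sL1]
    rw [e1]; ring

/-- the functional -/
def Fi (φ : ℂ → ℝ) (a : ℂ → ℝ) (F : Polynomial ℝ) (t : ℝ) (v : ℂ → ℝ) : ℂ :=
  (∫ z, (φ z : ℂ) * (opP a t F (fun w => (v w : ℂ) ^ 2) z * opP a t F (fun w => (v w : ℂ) ^ 2) z)) -
    (((2 * F.eval 0 ^ 2 + F.eval 4 ^ 2) / 3 : ℝ) : ℂ) * ∫ z, (φ z : ℂ) * (v z : ℂ) ^ 4

lemma Fi_hom {B : Set ℂ} (hB : IsOpen B) {φ : ℂ → ℝ} (hφ : TF B φ) {a : ℂ → ℝ}
    (ha : ContDiffOn ℝ ∞ a B) (F : Polynomial ℝ) (t c : ℝ) (v : ℂ → ℝ)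
    (hv : ContDiffOn ℝ ∞ v B) :
    Fi φ a F t (fun z => c * v z) = (c : ℂ) ^ 4 * Fi φ a F t v := by
  have s : ContDiffOn ℝ ∞ (fun w => (v w : ℂ) ^ 2) B := (cxa hv).pow 2
  have e0 : (fun w => (((fun z => c * v z) w : ℝ) : ℂ) ^ 2) = fun w => (c : ℂ) ^ 2 *
      (v w : ℂ) ^ 2 := by
    funext w; push_cast; ring
  have e1 : ∀ z ∈ B, opP a t F (fun w => (c : ℂ) ^ 2 * (v w : ℂ) ^ 2) z =
      (c : ℂ) ^ 2 * opP a t F (fun w => (v w : ℂ) ^ 2) z := by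
    intro z hz
    simp only [opP, Polynomial.sum_def, Finset.mul_sum]
    refine Finset.sum_congr rfl fun i _ => ?_
    rw [sL1_cm hB ha t s _ i z hz]; ring
  unfold Fi
  rw [e0, mul_sub]
  congr 1
  · rw [← integral_const_mul]
    congr 1; funext z
    by_cases hz : z ∈ B
    · rw [e1 z hz]; ring
    · rw [TF.zero hφ hz]; simp
  · have e2 : ∀ z, (φ z : ℂ) * ((((fun z => c * v z) z : ℝ) : ℂ)) ^ 4 =
        (c : ℂ) ^ 4 * ((φ z : ℂ) * (v z : ℂ) ^ 4) := fun z => by push_cast; ring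
    simp only [e2]
    rw [integral_const_mul]; ring

/-- the bounded case, for arbitrary limits -/
theorem spec_b {B : Set ℂ} (hB : IsOpen B) {a : ℂ → ℝ} {h : ℕ → ℝ} {u : ℕ → ℂ → ℝ}
    {M : ℕ → ℂ → ℂ} (H : RawG B a h u M) (ml : ∀ k, ML B (M k))
    (m0 : ∀ z, (starRingEnd ℂ) (M 0 z) = M 0 z)
    (hb : ∀ K : Set ℂ, IsCompact K → K ⊆ B →
      ∃ C : ℝ, ∀ᶠ n in atTop, ∫ z in K, u n z ^ 4 ≤ C) {φ : ℂ → ℝ} (hφ : TF B φ)
    (F : Polynomial ℝ) :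
    ∃ c : ℕ →₀ ℝ, (∀ α, (c.sum fun m x => x * Real.cos (m * α)) = F.eval (2 - 2 * Real.cos α)) ∧
    Tendsto (fun n => Fi φ a F (h n) (u n) +
      (((2 * F.eval 0 ^ 2 + F.eval 4 ^ 2) / 3 : ℝ) : ℂ) * ∫ z, (φ z : ℂ) * GG' M 0 0 0 0 z) atTop
      (𝓝 ((∫ z, φ z * (∑ j ∈ c.support, ∑ k ∈ c.support, c j * c k * pq M j k z) : ℝ) : ℂ)) := by
  have A := H.as hB ml m0 hb
  have sm : ∀ n, ContDiffOn ℝ ∞ (fun z => (u n z : ℂ)) B := fun n => cxa (H.sm n)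
  have lbu : LB B 4 (fun n z => (u n z : ℂ)) := A.bd 0
  obtain ⟨mc, up, dn⟩ := lad hB H.hpos H.hlim H.sa H.pa (u := fun n z => (u n z : ℂ))
    (fun n z => conj_ofReal _) lbu (fun n z hz => by
      rw [lap_re hB (H.sm n) hz]
      have h1 := H.eq n z hz
      have h2 : ((h n ^ 2 * (a z ^ 2 * lap (u n) z) + u n z : ℝ) : ℂ) = 0 := by rw [h1]; simp
      push_cast at h2
      linear_combination h2)
  have good := good_poly hB H.hlim H.sa mc up dn F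
  obtain ⟨c, hc, lim⟩ := A.pow hB hφ good
  refine ⟨c, hc, ?_⟩
  refine lim.congr fun n => ?_
  have w0 : ∀ z, ww a h (fun n z => (u n z : ℂ)) 0 n z = (u n z : ℂ) := fun z => rfl
  have e1 : vv (ww a h (fun n z => (u n z : ℂ))) 0 n = fun w => (u n w : ℂ) ^ 2 := by
    funext z
    simp only [vv, neg_zero, Int.natAbs_zero, pow_zero, one_mul, w0]; ring
  have e2 : ∀ z, F4 (ww a h (fun n z => (u n z : ℂ))) 0 0 0 0 n z = (u n z : ℂ) ^ 4 := by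
    intro z; simp only [F4, w0]; ring
  have e3 : (2 * F.eval (2 - 2 * Real.cos 0) ^ 2 + F.eval (2 - 2 * Real.cos Real.pi) ^ 2) / 3 =
      (2 * F.eval 0 ^ 2 + F.eval 4 ^ 2) / 3 := by
    rw [Real.cos_zero, Real.cos_pi]; norm_num
  simp only [e1, e2, e3, Fi]
  ring

lemma GG'_MM [IsMarkovKernel ν] (z : ℂ) : GG' (MM m e ν) 0 0 0 0 z = ((3 * m z ^ 2 : ℝ) : ℂ) := by
  have : ∀ z, cc (MM m e ν) 0 0 z = (m z : ℂ) := by
    intro z
    simp [cc, MZ, MM_0]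
  simp only [GG', this]
  push_cast; ring

/-- **The power spectrum of `u²`** for the equation `h² a² Δu + u = 0` -/
theorem RawG.spec [IsMarkovKernel ν] {Ω : Set ℂ} {a : ℂ → ℝ} {h : ℕ → ℝ}
    {u : ℕ → ℂ → ℝ} (he : Measurable e) (h1 : ∀ y, ‖e y‖ = 1)
    (hm : ∀ K : Set ℂ, IsCompact K → K ⊆ Ω → MemLp m 2 (volume.restrict K))
    (H : RawG Ω a h u (MM m e ν)) {K : Set ℂ} (hK : IsCompact K) (hKΩ : K ⊆ Ω) {φ : ℂ → ℝ}
    (hφ : TF (interior K) φ) (F : Polynomial ℝ) :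
    Tendsto (fun n => ((1 + ∫ z in K, u n z ^ 4 : ℝ) : ℂ)⁻¹ * (Fi φ a F (h n) (u n) -
      (((∫ z, φ z * (m z ^ 2 * (F.eval 0 ^ 2 + ang F e (ν z)))) -
        (2 * F.eval 0 ^ 2 + F.eval 4 ^ 2) / 3 * ∫ z, φ z * (3 * m z ^ 2) : ℝ) : ℂ))) atTop
      (𝓝 0) := by
  have hBΩ : interior K ⊆ Ω := interior_subset.trans hKΩ
  have hB : IsOpen (interior K) := isOpen_interior
  refine rel4 H hK hKΩ (Fi φ a F) _ (fun t c v hv => Fi_hom hB hφ (H.sa.mono hBΩ) F t c v hv)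
    (fun h' u' H' hb => ?_) (fun h' u' H' hb => ?_)
  · have ml : ∀ k, ML (interior K) (MM m e ν k) := fun k =>
      MM_ml he h1 (fun K' hK' hKB => hm K' hK' (hKB.trans hBΩ)) k
    obtain ⟨c, hc, lim⟩ := spec_b hB H' ml (fun z => by rw [MM_0, conj_ofReal]) hb hφ F
    simp only [ang_sum he h1 hc] at lim
    have e1 : ∫ z, (φ z : ℂ) * GG' (MM m e ν) 0 0 0 0 z =
        ((∫ z, φ z * (3 * m z ^ 2) : ℝ) : ℂ) := by
      rw [← integral_complex_ofReal]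
      congr 1; funext z
      rw [GG'_MM]; push_cast; ring
    rw [e1] at lim
    have t2 := lim.sub_const ((((2 * F.eval 0 ^ 2 + F.eval 4 ^ 2) / 3 : ℝ) : ℂ) *
      ((∫ z, φ z * (3 * m z ^ 2) : ℝ) : ℂ))
    simp only [add_sub_cancel_right] at t2
    refine t2.trans_eq ?_
    congr 1
    push_cast; ring
  · obtain ⟨c, hc, lim⟩ := spec_b hB H' (fun k => ML.zero) (fun z => map_zero _) hb hφ F
    have e1 : ∀ z, GG' (fun _ _ => 0) 0 0 0 0 z = 0 := by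
      intro z
      have hcc : ∀ a b, cc (fun _ _ => 0) a b z = 0 := by
        intro a b
        simp [cc, MZ]
      simp [GG', hcc]
    have e2 : ∀ j k z, pq (fun _ _ => 0) j k z = 0 := by
      intro j k z
      simp [pq, ss]
    simpa [e1, e2] using lim

end

end Pool.Agent.TH294.RG
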