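import Pool.Agent.TH294.RG.SpecM

/-!
Project RG (helper294): the power spectrum of `u²` for uniformly distributed directions.
-/

set_option autoImplicit false
open MeasureTheory Filter Topology Complex ProbabilityTheory
open scoped ContDiff ENNReal

namespace Pool.Agent.TH294.RG

open Pool.Agent.W745.RW Pool.Agent.TH294.RS

noncomputable section

/-- the uniform probability measure on `(0, 2π]` -/
def mu0 : Measure ℝ :=
  ENNReal.ofReal (1 / (2 * Real.pi)) • volume.restrict (Set.Ioc 0 (2 * Real.pi))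

lemma tp : (0 : ℝ) < 2 * Real.pi := by positivity

lemma int_mu0 {E : Type*} [NormedAddCommGroup E] [NormedSpace ℝ E] (f : ℝ → E) :
    ∫ x, f x ∂mu0 = (1 / (2 * Real.pi)) • ∫ x in (0 : ℝ)..(2 * Real.pi), f x := by
  unfold mu0
  rw [integral_smul_measure, intervalIntegral.integral_of_le tp.le,
    ENNReal.toReal_ofReal (by positivity)]

instance prob0 : IsProbabilityMeasure mu0 := by
  refine ⟨?_⟩
  unfold mu0
  simp only [Measure.smul_apply, Measure.restrict_apply MeasurableSet.univ, Set.univ_inter,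
    Real.volume_Ioc, sub_zero, smul_eq_mul]
  rw [← ENNReal.ofReal_mul (by positivity)]
  have := tp.ne'
  rw [one_div_mul_cancel this, ENNReal.ofReal_one]

/-- the constant kernel -/
def unif : Kernel ℂ ℝ := Kernel.const ℂ mu0

instance mark0 : IsMarkovKernel unif := by unfold unif; infer_instance

lemma cm_unif (k : ℕ) : cm ea mu0 k = if k = 0 then 1 else 0 := by
  unfold cm
  by_cases hk : k = 0
  · simp [hk]
  · rw [if_neg hk, int_mu0]
    have e1 : ∀ x : ℝ, ea x ^ k = I ^ k * Complex.exp ((-(k : ℂ) * I) * x) := by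
      intro x
      unfold ea
      rw [mul_pow, ← Complex.exp_nat_mul]
      congr 2; ring
    simp only [e1]
    have hc : (-(k : ℂ) * I) ≠ 0 := by
      simp [hk]
    rw [intervalIntegral.integral_const_mul, integral_exp_mul_complex hc]
    have e2 : Complex.exp (-(k : ℂ) * I * ((2 * Real.pi : ℝ) : ℂ)) = 1 := by
      rw [Complex.exp_eq_one_iff]
      exact ⟨-(k : ℤ), by push_cast; ring⟩
    rw [e2]
    simp

lemma MM_unif (k : ℕ) (z : ℂ) : MM (fun _ => 1) ea unif k z = if k = 0 then 1 else 0 := by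
  simp only [MM, unif, Kernel.const_apply, cm_unif, ofReal_one, one_mul]

lemma ang_unif (F : Polynomial ℝ) : ang F ea mu0 =
    1 / Real.pi * ∫ θ in (0 : ℝ)..(2 * Real.pi), F.eval (2 - 2 * Real.cos θ) ^ 2 := by
  rw [ang_ea]
  have cF : Continuous (fun x : ℝ => F.eval x) := F.continuous
  obtain ⟨G, hG⟩ : ∃ G : ℝ → ℝ, ∀ θ, G θ = F.eval (2 - 2 * Real.cos θ) ^ 2 +
    F.eval (2 + 2 * Real.cos θ) ^ 2 := ⟨_, fun _ => rfl⟩
  have c1 : Continuous (fun θ : ℝ => F.eval (2 - 2 * Real.cos θ) ^ 2) := by fun_prop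
  have c2 : Continuous (fun θ : ℝ => F.eval (2 + 2 * Real.cos θ) ^ 2) := by fun_prop
  have cG : Continuous G := by
    have : G = fun θ => F.eval (2 - 2 * Real.cos θ) ^ 2 +
      F.eval (2 + 2 * Real.cos θ) ^ 2 := funext hG
    rw [this]; exact c1.add c2
  have per : Function.Periodic G (2 * Real.pi) := fun θ => by
    rw [hG, hG, Real.cos_add_two_pi]
  obtain ⟨C, hC⟩ : ∃ C : ℝ, ∀ θ, ‖G θ‖ ≤ C := by
    obtain ⟨C, hC⟩ := (isCompact_Icc (a := (0 : ℝ)) (b := 2 * Real.pi)).exists_bound_of_continuousOn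
      cG.continuousOn
    refine ⟨C, fun θ => ?_⟩
    obtain ⟨y, hy, hy2⟩ := per.exists_mem_Ico₀ tp θ
    rw [hy2]
    exact hC y ⟨hy.1, hy.2.le⟩
  have hint : Integrable (fun p : ℝ × ℝ => G (p.1 - p.2)) (mu0.prod mu0) := by
    refine Integrable.of_bound (C := C) ?_ (ae_of_all _ fun p => hC _)
    exact (cG.comp (continuous_fst.sub continuous_snd)).aestronglyMeasurable
  have e1 : ∫ p, (F.eval (2 - 2 * Real.cos (p.1 - p.2)) ^ 2 +
      F.eval (2 + 2 * Real.cos (p.1 - p.2)) ^ 2) ∂(mu0.prod mu0) =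
      ∫ p, G (p.1 - p.2) ∂(mu0.prod mu0) := by
    congr 1; funext p; rw [hG]
  have e2 : ∀ x : ℝ, ∫ y in (0 : ℝ)..(2 * Real.pi), G (x - y) =
      ∫ θ in (0 : ℝ)..(2 * Real.pi), G θ := by
    intro x
    rw [intervalIntegral.integral_comp_sub_left (fun θ => G θ) x]
    have := per.intervalIntegral_add_eq (x - 2 * Real.pi) 0
    rw [sub_add_cancel, zero_add] at this
    rw [sub_zero, this]
  have e3 : ∫ θ in (0 : ℝ)..(2 * Real.pi), F.eval (2 + 2 * Real.cos θ) ^ 2 =
      ∫ θ in (0 : ℝ)..(2 * Real.pi), F.eval (2 - 2 * Real.cos θ) ^ 2 := by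
    have h1 : ∀ θ : ℝ, F.eval (2 + 2 * Real.cos θ) ^ 2 =
        (fun θ => F.eval (2 - 2 * Real.cos θ) ^ 2) (θ + Real.pi) := by
      intro θ
      simp only [Real.cos_add_pi]
      ring_nf
    simp only [h1]
    rw [intervalIntegral.integral_comp_add_right (fun θ => F.eval (2 - 2 * Real.cos θ) ^ 2)]
    have per2 : Function.Periodic (fun θ : ℝ => F.eval (2 - 2 * Real.cos θ) ^ 2)
        (2 * Real.pi) := fun θ => by
      simp only [Real.cos_add_two_pi]
    have := per2.intervalIntegral_add_eq Real.pi 0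
    rw [zero_add] at this
    rw [zero_add, add_comm (2 * Real.pi) Real.pi, this]
  rw [e1, integral_prod _ hint]
  have e4 : ∀ x : ℝ, ∫ y, G (x - y) ∂mu0 =
      (1 / (2 * Real.pi)) • ∫ θ in (0 : ℝ)..(2 * Real.pi), G θ := by
    intro x
    rw [int_mu0, e2]
  simp only [e4]
  rw [integral_const]
  simp only [probReal_univ, one_smul]
  have e5 : ∫ θ in (0 : ℝ)..(2 * Real.pi), G θ =
      2 * ∫ θ in (0 : ℝ)..(2 * Real.pi), F.eval (2 - 2 * Real.cos θ) ^ 2 := by
    have : G = fun θ => F.eval (2 - 2 * Real.cos θ) ^ 2 +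
      F.eval (2 + 2 * Real.cos θ) ^ 2 := funext hG
    rw [this, intervalIntegral.integral_add (c1.intervalIntegrable _ _)
      (c2.intervalIntegrable _ _), e3]
    ring
  rw [e5, smul_eq_mul]
  have := Real.pi_ne_zero
  field_simp

/-- change of the normalising factor -/
lemma nrm_change {A B x : ℕ → ℝ} {C : ℝ} (hA : ∀ n, 0 < A n) (hB : ∀ n, 0 < B n)
    (hAB : ∀ n, A n ≤ C * B n) (H : Tendsto (fun n => x n / A n) atTop (𝓝 0)) :
    Tendsto (fun n => x n / B n) atTop (𝓝 0) := by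
  have h0 : 0 < C := by
    by_contra hc
    have h1 := hAB 0
    have h2 := hA 0
    have h3 := mul_nonpos_of_nonpos_of_nonneg (not_lt.1 hc) (hB 0).le
    linarith
  have h1 := H.abs.const_mul C
  rw [abs_zero, mul_zero] at h1
  refine squeeze_zero_norm (fun n => ?_) h1
  rw [Real.norm_eq_abs, abs_div, abs_div, abs_of_pos (hA n), abs_of_pos (hB n), mul_div_assoc',
    div_le_div_iff₀ (hB n) (hA n)]
  have := mul_le_mul_of_nonneg_left (hAB n) (abs_nonneg (x n))
  linarith

end

end Pool.Agent.TH294.RG
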