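import Pool.Agent.TH294.RG.Spec

/-!
Project RG (helper294): the power spectrum of `u²`, real form.
-/

set_option autoImplicit false
open MeasureTheory Filter Topology Complex ProbabilityTheory
open scoped ContDiff ENNReal

namespace Pool.Agent.TH294.RG

open Pool.Agent.W745.RW Pool.Agent.TH294.RS

noncomputable section

/-- the operator `-t² a² Δ` on real functions -/
def sR (a : ℂ → ℝ) (t : ℝ) (g : ℂ → ℝ) (z : ℂ) : ℝ := -(t ^ 2 * (a z ^ 2 * lap g z))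

lemma lap_cgR {B : Set ℂ} (hB : IsOpen B) {f g : ℂ → ℝ} (e : ∀ z ∈ B, f z = g z) {z : ℂ}
    (hz : z ∈ B) : lap f z = lap g z := by
  have d1 : ∀ v : ℂ, ∀ w ∈ B, fderiv ℝ f w v = fderiv ℝ g w v := by
    intro v w hw
    have : f =ᶠ[𝓝 w] g := by
      filter_upwards [hB.mem_nhds hw] with x hx
      exact e x hx
    rw [this.fderiv_eq]
  have d2 : ∀ v : ℂ, fderiv ℝ (fun w => fderiv ℝ f w v) z v =
      fderiv ℝ (fun w => fderiv ℝ g w v) z v := by
    intro v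
    have : (fun w => fderiv ℝ f w v) =ᶠ[𝓝 z] fun w => fderiv ℝ g w v := by
      filter_upwards [hB.mem_nhds hz] with x hx
      exact d1 v x hx
    rw [this.fderiv_eq]
  show fderiv ℝ (fun w => fderiv ℝ f w 1) z 1 + fderiv ℝ (fun w => fderiv ℝ f w I) z I =
    fderiv ℝ (fun w => fderiv ℝ g w 1) z 1 + fderiv ℝ (fun w => fderiv ℝ g w I) z I
  rw [d2, d2]

lemma sR_sm {B : Set ℂ} (hB : IsOpen B) {a : ℂ → ℝ} (ha : ContDiffOn ℝ ∞ a B) (t : ℝ)
    {g : ℂ → ℝ} (hg : ContDiffOn ℝ ∞ g B) (i : ℕ) : ContDiffOn ℝ ∞ ((sR a t)^[i] g) B := by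
  induction i with
  | zero => exact hg
  | succ i ih =>
    rw [Function.iterate_succ_apply']
    exact (contDiffOn_const.mul ((ha.pow 2).mul (sm_lap hB ih))).neg

lemma sL1_re {B : Set ℂ} (hB : IsOpen B) {a : ℂ → ℝ} (ha : ContDiffOn ℝ ∞ a B) (t : ℝ)
    {g : ℂ → ℝ} (hg : ContDiffOn ℝ ∞ g B) {G : ℂ → ℂ} (hG : ∀ z ∈ B, G z = (g z : ℂ)) (i : ℕ) :
    ∀ z ∈ B, (sL1 a t)^[i] G z = (((sR a t)^[i] g z : ℝ) : ℂ) := by
  induction i with
  | zero => exact hG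
  | succ i ih =>
    intro z hz
    rw [Function.iterate_succ_apply', Function.iterate_succ_apply']
    simp only [sL1, sR]
    rw [lap_cg hB ih hz, lap_re hB (sR_sm hB ha t hg i) hz]
    push_cast; ring

/-- an operator that agrees with `sR` on `B` -/
lemma sR_cg {B : Set ℂ} (hB : IsOpen B) {a : ℂ → ℝ} {t : ℝ} {T : (ℂ → ℝ) → ℂ → ℝ}
    (hT : ∀ g, ∀ z ∈ B, T g z = sR a t g z) (g : ℂ → ℝ) (i : ℕ) :
    ∀ z ∈ B, T^[i] g z = (sR a t)^[i] g z := by
  induction i with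
  | zero => intro z _; rfl
  | succ i ih =>
    intro z hz
    rw [Function.iterate_succ_apply', Function.iterate_succ_apply', hT _ z hz]
    simp only [sR]
    rw [lap_cgR hB ih hz]

variable {Y : Type*} [MeasurableSpace Y] {m : ℂ → ℝ} {e : Y → ℂ} {ν : Kernel ℂ Y}

/-- **The power spectrum of `u²`**, real form; `T n` is any operator that agrees with
`-h² a² Δ` on the open set -/
theorem spec_real [IsMarkovKernel ν] {Ω : Set ℂ} {a : ℂ → ℝ} {h : ℕ → ℝ}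
    {u : ℕ → ℂ → ℝ} (he : Measurable e) (h1 : ∀ y, ‖e y‖ = 1)
    (hm : ∀ K : Set ℂ, IsCompact K → K ⊆ Ω → MemLp m 2 (volume.restrict K))
    (H : RawG Ω a h u (MM m e ν)) {K : Set ℂ} (hK : IsCompact K) (hKΩ : K ⊆ Ω) {φ : ℂ → ℝ}
    (hφ : TF (interior K) φ) (F : Polynomial ℝ) {T : ℕ → (ℂ → ℝ) → ℂ → ℝ}
    (hT : ∀ n g, ∀ z ∈ interior K, T n g z = sR a (h n) g z) :
    Tendsto (fun n => ((∫ z, φ z * (F.sum fun i c => c * (T n)^[i] (fun w => u n w ^ 2) z) ^ 2)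
      - (2 * F.eval 0 ^ 2 + F.eval 4 ^ 2) / 3 *
        ((∫ z, φ z * u n z ^ 4) - ∫ z, φ z * (3 * m z ^ 2))
      - ∫ z, φ z * (m z ^ 2 * (F.eval 0 ^ 2 + ang F e (ν z)))) /
      (1 + ∫ z in K, u n z ^ 4)) atTop (𝓝 0) := by
  have hBΩ : interior K ⊆ Ω := interior_subset.trans hKΩ
  have hB : IsOpen (interior K) := isOpen_interior
  have key := H.spec he h1 hm hK hKΩ hφ F
  have k2 := (Complex.continuous_re.tendsto _).comp key
  rw [Complex.zero_re] at k2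
  refine k2.congr fun n => ?_
  have e1 : ∀ z ∈ interior K, opP a (h n) F (fun w => (u n w : ℂ) ^ 2) z =
      ((F.sum fun i c => c * (T n)^[i] (fun w => u n w ^ 2) z : ℝ) : ℂ) := by
    intro z hz
    simp only [opP, Polynomial.sum_def]
    push_cast
    refine Finset.sum_congr rfl fun i _ => ?_
    have s2 : ContDiffOn ℝ ∞ (fun w => u n w ^ 2) (interior K) := ((H.sm n).mono hBΩ).pow 2
    rw [sL1_re hB (H.sa.mono hBΩ) (h n) s2 (fun w _ => by push_cast; rfl) i z hz,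
      sR_cg hB (hT n) _ i z hz]
  have e2 : Fi φ a F (h n) (u n) = (((∫ z, φ z * (F.sum fun i c =>
      c * (T n)^[i] (fun w => u n w ^ 2) z) ^ 2) - (2 * F.eval 0 ^ 2 + F.eval 4 ^ 2) / 3 *
        (∫ z, φ z * u n z ^ 4) : ℝ) : ℂ) := by
    unfold Fi
    rw [ofReal_sub, ofReal_mul, ← integral_complex_ofReal, ← integral_complex_ofReal]
    congr 1
    · congr 1; funext z
      by_cases hz : z ∈ interior K
      · rw [e1 z hz]; push_cast; ring
      · rw [TF.zero hφ hz]; simp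
    · congr 2; funext z; push_cast; ring
  simp only [Function.comp_def]
  rw [e2, ← ofReal_sub, ← ofReal_inv, ← ofReal_mul, ofReal_re, inv_mul_eq_div]
  congr 1
  ring

lemma qq_ea (p : ℝ × ℝ) : qq ea 1 p = Real.cos (p.1 - p.2) := by
  simp only [qq, pow_one, ea]
  have h1 : (starRingEnd ℂ) (I * Complex.exp (-(p.2 : ℂ) * I)) =
      -I * Complex.exp ((p.2 : ℂ) * I) := by
    rw [map_mul, conj_I, ← Complex.exp_conj, map_mul, map_neg, conj_ofReal, conj_I]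
    congr 2; ring
  rw [h1]
  have h2 : I * Complex.exp (-(p.1 : ℂ) * I) * (-I * Complex.exp ((p.2 : ℂ) * I)) =
      Complex.exp (((p.2 - p.1 : ℝ) : ℂ) * I) := by
    have h3 : ((p.2 - p.1 : ℝ) : ℂ) * I = -(p.1 : ℂ) * I + (p.2 : ℂ) * I := by push_cast; ring
    rw [h3, Complex.exp_add]
    linear_combination (-(Complex.exp (-(p.1 : ℂ) * I) * Complex.exp ((p.2 : ℂ) * I))) * I_sq
  rw [h2, Complex.exp_ofReal_mul_I_re, ← Real.cos_neg, neg_sub]

lemma ang_ea (F : Polynomial ℝ) (ν : Measure ℝ) : ang F ea ν =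
    ∫ p, (F.eval (2 - 2 * Real.cos (p.1 - p.2)) ^ 2 + F.eval (2 + 2 * Real.cos (p.1 - p.2)) ^ 2)
      ∂(ν.prod ν) := by
  unfold ang
  simp only [qq_ea]

end

end Pool.Agent.TH294.RG
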