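import Pool.Agent.TH294.RG.L2a

/-!
Project RG (helper294): third order moments, the translation relations.
-/

set_option autoImplicit false
open MeasureTheory Filter Topology Complex
open scoped ContDiff

namespace Pool.Agent.TH294.RG

open Pool.Agent.W745.RW Pool.Agent.TH294.RS

noncomputable section

variable {B : Set ℂ} {a : ℂ → ℝ} {h : ℕ → ℝ} {w : ℤ → ℕ → ℂ → ℂ} {M : ℕ → ℂ → ℂ}

/-- the first translation relation of third order -/
lemma AG.tr3 (H : AG B a h w M) (hB : IsOpen B) {s : ℕ → ℝ}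
    (hs : ∀ k, LB B 2 (fun n z => (s n : ℂ) * w k n z)) (i j k : ℤ) :
    WN B (fun n z => (s n : ℂ) * (w (i + 1) n z * w j n z * w k n z +
      w i n z * w (j + 1) n z * w k n z + w i n z * w j n z * w (k + 1) n z)) := by
  obtain ⟨e1, he1, g1⟩ := H.up i
  obtain ⟨e2, he2, g2⟩ := H.up j
  obtain ⟨e3, he3, g3⟩ := H.up k
  have l1 : LB B 1 (fun n z => (w i n z * w j n z) * ((s n : ℂ) * w k n z)) :=
    ((H.bd i).mul4 (H.bd j)).mul2 (hs k)
  have l2 : LB B 1 (fun n z => (e1 n z * w j n z) * ((s n : ℂ) * w k n z) +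
      (w i n z * e2 n z) * ((s n : ℂ) * w k n z) +
      (w j n z * e3 n z) * ((s n : ℂ) * w i n z)) :=
    (((he1.mul4 (H.bd j)).mul2 (hs k)).add (((H.bd i).mul4 he2).mul2 (hs k))).add
      (((H.bd j).mul4 he3).mul2 (hs i))
  refine ((l1.wnP hB H.hlim H.sa).sub (l2.wn H.hlim)).congr fun n z hz => ?_
  have c1 := g1 n z hz
  have c2 := g2 n z hz
  have c3 := g3 n z hz
  have d1 := da hB ((H.bd i).sm n) hz
  have d2 := da hB ((H.bd j).sm n) hz
  have d3 := da hB ((H.bd k).sm n) hz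
  simp only [DP] at c1 c2 c3 ⊢
  rw [dd_mul (f := fun z => w i n z * w j n z) (g := fun z => (s n : ℂ) * w k n z) (d1.mul d2)
    (d3.const_mul _), dd_mul d1 d2, dd_cm d3]
  linear_combination (-(w j n z * ((s n : ℂ) * w k n z))) * c1 -
    (w i n z * ((s n : ℂ) * w k n z)) * c2 - (w i n z * w j n z * (s n : ℂ)) * c3

/-- the second translation relation of third order -/
lemma AG.tr3' (H : AG B a h w M) (hB : IsOpen B) {s : ℕ → ℝ}
    (hs : ∀ k, LB B 2 (fun n z => (s n : ℂ) * w k n z)) (i j k : ℤ) :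
    WN B (fun n z => (s n : ℂ) * (w (i - 1) n z * w j n z * w k n z +
      w i n z * w (j - 1) n z * w k n z + w i n z * w j n z * w (k - 1) n z)) := by
  obtain ⟨e1, he1, g1⟩ := H.dn i
  obtain ⟨e2, he2, g2⟩ := H.dn j
  obtain ⟨e3, he3, g3⟩ := H.dn k
  have l1 : LB B 1 (fun n z => (w i n z * w j n z) * ((s n : ℂ) * w k n z)) :=
    ((H.bd i).mul4 (H.bd j)).mul2 (hs k)
  have l2 : LB B 1 (fun n z => (e1 n z * w j n z) * ((s n : ℂ) * w k n z) +
      (w i n z * e2 n z) * ((s n : ℂ) * w k n z) +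
      (w j n z * e3 n z) * ((s n : ℂ) * w i n z)) :=
    (((he1.mul4 (H.bd j)).mul2 (hs k)).add (((H.bd i).mul4 he2).mul2 (hs k))).add
      (((H.bd j).mul4 he3).mul2 (hs i))
  refine ((l2.wn H.hlim).sub (l1.wnM hB H.hlim H.sa)).congr fun n z hz => ?_
  have c1 := g1 n z hz
  have c2 := g2 n z hz
  have c3 := g3 n z hz
  have d1 := da hB ((H.bd i).sm n) hz
  have d2 := da hB ((H.bd j).sm n) hz
  have d3 := da hB ((H.bd k).sm n) hz
  simp only [DM] at c1 c2 c3 ⊢
  rw [db_mul (f := fun z => w i n z * w j n z) (g := fun z => (s n : ℂ) * w k n z) (d1.mul d2)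
    (d3.const_mul _), db_mul d1 d2, db_cm d3]
  linear_combination (w j n z * ((s n : ℂ) * w k n z)) * c1 +
    (w i n z * ((s n : ℂ) * w k n z)) * c2 + (w i n z * w j n z * (s n : ℂ)) * c3

/-- scaled third order moments -/
def y3 (w : ℤ → ℕ → ℂ → ℂ) (s : ℕ → ℝ) (φ : ℂ → ℝ) (i j k : ℤ) (n : ℕ) : ℂ :=
  ∫ z, (φ z : ℂ) * ((s n : ℂ) * (w i n z * w j n z * w k n z))

lemma y3_int (H : AG B a h w M) {s : ℕ → ℝ} {φ : ℂ → ℝ} (hφ : TF B φ) (i j k : ℤ) (n : ℕ) :
    Integrable (fun z => (φ z : ℂ) * ((s n : ℂ) * (w i n z * w j n z * w k n z))) :=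
  TF.cint hφ (continuousOn_const.mul ((((H.bd i).co n).mul ((H.bd j).co n)).mul ((H.bd k).co n)))

lemma y3_rel (H : AG B a h w M) (hB : IsOpen B) {s : ℕ → ℝ}
    (hs : ∀ k, LB B 2 (fun n z => (s n : ℂ) * w k n z)) {φ : ℂ → ℝ} (hφ : TF B φ) (i j k : ℤ) :
    Tendsto (fun n => y3 w s φ (i + 1) j k n + y3 w s φ i (j + 1) k n + y3 w s φ i j (k + 1) n)
      atTop (𝓝 0) := by
  refine ((H.tr3 hB hs i j k).nul φ hφ).congr fun n => ?_
  unfold y3
  have i1 := y3_int H (s := s) hφ (i + 1) j k n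
  have i2 := y3_int H (s := s) hφ i (j + 1) k n
  have i3 := y3_int H (s := s) hφ i j (k + 1) n
  have i12 : Integrable (fun z => (φ z : ℂ) * ((s n : ℂ) * (w (i + 1) n z * w j n z * w k n z)) +
      (φ z : ℂ) * ((s n : ℂ) * (w i n z * w (j + 1) n z * w k n z))) := i1.add i2
  rw [← integral_add i1 i2, ← integral_add i12 i3]
  congr 1; funext z
  ring

lemma y3_rel' (H : AG B a h w M) (hB : IsOpen B) {s : ℕ → ℝ}
    (hs : ∀ k, LB B 2 (fun n z => (s n : ℂ) * w k n z)) {φ : ℂ → ℝ} (hφ : TF B φ) (i j k : ℤ) :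
    Tendsto (fun n => y3 w s φ (i - 1) j k n + y3 w s φ i (j - 1) k n + y3 w s φ i j (k - 1) n)
      atTop (𝓝 0) := by
  refine ((H.tr3' hB hs i j k).nul φ hφ).congr fun n => ?_
  unfold y3
  have i1 := y3_int H (s := s) hφ (i - 1) j k n
  have i2 := y3_int H (s := s) hφ i (j - 1) k n
  have i3 := y3_int H (s := s) hφ i j (k - 1) n
  have i12 : Integrable (fun z => (φ z : ℂ) * ((s n : ℂ) * (w (i - 1) n z * w j n z * w k n z)) +
      (φ z : ℂ) * ((s n : ℂ) * (w i n z * w (j - 1) n z * w k n z))) := i1.add i2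
  rw [← integral_add i1 i2, ← integral_add i12 i3]
  congr 1; funext z
  ring

/-- the three term relation -/
lemma y3_three (H : AG B a h w M) (hB : IsOpen B) {s : ℕ → ℝ}
    (hs : ∀ k, LB B 2 (fun n z => (s n : ℂ) * w k n z)) {φ : ℂ → ℝ} (hφ : TF B φ) (i j k : ℤ) :
    Tendsto (fun n => y3 w s φ (i + 1) (j - 1) k n + y3 w s φ i j k n +
      y3 w s φ (i - 1) (j + 1) k n) atTop (𝓝 0) := by
  have t1 := y3_rel H hB hs hφ i (j - 1) k
  have t2 := y3_rel H hB hs hφ (i - 1) j k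
  have t3 := y3_rel' H hB hs hφ i j (k + 1)
  rw [sub_add_cancel] at t1 t2
  rw [add_sub_cancel_right] at t3
  have t := (t1.add t2).sub t3
  simp only [add_zero, sub_zero] at t
  refine t.congr fun n => ?_
  ring

/-- the coefficients -/
def e3 (i : ℕ) : ℂ := if i % 3 = 0 then 2 else -1

/-- sequences with vanishing sums of three consecutive terms -/
lemma three_sum {y : ℤ → ℕ → ℂ}
    (hy : ∀ i, Tendsto (fun n => y (i + 1) n + y i n + y (i - 1) n) atTop (𝓝 0)) (L : ℕ) :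
    Tendsto (fun n => (∑ i ∈ Finset.Icc 1 (3 * L), e3 i * y (2 * i) n) - (3 * L : ℂ) * y 0 n)
      atTop (𝓝 0) := by
  have per : ∀ (k : ℤ), Tendsto (fun n => y (k + 3) n - y k n) atTop (𝓝 0) := by
    intro k
    have t1 := hy (k + 2)
    have t2 := hy (k + 1)
    have t := t1.sub t2
    rw [sub_zero] at t
    refine t.congr fun n => ?_
    rw [show k + 2 + 1 = k + 3 by ring, show k + 2 - 1 = k + 1 by ring,
      show k + 1 + 1 = k + 2 by ring, show k + 1 - 1 = k by ring]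
    ring
  have perm : ∀ (m : ℕ) (k : ℤ), Tendsto (fun n => y (k + 3 * m) n - y k n) atTop (𝓝 0) := by
    intro m
    induction m with
    | zero => intro k; simp
    | succ m ih =>
      intro k
      have t := (per (k + 3 * m)).add (ih k)
      rw [add_zero] at t
      refine t.congr fun n => ?_
      rw [show k + 3 * ((m + 1 : ℕ) : ℤ) = k + 3 * (m : ℤ) + 3 by push_cast; ring]
      ring
  induction L with
  | zero => simp
  | succ L ih =>
    have t1 := perm (2 * L) 2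
    have t2 := perm (2 * L + 1) 1
    have t3 := perm (2 * L + 2) 0
    have t4 := hy 1
    have t := (ih.add ((t3.const_mul 2).sub (t1.add t2))).sub t4
    simp only [mul_zero, add_zero, sub_zero] at t
    refine t.congr fun n => ?_
    rw [show 3 * (L + 1) = 3 * L + 1 + 1 + 1 by ring, Finset.sum_Icc_succ_top (by omega),
      Finset.sum_Icc_succ_top (by omega), Finset.sum_Icc_succ_top (by omega)]
    have s1 : e3 (3 * L + 1) = -1 := by unfold e3; rw [if_neg (by omega)]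
    have s2 : e3 (3 * L + 1 + 1) = -1 := by unfold e3; rw [if_neg (by omega)]
    have s3 : e3 (3 * L + 1 + 1 + 1) = 2 := by unfold e3; rw [if_pos (by omega)]
    rw [s1, s2, s3]
    have r1 : (2 : ℤ) * ((3 * L + 1 : ℕ) : ℤ) = 2 + 3 * ((2 * L : ℕ) : ℤ) := by push_cast; ring
    have r2 : (2 : ℤ) * ((3 * L + 1 + 1 : ℕ) : ℤ) = 1 + 3 * ((2 * L + 1 : ℕ) : ℤ) := by
      push_cast; ring
    have r3 : (2 : ℤ) * ((3 * L + 1 + 1 + 1 : ℕ) : ℤ) = 0 + 3 * ((2 * L + 2 : ℕ) : ℤ) := by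
      push_cast; ring
    rw [r1, r2, r3, show (1 : ℤ) + 1 = 2 by norm_num, show (1 : ℤ) - 1 = 0 by norm_num]
    push_cast
    ring

/-- the test functions -/
def FL (w : ℤ → ℕ → ℂ → ℂ) (L : ℕ) (i j : ℤ) (n : ℕ) (z : ℂ) : ℂ :=
  ((3 * L : ℂ))⁻¹ * ∑ k ∈ Finset.Icc 1 (3 * L), e3 k * (w (i + 2 * k) n z * w (j - 2 * k) n z)

/-- the third order moments in terms of the test functions -/
lemma y3_FL (H : AG B a h w M) (hB : IsOpen B) {s : ℕ → ℝ}
    (hs : ∀ k, LB B 2 (fun n z => (s n : ℂ) * w k n z)) {φ : ℂ → ℝ} (hφ : TF B φ) (i j k : ℤ)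
    {L : ℕ} (hL : 0 < L) :
    Tendsto (fun n => (∫ z, (φ z : ℂ) * (FL w L i j n z * ((s n : ℂ) * w k n z))) -
      y3 w s φ i j k n) atTop (𝓝 0) := by
  have t := (three_sum (y := fun m n => y3 w s φ (i + m) (j - m) k n) (fun m => by
    have := y3_three H hB hs hφ (i + m) (j - m) k
    refine this.congr fun n => ?_
    rw [show i + m + 1 = i + (m + 1) by ring, show j - m - 1 = j - (m + 1) by ring,
      show i + m - 1 = i + (m - 1) by ring, show j - m + 1 = j - (m - 1) by ring]) L).const_mul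
      ((3 * L : ℂ))⁻¹
  rw [mul_zero] at t
  refine t.congr fun n => ?_
  have hL' : (3 * L : ℂ) ≠ 0 := by
    have : (L : ℂ) ≠ 0 := by exact_mod_cast hL.ne'
    exact mul_ne_zero (by norm_num) this
  have e1 : ∫ z, (φ z : ℂ) * (FL w L i j n z * ((s n : ℂ) * w k n z)) = ((3 * L : ℂ))⁻¹ *
      ∑ m ∈ Finset.Icc 1 (3 * L), e3 m * y3 w s φ (i + 2 * m) (j - 2 * m) k n := by
    unfold y3 FL
    simp only [← integral_const_mul]
    rw [← integral_finsetSum _ fun m _ => ((y3_int H (s := s) hφ _ _ _ n).const_mul _),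
      ← integral_const_mul]
    congr 1; funext z
    rw [Finset.mul_sum, Finset.sum_mul, Finset.mul_sum, Finset.mul_sum]
    refine Finset.sum_congr rfl fun m _ => ?_
    ring
  rw [e1, mul_sub]
  simp only [add_zero, sub_zero]
  rw [← mul_assoc, inv_mul_cancel₀ hL', one_mul]

end

end Pool.Agent.TH294.RG
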