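import Pool.Agent.TH294.RG.Th1

/-!
Project RG (helper294): third order moments, smallness of the test functions.
-/

set_option autoImplicit false
open MeasureTheory Filter Topology Complex ProbabilityTheory
open scoped ContDiff

namespace Pool.Agent.TH294.RG

open Pool.Agent.W745.RW Pool.Agent.TH294.RS

noncomputable section

variable {m : ℂ → ℝ} {ν : Kernel ℂ ℝ} {M : ℕ → ℂ → ℂ}

lemma ww_cj (a : ℂ → ℝ) (h : ℕ → ℝ) {u : ℕ → ℂ → ℂ}
    (hu : ∀ n z, (starRingEnd ℂ) (u n z) = u n z) (k : ℤ) (n : ℕ) (z : ℂ) :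
    (starRingEnd ℂ) (ww a h u k n z) = sg k * ww a h u (-k) n z := by
  have hs : ∀ m : ℕ, ((-1 : ℂ) ^ m) * (-1) ^ m = 1 := by
    intro m; rw [← mul_pow]; simp
  unfold sg
  rcases Int.eq_nat_or_neg k with ⟨m, rfl | rfl⟩
  · rw [ww_neg hu, ww_nat, Int.natAbs_natCast, ← mul_assoc, hs, one_mul]
  · rw [neg_neg, ww_nat, Int.natAbs_neg, Int.natAbs_natCast, ww_neg hu, map_mul,
      conj_conj, map_pow, map_neg, map_one]

lemma sum_dbl1 {f : ℕ → ℝ} (hf : ∀ p, 0 ≤ f p) (N : ℕ) :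
    ∑ k ∈ Finset.Icc 1 N, f (2 * k) ≤ ∑ p ∈ Finset.Icc 1 (2 * N), f p := by
  induction N with
  | zero => simp
  | succ N ih =>
    rw [Finset.sum_Icc_succ_top (by omega), show 2 * (N + 1) = 2 * N + 1 + 1 by ring,
      Finset.sum_Icc_succ_top (by omega), Finset.sum_Icc_succ_top (by omega)]
    have := hf (2 * N + 1)
    linarith

lemma sum_dbl2 {g : ℕ → ℕ → ℝ} (hg : ∀ p q, 0 ≤ g p q) (N : ℕ) :
    ∑ k ∈ Finset.Icc 1 N, ∑ l ∈ Finset.Icc 1 N, g (2 * k) (2 * l) ≤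
      ∑ p ∈ Finset.Icc 1 (2 * N), ∑ q ∈ Finset.Icc 1 (2 * N), g p q := by
  refine (Finset.sum_le_sum fun k _ => sum_dbl1 (f := g (2 * k)) (fun q => hg _ q) N).trans ?_
  exact sum_dbl1 (f := fun p => ∑ q ∈ Finset.Icc 1 (2 * N), g p q)
    (fun p => Finset.sum_nonneg fun q _ => hg p q) N

lemma ss_fK {B : Set ℂ} (hml : ∀ k, ML B (M k)) {φ : ℂ → ℝ}
    (hφ : TF B φ) (j i : ℕ) :
    ∫ z, φ z * ss M j i z = fK M φ ((j : ℤ) - i) + fK M φ ((j : ℤ) + i) := by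
  unfold fK ss
  by_cases hji : Even (j + i)
  · have p1 : Even ((j : ℤ) + i) := by exact_mod_cast hji
    have p2 : Even ((j : ℤ) - i) := by rw [Int.even_sub]; exact Int.even_add.1 p1
    simp only [if_pos hji, if_pos p1, if_pos p2]
    rw [← integral_add ((hml _).n2 hφ) ((hml _).n2 hφ)]
    congr 1; funext z
    rw [show ((j : ℤ) + i).natAbs = j + i by omega]
    ring
  · have p1 : ¬ Even ((j : ℤ) + i) := by intro h; apply hji; exact_mod_cast h
    have p2 : ¬ Even ((j : ℤ) - i) := by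
      intro h; apply p1; rw [Int.even_sub] at h; exact Int.even_add.2 h
    simp only [if_neg hji, if_neg p1, if_neg p2]
    simp

/-- the normalised coefficients -/
def al (L k : ℕ) : ℂ := ((3 * L : ℂ))⁻¹ * e3 k

lemma e3_sum (L : ℕ) : ∑ k ∈ Finset.Icc 1 (3 * L), e3 k = 0 := by
  induction L with
  | zero => simp
  | succ L ih =>
    rw [show 3 * (L + 1) = 3 * L + 1 + 1 + 1 by ring, Finset.sum_Icc_succ_top (by omega),
      Finset.sum_Icc_succ_top (by omega), Finset.sum_Icc_succ_top (by omega), ih]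
    have s1 : e3 (3 * L + 1) = -1 := by unfold e3; rw [if_neg (by omega)]
    have s2 : e3 (3 * L + 1 + 1) = -1 := by unfold e3; rw [if_neg (by omega)]
    have s3 : e3 (3 * L + 1 + 1 + 1) = 2 := by unfold e3; rw [if_pos (by omega)]
    rw [s1, s2, s3]; norm_num

lemma al_sum (L : ℕ) : ∑ k ∈ Finset.Icc 1 (3 * L), al L k = 0 := by
  unfold al
  rw [← Finset.mul_sum, e3_sum, mul_zero]

lemma al_norm (L k : ℕ) : ‖al L k‖ ≤ 2 / (3 * L) := by
  unfold al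
  have h1 : ‖e3 k‖ ≤ 2 := by
    unfold e3
    split_ifs <;> simp
  have h2 : ‖((3 * L : ℂ))⁻¹‖ = ((3 * L : ℝ))⁻¹ := by
    rw [norm_inv, norm_mul]; simp
  rw [norm_mul, h2, div_eq_inv_mul]
  exact mul_le_mul_of_nonneg_left h1 (by positivity)

lemma al_real (L k : ℕ) : (starRingEnd ℂ) (al L k) = al L k := by
  have c3 : (starRingEnd ℂ) (3 : ℂ) = 3 := map_ofNat _ 3
  have c2 : (starRingEnd ℂ) (2 : ℂ) = 2 := map_ofNat _ 2
  unfold al e3
  split_ifs <;> simp [c3, c2]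

lemma cc_sh (i j k : ℤ) (z : ℂ) : cc M (i + 2 * k) (j - 2 * k) z = cc M i j z := by
  unfold cc
  have h1 : ((-1 : ℂ)) ^ (i + 2 * k).natAbs = (-1) ^ i.natAbs := by
    have := sg_add i (2 * k)
    rw [sg_even (k := 2 * k) ⟨k, by ring⟩, mul_one] at this
    exact this
  rw [show i + 2 * k + (j - 2 * k) = i + j by ring, h1]

/-- the Gaussian part of the second moment of the test functions -/
theorem gsum {B : Set ℂ} (hml : ∀ k, ML B (M k)) {φ : ℂ → ℝ} (hφ : TF B φ)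
    (hφ0 : ∀ z, 0 ≤ φ z) {A : ℝ} (hA : ∀ K, fK M φ K ≤ A) (i j : ℤ) {L : ℕ} (hL : 0 < L) :
    ‖∑ k ∈ Finset.Icc 1 (3 * L), ∑ l ∈ Finset.Icc 1 (3 * L), (sg i * sg j * (al L k * al L l)) *
      ∫ z, (φ z : ℂ) * GG' M (i + 2 * k) (j - 2 * k) (-i - 2 * l) (-j + 2 * l) z‖ ≤
      16 * ((((6 * L : ℕ) : ℝ) ^ 2)⁻¹ * (∑ p ∈ Finset.Icc 1 (6 * L), ∑ q ∈ Finset.Icc 1 (6 * L),
        ∫ z, φ z * ss M p q z)) + 16 * (|((i - j : ℤ) : ℝ)| * A) * (((6 * L : ℕ) : ℝ))⁻¹ := by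
  have mm := fun (a b c d : ℤ) => TF.intK hφ
    ((ML.cc hml a b).mulint (ML.cc hml c d) hφ.2.1 hφ.2.2)
  have f0 := fun K => fK_nn (M := M) hφ0 K
  have split : ∀ k l : ℕ, ∫ z, (φ z : ℂ) * GG' M (i + 2 * k) (j - 2 * k) (-i - 2 * l) (-j + 2 * l) z
      = (∫ z, (φ z : ℂ) * (cc M i j z * cc M (-i) (-j) z)) +
      ((∫ z, (φ z : ℂ) * (cc M (i + 2 * k) (-i - 2 * l) z * cc M (j - 2 * k) (-j + 2 * l) z)) +
      ∫ z, (φ z : ℂ) * (cc M (i + 2 * k) (-j + 2 * l) z * cc M (j - 2 * k) (-i - 2 * l) z)) := by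
    intro k l
    have i23 : Integrable (fun z => (φ z : ℂ) * (cc M (i + 2 * k) (-i - 2 * l) z *
        cc M (j - 2 * k) (-j + 2 * l) z) + (φ z : ℂ) * (cc M (i + 2 * k) (-j + 2 * l) z *
        cc M (j - 2 * k) (-i - 2 * l) z)) := (mm _ _ _ _).add (mm _ _ _ _)
    rw [← integral_add (mm _ _ _ _) (mm _ _ _ _), ← integral_add (mm _ _ _ _) i23]
    congr 1; funext z
    have e1 := cc_sh (M := M) i j k z
    have e2 := cc_sh (M := M) (-i) (-j) (-l) z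
    rw [show -i + 2 * -(l : ℤ) = -i - 2 * l by ring, show -j - 2 * -(l : ℤ) = -j + 2 * l by ring]
      at e2
    simp only [GG']
    rw [e1, e2]; ring
  simp only [split, mul_add, Finset.sum_add_distrib]
  have z0 : ∑ k ∈ Finset.Icc 1 (3 * L), ∑ l ∈ Finset.Icc 1 (3 * L),
      (sg i * sg j * (al L k * al L l)) * ∫ z, (φ z : ℂ) * (cc M i j z * cc M (-i) (-j) z) = 0 := by
    have e : ∀ k ∈ Finset.Icc 1 (3 * L), ∑ l ∈ Finset.Icc 1 (3 * L),
        (sg i * sg j * (al L k * al L l)) * (∫ z, (φ z : ℂ) * (cc M i j z * cc M (-i) (-j) z)) =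
        0 := by
      intro k _
      have : ∀ l, (sg i * sg j * (al L k * al L l)) *
          (∫ z, (φ z : ℂ) * (cc M i j z * cc M (-i) (-j) z)) =
          (sg i * sg j * al L k * (∫ z, (φ z : ℂ) * (cc M i j z * cc M (-i) (-j) z))) * al L l :=
        fun l => by ring
      simp only [this]
      rw [← Finset.mul_sum, al_sum, mul_zero]
    exact Finset.sum_eq_zero e
  rw [z0, zero_add, ← Finset.sum_add_distrib]
  simp only [← Finset.sum_add_distrib, ← mul_add]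
  have b1 : ∀ k l : ℕ, ‖(sg i * sg j * (al L k * al L l)) *
      ((∫ z, (φ z : ℂ) * (cc M (i + 2 * k) (-i - 2 * l) z * cc M (j - 2 * k) (-j + 2 * l) z)) +
      ∫ z, (φ z : ℂ) * (cc M (i + 2 * k) (-j + 2 * l) z * cc M (j - 2 * k) (-i - 2 * l) z))‖ ≤
      (2 / (3 * L)) ^ 2 * (fK M φ (((2 * k : ℕ) : ℤ) - ((2 * l : ℕ) : ℤ)) +
        fK M φ (((2 * k : ℕ) : ℤ) + (i - j) + ((2 * l : ℕ) : ℤ))) := by
    intro k l
    rw [norm_mul, norm_mul, norm_mul, sg_norm, sg_norm, one_mul, one_mul, norm_mul, sq]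
    refine mul_le_mul (mul_le_mul (al_norm L k) (al_norm L l) (norm_nonneg _) (by positivity)) ?_
      (norm_nonneg _) (by positivity)
    refine (norm_add_le _ _).trans (add_le_add
      ((cross_bd hml hφ hφ0 _ _ _ _).trans (le_of_eq ?_))
      ((cross_bd hml hφ hφ0 _ _ _ _).trans (le_of_eq ?_)))
    · rw [show i + 2 * (k : ℤ) + (-i - 2 * l) = ((2 * k : ℕ) : ℤ) - ((2 * l : ℕ) : ℤ) by
          push_cast; ring,
        show j - 2 * (k : ℤ) + (-j + 2 * l) = -(((2 * k : ℕ) : ℤ) - ((2 * l : ℕ) : ℤ)) by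
          push_cast; ring, fK_neg]
      ring
    · rw [show i + 2 * (k : ℤ) + (-j + 2 * l) = ((2 * k : ℕ) : ℤ) + (i - j) + ((2 * l : ℕ) : ℤ) by
          push_cast; ring,
        show j - 2 * (k : ℤ) + (-i - 2 * l) = -(((2 * k : ℕ) : ℤ) + (i - j) + ((2 * l : ℕ) : ℤ)) by
          push_cast; ring, fK_neg]
      ring
  refine (norm_sum_le _ _).trans ?_
  refine (Finset.sum_le_sum fun k _ => (norm_sum_le _ _).trans
    (Finset.sum_le_sum fun l _ => b1 k l)).trans ?_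
  simp only [← Finset.mul_sum]
  have d := sum_dbl2 (g := fun p q => fK M φ ((p : ℤ) - (q : ℤ)) +
    fK M φ ((p : ℤ) + (i - j) + (q : ℤ))) (fun p q => add_nonneg (f0 _) (f0 _)) (3 * L)
  rw [show 2 * (3 * L) = 6 * L by ring] at d
  have T2 : ∑ p ∈ Finset.Icc 1 (6 * L), ∑ q ∈ Finset.Icc 1 (6 * L),
      fK M φ ((p : ℤ) + (i - j) + q) ≤
      (∑ p ∈ Finset.Icc 1 (6 * L), ∑ q ∈ Finset.Icc 1 (6 * L), fK M φ ((p : ℤ) + q)) +
        (6 * L : ℕ) * (|((i - j : ℤ) : ℝ)| * A) := by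
    rw [Finset.sum_comm, Finset.sum_comm (f := fun p q : ℕ => fK M φ ((p : ℤ) + q))]
    have sh : ∀ q : ℕ, ∑ p ∈ Finset.Icc 1 (6 * L), fK M φ ((p : ℤ) + (i - j) + q) ≤
        (∑ p ∈ Finset.Icc 1 (6 * L), fK M φ ((p : ℤ) + q)) + |((i - j : ℤ) : ℝ)| * A := fun q =>
      shiftq (i - j) (fun K => fK M φ (K + q)) (fun _ => f0 _) (fun _ => hA _) (6 * L)
    refine (Finset.sum_le_sum fun q _ => sh q).trans ?_
    rw [Finset.sum_add_distrib, Finset.sum_const, Nat.card_Icc, Nat.add_sub_cancel, nsmul_eq_mul]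
  simp only [ss_fK hml hφ, Finset.sum_add_distrib] at d ⊢
  have hL' : (0 : ℝ) < L := by exact_mod_cast hL
  have c0 : (2 / (3 * (L : ℝ))) ^ 2 = 16 * (((6 * L : ℕ) : ℝ) ^ 2)⁻¹ := by
    push_cast; field_simp; ring
  rw [c0]
  have c1 : (((6 * L : ℕ) : ℝ))⁻¹ = ((((6 * L : ℕ) : ℝ)) ^ 2)⁻¹ * ((6 * L : ℕ) : ℝ) := by
    push_cast; field_simp
  rw [c1]
  have c2 : 0 ≤ 16 * (((6 * L : ℕ) : ℝ) ^ 2)⁻¹ := by positivity
  have fin := mul_le_mul_of_nonneg_left (d.trans (add_le_add_right T2 _)) c2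
  refine fin.trans (le_of_eq ?_)
  ring

lemma gsum_small [IsMarkovKernel ν] {B : Set ℂ} (hB : IsOpen B)
    (hm : ∀ K : Set ℂ, IsCompact K → K ⊆ B → MemLp m 2 (volume.restrict K))
    (hp : ∀ᵐ z ∂(volume.restrict B), par ea (ν z) = 0) {φ : ℂ → ℝ} (hφ : TF B φ)
    (hφ0 : ∀ z, 0 ≤ φ z) (i j : ℤ) {ε : ℝ} (hε : 0 < ε) : ∃ L : ℕ, 0 < L ∧
    ‖∑ k ∈ Finset.Icc 1 (3 * L), ∑ l ∈ Finset.Icc 1 (3 * L), (sg i * sg j * (al L k * al L l)) *
      ∫ z, (φ z : ℂ) * GG' (MM m ea ν) (i + 2 * k) (j - 2 * k) (-i - 2 * l) (-j + 2 * l) z‖ ≤ ε := by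
  have t1 := SN0 (ν := ν) hB hm hp hφ
  have t6 : Tendsto (fun L : ℕ => 6 * L) atTop atTop :=
    tendsto_id.const_mul_atTop' (by norm_num)
  have t2 := (t1.comp t6).const_mul 16
  have t3 := (tendsto_inv_atTop_nhds_zero_nat (𝕜 := ℝ)).comp t6
  have t4 := t3.const_mul (16 * (|((i - j : ℤ) : ℝ)| * ∫ z, φ z * (m z * m z)))
  have t5 := t2.add t4
  simp only [mul_zero, add_zero] at t5
  obtain ⟨L, hL, hL1⟩ := ((t5.eventually (gt_mem_nhds hε)).and (eventually_gt_atTop 0)).exists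
  refine ⟨L, hL1, ?_⟩
  exact (gsum (fun k => MM_ml ea_meas ea_norm hm k) hφ hφ0
    (fun K => fK_MM (ν := ν) hm hφ hφ0 K) i j hL1).trans hL.le

/-- **The test functions are small.** -/
theorem FL_small [IsMarkovKernel ν] {Ω : Set ℂ}
    (hm : ∀ K : Set ℂ, IsCompact K → K ⊆ Ω → MemLp m 2 (volume.restrict K))
    (hp : ∀ᵐ z ∂(volume.restrict Ω), par ea (ν z) = 0) {a : ℂ → ℝ} {h : ℕ → ℝ} {u : ℕ → ℂ → ℝ}
    (H : RawG Ω a h u (MM m ea ν)) {K : Set ℂ} (hK : IsCompact K) (hKΩ : K ⊆ Ω)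
    {φ : ℂ → ℝ} (hφ : TF (interior K) φ) (hφ0 : ∀ z, 0 ≤ φ z) (i j : ℤ) {ε : ℝ} (hε : 0 < ε) :
    ∃ L : ℕ, 0 < L ∧ ∀ᶠ n in atTop,
      ∫ z, φ z * ‖FL (ww a h (fun n z => (u n z : ℂ))) L i j n z‖ ^ 2 ≤
        ε * (1 + ∫ z in K, u n z ^ 4) := by
  have hB : IsOpen (interior K) := isOpen_interior
  have hBΩ : interior K ⊆ Ω := interior_subset.trans hKΩ
  have hmB : ∀ K' : Set ℂ, IsCompact K' → K' ⊆ interior K → MemLp m 2 (volume.restrict K') :=
    fun K' hK' hKB => hm K' hK' (hKB.trans hBΩ)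
  have hpB : ∀ᵐ z ∂(volume.restrict (interior K)), par ea (ν z) = 0 :=
    ae_restrict_of_ae_restrict_of_subset hBΩ hp
  obtain ⟨L, hL, hL'⟩ := gsum_small (ν := ν) hB hmB hpB hφ hφ0 i j (show 0 < ε / 2 by positivity)
  refine ⟨L, hL, ?_⟩
  have key := fam_rel hm hp H hK hKΩ hφ hφ0
    (Finset.Icc 1 (3 * L) ×ˢ Finset.Icc 1 (3 * L))
    (fun p : ℕ × ℕ => sg i * sg j * (al L p.1 * al L p.2))
    (fun p : ℕ × ℕ => ((i + 2 * p.1, j - 2 * p.1, -i - 2 * p.2, -j + 2 * p.2) : ℤ × ℤ × ℤ × ℤ))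
    (C := 0) (fun ζ _ => by
      have e2 : ∀ p : ℕ × ℕ, ep2 (i + 2 * p.1) (j - 2 * p.1) (-i - 2 * p.2) (-j + 2 * p.2) =
          ep2 i j (-i) (-j) := by
        intro p
        unfold ep2 eps
        have q1 : i + 2 * (p.1 : ℤ) + (j - 2 * p.1) + (-i - 2 * p.2) + (-j + 2 * p.2) =
          i + j + -i + -j := by ring
        rw [q1]
        have r1 : (i + 2 * (p.1 : ℤ)) % 2 = i % 2 := by omega
        have r2 : (j - 2 * (p.1 : ℤ)) % 2 = j % 2 := by omega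
        have r3 : (-i - 2 * (p.2 : ℤ)) % 2 = (-i) % 2 := by omega
        have r4 : (-j + 2 * (p.2 : ℤ)) % 2 = (-j) % 2 := by omega
        rw [r1, r2, r3, r4]
      have e3' : ∀ p : ℕ × ℕ, ζ ^ (i + 2 * (p.1 : ℤ) + (j - 2 * p.1) + (-i - 2 * p.2) +
          (-j + 2 * p.2)) = 1 := by
        intro p
        rw [show i + 2 * (p.1 : ℤ) + (j - 2 * p.1) + (-i - 2 * p.2) + (-j + 2 * p.2) = 0 by ring]
        exact zpow_zero ζ
      simp only [e2, e3', mul_one]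
      rw [Finset.sum_product]
      have e4 : ∀ k ∈ Finset.Icc 1 (3 * L), ∑ l ∈ Finset.Icc 1 (3 * L),
          sg i * sg j * (al L k * al L l) * ep2 i j (-i) (-j) = 0 := by
        intro k _
        have : ∀ l, sg i * sg j * (al L k * al L l) * ep2 i j (-i) (-j) =
          (sg i * sg j * al L k * ep2 i j (-i) (-j)) * al L l := fun l => by ring
        simp only [this]
        rw [← Finset.mul_sum, al_sum, mul_zero]
      rw [Finset.sum_eq_zero e4, norm_zero]) (show 0 < ε / 2 by positivity)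
  refine key.mono fun n hn => ?_
  simp only [Finset.sum_product, zero_mul, sub_zero, zero_add] at hn
  have T0 : 0 ≤ ∫ z in K, u n z ^ 4 := integral_nonneg fun z => by positivity
  -- the second moment
  have hu : ∀ n z, (starRingEnd ℂ) ((u n z : ℂ)) = (u n z : ℂ) := fun n z => conj_ofReal _
  have wc : ∀ k, ContinuousOn (ww a h (fun n z => (u n z : ℂ)) k n) (interior K) := fun k =>
    ((H.cmp hBΩ (σ := id) tendsto_id).lb2 hB k).co n
  have e1 : ∑ k ∈ Finset.Icc 1 (3 * L), ∑ l ∈ Finset.Icc 1 (3 * L),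
      (sg i * sg j * (al L k * al L l)) * (∫ z, (φ z : ℂ) *
      (W1 a (h n) (u n) (i + 2 * k) z * W1 a (h n) (u n) (j - 2 * k) z *
      W1 a (h n) (u n) (-i - 2 * l) z * W1 a (h n) (u n) (-j + 2 * l) z)) =
      ((∫ z, φ z * ‖FL (ww a h (fun n z => (u n z : ℂ))) L i j n z‖ ^ 2 : ℝ) : ℂ) := by
    simp only [W1_eq]
    have ii : ∀ k l : ℕ, Integrable (fun z => (sg i * sg j * (al L k * al L l)) *
        ((φ z : ℂ) * (ww a h (fun n z => (u n z : ℂ)) (i + 2 * k) n z *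
        ww a h (fun n z => (u n z : ℂ)) (j - 2 * k) n z *
        ww a h (fun n z => (u n z : ℂ)) (-i - 2 * l) n z *
        ww a h (fun n z => (u n z : ℂ)) (-j + 2 * l) n z))) := fun k l =>
      (TF.cint hφ ((((wc _).mul (wc _)).mul (wc _)).mul (wc _))).const_mul _
    simp only [← integral_const_mul]
    rw [sum2_int ii, ← integral_complex_ofReal]
    congr 1; funext z
    rw [show ((φ z * ‖FL (ww a h (fun n z => (u n z : ℂ))) L i j n z‖ ^ 2 : ℝ) : ℂ) =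
      (φ z : ℂ) * (FL (ww a h (fun n z => (u n z : ℂ))) L i j n z *
        (starRingEnd ℂ) (FL (ww a h (fun n z => (u n z : ℂ))) L i j n z)) by
        rw [Complex.mul_conj, Complex.normSq_eq_norm_sq]; push_cast; ring]
    have f1 : FL (ww a h (fun n z => (u n z : ℂ))) L i j n z = ∑ k ∈ Finset.Icc 1 (3 * L),
        al L k * (ww a h (fun n z => (u n z : ℂ)) (i + 2 * k) n z *
          ww a h (fun n z => (u n z : ℂ)) (j - 2 * k) n z) := by
      unfold FL al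
      rw [Finset.mul_sum]
      exact Finset.sum_congr rfl fun k _ => by ring
    have f2 : (starRingEnd ℂ) (FL (ww a h (fun n z => (u n z : ℂ))) L i j n z) =
        ∑ l ∈ Finset.Icc 1 (3 * L), (sg i * sg j) * (al L l *
          (ww a h (fun n z => (u n z : ℂ)) (-i - 2 * l) n z *
          ww a h (fun n z => (u n z : ℂ)) (-j + 2 * l) n z)) := by
      rw [f1, map_sum]
      refine Finset.sum_congr rfl fun l _ => ?_
      rw [map_mul, map_mul, al_real, ww_cj a h hu, ww_cj a h hu]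
      have s1 : sg (i + 2 * (l : ℤ)) = sg i := by
        rw [sg_add, sg_even (k := 2 * (l : ℤ)) ⟨l, by ring⟩, mul_one]
      have s2 : sg (j - 2 * (l : ℤ)) = sg j := by
        rw [sg_sub, sg_add, sg_even (k := 2 * (l : ℤ)) ⟨l, by ring⟩, mul_one]
      rw [s1, s2, show -(i + 2 * (l : ℤ)) = -i - 2 * l by ring,
        show -(j - 2 * (l : ℤ)) = -j + 2 * l by ring]
      ring
    rw [f2, f1, Finset.sum_mul, Finset.mul_sum]
    refine Finset.sum_congr rfl fun k _ => ?_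
    rw [Finset.mul_sum, Finset.mul_sum]
    refine Finset.sum_congr rfl fun l _ => ?_
    ring
  rw [e1] at hn
  have h1 := norm_sub_norm_le (((∫ z, φ z * ‖FL (ww a h (fun n z => (u n z : ℂ))) L i j n z‖ ^ 2 :
    ℝ) : ℂ)) (∑ k ∈ Finset.Icc 1 (3 * L), ∑ l ∈ Finset.Icc 1 (3 * L),
      (sg i * sg j * (al L k * al L l)) *
      ∫ z, (φ z : ℂ) * GG' (MM m ea ν) (i + 2 * k) (j - 2 * k) (-i - 2 * l) (-j + 2 * l) z)
  have h2 : (∫ z, φ z * ‖FL (ww a h (fun n z => (u n z : ℂ))) L i j n z‖ ^ 2) ≤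
      ‖((∫ z, φ z * ‖FL (ww a h (fun n z => (u n z : ℂ))) L i j n z‖ ^ 2 : ℝ) : ℂ)‖ := by
    rw [norm_real]; exact le_abs_self _
  have h3 : 0 ≤ ε / 2 * ∫ z in K, u n z ^ 4 := by positivity
  linarith

end

end Pool.Agent.TH294.RG
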