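import Pool.Agent.TH294.RG.Al

/-!
Project RG (helper294): fourth order moments of any total order along an ultrafilter.
-/

set_option autoImplicit false
open MeasureTheory Filter Topology Complex
open scoped ContDiff

namespace Pool.Agent.TH294.RG

open Pool.Agent.W745.RW Pool.Agent.TH294.RS

noncomputable section

variable {B : Set ℂ} {a : ℂ → ℝ} {h : ℕ → ℝ} {w : ℤ → ℕ → ℂ → ℂ} {M : ℕ → ℂ → ℂ}

lemma ul_ex (U : Ultrafilter ℕ) {x : ℕ → ℂ} {C : ℝ} (h : ∀ᶠ n in (U : Filter ℕ), ‖x n‖ ≤ C) :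
    ∃ L, Tendsto x U (𝓝 L) := by
  have h1 : ((U.map x : Ultrafilter ℂ) : Filter ℂ) ≤ 𝓟 (Metric.closedBall 0 C) := by
    rw [le_principal_iff, Ultrafilter.coe_map, mem_map]
    filter_upwards [h] with n hn
    simpa using hn
  obtain ⟨L, _, hL⟩ := (isCompact_closedBall (0 : ℂ) C).ultrafilter_le_nhds (U.map x) h1
  exact ⟨L, hL⟩

/-- the deviation from the Gaussian part -/
def DD (w : ℤ → ℕ → ℂ → ℂ) (M : ℕ → ℂ → ℂ) (φ : ℂ → ℝ) (i j k l : ℤ) (n : ℕ) : ℂ :=
  (∫ z, (φ z : ℂ) * F4 w i j k l n z) - ∫ z, (φ z : ℂ) * GG' M i j k l z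

theorem AG.dd (H : AG B a h w M) (hB : IsOpen B) {φ : ℂ → ℝ} (hφ : TF B φ) :
    (∀ i j k l, DD w M φ i j k l = DD w M φ j i k l) ∧
    (∀ i j k l, DD w M φ i j k l = DD w M φ i k j l) ∧
    (∀ i j k l, DD w M φ i j k l = DD w M φ i j l k) ∧
    (∀ i j k l, Null (fun n => DD w M φ (i+1) j k l n + DD w M φ i (j+1) k l n +
      DD w M φ i j (k+1) l n + DD w M φ i j k (l+1) n)) ∧
    (∀ i j k l, Null (fun n => DD w M φ (i-1) j k l n + DD w M φ i (j-1) k l n +
      DD w M φ i j (k-1) l n + DD w M φ i j k (l-1) n)) ∧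
    (∀ i j k l, Null (fun n => (DD w M φ i (j+1) k (l-1) n - DD w M φ i (j+1) (k-1) l n
      - DD w M φ (i+1) j k (l-1) n + DD w M φ (i+1) j (k-1) l n)
    - (DD w M φ i (j-1) k (l+1) n - DD w M φ i (j-1) (k+1) l n
      - DD w M φ (i-1) j k (l+1) n + DD w M φ (i-1) j (k+1) l n))) := by
  have hc : ∀ i j k l n, ContinuousOn (F4 w i j k l n) B := fun i j k l n =>
    ((((H.bd i).co n).mul ((H.bd j).co n)).mul ((H.bd k).co n)).mul ((H.bd l).co n)
  have I4 : ∀ i j k l n, Integrable (fun z => (φ z : ℂ) * F4 w i j k l n z) :=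
    fun i j k l n => TF.cint hφ (hc i j k l n)
  have J4 := H.gi hφ
  refine ⟨fun i j k l => by
      unfold DD
      ext n
      simp only [GG12' M i j k l]
      congr 2; funext z; simp only [F4]; ring,
    fun i j k l => by
      unfold DD
      ext n
      simp only [GG23' M i j k l]
      congr 2; funext z; simp only [F4]; ring,
    fun i j k l => by
      unfold DD
      ext n
      simp only [GG34' M i j k l]
      congr 2; funext z; simp only [F4]; ring,
    fun i j k l => by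
      unfold DD
      have h1 := (H.tr hB i j k l).nul φ hφ
      have h2 : (∫ z, (φ z : ℂ) * GG' M (i + 1) j k l z) + (∫ z, (φ z : ℂ) * GG' M i (j + 1) k l z)
          + (∫ z, (φ z : ℂ) * GG' M i j (k + 1) l z) + ∫ z, (φ z : ℂ) * GG' M i j k (l + 1) z =
          0 := by
        rw [Pool.Agent.W450.RW.T.add4 (J4 _ _ _ _) (J4 _ _ _ _) (J4 _ _ _ _) (J4 _ _ _ _)]
        rw [← integral_zero ℂ ℂ]
        congr 1; funext z
        have := GGT M i j k l z
        linear_combination (φ z : ℂ) * this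
      refine h1.congr (fun n => ?_)
      have h3 : ∫ z, (φ z : ℂ) * (w (i + 1) n z * w j n z * w k n z * w l n z +
          w i n z * w (j + 1) n z * w k n z * w l n z +
          w i n z * w j n z * w (k + 1) n z * w l n z +
          w i n z * w j n z * w k n z * w (l + 1) n z) =
          (∫ z, (φ z : ℂ) * F4 w (i + 1) j k l n z) + (∫ z, (φ z : ℂ) * F4 w i (j + 1) k l n z) +
          (∫ z, (φ z : ℂ) * F4 w i j (k + 1) l n z) + ∫ z, (φ z : ℂ) * F4 w i j k (l + 1) n z := by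
        rw [Pool.Agent.W450.RW.T.add4 (I4 _ _ _ _ _) (I4 _ _ _ _ _) (I4 _ _ _ _ _)
          (I4 _ _ _ _ _)]
        congr 1; funext z; simp only [F4]; ring
      rw [h3]
      linear_combination h2,
    fun i j k l => by
      unfold DD
      have h1 := (H.tr' hB i j k l).nul φ hφ
      have h2 : (∫ z, (φ z : ℂ) * GG' M (i - 1) j k l z) + (∫ z, (φ z : ℂ) * GG' M i (j - 1) k l z)
          + (∫ z, (φ z : ℂ) * GG' M i j (k - 1) l z) + ∫ z, (φ z : ℂ) * GG' M i j k (l - 1) z =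
          0 := by
        rw [Pool.Agent.W450.RW.T.add4 (J4 _ _ _ _) (J4 _ _ _ _) (J4 _ _ _ _) (J4 _ _ _ _)]
        rw [← integral_zero ℂ ℂ]
        congr 1; funext z
        have := GGT' M i j k l z
        linear_combination (φ z : ℂ) * this
      refine h1.congr (fun n => ?_)
      have h3 : ∫ z, (φ z : ℂ) * (w (i - 1) n z * w j n z * w k n z * w l n z +
          w i n z * w (j - 1) n z * w k n z * w l n z +
          w i n z * w j n z * w (k - 1) n z * w l n z +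
          w i n z * w j n z * w k n z * w (l - 1) n z) =
          (∫ z, (φ z : ℂ) * F4 w (i - 1) j k l n z) + (∫ z, (φ z : ℂ) * F4 w i (j - 1) k l n z) +
          (∫ z, (φ z : ℂ) * F4 w i j (k - 1) l n z) + ∫ z, (φ z : ℂ) * F4 w i j k (l - 1) n z := by
        rw [Pool.Agent.W450.RW.T.add4 (I4 _ _ _ _ _) (I4 _ _ _ _ _) (I4 _ _ _ _ _)
          (I4 _ _ _ _ _)]
        congr 1; funext z; simp only [F4]; ring
      rw [h3]
      linear_combination h2,
    fun i j k l => by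
      unfold DD
      have h1 := (H.cross hB i j k l).lim φ hφ
      have i9 := Pool.Agent.W686.RW.X.int8 (J4 i (j + 1) k (l - 1)) (J4 i (j + 1) (k - 1) l)
        (J4 (i + 1) j k (l - 1)) (J4 (i + 1) j (k - 1) l)
        (J4 i (j - 1) k (l + 1)) (J4 i (j - 1) (k + 1) l)
        (J4 (i - 1) j k (l + 1)) (J4 (i - 1) j (k + 1) l)
      have m3 : ∫ z, (φ z : ℂ) * ((cc M i (j + 1) z - cc M (i + 1) j z) *
          (cc M k (l - 1) z - cc M (k - 1) l z) -
          (cc M i (j - 1) z - cc M (i - 1) j z) * (cc M k (l + 1) z - cc M (k + 1) l z)) =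
          ∫ z, (((φ z : ℂ) * GG' M i (j + 1) k (l - 1) z - (φ z : ℂ) * GG' M i (j + 1) (k - 1) l z
            - (φ z : ℂ) * GG' M (i + 1) j k (l - 1) z + (φ z : ℂ) * GG' M (i + 1) j (k - 1) l z)
          - ((φ z : ℂ) * GG' M i (j - 1) k (l + 1) z - (φ z : ℂ) * GG' M i (j - 1) (k + 1) l z
            - (φ z : ℂ) * GG' M (i - 1) j k (l + 1) z
            + (φ z : ℂ) * GG' M (i - 1) j (k + 1) l z)) := by
        congr 1; funext z
        rw [← GGX M i j k l z]; ring
      rw [m3, i9] at h1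
      have h4 := h1.sub_const (((∫ z, (φ z : ℂ) * GG' M i (j + 1) k (l - 1) z) -
        (∫ z, (φ z : ℂ) * GG' M i (j + 1) (k - 1) l z)
            - (∫ z, (φ z : ℂ) * GG' M (i + 1) j k (l - 1) z) +
            (∫ z, (φ z : ℂ) * GG' M (i + 1) j (k - 1) l z))
          - ((∫ z, (φ z : ℂ) * GG' M i (j - 1) k (l + 1) z) -
            (∫ z, (φ z : ℂ) * GG' M i (j - 1) (k + 1) l z)
            - (∫ z, (φ z : ℂ) * GG' M (i - 1) j k (l + 1) z)
            + (∫ z, (φ z : ℂ) * GG' M (i - 1) j (k + 1) l z)))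
      rw [sub_self] at h4
      refine h4.congr (fun n => ?_)
      have i9 := Pool.Agent.W686.RW.X.int8 (I4 i (j + 1) k (l - 1) n) (I4 i (j + 1) (k - 1) l n)
        (I4 (i + 1) j k (l - 1) n) (I4 (i + 1) j (k - 1) l n)
        (I4 i (j - 1) k (l + 1) n) (I4 i (j - 1) (k + 1) l n)
        (I4 (i - 1) j k (l + 1) n) (I4 (i - 1) j (k + 1) l n)
      have m2 : ∫ z, (φ z : ℂ) * (PP w i j n z * QQ w k l n z - QQ w i j n z * PP w k l n z) =
          ∫ z, (((φ z : ℂ) * F4 w i (j + 1) k (l - 1) n z - (φ z : ℂ) * F4 w i (j + 1) (k - 1) l n z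
            - (φ z : ℂ) * F4 w (i + 1) j k (l - 1) n z + (φ z : ℂ) * F4 w (i + 1) j (k - 1) l n z)
          - ((φ z : ℂ) * F4 w i (j - 1) k (l + 1) n z - (φ z : ℂ) * F4 w i (j - 1) (k + 1) l n z
            - (φ z : ℂ) * F4 w (i - 1) j k (l + 1) n z
            + (φ z : ℂ) * F4 w (i - 1) j (k + 1) l n z)) := by
        congr 1; funext z; simp only [F4, PP, QQ]; ring
      rw [m2, i9]
      ring⟩

lemma AG.bd4 (H : AG B a h w M) {φ : ℂ → ℝ} (hφ : TF B φ) (i j k l : ℤ) : ∃ C : ℝ,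
    ∀ᶠ n in atTop, ‖∫ z, (φ z : ℂ) * F4 w i j k l n z‖ ≤ C := by
  have l1 : LB B 1 (fun n z => (w i n z * w j n z) * (w k n z * w l n z)) :=
    ((H.bd i).mul4 (H.bd j)).mul2 ((H.bd k).mul4 (H.bd l))
  refine (l1.congr fun n z _ => ?_).bdd hφ
  simp only [F4]; ring

/-- fourth order moments along an ultrafilter -/
theorem AG.U4 (H : AG B a h w M) (hB : IsOpen B) {φ : ℂ → ℝ} (hφ : TF B φ) (U : Ultrafilter ℕ)
    (hU : (U : Filter ℕ) ≤ atTop) : ∃ x : ℤ → ℂ, ∀ i j k l,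
    Tendsto (fun n => ∫ z, (φ z : ℂ) * F4 w i j k l n z) U
      (𝓝 ((∫ z, (φ z : ℂ) * GG' M i j k l z) + ep2 i j k l * x (i + j + k + l))) := by
  have ex : ∀ i j k l, ∃ L, Tendsto (fun n => DD w M φ i j k l n) U (𝓝 L) := by
    intro i j k l
    obtain ⟨C, hC⟩ := H.bd4 hφ i j k l
    obtain ⟨L, hL⟩ := ul_ex U (hU hC)
    exact ⟨_, hL.sub_const _⟩
  choose D hD using ex
  obtain ⟨e1, e2, e3, n1, n2, n3⟩ := H.dd hB hφ
  have uq : ∀ {f : ℕ → ℂ} {L L' : ℂ}, Tendsto f U (𝓝 L) → Tendsto f U (𝓝 L') → L = L' :=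
    fun h1 h2 => tendsto_nhds_unique h1 h2
  have key := algS D
    (fun a b c d => uq (hD a b c d) (by rw [e1 a b c d]; exact hD b a c d))
    (fun a b c d => uq (hD a b c d) (by rw [e2 a b c d]; exact hD a c b d))
    (fun a b c d => uq (hD a b c d) (by rw [e3 a b c d]; exact hD a b d c))
    (fun a b c d => uq ((((hD _ _ _ _).add (hD _ _ _ _)).add (hD _ _ _ _)).add (hD _ _ _ _))
      (Tendsto.mono_left (n1 a b c d) hU))
    (fun a b c d => uq ((((hD _ _ _ _).add (hD _ _ _ _)).add (hD _ _ _ _)).add (hD _ _ _ _))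
      (Tendsto.mono_left (n2 a b c d) hU))
    (fun a b c d => uq (((((hD _ _ _ _).sub (hD _ _ _ _)).sub (hD _ _ _ _)).add
      (hD _ _ _ _)).sub ((((hD _ _ _ _).sub (hD _ _ _ _)).sub (hD _ _ _ _)).add (hD _ _ _ _)))
      (Tendsto.mono_left (n3 a b c d) hU))
  refine ⟨fun s => D s 0 0 0, fun i j k l => ?_⟩
  have h1 := (hD i j k l).const_add (∫ z, (φ z : ℂ) * GG' M i j k l z)
  rw [← key i j k l]
  refine h1.congr fun n => ?_
  simp only [DD]; ring

end

end Pool.Agent.TH294.RG
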