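import Pool.Agent.TH294.RS.DCL
import Pool.Agent.TH294.RS.Abs

/-!
Project RG (helper294): weak limits which are locally square integrable functions; the div-curl
lemma for them.
-/

set_option autoImplicit false
open MeasureTheory Filter Topology Complex
open scoped ContDiff ENNReal

namespace Pool.Agent.TH294.RG

open Pool.Agent.W745.RW Pool.Agent.TH294.RS

noncomputable section

/-- locally square integrable on `B` -/
def ML (B : Set ℂ) (g : ℂ → ℂ) : Prop :=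
  ∀ K : Set ℂ, IsCompact K → K ⊆ B → MemLp g 2 (volume.restrict K)

lemma ML.add {B : Set ℂ} {f g : ℂ → ℂ} (hf : ML B f) (hg : ML B g) : ML B (fun z => f z + g z) :=
  fun K hK hKB => (hf K hK hKB).add (hg K hK hKB)
lemma ML.sub {B : Set ℂ} {f g : ℂ → ℂ} (hf : ML B f) (hg : ML B g) : ML B (fun z => f z - g z) :=
  fun K hK hKB => (hf K hK hKB).sub (hg K hK hKB)
lemma ML.cmul {B : Set ℂ} {f : ℂ → ℂ} (hf : ML B f) (c : ℂ) : ML B (fun z => c * f z) :=
  fun K hK hKB => (hf K hK hKB).const_mul c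
lemma ML.neg {B : Set ℂ} {f : ℂ → ℂ} (hf : ML B f) : ML B (fun z => - f z) :=
  fun K hK hKB => (hf K hK hKB).neg
lemma ML.conj {B : Set ℂ} {f : ℂ → ℂ} (hf : ML B f) : ML B (fun z => (starRingEnd ℂ) (f z)) :=
  fun K hK hKB => (hf K hK hKB).star

lemma ML.smooth {B : Set ℂ} {f : ℂ → ℂ} (hf : ContinuousOn f B) : ML B f := by
  intro K hK hKB
  have : IsFiniteMeasure (volume.restrict K) := ⟨by
    rw [Measure.restrict_apply_univ]; exact hK.measure_lt_top⟩
  obtain ⟨C, hC⟩ := hK.exists_bound_of_continuousOn (hf.mono hKB)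
  exact MemLp.of_bound ((hf.mono hKB).aestronglyMeasurable hK.measurableSet) C
    ((ae_restrict_mem hK.measurableSet).mono fun z hz => hC z hz)

/-- integrability of products on compact sets -/
lemma ML.mulint {B : Set ℂ} {f g : ℂ → ℂ} (hf : ML B f) (hg : ML B g) {K : Set ℂ}
    (hK : IsCompact K) (hKB : K ⊆ B) : IntegrableOn (fun z => f z * g z) K :=
  (hf K hK hKB).integrable_mul (hg K hK hKB)

lemma TF.intK {B : Set ℂ} {φ : ℂ → ℝ} (hφ : TF B φ) {g : ℂ → ℂ}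
    (hg : IntegrableOn g (tsupport φ)) : Integrable (fun z => (φ z : ℂ) * g z) := by
  obtain ⟨C, hC⟩ := hφ.2.1.exists_bound_of_continuousOn hφ.1.continuous.continuousOn
  have h1 : IntegrableOn (fun z => (φ z : ℂ) * g z) (tsupport φ) := by
    refine Integrable.bdd_mul (c := C) hg
      ((continuous_ofReal.comp hφ.1.continuous).aestronglyMeasurable) ?_
    refine (ae_restrict_mem hφ.2.1.measurableSet).mono fun z hz => ?_
    rw [norm_real]; exact hC z hz
  rw [← integrableOn_iff_integrable_of_support_subset (s := tsupport φ)]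
  · exact h1
  · intro z hz
    apply subset_tsupport
    intro h0
    apply hz
    simp [h0]

lemma ML.tf {B : Set ℂ} {g : ℂ → ℂ} (hg : ML B g) {φ : ℂ → ℝ} (hφ : TF B φ) :
    Integrable (fun z => (φ z : ℂ) * g z) := by
  apply TF.intK hφ
  have := hg.mulint (ML.smooth (B := B) (f := fun _ => 1) continuousOn_const) hφ.2.1 hφ.2.2
  simpa using this

/-- weak convergence to a function -/
structure WG (B : Set ℂ) (f : ℕ → ℂ → ℂ) (g : ℂ → ℂ) : Prop where
  co : ∀ n, ContinuousOn (f n) B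
  lim : ∀ φ, TF B φ → Tendsto (fun n => ∫ z, (φ z : ℂ) * f n z) atTop
    (𝓝 (∫ z, (φ z : ℂ) * g z))

lemma WG.congr {B : Set ℂ} {f f' : ℕ → ℂ → ℂ} {g g' : ℂ → ℂ} (h : WG B f g)
    (e : ∀ n, ∀ z ∈ B, f' n z = f n z) (e' : ∀ z ∈ B, g' z = g z) : WG B f' g' := by
  refine ⟨fun n => (h.co n).congr (e n), fun φ hφ => ?_⟩
  have h1 : ∫ z, (φ z : ℂ) * g' z = ∫ z, (φ z : ℂ) * g z := by
    congr 1; funext z
    by_cases hz : z ∈ B
    · rw [e' z hz]
    · rw [TF.zero hφ hz]; simp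
  rw [h1]
  refine (h.lim φ hφ).congr fun n => ?_
  congr 1; funext z
  by_cases hz : z ∈ B
  · rw [e n z hz]
  · rw [TF.zero hφ hz]; simp

lemma WG.add {B : Set ℂ} {f f' : ℕ → ℂ → ℂ} {g g' : ℂ → ℂ} (h : WG B f g) (h' : WG B f' g')
    (hg : ML B g) (hg' : ML B g') : WG B (fun n z => f n z + f' n z) (fun z => g z + g' z) := by
  refine ⟨fun n => (h.co n).add (h'.co n), fun φ hφ => ?_⟩
  have e1 : ∫ z, (φ z : ℂ) * (g z + g' z) = (∫ z, (φ z : ℂ) * g z) + ∫ z, (φ z : ℂ) * g' z := by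
    rw [← integral_add (hg.tf hφ) (hg'.tf hφ)]
    congr 1; funext z; ring
  rw [e1]
  refine ((h.lim φ hφ).add (h'.lim φ hφ)).congr fun n => ?_
  rw [← integral_add (TF.cint hφ (h.co n)) (TF.cint hφ (h'.co n))]
  congr 1; funext z; ring

lemma WG.cmul {B : Set ℂ} {f : ℕ → ℂ → ℂ} {g : ℂ → ℂ} (h : WG B f g) (c : ℂ) :
    WG B (fun n z => c * f n z) (fun z => c * g z) := by
  refine ⟨fun n => continuousOn_const.mul (h.co n), fun φ hφ => ?_⟩
  have e1 : ∫ z, (φ z : ℂ) * (c * g z) = c * ∫ z, (φ z : ℂ) * g z := by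
    rw [← integral_const_mul]; congr 1; funext z; ring
  rw [e1]
  refine ((h.lim φ hφ).const_mul c).congr fun n => ?_
  rw [← integral_const_mul]
  congr 1; funext z; ring

lemma WG.sub {B : Set ℂ} {f f' : ℕ → ℂ → ℂ} {g g' : ℂ → ℂ} (h : WG B f g) (h' : WG B f' g')
    (hg : ML B g) (hg' : ML B g') : WG B (fun n z => f n z - f' n z) (fun z => g z - g' z) :=
  (h.add (h'.cmul (-1)) hg (hg'.cmul (-1))).congr (fun n z _ => by ring) (fun z _ => by ring)

lemma WG.conj {B : Set ℂ} {f : ℕ → ℂ → ℂ} {g : ℂ → ℂ} (h : WG B f g) :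
    WG B (fun n z => (starRingEnd ℂ) (f n z)) (fun z => (starRingEnd ℂ) (g z)) := by
  refine ⟨fun n => continuous_conj.comp_continuousOn (h.co n), fun φ hφ => ?_⟩
  have h1 := (Complex.continuous_conj.tendsto _).comp (h.lim φ hφ)
  have e : ∀ F : ℂ → ℂ, (starRingEnd ℂ) (∫ z, (φ z : ℂ) * F z) =
      ∫ z, (φ z : ℂ) * (starRingEnd ℂ) (F z) := by
    intro F
    rw [← integral_conj]
    congr 1; funext z
    rw [map_mul, conj_ofReal]
  rw [e] at h1
  refine Tendsto.congr (fun n => ?_) h1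
  exact e _

lemma WN.wg {B : Set ℂ} {f : ℕ → ℂ → ℂ} (h : WN B f) : WG B f (fun _ => 0) :=
  ⟨h.co, fun φ hφ => by
    have h1 : Tendsto (fun n => ∫ z, (φ z : ℂ) * f n z) atTop (𝓝 0) := h.nul φ hφ
    simpa using h1⟩

/-- approximation of square integrable functions -/
lemma dens {B K : Set ℂ} (hB : IsOpen B) (hK : IsCompact K) (hKB : K ⊆ B) : ∃ K1 : Set ℂ,
    IsCompact K1 ∧ K1 ⊆ B ∧ K ⊆ K1 ∧ ∀ F : ℂ → ℂ, MemLp F 2 volume → (∀ z, z ∉ K → F z = 0) →
    ∀ ε : ℝ, 0 < ε → ∃ θ1 θ2 : ℂ → ℝ, TF B θ1 ∧ TF B θ2 ∧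
      (∀ z, z ∉ K1 → F z - ((θ1 z : ℂ) + I * (θ2 z : ℂ)) = 0) ∧
      Integrable (fun z => ‖F z - ((θ1 z : ℂ) + I * (θ2 z : ℂ))‖ ^ 2) ∧
      ∫ z, ‖F z - ((θ1 z : ℂ) + I * (θ2 z : ℂ))‖ ^ 2 ≤ ε ^ 2 := by
  obtain ⟨χ, hχ, hχ1, hχ0, hχ2⟩ := exists_cut hB hK hKB
  refine ⟨K ∪ tsupport χ, hK.union hχ.2.1, Set.union_subset hKB hχ.2.2,
    Set.subset_union_left, fun F hF hF0 ε hε => ?_⟩
  obtain ⟨g, hg1, hg2, hg3⟩ := hF.exist_eLpNorm_sub_le (by simp) (by norm_num) hε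
  have sre : ContDiff ℝ ∞ (fun z => (g z).re) := reCLM.contDiff.comp hg2
  have sim : ContDiff ℝ ∞ (fun z => (g z).im) := imCLM.contDiff.comp hg2
  have tf : ∀ p : ℂ → ℝ, ContDiff ℝ ∞ p → TF B (fun z => χ z * p z) := fun p hp =>
    TF.mulc hB hχ hp.contDiffOn
  have e : ∀ z, F z - (((χ z * (g z).re : ℝ) : ℂ) + I * ((χ z * (g z).im : ℝ) : ℂ)) =
      (χ z : ℂ) * (F z - g z) := by
    intro z
    have h1 : (χ z : ℂ) * F z = F z := by
      by_cases hz : z ∈ K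
      · rw [hχ1 z hz]; simp
      · rw [hF0 z hz]; simp
    have h2 : g z = ((g z).re : ℂ) + I * ((g z).im : ℂ) := by
      rw [mul_comm]; exact (re_add_im _).symm
    rw [mul_sub, h1]
    conv_rhs => rw [h2]
    push_cast; ring
  have hm : MemLp (F - g) 2 volume := hF.sub (hg2.continuous.memLp_of_hasCompactSupport hg1)
  have i0 : Integrable (fun z => ‖F z - g z‖ ^ 2) := by
    have := hm.integrable_norm_pow (p := 2) (by norm_num)
    simpa using this
  have hle : ∀ z, ‖(χ z : ℂ) * (F z - g z)‖ ^ 2 ≤ ‖F z - g z‖ ^ 2 := by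
    intro z
    refine pow_le_pow_left₀ (norm_nonneg _) ?_ 2
    rw [norm_mul, norm_real, Real.norm_eq_abs, abs_of_nonneg (hχ0 z)]
    exact mul_le_of_le_one_left (norm_nonneg _) (hχ2 z)
  have i1 : Integrable (fun z => ‖(χ z : ℂ) * (F z - g z)‖ ^ 2) := by
    refine i0.mono' ?_ (ae_of_all _ fun z => ?_)
    · exact ((((continuous_ofReal.comp hχ.1.continuous).aestronglyMeasurable).mul
        (hm.aestronglyMeasurable)).norm.pow 2)
    · rw [Real.norm_eq_abs, abs_of_nonneg (by positivity)]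
      exact hle z
  refine ⟨fun z => χ z * (g z).re, fun z => χ z * (g z).im, tf _ sre, tf _ sim, ?_, ?_, ?_⟩
  · intro z hz
    have h1 : χ z = 0 := image_eq_zero_of_notMem_tsupport (fun h => hz (Or.inr h))
    have h2 : F z = 0 := hF0 z (fun h => hz (Or.inl h))
    simp [h1, h2]
  · simp only [e]; exact i1
  · simp only [e]
    refine (integral_mono i1 i0 hle).trans ?_
    have h1 := hm.eLpNorm_eq_integral_rpow_norm (by norm_num) (by norm_num)
    rw [h1] at hg3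
    simp only [ENNReal.toReal_ofNat, Real.rpow_two, Pi.sub_apply] at hg3
    have h0 : 0 ≤ ∫ z, ‖F z - g z‖ ^ 2 := integral_nonneg fun z => by positivity
    have h2 : (∫ z, ‖F z - g z‖ ^ 2) ^ (2 : ℝ)⁻¹ ≤ ε := (ENNReal.ofReal_le_ofReal_iff hε.le).1 hg3
    have h3 : ((∫ z, ‖F z - g z‖ ^ 2) ^ (2 : ℝ)⁻¹) ^ 2 = ∫ z, ‖F z - g z‖ ^ 2 := by
      rw [← Real.rpow_natCast, ← Real.rpow_mul h0]
      norm_num
    rw [← h3]
    exact pow_le_pow_left₀ (Real.rpow_nonneg h0 _) h2 2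

lemma pair_bd {K1 : Set ℂ} (hK1 : IsCompact K1) {E f : ℂ → ℂ}
    (hE : Integrable (fun z => ‖E z‖ ^ 2)) (E0 : ∀ z, z ∉ K1 → E z = 0)
    (hf : IntegrableOn (fun z => ‖f z‖ ^ 2) K1) {s C : ℝ} (hs : 0 < s)
    (b1 : ∫ z, ‖E z‖ ^ 2 ≤ s ^ 2) (b2 : ∫ z in K1, ‖f z‖ ^ 2 ≤ C) :
    ‖∫ z, E z * f z‖ ≤ s * (1 + C) := by
  have i1 : Integrable (K1.indicator (fun z => ‖f z‖ ^ 2)) :=
    (integrable_indicator_iff hK1.measurableSet).2 hf
  have h1 : ‖∫ z, E z * f z‖ ≤ ∫ z, (s⁻¹ * ‖E z‖ ^ 2 + s * K1.indicator (fun z => ‖f z‖ ^ 2) z) := by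
    refine norm_integral_le_of_norm_le ((hE.const_mul s⁻¹).add (i1.const_mul s))
      (ae_of_all _ fun z => ?_)
    by_cases hz : z ∈ K1
    · rw [Set.indicator_of_mem hz, norm_mul]
      have h2 : 0 ≤ s⁻¹ * (‖E z‖ - s * ‖f z‖) ^ 2 := by positivity
      have h3 : s⁻¹ * (‖E z‖ - s * ‖f z‖) ^ 2 =
          s⁻¹ * ‖E z‖ ^ 2 - 2 * (‖E z‖ * ‖f z‖) + s * ‖f z‖ ^ 2 := by
        field_simp
        ring
      have h4 : 0 ≤ s⁻¹ * ‖E z‖ ^ 2 := by positivity
      have h5 : 0 ≤ s * ‖f z‖ ^ 2 := by positivity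
      linarith
    · rw [Set.indicator_of_notMem hz, E0 z hz]
      simp
  refine h1.trans ?_
  rw [integral_add (hE.const_mul s⁻¹) (i1.const_mul s), integral_const_mul, integral_const_mul,
    integral_indicator hK1.measurableSet]
  have h2 : s⁻¹ * ∫ z, ‖E z‖ ^ 2 ≤ s := by
    rw [inv_mul_le_iff₀ hs]
    calc ∫ z, ‖E z‖ ^ 2 ≤ s ^ 2 := b1
      _ = s * s := by ring
  have h3 : s * ∫ z in K1, ‖f z‖ ^ 2 ≤ s * C := mul_le_mul_of_nonneg_left b2 hs.le
  linarith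

/-- weak convergence against locally square integrable functions -/
theorem WG.dens {B : Set ℂ} (hB : IsOpen B) {f : ℕ → ℂ → ℂ} {g p : ℂ → ℂ} (hf : LB B 2 f)
    (h : WG B f g) (hg : ML B g) (hp : ML B p) {φ : ℂ → ℝ} (hφ : TF B φ) :
    Tendsto (fun n => ∫ z, (φ z : ℂ) * (p z * f n z)) atTop
      (𝓝 (∫ z, (φ z : ℂ) * (p z * g z))) := by
  obtain ⟨K1, hK1, hK1B, hKK1, hd⟩ := RG.dens hB hφ.2.1 hφ.2.2
  obtain ⟨C, hC⟩ := hf.bd K1 hK1 hK1B
  set F : ℂ → ℂ := fun z => (φ z : ℂ) * p z with hFdef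
  have hF0 : ∀ z, z ∉ tsupport φ → F z = 0 := by
    intro z hz
    simp only [hFdef]
    rw [image_eq_zero_of_notMem_tsupport hz]; simp
  have hF : MemLp F 2 volume := by
    have h1 : MemLp F 2 (volume.restrict (tsupport φ)) := by
      obtain ⟨M, hM⟩ := hφ.2.1.exists_bound_of_continuousOn hφ.1.continuous.continuousOn
      refine (hp _ hφ.2.1 hφ.2.2).of_le_mul (c := M) ?_ ?_
      · exact ((continuous_ofReal.comp hφ.1.continuous).aestronglyMeasurable).mul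
          (hp _ hφ.2.1 hφ.2.2).aestronglyMeasurable
      · refine (ae_restrict_mem hφ.2.1.measurableSet).mono fun z hz => ?_
        simp only [hFdef]
        rw [norm_mul, norm_real]
        exact mul_le_mul_of_nonneg_right (hM z hz) (norm_nonneg _)
    rw [← memLp_indicator_iff_restrict hφ.2.1.measurableSet] at h1
    refine h1.congr_norm ?_ ?_ |> fun h => h
    · have h2 : (tsupport φ).indicator F = F := by
        rw [Set.indicator_eq_self]
        intro z hz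
        by_contra hcon
        exact hz (hF0 z hcon)
      rw [← h2]; exact h1.aestronglyMeasurable
    · refine ae_of_all _ fun z => ?_
      by_cases hz : z ∈ tsupport φ
      · rw [Set.indicator_of_mem hz]
      · rw [Set.indicator_of_notMem hz, hF0 z hz]
  set C2 : ℝ := ∫ z in K1, ‖g z‖ ^ 2 with hC2
  have ig2 : IntegrableOn (fun z => ‖g z‖ ^ 2) K1 :=
    (hg K1 hK1 hK1B).integrable_norm_pow (p := 2) (by norm_num)
  rw [Metric.tendsto_atTop]
  intro ε hε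
  obtain ⟨s, hs, hs1⟩ : ∃ s : ℝ, 0 < s ∧ s * (1 + |C|) + s * (1 + C2) < ε / 2 := by
    have hC20 : 0 ≤ C2 := integral_nonneg fun z => by positivity
    refine ⟨ε / (4 * (2 + |C| + C2)), by positivity, ?_⟩
    have h1 : 0 < 2 + |C| + C2 := by positivity
    have h2 : ε / (4 * (2 + |C| + C2)) * (1 + |C|) + ε / (4 * (2 + |C| + C2)) * (1 + C2) =
        ε / 4 := by
      field_simp
      ring
    rw [h2]; linarith
  obtain ⟨θ1, θ2, t1, t2, z0, ii, hb⟩ := hd F hF hF0 s hs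
  have lim1 : Tendsto (fun n => (∫ z, (θ1 z : ℂ) * f n z) + I * ∫ z, (θ2 z : ℂ) * f n z) atTop
      (𝓝 ((∫ z, (θ1 z : ℂ) * g z) + I * ∫ z, (θ2 z : ℂ) * g z)) :=
    (h.lim θ1 t1).add ((h.lim θ2 t2).const_mul I)
  have split : ∀ q : ℂ → ℂ, ML B q → ∫ z, (φ z : ℂ) * (p z * q z) =
      ((∫ z, (θ1 z : ℂ) * q z) + I * ∫ z, (θ2 z : ℂ) * q z) +
        ∫ z, (F z - ((θ1 z : ℂ) + I * (θ2 z : ℂ))) * q z := by
    intro q hq
    have j0 : Integrable (fun z => (φ z : ℂ) * (p z * q z)) :=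
      TF.intK hφ (hp.mulint hq hφ.2.1 hφ.2.2)
    have j1 := hq.tf t1
    have j2 := (hq.tf t2).const_mul I
    have j3 : Integrable (fun z => (F z - ((θ1 z : ℂ) + I * (θ2 z : ℂ))) * q z) := by
      refine ((j0.sub j1).sub j2).congr (ae_of_all _ fun z => ?_)
      simp only [Pi.sub_apply, hFdef]; ring
    have j12 : Integrable (fun z => (θ1 z : ℂ) * q z + I * ((θ2 z : ℂ) * q z)) := j1.add j2
    rw [← integral_const_mul, ← integral_add j1 j2, ← integral_add j12 j3]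
    congr 1; funext z
    simp only [hFdef]; ring
  have lim2 := Metric.tendsto_atTop.1 lim1 (ε / 2) (by positivity)
  obtain ⟨N1, hN1⟩ := lim2
  obtain ⟨N2, hN2⟩ := eventually_atTop.1 hC
  refine ⟨max N1 N2, fun n hn => ?_⟩
  have h1 := hN1 n ((le_max_left _ _).trans hn)
  have h2 := hN2 n ((le_max_right _ _).trans hn)
  have hfn : ML B (f n) := ML.smooth (hf.co n)
  rw [split (f n) hfn, split g hg, dist_eq_norm]
  rw [dist_eq_norm] at h1
  have hfi : IntegrableOn (fun z => ‖f n z‖ ^ 2) K1 :=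
    ((hf.copow n 2).mono hK1B).integrableOn_compact hK1
  have b1 := pair_bd hK1 ii z0 hfi hs hb (h2.trans (le_abs_self C))
  have b2 := pair_bd hK1 ii z0 ig2 hs hb (le_refl C2)
  set A1 := ((∫ z, (θ1 z : ℂ) * f n z) + I * ∫ z, (θ2 z : ℂ) * f n z)
  set A2 := ((∫ z, (θ1 z : ℂ) * g z) + I * ∫ z, (θ2 z : ℂ) * g z)
  set E1 := ∫ z, (F z - ((θ1 z : ℂ) + I * (θ2 z : ℂ))) * f n z
  set E2 := ∫ z, (F z - ((θ1 z : ℂ) + I * (θ2 z : ℂ))) * g z
  have e : A1 + E1 - (A2 + E2) = (A1 - A2) + (E1 - E2) := by ring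
  rw [e]
  have h3 := norm_add_le (A1 - A2) (E1 - E2)
  have h4 := norm_sub_le E1 E2
  linarith

lemma LB.comp {B : Set ℂ} {p : ℕ} {f : ℕ → ℂ → ℂ} (hf : LB B p f) {σ : ℕ → ℕ}
    (hσ : Tendsto σ atTop atTop) : LB B p (fun n => f (σ n)) :=
  ⟨fun n => hf.sm _, fun K hK hKB => by
    obtain ⟨C, hC⟩ := hf.bd K hK hKB
    exact ⟨C, hσ.eventually hC⟩⟩

lemma WG.wn {B : Set ℂ} {f : ℕ → ℂ → ℂ} {g : ℂ → ℂ} (h : WG B f g) {σ τ : ℕ → ℕ}
    (hσ : Tendsto σ atTop atTop) (hτ : Tendsto τ atTop atTop) :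
    WN B (fun n z => f (σ n) z - f (τ n) z) := by
  refine ⟨fun n => (h.co _).sub (h.co _), fun φ hφ => ?_⟩
  have h1 := ((h.lim φ hφ).comp hσ).sub ((h.lim φ hφ).comp hτ)
  rw [sub_self] at h1
  refine h1.congr fun n => ?_
  simp only [Function.comp_def]
  rw [← integral_sub (TF.cint hφ (h.co _)) (TF.cint hφ (h.co _))]
  congr 1; funext z; ring

/-- **The div-curl lemma with variable weak limits.** -/
theorem dcv {B : Set ℂ} (hB : IsOpen B) {P Q P' Q' : ℕ → ℂ → ℂ} (hP : LB B 2 P) (hQ : LB B 2 Q)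
    (hP' : LB B 2 P') (hQ' : LB B 2 Q') (hR : LB B 2 (fun n z => db (P n) z - dd (Q n) z))
    (hR' : LB B 2 (fun n z => db (P' n) z - dd (Q' n) z)) {p q p' q' : ℂ → ℂ}
    (wP : WG B P p) (wQ : WG B Q q) (wP' : WG B P' p') (wQ' : WG B Q' q')
    (mp : ML B p) (mq : ML B q) (mp' : ML B p') (mq' : ML B q') :
    WG B (fun n z => P n z * Q' n z - Q n z * P' n z) (fun z => p z * q' z - q z * p' z) := by
  refine ⟨fun n => ((hP.co n).mul (hQ'.co n)).sub ((hQ.co n).mul (hP'.co n)), fun φ hφ => ?_⟩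
  set X : ℕ → ℕ → ℂ := fun n m => ∫ z, (φ z : ℂ) *
    ((P n z - P m z) * Q' n z - (Q n z - Q m z) * P' n z) with hX
  -- the double limit
  have dbl : ∀ ε : ℝ, 0 < ε → ∃ N : ℕ, ∀ n m, N ≤ n → N ≤ m → ‖X n m‖ < ε := by
    intro ε hε
    by_contra hcon
    push Not at hcon
    choose σ τ hσ hτ hge using hcon
    have tσ : Tendsto σ atTop atTop := tendsto_atTop_mono hσ tendsto_id
    have tτ : Tendsto τ atTop atTop := tendsto_atTop_mono hτ tendsto_id
    have lP : LB B 2 (fun n z => P (σ n) z - P (τ n) z) := (LB.comp hP tσ).sub (LB.comp hP tτ)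
    have lQ : LB B 2 (fun n z => Q (σ n) z - Q (τ n) z) := (LB.comp hQ tσ).sub (LB.comp hQ tτ)
    have lR : LB B 2 (fun n z => db (fun z => P (σ n) z - P (τ n) z) z -
        dd (fun z => Q (σ n) z - Q (τ n) z) z) := by
      have l1 := (LB.comp hR tσ).sub (LB.comp hR tτ)
      refine l1.congr fun n z hz => ?_
      rw [db_sub (da hB (hP.sm _) hz) (da hB (hP.sm _) hz),
        dd_sub (da hB (hQ.sm _) hz) (da hB (hQ.sm _) hz)]
      ring
    have key := dcl0 hB lP lQ (LB.comp hP' tσ) (LB.comp hQ' tσ) lR (LB.comp hR' tσ)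
      (wP.wn tσ tτ) (wQ.wn tσ tτ)
    have h1 := key.nul φ hφ
    have h2 : ∀ᶠ n in atTop, ‖∫ z, (φ z : ℂ) * ((P (σ n) z - P (τ n) z) * Q' (σ n) z -
        (Q (σ n) z - Q (τ n) z) * P' (σ n) z)‖ < ε := by
      have := h1.norm
      rw [norm_zero] at this
      exact this.eventually (gt_mem_nhds hε)
    obtain ⟨n, hn⟩ := h2.exists
    exact absurd hn (not_lt.2 (hge n))
  -- the limits of the cross terms
  set V : ℕ → ℂ := fun m => ∫ z, (φ z : ℂ) * (P m z * q' z - Q m z * p' z) with hV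
  have cross : ∀ m, Tendsto (fun n => ∫ z, (φ z : ℂ) * (P m z * Q' n z - Q m z * P' n z)) atTop
      (𝓝 (V m)) := by
    intro m
    have mP : ML B (P m) := ML.smooth (hP.co m)
    have mQ : ML B (Q m) := ML.smooth (hQ.co m)
    have h1 := (wQ'.dens hB hQ' mq' mP hφ).sub (wP'.dens hB hP' mp' mQ hφ)
    have e : V m = (∫ z, (φ z : ℂ) * (P m z * q' z)) - ∫ z, (φ z : ℂ) * (Q m z * p' z) := by
      rw [← integral_sub (TF.intK hφ (mP.mulint mq' hφ.2.1 hφ.2.2))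
        (TF.intK hφ (mQ.mulint mp' hφ.2.1 hφ.2.2))]
      simp only [hV]
      congr 1; funext z; ring
    rw [e]
    refine h1.congr fun n => ?_
    have c1 : ContinuousOn (fun z => P m z * Q' n z) B := (hP.co m).mul (hQ'.co n)
    have c2 : ContinuousOn (fun z => Q m z * P' n z) B := (hQ.co m).mul (hP'.co n)
    rw [← integral_sub (TF.cint hφ c1) (TF.cint hφ c2)]
    congr 1; funext z; ring
  set L : ℂ := ∫ z, (φ z : ℂ) * (p z * q' z - q z * p' z) with hL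
  have limV : Tendsto V atTop (𝓝 L) := by
    have h1 := (wP.dens hB hP mp mq' hφ).sub (wQ.dens hB hQ mq mp' hφ)
    have e : L = (∫ z, (φ z : ℂ) * (q' z * p z)) - ∫ z, (φ z : ℂ) * (p' z * q z) := by
      rw [← integral_sub (TF.intK hφ (mq'.mulint mp hφ.2.1 hφ.2.2))
        (TF.intK hφ (mp'.mulint mq hφ.2.1 hφ.2.2))]
      simp only [hL]
      congr 1; funext z; ring
    rw [e]
    refine h1.congr fun n => ?_
    have mP : ML B (P n) := ML.smooth (hP.co n)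
    have mQ : ML B (Q n) := ML.smooth (hQ.co n)
    rw [← integral_sub (TF.intK hφ (mq'.mulint mP hφ.2.1 hφ.2.2))
        (TF.intK hφ (mp'.mulint mQ hφ.2.1 hφ.2.2))]
    congr 1; funext z; ring
  rw [Metric.tendsto_atTop]
  intro ε hε
  obtain ⟨N, hN⟩ := dbl (ε / 3) (by positivity)
  obtain ⟨M, hM⟩ := Metric.tendsto_atTop.1 limV (ε / 3) (by positivity)
  set m := max N M with hm
  obtain ⟨N', hN'⟩ := Metric.tendsto_atTop.1 (cross m) (ε / 3) (by positivity)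
  refine ⟨max N N', fun n hn => ?_⟩
  have h1 := hN n m ((le_max_left _ _).trans hn) (le_max_left _ _)
  have h2 := hM m (le_max_right _ _)
  have h3 := hN' n ((le_max_right _ _).trans hn)
  rw [dist_eq_norm] at h2 h3 ⊢
  have e : (∫ z, (φ z : ℂ) * (P n z * Q' n z - Q n z * P' n z)) =
      X n m + ∫ z, (φ z : ℂ) * (P m z * Q' n z - Q m z * P' n z) := by
    simp only [hX]
    have c1 : ContinuousOn (fun z => (P n z - P m z) * Q' n z - (Q n z - Q m z) * P' n z) B :=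
      (((hP.co n).sub (hP.co m)).mul (hQ'.co n)).sub (((hQ.co n).sub (hQ.co m)).mul (hP'.co n))
    have c2 : ContinuousOn (fun z => P m z * Q' n z - Q m z * P' n z) B :=
      ((hP.co m).mul (hQ'.co n)).sub ((hQ.co m).mul (hP'.co n))
    rw [← integral_add (TF.cint hφ c1) (TF.cint hφ c2)]
    congr 1; funext z; ring
  rw [e]
  have e2 : X n m + (∫ z, (φ z : ℂ) * (P m z * Q' n z - Q m z * P' n z)) - L =
      X n m + (((∫ z, (φ z : ℂ) * (P m z * Q' n z - Q m z * P' n z)) - V m) + (V m - L)) := by ring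
  rw [e2]
  have h4 := norm_add_le (X n m) (((∫ z, (φ z : ℂ) * (P m z * Q' n z - Q m z * P' n z)) - V m) +
    (V m - L))
  have h5 := norm_add_le ((∫ z, (φ z : ℂ) * (P m z * Q' n z - Q m z * P' n z)) - V m) (V m - L)
  linarith

end

end Pool.Agent.TH294.RG
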